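import Mathlib
import Pool.Agent.Lib.MP_6a1159_al.BS.Defs

section

/-! K2a: derivations on a free group. -/

set_option autoImplicit false

namespace Pool.Agent.Lib.MP_6a1159_al.BS

/-- Existence of derivations, for an additive action `φ` of the free group on `M`. PROOF: let
`Θ : FreeGroup X →* Equiv.Perm M` be the homomorphism (`FreeGroup.lift`) which maps
the generator `x` to the affine bijection `v ↦ m x + φ (of x) v` (inverse
`v ↦ φ (of x)⁻¹ (v - m x)`). By induction on `g`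
(`FreeGroup.induction_on`) `Θ g v = Θ g 0 + φ g v`; put `D g := Θ g 0`. -/
theorem exists_deriv {X : Type} {M : Type} [AddCommGroup M] (φ : FreeGroup X → M → M)
    (h1 : ∀ v, φ 1 v = v) (hm : ∀ g h v, φ (g * h) v = φ g (φ h v))
    (ha : ∀ g v w, φ g (v + w) = φ g v + φ g w) (m : X → M) : ∃ D : FreeGroup X → M,
      (∀ g h, D (g * h) = D g + φ g (D h)) ∧ ∀ x, D (FreeGroup.of x) = m x := by
  have hi : ∀ g v, φ g⁻¹ (φ g v) = v := fun g v => by rw [← hm, inv_mul_cancel, h1]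
  have hi' : ∀ g v, φ g (φ g⁻¹ v) = v := fun g v => by rw [← hm, mul_inv_cancel, h1]
  have h0 : ∀ g, φ g 0 = 0 := fun g => by
    have h := ha g 0 0
    rw [add_zero] at h
    exact (left_eq_add.mp h)
  let e : X → Equiv.Perm M := fun x =>
    { toFun := fun v => m x + φ (FreeGroup.of x) v
      invFun := fun v => φ (FreeGroup.of x)⁻¹ (v - m x)
      left_inv := fun v => by
        show φ (FreeGroup.of x)⁻¹ (m x + φ (FreeGroup.of x) v - m x) = v
        rw [add_sub_cancel_left, hi]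
      right_inv := fun v => by
        show m x + φ (FreeGroup.of x) (φ (FreeGroup.of x)⁻¹ (v - m x)) = v
        rw [hi', add_sub_cancel] }
  let Θ : FreeGroup X →* Equiv.Perm M := FreeGroup.lift e
  have hof : ∀ x, Θ (FreeGroup.of x) = e x := fun x => FreeGroup.lift_apply_of
  have haff : ∀ g v, Θ g v = Θ g 0 + φ g v := by
    intro g
    induction g using FreeGroup.induction_on with
    | C1 =>
      intro v
      rw [map_one, h1]
      simp
    | of x =>
      intro v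
      rw [hof]
      show m x + φ (FreeGroup.of x) v = m x + φ (FreeGroup.of x) 0 + φ (FreeGroup.of x) v
      rw [h0, add_zero]
    | inv_of x _ =>
      intro v
      rw [map_inv, hof]
      show φ (FreeGroup.of x)⁻¹ (v - m x)
        = φ (FreeGroup.of x)⁻¹ (0 - m x) + φ (FreeGroup.of x)⁻¹ v
      rw [← ha]
      congr 1
      abel
    | mul g h hg hh =>
      intro v
      rw [map_mul, Equiv.Perm.mul_apply, Equiv.Perm.mul_apply, hg, hh, hg (Θ h 0), ha, hm,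
        add_assoc]
  refine ⟨fun g => Θ g 0, fun g h => ?_, fun x => ?_⟩
  · show Θ (g * h) 0 = Θ g 0 + φ g (Θ h 0)
    rw [map_mul, Equiv.Perm.mul_apply, haff g (Θ h 0)]
  · show Θ (FreeGroup.of x) 0 = m x
    rw [hof]
    show m x + φ (FreeGroup.of x) 0 = m x
    rw [h0, add_zero]

end Pool.Agent.Lib.MP_6a1159_al.BS
end

section

/-! K4a: the last edge where a function with finite coboundary on a free group changes. -/

set_option autoImplicit false

namespace Pool.Agent.Lib.MP_6a1159_al.BS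

/-- PROOF: let `Bad` be the set of `g : FreeGroup X`, `g ≠ 1`, with
`ψ g ≠ ψ (mk g.toWord.dropLast)`. `Bad` is finite: for `g ∈ Bad` with last letter `(x, b)` of
`g.toWord`, `g = u * s` with `u = mk g.toWord.dropLast`, `s = mk [(x, b)]`, so `u` is in the finite set
`{a | ψ (a * s) ≠ ψ a}`, and there are finitely many letters. `Bad` is not empty: otherwise by
induction on the length of the word `ψ g = ψ 1` for all `g` (a prefix of a reduced word is
reduced). Let `g ∈ Bad` with `g.toWord` of maximal length, `g.toWord = l ++ [s]`. Let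
`l ++ t :: m` be reduced; by induction on the length of `m` (from the end): `m = m' ++ [t']`;
`h := mk (l ++ t :: m)` has `toWord` `l ++ t :: m` of length `> (l ++ [s]).length`, so `h ∉ Bad` and
`ψ h = ψ (mk (l ++ t :: m'))`. (Useful: `FreeGroup.IsReduced`, `FreeGroup.isReduced_toWord`,
`FreeGroup.IsReduced.reduce_eq`, `FreeGroup.toWord_mk`, `FreeGroup.mk_toWord`; prefixes of reduced words are
reduced since `IsReduced` is a chain condition.) -/
theorem last_bad {X : Type} [DecidableEq X] [Finite X] (ψ : FreeGroup X → ℤ)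
    (h2 : ∀ s, {a | ψ (a * s) ≠ ψ a}.Finite) (hne : ∃ a, ψ a ≠ ψ 1) :
    ∃ (l : List (X × Bool)) (s : X × Bool), FreeGroup.IsReduced (l ++ [s]) ∧
      ψ (FreeGroup.mk (l ++ [s])) ≠ ψ (FreeGroup.mk l) ∧
      ∀ (t : X × Bool) (m : List (X × Bool)), FreeGroup.IsReduced (l ++ t :: m) →
        ψ (FreeGroup.mk (l ++ t :: m)) = ψ (FreeGroup.mk (l ++ [t])) := by
  have hpre : ∀ (u v : List (X × Bool)), FreeGroup.IsReduced (u ++ v) → FreeGroup.IsReduced u :=
    fun u v h => List.IsChain.left_of_append h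
  have hfin : {w : List (X × Bool) | ∃ l s, w = l ++ [s] ∧ FreeGroup.IsReduced w ∧
      ψ (FreeGroup.mk w) ≠ ψ (FreeGroup.mk l)}.Finite := by
    have h1 : (⋃ s : X × Bool, (fun a : FreeGroup X => a * FreeGroup.mk [s]) ''
        {a | ψ (a * FreeGroup.mk [s]) ≠ ψ a}).Finite :=
      Set.finite_iUnion fun s => (h2 _).image _
    refine (h1.image FreeGroup.toWord).subset ?_
    rintro w ⟨l, s, rfl, hr, hne'⟩
    have hm : FreeGroup.mk l * FreeGroup.mk [s] = FreeGroup.mk (l ++ [s]) := FreeGroup.mul_mk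
    refine ⟨FreeGroup.mk (l ++ [s]), Set.mem_iUnion.2 ⟨s, FreeGroup.mk l, ?_, hm⟩, ?_⟩
    · show ψ (FreeGroup.mk l * FreeGroup.mk [s]) ≠ ψ (FreeGroup.mk l)
      rw [hm]
      exact hne'
    · rw [FreeGroup.toWord_mk]
      exact hr.reduce_eq
  have hnem : {w : List (X × Bool) | ∃ l s, w = l ++ [s] ∧ FreeGroup.IsReduced w ∧
      ψ (FreeGroup.mk w) ≠ ψ (FreeGroup.mk l)}.Nonempty := by
    by_contra hemp
    rw [Set.not_nonempty_iff_eq_empty, Set.eq_empty_iff_forall_notMem] at hemp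
    have h1 : ∀ w : List (X × Bool), FreeGroup.IsReduced w → ψ (FreeGroup.mk w) = ψ 1 := by
      intro w
      induction w using List.reverseRecOn with
      | nil => intro _; rfl
      | append_singleton l s ih =>
        intro hr
        rw [← ih (hpre _ _ hr)]
        by_contra hc
        exact hemp (l ++ [s]) ⟨l, s, rfl, hr, hc⟩
    obtain ⟨a, ha⟩ := hne
    refine ha ?_
    have h3 := h1 a.toWord FreeGroup.isReduced_toWord
    rwa [FreeGroup.mk_toWord] at h3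
  obtain ⟨w, ⟨l, s, rfl, hr, hψ⟩, hmax⟩ := Set.exists_max_image _ List.length hfin hnem
  refine ⟨l, s, hr, hψ, fun t m => ?_⟩
  induction m using List.reverseRecOn with
  | nil => intro _; rfl
  | append_singleton m' t' ih =>
    intro hr'
    have e : l ++ t :: (m' ++ [t']) = (l ++ t :: m') ++ [t'] := by simp
    rw [e] at hr' ⊢
    rw [← ih (hpre _ _ hr')]
    by_contra hc
    have h4 := hmax _ ⟨l ++ t :: m', t', rfl, hr', hc⟩
    simp only [List.length_append, List.length_cons, List.length_nil] at h4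
    omega

end Pool.Agent.Lib.MP_6a1159_al.BS
end

section

/-! O2: limits of a function with finite coboundary along the lines `g ⟨c⟩`. -/

set_option autoImplicit false

open Filter

namespace Pool.Agent.Lib.MP_6a1159_al.BS

private theorem O2_inj {P : Type} [Group P] (c : P) (hc : ∀ k : ℤ, c ^ k = 1 → k = 0) (g : P) :
    Function.Injective (fun k : ℤ => g * c ^ k) := by
  intro k l h
  have h1 : c ^ k = c ^ l := mul_left_cancel h
  have h2 : c ^ (k - l) = 1 := by rw [zpow_sub, h1, mul_inv_cancel]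
  have h3 := hc _ h2
  omega

private theorem O2_top (f : ℤ → ℤ) (hf : {k | f (k + 1) ≠ f k}.Finite) :
    (∃ a, ∀ᶠ k in atTop, f k = a) ∧ ∃ b, ∀ᶠ k in atBot, f k = b := by
  constructor
  · obtain ⟨M, hM⟩ := hf.bddAbove
    refine ⟨f (M + 1), eventually_atTop.2 ⟨M + 1, fun k hk => ?_⟩⟩
    induction k, hk using Int.leInduction with
    | base => rfl
    | succ k hk ih =>
      rw [← ih]
      by_contra hne
      have := hM hne
      omega
  · obtain ⟨m, hm⟩ := hf.bddBelow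
    refine ⟨f m, eventually_atBot.2 ⟨m, fun k hk => ?_⟩⟩
    induction k, hk using Int.leInductionDown with
    | base => rfl
    | pred k hk ih =>
      rw [← ih]
      by_contra hne
      have h1 : f (k - 1 + 1) ≠ f (k - 1) := by
        rw [sub_add_cancel]
        exact fun h => hne h.symm
      have := hm h1
      omega

private theorem O2_const_up (f : ℤ → ℤ) (h : ∀ k, 0 ≤ k → f (k + 1) = f k) : ∀ k, 0 ≤ k → f k = f 0 := by
  intro k hk
  induction k, hk using Int.leInduction with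
  | base => rfl
  | succ k hk ih => rw [h k hk, ih]

private theorem O2_const_down (f : ℤ → ℤ) (h : ∀ k, k < 0 → f (k + 1) = f k) : ∀ k, k ≤ 0 → f k = f 0 := by
  intro k hk
  induction k, hk using Int.leInductionDown with
  | base => rfl
  | pred k hk ih =>
    have h1 := h (k - 1) (by omega)
    rw [sub_add_cancel] at h1
    rw [← h1, ih]

/-- PROOF: let `δ := {g | U (g * c) ≠ U g}` (finite). For fixed `g` the elements `g * c ^ k`
(`k : ℤ`) are distinct (`hc`), so only finitely many of them are in `δ`; hence `U (g * c ^ k)` is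
constant for large `k` and for very negative `k`: this defines `p g`, `m g`
(`U (g * c⁻¹ ^ (k+1)) ≠ U (g * c⁻¹ ^ k)` iff `g * c⁻¹ ^ (k+1) ∈ δ`). The values at `g * c ^ j` are
the same. If `p g ≠ m g` then some `g * c ^ k ∈ δ`, so `g = y * c ^ (-k)` with `y ∈ F := δ`.
Last part: let `U g ≠ p g = m g`. Then there are `k ≥ 0` with `g * c ^ k ∈ δ` and `k' ≥ 1` with
`g * c ^ (-k') ∈ δ`, so `c ^ (k + k') = (g * c ^ (-k'))⁻¹ * (g * c ^ k)` is in the finite set
`δ⁻¹ * δ`; by `hc` the map `j ↦ c ^ j` is injective, so `k + k'` is in a finite set of integers,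
`k` is bounded by some `K` independent of `g`, and `g = y * c ^ (-k)` with `y ∈ δ`, `0 ≤ k ≤ K`: finitely
many `g`. -/
theorem lims {P : Type} [Group P] (c : P) (hc : ∀ k : ℤ, c ^ k = 1 → k = 0) (U : P → ℤ)
    (hU : {g | U (g * c) ≠ U g}.Finite) : ∃ p m : P → ℤ,
      (∀ g, ∀ᶠ k : ℕ in atTop, U (g * c ^ k) = p g ∧ U (g * c⁻¹ ^ k) = m g) ∧
      (∀ g, ∀ k : ℤ, p (g * c ^ k) = p g ∧ m (g * c ^ k) = m g) ∧
      (∃ F : Finset P, ∀ g, p g ≠ m g → ∃ y ∈ F, ∃ k : ℤ, g = y * c ^ k) ∧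
      {g | p g = m g ∧ U g ≠ p g}.Finite := by
  have hstep : ∀ (g : P) (k : ℤ), U (g * c ^ (k + 1)) ≠ U (g * c ^ k) ↔ g * c ^ k ∈ {g | U (g * c) ≠ U g} := by
    intro g k
    rw [zpow_add_one, ← mul_assoc]
    rfl
  have hfin : ∀ g : P, {k : ℤ | U (g * c ^ (k + 1)) ≠ U (g * c ^ k)}.Finite := by
    intro g
    refine (hU.preimage ((O2_inj c hc g).injOn)).subset fun k hk => ?_
    exact (hstep g k).1 hk
  choose p hp using fun g => (O2_top (fun k => U (g * c ^ k)) (hfin g)).1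
  choose m hm using fun g => (O2_top (fun k => U (g * c ^ k)) (hfin g)).2
  refine ⟨p, m, ?_, ?_, ?_, ?_⟩
  · intro g
    have h1 : ∀ᶠ k : ℕ in atTop, U (g * c ^ ((k : ℕ) : ℤ)) = p g :=
      tendsto_natCast_atTop_atTop.eventually (hp g)
    have h2 : ∀ᶠ k : ℕ in atTop, U (g * c ^ (-((k : ℕ) : ℤ))) = m g :=
      (tendsto_neg_atTop_atBot.comp tendsto_natCast_atTop_atTop).eventually (hm g)
    filter_upwards [h1, h2] with k hk1 hk2
    rw [zpow_natCast] at hk1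
    rw [zpow_neg, zpow_natCast, ← inv_pow] at hk2
    exact ⟨hk1, hk2⟩
  · intro g j
    constructor
    · have h1 : ∀ᶠ k : ℤ in atTop, U (g * c ^ (j + k)) = p g :=
        (tendsto_atTop_add_const_left atTop j tendsto_id).eventually (hp g)
      obtain ⟨k, hk1, hk2⟩ := (h1.and (hp (g * c ^ j))).exists
      rw [← hk1, ← hk2, mul_assoc, ← zpow_add]
    · have h1 : ∀ᶠ k : ℤ in atBot, U (g * c ^ (j + k)) = m g :=
        (tendsto_atBot_add_const_left atBot j tendsto_id).eventually (hm g)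
      obtain ⟨k, hk1, hk2⟩ := (h1.and (hm (g * c ^ j))).exists
      rw [← hk1, ← hk2, mul_assoc, ← zpow_add]
  · refine ⟨hU.toFinset, fun g hg => ?_⟩
    by_contra hcon
    push Not at hcon
    have hall : ∀ k : ℤ, U (g * c ^ (k + 1)) = U (g * c ^ k) := by
      intro k
      by_contra hne
      have h1 := (hstep g k).1 hne
      refine hcon (g * c ^ k) (hU.mem_toFinset.2 h1) (-k) ?_
      rw [mul_assoc, ← zpow_add, add_neg_cancel, zpow_zero, mul_one]
    have hup := O2_const_up (fun k => U (g * c ^ k)) fun k _ => hall k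
    have hdown := O2_const_down (fun k => U (g * c ^ k)) fun k _ => hall k
    obtain ⟨k, hk1, hk2⟩ := ((hp g).and (eventually_ge_atTop 0)).exists
    obtain ⟨l, hl1, hl2⟩ := ((hm g).and (eventually_le_atBot 0)).exists
    apply hg
    rw [← hk1, ← hl1]
    exact (hup k hk2).trans (hdown l hl2).symm
  · -- the last part
    have hJ : {j : ℤ | ∃ y ∈ {g | U (g * c) ≠ U g}, ∃ y' ∈ {g | U (g * c) ≠ U g}, c ^ j = y'⁻¹ * y}.Finite := by
      have h1 : (Set.image2 (fun y y' : P => y'⁻¹ * y) {g | U (g * c) ≠ U g} {g | U (g * c) ≠ U g}).Finite :=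
        hU.image2 _ hU
      have h2 : Function.Injective (fun k : ℤ => c ^ k) := by
        intro k l h
        have h3 : (1 : P) * c ^ k = 1 * c ^ l := by
          rw [one_mul, one_mul]
          exact h
        exact O2_inj c hc 1 h3
      refine (h1.preimage h2.injOn).subset ?_
      rintro j ⟨y, hy, y', hy', hj⟩
      exact ⟨y, hy, y', hy', hj.symm⟩
    obtain ⟨K, hK⟩ := hJ.bddAbove
    refine ((hU.prod (Set.finite_Icc (0 : ℤ) K)).image (fun q : P × ℤ => q.1 * c ^ (-q.2))).subset ?_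
    rintro g ⟨hpm, hne⟩
    obtain ⟨k, hk0, hk⟩ : ∃ k : ℤ, 0 ≤ k ∧ g * c ^ k ∈ {g | U (g * c) ≠ U g} := by
      by_contra hcon
      push Not at hcon
      have hup := O2_const_up (fun k => U (g * c ^ k)) fun k hk => by
        by_contra h1
        exact hcon k hk ((hstep g k).1 h1)
      obtain ⟨k, hk1, hk2⟩ := ((hp g).and (eventually_ge_atTop 0)).exists
      apply hne
      have h2 : U (g * c ^ k) = U (g * c ^ (0 : ℤ)) := hup k hk2
      rw [← hk1, h2, zpow_zero, mul_one]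
    obtain ⟨l, hl0, hl⟩ : ∃ l : ℤ, l < 0 ∧ g * c ^ l ∈ {g | U (g * c) ≠ U g} := by
      by_contra hcon
      push Not at hcon
      have hdown := O2_const_down (fun k => U (g * c ^ k)) fun k hk => by
        by_contra h1
        exact hcon k hk ((hstep g k).1 h1)
      obtain ⟨k, hk1, hk2⟩ := ((hm g).and (eventually_le_atBot 0)).exists
      apply hne
      have h2 : U (g * c ^ k) = U (g * c ^ (0 : ℤ)) := hdown k hk2
      rw [hpm, ← hk1, h2, zpow_zero, mul_one]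
    have hkl : k - l ≤ K := by
      refine hK ⟨g * c ^ k, hk, g * c ^ l, hl, ?_⟩
      group
    refine ⟨(g * c ^ k, k), ⟨hk, hk0, by omega⟩, ?_⟩
    change g * c ^ k * c ^ (-k) = g
    rw [mul_assoc, ← zpow_add, add_neg_cancel, zpow_zero, mul_one]

end Pool.Agent.Lib.MP_6a1159_al.BS
end

section

/-! K5a: free groups of finite rank are Hopfian. -/

set_option autoImplicit false

namespace Pool.Agent.Lib.MP_6a1159_al.BS

/-- an injection between subsets of a finite type extends to a permutation -/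
private theorem K5a_perm {α : Type} [Fintype α] (r : α → α → Prop)
    (h1 : ∀ a b b', r a b → r a b' → b = b') (h2 : ∀ a a' b, r a b → r a' b → a = a') :
    ∃ σ : Equiv.Perm α, ∀ a b, r a b → σ a = b := by
  classical
  let f : {a // ∃ b, r a b} → {b // ∃ a, r a b} := fun a => ⟨a.2.choose, a.1, a.2.choose_spec⟩
  have hf : ∀ a : {a // ∃ b, r a b}, r a.1 (f a).1 := fun a => a.2.choose_spec
  have hbij : Function.Bijective f := by
    constructor
    · intro a a' haa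
      have e1 := hf a
      have e2 := hf a'
      rw [← haa] at e2
      exact Subtype.ext (h2 _ _ _ e1 e2)
    · rintro ⟨b, a, hab⟩
      refine ⟨⟨a, b, hab⟩, Subtype.ext ?_⟩
      exact h1 _ _ _ (hf ⟨a, b, hab⟩) hab
  refine ⟨(Equiv.ofBijective f hbij).extendSubtype, fun a b hab => ?_⟩
  rw [Equiv.extendSubtype_apply_of_mem _ a ⟨b, hab⟩]
  exact h1 _ _ _ (hf ⟨a, b, hab⟩) hab

/-- Free groups are residually finite. PROOF: let `L := w.toWord = [(x₀, e₀), …, (x_{m-1}, e_{m-1})]`, a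
reduced word of length `m ≥ 1`. On the `m + 1` points `0, …, m` define for every generator `x` a
injection of a subset: if `x_j = x` and `e_j = true` it sends `j + 1 ↦ j`, and if `x_j = x`, `e_j = false` it sends
`j ↦ j + 1`. As the word is reduced this is well defined and injective (two different
conditions for the same source or target would be consecutive letters `(x, e), (x, !e)`). Extend it to a permutation of
`Fin (m + 1)` (a bijection between two finite subsets of the same cardinality extends: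
`Equiv.extendSubtype`, or `Set.InjOn`/`Function.Injective.exists...`). Let `θ` be the homomorphism with these
values. Then `θ w = θ (x₀)^{e₀} ⋯ θ (x_{m-1})^{e_{m-1}}` maps `m` to `0`, as the `j`-th factor maps `j + 1`
to `j`. So `θ w ≠ 1`. -/
theorem resid {X : Type} [DecidableEq X] (w : FreeGroup X) (hw : w ≠ 1) :
    ∃ (m : ℕ) (θ : FreeGroup X →* Equiv.Perm (Fin m)), θ w ≠ 1 := by
  classical
  obtain ⟨L, hL⟩ : ∃ L : List (X × Bool), L = w.toWord := ⟨_, rfl⟩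
  have hred : ∀ (i : ℕ) (hi : i + 1 < L.length), L[i].1 = L[i + 1].1 → L[i].2 = L[i + 1].2 := by
    have h0 : FreeGroup.IsReduced L := by
      rw [hL]
      exact FreeGroup.isReduced_toWord
    exact List.isChain_iff_getElem.1 h0
  have hne : 0 < L.length := by
    rw [List.length_pos_iff]
    intro h0
    rw [hL] at h0
    exact hw (FreeGroup.toWord_eq_nil_iff.1 h0)
  let r : X → Fin (L.length + 1) → Fin (L.length + 1) → Prop := fun x a b =>
    ∃ (j : ℕ) (hj : j < L.length), L[j].1 = x ∧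
      ((L[j].2 = true ∧ a.1 = j + 1 ∧ b.1 = j) ∨ (L[j].2 = false ∧ a.1 = j ∧ b.1 = j + 1))
  have key : ∀ (i j : ℕ) (hi : i < L.length) (hj : j < L.length), j = i + 1 → L[i].1 = L[j].1 →
      L[i].2 = L[j].2 := by
    rintro i j hi hj rfl
    exact hred i hj
  have hr1 : ∀ x a b b', r x a b → r x a b' → b = b' := by
    rintro x a b b' ⟨j, hj, hx, h⟩ ⟨j', hj', hx', h'⟩
    rcases h with ⟨e, ha, hb⟩ | ⟨e, ha, hb⟩ <;> rcases h' with ⟨e', ha', hb'⟩ | ⟨e', ha', hb'⟩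
    · exact Fin.ext (by omega)
    · have h3 := key j j' hj hj' (by omega) (hx.trans hx'.symm)
      rw [e, e'] at h3
      exact absurd h3 (by decide)
    · have h3 := key j' j hj' hj (by omega) (hx'.trans hx.symm)
      rw [e, e'] at h3
      exact absurd h3 (by decide)
    · exact Fin.ext (by omega)
  have hr2 : ∀ x a a' b, r x a b → r x a' b → a = a' := by
    rintro x a b b' ⟨j, hj, hx, h⟩ ⟨j', hj', hx', h'⟩
    rcases h with ⟨e, ha, hb⟩ | ⟨e, ha, hb⟩ <;> rcases h' with ⟨e', ha', hb'⟩ | ⟨e', ha', hb'⟩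
    · exact Fin.ext (by omega)
    · have h3 := key j' j hj' hj (by omega) (hx'.trans hx.symm)
      rw [e, e'] at h3
      exact absurd h3 (by decide)
    · have h3 := key j j' hj hj' (by omega) (hx.trans hx'.symm)
      rw [e, e'] at h3
      exact absurd h3 (by decide)
    · exact Fin.ext (by omega)
  have hσ : ∀ x, ∃ σ : Equiv.Perm (Fin (L.length + 1)), ∀ a b, r x a b → σ a = b :=
    fun x => K5a_perm (r x) (hr1 x) (hr2 x)
  choose σ hσ using hσ
  refine ⟨L.length + 1, FreeGroup.lift σ, ?_⟩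
  have hstep : ∀ (j : ℕ) (hj : j < L.length),
      (cond L[j].2 (σ L[j].1) (σ L[j].1)⁻¹) ⟨j + 1, by omega⟩ = ⟨j, by omega⟩ := by
    intro j hj
    cases hb : L[j].2 with
    | true =>
      rw [cond_true]
      exact hσ _ _ _ ⟨j, hj, rfl, Or.inl ⟨hb, rfl, rfl⟩⟩
    | false =>
      rw [cond_false, Equiv.Perm.inv_eq_iff_eq]
      exact (hσ _ _ _ ⟨j, hj, rfl, Or.inr ⟨hb, rfl, rfl⟩⟩).symm
  have hprod : ∀ (k : ℕ) (hk : k ≤ L.length),
      (((L.drop (L.length - k)).map fun q => cond q.2 (σ q.1) (σ q.1)⁻¹).prod) ⟨L.length, by omega⟩ =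
        ⟨L.length - k, by omega⟩ := by
    intro k
    induction k with
    | zero =>
      intro hk
      simp
    | succ k ih =>
      intro hk
      have h1 : L.length - (k + 1) < L.length := by omega
      rw [List.drop_eq_getElem_cons h1]
      have h2 : L.length - (k + 1) + 1 = L.length - k := by omega
      rw [List.map_cons, List.prod_cons, Equiv.Perm.mul_apply]
      have h3 := ih (by omega)
      have h4 : (((L.drop (L.length - (k + 1) + 1)).map fun q => cond q.2 (σ q.1) (σ q.1)⁻¹).prod)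
          ⟨L.length, by omega⟩ = ⟨L.length - (k + 1) + 1, by omega⟩ := by
        simp only [h2]
        exact h3
      rw [h4]
      exact hstep _ h1
  intro h1
  have h2 : w = FreeGroup.mk L := by
    rw [hL]
    exact FreeGroup.mk_toWord.symm
  rw [h2, FreeGroup.lift_mk] at h1
  have h3 := congrArg Fin.val (hprod L.length le_rfl)
  simp only [Nat.sub_self, List.drop_zero] at h3
  rw [h1] at h3
  simp only [Equiv.Perm.coe_one, id_eq] at h3
  omega

end Pool.Agent.Lib.MP_6a1159_al.BS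
end

section

/-! K5b: free groups of finite rank are Hopfian. -/

set_option autoImplicit false

namespace Pool.Agent.Lib.MP_6a1159_al.BS

/-- PROOF: suppose `φ w = 1`, `w ≠ 1`; `resid` gives `θ : FreeGroup X →* K`, `K` finite, `θ w ≠ 1`. The set of
homomorphisms `FreeGroup X →* K` is finite (they correspond to functions `X → K`, `FreeGroup.lift`), and
precomposition with the surjection `φ` is injective on it, hence surjective
(`Finite.injective_iff_surjective`): `θ = θ' ∘ φ`, `θ w = θ' 1 = 1`, a contradiction. -/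
theorem hopfF {X : Type} [Finite X] (φ : FreeGroup X →* FreeGroup X)
    (hφ : Function.Surjective φ) : Function.Injective φ := by
  rw [injective_iff_map_eq_one]
  intro w hw
  by_contra hne
  classical
  obtain ⟨m, θ, hθ⟩ := resid w hne
  have : Finite (FreeGroup X →* Equiv.Perm (Fin m)) :=
    Finite.of_equiv (X → Equiv.Perm (Fin m)) FreeGroup.lift
  have hinj : Function.Injective
      (fun ψ : FreeGroup X →* Equiv.Perm (Fin m) => ψ.comp φ) := by
    intro ψ ψ' h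
    exact (MonoidHom.cancel_right hφ).mp h
  obtain ⟨θ', hθ'⟩ := (Finite.injective_iff_surjective.mp hinj) θ
  apply hθ
  have h1 : θ w = θ' (φ w) := by
    rw [← hθ']
    rfl
  rw [h1, hw, map_one]

end Pool.Agent.Lib.MP_6a1159_al.BS
end

section

/-! K5: see the imported files. -/
end

section

/-! S1: basic properties of the side function `chi` of a splitting. -/

set_option autoImplicit false

open Filter

namespace Pool.Agent.Lib.MP_6a1159_al.BS

namespace Spl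

variable {P : Type} [Group P] (S : Spl P)

/-- Induction principle. PROOF: by `S.gen` every `g` lies in `A ⊔ B = closure (A ∪ B)`
(`Subgroup.sup_eq_closure`); use `Subgroup.closure_induction_right` (inverses of elements of `A`,
`B` lie in `A`, `B`). -/
theorem ind (p : P → Prop) (h1 : p 1) (hA : ∀ g, p g → ∀ a ∈ S.A, p (g * a))
    (hB : ∀ g, p g → ∀ b ∈ S.B, p (g * b)) (g : P) : p g := by
  have hg : g ∈ Subgroup.closure ((S.A : Set P) ∪ S.B) := by
    rw [← Subgroup.sup_eq_closure, S.gen]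
    trivial
  refine Subgroup.closure_induction_right (p := fun x _ => p x) h1 ?_ ?_ hg
  · rintro x _ y (hy | hy) hx
    · exact hA x hx y hy
    · exact hB x hx y hy
  · rintro x _ y (hy | hy) hx
    · exact hA x hx y⁻¹ (S.A.inv_mem hy)
    · exact hB x hx y⁻¹ (S.B.inv_mem hy)

/-- PROOF: `chi_c` and induction on the integer `k` (`Int.induction_on`; for the negative step use
`chi_c` at `c⁻¹ * g`). -/
theorem chi_zpow (k : ℤ) (g : P) : S.chi (S.c ^ k * g) = S.chi g := by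
  induction k using Int.induction_on generalizing g with
  | zero => rw [zpow_zero, one_mul]
  | succ n ih => rw [zpow_add_one, mul_assoc, ih, S.chi_c]
  | pred n ih =>
    rw [zpow_sub_one, mul_assoc, ih]
    have h := S.chi_c (S.c⁻¹ * g)
    rw [mul_inv_cancel_left] at h
    exact h.symm

/-- PROOF: `chi_A` with `c ^ k ∈ A`. -/
theorem chi_mul_zpow (g : P) (k : ℤ) : S.chi (g * S.c ^ k) = S.chi g := by
  exact S.chi_A g _ (S.A.zpow_mem S.c_mem_A k)

/-- PROOF: `g = c ^ k * 1`, `chi_zpow`, `chi_one`. -/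
theorem chi_Z (g : P) (hg : g ∈ Subgroup.zpowers S.c) : S.chi g = 0 := by
  obtain ⟨k, hk⟩ := Subgroup.mem_zpowers_iff.1 hg
  have h := chi_zpow S k 1
  rw [mul_one, S.chi_one, hk] at h
  exact h

/-- PROOF: `chi (1 * a) = chi 1 = 0`. -/
theorem chi_mem_A (a : P) (ha : a ∈ S.A) : S.chi a = 0 := by
  have h := S.chi_A 1 a ha
  rw [one_mul, S.chi_one] at h
  exact h

/-- PROOF: `g = c ^ k`, `b ∉ ⟨c⟩` (else `g * b ∈ ⟨c⟩`), `chi (c ^ k * b) = chi b = 1`. -/
theorem chi_Z_mul (g b : P) (hg : g ∈ Subgroup.zpowers S.c) (hb : b ∈ S.B)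
    (h : g * b ∉ Subgroup.zpowers S.c) : S.chi (g * b) = 1 := by
  obtain ⟨k, hk⟩ := Subgroup.mem_zpowers_iff.1 hg
  have hb' : b ∉ Subgroup.zpowers S.c := fun h' => h (mul_mem hg h')
  rw [← hk, chi_zpow S k b]
  exact S.chi_b b hb hb'

/-- PROOF: `ind`. Right multiplication by `a ∈ A` does not change `chi`. For `b ∈ B`: if
`g * b ∈ ⟨c⟩` then `chi (g * b) = 0`; if `g ∈ ⟨c⟩` and `g * b ∉ ⟨c⟩` then `chi (g * b) = 1`
(`chi_Z_mul`); otherwise `chi (g * b) = chi g` (`chi_B`). -/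
theorem chi_01 (g : P) : S.chi g = 0 ∨ S.chi g = 1 := by
  refine ind S (fun g => S.chi g = 0 ∨ S.chi g = 1) (Or.inl S.chi_one) ?_ ?_ g
  · intro g hg a ha
    show S.chi (g * a) = 0 ∨ S.chi (g * a) = 1
    rw [S.chi_A g a ha]
    exact hg
  · intro g hg b hb
    show S.chi (g * b) = 0 ∨ S.chi (g * b) = 1
    by_cases h1 : g * b ∈ Subgroup.zpowers S.c
    · exact Or.inl (chi_Z S _ h1)
    · by_cases h2 : g ∈ Subgroup.zpowers S.c
      · exact Or.inr (chi_Z_mul S g b h2 hb h1)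
      · rw [S.chi_B g b hb h2 h1]
        exact hg

/-- Nestedness of the walls `⟨c⟩` and `k ⟨c⟩`. PROOF: `ind` for `x`. At `x = 1` the second
alternative holds. Right multiplication by `a ∈ A` changes neither `chi x` nor `chi (k⁻¹ * x)`.
Let `b ∈ B`, and suppose the claim for `x`.
(1) `x * b ∈ ⟨c⟩`: `x * b = c ^ j`, so `chi (k⁻¹ * (x * b)) = chi (k⁻¹ * c ^ j) = chi k⁻¹`.
(2) `k⁻¹ * (x * b) ∈ ⟨c⟩`: `x * b = k * c ^ j` and `chi (x * b) = chi k`.
(3) otherwise: if `x ∉ ⟨c⟩` then `chi (x * b) = chi x` (`chi_B`), and if moreover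
`k⁻¹ * x ∉ ⟨c⟩` then `chi (k⁻¹ * x * b) = chi (k⁻¹ * x)` and the claim for `x` gives the claim;
if `k⁻¹ * x ∈ ⟨c⟩` then `x = k * c ^ j`, `chi (x * b) = chi x = chi k`.
If `x ∈ ⟨c⟩`, `x = c ^ j`, then `k⁻¹ * x ∉ ⟨c⟩` since `k ∉ ⟨c⟩`, so
`chi (k⁻¹ * x * b) = chi (k⁻¹ * x) = chi (k⁻¹ * c ^ j) = chi k⁻¹`. -/
theorem nested (k : P) (hk : k ∉ Subgroup.zpowers S.c) (x : P) :
    S.chi x = S.chi k ∨ S.chi (k⁻¹ * x) = S.chi k⁻¹ := by
  refine ind S (fun x => S.chi x = S.chi k ∨ S.chi (k⁻¹ * x) = S.chi k⁻¹) (Or.inr ?_) ?_ ?_ x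
  · rw [mul_one]
  · intro x hx a ha
    show S.chi (x * a) = S.chi k ∨ S.chi (k⁻¹ * (x * a)) = S.chi k⁻¹
    rw [S.chi_A x a ha, ← mul_assoc, S.chi_A (k⁻¹ * x) a ha]
    exact hx
  · intro x hx b hb
    show S.chi (x * b) = S.chi k ∨ S.chi (k⁻¹ * (x * b)) = S.chi k⁻¹
    have hx' : S.chi x = S.chi k ∨ S.chi (k⁻¹ * x) = S.chi k⁻¹ := hx
    by_cases h1 : x * b ∈ Subgroup.zpowers S.c
    · obtain ⟨j, hj⟩ := Subgroup.mem_zpowers_iff.1 h1
      right
      rw [← hj, chi_mul_zpow]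
    by_cases h2 : k⁻¹ * (x * b) ∈ Subgroup.zpowers S.c
    · obtain ⟨j, hj⟩ := Subgroup.mem_zpowers_iff.1 h2
      left
      have h3 : x * b = k * S.c ^ j := by
        rw [hj, mul_inv_cancel_left]
      rw [h3, chi_mul_zpow]
    have h2' : k⁻¹ * x * b ∉ Subgroup.zpowers S.c := by
      rw [mul_assoc]
      exact h2
    by_cases h3 : x ∈ Subgroup.zpowers S.c
    · obtain ⟨j, hj⟩ := Subgroup.mem_zpowers_iff.1 h3
      right
      have h4 : k⁻¹ * x ∉ Subgroup.zpowers S.c := by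
        intro h5
        apply hk
        have h6 : x * (k⁻¹ * x)⁻¹ ∈ Subgroup.zpowers S.c :=
          mul_mem h3 (Subgroup.inv_mem _ h5)
        rw [mul_inv_rev, inv_inv, mul_inv_cancel_left] at h6
        exact h6
      rw [← mul_assoc, S.chi_B _ b hb h4 h2', ← hj, chi_mul_zpow]
    · rw [S.chi_B x b hb h3 h1]
      by_cases h4 : k⁻¹ * x ∈ Subgroup.zpowers S.c
      · obtain ⟨j, hj⟩ := Subgroup.mem_zpowers_iff.1 h4
        left
        have h5 : x = k * S.c ^ j := by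
          rw [hj, mul_inv_cancel_left]
        rw [h5, chi_mul_zpow]
      · rw [← mul_assoc, S.chi_B _ b hb h4 h2']
        exact hx'

end Spl

end Pool.Agent.Lib.MP_6a1159_al.BS
end

section

/-! S2: first walls on a path, and the finiteness of the set of separating walls. -/

set_option autoImplicit false

open Filter

namespace Pool.Agent.Lib.MP_6a1159_al.BS

namespace Spl

variable {P : Type} [Group P] (S : Spl P)

/-- PROOF: if `g ∉ ⟨c⟩` then `chi g = 1` by `chi_b`, but `chi g = 0` by `chi_mem_A`. -/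
theorem inter_AB (g : P) (hA : g ∈ S.A) (hB : g ∈ S.B) : g ∈ Subgroup.zpowers S.c := by
  by_contra h
  have h1 := S.chi_b g hB h
  rw [S.chi_mem_A g hA] at h1
  exact zero_ne_one h1

/-- PROOF: by `ind` prove for every `k`: `k ∈ A ∨ ∃ a ∈ A, chi (a⁻¹ * k) = 1`. `k = 1`: in `A`.
Step by `a₁ ∈ A`: `k ∈ A` gives `k * a₁ ∈ A`, and `chi (a⁻¹ * k * a₁) = chi (a⁻¹ * k)`. Step by
`b ∈ B`: if `k ∈ A`: either `b ∈ ⟨c⟩`, then `k * b ∈ A`, or take `a = k`,
`chi (k⁻¹ * (k * b)) = chi b = 1`. If `chi (a⁻¹ * k) = 1` then `a⁻¹ * k ∉ ⟨c⟩` (`chi_Z`); if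
`a⁻¹ * k * b ∈ ⟨c⟩` then `k * b ∈ a ⟨c⟩ ⊆ A`; otherwise `chi (a⁻¹ * k * b) = chi (a⁻¹ * k) = 1` by
`chi_B`. -/
theorem exA (k : P) (hk : k ∉ S.A) : ∃ a ∈ S.A, S.chi (a⁻¹ * k) = 1 := by
  have key : ∀ k : P, k ∈ S.A ∨ ∃ a ∈ S.A, S.chi (a⁻¹ * k) = 1 := by
    refine S.ind (fun k => k ∈ S.A ∨ ∃ a ∈ S.A, S.chi (a⁻¹ * k) = 1) (Or.inl S.A.one_mem) ?_ ?_
    · intro g hg a ha
      rcases hg with hg | ⟨a', ha', hg⟩
      · exact Or.inl (S.A.mul_mem hg ha)
      · refine Or.inr ⟨a', ha', ?_⟩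
        rw [← mul_assoc, S.chi_A _ a ha]
        exact hg
    · intro g hg b hb
      rcases hg with hg | ⟨a', ha', hg⟩
      · by_cases hbz : b ∈ Subgroup.zpowers S.c
        · left
          exact S.A.mul_mem hg ((Subgroup.zpowers_le (H := S.A)).2 S.c_mem_A hbz)
        · right
          refine ⟨g, hg, ?_⟩
          rw [inv_mul_cancel_left]
          exact S.chi_b b hb hbz
      · by_cases hz : a'⁻¹ * g * b ∈ Subgroup.zpowers S.c
        · left
          have h1 : a' * (a'⁻¹ * g * b) ∈ S.A :=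
            S.A.mul_mem ha' ((Subgroup.zpowers_le (H := S.A)).2 S.c_mem_A hz)
          have h2 : a' * (a'⁻¹ * g * b) = g * b := by group
          rwa [h2] at h1
        · right
          refine ⟨a', ha', ?_⟩
          rw [← mul_assoc, S.chi_B (a'⁻¹ * g) b hb (fun h => ?_) hz]
          · exact hg
          · rw [S.chi_Z _ h] at hg
            exact zero_ne_one hg
  exact (key k).resolve_left hk

/-- PROOF: suppose `k' := a⁻¹ * a' ∉ ⟨c⟩`. `nested k'` at `x = a⁻¹ * k`: `chi x = chi k' = 0`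
(`chi_mem_A`), impossible, or `chi (k'⁻¹ * x) = chi k'⁻¹ = 0`; but
`k'⁻¹ * x = a'⁻¹ * k` has `chi = 1`. -/
theorem uniqA (k a a' : P) (ha : a ∈ S.A) (ha' : a' ∈ S.A) (h : S.chi (a⁻¹ * k) = 1)
    (h' : S.chi (a'⁻¹ * k) = 1) : a⁻¹ * a' ∈ Subgroup.zpowers S.c := by
  by_contra hc
  have h0 : S.chi (a⁻¹ * a') = 0 := S.chi_mem_A _ (S.A.mul_mem (S.A.inv_mem ha) ha')
  have h0' : S.chi (a⁻¹ * a')⁻¹ = 0 :=
    S.chi_mem_A _ (S.A.inv_mem (S.A.mul_mem (S.A.inv_mem ha) ha'))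
  have e : (a⁻¹ * a')⁻¹ * (a⁻¹ * k) = a'⁻¹ * k := by group
  rcases S.nested (a⁻¹ * a') hc (a⁻¹ * k) with h1 | h1
  · rw [h, h0] at h1
    exact one_ne_zero h1
  · rw [e, h', h0'] at h1
    exact one_ne_zero h1

/-- PROOF: `ind` for `k`. `k = 1`: `b = 1`. Step by `a ∈ A`: the same `b`. Step by `b₁ ∈ B`: let
`chi (b⁻¹ * k) = 0`. If `b⁻¹ * k ∈ ⟨c⟩` then `k ∈ B`, take `b := k * b₁`: `chi 1 = 0`. Otherwise,
if `b⁻¹ * k * b₁ ∈ ⟨c⟩` its `chi` is `0` (`chi_Z`), else it is `chi (b⁻¹ * k) = 0` (`chi_B`). -/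
theorem exB (k : P) : ∃ b ∈ S.B, S.chi (b⁻¹ * k) = 0 := by
  refine S.ind (fun k => ∃ b ∈ S.B, S.chi (b⁻¹ * k) = 0) ?_ ?_ ?_ k
  · exact ⟨1, S.B.one_mem, by rw [inv_one, one_mul]; exact S.chi_one⟩
  · rintro g ⟨b, hb, h⟩ a ha
    refine ⟨b, hb, ?_⟩
    rw [← mul_assoc, S.chi_A _ a ha]
    exact h
  · rintro g ⟨b, hb, h⟩ b1 hb1
    by_cases hz : b⁻¹ * g ∈ Subgroup.zpowers S.c
    · have hg : g ∈ S.B := by
        have h1 : b * (b⁻¹ * g) ∈ S.B :=
          S.B.mul_mem hb ((Subgroup.zpowers_le (H := S.B)).2 S.c_mem_B hz)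
        rwa [mul_inv_cancel_left] at h1
      exact ⟨g * b1, S.B.mul_mem hg hb1, by rw [inv_mul_cancel]; exact S.chi_one⟩
    · refine ⟨b, hb, ?_⟩
      rw [← mul_assoc]
      by_cases hz2 : b⁻¹ * g * b1 ∈ Subgroup.zpowers S.c
      · exact S.chi_Z _ hz2
      · rw [S.chi_B _ b1 hb1 hz hz2]
        exact h

/-- PROOF: suppose `k' := b⁻¹ * b' ∉ ⟨c⟩`; then `chi k' = 1 = chi k'⁻¹` (`chi_b`). `nested k'` at
`x = b⁻¹ * k`: `chi x = 1` or `chi (k'⁻¹ * x) = chi (b'⁻¹ * k) = 1`, both impossible. -/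
theorem uniqB (k b b' : P) (hb : b ∈ S.B) (hb' : b' ∈ S.B) (h : S.chi (b⁻¹ * k) = 0)
    (h' : S.chi (b'⁻¹ * k) = 0) : b⁻¹ * b' ∈ Subgroup.zpowers S.c := by
  by_contra hc
  have hB1 : b⁻¹ * b' ∈ S.B := S.B.mul_mem (S.B.inv_mem hb) hb'
  have h1 : S.chi (b⁻¹ * b') = 1 := S.chi_b _ hB1 hc
  have h1' : S.chi (b⁻¹ * b')⁻¹ = 1 := by
    refine S.chi_b _ (S.B.inv_mem hB1) (fun h2 => hc ?_)
    have h3 := (Subgroup.zpowers S.c).inv_mem h2
    rwa [inv_inv] at h3
  have e : (b⁻¹ * b')⁻¹ * (b⁻¹ * k) = b'⁻¹ * k := by group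
  rcases S.nested (b⁻¹ * b') hc (b⁻¹ * k) with h2 | h2
  · rw [h, h1] at h2
    exact zero_ne_one h2
  · rw [e, h', h1'] at h2
    exact zero_ne_one h2

/-- PROOF: `ind` for `g`. `g = 1`: `F = ∅`. Step by `a ∈ A`: the same `F`
(`chi (x * (g * a)) = chi (x * g)`). Step by `b ∈ B`: let `F` be the set for `g`. If
`chi (x * (g * b)) ≠ chi x` then `chi (x * g) ≠ chi x`, and `F` works, or
`chi (x * g * b) ≠ chi (x * g)`; then by `chi_B` `x * g ∈ ⟨c⟩` or `x * g * b ∈ ⟨c⟩`, so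
`x = c ^ k * g⁻¹` or `x = c ^ k * (g * b)⁻¹`. So `F ∪ {g⁻¹, (g * b)⁻¹}` works. -/
theorem fin (g : P) : ∃ F : Finset P, ∀ x, S.chi (x * g) ≠ S.chi x →
    ∃ y ∈ F, ∃ k : ℤ, x = S.c ^ k * y := by
  classical
  refine S.ind (fun g => ∃ F : Finset P, ∀ x, S.chi (x * g) ≠ S.chi x →
    ∃ y ∈ F, ∃ k : ℤ, x = S.c ^ k * y) ?_ ?_ ?_ g
  · exact ⟨∅, fun x hx => absurd (by rw [mul_one]) hx⟩
  · rintro g ⟨F, hF⟩ a ha
    refine ⟨F, fun x hx => hF x ?_⟩
    rwa [← mul_assoc, S.chi_A _ a ha] at hx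
  · rintro g ⟨F, hF⟩ b hb
    refine ⟨insert g⁻¹ (insert (g * b)⁻¹ F), fun x hx => ?_⟩
    by_cases h1 : S.chi (x * g) = S.chi x
    · by_cases h2 : x * g ∈ Subgroup.zpowers S.c
      · obtain ⟨k, hk⟩ := h2
        refine ⟨g⁻¹, Finset.mem_insert_self _ _, k, ?_⟩
        beta_reduce at hk
        rw [hk, mul_inv_cancel_right]
      · by_cases h3 : x * g * b ∈ Subgroup.zpowers S.c
        · obtain ⟨k, hk⟩ := h3
          refine ⟨(g * b)⁻¹, Finset.mem_insert_of_mem (Finset.mem_insert_self _ _), k, ?_⟩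
          beta_reduce at hk
          rw [hk, mul_assoc x g b, mul_inv_cancel_right]
        · exfalso
          apply hx
          rw [← mul_assoc, S.chi_B _ b hb h2 h3, h1]
    · obtain ⟨y, hy, k, hk⟩ := hF x h1
      exact ⟨y, Finset.mem_insert_of_mem (Finset.mem_insert_of_mem hy), k, hk⟩

end Spl

end Pool.Agent.Lib.MP_6a1159_al.BS
end

section

/-! S3: malnormality of the stabilizer of a wall. -/

set_option autoImplicit false

open Filter

namespace Pool.Agent.Lib.MP_6a1159_al.BS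

namespace Spl

variable {P : Type} [Group P] (S : Spl P)

/-- PROOF: let `x⁻¹ * c ^ k * x = c ^ l`, i.e. `c ^ k * x = x * c ^ l` and
`c ^ (-k) * x = x * c ^ (-l)`.
If `x ∈ A` use `mal_A`. Suppose `x ∉ A` and `chi x = 0`. `exA`: `a ∈ A` with
`chi (a⁻¹ * x) = 1`. Then `a' := c ^ k * a ∈ A` has
`chi (a'⁻¹ * x) = chi (a⁻¹ * c ^ (-k) * x) = chi (a⁻¹ * x * c ^ (-l)) = chi (a⁻¹ * x) = 1`. So
`a⁻¹ * a' = a⁻¹ * c ^ k * a ∈ ⟨c⟩` by `uniqA`, `a ∈ ⟨c⟩` by `mal_A`, and then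
`chi (a⁻¹ * x) = chi x = 0` (`chi_zpow`), a contradiction.
Suppose `chi x = 1`. `exB`: `b ∈ B` with `chi (b⁻¹ * x) = 0`; `b' := c ^ k * b ∈ B` has
`chi (b'⁻¹ * x) = chi (b⁻¹ * x * c ^ (-l)) = 0`, so `b⁻¹ * c ^ k * b ∈ ⟨c⟩` by `uniqB`, `b ∈ ⟨c⟩` by
`mal_B`, and `0 = chi (b⁻¹ * x) = chi x = 1`, a contradiction. (`chi_01` for the cases.) -/
theorem mal (x : P) (k : ℤ) (hk : k ≠ 0) (h : x⁻¹ * S.c ^ k * x ∈ Subgroup.zpowers S.c) :
    x ∈ Subgroup.zpowers S.c := by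
  obtain ⟨l, hl⟩ := Subgroup.mem_zpowers_iff.mp h
  have hcA : ∀ n : ℤ, S.c ^ n ∈ S.A := fun n => S.A.zpow_mem S.c_mem_A n
  have hcB : ∀ n : ℤ, S.c ^ n ∈ S.B := fun n => S.B.zpow_mem S.c_mem_B n
  -- the commutation
  have h2 : (S.c ^ k)⁻¹ * x = x * S.c ^ (-l) := by
    rw [zpow_neg, hl]
    group
  have key : ∀ y : P, S.chi ((S.c ^ k * y)⁻¹ * x) = S.chi (y⁻¹ * x) := by
    intro y
    rw [mul_inv_rev, mul_assoc, h2, ← mul_assoc, S.chi_mul_zpow]
  by_cases hxA : x ∈ S.A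
  · exact S.mal_A x hxA k hk h
  rcases S.chi_01 x with h0 | h1
  · obtain ⟨a, ha, ha1⟩ := S.exA x hxA
    have ha' : S.c ^ k * a ∈ S.A := S.A.mul_mem (hcA k) ha
    have hu := S.uniqA x a (S.c ^ k * a) ha ha' ha1 ((key a).trans ha1)
    rw [← mul_assoc] at hu
    have haz := S.mal_A a ha k hk hu
    obtain ⟨j, hj⟩ := Subgroup.mem_zpowers_iff.mp haz
    have : S.chi (a⁻¹ * x) = S.chi x := by
      rw [← hj, ← zpow_neg, S.chi_zpow]
    rw [this, h0] at ha1
    exact absurd ha1 (by norm_num)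
  · obtain ⟨b, hb, hb0⟩ := S.exB x
    have hb' : S.c ^ k * b ∈ S.B := S.B.mul_mem (hcB k) hb
    have hu := S.uniqB x b (S.c ^ k * b) hb hb' hb0 ((key b).trans hb0)
    rw [← mul_assoc] at hu
    have hbz := S.mal_B b hb k hk hu
    obtain ⟨j, hj⟩ := Subgroup.mem_zpowers_iff.mp hbz
    have : S.chi (b⁻¹ * x) = S.chi x := by
      rw [← hj, ← zpow_neg, S.chi_zpow]
    rw [this, h1] at hb0
    exact absurd hb0 (by norm_num)

/-- An element which fixes the vertices `B` and `h A` fixes a wall. PROOF: `exB`: `b ∈ B` with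
`chi (b⁻¹ * h) = 0`. Then `z * b ∈ B` and
`chi ((z * b)⁻¹ * h) = chi (b⁻¹ * h * (h⁻¹ * z⁻¹ * h)) = chi (b⁻¹ * h) = 0` by `chi_A` (the element
`h⁻¹ * z⁻¹ * h` is the inverse of `h⁻¹ * z * h ∈ A`). So `b⁻¹ * (z * b) ∈ ⟨c⟩` by `uniqB`. -/
theorem fixed_AB (z h : P) (hz : z ∈ S.B) (hz' : h⁻¹ * z * h ∈ S.A) :
    ∃ b ∈ S.B, b⁻¹ * z * b ∈ Subgroup.zpowers S.c := by
  obtain ⟨b, hb, hb0⟩ := S.exB h
  have hzb : z * b ∈ S.B := S.B.mul_mem hz hb
  have h1 : S.chi ((z * b)⁻¹ * h) = 0 := by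
    have e : (z * b)⁻¹ * h = (b⁻¹ * h) * (h⁻¹ * z * h)⁻¹ := by group
    rw [e, S.chi_A _ _ (S.A.inv_mem hz'), hb0]
  have hu := S.uniqB h b (z * b) hb hzb hb0 h1
  rw [← mul_assoc] at hu
  exact ⟨b, hb, hu⟩

end Spl

end Pool.Agent.Lib.MP_6a1159_al.BS
end

section

/-! S4: the far sides of the translates `c ^ j p ⟨c⟩` of a wall `p ⟨c⟩` are disjoint. -/

set_option autoImplicit false

open Filter

namespace Pool.Agent.Lib.MP_6a1159_al.BS

namespace Spl

variable {P : Type} [Group P] (S : Spl P)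

private theorem S4_pow (z : P) (hz : z ∉ Subgroup.zpowers S.c) (s : ℤ) (h1 : S.chi z ≠ s)
    (h2 : S.chi z⁻¹ = s) (m : ℕ) : S.chi (z ^ (m + 1)) ≠ s := by
  induction m with
  | zero => simpa using h1
  | succ m ih =>
    rcases S.nested z hz (z ^ (m + 1 + 1)) with h | h
    · rw [h]; exact h1
    · exfalso
      apply ih
      rw [h2] at h
      have e : z⁻¹ * z ^ (m + 1 + 1) = z ^ (m + 1) := by
        rw [pow_succ' z (m + 1), inv_mul_cancel_left]
      rwa [e] at h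

private theorem S4_conj (p : P) (i : ℤ) (m : ℕ) :
    (p⁻¹ * S.c ^ i * p) ^ m = p⁻¹ * S.c ^ (i * m) * p := by
  induction m with
  | zero => simp
  | succ m ih =>
    rw [pow_succ, ih]
    push_cast
    rw [mul_add, mul_one, zpow_add]
    group

private theorem S4_aux (p : P) (hp : p ∉ Subgroup.zpowers S.c) (i : ℤ) (hi : i ≠ 0)
    (h1 : S.chi (p⁻¹ * S.c ^ i * p) ≠ S.chi p⁻¹)
    (h2 : S.chi (p⁻¹ * S.c ^ i * p)⁻¹ = S.chi p⁻¹) : False := by
  have hz : p⁻¹ * S.c ^ i * p ∉ Subgroup.zpowers S.c := fun h => hp (S.mal p i hi h)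
  have h3 : ∀ m : ℕ, S.chi (p⁻¹ * S.c ^ (i * ((m + 1 : ℕ) : ℤ)) * p) ≠
      S.chi (p⁻¹ * S.c ^ (i * ((m + 1 : ℕ) : ℤ))) := by
    intro m
    rw [S.chi_mul_zpow, ← S4_conj]
    exact S4_pow S _ hz _ h1 h2 m
  obtain ⟨F, hF⟩ := S.fin p
  have h4 : ∀ m : ℕ, ∃ y : F, ∃ k : ℤ, p⁻¹ * S.c ^ (i * ((m + 1 : ℕ) : ℤ)) = S.c ^ k * y := by
    intro m
    obtain ⟨y, hy, k, hk⟩ := hF _ (h3 m)
    exact ⟨⟨y, hy⟩, k, hk⟩
  choose f kk hk using h4
  obtain ⟨m, m', hne, hmm⟩ := Finite.exists_ne_map_eq_of_infinite f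
  have e1 := hk m
  have e2 := hk m'
  rw [← hmm] at e2
  have e3 : ((f m : F) : P) = S.c ^ (-kk m) * (p⁻¹ * S.c ^ (i * ((m + 1 : ℕ) : ℤ))) := by
    rw [e1, ← mul_assoc, ← zpow_add, neg_add_cancel, zpow_zero, one_mul]
  rw [e3] at e2
  apply hp
  refine S.mal p (i * ((m' + 1 : ℕ) : ℤ) - i * ((m + 1 : ℕ) : ℤ)) ?_ ?_
  · rw [← mul_sub]
    refine mul_ne_zero hi ?_
    intro h
    apply hne
    push_cast at h
    omega
  · refine Subgroup.mem_zpowers_iff.2 ⟨kk m' - kk m, ?_⟩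
    have e4 : p⁻¹ * S.c ^ (i * ((m' + 1 : ℕ) : ℤ) - i * ((m + 1 : ℕ) : ℤ)) * p =
        (p⁻¹ * S.c ^ (i * ((m' + 1 : ℕ) : ℤ))) * (p⁻¹ * S.c ^ (i * ((m + 1 : ℕ) : ℤ)))⁻¹ := by
      rw [zpow_sub]
      group
    rw [e4, e2, zpow_sub]
    group

/-- PROOF: let `s := chi p⁻¹`, and suppose `chi (p⁻¹ * g) = 1 - s` and
`chi (p⁻¹ * c ^ j * g) = 1 - s` (use `chi_01`). Let `k := p⁻¹ * c ^ (-j) * p`; `k ∉ ⟨c⟩` by `mal`
(`p ∉ ⟨c⟩`, `-j ≠ 0`). Note `chi (k⁻¹ * (p⁻¹ * y)) = chi (p⁻¹ * c ^ j * y)` for every `y`, and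
`chi (p⁻¹ * c ^ i) = chi p⁻¹ = s` for all `i` (`chi_mul_zpow`).
`nested k` at `x = p⁻¹ * g`: `chi k = 1 - s` or `chi k⁻¹ = 1 - s`.
`nested k` at `x = p⁻¹`: `chi k = s` or `chi k⁻¹ = s`. So `chi k ≠ chi k⁻¹`.
Case 1: `chi k = 1 - s`, `chi k⁻¹ = s`. Then by `nested k`: `chi (k⁻¹ * x) = 1 - s` implies
`chi x = 1 - s`, for all `x`; so `chi (k ^ m) = 1 - s` for all `m ≥ 1` (induction, `x = k ^ (m+1)`).
Case 2: `chi k⁻¹ = 1 - s`, `chi k = s`: the same with `k⁻¹` for `k` (`nested k⁻¹`), so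
`chi (k⁻¹ ^ m) = 1 - s` for all `m ≥ 1`.
So there is `e ∈ {1, -1}` with `chi (p⁻¹ * c ^ (e m j) * p) = 1 - s ≠ s = chi (p⁻¹ * c ^ (e m j))` for
all `m ≥ 1` (in case 1 `e = -1`, in case 2 `e = 1`; `k ^ m = p⁻¹ * c ^ (- m j) * p`). Apply `fin p`:
for every `m ≥ 1` the element `p⁻¹ * c ^ (e m j)` is in `⟨c⟩ * F`, `F` finite. Two different
`m, m'` have the same `y ∈ F` (pigeonhole, `Finite.exists_ne_map_eq_of_infinite`):
`p⁻¹ * c ^ (e m j) = c ^ a * y`, `p⁻¹ * c ^ (e m' j) = c ^ a' * y`, so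
`p⁻¹ * c ^ (e (m - m') j) * p = c ^ (a - a')`, and `p ∈ ⟨c⟩` by `mal`, a contradiction. -/
theorem far (p : P) (hp : p ∉ Subgroup.zpowers S.c) (j : ℤ) (hj : j ≠ 0) (g : P) :
    S.chi (p⁻¹ * g) = S.chi p⁻¹ ∨ S.chi (p⁻¹ * S.c ^ j * g) = S.chi p⁻¹ := by
  by_contra hcon
  push Not at hcon
  obtain ⟨hg1, hg2⟩ := hcon
  have hj' : -j ≠ 0 := neg_ne_zero.2 hj
  have hz : p⁻¹ * S.c ^ (-j) * p ∉ Subgroup.zpowers S.c := fun h => hp (S.mal p (-j) hj' h)
  have hinv : (p⁻¹ * S.c ^ (-j) * p)⁻¹ = p⁻¹ * S.c ^ j * p := by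
    rw [mul_inv_rev, mul_inv_rev, inv_inv, zpow_neg, inv_inv, mul_assoc]
  have hinv2 : (p⁻¹ * S.c ^ j * p)⁻¹ = p⁻¹ * S.c ^ (-j) * p := by
    rw [← hinv, inv_inv]
  have h1 := S.nested _ hz (p⁻¹ * g)
  have h2 := S.nested _ hz p⁻¹
  have e1 : (p⁻¹ * S.c ^ (-j) * p)⁻¹ * (p⁻¹ * g) = p⁻¹ * S.c ^ j * g := by
    rw [hinv]
    group
  have e2 : (p⁻¹ * S.c ^ (-j) * p)⁻¹ * p⁻¹ = p⁻¹ * S.c ^ j := by
    rw [hinv]
    group
  rw [e1] at h1
  rw [e2, S.chi_mul_zpow] at h2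
  have b1 := S.chi_01 (p⁻¹ * S.c ^ (-j) * p)
  have b2 := S.chi_01 (p⁻¹ * S.c ^ (-j) * p)⁻¹
  have b3 := S.chi_01 p⁻¹
  have b4 := S.chi_01 (p⁻¹ * g)
  have b5 := S.chi_01 (p⁻¹ * S.c ^ j * g)
  by_cases hk : S.chi (p⁻¹ * S.c ^ (-j) * p) = S.chi p⁻¹
  · have hk2 : S.chi (p⁻¹ * S.c ^ (-j) * p)⁻¹ ≠ S.chi p⁻¹ := by omega
    refine S4_aux S p hp j hj ?_ ?_
    · rw [← hinv]; exact hk2
    · rw [hinv2]; exact hk
  · exact S4_aux S p hp (-j) hj' hk (by omega)

/-- PROOF: suppose `i ≠ 0`. `u ^ a * u ^ a' = u ^ a' * u ^ a` gives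
`y ^ K * c ^ i * y ^ K' * c ^ i' = y ^ K' * c ^ i' * y ^ K * c ^ i`, hence with `M := K' - K > 0`
`g := c ^ i * y ^ K' * c ^ i' = y ^ M * c ^ i' * y ^ K * c ^ i`.
Put `p := y ^ M`; `p ∉ ⟨c⟩` since otherwise `chi (y ^ M) = chi (y⁻¹ ^ M) = 0` (`chi_Z`). Then
`chi (p⁻¹ * g) = chi (c ^ i' * y ^ K * c ^ i) = chi (y ^ K) = q`,
`chi (p⁻¹ * c ^ (-i) * g) = chi (y⁻¹ ^ M * y ^ K' * c ^ i') = chi (y ^ K) = q`, and
`chi p⁻¹ = chi (y⁻¹ ^ M) ≠ q`. This contradicts `far p (-i)`. -/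
theorem com (y u : P) (q : ℤ)
    (hy : ∀ m : ℕ, 0 < m → S.chi (y ^ m) = q ∧ S.chi (y⁻¹ ^ m) ≠ q)
    (a a' i i' : ℤ) (K K' : ℕ) (hK : 0 < K) (hKK : K < K')
    (h : u ^ a = y ^ K * S.c ^ i) (h' : u ^ a' = y ^ K' * S.c ^ i') : i = 0 := by
  by_contra hi
  obtain ⟨M, hM, rfl⟩ : ∃ M : ℕ, 0 < M ∧ K' = K + M := ⟨K' - K, by omega, by omega⟩
  have hc : u ^ a * u ^ a' = u ^ a' * u ^ a := by rw [← zpow_add, ← zpow_add, add_comm]
  rw [h, h'] at hc
  have hg : S.c ^ i * y ^ (K + M) * S.c ^ i' = y ^ M * S.c ^ i' * y ^ K * S.c ^ i := by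
    have e : y ^ K * (S.c ^ i * y ^ (K + M) * S.c ^ i') =
        y ^ K * (y ^ M * S.c ^ i' * y ^ K * S.c ^ i) := by
      have e1 : y ^ K * (S.c ^ i * y ^ (K + M) * S.c ^ i') =
          y ^ K * S.c ^ i * (y ^ (K + M) * S.c ^ i') := by group
      rw [e1, hc, pow_add y K M]
      group
    exact mul_left_cancel e
  have hp : y ^ M ∉ Subgroup.zpowers S.c := by
    intro hmem
    have h1 := S.chi_Z _ hmem
    have h2 := S.chi_Z _ (inv_mem hmem)
    have h3 := hy M hM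
    rw [inv_pow, h1, h2] at h3
    exact h3.2 h3.1
  have hi' : -i ≠ 0 := neg_ne_zero.2 hi
  have hp2 : S.chi (y ^ M)⁻¹ ≠ q := by
    have h3 := (hy M hM).2
    rwa [inv_pow] at h3
  have hq := (hy K hK).1
  rcases S.far (y ^ M) hp (-i) hi' (S.c ^ i * y ^ (K + M) * S.c ^ i') with h5 | h5
  · apply hp2
    rw [← h5, hg]
    have e : (y ^ M)⁻¹ * (y ^ M * S.c ^ i' * y ^ K * S.c ^ i) = S.c ^ i' * (y ^ K * S.c ^ i) := by
      group
    rw [e, S.chi_zpow, S.chi_mul_zpow, hq]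
  · apply hp2
    rw [← h5]
    have e : (y ^ M)⁻¹ * S.c ^ (-i) * (S.c ^ i * y ^ (K + M) * S.c ^ i') = y ^ K * S.c ^ i' := by
      rw [add_comm K M, pow_add]
      group
    rw [e, S.chi_mul_zpow, hq]

end Spl

end Pool.Agent.Lib.MP_6a1159_al.BS
end
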