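import Pool.Agent.Lib.MP_6a1159_al.HC.Sep
import Pool.Agent.Lib.MP_6a1159_al.BS.Defs
import Pool.Agent.Lib.MP_6a1159_al.Mg.G002

section

/-! KDefs: the surface group of genus `n + n` and its balanced splitting. -/

set_option autoImplicit false

namespace Pool.Agent.Lib.MP_6a1159_al.BS

/-- The list of the handles. -/
abbrev LL (n : ℕ) : List (Fin (n + n)) := List.finRange (n + n)

/-- The balanced separating curve `∏ i < n, [a_i, b_i]`. -/
def cc (n : ℕ) : SG (LL n) := proj (LL n) (relator ((LL n).take n))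

/-- The subgroup generated by the first `n` handles. -/
def subA (n : ℕ) : Subgroup (SG (LL n)) := Subgroup.closure
  {x | ∃ i : Fin (n + n), i.val < n ∧ (x = ga (LL n) i ∨ x = gb (LL n) i)}

/-- The subgroup generated by the last `n` handles. -/
def subB (n : ℕ) : Subgroup (SG (LL n)) := Subgroup.closure
  {x | ∃ i : Fin (n + n), n ≤ i.val ∧ (x = ga (LL n) i ∨ x = gb (LL n) i)}

/-- The boundary word in the free group of rank `2 n`. -/
def cF (n : ℕ) : FreeGroup (Fin n × Bool) := relator (List.finRange n)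

/-- The inclusion of the free group on the first `n` handles. -/
def iA (n : ℕ) : FreeGroup (Fin n × Bool) →* SG (LL n) :=
  FreeGroup.lift fun x => proj (LL n) (FreeGroup.of (Fin.castAdd n x.1, x.2))

/-- A normalized 2-cocycle with values in the integers. -/
def IsCoc {P : Type} [Group P] (κ : P → P → ℤ) : Prop :=
  (∀ g h k, κ h k + κ g (h * k) = κ (g * h) k + κ g h) ∧ (∀ g, κ 1 g = 0) ∧ ∀ g, κ g 1 = 0

/-- `e` is a primitive of the pull back of `κ` to the free group. -/
def IsPrim {ι : Type} (L : List ι) (κ : SG L → SG L → ℤ) (e : FreeGroup (ι × Bool) → ℤ) : Prop :=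
  ∀ u v, e (u * v) = e u + e v + κ (proj L u) (proj L v)

/-- The product of the coboundaries of two functions on a group. -/
noncomputable def cup {P : Type} [Group P] (α β : P → ℤ) (g h : P) : ℤ :=
  ∑ᶠ p : P, (α (p * g) - α p) * (β (p * g * h) - β (p * g))

/-- The letters `a_i`, `a_i⁻¹`, `b_i`, `b_i⁻¹` of words in the free group. -/
def lA {n : ℕ} (i : Fin n) : (Fin n × Bool) × Bool := ((i, false), true)
/-- The letter `a_i⁻¹`. -/
def lA' {n : ℕ} (i : Fin n) : (Fin n × Bool) × Bool := ((i, false), false)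
/-- The letter `b_i`. -/
def lB {n : ℕ} (i : Fin n) : (Fin n × Bool) × Bool := ((i, true), true)
/-- The letter `b_i⁻¹`. -/
def lB' {n : ℕ} (i : Fin n) : (Fin n × Bool) × Bool := ((i, true), false)

/-- The boundary word as a list of letters. -/
def wc (n : ℕ) : List ((Fin n × Bool) × Bool) :=
  (List.finRange n).flatMap fun i => [lA i, lB i, lA' i, lB' i]

end Pool.Agent.Lib.MP_6a1159_al.BS
end

section

/-! K1a: the balanced splitting of the surface group of genus `n + n`: generators, the free factor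
subgroup and the retraction. -/

set_option autoImplicit false

namespace Pool.Agent.Lib.MP_6a1159_al.BS

/-- PROOF: `List.ext_getElem`. -/
theorem take_eq (n : ℕ) : (LL n).take n = (List.finRange n).map (Fin.castAdd n) := by
  apply List.ext_getElem
  · simp
  · intro i h1 h2
    apply Fin.ext
    simp

/-- PROOF: `List.ext_getElem`. -/
theorem drop_eq (n : ℕ) : (LL n).drop n = (List.finRange n).map (Fin.natAdd n) := by
  apply List.ext_getElem
  · simp
  · intro i h1 h2
    apply Fin.ext
    simp [Nat.add_comm]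

/-- PROOF: `take_eq`, `relator` of a mapped list, `FreeGroup.lift`. -/
theorem iA_cF (n : ℕ) : iA n (cF n) = cc n := by
  unfold cF cc
  rw [take_eq]
  unfold relator
  rw [map_list_prod, map_list_prod, List.map_map, List.map_map, List.map_map]
  congr 1

/-- PROOF: both are generated by the images of the generators (`MonoidHom.range_eq_map`,
`FreeGroup.closure_range_of`, `MonoidHom.map_closure`; `ga`, `gb` are `proj (FreeGroup.of (i, false))`,
`proj (FreeGroup.of (i, true))`; the indices `i` with `i.val < n` are the `Fin.castAdd n j`). -/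
theorem iA_range (n : ℕ) : (iA n).range = subA n := by
  apply le_antisymm
  · rw [MonoidHom.range_eq_map, ← FreeGroup.closure_range_of, MonoidHom.map_closure,
      Subgroup.closure_le]
    rintro _ ⟨_, ⟨⟨j, b⟩, rfl⟩, rfl⟩
    apply Subgroup.subset_closure
    refine ⟨Fin.castAdd n j, j.isLt, ?_⟩
    rw [iA, FreeGroup.lift_apply_of]
    cases b
    · exact Or.inl rfl
    · exact Or.inr rfl
  · unfold subA
    rw [Subgroup.closure_le]
    rintro x ⟨i, hi, hx⟩
    have e : i = Fin.castAdd n ⟨i.val, hi⟩ := Fin.ext rfl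
    rcases hx with rfl | rfl
    · refine ⟨FreeGroup.of (⟨i.val, hi⟩, false), ?_⟩
      rw [iA, FreeGroup.lift_apply_of]
      show proj (LL n) (FreeGroup.of (Fin.castAdd n ⟨i.val, hi⟩, false)) = _
      rw [← e]
      rfl
    · refine ⟨FreeGroup.of (⟨i.val, hi⟩, true), ?_⟩
      rw [iA, FreeGroup.lift_apply_of]
      show proj (LL n) (FreeGroup.of (Fin.castAdd n ⟨i.val, hi⟩, true)) = _
      rw [← e]
      rfl

end Pool.Agent.Lib.MP_6a1159_al.BS
end

section

/-! K1b: the balanced splitting of the surface group of genus `n + n`: generators, the free factor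
subgroup and the retraction. -/

set_option autoImplicit false

namespace Pool.Agent.Lib.MP_6a1159_al.BS

/-- the retraction on the free group -/
private def K1b_f (n : ℕ) (x : Fin (n + n) × Bool) : FreeGroup (Fin n × Bool) :=
  Fin.addCases (fun j => FreeGroup.of (j, x.2)) (fun j => FreeGroup.of (Fin.rev j, !x.2)) x.1

private theorem K1b_f_left (n : ℕ) (j : Fin n) (b : Bool) :
    K1b_f n (Fin.castAdd n j, b) = FreeGroup.of (j, b) := by
  unfold K1b_f
  simp only [Fin.addCases_left]

private theorem K1b_f_right (n : ℕ) (j : Fin n) (b : Bool) :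
    K1b_f n (Fin.natAdd n j, b) = FreeGroup.of (Fin.rev j, !b) := by
  unfold K1b_f
  simp only [Fin.addCases_right]

private theorem K1b_take (n : ℕ) :
    FreeGroup.lift (K1b_f n) (relator ((LL n).take n)) = relator (List.finRange n) := by
  rw [take_eq]
  unfold relator
  rw [map_list_prod, List.map_map, List.map_map]
  congr 1
  apply List.map_congr_left
  intro j _
  simp only [Function.comp_apply, map_mul, map_inv, fa, fb, FreeGroup.lift_apply_of, K1b_f_left]

private theorem K1b_drop (n : ℕ) :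
    FreeGroup.lift (K1b_f n) (relator ((LL n).drop n)) = (relator (List.finRange n))⁻¹ := by
  rw [drop_eq]
  unfold relator
  rw [map_list_prod, List.map_map, List.map_map, List.prod_inv_reverse, List.map_map,
    ← List.map_reverse, List.finRange_reverse, List.map_map]
  congr 1
  apply List.map_congr_left
  intro j _
  simp only [Function.comp_apply, map_mul, map_inv, fa, fb, FreeGroup.lift_apply_of, K1b_f_right,
    Bool.not_false, Bool.not_true, mul_inv_rev, inv_inv, mul_assoc]

private theorem K1b_rel (n : ℕ) : FreeGroup.lift (K1b_f n) (relator (LL n)) = 1 := by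
  have h : relator (LL n) = relator ((LL n).take n) * relator ((LL n).drop n) := by
    rw [← relator_append, List.take_append_drop]
  rw [h, map_mul, K1b_take, K1b_drop, mul_inv_cancel]

/-- A retraction to the first half. PROOF: `PresentedGroup.toGroup` with the images: for
`i = castAdd n j` the letters `a_i, b_i` go to `a_j, b_j`; for `i = natAdd n j` they go to
`b_{rev j}, a_{rev j}` (`Fin.rev`). The relator `relator (take) * relator (drop)`
(`relator_append`, `List.take_append_drop`) goes to `c * ∏_j [b_{rev j}, a_{rev j}]`, and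
`∏_j [b_{rev j}, a_{rev j}] = c⁻¹` as `[b, a] = [a, b]⁻¹` and the order of the factors is reversed
(`List.prod_inv_reverse`, `List.finRange_reverse`). -/
theorem exists_ret (n : ℕ) : ∃ ρ : SG (LL n) →* FreeGroup (Fin n × Bool),
    ∀ w, ρ (iA n w) = w := by
  have hrel : ∀ r ∈ ({relator (LL n)} : Set (FreeGroup (Fin (n + n) × Bool))),
      FreeGroup.lift (K1b_f n) r = 1 := by
    intro r hr
    rw [Set.mem_singleton_iff] at hr
    rw [hr]
    exact K1b_rel n
  refine ⟨PresentedGroup.toGroup hrel, fun w => ?_⟩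
  have h : (PresentedGroup.toGroup hrel).comp (iA n) = MonoidHom.id _ := by
    apply FreeGroup.ext_hom
    rintro ⟨j, b⟩
    rw [MonoidHom.comp_apply, iA, FreeGroup.lift_apply_of, MonoidHom.id_apply]
    show PresentedGroup.toGroup hrel (PresentedGroup.of (Fin.castAdd n j, b)) = _
    rw [PresentedGroup.toGroup.of, K1b_f_left]
  exact DFunLike.congr_fun h w

theorem iA_inj (n : ℕ) : Function.Injective (iA n) := by
  obtain ⟨ρ, hρ⟩ := exists_ret n
  intro x y hxy
  rw [← hρ x, ← hρ y, hxy]

theorem cc_mem_A (n : ℕ) : cc n ∈ subA n := by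
  rw [← iA_range, ← iA_cF]
  exact ⟨_, rfl⟩

/-- PROOF: `relator (take) * relator (drop) = relator (LL n)` is `1` in `SG`. -/
theorem cc_inv (n : ℕ) : (cc n)⁻¹ = proj (LL n) (relator ((LL n).drop n)) := by
  rw [inv_eq_iff_mul_eq_one]
  unfold cc
  rw [← map_mul, ← relator_append, List.take_append_drop]
  exact PresentedGroup.one_of_mem (Set.mem_singleton _)

theorem cc_mem_B (n : ℕ) : cc n ∈ subB n := by
  rw [← inv_mem_iff, cc_inv, drop_eq]
  unfold relator
  rw [map_list_prod, List.map_map, List.map_map]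
  apply Subgroup.list_prod_mem
  intro x hx
  rw [List.mem_map] at hx
  obtain ⟨j, -, rfl⟩ := hx
  have h1 : proj (LL n) (fa (Fin.natAdd n j)) ∈ subB n :=
    Subgroup.subset_closure ⟨Fin.natAdd n j, by simp, Or.inl rfl⟩
  have h2 : proj (LL n) (fb (Fin.natAdd n j)) ∈ subB n :=
    Subgroup.subset_closure ⟨Fin.natAdd n j, by simp, Or.inr rfl⟩
  simp only [Function.comp_apply, map_mul, map_inv]
  exact (subB n).mul_mem ((subB n).mul_mem ((subB n).mul_mem h1 h2) ((subB n).inv_mem h1))
    ((subB n).inv_mem h2)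

/-- PROOF: the generators `proj (FreeGroup.of x)` generate (`PresentedGroup.closure_range_of` or
surjectivity of `proj` and `FreeGroup.closure_range_of`). -/
theorem gen_AB (n : ℕ) : subA n ⊔ subB n = ⊤ := by
  rw [eq_top_iff, ← PresentedGroup.closure_range_of, Subgroup.closure_le]
  rintro _ ⟨⟨i, b⟩, rfl⟩
  by_cases hi : i.val < n
  · apply Subgroup.mem_sup_left
    apply Subgroup.subset_closure
    refine ⟨i, hi, ?_⟩
    cases b
    · exact Or.inl rfl
    · exact Or.inr rfl
  · apply Subgroup.mem_sup_right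
    apply Subgroup.subset_closure
    refine ⟨i, not_lt.1 hi, ?_⟩
    cases b
    · exact Or.inl rfl
    · exact Or.inr rfl

end Pool.Agent.Lib.MP_6a1159_al.BS
end

section

/-! K1: see the imported files. -/
end

section

/-! K3a: the boundary word generates a malnormal infinite cyclic subgroup of the free group. -/

set_option autoImplicit false

namespace Pool.Agent.Lib.MP_6a1159_al.BS

/-- PROOF: `exists_deriv` for `M := FreeGroup X →₀ ℤ`, `φ g v := Finsupp.mapDomain (fun x => g * x) v`
(`Finsupp.mapDomain_id`, `Finsupp.mapDomain_comp`, `Finsupp.mapDomain_add`),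
`m t := if t = s then Finsupp.single 1 1 else 0`. -/
theorem exists_fox {X : Type} [DecidableEq X] (s : X) :
    ∃ D : FreeGroup X → (FreeGroup X →₀ ℤ),
      (∀ g h, D (g * h) = D g + Finsupp.mapDomain (fun x => g * x) (D h)) ∧
      (D (FreeGroup.of s) = Finsupp.single 1 1) ∧ ∀ t, t ≠ s → D (FreeGroup.of t) = 0 := by
  have e1 : ∀ v : FreeGroup X →₀ ℤ, Finsupp.mapDomain (fun x : FreeGroup X => 1 * x) v = v := by
    intro v
    simp only [one_mul]
    exact Finsupp.mapDomain_id
  have e2 : ∀ (g h : FreeGroup X) (v : FreeGroup X →₀ ℤ),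
      Finsupp.mapDomain (fun x => g * h * x) v =
      Finsupp.mapDomain (fun x => g * x) (Finsupp.mapDomain (fun x => h * x) v) := by
    intro g h v
    rw [← Finsupp.mapDomain_comp]
    congr 1
    funext x
    simp [mul_assoc]
  obtain ⟨D, hD1, hD2⟩ := exists_deriv (X := X) (M := FreeGroup X →₀ ℤ)
    (fun g v => Finsupp.mapDomain (fun x => g * x) v) e1 e2
    (fun g v w => Finsupp.mapDomain_add)
    (fun t => if t = s then Finsupp.single 1 1 else 0)
  refine ⟨D, hD1, ?_, ?_⟩
  · rw [hD2, if_pos rfl]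
  · intro t ht
    rw [hD2, if_neg ht]

private theorem K3a_neg {X : Type} (f : X → X) (v : X →₀ ℤ) :
    Finsupp.mapDomain f (-v) = - Finsupp.mapDomain f v := by
  have h : Finsupp.mapDomain f (-v) + Finsupp.mapDomain f v = 0 := by
    rw [← Finsupp.mapDomain_add, neg_add_cancel, Finsupp.mapDomain_zero]
  exact eq_neg_of_add_eq_zero_left h

private theorem K3a_one {X : Type} (D : FreeGroup X → (FreeGroup X →₀ ℤ))
    (hD : ∀ g h, D (g * h) = D g + Finsupp.mapDomain (fun x => g * x) (D h)) : D 1 = 0 := by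
  have h := hD 1 1
  simp only [one_mul] at h
  have h2 : Finsupp.mapDomain (fun x : FreeGroup X => x) (D 1) = D 1 := Finsupp.mapDomain_id
  rw [h2] at h
  exact left_eq_add.1 h

private theorem K3a_inv {X : Type} (D : FreeGroup X → (FreeGroup X →₀ ℤ))
    (hD : ∀ g h, D (g * h) = D g + Finsupp.mapDomain (fun x => g * x) (D h)) (g : FreeGroup X) :
    D g⁻¹ = - Finsupp.mapDomain (fun x => g⁻¹ * x) (D g) := by
  have h := hD g⁻¹ g
  rw [inv_mul_cancel, K3a_one D hD] at h
  exact (neg_eq_of_add_eq_zero_left h.symm).symm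

private theorem K3a_comm {X : Type} (D : FreeGroup X → (FreeGroup X →₀ ℤ))
    (hD : ∀ g h, D (g * h) = D g + Finsupp.mapDomain (fun x => g * x) (D h)) (g h : FreeGroup X)
    (hg : D g = 0) (hh : D h = 0) : D (g * h * g⁻¹ * h⁻¹) = 0 := by
  rw [hD, hD, hD, K3a_inv D hD, K3a_inv D hD, hg, hh]
  simp [Finsupp.mapDomain_zero]

private theorem K3a_prod {X : Type} (D : FreeGroup X → (FreeGroup X →₀ ℤ))
    (hD : ∀ g h, D (g * h) = D g + Finsupp.mapDomain (fun x => g * x) (D h))
    (l : List (FreeGroup X)) (hl : ∀ g ∈ l, D g = 0) : D l.prod = 0 := by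
  induction l with
  | nil => exact K3a_one D hD
  | cons g l ih =>
    rw [List.prod_cons, hD, hl g (by simp), ih fun x hx => hl x (by simp [hx])]
    simp [Finsupp.mapDomain_zero]

/-- The values of the two Fox derivatives at the boundary word. `0` is the first handle. PROOF: `cF n =
a * b * a⁻¹ * b⁻¹ * c'` with `a = fa ⟨0, _⟩`, `b = fb ⟨0, _⟩` and `c'` a product of letters of the other handles
(`List.finRange_succ` for `n = m + 1`); `D 1 = 0`, `D g⁻¹ = - g⁻¹ • D g`, `D c' = 0`. -/
theorem fox_c (n : ℕ) (hn : 1 ≤ n) (D : Bool → FreeGroup (Fin n × Bool) →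
      (FreeGroup (Fin n × Bool) →₀ ℤ))
    (hD : ∀ s g h, D s (g * h) = D s g + Finsupp.mapDomain (fun x => g * x) (D s h))
    (h1 : ∀ s, D s (FreeGroup.of (⟨0, hn⟩, s)) = Finsupp.single 1 1)
    (h2 : ∀ s t, t ≠ (⟨0, hn⟩, s) → D s (FreeGroup.of t) = 0) :
    D false (cF n) = Finsupp.single 1 1 -
      Finsupp.single (fa ⟨0, hn⟩ * fb ⟨0, hn⟩ * (fa ⟨0, hn⟩)⁻¹) 1 ∧
    D true (cF n) = Finsupp.single (fa ⟨0, hn⟩) 1 -
      Finsupp.single (fa ⟨0, hn⟩ * fb ⟨0, hn⟩ * (fa ⟨0, hn⟩)⁻¹ * (fb ⟨0, hn⟩)⁻¹) 1 := by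
  obtain ⟨m, rfl⟩ : ∃ m, n = m + 1 := ⟨n - 1, by omega⟩
  have hc : cF (m + 1) = fa ⟨0, hn⟩ * fb ⟨0, hn⟩ * (fa ⟨0, hn⟩)⁻¹ * (fb ⟨0, hn⟩)⁻¹ *
      ((List.finRange m).map fun i : Fin m =>
        fa i.succ * fb i.succ * (fa i.succ)⁻¹ * (fb i.succ)⁻¹).prod := by
    unfold cF relator
    rw [List.finRange_succ, List.map_cons, List.prod_cons, List.map_map]
    rfl
  have hz : ∀ s, D s ((List.finRange m).map fun i : Fin m =>
        fa i.succ * fb i.succ * (fa i.succ)⁻¹ * (fb i.succ)⁻¹).prod = 0 := by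
    intro s
    apply K3a_prod (D s) (hD s)
    intro g hg
    rw [List.mem_map] at hg
    obtain ⟨i, -, rfl⟩ := hg
    apply K3a_comm (D s) (hD s)
    · apply h2
      intro h
      exact Fin.succ_ne_zero i (congrArg Prod.fst h)
    · apply h2
      intro h
      exact Fin.succ_ne_zero i (congrArg Prod.fst h)
  have a1 : D false (fa ⟨0, hn⟩) = Finsupp.single 1 1 := h1 false
  have a2 : D false (fb ⟨0, hn⟩) = 0 := h2 false _ (by intro h; cases congrArg Prod.snd h)
  have b1 : D true (fa ⟨0, hn⟩) = 0 := h2 true _ (by intro h; cases congrArg Prod.snd h)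
  have b2 : D true (fb ⟨0, hn⟩) = Finsupp.single 1 1 := h1 true
  constructor
  · rw [hc, hD, hz, hD, hD, hD, K3a_inv _ (hD false), K3a_inv _ (hD false), a1, a2]
    simp only [Finsupp.mapDomain_zero, Finsupp.mapDomain_single, neg_zero, add_zero, mul_one]
    rw [sub_eq_add_neg, K3a_neg, Finsupp.mapDomain_single]
  · rw [hc, hD, hz, hD, hD, hD, K3a_inv _ (hD true), K3a_inv _ (hD true), b1, b2]
    simp only [Finsupp.mapDomain_zero, Finsupp.mapDomain_single, neg_zero, add_zero, mul_one,
      zero_add]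
    rw [sub_eq_add_neg, K3a_neg, Finsupp.mapDomain_single]

end Pool.Agent.Lib.MP_6a1159_al.BS
end

section

/-! K3b: the boundary word generates a malnormal infinite cyclic subgroup of the free group. -/

set_option autoImplicit false

namespace Pool.Agent.Lib.MP_6a1159_al.BS

/-- Action of an element on finitely supported functions. -/
private noncomputable def act {F : Type} [Group F] (g : F) : (F →₀ ℤ) →+ (F →₀ ℤ) :=
  Finsupp.mapDomain.addMonoidHom (fun x => g * x)

private theorem act_apply {F : Type} [Group F] (g : F) (m : F →₀ ℤ) :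
    act g m = Finsupp.mapDomain (fun x => g * x) m := rfl

private theorem act_single {F : Type} [Group F] (g z : F) (r : ℤ) :
    act g (Finsupp.single z r) = Finsupp.single (g * z) r := by
  rw [act_apply, Finsupp.mapDomain_single]

open Classical in
/-- Sum over a coset. -/
private noncomputable def sm {F : Type} [Group F] (Z : Subgroup F) (x y : F) : (F →₀ ℤ) →+ ℤ :=
  Finsupp.liftAddHom (fun z => if x * z * y⁻¹ ∈ Z then AddMonoidHom.id ℤ else 0)

open Classical in
private theorem sm_single {F : Type} [Group F] (Z : Subgroup F) (x y z : F) (r : ℤ) :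
    sm Z x y (Finsupp.single z r) = if x * z * y⁻¹ ∈ Z then r else 0 := by
  rw [sm, Finsupp.liftAddHom_apply_single]
  split_ifs <;> rfl

private theorem sm_act {F : Type} [Group F] (Z : Subgroup F) (g x y : F) (m : F →₀ ℤ) :
    sm Z x y (act g m) = sm Z (x * g) y m := by
  classical
  have h : (sm Z x y).comp (act g) = sm Z (x * g) y := by
    apply Finsupp.addHom_ext
    intro z r
    rw [AddMonoidHom.comp_apply, act_single, sm_single, sm_single, mul_assoc x g z]
  rw [← h]
  rfl

private theorem sm_left {F : Type} [Group F] (Z : Subgroup F) (g x y : F) (hg : g ∈ Z)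
    (m : F →₀ ℤ) : sm Z (g * x) y m = sm Z x y m := by
  classical
  have h : sm Z (g * x) y = sm Z x y := by
    apply Finsupp.addHom_ext
    intro z r
    rw [sm_single, sm_single]
    have : g * x * z * y⁻¹ ∈ Z ↔ x * z * y⁻¹ ∈ Z := by
      rw [mul_assoc g x z, mul_assoc g (x * z) y⁻¹]
      exact Subgroup.mul_mem_cancel_left Z hg
    simp only [this]
  rw [h]

private theorem sm_zero {F : Type} [Group F] (Z : Subgroup F) (x y : F) (S : Set F)
    (m : F →₀ ℤ) (hm : m ∈ Finsupp.supported ℤ ℤ S) (h : ∀ z ∈ S, x * z * y⁻¹ ∉ Z) :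
    sm Z x y m = 0 := by
  classical
  rw [sm, Finsupp.liftAddHom_apply, Finsupp.sum]
  apply Finset.sum_eq_zero
  intro z hz
  rw [if_neg (h z ((Finsupp.mem_supported ℤ m).mp hm hz))]
  rfl

private theorem rel_comm {H ι : Type} [CommGroup H] (L : List ι)
    (f : FreeGroup (ι × Bool) →* H) : f (relator L) = 1 := by
  unfold relator
  rw [map_list_prod, List.map_map]
  apply List.prod_eq_one
  intro x hx
  rw [List.mem_map] at hx
  obtain ⟨i, _, rfl⟩ := hx
  simp only [Function.comp_apply, map_mul, map_inv]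
  rw [mul_comm (f (fa i)) (f (fb i))]
  simp

/-- The exponent sum of the letter `t` as a homomorphism. -/
private def expo {X : Type} [DecidableEq X] (t : X) : FreeGroup X →* Multiplicative ℤ :=
  FreeGroup.lift (fun s => if s = t then Multiplicative.ofAdd 1 else 1)

private theorem D_one {F : Type} [Group F] (D : F → (F →₀ ℤ))
    (hD : ∀ g h, D (g * h) = D g + act g (D h)) : D 1 = 0 := by
  have h := hD 1 1
  rw [one_mul] at h
  have h2 : act (1 : F) (D 1) = D 1 := by
    rw [act_apply]
    simp only [one_mul]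
    exact Finsupp.mapDomain_id
  rw [h2] at h
  simpa using h

private theorem D_zpow {F : Type} [Group F] (D : F → (F →₀ ℤ))
    (hD : ∀ g h, D (g * h) = D g + act g (D h)) (c y : F) (k : ℤ) :
    sm (Subgroup.zpowers c) 1 y (D (c ^ k)) = k * sm (Subgroup.zpowers c) 1 y (D c) := by
  have hstep : ∀ k : ℤ, sm (Subgroup.zpowers c) 1 y (D (c ^ (k + 1))) =
      sm (Subgroup.zpowers c) 1 y (D (c ^ k)) + sm (Subgroup.zpowers c) 1 y (D c) := by
    intro k
    rw [zpow_add_one, hD, map_add, sm_act, one_mul]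
    have := sm_left (Subgroup.zpowers c) (c ^ k) 1 y (Subgroup.zpow_mem_zpowers c k) (D c)
    rw [mul_one] at this
    rw [this]
  induction k using Int.induction_on with
  | zero => rw [zpow_zero, D_one D hD, map_zero, zero_mul]
  | succ i ih => rw [hstep, ih]; ring
  | pred i ih =>
    have := hstep (-(i : ℤ) - 1)
    rw [sub_add_cancel, ih] at this
    linarith

private theorem D_supp {F : Type} [Group F] (D : F → (F →₀ ℤ))
    (hD : ∀ g h, D (g * h) = D g + act g (D h)) (c p q : F)
    (hc : D c = Finsupp.single p 1 - Finsupp.single q 1) (k : ℤ) :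
    D (c ^ k) ∈ Finsupp.supported ℤ ℤ {z : F | ∃ i : ℤ, z = c ^ i * p ∨ z = c ^ i * q} := by
  have hstep : ∀ k : ℤ, D (c ^ (k + 1)) = D (c ^ k) + (Finsupp.single (c ^ k * p) 1 -
      Finsupp.single (c ^ k * q) 1) := by
    intro k
    rw [zpow_add_one, hD, hc, map_sub, act_single, act_single]
  have hin : ∀ k : ℤ, ((Finsupp.single (c ^ k * p) 1 -
      Finsupp.single (c ^ k * q) 1 : F →₀ ℤ)) ∈
      Finsupp.supported ℤ ℤ {z : F | ∃ i : ℤ, z = c ^ i * p ∨ z = c ^ i * q} := by
    intro k
    apply Submodule.sub_mem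
    · exact Finsupp.single_mem_supported ℤ _ ⟨k, Or.inl rfl⟩
    · exact Finsupp.single_mem_supported ℤ _ ⟨k, Or.inr rfl⟩
  induction k using Int.induction_on with
  | zero => rw [zpow_zero, D_one D hD]; exact Submodule.zero_mem _
  | succ i ih => rw [hstep]; exact Submodule.add_mem _ ih (hin _)
  | pred i ih =>
    have := hstep (-(i : ℤ) - 1)
    rw [sub_add_cancel] at this
    have h2 : D (c ^ (-(i : ℤ) - 1)) = D (c ^ (-(i : ℤ))) -
        (Finsupp.single (c ^ (-(i : ℤ) - 1) * p) 1 - Finsupp.single (c ^ (-(i : ℤ) - 1) * q) 1) := by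
      rw [this]; abel
    rw [h2]
    exact Submodule.sub_mem _ ih (hin _)

/-- PROOF. Write `F` for the free group, `c = cF n`, `Z = zpowers c`, `a`, `b` for the first handle,
`D₀ = D false`, `D₁ = D true` (`exists_fox`, `fox_c`), `u := a * b * a⁻¹`, `v := a * b * a⁻¹ * b⁻¹`. Let
`α, β : F → ℤ` be the exponent sums of the letters `a`, `b`; they vanish on `Z`. For `y : F` let
`s_y : (F →₀ ℤ) →+ ℤ`, `s_y m := m.sum (fun x r => if x * y⁻¹ ∈ Z then r else 0)`: it satisfies
`s_y (c ^ k • m) = s_y m` where `g • m := mapDomain (g * ·) m`. By induction `s_y (D (c ^ k)) = k * s_y (D c)` for `k : ℤ`.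
`s_1 (D₀ c) = 1` since `u ∉ Z` (`β u = 1`), and `s_a (D₁ c) = 1` since `v * a⁻¹ ∉ Z` (`α = -1`).
(infinite order) if `c ^ k = 1` then `k = s_1 (D₀ (c ^ k)) = s_1 (D₀ 1) = 0`.
(malnormal) let `x⁻¹ * c ^ k * x = c ^ l`, `c ^ k * x = x * c ^ l`. Applying `s_y ∘ D`:
`k * s_y (D c) + s_y (D x) = s_y (D x) + s_y (x • D (c ^ l))`. With `D₀`, `y = 1`:
`s_1 (x • D₀ (c ^ l)) = k ≠ 0`; the support of `D₀ (c ^ l)` is contained in `{c ^ i, c ^ i * u}`, so there
is `i` with `x * c ^ i ∈ Z` or `x * c ^ i * u ∈ Z`; in the first case `x ∈ Z` and we are done; in the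
second case `β x = -1`. With `D₁`, `y = a`: `s_a (x • D₁ (c ^ l)) = k ≠ 0`, so there is `i` with
`x * c ^ i * a * a⁻¹ ∈ Z`, `x ∈ Z`, or `x * c ^ i * v * a⁻¹ ∈ Z`, so `β x = 0`. Contradiction. -/
theorem malF (n : ℕ) (hn : 1 ≤ n) : (∀ k : ℤ, cF n ^ k = 1 → k = 0) ∧
    ∀ (x : FreeGroup (Fin n × Bool)) (k : ℤ), k ≠ 0 →
      x⁻¹ * cF n ^ k * x ∈ Subgroup.zpowers (cF n) → x ∈ Subgroup.zpowers (cF n) := by
  classical
  have hD : ∀ s : Bool, ∃ D : FreeGroup (Fin n × Bool) → (FreeGroup (Fin n × Bool) →₀ ℤ),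
      (∀ g h, D (g * h) = D g + Finsupp.mapDomain (fun x => g * x) (D h)) ∧
      (D (FreeGroup.of (⟨0, hn⟩, s)) = Finsupp.single 1 1) ∧
      ∀ t, t ≠ (⟨0, hn⟩, s) → D (FreeGroup.of t) = 0 := fun s => exists_fox _
  choose D hD1 hD2 hD3 using hD
  obtain ⟨hc0, hc1⟩ := fox_c n hn D hD1 hD2 hD3
  set c := cF n with hc
  set a : FreeGroup (Fin n × Bool) := fa ⟨0, hn⟩ with ha
  set b : FreeGroup (Fin n × Bool) := fb ⟨0, hn⟩ with hb
  set Z := Subgroup.zpowers c with hZ
  have hDa : ∀ s g h, D s (g * h) = D s g + act g (D s h) := hD1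
  let α : FreeGroup (Fin n × Bool) →* Multiplicative ℤ := expo (⟨0, hn⟩, false)
  let β : FreeGroup (Fin n × Bool) →* Multiplicative ℤ := expo (⟨0, hn⟩, true)
  have hαa : α a = Multiplicative.ofAdd 1 := by
    simp [α, expo, ha, fa]
  have hαb : α b = 1 := by
    simp [α, expo, hb, fb]
  have hβa : β a = 1 := by
    simp [β, expo, ha, fa]
  have hβb : β b = Multiplicative.ofAdd 1 := by
    simp [β, expo, hb, fb]
  have hαc : α c = 1 := rel_comm _ _
  have hβc : β c = 1 := rel_comm _ _
  have hZα : ∀ z ∈ Z, α z = 1 := by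
    intro z hz
    obtain ⟨k, rfl⟩ := Subgroup.mem_zpowers_iff.mp hz
    rw [map_zpow, hαc, one_zpow]
  have hZβ : ∀ z ∈ Z, β z = 1 := by
    intro z hz
    obtain ⟨k, rfl⟩ := Subgroup.mem_zpowers_iff.mp hz
    rw [map_zpow, hβc, one_zpow]
  have h10 : (Multiplicative.ofAdd (1 : ℤ)) ≠ 1 := by decide
  have hs0 : sm Z 1 1 (D false c) = 1 := by
    rw [hc0, map_sub, sm_single, sm_single, if_pos, if_neg]
    · simp
    · intro h
      have := hZβ _ h
      simp only [map_mul, map_inv, hβa, hβb, map_one] at this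
      exact h10 (by simpa using this)
    · simp [Subgroup.one_mem]
  have hs1 : sm Z 1 a (D true c) = 1 := by
    rw [hc1, map_sub, sm_single, sm_single, if_pos, if_neg]
    · simp
    · intro h
      have := hZα _ h
      simp only [map_mul, map_inv, hαa, hαb, map_one] at this
      exact h10 (by simpa using this)
    · simp [Subgroup.one_mem]
  refine ⟨?_, ?_⟩
  · intro k hk
    have h1 := D_zpow (D false) (hDa false) c 1 k
    rw [hk, D_one (D false) (hDa false), map_zero, hs0, mul_one] at h1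
    exact h1.symm
  intro x k hk hx
  by_contra hxZ
  obtain ⟨l, hl⟩ := Subgroup.mem_zpowers_iff.mp hx
  have hcx : c ^ k * x = x * c ^ l := by
    rw [hl]; group
  have hmain : ∀ s y, k * sm Z 1 y (D s c) = sm Z x y (D s (c ^ l)) := by
    intro s y
    have h1 : D s (c ^ k * x) = D s (x * c ^ l) := by rw [hcx]
    rw [hDa, hDa] at h1
    have h2 := congrArg (sm Z 1 y) h1
    rw [map_add, map_add, D_zpow (D s) (hDa s), sm_act, sm_act, one_mul, one_mul] at h2
    have h3 := sm_left Z (c ^ k) 1 y (Subgroup.zpow_mem_zpowers c k) (D s x)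
    rw [mul_one] at h3
    rw [h3] at h2
    linarith
  have hcz : ∀ i : ℤ, x * c ^ i ∈ Z → False := by
    intro i hi
    exact hxZ ((Subgroup.mul_mem_cancel_right Z (Subgroup.zpow_mem_zpowers c i)).mp hi)
  -- the first derivative
  have hA : β x * Multiplicative.ofAdd 1 = 1 := by
    by_contra hne
    have h1 := hmain false 1
    rw [hs0, mul_one] at h1
    refine hk (h1.trans (sm_zero Z x 1 _ _ (D_supp (D false) (hDa false) c _ _ hc0 l) ?_))
    rintro z ⟨i, rfl | rfl⟩ hz
    · rw [mul_one, inv_one, mul_one] at hz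
      exact hcz i hz
    · have h2 := hZβ _ hz
      simp only [map_mul, map_inv, hβa, hβb, map_zpow, hβc, one_zpow, map_one] at h2
      exact hne (by simpa using h2)
  have hB : β x = 1 := by
    by_contra hne
    have h1 := hmain true a
    rw [hs1, mul_one] at h1
    refine hk (h1.trans (sm_zero Z x a _ _ (D_supp (D true) (hDa true) c _ _ hc1 l) ?_))
    rintro z ⟨i, rfl | rfl⟩ hz
    · have : x * (c ^ i * a) * a⁻¹ = x * c ^ i := by group
      rw [this] at hz
      exact hcz i hz
    · have h2 := hZβ _ hz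
      simp only [map_mul, map_inv, hβa, hβb, map_zpow, hβc, one_zpow, map_one] at h2
      exact hne (by simpa using h2)
  rw [hB, one_mul] at hA
  exact h10 hA

end Pool.Agent.Lib.MP_6a1159_al.BS
end

section

/-! K3: see the imported files. -/
end

section

/-! K4ba: the Whitehead graph of the boundary word. -/

set_option autoImplicit false

namespace Pool.Agent.Lib.MP_6a1159_al.BS

/-- PROOF: unfold `cF`, `relator`; `FreeGroup.mk` of an appended list is the product. -/
theorem mk_wc (n : ℕ) : FreeGroup.mk (wc n) = cF n := by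
  have h : ∀ L : List (Fin n), FreeGroup.mk (L.flatMap fun i => [lA i, lB i, lA' i, lB' i]) =
      relator L := by
    intro L
    induction L with
    | nil => rfl
    | cons i L ih =>
      rw [List.flatMap_cons, ← FreeGroup.mul_mk, ih, relator, relator, List.map_cons,
        List.prod_cons]
      congr 1
  exact h _

/-- PROOF: consecutive letters of `wc n` are of the forms `a_i, b_i`; `b_i, a_i⁻¹`; `a_i⁻¹, b_i⁻¹`;
`b_i⁻¹, a_{i'}`: never mutually inverse. (`IsReduced` is a chain condition on consecutive letters.) -/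
theorem wc_reduced (n : ℕ) : FreeGroup.IsReduced (wc n) := by
  have h : ∀ L : List (Fin n), FreeGroup.IsReduced
      (L.flatMap fun i => [lA i, lB i, lA' i, lB' i]) := by
    intro L
    induction L with
    | nil => exact FreeGroup.IsReduced.nil
    | cons i L ih =>
      rw [List.flatMap_cons]
      simp only [List.cons_append, List.nil_append, FreeGroup.isReduced_cons_cons]
      refine ⟨by simp [lA, lB], by simp [lB, lA'], by simp [lA', lB'], ?_⟩
      cases L with
      | nil => exact FreeGroup.IsReduced.singleton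
      | cons j L =>
        rw [List.flatMap_cons] at ih ⊢
        simp only [List.cons_append, List.nil_append] at ih ⊢
        rw [FreeGroup.isReduced_cons_cons]
        exact ⟨by simp [lB', lA], ih⟩
  exact h _

/-- At most one letter cannot be appended to a reduced word. -/
theorem red_or {X : Type} [DecidableEq X] (l : List (X × Bool)) (hl : FreeGroup.IsReduced l)
    (t t' : X × Bool) (h : t ≠ t') :
    FreeGroup.IsReduced (l ++ [t]) ∨ FreeGroup.IsReduced (l ++ [t']) := by
  induction l using List.reverseRecOn with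
  | nil => exact Or.inl FreeGroup.IsReduced.singleton
  | append_singleton l s _ =>
    have key : ∀ u : X × Bool, (s.1 = u.1 → s.2 = u.2) →
        FreeGroup.IsReduced (l ++ [s] ++ [u]) := by
      intro u hu
      have h2 : FreeGroup.IsReduced ([s] ++ [u]) := by
        simp only [List.cons_append, List.nil_append, FreeGroup.isReduced_cons_cons]
        exact ⟨hu, FreeGroup.IsReduced.singleton⟩
      exact FreeGroup.IsReduced.append_overlap hl h2 (by simp)
    by_contra hcon
    rw [not_or] at hcon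
    have h1 : ¬ (s.1 = t.1 → s.2 = t.2) := fun hh => hcon.1 (key t hh)
    have h2 : ¬ (s.1 = t'.1 → s.2 = t'.2) := fun hh => hcon.2 (key t' hh)
    rw [Classical.not_imp] at h1 h2
    apply h
    refine Prod.ext (h1.1.symm.trans h2.1) ?_
    have a1 := h1.2
    have a2 := h2.2
    revert a1 a2
    cases s.2 <;> cases t.2 <;> cases t'.2 <;> simp

end Pool.Agent.Lib.MP_6a1159_al.BS
end

section

/-! K4bb: the Whitehead graph of the boundary word. -/

set_option autoImplicit false

namespace Pool.Agent.Lib.MP_6a1159_al.BS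

private theorem K4bb_join {X : Type} {l m : List (X × Bool)} {t : X × Bool}
    (h1 : FreeGroup.IsReduced (l ++ [t])) (h2 : FreeGroup.IsReduced (t :: m)) :
    FreeGroup.IsReduced (l ++ t :: m) := by
  have h3 := FreeGroup.IsReduced.append_overlap (L₁ := l) (L₂ := [t]) (L₃ := m) h1
    (by simpa using h2) (by simp)
  simpa using h3

private theorem K4bb_inv {X : Type} {w : List (X × Bool)} (h : FreeGroup.IsReduced w) :
    FreeGroup.IsReduced (FreeGroup.invRev w) := by
  apply FreeGroup.IsReduced.of_forall_not_step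
  intro L hL
  have h1 : FreeGroup.Red.Step (FreeGroup.invRev (FreeGroup.invRev w)) (FreeGroup.invRev L) :=
    hL.invRev
  rw [FreeGroup.invRev_invRev] at h1
  exact h.not_step h1

private theorem K4bb_head (n : ℕ) (hn : 1 ≤ n) : ∃ m, wc n = lA ⟨0, hn⟩ :: m := by
  obtain ⟨k, rfl⟩ : ∃ k, n = k + 1 := ⟨n - 1, by omega⟩
  unfold wc
  rw [List.finRange_succ, List.flatMap_cons]
  exact ⟨_, rfl⟩

private theorem K4bb_tail (n : ℕ) (hn : 1 ≤ n) : ∃ m, wc n = m ++ [lB' ⟨n - 1, by omega⟩] := by
  obtain ⟨k, rfl⟩ : ∃ k, n = k + 1 := ⟨n - 1, by omega⟩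
  unfold wc
  rw [List.finRange_succ_last, List.flatMap_append]
  refine ⟨(List.map Fin.castSucc (List.finRange k)).flatMap (fun i => [lA i, lB i, lA' i, lB' i]) ++
    [lA (Fin.last k), lB (Fin.last k), lA' (Fin.last k)], ?_⟩
  simp only [List.flatMap_cons, List.flatMap_nil, List.append_nil, List.append_assoc,
    List.cons_append, List.nil_append]
  rfl

/-- Two consecutive letters `x`, `y` of the boundary word. PROOF: `p ++ x :: y :: q = wc n` is reduced,
so `y :: q` and the inverse word `x⁻¹ :: FreeGroup.invRev p` of `p ++ [x]` are reduced, and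
`l ++ y :: q`, `l ++ x⁻¹ :: FreeGroup.invRev p` are reduced (only the letters at the junction
matter). `mk (l ++ y :: q) = mk (l ++ x⁻¹ :: invRev p) * cF n` because
`invRev (p ++ [x]) = x⁻¹ :: invRev p` cancels `p ++ [x]`. So by `h1`, `hcyl` `ψ (mk (l ++ [y])) =
ψ (mk (l ++ y :: q)) = ψ (mk (l ++ x⁻¹ :: invRev p)) = ψ (mk (l ++ [x⁻¹]))`. -/
theorem edge (n : ℕ) (ψ : FreeGroup (Fin n × Bool) → ℤ) (h1 : ∀ a, ψ (a * cF n) = ψ a)
    (l : List ((Fin n × Bool) × Bool))
    (hcyl : ∀ (t : (Fin n × Bool) × Bool) (m : List ((Fin n × Bool) × Bool)),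
      FreeGroup.IsReduced (l ++ t :: m) →
        ψ (FreeGroup.mk (l ++ t :: m)) = ψ (FreeGroup.mk (l ++ [t])))
    (p q : List ((Fin n × Bool) × Bool)) (x y : (Fin n × Bool) × Bool)
    (hw : wc n = p ++ x :: y :: q) (hx : FreeGroup.IsReduced (l ++ [(x.1, !x.2)]))
    (hy : FreeGroup.IsReduced (l ++ [y])) :
    ψ (FreeGroup.mk (l ++ [y])) = ψ (FreeGroup.mk (l ++ [(x.1, !x.2)])) := by
  have hred : FreeGroup.IsReduced (wc n) := wc_reduced n
  have hyq : FreeGroup.IsReduced (y :: q) := by
    have e : wc n = (p ++ [x]) ++ (y :: q) := by rw [hw]; simp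
    rw [e] at hred
    exact List.IsChain.right_of_append hred
  have hpx : FreeGroup.IsReduced (p ++ [x]) := by
    have e : wc n = (p ++ [x]) ++ (y :: q) := by rw [hw]; simp
    rw [e] at hred
    exact List.IsChain.left_of_append hred
  have hinv : FreeGroup.invRev (p ++ [x]) = (x.1, !x.2) :: FreeGroup.invRev p := by
    rw [FreeGroup.invRev_append]
    rfl
  have hxp : FreeGroup.IsReduced ((x.1, !x.2) :: FreeGroup.invRev p) := by
    rw [← hinv]
    exact K4bb_inv hpx
  have R1 := K4bb_join hy hyq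
  have R2 := K4bb_join hx hxp
  have hmul : FreeGroup.mk (l ++ (x.1, !x.2) :: FreeGroup.invRev p) * cF n =
      FreeGroup.mk (l ++ y :: q) := by
    have e1 : FreeGroup.mk (l ++ FreeGroup.invRev (p ++ [x])) =
        FreeGroup.mk l * (FreeGroup.mk (p ++ [x]))⁻¹ := by
      rw [FreeGroup.inv_mk, FreeGroup.mul_mk]
    have e2 : FreeGroup.mk ((p ++ [x]) ++ (y :: q)) =
        FreeGroup.mk (p ++ [x]) * FreeGroup.mk (y :: q) := by
      rw [FreeGroup.mul_mk]
    have e3 : FreeGroup.mk (l ++ y :: q) = FreeGroup.mk l * FreeGroup.mk (y :: q) := by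
      rw [FreeGroup.mul_mk]
    rw [← hinv, ← mk_wc n, hw, show p ++ x :: y :: q = (p ++ [x]) ++ (y :: q) by simp,
      e1, e2, e3, mul_assoc, inv_mul_cancel_left]
  rw [← hcyl y q R1, ← hcyl (x.1, !x.2) _ R2, ← hmul, h1]

/-- The first letter. PROOF: `wc n = lA 0 :: m`, `mk l * cF n = mk (l ++ wc n)`, reduced. -/
theorem edge_first (n : ℕ) (hn : 1 ≤ n) (ψ : FreeGroup (Fin n × Bool) → ℤ)
    (h1 : ∀ a, ψ (a * cF n) = ψ a) (l : List ((Fin n × Bool) × Bool))
    (hcyl : ∀ (t : (Fin n × Bool) × Bool) (m : List ((Fin n × Bool) × Bool)),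
      FreeGroup.IsReduced (l ++ t :: m) →
        ψ (FreeGroup.mk (l ++ t :: m)) = ψ (FreeGroup.mk (l ++ [t])))
    (hy : FreeGroup.IsReduced (l ++ [lA ⟨0, hn⟩])) :
    ψ (FreeGroup.mk (l ++ [lA ⟨0, hn⟩])) = ψ (FreeGroup.mk l) := by
  obtain ⟨m, hm⟩ := K4bb_head n hn
  have hred : FreeGroup.IsReduced (wc n) := wc_reduced n
  rw [hm] at hred
  have R1 := K4bb_join hy hred
  have hmul : FreeGroup.mk l * cF n = FreeGroup.mk (l ++ lA ⟨0, hn⟩ :: m) := by
    rw [← mk_wc n, hm, FreeGroup.mul_mk]
  rw [← hcyl _ m R1, ← hmul, h1]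

/-- The last letter. PROOF: `wc n = m ++ [lB' (n-1)]`, `FreeGroup.invRev (wc n) = lB (n-1) :: invRev m`,
`mk l * (cF n)⁻¹ = mk (l ++ invRev (wc n))`, reduced. -/
theorem edge_last (n : ℕ) (hn : 1 ≤ n) (ψ : FreeGroup (Fin n × Bool) → ℤ)
    (h1 : ∀ a, ψ (a * cF n) = ψ a) (l : List ((Fin n × Bool) × Bool))
    (hcyl : ∀ (t : (Fin n × Bool) × Bool) (m : List ((Fin n × Bool) × Bool)),
      FreeGroup.IsReduced (l ++ t :: m) →
        ψ (FreeGroup.mk (l ++ t :: m)) = ψ (FreeGroup.mk (l ++ [t])))
    (hy : FreeGroup.IsReduced (l ++ [lB ⟨n - 1, by omega⟩])) :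
    ψ (FreeGroup.mk (l ++ [lB ⟨n - 1, by omega⟩])) = ψ (FreeGroup.mk l) := by
  obtain ⟨m, hm⟩ := K4bb_tail n hn
  have hred : FreeGroup.IsReduced (wc n) := wc_reduced n
  have hinv : FreeGroup.invRev (wc n) = lB ⟨n - 1, by omega⟩ :: FreeGroup.invRev m := by
    rw [hm, FreeGroup.invRev_append]
    rfl
  have hred' : FreeGroup.IsReduced (lB ⟨n - 1, by omega⟩ :: FreeGroup.invRev m) := by
    rw [← hinv]
    exact K4bb_inv hred
  have R1 := K4bb_join hy hred'
  have hmul : FreeGroup.mk l * (cF n)⁻¹ =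
      FreeGroup.mk (l ++ lB ⟨n - 1, by omega⟩ :: FreeGroup.invRev m) := by
    rw [← hinv, ← mk_wc n, FreeGroup.inv_mk, FreeGroup.mul_mk]
  have h2 : ψ (FreeGroup.mk l * (cF n)⁻¹) = ψ (FreeGroup.mk l) := by
    have := h1 (FreeGroup.mk l * (cF n)⁻¹)
    rw [inv_mul_cancel_right] at this
    exact this.symm
  rw [← hcyl _ _ R1, ← hmul, h2]

end Pool.Agent.Lib.MP_6a1159_al.BS
end
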