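import Pool.Agent.Lib.MP_6a1159_al.Mg.G001

section

/-! K4c: the Whitehead graph minus a vertex is connected. -/

set_option autoImplicit false

namespace Pool.Agent.Lib.MP_6a1159_al.BS

private def K4c_pos {n : ℕ} (t : (Fin n × Bool) × Bool) : ℕ :=
  4 * t.1.1.val + (match t.1.2, t.2 with
    | false, true => 0
    | true, false => 1
    | false, false => 2
    | true, true => 3)

private theorem K4c_pred (n : ℕ) (R : (Fin n × Bool) × Bool → Prop) (Q : (Fin n × Bool) × Bool → ℤ)
    (e1 : ∀ i, R (lA i) → R (lB' i) → Q (lA i) = Q (lB' i))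
    (e2 : ∀ i, R (lB' i) → R (lA' i) → Q (lB' i) = Q (lA' i))
    (e3 : ∀ i, R (lA' i) → R (lB i) → Q (lA' i) = Q (lB i))
    (e4 : ∀ i j : Fin n, i.val + 1 = j.val → R (lB i) → R (lA j) → Q (lB i) = Q (lA j))
    (t : (Fin n × Bool) × Bool) (h : 0 < K4c_pos t) :
    ∃ t', K4c_pos t' + 1 = K4c_pos t ∧ (R t' → R t → Q t' = Q t) := by
  obtain ⟨⟨i, b⟩, s⟩ := t
  cases b <;> cases s
  · exact ⟨lB' i, by simp [K4c_pos, lB'], e2 i⟩
  · have hi : 0 < i.val := by simpa [K4c_pos] using h
    refine ⟨lB ⟨i.val - 1, by omega⟩, ?_, e4 _ i ?_⟩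
    · simp only [K4c_pos, lB]
      omega
    · simp only
      omega
  · exact ⟨lA i, by simp [K4c_pos, lA], e1 i⟩
  · exact ⟨lA' i, by simp [K4c_pos, lA'], e3 i⟩

private theorem K4c_succ (n : ℕ) (R : (Fin n × Bool) × Bool → Prop) (Q : (Fin n × Bool) × Bool → ℤ)
    (e1 : ∀ i, R (lA i) → R (lB' i) → Q (lA i) = Q (lB' i))
    (e2 : ∀ i, R (lB' i) → R (lA' i) → Q (lB' i) = Q (lA' i))
    (e3 : ∀ i, R (lA' i) → R (lB i) → Q (lA' i) = Q (lB i))
    (e4 : ∀ i j : Fin n, i.val + 1 = j.val → R (lB i) → R (lA j) → Q (lB i) = Q (lA j))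
    (t : (Fin n × Bool) × Bool) (h : K4c_pos t + 1 < 4 * n) :
    ∃ t', K4c_pos t' = K4c_pos t + 1 ∧ (R t → R t' → Q t = Q t') := by
  obtain ⟨⟨i, b⟩, s⟩ := t
  cases b <;> cases s
  · exact ⟨lB i, by simp [K4c_pos, lB], e3 i⟩
  · exact ⟨lB' i, by simp [K4c_pos, lB'], e1 i⟩
  · exact ⟨lA' i, by simp [K4c_pos, lA'], e2 i⟩
  · have hi : i.val + 1 < n := by
      simp only [K4c_pos] at h
      omega
    refine ⟨lA ⟨i.val + 1, hi⟩, ?_, e4 i _ rfl⟩
    simp only [K4c_pos, lA]
    omega

private theorem K4c_inj (n : ℕ) (t t' : (Fin n × Bool) × Bool) (h : K4c_pos t = K4c_pos t') :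
    t = t' := by
  obtain ⟨⟨i, b⟩, s⟩ := t
  obtain ⟨⟨i', b'⟩, s'⟩ := t'
  have hi : i = i' := by
    apply Fin.ext
    cases b <;> cases s <;> cases b' <;> cases s' <;> simp only [K4c_pos] at h <;> omega
  subst hi
  cases b <;> cases s <;> cases b' <;> cases s' <;> simp [K4c_pos] at h ⊢

private theorem K4c_lt (n : ℕ) (t : (Fin n × Bool) × Bool) : K4c_pos t < 4 * n := by
  obtain ⟨⟨i, b⟩, s⟩ := t
  have := i.2
  cases b <;> cases s <;> simp only [K4c_pos] <;> omega

/-- PROOF: order the letters as `a_0, b_0⁻¹, a_0⁻¹, b_0, a_1, b_1⁻¹, …, b_{n-1}` (position `4 i + j`). The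
hypotheses `e1 … e4` link consecutive letters, `b1` links the first one to `q`, `b2` the last one. By
`hR` there is at most one letter `t₀` with `¬ R t₀`. For the letters before `t₀` (or all letters if there
is no `t₀`) go upwards by induction from `b1`; for the letters after `t₀` go downwards from `b2`. E.g.
prove by induction on the position `k`: either all letters up to position `k` satisfy the claim, or some
letter at a position `≤ k` is not in `R`; similarly downwards; and combine. -/
theorem comb (n : ℕ) (hn : 1 ≤ n) (R : (Fin n × Bool) × Bool → Prop)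
    (hR : ∀ t t', t ≠ t' → R t ∨ R t') (Q : (Fin n × Bool) × Bool → ℤ) (q : ℤ)
    (b1 : R (lA ⟨0, hn⟩) → Q (lA ⟨0, hn⟩) = q)
    (b2 : R (lB ⟨n - 1, by omega⟩) → Q (lB ⟨n - 1, by omega⟩) = q)
    (e1 : ∀ i, R (lA i) → R (lB' i) → Q (lA i) = Q (lB' i))
    (e2 : ∀ i, R (lB' i) → R (lA' i) → Q (lB' i) = Q (lA' i))
    (e3 : ∀ i, R (lA' i) → R (lB i) → Q (lA' i) = Q (lB i))
    (e4 : ∀ i j : Fin n, i.val + 1 = j.val → R (lB i) → R (lA j) → Q (lB i) = Q (lA j))
    (t : (Fin n × Bool) × Bool) (ht : R t) : Q t = q := by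
  have up : ∀ k : ℕ, ∀ t, K4c_pos t = k → (∀ t', K4c_pos t' ≤ k → R t') → Q t = q := by
    intro k
    induction k with
    | zero =>
      intro t ht h
      have : t = lA ⟨0, hn⟩ := K4c_inj n _ _ (by rw [ht]; simp [K4c_pos, lA])
      subst this
      exact b1 (h _ ht.le)
    | succ k ih =>
      intro t ht h
      obtain ⟨t', h1, h2⟩ := K4c_pred n R Q e1 e2 e3 e4 t (by omega)
      rw [← h2 (h _ (by omega)) (h _ (by omega))]
      exact ih t' (by omega) fun t'' h'' => h t'' (by omega)
  have down : ∀ k : ℕ, ∀ t, K4c_pos t + k + 1 = 4 * n → (∀ t', K4c_pos t ≤ K4c_pos t' → R t') →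
      Q t = q := by
    intro k
    induction k with
    | zero =>
      intro t ht h
      have : t = lB ⟨n - 1, by omega⟩ := K4c_inj n _ _ (by
        simp only [K4c_pos, lB] at ht ⊢
        omega)
      rw [this]
      rw [this] at h
      exact b2 (h _ le_rfl)
    | succ k ih =>
      intro t ht h
      obtain ⟨t', h1, h2⟩ := K4c_succ n R Q e1 e2 e3 e4 t (by omega)
      rw [h2 (h _ le_rfl) (h _ (by omega))]
      exact ih t' (by omega) fun t'' h'' => h t'' (by omega)
  by_cases hall : ∀ t', K4c_pos t' ≤ K4c_pos t → R t'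
  · exact up _ t rfl hall
  · push Not at hall
    obtain ⟨t0, h0, h0'⟩ := hall
    refine down (4 * n - 1 - K4c_pos t) t (by have := K4c_lt n t; omega) ?_
    intro t' h'
    refine (hR t0 t' ?_).resolve_left h0'
    rintro rfl
    have : t0 = t := K4c_inj n _ _ (le_antisymm h0 h')
    subst this
    exact h0' ht

end Pool.Agent.Lib.MP_6a1159_al.BS
end

section

/-! K6a: the swap of the two halves, the swap of two neighbouring handles, and the twist. -/

set_option autoImplicit false

namespace Pool.Agent.Lib.MP_6a1159_al.BS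

/-- exchanging the two halves of the handles -/
private def K6a_t (n : ℕ) : Fin (n + n) ≃ Fin (n + n) := finAddFlip

private theorem K6a_t_left (n : ℕ) (j : Fin n) : K6a_t n (Fin.castAdd n j) = Fin.natAdd n j :=
  finAddFlip_apply_castAdd j n

private theorem K6a_t_right (n : ℕ) (j : Fin n) : K6a_t n (Fin.natAdd n j) = Fin.castAdd n j :=
  finAddFlip_apply_natAdd j n

private theorem K6a_tt (n : ℕ) (i : Fin (n + n)) : K6a_t n (K6a_t n i) = i := by
  refine Fin.addCases (fun j => ?_) (fun j => ?_) i
  · rw [K6a_t_left, K6a_t_right]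
  · rw [K6a_t_right, K6a_t_left]

private theorem K6a_lt (n : ℕ) (i : Fin (n + n)) (h : i.val < n) : n ≤ (K6a_t n i).val := by
  have e : i = Fin.castAdd n ⟨i.val, h⟩ := Fin.ext rfl
  rw [e, K6a_t_left]
  simp

private theorem K6a_ge (n : ℕ) (i : Fin (n + n)) (h : n ≤ i.val) : (K6a_t n i).val < n := by
  by_contra hc
  push Not at hc
  have hi := i.isLt
  have e : i = Fin.natAdd n ⟨i.val - n, by omega⟩ := Fin.ext (by
    show i.val = n + (i.val - n)
    omega)
  rw [e, K6a_t_right] at hc
  have h2 : (Fin.castAdd n (⟨i.val - n, by omega⟩ : Fin n)).val = i.val - n := rfl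
  omega

/-- exchanging the two halves of the letters -/
private def K6a_s (n : ℕ) : MulAut (FreeGroup (Fin (n + n) × Bool)) :=
  FreeGroup.freeGroupCongr ((K6a_t n).prodCongr (Equiv.refl Bool))

private theorem K6a_s_of (n : ℕ) (i : Fin (n + n)) (b : Bool) :
    K6a_s n (FreeGroup.of (i, b)) = FreeGroup.of (K6a_t n i, b) := by
  unfold K6a_s
  rw [FreeGroup.freeGroupCongr_apply, FreeGroup.map.of]
  rfl

private theorem K6a_s_take (n : ℕ) :
    K6a_s n (relator ((LL n).take n)) = relator ((LL n).drop n) := by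
  rw [take_eq, drop_eq]
  unfold relator
  rw [map_list_prod, List.map_map, List.map_map, List.map_map]
  congr 1
  apply List.map_congr_left
  intro j _
  simp only [Function.comp_apply, map_mul, map_inv, fa, fb, K6a_s_of, K6a_t_left]

private theorem K6a_s_drop (n : ℕ) :
    K6a_s n (relator ((LL n).drop n)) = relator ((LL n).take n) := by
  rw [take_eq, drop_eq]
  unfold relator
  rw [map_list_prod, List.map_map, List.map_map, List.map_map]
  congr 1
  apply List.map_congr_left
  intro j _
  simp only [Function.comp_apply, map_mul, map_inv, fa, fb, K6a_s_of, K6a_t_right]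

private theorem K6a_rel (n : ℕ) :
    relator (LL n) = relator ((LL n).take n) * relator ((LL n).drop n) := by
  rw [← relator_append, List.take_append_drop]

private theorem K6a_mem (n : ℕ) :
    MulAut.conj (relator ((LL n).take n)) * K6a_s n ∈ StR (LL n) := by
  show MulAut.conj (relator ((LL n).take n)) (K6a_s n (relator (LL n))) = relator (LL n)
  rw [K6a_rel, map_mul, K6a_s_take, K6a_s_drop, MulAut.conj_apply]
  group

private theorem K6a_iff (n : ℕ) (sw : MulAut (SG (LL n)))
    (hsw : ∀ i b, sw (proj (LL n) (FreeGroup.of (i, b))) =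
      cc n * proj (LL n) (FreeGroup.of (K6a_t n i, b)) * (cc n)⁻¹)
    (hcc : sw (cc n) = (cc n)⁻¹) (P P' : Fin (n + n) → Prop)
    (hP : ∀ i, P i → P' (K6a_t n i)) (hP' : ∀ i, P' i → P (K6a_t n i))
    (hc : cc n ∈ Subgroup.closure {x | ∃ i, P i ∧ (x = ga (LL n) i ∨ x = gb (LL n) i)})
    (hc' : cc n ∈ Subgroup.closure {x | ∃ i, P' i ∧ (x = ga (LL n) i ∨ x = gb (LL n) i)})
    (g : SG (LL n)) :
    g ∈ Subgroup.closure {x | ∃ i, P i ∧ (x = ga (LL n) i ∨ x = gb (LL n) i)} ↔
      sw g ∈ Subgroup.closure {x | ∃ i, P' i ∧ (x = ga (LL n) i ∨ x = gb (LL n) i)} := by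
  set H := Subgroup.closure {x | ∃ i, P i ∧ (x = ga (LL n) i ∨ x = gb (LL n) i)} with hH
  set H' := Subgroup.closure {x | ∃ i, P' i ∧ (x = ga (LL n) i ∨ x = gb (LL n) i)} with hH'
  have hgen : ∀ i b, P i → proj (LL n) (FreeGroup.of (i, b)) ∈ H := by
    intro i b hi
    apply Subgroup.subset_closure
    refine ⟨i, hi, ?_⟩
    cases b
    · exact Or.inl rfl
    · exact Or.inr rfl
  have hgen' : ∀ i b, P' i → proj (LL n) (FreeGroup.of (i, b)) ∈ H' := by
    intro i b hi
    apply Subgroup.subset_closure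
    refine ⟨i, hi, ?_⟩
    cases b
    · exact Or.inl rfl
    · exact Or.inr rfl
  have h1 : H ≤ H'.comap sw.toMonoidHom := by
    rw [hH, Subgroup.closure_le]
    rintro x ⟨i, hi, hx⟩
    show sw x ∈ H'
    rcases hx with rfl | rfl
    · have h2 := hsw i false
      have h3 : sw (ga (LL n) i) = cc n * proj (LL n) (FreeGroup.of (K6a_t n i, false)) * (cc n)⁻¹ := h2
      rw [h3]
      exact H'.mul_mem (H'.mul_mem hc' (hgen' _ _ (hP i hi))) (H'.inv_mem hc')
    · have h2 := hsw i true
      have h3 : sw (gb (LL n) i) = cc n * proj (LL n) (FreeGroup.of (K6a_t n i, true)) * (cc n)⁻¹ := h2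
      rw [h3]
      exact H'.mul_mem (H'.mul_mem hc' (hgen' _ _ (hP i hi))) (H'.inv_mem hc')
  have h4 : H' ≤ H.map sw.toMonoidHom := by
    rw [hH', Subgroup.closure_le]
    rintro x ⟨i, hi, hx⟩
    have key : ∀ b, proj (LL n) (FreeGroup.of (i, b)) ∈ H.map sw.toMonoidHom := by
      intro b
      refine ⟨cc n * proj (LL n) (FreeGroup.of (K6a_t n i, b)) * (cc n)⁻¹,
        H.mul_mem (H.mul_mem hc (hgen _ _ (hP' i hi))) (H.inv_mem hc), ?_⟩
      show sw (cc n * proj (LL n) (FreeGroup.of (K6a_t n i, b)) * (cc n)⁻¹) = _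
      rw [map_mul, map_mul, map_inv, hcc, hsw, K6a_tt]
      group
    rcases hx with rfl | rfl
    · exact key false
    · exact key true
  constructor
  · intro hg
    exact h1 hg
  · intro hg
    obtain ⟨g', hg', he⟩ := h4 hg
    have he' : sw g' = sw g := he
    rw [← sw.injective he']
    exact hg'

/-- The swap. PROOF: let `σ` be the automorphism of the free group which exchanges the handles
`castAdd n j` and `natAdd n j`; it maps `r = c̃ * c̃'` to `c̃' * c̃` (`take_eq`, `drop_eq`), and
`e := conj c̃ * σ` maps `r` to `c̃ * c̃' * c̃ * c̃⁻¹ = r`. So `e ∈ StR (LL n)` and `sw := (toAut (LL n) e).1`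
(`toAut_proj`: `sw (proj w) = proj (e w) = cc * proj (σ w) * cc⁻¹`) is in `AutPlus`. `sw (cc) =
cc * proj c̃' * cc⁻¹ = cc * cc⁻¹ * cc⁻¹ = cc⁻¹` (`cc_inv`). `sw` maps the generators of `subA` into
`cc * subB * cc⁻¹ = subB` and those of `subB` into `cc * subA * cc⁻¹ = subA` (`cc_mem_A`, `cc_mem_B`), more precisely
`sw (subA) = cc * (the image of the generators, = subB) * cc⁻¹ = subB` as `proj ∘ σ` induces a bijection between
the generating sets (`Subgroup.map`, `MonoidHom.map_closure`), and likewise `sw (subB) = subA`; so the two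
equivalences. -/
theorem exists_sw (n : ℕ) : ∃ sw : MulAut (SG (LL n)), sw ∈ AutPlus (LL n) ∧
    sw (cc n) = (cc n)⁻¹ ∧ (∀ g, g ∈ subA n ↔ sw g ∈ subB n) ∧
    (∀ g, g ∈ subB n ↔ sw g ∈ subA n) := by
  set e : StR (LL n) := ⟨MulAut.conj (relator ((LL n).take n)) * K6a_s n, K6a_mem n⟩ with he
  have hw : ∀ w, (toAut (LL n) e).1 (proj (LL n) w) =
      cc n * proj (LL n) (K6a_s n w) * (cc n)⁻¹ := by
    intro w
    rw [toAut_proj]
    show proj (LL n) (MulAut.conj (relator ((LL n).take n)) (K6a_s n w)) = _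
    rw [MulAut.conj_apply, map_mul, map_mul, map_inv]
    rfl
  have hsw : ∀ i b, (toAut (LL n) e).1 (proj (LL n) (FreeGroup.of (i, b))) =
      cc n * proj (LL n) (FreeGroup.of (K6a_t n i, b)) * (cc n)⁻¹ := by
    intro i b
    rw [hw, K6a_s_of]
  have hcc : (toAut (LL n) e).1 (cc n) = (cc n)⁻¹ := by
    have h1 := hw (relator ((LL n).take n))
    rw [K6a_s_take, ← cc_inv, mul_inv_cancel, one_mul] at h1
    exact h1
  refine ⟨(toAut (LL n) e).1, (toAut (LL n) e).2, hcc, ?_, ?_⟩
  · exact K6a_iff n _ hsw hcc (fun i => i.val < n) (fun i => n ≤ i.val) (K6a_lt n) (K6a_ge n)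
      (cc_mem_A n) (cc_mem_B n)
  · exact K6a_iff n _ hsw hcc (fun i => n ≤ i.val) (fun i => i.val < n) (K6a_ge n) (K6a_lt n)
      (cc_mem_B n) (cc_mem_A n)

end Pool.Agent.Lib.MP_6a1159_al.BS
end

section

/-! K7aa: evaluation of 2-cocycles on the relator. -/

set_option autoImplicit false

namespace Pool.Agent.Lib.MP_6a1159_al.BS

variable {ι : Type}

/-- The extension. -/
@[ext]
structure K7aa_Ext (L : List ι) (κ : SG L → SG L → ℤ) where
  m : ℤ
  g : SG L

instance K7aa_mul (L : List ι) (κ : SG L → SG L → ℤ) : Mul (K7aa_Ext L κ) :=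
  ⟨fun a b => ⟨a.m + b.m + κ a.g b.g, a.g * b.g⟩⟩

instance K7aa_one (L : List ι) (κ : SG L → SG L → ℤ) : One (K7aa_Ext L κ) := ⟨⟨0, 1⟩⟩

instance K7aa_inv (L : List ι) (κ : SG L → SG L → ℤ) : Inv (K7aa_Ext L κ) :=
  ⟨fun a => ⟨-a.m - κ a.g⁻¹ a.g, a.g⁻¹⟩⟩

/-- The extension is a group. -/
@[reducible]
def K7aa_group {L : List ι} {κ : SG L → SG L → ℤ} (h : IsCoc κ) : Group (K7aa_Ext L κ) :=
  Group.ofLeftAxioms
    (fun a b c => by
      refine K7aa_Ext.ext ?_ (mul_assoc _ _ _)
      have h1 := h.1 a.g b.g c.g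
      change a.m + b.m + κ a.g b.g + c.m + κ (a.g * b.g) c.g =
        a.m + (b.m + c.m + κ b.g c.g) + κ a.g (b.g * c.g)
      omega)
    (fun a => by
      refine K7aa_Ext.ext ?_ (one_mul _)
      change 0 + a.m + κ 1 a.g = a.m
      rw [h.2.1]
      omega)
    (fun a => by
      refine K7aa_Ext.ext ?_ (inv_mul_cancel _)
      change -a.m - κ a.g⁻¹ a.g + a.m + κ a.g⁻¹ a.g = 0
      omega)

/-- PROOF: let `E` be the type `ℤ × SG L` with the multiplication
`(m, g) * (n, h) = (m + n + κ g h, g * h)`, unit `(0, 1)` and inverse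
`(-m - κ g g⁻¹, g⁻¹)`; it is a group by the cocycle identity (`Group.ofLeftAxioms`; `κ g⁻¹ g = κ g g⁻¹`
follows from the identity at `(g⁻¹, g, g⁻¹)` and the normalization; or use the left inverse
`(-m - κ g⁻¹ g, g⁻¹)`). Use a structure of your own for `E`. Let
`Φ : FreeGroup _ →* E` map a generator `s` to `(0, proj s)`; its second component is `proj`
(induction), and `e w := (Φ w).1`. -/
theorem exists_prim (L : List ι) (κ : SG L → SG L → ℤ) (h : IsCoc κ) :
    ∃ e, IsPrim L κ e := by
  let _ : Group (K7aa_Ext L κ) := K7aa_group h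
  let Φ : FreeGroup (ι × Bool) →* K7aa_Ext L κ :=
    FreeGroup.lift fun s => ⟨0, proj L (FreeGroup.of s)⟩
  let sn : K7aa_Ext L κ →* SG L :=
    { toFun := fun a => a.g
      map_one' := rfl
      map_mul' := fun _ _ => rfl }
  have hsn : ∀ w, (Φ w).g = proj L w := by
    intro w
    have h1 : sn.comp Φ = proj L := by
      refine FreeGroup.ext_hom _ _ fun s => ?_
      change (Φ (FreeGroup.of s)).g = _
      change (FreeGroup.lift (fun s => (⟨0, proj L (FreeGroup.of s)⟩ : K7aa_Ext L κ))
        (FreeGroup.of s)).g = _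
      rw [FreeGroup.lift_apply_of]
    exact DFunLike.congr_fun h1 w
  refine ⟨fun w => (Φ w).m, fun u v => ?_⟩
  change (Φ (u * v)).m = (Φ u).m + (Φ v).m + κ (proj L u) (proj L v)
  rw [map_mul, ← hsn u, ← hsn v]
  rfl

end Pool.Agent.Lib.MP_6a1159_al.BS
end

section

/-! K7ab: evaluation of 2-cocycles on the relator. -/

set_option autoImplicit false

namespace Pool.Agent.Lib.MP_6a1159_al.BS

variable {ι : Type}

private theorem relator_cons (i : ι) (T : List ι) :
    relator (i :: T) = fa i * fb i * (fa i)⁻¹ * (fb i)⁻¹ * relator T := by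
  simp [relator]

/-- A function which is additive on a subgroup `H` vanishes on products of commutators of elements
of `H`. PROOF: `relator T` is a product of commutators of elements of `H`; `e 1 = 0`,
`e u⁻¹ = - e u`, `e` is a homomorphism to the abelian group `ℤ` on `H`. Induction on `T`. -/
theorem add_relator (T : List ι) (H : Subgroup (FreeGroup (ι × Bool)))
    (hH : ∀ i ∈ T, fa i ∈ H ∧ fb i ∈ H) (e : FreeGroup (ι × Bool) → ℤ)
    (he : ∀ u ∈ H, ∀ v ∈ H, e (u * v) = e u + e v) : e (relator T) = 0 ∧ relator T ∈ H := by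
  have e1 : e 1 = 0 := by
    have := he 1 H.one_mem 1 H.one_mem
    rw [mul_one] at this
    omega
  have einv : ∀ u ∈ H, e u⁻¹ = - e u := by
    intro u hu
    have := he u hu u⁻¹ (H.inv_mem hu)
    rw [mul_inv_cancel, e1] at this
    omega
  induction T with
  | nil =>
    refine ⟨?_, ?_⟩
    · have : relator ([] : List ι) = 1 := by simp [relator]
      rw [this, e1]
    · have : relator ([] : List ι) = 1 := by simp [relator]
      rw [this]
      exact H.one_mem
  | cons i T ih =>
    obtain ⟨h1, h2⟩ := ih fun j hj => hH j (List.mem_cons_of_mem _ hj)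
    obtain ⟨ha, hb⟩ := hH i List.mem_cons_self
    have ha' := H.inv_mem ha
    have hb' := H.inv_mem hb
    have hc : fa i * fb i * (fa i)⁻¹ * (fb i)⁻¹ ∈ H :=
      H.mul_mem (H.mul_mem (H.mul_mem ha hb) ha') hb'
    rw [relator_cons]
    refine ⟨?_, H.mul_mem hc h2⟩
    rw [he _ hc _ h2, he _ (H.mul_mem (H.mul_mem ha hb) ha') _ hb',
      he _ (H.mul_mem ha hb) _ ha', he _ ha _ hb, einv _ ha, einv _ hb, h1]
    ring

/-- PROOF: `e - e'` is additive; `add_relator` with `H = ⊤`. -/
theorem prim_unique (L T : List ι) (κ : SG L → SG L → ℤ) (e e' : FreeGroup (ι × Bool) → ℤ)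
    (he : IsPrim L κ e) (he' : IsPrim L κ e') : e (relator T) = e' (relator T) := by
  have h := (add_relator T ⊤ (fun _ _ => ⟨Subgroup.mem_top _, Subgroup.mem_top _⟩)
    (fun w => e w - e' w) (by
      intro u _ v _
      show e (u * v) - e' (u * v) = e u - e' u + (e v - e' v)
      rw [he u v, he' u v]
      ring)).1
  have h' : e (relator T) - e' (relator T) = 0 := h
  omega

/-- PROOF: the elements `w` of the kernel of `proj` for which there is `d` with this property
for all `κ`, `e` form a normal subgroup of the free group, which contains `relator L` (`d = 1`). Indeed for a primitive `e` of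
a normalized cocycle: `e 1 = 0`; for `w, w'` in the kernel `e (w * w') = e w + e w'`, `e w⁻¹ = - e w`;
`e (g * w * g⁻¹) = e w + (e g + e g⁻¹ + κ g g⁻¹) = e w + e 1 = e w` (with `κ` of the images,
`κ (proj g) 1 = 0`). The kernel of `proj L` is `Subgroup.normalClosure {relator L}`. -/
theorem exists_mult (L : List ι) (w : FreeGroup (ι × Bool)) (hw : proj L w = 1) : ∃ d : ℤ,
    ∀ (κ : SG L → SG L → ℤ) (e : FreeGroup (ι × Bool) → ℤ), IsCoc κ → IsPrim L κ e →
      e w = d * e (relator L) := by
  have e1 : ∀ (κ : SG L → SG L → ℤ) (e : FreeGroup (ι × Bool) → ℤ), IsCoc κ → IsPrim L κ e →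
      e 1 = 0 := by
    intro κ e hκ he
    have := he 1 1
    rw [mul_one, map_one, hκ.2.1] at this
    omega
  have hrel : proj L (relator L) = 1 :=
    (QuotientGroup.eq_one_iff _).2 (Subgroup.subset_normalClosure (Set.mem_singleton _))
  have hw' : w ∈ Subgroup.normalClosure ({relator L} : Set (FreeGroup (ι × Bool))) :=
    (QuotientGroup.eq_one_iff w).1 hw
  let N : Subgroup (FreeGroup (ι × Bool)) :=
    { carrier := {w | proj L w = 1 ∧ ∃ d : ℤ,
        ∀ (κ : SG L → SG L → ℤ) (e : FreeGroup (ι × Bool) → ℤ), IsCoc κ → IsPrim L κ e →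
          e w = d * e (relator L)}
      one_mem' := by
        refine ⟨map_one _, 0, ?_⟩
        intro κ e hκ he
        rw [e1 κ e hκ he, zero_mul]
      mul_mem' := by
        rintro u v ⟨hu, d, hd⟩ ⟨hv, d', hd'⟩
        refine ⟨by rw [map_mul, hu, hv, one_mul], d + d', ?_⟩
        intro κ e hκ he
        rw [he u v, hu, hκ.2.1, hd κ e hκ he, hd' κ e hκ he]
        ring
      inv_mem' := by
        rintro u ⟨hu, d, hd⟩
        have hu' : proj L u⁻¹ = 1 := by rw [map_inv, hu, inv_one]
        refine ⟨hu', -d, ?_⟩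
        intro κ e hκ he
        have := he u u⁻¹
        rw [hu, hκ.2.1, mul_inv_cancel, e1 κ e hκ he, hd κ e hκ he] at this
        linarith }
  have hN : N.Normal := by
    constructor
    rintro u ⟨hu, d, hd⟩ g
    refine ⟨by rw [map_mul, map_mul, hu, mul_one, map_inv, mul_inv_cancel], d, ?_⟩
    intro κ e hκ he
    have h1 := he (g * u) g⁻¹
    have h2 := he g u
    have h3 := he g g⁻¹
    rw [mul_inv_cancel, e1 κ e hκ he] at h3
    rw [hu, hκ.2.2] at h2
    rw [map_mul, hu, mul_one] at h1
    have h4 := hd κ e hκ he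
    linarith
  have hle : Subgroup.normalClosure ({relator L} : Set (FreeGroup (ι × Bool))) ≤ N := by
    have := hN
    apply Subgroup.normalClosure_le_normal
    rintro x rfl
    refine ⟨hrel, 1, ?_⟩
    intro κ e _ _
    rw [one_mul]
  exact (hle hw').2

end Pool.Agent.Lib.MP_6a1159_al.BS
end

section

/-! K7ac: evaluation of 2-cocycles on the relator. -/

set_option autoImplicit false

namespace Pool.Agent.Lib.MP_6a1159_al.BS

variable {ι : Type}

private theorem K7ac_rel (L : List ι) (Φ : FreeGroup (ι × Bool) →* Multiplicative ℤ) :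
    Φ (relator L) = 1 := by
  unfold relator
  rw [map_list_prod, List.map_map]
  apply List.prod_eq_one
  intro t ht
  obtain ⟨j, _, rfl⟩ := List.mem_map.1 ht
  simp only [Function.comp_apply, map_mul, map_inv]
  rw [mul_inv_cancel_comm, mul_inv_cancel]

/-- Homomorphisms with prescribed values on the generators. -/
private def K7ac_hom (L : List ι) (φ : ι × Bool → Multiplicative ℤ) : SG L →* Multiplicative ℤ :=
  PresentedGroup.toGroup (f := φ) (by
    intro r hr
    rw [Set.mem_singleton_iff] at hr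
    rw [hr]
    exact K7ac_rel L _)

private theorem K7ac_hom_of (L : List ι) (φ : ι × Bool → Multiplicative ℤ) (s : ι × Bool) :
    K7ac_hom L φ (proj L (FreeGroup.of s)) = φ s := by
  show FreeGroup.lift φ (FreeGroup.of s) = _
  rw [FreeGroup.lift_apply_of]

private theorem K7ac_sum [DecidableEq ι] (L : List ι) (i : ι) (hn : L.Nodup) (hi : i ∈ L) :
    (L.map fun j => if j = i then (1 : ℤ) else 0).sum = 1 := by
  induction L with
  | nil => exact absurd hi (List.not_mem_nil)
  | cons a L ih =>
    rw [List.map_cons, List.sum_cons]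
    rw [List.nodup_cons] at hn
    by_cases ha : a = i
    · have h0 : (L.map fun j => if j = i then (1 : ℤ) else 0).sum = 0 := by
        apply List.sum_eq_zero
        intro t ht
        obtain ⟨j, hj, rfl⟩ := List.mem_map.1 ht
        have hne : j ≠ i := by
          rintro rfl
          exact hn.1 (ha ▸ hj)
        exact if_neg hne
      rw [h0, if_pos ha, add_zero]
    · have hi' : i ∈ L := by
        rcases List.mem_cons.1 hi with h | h
        · exact absurd h.symm ha
        · exact h
      rw [ih hn.2 hi', if_neg ha, zero_add]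

/-- The homomorphism to the Heisenberg group with given first two coordinates. -/
private noncomputable def K7ac_H (L : List ι) (x y : SG L →* Multiplicative ℤ) :
    FreeGroup (ι × Bool) →* Heis :=
  FreeGroup.lift fun s => ⟨(x (proj L (FreeGroup.of s))).toAdd,
    (y (proj L (FreeGroup.of s))).toAdd, 0⟩

private theorem K7ac_H_xy (L : List ι) (x y : SG L →* Multiplicative ℤ)
    (w : FreeGroup (ι × Bool)) : (K7ac_H L x y w).x = (x (proj L w)).toAdd ∧
      (K7ac_H L x y w).y = (y (proj L w)).toAdd := by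
  induction w using FreeGroup.induction_on with
  | C1 => simp
  | of s => simp [K7ac_H]
  | inv_of s h => simp [h.1, h.2]
  | mul u v hu hv => simp [hu.1, hu.2, hv.1, hv.2]

private theorem K7ac_coc (L : List ι) (x y : SG L →* Multiplicative ℤ) :
    IsCoc fun g h : SG L => (x g).toAdd * (y h).toAdd := by
  refine ⟨?_, ?_, ?_⟩
  · intro g h k
    simp only [map_mul, toAdd_mul]
    ring
  · intro g
    simp only [map_one, toAdd_one, zero_mul]
  · intro g
    simp only [map_one, toAdd_one, mul_zero]

private theorem K7ac_prim (L : List ι) (x y : SG L →* Multiplicative ℤ) :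
    IsPrim L (fun g h : SG L => (x g).toAdd * (y h).toAdd) fun w => (K7ac_H L x y w).z := by
  intro u v
  show (K7ac_H L x y (u * v)).z = _
  rw [map_mul, Heis.mul_z, (K7ac_H_xy L x y u).1, (K7ac_H_xy L x y v).2]

/-- Automorphisms which preserve the intersection form preserve the evaluation. PROOF: lift `f` to an
endomorphism `F` of the free group with `proj (F w) = f (proj w)` (choose preimages of the images
of the generators). For every cocycle `κ` and primitive `e`, `e ∘ F` is a primitive of
`κ (f ·) (f ·)`; so by `prim_unique` `e' (relator L) = e (F (relator L))`. By `exists_mult` for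
`w = F (relator L)` (`proj (F (relator L)) = f 1 = 1`) there is `d` with `e (F (relator L)) = d * e (relator L)`
for all `κ`, `e`. To find `d`: let `x, y : SG L →* Multiplicative ℤ` and `κ₀ g h := x g * y h` (as
integers, `toAdd`), a normalized cocycle; a primitive `e₀` of `κ₀` is the third coordinate `z` of the homomorphism
`Φ : FreeGroup _ →* Heis` with `s ↦ ⟨x s, y s, 0⟩` and `e₀ (relator L) = inter L x y` (`heis_relator`); in the
same way for `x ∘ f`, `y ∘ f`, whose `κ₀` is `κ₀ (f ·) (f ·)`. So `inter L (x ∘ f) (y ∘ f) = d * inter L x y`, and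
the left side is `inter L x y` because `f ∈ AutPlus L`. Choose `x`, `y` with `inter L x y = 1`: let `i ∈ L`,
`x (a_i) = 1`, `y (b_i) = 1`, all the other values `0` (homomorphisms `SG L → ℤ` may be prescribed on the generators,
`PresentedGroup.toGroup`, since the relator is a product of commutators); `L` has no duplicates. So `d = 1`. -/
theorem prim_aut [DecidableEq ι] (L : List ι) (hL : L ≠ []) (hn : L.Nodup) (f : MulAut (SG L))
    (hf : f ∈ AutPlus L) (κ : SG L → SG L → ℤ) (hκ : IsCoc κ)
    (e e' : FreeGroup (ι × Bool) → ℤ) (he : IsPrim L κ e)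
    (he' : IsPrim L (fun g h => κ (f g) (f h)) e') : e' (relator L) = e (relator L) := by
  have hsurj : ∀ s : ι × Bool, ∃ w, proj L w = f (proj L (FreeGroup.of s)) := fun s =>
    PresentedGroup.mk_surjective _ _
  choose E hE using hsurj
  have hF : ∀ w, proj L (FreeGroup.lift E w) = f (proj L w) := by
    have h1 : (proj L).comp (FreeGroup.lift E) = f.toMonoidHom.comp (proj L) := by
      refine FreeGroup.ext_hom _ _ fun s => ?_
      rw [MonoidHom.comp_apply, FreeGroup.lift_apply_of, hE]
      rfl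
    exact fun w => DFunLike.congr_fun h1 w
  have hrel : proj L (relator L) = 1 := PresentedGroup.one_of_mem (Set.mem_singleton _)
  have hw : proj L (FreeGroup.lift E (relator L)) = 1 := by
    rw [hF, hrel, map_one]
  have hp : IsPrim L (fun g h => κ (f g) (f h)) fun w => e (FreeGroup.lift E w) := by
    intro u v
    show e (FreeGroup.lift E (u * v)) = _
    rw [map_mul, he, hF, hF]
  have h1 : e' (relator L) = e (FreeGroup.lift E (relator L)) :=
    prim_unique L L _ e' (fun w => e (FreeGroup.lift E w)) he' hp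
  obtain ⟨d, hd⟩ := exists_mult L _ hw
  obtain ⟨i, hi⟩ := List.exists_mem_of_ne_nil L hL
  let x : SG L →* Multiplicative ℤ :=
    K7ac_hom L fun s => if s = (i, false) then Multiplicative.ofAdd 1 else 1
  let y : SG L →* Multiplicative ℤ :=
    K7ac_hom L fun s => if s = (i, true) then Multiplicative.ofAdd 1 else 1
  have hxa : ∀ j, (x (ga L j)).toAdd = if j = i then 1 else 0 := by
    intro j
    have h2 : x (ga L j) = if (j, false) = (i, false) then Multiplicative.ofAdd 1 else 1 :=
      K7ac_hom_of L _ (j, false)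
    rw [h2]
    by_cases h : j = i
    · subst h
      simp
    · simp [h]
  have hxb : ∀ j, (x (gb L j)).toAdd = 0 := by
    intro j
    have h2 : x (gb L j) = if (j, true) = (i, false) then Multiplicative.ofAdd 1 else 1 :=
      K7ac_hom_of L _ (j, true)
    rw [h2]
    simp
  have hyb : ∀ j, (y (gb L j)).toAdd = if j = i then 1 else 0 := by
    intro j
    have h2 : y (gb L j) = if (j, true) = (i, true) then Multiplicative.ofAdd 1 else 1 :=
      K7ac_hom_of L _ (j, true)
    rw [h2]
    by_cases h : j = i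
    · subst h
      simp
    · simp [h]
  have hint : inter L x y = 1 := by
    unfold inter
    rw [← K7ac_sum L i hn hi]
    congr 1
    apply List.map_congr_left
    intro j _
    rw [hxa, hxb, hyb]
    by_cases h : j = i
    · simp [h]
    · simp [h]
  have h3 := hd _ _ (K7ac_coc L x y) (K7ac_prim L x y)
  have h4 : (K7ac_H L x y (relator L)).z = inter L x y := by
    rw [heis_relator]
    simp only [(K7ac_H_xy L x y _).1, (K7ac_H_xy L x y _).2]
    rfl
  have h5 : (K7ac_H L x y (FreeGroup.lift E (relator L))).z =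
      inter L (x.comp f.toMonoidHom) (y.comp f.toMonoidHom) := by
    have h6 := heis_relator L ((K7ac_H L x y).comp (FreeGroup.lift E))
    rw [MonoidHom.comp_apply] at h6
    rw [h6]
    simp only [MonoidHom.comp_apply, (K7ac_H_xy L x y _).1, (K7ac_H_xy L x y _).2, hF]
    rfl
  have h7 : (1 : ℤ) = d := by
    have h8 : (K7ac_H L x y (FreeGroup.lift E (relator L))).z =
      d * (K7ac_H L x y (relator L)).z := h3
    rw [h4, h5, hf, hint, mul_one] at h8
    exact h8
  rw [h1, hd κ e hκ he, ← h7, one_mul]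

end Pool.Agent.Lib.MP_6a1159_al.BS
end

section

/-! K7a: see the imported files. -/
end

section

/-! K7b: the cup product of the coboundaries of two functions. -/

set_option autoImplicit false

namespace Pool.Agent.Lib.MP_6a1159_al.BS

variable {P : Type} [Group P]

/-- PROOF: the summand vanishes unless `α (p * g) ≠ α p` and (`β (p * (g * h)) ≠ β p` or
`β (p * g) ≠ β p`). -/
theorem cup_fin (α β : P → ℤ) (hfin : ∀ g h, {p | α (p * g) ≠ α p ∧ β (p * h) ≠ β p}.Finite)
    (g h k : P) : {p | (α (p * g) - α p) * (β (p * h) - β (p * k)) ≠ 0}.Finite := by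
  refine ((hfin g h).union (hfin g k)).subset ?_
  intro p hp
  have hp' : (α (p * g) - α p) * (β (p * h) - β (p * k)) ≠ 0 := hp
  have h1 : α (p * g) ≠ α p := by
    intro h2
    apply hp'
    rw [h2, sub_self, zero_mul]
  by_cases h2 : β (p * h) = β p
  · right
    refine ⟨h1, fun h3 => hp' ?_⟩
    rw [h2, h3, sub_self, mul_zero]
  · left
    exact ⟨h1, h2⟩

/-- a shifted support is finite -/
private theorem K7b_shift (F : P → ℤ) (h : {p | F p ≠ 0}.Finite) (g : P) :
    (Function.support fun p => F (p * g)).Finite := by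
  have h1 : (Function.support fun p => F (p * g)) = (fun p => p * g) ⁻¹' {p | F p ≠ 0} := rfl
  rw [h1]
  exact h.preimage (fun a _ b _ hab => mul_right_cancel hab)

private theorem K7b_sum (F : P → ℤ) (g : P) : ∑ᶠ p, F (p * g) = ∑ᶠ p, F p :=
  finsum_comp_equiv (Equiv.mulRight g)

private theorem K7b_swap (α β : P → ℤ)
    (hfin : ∀ g h, {p | α (p * g) ≠ α p ∧ β (p * h) ≠ β p}.Finite) (g h : P) :
    {p | β (p * g) ≠ β p ∧ α (p * h) ≠ α p}.Finite :=
  (hfin h g).subset (fun p hp => ⟨hp.2, hp.1⟩)

/-- PROOF: write `∑` for `∑ᶠ p`; all sums have finite support (`cup_fin`).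
`cup g (h * k) - cup g h = ∑ (α (p g) - α p) * (β (p g h k) - β (p g h))`,
`cup h k = ∑ (α (p g h) - α (p g)) * (β (p g h k) - β (p g h))` (replace `p` by `p * g`,
`finsum_comp_equiv` with `Equiv.mulRight g`); the sum of the two is
`∑ (α (p g h) - α p) * (β (p g h k) - β (p g h)) = cup (g * h) k`. Normalization: `cup 1 g` has
summands `0`, `cup g 1` too. -/
theorem cup_coc (α β : P → ℤ) (hfin : ∀ g h, {p | α (p * g) ≠ α p ∧ β (p * h) ≠ β p}.Finite) :
    IsCoc (cup α β) := by
  have hcup : ∀ g h, cup α β g h = ∑ᶠ p, (α (p * g) - α p) * (β (p * (g * h)) - β (p * g)) := by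
    intro g h
    unfold cup
    apply finsum_congr
    intro p
    rw [mul_assoc]
  refine ⟨fun g h k => ?_, fun g => ?_, fun g => ?_⟩
  · have e1 : cup α β h k = ∑ᶠ p, (α (p * g * h) - α (p * g)) *
        (β (p * g * (h * k)) - β (p * g * h)) := by
      rw [hcup]
      exact (K7b_sum (fun p => (α (p * h) - α p) * (β (p * (h * k)) - β (p * h))) g).symm
    have s1 := K7b_shift (fun p => (α (p * h) - α p) * (β (p * (h * k)) - β (p * h)))
      (cup_fin α β hfin h (h * k) h) g
    rw [e1, hcup g (h * k), hcup (g * h) k, hcup g h,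
      ← finsum_add_distrib s1 (cup_fin α β hfin g (g * (h * k)) g),
      ← finsum_add_distrib (cup_fin α β hfin (g * h) (g * h * k) (g * h))
        (cup_fin α β hfin g (g * h) g)]
    apply finsum_congr
    intro p
    simp only [mul_assoc]
    ring
  · rw [hcup]
    rw [finsum_congr (g := fun _ => (0 : ℤ)) (fun p => by rw [mul_one, sub_self, zero_mul])]
    exact finsum_zero
  · rw [hcup]
    rw [finsum_congr (g := fun _ => (0 : ℤ)) (fun p => by rw [mul_one, sub_self, mul_zero])]
    exact finsum_zero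

/-- PROOF: let `φ g := ∑ᶠ p, (α (p * g) - α p) * (β (p * g) - β p)`. Expand
`(α (p g h) - α p) * (β (p g h) - β p)` with `α (p g h) - α p = (α (p g h) - α (p g)) + (α (p g) - α p)` and the same
for `β`: `φ (g * h) = φ h + φ g + cup α β g h + cup β α g h` (`φ h` after replacing `p` by `p * g`).
If `α (p * g) ≠ α p` and `β (p * g') ≠ β (p * g'')` only for finitely many `p` etc., all sums are finite. -/
theorem cup_antisymm (α β : P → ℤ)
    (hfin : ∀ g h, {p | α (p * g) ≠ α p ∧ β (p * h) ≠ β p}.Finite) :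
    ∃ φ : P → ℤ, φ 1 = 0 ∧
      ∀ g h, cup α β g h + cup β α g h = φ (g * h) - φ g - φ h := by
  have hfin' := fun g h => K7b_swap α β hfin g h
  have hcup : ∀ (α β : P → ℤ) g h, cup α β g h =
      ∑ᶠ p, (α (p * g) - α p) * (β (p * (g * h)) - β (p * g)) := by
    intro α β g h
    unfold cup
    apply finsum_congr
    intro p
    rw [mul_assoc]
  have s0 : ∀ g, (Function.support fun p => (α (p * g) - α p) * (β (p * g) - β p)).Finite := by
    intro g
    have h1 := cup_fin α β hfin g g 1
    refine h1.subset ?_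
    intro p hp
    show (α (p * g) - α p) * (β (p * g) - β (p * 1)) ≠ 0
    rw [mul_one]
    exact hp
  refine ⟨fun g => ∑ᶠ p, (α (p * g) - α p) * (β (p * g) - β p), ?_, fun g h => ?_⟩
  · show ∑ᶠ p, (α (p * 1) - α p) * (β (p * 1) - β p) = 0
    rw [finsum_congr (g := fun _ => (0 : ℤ)) (fun p => by rw [mul_one, sub_self, zero_mul])]
    exact finsum_zero
  · show _ = ∑ᶠ p, (α (p * (g * h)) - α p) * (β (p * (g * h)) - β p) -
      ∑ᶠ p, (α (p * g) - α p) * (β (p * g) - β p) - ∑ᶠ p, (α (p * h) - α p) * (β (p * h) - β p)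
    rw [sub_sub, eq_sub_iff_add_eq]
    have e2 : ∑ᶠ p, (α (p * h) - α p) * (β (p * h) - β p) =
        ∑ᶠ p, (α (p * g * h) - α (p * g)) * (β (p * g * h) - β (p * g)) :=
      (K7b_sum (fun p => (α (p * h) - α p) * (β (p * h) - β p)) g).symm
    have s2 := K7b_shift (fun p => (α (p * h) - α p) * (β (p * h) - β p)) (s0 h) g
    have s3 : (Function.support fun p => (α (p * g) - α p) * (β (p * (g * h)) - β (p * g))).Finite :=
      cup_fin α β hfin g (g * h) g
    have s4 : (Function.support fun p => (β (p * g) - β p) * (α (p * (g * h)) - α (p * g))).Finite :=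
      cup_fin β α hfin' g (g * h) g
    have s34 : (Function.support fun p => (α (p * g) - α p) * (β (p * (g * h)) - β (p * g)) +
        (β (p * g) - β p) * (α (p * (g * h)) - α (p * g))).Finite :=
      (s3.union s4).subset (Function.support_add _ _)
    have s02 : (Function.support fun p => (α (p * g) - α p) * (β (p * g) - β p) +
        (α (p * g * h) - α (p * g)) * (β (p * g * h) - β (p * g))).Finite :=
      ((s0 g).union s2).subset (Function.support_add _ _)
    rw [e2, hcup α β g h, hcup β α g h, ← finsum_add_distrib s3 s4, ← finsum_add_distrib (s0 g) s2,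
      ← finsum_add_distrib s34 s02]
    apply finsum_congr
    intro p
    simp only [mul_assoc]
    ring

/-- PROOF: substitute `p = f p'` (`finsum_comp_equiv`). -/
theorem cup_map (f : MulAut P) (α β : P → ℤ) (g h : P) :
    cup α β (f g) (f h) = cup (fun p => α (f p)) (fun p => β (f p)) g h := by
  unfold cup
  rw [← finsum_comp_equiv f.toEquiv]
  apply finsum_congr
  intro p
  show (α (f p * f g) - α (f p)) * (β (f p * f g * f h) - β (f p * f g)) = _
  rw [← map_mul, ← map_mul]

end Pool.Agent.Lib.MP_6a1159_al.BS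
end
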