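import Mathlib
import Pool.Agent.Lib.MP_6a1159_al.BS.Defs

section

/-! QDefs: the abstract setting of projections with integer valued twisting numbers. -/

set_option autoImplicit false

namespace Pool.Agent.Lib.MP_6a1159_al.BS

/-- Integer valued twisting numbers `τ Z X W` (around `Z`, from `X` to `W`). -/
structure TW (Y : Type) (τ : Y → Y → Y → ℤ) : Prop where
  anti : ∀ Z X W, τ Z W X = - τ Z X W
  coc : ∀ Z X V W, X ≠ Z → V ≠ Z → W ≠ Z → |τ Z X W - τ Z X V - τ Z V W| ≤ 8
  behr : ∀ X Y Z, X ≠ Y → Y ≠ Z → X ≠ Z → 10 ≤ |τ Y X Z| → |τ Z X Y| ≤ 4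
  fin : ∀ X Z, X ≠ Z → {Y | Y ≠ X ∧ Y ≠ Z ∧ 10 ≤ |τ Y X Z|}.Finite

/-- `W` and `V` are linked, as seen from `Z`: one of them is between the other one and `Z`. -/
def lk {Y : Type} (τ : Y → Y → Y → ℤ) (Z W V : Y) : Prop :=
  W ≠ Z ∧ V ≠ Z ∧ W ≠ V ∧ (60 ≤ |τ V W Z| ∨ 60 ≤ |τ W V Z|)

/-- The equivalence relation generated by `lk Z`. -/
def eqv {Y : Type} (τ : Y → Y → Y → ℤ) (Z : Y) : Y → Y → Prop := Relation.ReflTransGen (lk τ Z)

/-- The twisting numbers of the classes of `X`, `W`. -/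
def Hset {Y : Type} (τ : Y → Y → Y → ℤ) (Z X W : Y) : Set ℤ :=
  {n | ∃ X' W', eqv τ Z X X' ∧ eqv τ Z W W' ∧ n = τ Z X' W'}

/-- The modified (doubled) twisting numbers. -/
noncomputable def hh {Y : Type} (τ : Y → Y → Y → ℤ) (Z X W : Y) : ℤ :=
  sSup (Hset τ Z X W) + sInf (Hset τ Z X W)

open Classical in
/-- The truncation of `hh`. -/
noncomputable def hK {Y : Type} (τ : Y → Y → Y → ℤ) (Z X W : Y) : ℤ :=
  if 352 ≤ |hh τ Z X W| then hh τ Z X W else 0

open Classical in
/-- The first component of `β` unless it is `Z`. -/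
noncomputable def pt {Y : Type} (β : Y × Y) (Z : Y) : Y := if β.1 = Z then β.2 else β.1

/-- The sum of the truncated twisting numbers. -/
noncomputable def Psi {Y : Type} (τ : Y → Y → Y → ℤ) (β γ : Y × Y) : ℤ :=
  ∑ᶠ Z : Y, hK τ Z (pt β Z) (pt γ Z)

end Pool.Agent.Lib.MP_6a1159_al.BS
end

section

/-! Q1a: chains of links have a center. -/

set_option autoImplicit false

namespace Pool.Agent.Lib.MP_6a1159_al.BS

variable {Y : Type} {τ : Y → Y → Y → ℤ}

/-- The inequality of Behrstock in the form used below. PROOF: `behr` with `X := Z`, `Y := V`, `Z := W`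
and `anti` (`|τ V W Z| = |τ V Z W|`). -/
theorem TW.behr' (h : TW Y τ) (W V Z : Y) (h1 : W ≠ V) (h2 : V ≠ Z) (h3 : W ≠ Z)
    (h4 : 10 ≤ |τ V W Z|) : |τ W V Z| ≤ 4 ∧ |τ Z W V| ≤ 4 := by
  refine ⟨?_, h.behr W V Z h1 h2 h3 h4⟩
  rw [h.anti W Z V, abs_neg]
  refine h.behr Z V W h2.symm h1.symm h3.symm ?_
  rw [h.anti V W Z, abs_neg]
  exact h4

theorem TW.self (h : TW Y τ) (Z X : Y) : τ Z X X = 0 := by
  have h1 := h.anti Z X X
  omega

theorem TW.abs_symm (h : TW Y τ) (Z X W : Y) : |τ Z X W| = |τ Z W X| := by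
  rw [h.anti Z W X, abs_neg]

end Pool.Agent.Lib.MP_6a1159_al.BS
end

section

/-! Q1b: chains of links have a center. -/

set_option autoImplicit false

namespace Pool.Agent.Lib.MP_6a1159_al.BS

variable {Y : Type} {τ : Y → Y → Y → ℤ}

/-- If `V` is a center of `m`, `|τ V y Z| ≤ 4` and `48 ≤ |τ y V Z|` then `y` is a center of
`m ++ [y]`. -/
private theorem Q1b_y (h : TW Y τ) (Z V y : Y) (m : List Y) (hVZ : V ≠ Z) (hyZ : y ≠ Z)
    (hyV : y ≠ V) (hZ : ∀ x ∈ m, x ≠ Z) (hVc : ∀ W ∈ m, W ≠ V → 36 ≤ |τ V W Z|)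
    (h1 : |τ V y Z| ≤ 4) (h2 : 48 ≤ |τ y V Z|) :
    ∀ W ∈ m ++ [y], W ≠ y → 36 ≤ |τ y W Z| := by
  intro W hW hWy
  rw [List.mem_append] at hW
  rcases hW with hW | hW
  swap
  · exact absurd (List.mem_singleton.1 hW) hWy
  by_cases hWV : W = V
  · subst hWV; omega
  have hWZ := hZ W hW
  have a1 := hVc W hW hWV
  have a2 := h.coc V W y Z hWV hyV (Ne.symm hVZ)
  have a3 : 10 ≤ |τ V W y| := by
    rw [abs_le] at a2 h1
    rw [le_abs] at a1 ⊢
    omega
  have a4 := (h.behr' W V y hWV (Ne.symm hyV) hWy a3).2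
  have a5 := h.coc y W V Z hWy (Ne.symm hyV) (Ne.symm hyZ)
  rw [abs_le] at a5 a4
  rw [le_abs] at h2 ⊢
  omega

/-- The step (*). -/
private theorem Q1b_star (h : TW Y τ) (Z V V' x' y : Y) (m : List Y) (hVZ : V ≠ Z)
    (hyV : y ≠ V) (hZ : ∀ x ∈ m, x ≠ Z) (hVm : V ∉ m)
    (hx' : x' ∈ m) (hy : y ∈ m) (hV' : V' ∈ m) (hVc : ∀ W ∈ m, W ≠ V' → 36 ≤ |τ V' W Z|)
    (h1 : 60 ≤ |τ V x' Z|) (h2 : 10 ≤ |τ V V' Z|) : 36 ≤ |τ V y Z| := by
  have hV'Z := hZ V' hV'
  have hV'V : V' ≠ V := fun e => hVm (e ▸ hV')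
  have hx'V : x' ≠ V := fun e => hVm (e ▸ hx')
  have a1 := (h.behr' V' V Z hV'V hVZ hV'Z h2).1
  have key : ∀ W ∈ m, |τ V W V'| ≤ 4 := by
    intro W hW
    by_cases hWV' : W = V'
    · subst hWV'
      rw [h.self]
      norm_num
    have hWV : W ≠ V := fun e => hVm (e ▸ hW)
    have b1 := hVc W hW hWV'
    have b2 := h.coc V' W V Z hWV' (Ne.symm hV'V) (Ne.symm hV'Z)
    have b3 : 10 ≤ |τ V' W V| := by
      rw [abs_le] at b2 a1
      rw [le_abs] at b1 ⊢
      omega
    exact (h.behr' W V' V hWV' hV'V hWV b3).2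
  have c1 := key y hy
  have c2 := key x' hx'
  have c3 := h.coc V y V' x' hyV hV'V hx'V
  have c4 := h.coc V y x' Z hyV hx'V (Ne.symm hVZ)
  have c5 := h.abs_symm V x' V'
  rw [c5] at c2
  rw [abs_le] at c1 c2 c3 c4
  rw [le_abs] at h1 ⊢
  omega

theorem chain_mid {R : Y → Y → Prop} {l m : List Y} (h : List.IsChain R l) (h' : m <:+: l) :
    List.IsChain R m := by
  obtain ⟨s, t, rfl⟩ := h'
  exact List.IsChain.right_of_append (List.IsChain.left_of_append h)

/-- PROOF: strong induction on the length of `l`. All elements of `l` are `≠ Z`. Write `l = m ++ [y]`.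
If `m = []` take `V = y`. Otherwise let `V` be a center of `m`, and write `m = m₁ ++ V :: m₂` with
`V ∉ m₂` (last occurrence). All inequalities below use `coc`, `abs_symm`, `behr'`; e.g. `|τ V y Z| ≥
|τ V x Z| - |τ V x y| - 8`.
Case 0, `y = V`: `V` is a center of `l`.
Case 1, `m₂ = []`, `y ≠ V`: `V`, `y` are linked. If `60 ≤ |τ V y Z|` then `V` is a center. If
`60 ≤ |τ y V Z|` then `y` is a center: for `W = V` clear. For `W ∈ m`, `W ≠ V`, `W ≠ y`: `|τ V y Z| ≤ 4`,
`|τ V W Z| ≥ 36`, so `|τ V W y| ≥ 24`, so `|τ y W V| ≤ 4`, so `|τ y W Z| ≥ 60 - 4 - 8 ≥ 36`.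
Case 2, `m₂ ≠ []`, `y ≠ V`. Let `x'` be the head of `m₂` and `x` its last element, both `≠ V`, so
`|τ V x' Z| ≥ 36`, `|τ V x Z| ≥ 36`. `V`, `x'` are linked; `60 ≤ |τ x' V Z|` would give
`|τ V x' Z| ≤ 4`, so `60 ≤ |τ V x' Z|`. The list `m₂ ++ [y]` is a chain and shorter than `l`; let `V'` be
a center of it.
(*) If `10 ≤ |τ V V' Z|` then `|τ V y Z| ≥ 36`, so `V` is a center of `l`: `V' ≠ V`, `|τ V' V Z| ≤ 4`; for
`W` in `m₂ ++ [y]`, `W ≠ V'`: `|τ V' W V| ≥ 36 - 4 - 8 ≥ 10`, so `|τ V W V'| ≤ 4` (also for `W = V'`, it is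
`0`). So `|τ V y x'| ≤ 4 + 4 + 8 = 16` and `|τ V y Z| ≥ 60 - 16 - 8 = 36`.
If `V' ∈ m₂` then `|τ V V' Z| ≥ 36` and (*) applies. Let `V' = y`. `x`, `y` are linked.
2A: `60 ≤ |τ x y Z|`: `|τ x V Z| ≤ 4` (from `|τ V x Z| ≥ 36`), so `|τ x y V| ≥ 48`, so `|τ V y x| ≤ 4`,
`|τ V y Z| ≥ 36 - 4 - 8 ≥ 10`, and (*).
2B: `60 ≤ |τ y x Z|`. If `|τ V x y| < 10` then `|τ V y Z| ≥ 36 - 9 - 8 ≥ 10`, and (*). If
`10 ≤ |τ V x y|` then `|τ y x V| ≤ 4`, `|τ y V Z| ≥ 60 - 4 - 8 = 48`, so `|τ V y Z| ≤ 4`, and `y` is a center of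
`l`: for `W = V` clear; for `W ∈ m`, `W ≠ V`, `W ≠ y`: `|τ V W Z| ≥ 36`, `|τ V W y| ≥ 24`, `|τ y W V| ≤ 4`,
`|τ y W Z| ≥ 48 - 4 - 8 = 36`.
(The linked pairs `x`, `y` may have `x = y`? No: `lk` includes `W ≠ V`.) -/
theorem center (h : TW Y τ) (Z : Y) (l : List Y) (hl : l ≠ []) (hc : List.IsChain (lk τ Z) l)
    (hZ : ∀ x ∈ l, x ≠ Z) : ∃ V ∈ l, ∀ W ∈ l, W ≠ V → 36 ≤ |τ V W Z| := by
  induction hn : l.length using Nat.strong_induction_on generalizing l with
  | _ n ih =>
  obtain rfl | ⟨m, y, rfl⟩ := l.eq_nil_or_concat'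
  · exact absurd rfl hl
  have hyZ : y ≠ Z := hZ y (by simp)
  by_cases hm : m = []
  · subst hm
    refine ⟨y, by simp, ?_⟩
    intro W hW hWy
    exact absurd (by simpa using hW) hWy
  have hZm : ∀ x ∈ m, x ≠ Z := fun x hx => hZ x (by simp [hx])
  obtain ⟨V, hV, hVc⟩ := ih m.length (by rw [← hn]; simp) m hm (List.IsChain.left_of_append hc)
    hZm rfl
  have hVZ := hZm V hV
  by_cases hyV : y = V
  · subst hyV
    refine ⟨y, by simp, ?_⟩
    intro W hW hWy
    rw [List.mem_append] at hW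
    rcases hW with hW | hW
    · exact hVc W hW hWy
    · exact absurd (List.mem_singleton.1 hW) hWy
  have fin1 : 36 ≤ |τ V y Z| → ∃ V ∈ m ++ [y], ∀ W ∈ m ++ [y], W ≠ V → 36 ≤ |τ V W Z| := by
    intro h36
    refine ⟨V, by simp [hV], ?_⟩
    intro W hW hWV
    rw [List.mem_append] at hW
    rcases hW with hW | hW
    · exact hVc W hW hWV
    · rw [List.mem_singleton.1 hW]; exact h36
  have fin2 : |τ V y Z| ≤ 4 → 48 ≤ |τ y V Z| →
      ∃ V ∈ m ++ [y], ∀ W ∈ m ++ [y], W ≠ V → 36 ≤ |τ V W Z| := by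
    intro e1 e2
    exact ⟨y, by simp, Q1b_y h Z V y m hVZ hyZ hyV hZm hVc e1 e2⟩
  obtain ⟨m₁, m₂, hm12, hVm2⟩ : ∃ m₁ m₂ : List Y, m = m₁ ++ V :: m₂ ∧ V ∉ m₂ := by
    obtain ⟨as, bs, e1, e2⟩ := List.eq_append_cons_of_mem (List.mem_reverse.2 hV)
    refine ⟨bs.reverse, as.reverse, ?_, by simpa using e2⟩
    have := congrArg List.reverse e1
    simpa using this
  rcases m₂ with _ | ⟨x', t⟩
  · -- case 1
    have hlk : lk τ Z V y := by
      have : List.IsChain (lk τ Z) [V, y] := chain_mid hc ⟨m₁, [], by simp [hm12]⟩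
      simpa using this
    rcases hlk.2.2.2 with h60 | h60
    · have a1 := (h.behr' V y Z (Ne.symm hyV) hyZ hVZ (by omega)).1
      exact fin2 a1 (by omega)
    · exact fin1 (by omega)
  · -- case 2
    obtain ⟨s, x, hs⟩ : ∃ s x, x' :: t = s ++ [x] := by
      rcases (x' :: t).eq_nil_or_concat' with e | ⟨s, x, e⟩
      · exact absurd e (by simp)
      · exact ⟨s, x, e⟩
    have hx'm : x' ∈ m := by rw [hm12]; simp
    have hx'V : x' ≠ V := fun e => hVm2 (by rw [e]; simp)
    have hx'Z := hZm x' hx'm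
    have hxm2 : x ∈ x' :: t := by rw [hs]; simp
    have hxm : x ∈ m := by rw [hm12]; simp only [List.mem_append, List.mem_cons]; right; right; simpa using hxm2
    have hxV : x ≠ V := fun e => hVm2 (by rw [← e]; exact hxm2)
    have hxZ := hZm x hxm
    have hlk1 : lk τ Z V x' := by
      have : List.IsChain (lk τ Z) [V, x'] := chain_mid hc ⟨m₁, t ++ [y], by simp [hm12]⟩
      simpa using this
    have hlk2 : lk τ Z x y := by
      have : List.IsChain (lk τ Z) [x, y] := chain_mid hc ⟨m₁ ++ V :: s, [], by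
        rw [hm12, hs]; simp⟩
      simpa using this
    have b1 := hVc x' hx'm hx'V
    have b2 := hVc x hxm hxV
    have b3 : 60 ≤ |τ V x' Z| := by
      rcases hlk1.2.2.2 with h60 | h60
      · have := (h.behr' V x' Z (Ne.symm hx'V) hx'Z hVZ (by omega)).1
        omega
      · exact h60
    have hc2 : List.IsChain (lk τ Z) ((x' :: t) ++ [y]) :=
      hc.suffix ⟨m₁ ++ [V], by simp [hm12]⟩
    have hlen : ((x' :: t) ++ [y]).length < n := by
      rw [← hn, hm12]; simp; omega
    have hZ2 : ∀ z ∈ (x' :: t) ++ [y], z ≠ Z := by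
      intro z hz
      apply hZ
      rw [hm12]
      simp only [List.mem_append, List.mem_cons] at hz ⊢
      tauto
    obtain ⟨V', hV', hV'c⟩ := ih _ hlen ((x' :: t) ++ [y]) (by simp) hc2 hZ2 rfl
    have hVm3 : V ∉ (x' :: t) ++ [y] := by
      rw [List.mem_append]
      rintro (e | e)
      · exact hVm2 e
      · exact hyV (List.mem_singleton.1 e).symm
    have star : 10 ≤ |τ V V' Z| → 36 ≤ |τ V y Z| := fun e =>
      Q1b_star h Z V V' x' y ((x' :: t) ++ [y]) hVZ hyV hZ2 hVm3 (by simp) (by simp) hV' hV'c b3 e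
    rw [List.mem_append] at hV'
    rcases hV' with hV' | hV'
    · apply fin1
      apply star
      have : V' ∈ m := by rw [hm12]; simp only [List.mem_append, List.mem_cons]; right; right; simpa using hV'
      have := hVc V' this (fun e => hVm2 (by rw [← e]; exact hV'))
      omega
    · rw [List.mem_singleton] at hV'
      subst hV'
      have hxy : x ≠ V' := hlk2.2.2.1
      rcases hlk2.2.2.2 with h60 | h60
      · -- 2B : 60 ≤ |τ y x Z|
        by_cases h10 : 10 ≤ |τ V x V'|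
        · have c1 := (h.behr' x V V' hxV (Ne.symm hyV) hxy h10).2
          have c2 := h.coc V' x V Z hxy (Ne.symm hyV) (Ne.symm hyZ)
          have c3 : 48 ≤ |τ V' V Z| := by
            rw [abs_le] at c1 c2
            rw [le_abs] at h60 ⊢
            omega
          have c4 := (h.behr' V V' Z (Ne.symm hyV) hyZ hVZ (by omega)).1
          exact fin2 c4 c3
        · apply fin1
          apply star
          have c2 := h.coc V x V' Z hxV hyV (Ne.symm hVZ)
          rw [not_le, abs_lt] at h10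
          rw [abs_le] at c2
          rw [le_abs] at b2 ⊢
          omega
      · -- 2A : 60 ≤ |τ x y Z|
        apply fin1
        apply star
        have c1 := (h.behr' x V Z hxV hVZ hxZ (by omega)).1
        have c2 := h.coc x V' V Z (Ne.symm hxy) (Ne.symm hxV) (Ne.symm hxZ)
        have c3 : 10 ≤ |τ x V' V| := by
          rw [abs_le] at c1 c2
          rw [le_abs] at h60 ⊢
          omega
        have c4 := (h.behr' V' x V (Ne.symm hxy) hxV hyV c3).2
        have c5 := h.coc V V' x Z hyV hxV (Ne.symm hVZ)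
        rw [abs_le] at c4 c5
        rw [le_abs] at b2 ⊢
        omega

end Pool.Agent.Lib.MP_6a1159_al.BS
end

section

/-! E3a: translation numbers of two linear orders with a common translation. -/

set_option autoImplicit false

open Filter

namespace Pool.Agent.Lib.MP_6a1159_al.BS

private theorem E3a_eqn {X : Type} {s : Equiv.Perm X} {r : X → X → Prop} (h : Good s r) (n : ℕ) (x y : X) :
    r x y ↔ r ((s ^ n) x) ((s ^ n) y) := by
  induction n with
  | zero => simp
  | succ n ih =>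
    rw [pow_succ', Equiv.Perm.mul_apply, Equiv.Perm.mul_apply, ← h.equiv]
    exact ih

private theorem E3a_add {X : Type} (s : Equiv.Perm X) (n m : ℤ) (x : X) :
    (s ^ n) ((s ^ m) x) = (s ^ (n + m)) x := by
  rw [zpow_add, Equiv.Perm.mul_apply]

private theorem E3a_eqz {X : Type} {s : Equiv.Perm X} {r : X → X → Prop} (h : Good s r) (n : ℤ) (x y : X) :
    r x y ↔ r ((s ^ n) x) ((s ^ n) y) := by
  rcases Int.eq_nat_or_neg n with ⟨k, hk | hk⟩
  · rw [hk, zpow_natCast]
    exact E3a_eqn h k x y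
  · have h1 := E3a_eqn h k ((s ^ n) x) ((s ^ n) y)
    rw [← zpow_natCast, E3a_add, E3a_add] at h1
    have h2 : (k : ℤ) + n = 0 := by omega
    rw [h2] at h1
    simpa using h1.symm

private theorem E3a_lt {X : Type} {s : Equiv.Perm X} {r : X → X → Prop} (h : Good s r) (z : X) {n m : ℤ}
    (hnm : n < m) : r ((s ^ n) z) ((s ^ m) z) := by
  have h1 : ∀ k : ℕ, r z ((s ^ ((k : ℤ) + 1)) z) := by
    intro k
    induction k with
    | zero => simpa using h.step z
    | succ k ih =>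
      refine h.trans _ _ _ ih ?_
      have h2 := h.step ((s ^ ((k : ℤ) + 1)) z)
      have h3 : s ((s ^ ((k : ℤ) + 1)) z) = (s ^ (((k + 1 : ℕ) : ℤ) + 1)) z := by
        have h4 := E3a_add s 1 ((k : ℤ) + 1) z
        rw [zpow_one] at h4
        rw [h4]
        congr 2
        push_cast
        ring
      rw [h3] at h2
      exact h2
  obtain ⟨k, hk⟩ := Int.eq_ofNat_of_zero_le (show 0 ≤ m - n - 1 by omega)
  have h2 := (E3a_eqz h n _ _).1 (h1 k)
  rw [E3a_add] at h2
  have h3 : n + ((k : ℤ) + 1) = m := by omega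
  rw [h3] at h2
  exact h2

private theorem E3a_lt_iff {X : Type} {s : Equiv.Perm X} {r : X → X → Prop} (h : Good s r) (z : X) {n m : ℤ} :
    r ((s ^ n) z) ((s ^ m) z) ↔ n < m := by
  refine ⟨fun h1 => ?_, E3a_lt h z⟩
  by_contra hcon
  rcases eq_or_lt_of_le (not_lt.1 hcon) with h2 | h2
  · rw [h2] at h1
    exact h.irrefl _ h1
  · exact h.irrefl _ (h.trans _ _ _ h1 (E3a_lt h z h2))

/-- PROOF: by `step` and `equiv` (also for `s ^ n`, `n : ℤ`) and `trans`: `r ((s ^ n) z) ((s ^ m) z)` iff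
`n < m`. By `arch` `x z` there is `N` with `r x ((s ^ N) z)`, and by `arch z x` there is `N'` with
`r z ((s ^ N') x)`, i.e. `r ((s ^ (-N')) z) x`. The set `{m : ℤ | r ((s ^ m) z) x}` is downward closed
(`trans`), contains `-N'` and does not contain `N` (`irrefl`, `trans`), so it has a greatest element
(`Int.exists_greatest_of_bdd`), which is `N x z`. -/
theorem good_floor {X : Type} (s : Equiv.Perm X) (r : X → X → Prop) (h : Good s r) :
    ∃ N : X → X → ℤ, ∀ x z, ∀ m : ℤ, r ((s ^ m) z) x ↔ m ≤ N x z := by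
  have key : ∀ x z, ∃ k : ℤ, ∀ m : ℤ, r ((s ^ m) z) x ↔ m ≤ k := by
    intro x z
    obtain ⟨n₁, h₁⟩ := h.arch x z
    obtain ⟨n₂, h₂⟩ := h.arch z x
    rw [← zpow_natCast] at h₁ h₂
    have h₃ := (E3a_eqz h (-(n₂ : ℤ)) _ _).1 h₂
    rw [E3a_add, neg_add_cancel] at h₃
    have h₄ : ∀ m : ℤ, r ((s ^ m) z) x → m ≤ n₁ := fun m hm =>
      ((E3a_lt_iff h z).1 (h.trans _ _ _ hm h₁)).le
    obtain ⟨ub, hub, hmax⟩ := Int.exists_greatest_of_bdd (P := fun m => r ((s ^ m) z) x)
      ⟨n₁, h₄⟩ ⟨-(n₂ : ℤ), by simpa using h₃⟩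
    refine ⟨ub, fun m => ⟨hmax m, fun hm => ?_⟩⟩
    rcases eq_or_lt_of_le hm with h5 | h5
    · rw [h5]
      exact hub
    · exact h.trans _ _ _ (E3a_lt h z h5) hub
  choose N hN using key
  exact ⟨N, hN⟩

/-- PROOF: `r ((s ^ m) w) z` and `r ((s ^ n) z) x` give `r ((s ^ (n + m)) w) x`, so
`N x z + N z w ≤ N x w`. Conversely, with `n := N x z + 1`, `m := N z w + 1`: not
`r ((s ^ n) z) x`, so `x = (s ^ n) z` or `r x ((s ^ n) z)` (`tri`), similarly `z = (s ^ m) w` or
`r z ((s ^ m) w)`; hence `x = (s ^ (n+m)) w` or `r x ((s ^ (n + m)) w)`, and in both cases not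
`r ((s ^ (n+m)) w) x`, so `N x w < n + m`. -/
theorem good_coc {X : Type} (s : Equiv.Perm X) (r : X → X → Prop) (h : Good s r)
    (N : X → X → ℤ) (hN : ∀ x z, ∀ m : ℤ, r ((s ^ m) z) x ↔ m ≤ N x z) (x z w : X) :
    N x z + N z w ≤ N x w ∧ N x w ≤ N x z + N z w + 1 := by
  constructor
  · rw [← hN]
    have h1 := (hN x z (N x z)).2 le_rfl
    have h2 := (hN z w (N z w)).2 le_rfl
    have h3 := (E3a_eqz h (N x z) _ _).1 h2
    rw [E3a_add] at h3
    exact h.trans _ _ _ h3 h1
  · by_contra hcon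
    have h0 : N x z + N z w + 2 ≤ N x w := by omega
    have h1 := (hN x w (N x z + N z w + 2)).2 h0
    have h2 : ¬ r ((s ^ (N x z + 1)) z) x := fun hc => by
      have := (hN x z _).1 hc
      omega
    have h3 : ¬ r ((s ^ (N z w + 1)) w) z := fun hc => by
      have := (hN z w _).1 hc
      omega
    have h4 : x = (s ^ (N x z + 1)) z ∨ r x ((s ^ (N x z + 1)) z) := by
      by_cases he : x = (s ^ (N x z + 1)) z
      · exact Or.inl he
      · exact Or.inr ((h.tri _ _ he).resolve_right h2)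
    have h5 : z = (s ^ (N z w + 1)) w ∨ r z ((s ^ (N z w + 1)) w) := by
      by_cases he : z = (s ^ (N z w + 1)) w
      · exact Or.inl he
      · exact Or.inr ((h.tri _ _ he).resolve_right h3)
    have h6 : (s ^ (N x z + 1)) z = (s ^ (N x z + N z w + 2)) w ∨
        r ((s ^ (N x z + 1)) z) ((s ^ (N x z + N z w + 2)) w) := by
      have e1 : (s ^ (N x z + N z w + 2)) w = (s ^ (N x z + 1)) ((s ^ (N z w + 1)) w) := by
        rw [E3a_add]
        congr 2
        ring
      rw [e1]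
      rcases h5 with h5 | h5
      · exact Or.inl (congrArg _ h5)
      · exact Or.inr ((E3a_eqz h _ _ _).1 h5)
    rcases h4 with h4 | h4
    · rcases h6 with h6 | h6
      · rw [← h6, ← h4] at h1
        exact h.irrefl _ h1
      · rw [← h4] at h6
        exact h.irrefl _ (h.trans _ _ _ h1 h6)
    · rcases h6 with h6 | h6
      · rw [← h6] at h1
        exact h.irrefl _ (h.trans _ _ _ h1 h4)
      · exact h.irrefl _ (h.trans _ _ _ h1 (h.trans _ _ _ h4 h6))

/-- PROOF: `r ((s ^ m) x) z` iff `r x ((s ^ (-m)) z)` (`equiv`) iff (`tri`, `irrefl`, `trans`) not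
`r ((s ^ (-m)) z) x` and `x ≠ (s ^ (-m)) z`. If `x ≠ (s ^ k) z` for all `k` this says
`m ≤ N z x ↔ -m > N x z`, so `N z x = - N x z - 1`. If `x = (s ^ k) z` then by `step`
`N x z = k - 1` and, as `z = (s ^ (-k)) x`, `N z x = -k - 1`. -/
theorem good_anti {X : Type} (s : Equiv.Perm X) (r : X → X → Prop) (h : Good s r)
    (N : X → X → ℤ) (hN : ∀ x z, ∀ m : ℤ, r ((s ^ m) z) x ↔ m ≤ N x z) (x z : X) :
    ((∀ k : ℤ, x ≠ (s ^ k) z) → N z x = - N x z - 1) ∧
      (∀ k : ℤ, x = (s ^ k) z → N x z = k - 1 ∧ N z x = - k - 1) := by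
  constructor
  · intro hne
    have key : ∀ m : ℤ, m ≤ N z x ↔ ¬ (-m ≤ N x z) := by
      intro m
      rw [← hN, ← hN]
      have e1 : r ((s ^ m) x) z ↔ r x ((s ^ (-m)) z) := by
        have h1 := E3a_eqz h (-m) ((s ^ m) x) z
        rw [E3a_add, neg_add_cancel, zpow_zero, Equiv.Perm.one_apply] at h1
        exact h1
      rw [e1]
      constructor
      · intro h1 h2
        exact h.irrefl _ (h.trans _ _ _ h1 h2)
      · intro h1
        exact (h.tri _ _ (hne (-m))).resolve_right h1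
    have k1 := (key (N z x)).1 le_rfl
    have k2 : ¬ (N z x + 1 ≤ N z x) := by omega
    rw [key] at k2
    omega
  · intro k hk
    constructor
    · have h1 : ∀ m : ℤ, m < k ↔ m ≤ N x z := by
        intro m
        rw [← hN]
        rw [hk]
        exact (E3a_lt_iff h z).symm
      have a1 := (h1 (N x z)).2 le_rfl
      have a2 := (h1 (k - 1)).1 (by omega)
      omega
    · have hz : z = (s ^ (-k)) x := by
        rw [hk, E3a_add, neg_add_cancel, zpow_zero, Equiv.Perm.one_apply]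
      have h1 : ∀ m : ℤ, m < -k ↔ m ≤ N z x := by
        intro m
        rw [← hN]
        rw [← E3a_lt_iff h x, ← hz]
      have a1 := (h1 (N z x)).2 le_rfl
      have a2 := (h1 (-k - 1)).1 (by omega)
      omega

end Pool.Agent.Lib.MP_6a1159_al.BS
end

section

/-! E3b: translation numbers of two linear orders with a common translation. -/

set_option autoImplicit false

open Filter

namespace Pool.Agent.Lib.MP_6a1159_al.BS

private theorem E3b_val {X : Type} (s : Equiv.Perm X) (r0 r1 : X → X → Prop) (h0 : Good s r0)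
    (h1 : Good s r1) (e : X → X → ℤ) (he : ∀ x z, e x z = ind (r1 x z) - ind (r0 x z))
    (N0 N1 : X → X → ℤ) (hN0 : ∀ x z, ∀ m : ℤ, r0 ((s ^ m) z) x ↔ m ≤ N0 x z)
    (hN1 : ∀ x z, ∀ m : ℤ, r1 ((s ^ m) z) x ↔ m ≤ N1 x z) (x z : X) (n : ℤ) :
    e x ((s ^ n) z) = ind (n ≤ N0 x z) - ind (n ≤ N1 x z) := by
  classical
  have key : ∀ y : X, e x y = ind (r0 y x) - ind (r1 y x) := by
    intro y
    rw [he]
    by_cases hxy : x = y
    · subst hxy
      have a0 := h0.irrefl x
      have a1 := h1.irrefl x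
      unfold ind
      simp [a0, a1]
    · have b0 : ind (r0 x y) = 1 - ind (r0 y x) := by
        unfold ind
        rcases h0.tri x y hxy with h | h
        · have h' : ¬ r0 y x := fun h2 => h0.irrefl x (h0.trans _ _ _ h h2)
          simp [h, h']
        · have h' : ¬ r0 x y := fun h2 => h0.irrefl x (h0.trans _ _ _ h2 h)
          simp [h, h']
      have b1 : ind (r1 x y) = 1 - ind (r1 y x) := by
        unfold ind
        rcases h1.tri x y hxy with h | h
        · have h' : ¬ r1 y x := fun h2 => h1.irrefl x (h1.trans _ _ _ h h2)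
          simp [h, h']
        · have h' : ¬ r1 x y := fun h2 => h1.irrefl x (h1.trans _ _ _ h2 h)
          simp [h, h']
      rw [b0, b1]
      ring
  rw [key]
  have c0 : (r0 ((s ^ n) z) x) = (n ≤ N0 x z) := propext (hN0 x z n)
  have c1 : (r1 ((s ^ n) z) x) = (n ≤ N1 x z) := propext (hN1 x z n)
  rw [c0, c1]

private theorem E3b_ind_true {p : Prop} (h : p) : ind p = 1 := by
  unfold ind
  simp [h]

private theorem E3b_ind_false {p : Prop} (h : ¬ p) : ind p = 0 := by
  unfold ind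
  simp [h]

/-- PROOF: let `N₀`, `N₁` be the functions of `good_floor` for `r0`, `r1` and `T x z := N₁ x z - N₀ x z`.
For `y := (s ^ n) z`: if `x ≠ y`, `ind (r x y) = 1 - ind (r y x)` (`tri`, `trans`, `irrefl`), so
`e x y = ind (r0 y x) - ind (r1 y x)`, which also holds for `x = y`; i.e.
`e x ((s ^ n) z) = [n ≤ N₀ x z] - [n ≤ N₁ x z]`. So the support is contained in the interval
between `N₀` and `N₁` and the sum is `N₀ - N₁ = - T x z` (`finsum_eq_sum_of_support_subset`, cases
`N₀ ≤ N₁`, `N₁ ≤ N₀`; `Finset.sum_const`, `Int.card_Ioc`). (2) `good_anti` for both orders. (3) `good_coc`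
for both orders. (4) if `T x z ≥ 0`, `n0 := N₀ x z + 1`: for `n0 ≤ n ≤ N₁`,
`e = 0 - 1`; if `T x z < 0`, `n0 := N₁ x z + 1`. (5) `r0 ((s ^ a) z) x` gives `a ≤ N₀ x z` and
`¬ r1 ((s ^ b) z) x` gives `N₁ x z ≤ b - 1`. -/
theorem ord {X : Type} (s : Equiv.Perm X) (r0 r1 : X → X → Prop) (h0 : Good s r0)
    (h1 : Good s r1) (e : X → X → ℤ) (he : ∀ x z, e x z = ind (r1 x z) - ind (r0 x z)) :
    ∃ T : X → X → ℤ,
      (∀ x z, {n : ℤ | e x ((s ^ n) z) ≠ 0}.Finite ∧ T x z = - ∑ᶠ n : ℤ, e x ((s ^ n) z)) ∧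
      (∀ x z, T z x = - T x z) ∧
      (∀ x z w, |T x w - T x z - T z w| ≤ 1) ∧
      (∀ x z, ∀ m : ℕ, (m : ℤ) ≤ |T x z| →
        ∃ n0 : ℤ, ∀ i : ℕ, i < m → e x ((s ^ (n0 + i)) z) ≠ 0) ∧
      (∀ x z, ∀ a b : ℤ, r0 ((s ^ a) z) x → ¬ r1 ((s ^ b) z) x → T x z ≤ b - 1 - a) := by
  classical
  obtain ⟨N0, hN0⟩ := good_floor s r0 h0
  obtain ⟨N1, hN1⟩ := good_floor s r1 h1
  have hv := E3b_val s r0 r1 h0 h1 e he N0 N1 hN0 hN1
  refine ⟨fun x z => N1 x z - N0 x z, ?_, ?_, ?_, ?_, ?_⟩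
  · intro x z
    rcases le_total (N0 x z) (N1 x z) with hle | hle
    · have hval : ∀ n : ℤ, e x ((s ^ n) z) = if n ∈ Finset.Ioc (N0 x z) (N1 x z) then -1 else 0 := by
        intro n
        rw [hv]
        by_cases ha : n ≤ N0 x z
        · have hb : n ≤ N1 x z := ha.trans hle
          have hc : n ∉ Finset.Ioc (N0 x z) (N1 x z) := by
            rw [Finset.mem_Ioc]
            omega
          rw [E3b_ind_true ha, E3b_ind_true hb, if_neg hc]
          norm_num
        · by_cases hb : n ≤ N1 x z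
          · have hc : n ∈ Finset.Ioc (N0 x z) (N1 x z) := by
              rw [Finset.mem_Ioc]
              omega
            rw [E3b_ind_false ha, E3b_ind_true hb, if_pos hc]
            norm_num
          · have hc : n ∉ Finset.Ioc (N0 x z) (N1 x z) := by
              rw [Finset.mem_Ioc]
              omega
            rw [E3b_ind_false ha, E3b_ind_false hb, if_neg hc]
            norm_num
      constructor
      · refine (Finset.Ioc (N0 x z) (N1 x z)).finite_toSet.subset fun n hn => ?_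
        by_contra hc
        refine hn ?_
        rw [hval, if_neg (fun h => hc (Finset.mem_coe.2 h))]
      · have hsum : ∑ᶠ n : ℤ, e x ((s ^ n) z) = ∑ n ∈ Finset.Ioc (N0 x z) (N1 x z),
            e x ((s ^ n) z) := by
          refine finsum_eq_sum_of_support_subset _ fun n hn => ?_
          by_contra hc
          refine hn ?_
          change e x ((s ^ n) z) = 0
          rw [hval, if_neg (fun h => hc (Finset.mem_coe.2 h))]
        rw [hsum, Finset.sum_congr rfl (fun n hn => by rw [hval, if_pos hn]), Finset.sum_const,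
          Int.card_Ioc, nsmul_eq_mul]
        push_cast
        rw [Int.toNat_of_nonneg (by omega)]
        ring
    · have hval : ∀ n : ℤ, e x ((s ^ n) z) = if n ∈ Finset.Ioc (N1 x z) (N0 x z) then 1 else 0 := by
        intro n
        rw [hv]
        by_cases ha : n ≤ N1 x z
        · have hb : n ≤ N0 x z := ha.trans hle
          have hc : n ∉ Finset.Ioc (N1 x z) (N0 x z) := by
            rw [Finset.mem_Ioc]
            omega
          rw [E3b_ind_true ha, E3b_ind_true hb, if_neg hc]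
          norm_num
        · by_cases hb : n ≤ N0 x z
          · have hc : n ∈ Finset.Ioc (N1 x z) (N0 x z) := by
              rw [Finset.mem_Ioc]
              omega
            rw [E3b_ind_false ha, E3b_ind_true hb, if_pos hc]
            norm_num
          · have hc : n ∉ Finset.Ioc (N1 x z) (N0 x z) := by
              rw [Finset.mem_Ioc]
              omega
            rw [E3b_ind_false ha, E3b_ind_false hb, if_neg hc]
            norm_num
      constructor
      · refine (Finset.Ioc (N1 x z) (N0 x z)).finite_toSet.subset fun n hn => ?_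
        by_contra hc
        refine hn ?_
        rw [hval, if_neg (fun h => hc (Finset.mem_coe.2 h))]
      · have hsum : ∑ᶠ n : ℤ, e x ((s ^ n) z) = ∑ n ∈ Finset.Ioc (N1 x z) (N0 x z),
            e x ((s ^ n) z) := by
          refine finsum_eq_sum_of_support_subset _ fun n hn => ?_
          by_contra hc
          refine hn ?_
          change e x ((s ^ n) z) = 0
          rw [hval, if_neg (fun h => hc (Finset.mem_coe.2 h))]
        rw [hsum, Finset.sum_congr rfl (fun n hn => by rw [hval, if_pos hn]), Finset.sum_const,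
          Int.card_Ioc, nsmul_eq_mul]
        push_cast
        rw [Int.toNat_of_nonneg (by omega)]
        ring
  · intro x z
    obtain ⟨a0, b0⟩ := good_anti s r0 h0 N0 hN0 x z
    obtain ⟨a1, b1⟩ := good_anti s r1 h1 N1 hN1 x z
    change N1 z x - N0 z x = -(N1 x z - N0 x z)
    by_cases hk : ∀ k : ℤ, x ≠ (s ^ k) z
    · have c0 := a0 hk
      have c1 := a1 hk
      omega
    · push Not at hk
      obtain ⟨k, hk⟩ := hk
      have c0 := b0 k hk
      have c1 := b1 k hk
      omega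
  · intro x z w
    have c0 := good_coc s r0 h0 N0 hN0 x z w
    have c1 := good_coc s r1 h1 N1 hN1 x z w
    change |(N1 x w - N0 x w) - (N1 x z - N0 x z) - (N1 z w - N0 z w)| ≤ 1
    rw [abs_le]
    omega
  · intro x z m hm
    change (m : ℤ) ≤ |N1 x z - N0 x z| at hm
    rcases le_total (N0 x z) (N1 x z) with hle | hle
    · rw [abs_of_nonneg (by omega)] at hm
      refine ⟨N0 x z + 1, fun i hi => ?_⟩
      rw [hv, E3b_ind_false (by omega), E3b_ind_true (by omega)]
      norm_num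
    · rw [abs_of_nonpos (by omega)] at hm
      refine ⟨N1 x z + 1, fun i hi => ?_⟩
      rw [hv, E3b_ind_true (by omega), E3b_ind_false (by omega)]
      norm_num
  · intro x z a b ha hb
    change N1 x z - N0 x z ≤ b - 1 - a
    have c0 := (hN0 x z a).1 ha
    have c1 : ¬ b ≤ N1 x z := fun h => hb ((hN1 x z b).2 h)
    omega

end Pool.Agent.Lib.MP_6a1159_al.BS
end

section

/-! E3: see the imported files. -/
end
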