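import Pool.Agent.Lib.MP_6a1159_al.Mg.G002
import Pool.Agent.Lib.MP_6a1159_al.Mg.G008

section

/-! S5a: the ends of elements: existence of the limit sides. -/

set_option autoImplicit false

open Filter

namespace Pool.Agent.Lib.MP_6a1159_al.BS

namespace Spl

variable {P : Type} [Group P] (S : Spl P)

/-- PROOF: `(u⁻¹) ^ k = u ^ (-k)`. -/
theorem NC_inv (u : P) : S.NC u⁻¹ ↔ S.NC u := by
  unfold NC
  simp only [inv_zpow, inv_mem_iff]

/-- PROOF: `(u ^ k) ^ l = u ^ (k * l)`. -/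
theorem NC_pow (u : P) (hu : S.NC u) (k : ℤ) (hk : k ≠ 0) : S.NC (u ^ k) := by
  intro l hl
  rw [← zpow_mul]
  exact hu (k * l) (mul_ne_zero hk hl)

/-- PROOF: `(c ^ m * u * c ^ (-m)) ^ k = c ^ m * u ^ k * c ^ (-m)`. -/
theorem NC_conj_c (u : P) (hu : S.NC u) (m : ℤ) : S.NC (S.c ^ m * u * S.c ^ (-m)) := by
  intro k hk h
  apply hu k hk
  rw [zpow_neg, conj_zpow] at h
  have hc : S.c ^ m ∈ Subgroup.zpowers S.c := Subgroup.zpow_mem _ (Subgroup.mem_zpowers _) m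
  have h1 : (S.c ^ m)⁻¹ * (S.c ^ m * u ^ k * (S.c ^ m)⁻¹) * S.c ^ m ∈ Subgroup.zpowers S.c :=
    mul_mem (mul_mem (inv_mem hc) h) hc
  have h2 : (S.c ^ m)⁻¹ * (S.c ^ m * u ^ k * (S.c ^ m)⁻¹) * S.c ^ m = u ^ k := by group
  rwa [h2] at h1

/-- PROOF: if `(F⁻¹ c) ^ k ∈ ⟨c⟩`, `k ≠ 0`, then `c ^ k = (F c) ^ j` for some `j`; `j ≠ 0` since
`c ^ k ≠ 1` (`c_inf`); so `(F c) ^ j ∈ ⟨c⟩`, a contradiction. -/
theorem NC_symm (F : MulAut P) (h : S.NC (F S.c)) : S.NC (F⁻¹ S.c) := by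
  intro k hk hmem
  obtain ⟨j, hj⟩ := Subgroup.mem_zpowers_iff.1 hmem
  have h1 : F (S.c ^ j) = F ((F⁻¹ S.c) ^ k) := by rw [hj]
  rw [map_zpow, map_zpow, MulAut.apply_inv_self] at h1
  have hj0 : j ≠ 0 := by
    intro h0
    rw [h0, zpow_zero] at h1
    exact hk (S.c_inf k h1.symm)
  refine h j hj0 ?_
  rw [h1]
  exact Subgroup.zpow_mem _ (Subgroup.mem_zpowers _) k

theorem E_01 (u : P) : S.E u = 0 ∨ S.E u = 1 := by
  unfold E
  split_ifs
  · exact Or.inr rfl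
  · exact Or.inl rfl

/-- part (a) -/
private theorem S5a_ev (u : P) (hu : S.NC u) (g s : P) :
    ∀ᶠ k : ℕ in atTop, S.chi (u ^ k * g * s) = S.chi (u ^ k * g) := by
  obtain ⟨F, hF⟩ := S.fin s
  have hfin : {k : ℕ | ¬ S.chi (u ^ k * g * s) = S.chi (u ^ k * g)}.Finite := by
    refine Set.Finite.subset (F.finite_toSet.biUnion
      (t := fun y => {k : ℕ | ∃ j : ℤ, u ^ k * g = S.c ^ j * y}) fun y _ => ?_) ?_
    · refine Set.Subsingleton.finite ?_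
      rintro k ⟨j, hj⟩ k' ⟨j', hj'⟩
      by_contra hne
      have hne' : ((k : ℤ) - (k' : ℤ)) ≠ 0 := by
        intro h0
        apply hne
        omega
      refine hu _ hne' ?_
      have h1 : u ^ ((k : ℤ) - (k' : ℤ)) = (u ^ k * g) * (u ^ k' * g)⁻¹ := by
        rw [zpow_sub, zpow_natCast, zpow_natCast]
        group
      rw [h1, hj, hj']
      have h2 : S.c ^ j * y * (S.c ^ j' * y)⁻¹ = S.c ^ (j - j') := by group
      rw [h2]
      exact Subgroup.zpow_mem _ (Subgroup.mem_zpowers _) _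
    · intro k hk
      obtain ⟨y, hy, j, hj⟩ := hF _ hk
      exact Set.mem_biUnion (Finset.mem_coe.2 hy) ⟨j, hj⟩
  have h := hfin.eventually_cofinite_notMem
  rw [Nat.cofinite_eq_atTop] at h
  filter_upwards [h] with k hk
  by_contra hne
  exact hk hne

private theorem S5a_lim (u : P) (hu : S.NC u) : ∀ᶠ k : ℕ in atTop, S.chi (u ^ k) = S.E u := by
  obtain ⟨N, hN⟩ := eventually_atTop.1 (S.S5a_ev u hu 1 u)
  have hstep : ∀ k ≥ N, S.chi (u ^ (k + 1)) = S.chi (u ^ k) := by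
    intro k hk
    have h := hN k hk
    rwa [mul_one, ← pow_succ] at h
  have hconst : ∀ k ≥ N, S.chi (u ^ k) = S.chi (u ^ N) := by
    intro k hk
    induction k, hk using Nat.le_induction with
    | base => rfl
    | succ k hk ih => rw [hstep k hk, ih]
  have hev : ∀ᶠ k : ℕ in atTop, S.chi (u ^ k) = S.chi (u ^ N) := eventually_atTop.2 ⟨N, hconst⟩
  have hE : S.E u = S.chi (u ^ N) := by
    rcases S.chi_01 (u ^ N) with h0 | h1
    · rw [h0]
      unfold E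
      rw [if_neg]
      intro hcon
      obtain ⟨k, hk, hk'⟩ := (hev.and hcon).exists
      rw [h0, hk'] at hk
      exact one_ne_zero hk
    · rw [h1] at hev ⊢
      unfold E
      exact if_pos hev
  rw [hE]
  exact hev

/-- PROOF: (a) For every `s : P` and every `g`, `chi (u ^ k * g * s) = chi (u ^ k * g)` for all but
finitely many `k : ℤ`: otherwise, by `fin s`, infinitely many `u ^ k * g` are of the form
`c ^ (j k) * y` with the same `y`; two of them give `u ^ (k - k') = c ^ (j k - j k')`, `k ≠ k'`,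
against `hu`. (b) With `s = g⁻¹ * u * g`: `chi (u ^ (k+1) * g) = chi (u ^ k * g)` for all large `k`,
so `chi (u ^ k * g)` is eventually constant. With `g = 1`, `s = g` in (a):
`chi (u ^ k * g) = chi (u ^ k)` eventually. The eventual value of `chi (u ^ k)` is `0` or `1`
(`chi_01`), and it is `E u` by definition. -/
theorem E_spec (u : P) (hu : S.NC u) (g : P) :
    ∀ᶠ k : ℕ in atTop, S.chi (u ^ k * g) = S.E u := by
  filter_upwards [S.S5a_ev u hu 1 g, S.S5a_lim u hu] with k h1 h2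
  rw [mul_one] at h1
  rw [h1, h2]

/-- PROOF: `p⁻¹ * u ^ k * g = (p⁻¹ * u * p) ^ k * (p⁻¹ * g)` and `E_spec`. -/
theorem E_spec' (p u : P) (hu : S.NC (p⁻¹ * u * p)) (g : P) :
    ∀ᶠ k : ℕ in atTop, S.chi (p⁻¹ * u ^ k * g) = S.E (p⁻¹ * u * p) := by
  filter_upwards [S.E_spec (p⁻¹ * u * p) hu (p⁻¹ * g)] with k hk
  have h1 : (p⁻¹ * u * p) ^ k = p⁻¹ * u ^ k * p := by
    have h := conj_pow (i := k) (a := p⁻¹) (b := u)
    rwa [inv_inv] at h
  have h2 : (p⁻¹ * u * p) ^ k * (p⁻¹ * g) = p⁻¹ * u ^ k * g := by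
    rw [h1]
    group
  rwa [h2] at hk

end Spl

end Pool.Agent.Lib.MP_6a1159_al.BS
end

section

/-! S5b: the ends of elements: existence of the limit sides. -/

set_option autoImplicit false

open Filter

namespace Pool.Agent.Lib.MP_6a1159_al.BS

namespace Spl

variable {P : Type} [Group P] (S : Spl P)

/-- PROOF: `E_spec` for `u` along the multiples of `k`, and `E_spec` for `u ^ k` (`NC_pow`): both
values are values of `chi (u ^ (k m))` for all large `m`. -/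
theorem E_pow (u : P) (hu : S.NC u) (k : ℕ) (hk : 0 < k) : S.E (u ^ k) = S.E u := by
  have h1 := S.E_spec u hu 1
  have hn : S.NC (u ^ k) := by
    have := S.NC_pow u hu (k : ℤ) (by exact_mod_cast hk.ne')
    rwa [zpow_natCast] at this
  have h2 := S.E_spec (u ^ k) hn 1
  have ht : Tendsto (fun m : ℕ => k * m) atTop atTop :=
    tendsto_id.const_mul_atTop' hk
  obtain ⟨m, h3, h4⟩ := ((ht.eventually h1).and h2).exists
  rw [← h4, ← pow_mul, ← h3]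

/-- PROOF: `chi ((c ^ m * u * c ^ (-m)) ^ k) = chi (c ^ m * u ^ k * c ^ (-m)) = chi (u ^ k)`, so the
two definitions are literally the same after `simp`. -/
theorem E_conj_c (m : ℤ) (u : P) : S.E (S.c ^ m * u * S.c ^ (-m)) = S.E u := by
  have h : ∀ k : ℕ, S.chi ((S.c ^ m * u * S.c ^ (-m)) ^ k) = S.chi (u ^ k) := by
    intro k
    have e : (S.c ^ m * u * S.c ^ (-m)) ^ k = S.c ^ m * (u ^ k * S.c ^ (-m)) := by
      rw [zpow_neg, conj_pow, mul_assoc]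
    rw [e, S.chi_zpow, S.chi_mul_zpow]
  have hiff : (∀ᶠ k : ℕ in atTop, S.chi ((S.c ^ m * u * S.c ^ (-m)) ^ k) = 1) ↔
      ∀ᶠ k : ℕ in atTop, S.chi (u ^ k) = 1 :=
    eventually_congr (Eventually.of_forall fun k => by rw [h k])
  unfold E
  by_cases hc : ∀ᶠ k : ℕ in atTop, S.chi (u ^ k) = 1
  · rw [if_pos hc, if_pos (hiff.2 hc)]
  · rw [if_neg hc, if_neg (fun h5 => hc (hiff.1 h5))]

/-- PROOF: `E_conj_c` for `u` and `u⁻¹`. -/
theorem eps_conj_c (m : ℤ) (u : P) : S.eps (S.c ^ m * u * S.c ^ (-m)) = S.eps u := by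
  have e : (S.c ^ m * u * S.c ^ (-m))⁻¹ = S.c ^ m * u⁻¹ * S.c ^ (-m) := by
    rw [mul_inv_rev, mul_inv_rev, zpow_neg, inv_inv, mul_assoc]
  unfold eps
  rw [e, E_conj_c, E_conj_c]

/-- PROOF: `u ^ k ∈ ⟨c⟩`, so `chi (u ^ k) = 0` for all `k` (`chi_Z`). -/
theorem E_Z (u : P) (hu : u ∈ Subgroup.zpowers S.c) : S.E u = 0 := by
  unfold E
  rw [if_neg]
  intro h
  obtain ⟨k, hk⟩ := h.exists
  rw [S.chi_Z _ (pow_mem hu k)] at hk
  exact zero_ne_one hk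

private theorem S5b_zero (u : P) (K : ℕ) (hK : 0 < K) (hu : u ^ K ∈ Subgroup.zpowers S.c) :
    S.E u = 0 := by
  unfold E
  rw [if_neg]
  intro h
  have ht : Tendsto (fun m : ℕ => K * m) atTop atTop :=
    tendsto_id.const_mul_atTop' hK
  obtain ⟨m, hm⟩ := (ht.eventually h).exists
  rw [pow_mul, S.chi_Z _ (pow_mem hu m)] at hm
  exact zero_ne_one hm

theorem eps_inv (u : P) : S.eps u⁻¹ = - S.eps u := by
  unfold eps
  rw [inv_inv]
  ring

/-- PROOF: suppose `u ^ k ∈ ⟨c⟩` with `k ≠ 0`; we may take `k > 0`. Then `u ^ (k * m) ∈ ⟨c⟩` for all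
`m : ℕ`, so `chi (u ^ (k * m)) = 0` and `chi (u⁻¹ ^ (k * m)) = 0`; so neither `chi (u ^ n)` nor
`chi (u⁻¹ ^ n)` is eventually `1`, `E u = E u⁻¹ = 0` and `eps u = 0`. -/
theorem NC_of_eps (u : P) (h : S.eps u ≠ 0) : S.NC u := by
  intro k hk hmem
  apply h
  have hK : 0 < k.natAbs := Int.natAbs_pos.2 hk
  have h1 : u ^ k.natAbs ∈ Subgroup.zpowers S.c := by
    rcases Int.natAbs_eq k with h2 | h2
    · rw [h2, zpow_natCast] at hmem
      exact hmem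
    · rw [h2, zpow_neg, zpow_natCast] at hmem
      exact inv_mem_iff.1 hmem
  have h2 : u⁻¹ ^ k.natAbs ∈ Subgroup.zpowers S.c := by
    rw [inv_pow]
    exact inv_mem h1
  unfold eps
  rw [S5b_zero S u _ hK h1, S5b_zero S u⁻¹ _ hK h2, sub_zero]

/-- PROOF: NC: `(g * c * g⁻¹) ^ k = g * c ^ k * g⁻¹ ∈ ⟨c⟩` with `k ≠ 0` gives `g⁻¹ ∈ ⟨c⟩` by `mal`
(`x = g⁻¹`). `E_spec` for `u = g * c * g⁻¹` and the element `g`:
`chi (u ^ k * g) = chi (g * c ^ k) = chi g`. The same for `g * c⁻¹ * g⁻¹ = u⁻¹`. -/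
theorem E_cc (g : P) (hg : g ∉ Subgroup.zpowers S.c) : S.NC (g * S.c * g⁻¹) ∧
    S.E (g * S.c * g⁻¹) = S.chi g ∧ S.E (g * S.c⁻¹ * g⁻¹) = S.chi g := by
  have hNC : S.NC (g * S.c * g⁻¹) := by
    intro k hk hmem
    rw [conj_zpow] at hmem
    apply hg
    have h1 := S.mal g⁻¹ k hk (by rwa [inv_inv])
    exact inv_mem_iff.1 h1
  have e : g * S.c⁻¹ * g⁻¹ = (g * S.c * g⁻¹)⁻¹ := by
    rw [mul_inv_rev, mul_inv_rev, inv_inv, mul_assoc]
  refine ⟨hNC, ?_, ?_⟩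
  · obtain ⟨k, hk⟩ := (S.E_spec _ hNC g).exists
    rw [← hk, conj_pow, inv_mul_cancel_right, ← zpow_natCast, S.chi_mul_zpow]
  · have hNC' : S.NC (g * S.c⁻¹ * g⁻¹) := by
      rw [e]
      exact (S.NC_inv _).2 hNC
    obtain ⟨k, hk⟩ := (S.E_spec _ hNC' g).exists
    rw [← hk, conj_pow, inv_mul_cancel_right, inv_pow, ← zpow_natCast, ← zpow_neg, S.chi_mul_zpow]

/-- PROOF: if `g ∈ ⟨c⟩` the element is `c`, use `E_Z`; otherwise `E_cc`. -/
theorem eps_cc (g : P) : S.eps (g * S.c * g⁻¹) = 0 := by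
  unfold eps
  by_cases hg : g ∈ Subgroup.zpowers S.c
  · have h1 : g * S.c * g⁻¹ ∈ Subgroup.zpowers S.c :=
      mul_mem (mul_mem hg (Subgroup.mem_zpowers _)) (inv_mem hg)
    rw [S.E_Z _ h1, S.E_Z _ (inv_mem h1), sub_zero]
  · obtain ⟨_, h2, h3⟩ := S.E_cc g hg
    have e : (g * S.c * g⁻¹)⁻¹ = g * S.c⁻¹ * g⁻¹ := by
      rw [mul_inv_rev, mul_inv_rev, inv_inv, mul_assoc]
    rw [e, h2, h3, sub_self]

end Spl

end Pool.Agent.Lib.MP_6a1159_al.BS
end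

section

/-! S5: see the imported files. -/
end

section

/-! Q1c: chains of links have a center. -/

set_option autoImplicit false

namespace Pool.Agent.Lib.MP_6a1159_al.BS

variable {Y : Type} {τ : Y → Y → Y → ℤ}

private theorem Q1c_lk (Z W V : Y) (h : lk τ Z W V) : lk τ Z V W :=
  ⟨h.2.1, h.1, h.2.2.1.symm, h.2.2.2.symm⟩

theorem eqv_symm (Z W V : Y) (h : eqv τ Z W V) : eqv τ Z V W := by
  unfold eqv at h ⊢
  induction h with
  | refl => exact Relation.ReflTransGen.refl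
  | tail _ h2 ih => exact Relation.ReflTransGen.head (Q1c_lk _ _ _ h2) ih

theorem eqv_trans (Z W V U : Y) (h : eqv τ Z W V) (h' : eqv τ Z V U) : eqv τ Z W U :=
  Relation.ReflTransGen.trans h h'

theorem eqv_ne (Z W V : Y) (h : eqv τ Z W V) (hW : W ≠ Z) : V ≠ Z := by
  unfold eqv at h
  cases h with
  | refl => exact hW
  | tail _ h2 => exact h2.2.1

/-- PROOF: there is a chain from `W` to `V` (`List.exists_isChain_cons_of_relationReflTransGen`); let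
`C` be a center (`center`). If `W ≠ C` then `|τ C W Z| ≥ 36`, so `|τ Z W C| ≤ 4` (`behr'`); if `W = C` it
is `0`. The same for `V`. `coc`: `|τ Z W V| ≤ 4 + 4 + 8`. -/
theorem eqv_diam (h : TW Y τ) (Z W V : Y) (hW : W ≠ Z) (he : eqv τ Z W V) :
    |τ Z W V| ≤ 16 := by
  have hV : V ≠ Z := eqv_ne Z W V he hW
  obtain ⟨l, hl, hlast⟩ := List.exists_isChain_cons_of_relationReflTransGen he
  have hZ : ∀ x ∈ W :: l, x ≠ Z := by
    have aux : ∀ (l : List Y) (W : Y), W ≠ Z → List.IsChain (lk τ Z) (W :: l) →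
        ∀ x ∈ W :: l, x ≠ Z := by
      intro l
      induction l with
      | nil =>
        intro W hW _ x hx
        rw [List.mem_singleton] at hx
        rw [hx]
        exact hW
      | cons a l ih =>
        intro W hW hc x hx
        rw [List.isChain_cons_cons] at hc
        rcases List.mem_cons.1 hx with h1 | h1
        · rw [h1]
          exact hW
        · exact ih a hc.1.2.1 hc.2 x h1
    exact aux l W hW hl
  obtain ⟨C, hC, hCc⟩ := center h Z (W :: l) (List.cons_ne_nil _ _) hl hZ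
  have hVl : V ∈ W :: l := by
    rw [← hlast]
    exact List.getLast_mem _
  have key : ∀ U ∈ W :: l, |τ Z U C| ≤ 4 := by
    intro U hU
    by_cases hUC : U = C
    · rw [hUC, h.self]
      norm_num
    · have h1 := hCc U hU hUC
      exact (h.behr' U C Z hUC (hZ C hC) (hZ U hU) (by linarith)).2
  have k1 := key W List.mem_cons_self
  have k2 := key V hVl
  rw [h.abs_symm Z V C] at k2
  have k3 := h.coc Z W C V hW (hZ C hC) hV
  have e : τ Z W V = (τ Z W V - τ Z W C - τ Z C V) + τ Z W C + τ Z C V := by ring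
  rw [e]
  calc |(τ Z W V - τ Z W C - τ Z C V) + τ Z W C + τ Z C V|
      ≤ |(τ Z W V - τ Z W C - τ Z C V) + τ Z W C| + |τ Z C V| := abs_add_le _ _
    _ ≤ |τ Z W V - τ Z W C - τ Z C V| + |τ Z W C| + |τ Z C V| := by
        have := abs_add_le (τ Z W V - τ Z W C - τ Z C V) (τ Z W C)
        linarith
    _ ≤ 16 := by linarith

end Pool.Agent.Lib.MP_6a1159_al.BS
end

section

/-! Q1: see the imported files. -/
end

section

/-! Q2a: the modified twisting numbers. -/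

set_option autoImplicit false

namespace Pool.Agent.Lib.MP_6a1159_al.BS

variable {Y : Type} {τ : Y → Y → Y → ℤ}

/-- PROOF: `n = τ Z X' W'` with `X' ~ X`, `W' ~ W` (all `≠ Z`, `eqv_ne`). `coc` twice:
`|τ Z X' W' - τ Z X' X - τ Z X W'| ≤ 8`, `|τ Z X W' - τ Z X W - τ Z W W'| ≤ 8`, and `eqv_diam`. -/
theorem hset_near (h : TW Y τ) (Z X W : Y) (hX : X ≠ Z) (hW : W ≠ Z) (n : ℤ)
    (hn : n ∈ Hset τ Z X W) : |n - τ Z X W| ≤ 48 := by
  obtain ⟨X', W', e1, e2, rfl⟩ := hn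
  have hX' := eqv_ne Z X X' e1 hX
  have hW' := eqv_ne Z W W' e2 hW
  have c1 := h.coc Z X' X W' hX' hX hW'
  have c2 := h.coc Z X W W' hX hW hW'
  have d1 := eqv_diam h Z X X' hX e1
  have d2 := eqv_diam h Z W W' hW e2
  have d3 := h.anti Z X X'
  rw [abs_le] at *
  omega

private theorem Q2a_mem (Z X W : Y) : τ Z X W ∈ Hset τ Z X W :=
  ⟨X, W, Relation.ReflTransGen.refl, Relation.ReflTransGen.refl, rfl⟩

private theorem Q2a_bddAbove (h : TW Y τ) (Z X W : Y) (hX : X ≠ Z) (hW : W ≠ Z) :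
    BddAbove (Hset τ Z X W) := by
  refine ⟨τ Z X W + 48, fun n hn => ?_⟩
  have := hset_near h Z X W hX hW n hn
  rw [abs_le] at this
  linarith [this.2]

private theorem Q2a_bddBelow (h : TW Y τ) (Z X W : Y) (hX : X ≠ Z) (hW : W ≠ Z) :
    BddBelow (Hset τ Z X W) := by
  refine ⟨τ Z X W - 48, fun n hn => ?_⟩
  have := hset_near h Z X W hX hW n hn
  rw [abs_le] at this
  linarith [this.1]

/-- PROOF: `τ Z X W ∈ Hset`, `hset_near`: `τ ≤ sSup ≤ τ + 48`, `τ - 48 ≤ sInf ≤ τ`. -/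
theorem hh_near (h : TW Y τ) (Z X W : Y) (hX : X ≠ Z) (hW : W ≠ Z) :
    |hh τ Z X W - 2 * τ Z X W| ≤ 48 := by
  have hm := Q2a_mem (τ := τ) Z X W
  have h1 : τ Z X W ≤ sSup (Hset τ Z X W) := le_csSup (Q2a_bddAbove h Z X W hX hW) hm
  have h2 : sInf (Hset τ Z X W) ≤ τ Z X W := csInf_le (Q2a_bddBelow h Z X W hX hW) hm
  have h3 : sSup (Hset τ Z X W) ≤ τ Z X W + 48 := by
    apply csSup_le ⟨_, hm⟩
    intro n hn
    have := hset_near h Z X W hX hW n hn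
    rw [abs_le] at this
    linarith [this.2]
  have h4 : τ Z X W - 48 ≤ sInf (Hset τ Z X W) := by
    apply le_csInf ⟨_, hm⟩
    intro n hn
    have := hset_near h Z X W hX hW n hn
    rw [abs_le] at this
    linarith [this.1]
  unfold hh
  rw [abs_le]
  constructor <;> linarith

/-- PROOF: `Hset τ Z W X` is the set of the negatives of `Hset τ Z X W` (`anti`), which is bounded and
not empty. -/
theorem hh_anti (h : TW Y τ) (Z X W : Y) (hX : X ≠ Z) (hW : W ≠ Z) :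
    hh τ Z W X = - hh τ Z X W := by
  have key : ∀ A B : Y, ∀ n : ℤ, n ∈ Hset τ Z A B → -n ∈ Hset τ Z B A := by
    rintro A B n ⟨A', B', e1, e2, rfl⟩
    exact ⟨B', A', e2, e1, by rw [h.anti Z A' B']⟩
  have hm := Q2a_mem (τ := τ) Z X W
  have hm' := Q2a_mem (τ := τ) Z W X
  have b1 := Q2a_bddAbove h Z X W hX hW
  have b2 := Q2a_bddBelow h Z X W hX hW
  have b3 := Q2a_bddAbove h Z W X hW hX
  have b4 := Q2a_bddBelow h Z W X hW hX
  have s1 : sSup (Hset τ Z W X) = - sInf (Hset τ Z X W) := by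
    apply le_antisymm
    · apply csSup_le ⟨_, hm'⟩
      intro n hn
      have := csInf_le b2 (key W X n hn)
      linarith
    · have : - sSup (Hset τ Z W X) ≤ sInf (Hset τ Z X W) := by
        apply le_csInf ⟨_, hm⟩
        intro n hn
        have := le_csSup b3 (key X W n hn)
        linarith
      linarith
  have s2 : sInf (Hset τ Z W X) = - sSup (Hset τ Z X W) := by
    apply le_antisymm
    · have : sSup (Hset τ Z X W) ≤ - sInf (Hset τ Z W X) := by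
        apply csSup_le ⟨_, hm⟩
        intro n hn
        have := csInf_le b4 (key X W n hn)
        linarith
      linarith
    · apply le_csInf ⟨_, hm'⟩
      intro n hn
      have := le_csSup b1 (key W X n hn)
      linarith
  unfold hh
  rw [s1, s2]
  ring

/-- PROOF: the sets `Hset` are equal, as `eqv` is an equivalence relation. -/
theorem hh_congr (Z X X' W W' : Y) (he : eqv τ Z X X') (he' : eqv τ Z W W') :
    hh τ Z X W = hh τ Z X' W' := by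
  have hs : Hset τ Z X W = Hset τ Z X' W' := by
    ext n
    constructor
    · rintro ⟨A, B, e1, e2, rfl⟩
      exact ⟨A, B, eqv_trans Z X' X A (eqv_symm Z X X' he) e1,
        eqv_trans Z W' W B (eqv_symm Z W W' he') e2, rfl⟩
    · rintro ⟨A, B, e1, e2, rfl⟩
      exact ⟨A, B, eqv_trans Z X X' A he e1, eqv_trans Z W W' B he' e2, rfl⟩
  unfold hh
  rw [hs]

/-- PROOF: `hh τ Z X W = hh τ Z X X` (`hh_congr`) and `hh τ Z X X = - hh τ Z X X` (`hh_anti`). -/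
theorem hh_self (h : TW Y τ) (Z X W : Y) (hX : X ≠ Z) (he : eqv τ Z X W) :
    hh τ Z X W = 0 := by
  have h1 : hh τ Z X W = hh τ Z X X :=
    hh_congr Z X X W X Relation.ReflTransGen.refl (eqv_symm Z X W he)
  have h2 := hh_anti h Z X X hX hX
  omega

/-- PROOF: `hh_near` three times and twice `coc`: `2 * 8 + 3 * 48 = 160`. -/
theorem hh_coc (h : TW Y τ) (Z X V W : Y) (hX : X ≠ Z) (hV : V ≠ Z) (hW : W ≠ Z) :
    |hh τ Z X V + hh τ Z V W - hh τ Z X W| ≤ 160 := by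
  have h1 := hh_near h Z X V hX hV
  have h2 := hh_near h Z V W hV hW
  have h3 := hh_near h Z X W hX hW
  have h4 := h.coc Z X V W hX hV hW
  rw [abs_le] at *
  omega

end Pool.Agent.Lib.MP_6a1159_al.BS
end

section

/-! Q2b: the modified twisting numbers. -/

set_option autoImplicit false

namespace Pool.Agent.Lib.MP_6a1159_al.BS

variable {Y : Type} {τ : Y → Y → Y → ℤ}

theorem hK_anti (h : TW Y τ) (Z X W : Y) (hX : X ≠ Z) (hW : W ≠ Z) :
    hK τ Z W X = - hK τ Z X W := by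
  have h1 := hh_anti h Z X W hX hW
  unfold hK
  rw [h1, abs_neg]
  by_cases h2 : 352 ≤ |hh τ Z X W|
  · rw [if_pos h2, if_pos h2]
  · rw [if_neg h2, if_neg h2]; simp

theorem hK_near (Z X W : Y) : |hK τ Z X W - hh τ Z X W| ≤ 352 := by
  unfold hK
  by_cases h2 : 352 ≤ |hh τ Z X W|
  · rw [if_pos h2]; simp
  · rw [if_neg h2]
    push Not at h2
    rw [zero_sub, abs_neg]
    exact h2.le

/-- PROOF: `160 + 3 * 352`. -/
theorem hK_coc (h : TW Y τ) (Z X V W : Y) (hX : X ≠ Z) (hV : V ≠ Z) (hW : W ≠ Z) :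
    |hK τ Z X V + hK τ Z V W - hK τ Z X W| ≤ 1216 := by
  have h0 := hh_coc h Z X V W hX hV hW
  have h1 := hK_near (τ := τ) Z X V
  have h2 := hK_near (τ := τ) Z V W
  have h3 := hK_near (τ := τ) Z X W
  rw [abs_le] at *
  omega

private theorem Q2b_zero_of_eqv (h : TW Y τ) (Z X W : Y) (hX : X ≠ Z) (he : eqv τ Z X W) :
    hK τ Z X W = 0 := by
  unfold hK
  rw [hh_self h Z X W hX he]
  simp

private theorem Q2b_zero_of_lt (Z X W : Y) (h1 : |hh τ Z X W| < 352) : hK τ Z X W = 0 := by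
  unfold hK
  rw [if_neg (not_le.2 h1)]

private theorem Q2b_congr (Z X X' W W' : Y) (he : eqv τ Z X X') (he' : eqv τ Z W W') :
    hK τ Z X W = hK τ Z X' W' := by
  unfold hK
  rw [hh_congr Z X X' W W' he he']

/-- PROOF: if `X ~ V` then `hK Z X V = 0` (`hh_self`) and `hK Z V W = hK Z X W` (`hh_congr`); if
`V ~ W`: `hK Z V W = 0`, `hK Z X V = hK Z X W`; if `X ~ W`: `hK Z X W = 0`,
`hK Z V W = hK Z V X = - hK Z X V`. If all three `|hh|` are less than `352` all three `hK` are `0`. -/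
theorem hK_zero (h : TW Y τ) (Z X V W : Y) (hX : X ≠ Z) (hV : V ≠ Z) (hW : W ≠ Z)
    (he : eqv τ Z X V ∨ eqv τ Z V W ∨ eqv τ Z X W ∨
      (|hh τ Z X V| < 352 ∧ |hh τ Z V W| < 352 ∧ |hh τ Z X W| < 352)) :
    hK τ Z X V + hK τ Z V W - hK τ Z X W = 0 := by
  rcases he with he | he | he | ⟨h1, h2, h3⟩
  · rw [Q2b_zero_of_eqv h Z X V hX he,
      Q2b_congr Z V X W W (eqv_symm Z X V he) Relation.ReflTransGen.refl]
    ring
  · rw [Q2b_zero_of_eqv h Z V W hV he,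
      Q2b_congr Z X X V W Relation.ReflTransGen.refl he]
    ring
  · rw [Q2b_zero_of_eqv h Z X W hX he,
      Q2b_congr Z V V W X Relation.ReflTransGen.refl (eqv_symm Z X W he),
      hK_anti h Z X V hX hV]
    ring
  · rw [Q2b_zero_of_lt Z X V h1, Q2b_zero_of_lt Z V W h2, Q2b_zero_of_lt Z X W h3]
    ring

private theorem Q2b_lk (ρ : Equiv.Perm Y) (hρ : ∀ Z X W, τ (ρ Z) (ρ X) (ρ W) = τ Z X W)
    (Z W V : Y) (hl : lk τ Z W V) : lk τ (ρ Z) (ρ W) (ρ V) := by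
  obtain ⟨h1, h2, h3, h4⟩ := hl
  refine ⟨fun e => h1 (ρ.injective e), fun e => h2 (ρ.injective e),
    fun e => h3 (ρ.injective e), ?_⟩
  rw [hρ, hρ]
  exact h4

private theorem Q2b_eqv (ρ : Equiv.Perm Y) (hρ : ∀ Z X W, τ (ρ Z) (ρ X) (ρ W) = τ Z X W)
    (Z W V : Y) (hl : eqv τ Z W V) : eqv τ (ρ Z) (ρ W) (ρ V) :=
  Relation.ReflTransGen.lift (p := lk τ (ρ Z)) (fun x => ρ x)
    (fun a b hab => Q2b_lk ρ hρ Z a b hab) W V hl

private theorem Q2b_inv (ρ : Equiv.Perm Y) (hρ : ∀ Z X W, τ (ρ Z) (ρ X) (ρ W) = τ Z X W)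
    (Z X W : Y) : τ (ρ.symm Z) (ρ.symm X) (ρ.symm W) = τ Z X W := by
  have := hρ (ρ.symm Z) (ρ.symm X) (ρ.symm W)
  simpa using this.symm

private theorem Q2b_Hset (ρ : Equiv.Perm Y) (hρ : ∀ Z X W, τ (ρ Z) (ρ X) (ρ W) = τ Z X W)
    (Z X W : Y) : Hset τ (ρ Z) (ρ X) (ρ W) = Hset τ Z X W := by
  ext n
  constructor
  · rintro ⟨A, B, e1, e2, rfl⟩
    refine ⟨ρ.symm A, ρ.symm B, ?_, ?_, ?_⟩
    · have := Q2b_eqv ρ.symm (Q2b_inv ρ hρ) _ _ _ e1
      simpa using this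
    · have := Q2b_eqv ρ.symm (Q2b_inv ρ hρ) _ _ _ e2
      simpa using this
    · have := hρ Z (ρ.symm A) (ρ.symm B)
      simpa using this
  · rintro ⟨A, B, e1, e2, rfl⟩
    exact ⟨ρ A, ρ B, Q2b_eqv ρ hρ _ _ _ e1, Q2b_eqv ρ hρ _ _ _ e2, (hρ Z A B).symm⟩

/-- The map `τ` may be transported by a permutation. PROOF: unfold; `lk`, `eqv`, `Hset` are
transported (`Relation.ReflTransGen.lift` for `ρ` and `ρ⁻¹`). -/
theorem hK_map (ρ : Equiv.Perm Y) (hρ : ∀ Z X W, τ (ρ Z) (ρ X) (ρ W) = τ Z X W) (Z X W : Y) :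
    hK τ (ρ Z) (ρ X) (ρ W) = hK τ Z X W := by
  unfold hK hh
  rw [Q2b_Hset ρ hρ Z X W]

end Pool.Agent.Lib.MP_6a1159_al.BS
end

section

/-! Q2: see the imported files. -/
end

section

/-! Q3: there are at most two bad elements for a pair. -/

set_option autoImplicit false

namespace Pool.Agent.Lib.MP_6a1159_al.BS

variable {Y : Type} {τ : Y → Y → Y → ℤ}

/-- The elements `Z` for which `x`, `y`, `w` are pairwise not equivalent, with large `hh τ Z x y`. -/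
def Bad (τ : Y → Y → Y → ℤ) (x y w : Y) : Set Y :=
  {Z | x ≠ Z ∧ y ≠ Z ∧ w ≠ Z ∧ ¬ eqv τ Z x y ∧ ¬ eqv τ Z y w ∧ ¬ eqv τ Z x w ∧
    352 ≤ |hh τ Z x y|}

/-- PROOF: `hh_near`: `|2 τ Z x y| ≥ 352 - 48 = 304`. -/
theorem bad_large (h : TW Y τ) (x y w Z : Y) (hZ : Z ∈ Bad τ x y w) : 152 ≤ |τ Z x y| := by
  obtain ⟨hx, hy, _, _, _, _, h7⟩ := hZ
  have h1 := hh_near h Z x y hx hy
  rw [abs_le] at h1
  obtain ⟨h2, h3⟩ := h1
  rcases le_abs.1 h7 with h4 | h4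
  · exact le_abs.2 (Or.inl (by linarith))
  · exact le_abs.2 (Or.inr (by linarith))

private theorem Q3_link {Z Z' p q : Y} (hpZ : p ≠ Z) (hqZ : q ≠ Z) (hpZ' : p ≠ Z')
    (hqZ' : q ≠ Z') (hne : Z ≠ Z') (hp : 60 ≤ |τ Z p Z'|) (hq : 60 ≤ |τ Z q Z'|) :
    eqv τ Z' p q :=
  Relation.ReflTransGen.trans
    (Relation.ReflTransGen.single ⟨hpZ', hne, hpZ, Or.inl hp⟩)
    (Relation.ReflTransGen.single ⟨hne, hqZ', hqZ.symm, Or.inr hq⟩)

/-- For two bad elements `Z ≠ Z'`, one of them is closer to `x`. PROOF: `coc` at `Z`: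
`|τ Z x Z'| + |τ Z Z' y| ≥ 152 - 8`, so `60 ≤ |τ Z x Z'|` or `60 ≤ |τ Z y Z'|` (`abs_symm`).
Observation: if `60 ≤ |τ Z p Z'|` for `p ∈ {x, y, w}` then `lk τ Z' p Z`, so `p ~ Z` as seen from `Z'`;
as `x, y, w` are pairwise inequivalent as seen from `Z'`, this holds for at most one `p`; in
the same way with `Z`, `Z'` exchanged.
First case `60 ≤ |τ Z x Z'|`: then `|τ Z w Z'| < 60`. `behr'` (`W := x`, `V := Z`, `Z := Z'`):
`|τ x Z Z'| ≤ 4 ∧ |τ Z' x Z| ≤ 4`. So `|τ Z' y Z| ≥ 152 - 4 - 8 ≥ 60`, hence `|τ Z' w Z| < 60`, and by `behr'`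
(`W := y`, `V := Z'`, `Z := Z`) `|τ Z y Z'| ≤ 4`.
Second case `60 ≤ |τ Z y Z'|`: then `|τ Z w Z'| < 60`, `|τ Z' y Z| ≤ 4`, so
`|τ Z' x Z| ≥ 152 - 4 - 8 ≥ 60`, `|τ Z' w Z| < 60`, `|τ Z x Z'| ≤ 4`. -/
theorem bad_pair (h : TW Y τ) (x y w Z Z' : Y) (hZ : Z ∈ Bad τ x y w) (hZ' : Z' ∈ Bad τ x y w)
    (hne : Z ≠ Z') :
    (|τ Z' x Z| ≤ 4 ∧ |τ Z' w Z| < 60 ∧ |τ Z y Z'| ≤ 4 ∧ |τ Z w Z'| < 60) ∨
    (|τ Z x Z'| ≤ 4 ∧ |τ Z w Z'| < 60 ∧ |τ Z' y Z| ≤ 4 ∧ |τ Z' w Z| < 60) := by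
  have hL := bad_large h x y w Z hZ
  have hL' := bad_large h x y w Z' hZ'
  obtain ⟨hx, hy, hw, e1, e2, e3, _⟩ := hZ
  obtain ⟨hx', hy', hw', e1', e2', e3', _⟩ := hZ'
  have c1 := h.coc Z x Z' y hx hne.symm hy
  have c2 := h.coc Z' x Z y hx' hne hy'
  have s1 := h.abs_symm Z Z' y
  have s2 := h.abs_symm Z' Z y
  have hsplit : 60 ≤ |τ Z x Z'| ∨ 60 ≤ |τ Z y Z'| := by
    by_contra hcon
    push Not at hcon
    obtain ⟨a1, a2⟩ := hcon
    have t1 : |τ Z x y| ≤ |τ Z x y - τ Z x Z' - τ Z Z' y| + |τ Z x Z'| + |τ Z Z' y| := by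
      have := abs_add_three (τ Z x y - τ Z x Z' - τ Z Z' y) (τ Z x Z') (τ Z Z' y)
      have e : τ Z x y - τ Z x Z' - τ Z Z' y + τ Z x Z' + τ Z Z' y = τ Z x y := by ring
      rwa [e] at this
    omega
  have t2 : |τ Z' x y| ≤ |τ Z' x y - τ Z' x Z - τ Z' Z y| + |τ Z' x Z| + |τ Z' Z y| := by
    have := abs_add_three (τ Z' x y - τ Z' x Z - τ Z' Z y) (τ Z' x Z) (τ Z' Z y)
    have e : τ Z' x y - τ Z' x Z - τ Z' Z y + τ Z' x Z + τ Z' Z y = τ Z' x y := by ring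
    rwa [e] at this
  rcases hsplit with a | a
  · left
    have b1 : |τ Z w Z'| < 60 := by
      by_contra hcon
      push Not at hcon
      exact e3' (Q3_link hx hw hx' hw' hne a hcon)
    have b2 := (h.behr' x Z Z' hx hne hx' (by omega)).2
    have b3 : 60 ≤ |τ Z' y Z| := by omega
    have b4 : |τ Z' w Z| < 60 := by
      by_contra hcon
      push Not at hcon
      exact e2 (Q3_link hy' hw' hy hw hne.symm b3 hcon)
    have b5 := (h.behr' y Z' Z hy' hne.symm hy (by omega)).2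
    exact ⟨b2, b4, b5, b1⟩
  · right
    have b1 : |τ Z w Z'| < 60 := by
      by_contra hcon
      push Not at hcon
      exact e2' (Q3_link hy hw hy' hw' hne a hcon)
    have b2 := (h.behr' y Z Z' hy hne hy' (by omega)).2
    have b3 : 60 ≤ |τ Z' x Z| := by omega
    have b4 : |τ Z' w Z| < 60 := by
      by_contra hcon
      push Not at hcon
      exact e3 (Q3_link hx' hw' hx hw hne.symm b3 hcon)
    have b5 := (h.behr' x Z' Z hx' hne.symm hx (by omega)).2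
    exact ⟨b5, b1, b2, b4⟩

private theorem Q3_tri (h : TW Y τ) (x y w U V W : Y) (hV : V ∈ Bad τ x y w) (hUV : U ≠ V)
    (hWV : W ≠ V) (a1 : |τ V x U| ≤ 4) (a2 : |τ V w U| < 60) (a3 : |τ V y W| ≤ 4)
    (a4 : |τ V w W| < 60) : False := by
  have hL := bad_large h x y w V hV
  obtain ⟨hx, hy, hw, _, _, _, _⟩ := hV
  have c1 := h.coc V x U w hx hUV hw
  have c2 := h.coc V y W w hy hWV hw
  have c3 := h.coc V x w y hx hw hy
  have s1 := h.abs_symm V U w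
  have s2 := h.abs_symm V W w
  have s3 := h.abs_symm V w y
  have tri : ∀ a b c : ℤ, |a| ≤ |a - b - c| + |b| + |c| := by
    intro a b c
    have := abs_add_three (a - b - c) b c
    have e : a - b - c + b + c = a := by ring
    rwa [e] at this
  have t1 := tri (τ V x w) (τ V x U) (τ V U w)
  have t2 := tri (τ V y w) (τ V y W) (τ V W w)
  have t3 := tri (τ V x y) (τ V x w) (τ V w y)
  omega

/-- PROOF: write `Z → Z'` for the first alternative of `bad_pair` (`Z` is closer to `x`); the second one is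
`Z' → Z`. Among three distinct elements there are always `U → V → W` (a tournament on three
vertices; check the 8 cases). At `V`: `U → V` gives `|τ V x U| ≤ 4`, `|τ V w U| < 60`, so
`|τ V x w| < 4 + 60 + 8 = 72`, i.e. `≤ 71`; `V → W` gives `|τ V y W| ≤ 4`, `|τ V w W| < 60`, so
`|τ V y w| ≤ 71`. So `|τ V x y| ≤ 71 + 71 + 8 = 150 < 152`, against `bad_large`. -/
theorem bad_three (h : TW Y τ) (x y w Z₁ Z₂ Z₃ : Y) (h1 : Z₁ ∈ Bad τ x y w)
    (h2 : Z₂ ∈ Bad τ x y w) (h3 : Z₃ ∈ Bad τ x y w) : Z₁ = Z₂ ∨ Z₁ = Z₃ ∨ Z₂ = Z₃ := by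
  by_contra hcon
  push Not at hcon
  obtain ⟨n12, n13, n23⟩ := hcon
  rcases bad_pair h x y w Z₁ Z₂ h1 h2 n12 with d12 | d21
  · rcases bad_pair h x y w Z₁ Z₃ h1 h3 n13 with d13 | d31
    · rcases bad_pair h x y w Z₂ Z₃ h2 h3 n23 with d23 | d32
      · exact Q3_tri h x y w Z₁ Z₂ Z₃ h2 n12 n23.symm d12.1 d12.2.1 d23.2.2.1 d23.2.2.2
      · exact Q3_tri h x y w Z₁ Z₃ Z₂ h3 n13 n23 d13.1 d13.2.1 d32.2.2.1 d32.2.2.2
    · exact Q3_tri h x y w Z₃ Z₁ Z₂ h1 n13.symm n12.symm d31.1 d31.2.1 d12.2.2.1 d12.2.2.2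
  · rcases bad_pair h x y w Z₁ Z₃ h1 h3 n13 with d13 | d31
    · exact Q3_tri h x y w Z₂ Z₁ Z₃ h1 n12.symm n13.symm d21.1 d21.2.1 d13.2.2.1 d13.2.2.2
    · rcases bad_pair h x y w Z₂ Z₃ h2 h3 n23 with d23 | d32
      · exact Q3_tri h x y w Z₂ Z₃ Z₁ h3 n23 n13 d23.1 d23.2.1 d31.2.2.1 d31.2.2.2
      · exact Q3_tri h x y w Z₃ Z₂ Z₁ h2 n23.symm n12 d32.1 d32.2.1 d21.2.2.1 d21.2.2.2

/-- PROOF: `bad_three` and `Finset.two_lt_card`. -/
theorem bad_card (h : TW Y τ) (x y w : Y) (F : Finset Y) (hF : ∀ Z ∈ F, Z ∈ Bad τ x y w) :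
    F.card ≤ 2 := by
  by_contra hcon
  push Not at hcon
  obtain ⟨a, ha, b, hb, c, hc, hab, hac, hbc⟩ := Finset.two_lt_card.1 hcon
  rcases bad_three h x y w a b c (hF a ha) (hF b hb) (hF c hc) with e | e | e
  · exact hab e
  · exact hac e
  · exact hbc e

end Pool.Agent.Lib.MP_6a1159_al.BS
end

section

/-! S6: elements which cross the wall `⟨c⟩` translate it monotonically. -/

set_option autoImplicit false

open Filter

namespace Pool.Agent.Lib.MP_6a1159_al.BS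

namespace Spl

variable {P : Type} [Group P] (S : Spl P)

/-- PROOF: `NC v` by `NC_of_eps` (`eps v = -1`); `v ∉ ⟨c⟩`. By `E_spec` (with `g = 1`) for all large
`m : ℕ`: `chi (v ^ m) = 0` and `chi (v⁻¹ ^ m) = 1`. Use `nested v`: for all `x`,
`chi x = chi v ∨ chi (v⁻¹ * x) = chi v⁻¹`.
(i) `x = v⁻¹ ^ m` with `m` large: `1 = chi v` or `1 = chi v⁻¹`.
(ii) `x = v ^ m`, `v⁻¹ * x = v ^ (m-1)`, `m` large: `0 = chi v` or `0 = chi v⁻¹`.
So `{chi v, chi v⁻¹} = {0, 1}`. Suppose `chi v = 1`, `chi v⁻¹ = 0`: then for all `x`, `chi x = 1` or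
`chi (v⁻¹ * x) = 0`, so `chi x = 0` implies `chi (v⁻¹ * x) = 0`, and starting from `x = v ^ m`
(large `m`) and multiplying by `v⁻¹` repeatedly `chi (v ^ m * v⁻¹ ^ j) = 0` for all `j`, against
`chi (v⁻¹ ^ m') = 1` for large `m'`. So `chi v = 0`, `chi v⁻¹ = 1`, and `nested v` says: `chi x = 0`
or `chi (v⁻¹ * x) = 1`. -/
theorem mono (v : P) (h1 : S.E v = 0) (h2 : S.E v⁻¹ = 1) : S.chi v = 0 ∧ S.chi v⁻¹ = 1 ∧
    ∀ g, S.chi g = 1 → S.chi (v⁻¹ * g) = 1 := by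
  have hNC : S.NC v := by
    apply NC_of_eps
    unfold eps
    rw [h1, h2]
    norm_num
  have hv : v ∉ Subgroup.zpowers S.c := by
    have := hNC 1 one_ne_zero
    rwa [zpow_one] at this
  obtain ⟨K1, hK1⟩ := eventually_atTop.1 (E_spec S v hNC 1)
  obtain ⟨K2, hK2⟩ := eventually_atTop.1 (E_spec S v⁻¹ ((NC_inv S v).2 hNC) 1)
  have hK1' : ∀ k, K1 ≤ k → S.chi (v ^ k) = 0 := by
    intro k hk
    have := hK1 k hk
    rwa [mul_one, h1] at this
  have hK2' : ∀ k, K2 ≤ k → S.chi (v⁻¹ ^ k) = 1 := by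
    intro k hk
    have := hK2 k hk
    rwa [mul_one, h2] at this
  have e1 : (1 : ℤ) = S.chi v ∨ (1 : ℤ) = S.chi v⁻¹ := by
    have h3 := nested S v hv (v⁻¹ ^ K2)
    rw [← pow_succ' v⁻¹ K2, hK2' K2 le_rfl, hK2' (K2 + 1) (by omega)] at h3
    exact h3
  have e2 : (0 : ℤ) = S.chi v ∨ (0 : ℤ) = S.chi v⁻¹ := by
    have h3 := nested S v hv (v ^ (K1 + 1))
    have h4 : v⁻¹ * v ^ (K1 + 1) = v ^ K1 := by
      rw [pow_succ', inv_mul_cancel_left]
    rw [h4, hK1' K1 le_rfl, hK1' (K1 + 1) (by omega)] at h3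
    exact h3
  have e3 : S.chi v = 0 ∧ S.chi v⁻¹ = 1 := by
    by_contra hcon
    have h3 : S.chi v = 1 ∧ S.chi v⁻¹ = 0 := by
      rcases e1 with e1 | e1 <;> rcases e2 with e2 | e2
      · omega
      · exact ⟨e1.symm, e2.symm⟩
      · exact absurd ⟨e2.symm, e1.symm⟩ hcon
      · omega
    have h4 : ∀ j : ℕ, S.chi (v⁻¹ ^ j * v ^ K1) = 0 := by
      intro j
      induction j with
      | zero =>
        rw [pow_zero, one_mul]
        exact hK1' K1 le_rfl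
      | succ j ih =>
        rcases nested S v hv (v⁻¹ ^ j * v ^ K1) with h5 | h5
        · rw [h3.1, ih] at h5
          exact absurd h5 (by norm_num)
        · rw [pow_succ', mul_assoc, h5]
          exact h3.2
    have h5 := h4 (K2 + K1)
    have h6 : v⁻¹ ^ (K2 + K1) * v ^ K1 = v⁻¹ ^ K2 := by
      rw [pow_add, mul_assoc, inv_pow v K1, inv_mul_cancel, mul_one]
    rw [h6, hK2' K2 le_rfl] at h5
    exact absurd h5 (by norm_num)
  refine ⟨e3.1, e3.2, fun g hg => ?_⟩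
  rcases nested S v hv g with h3 | h3
  · rw [hg, e3.1] at h3
    exact absurd h3 (by norm_num)
  · rw [h3]
    exact e3.2

/-- PROOF: `chi (v⁻¹ ^ m) = 1` by induction from `chi v⁻¹ = 1` and the third part of `mono`. If
`chi (v ^ m) = 1` for some `m ≥ 1` then multiplying by `v⁻¹` `m - 1` times gives `chi v = 1`. Use
`chi_01`. -/
theorem mono_pow (v : P) (h1 : S.E v = 0) (h2 : S.E v⁻¹ = 1) (m : ℕ) (hm : 0 < m) :
    S.chi (v ^ m) = 0 ∧ S.chi (v⁻¹ ^ m) = 1 := by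
  obtain ⟨a, b, hc⟩ := mono S v h1 h2
  obtain ⟨n, rfl⟩ : ∃ n, m = n + 1 := ⟨m - 1, by omega⟩
  constructor
  · induction n with
    | zero =>
      rw [zero_add, pow_one]
      exact a
    | succ n ih =>
      rcases chi_01 S (v ^ (n + 1 + 1)) with h3 | h3
      · exact h3
      · have h4 := hc _ h3
        rw [pow_succ' v (n + 1), inv_mul_cancel_left, ih (by omega)] at h4
        exact absurd h4 (by norm_num)
  · induction n with
    | zero =>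
      rw [zero_add, pow_one]
      exact b
    | succ n ih =>
      rw [pow_succ' v⁻¹ (n + 1)]
      exact hc _ (ih (by omega))

/-- PROOF: apply `mono` to `v⁻¹`: `chi v⁻¹ = 0`, `chi v = 1` and `chi g = 1 → chi (v * g) = 1`; the
last one at `v⁻¹ * g`, contrapositive, with `chi_01`. -/
theorem mono' (v : P) (h1 : S.E v = 1) (h2 : S.E v⁻¹ = 0) : S.chi v = 1 ∧ S.chi v⁻¹ = 0 ∧
    ∀ g, S.chi g = 0 → S.chi (v⁻¹ * g) = 0 := by
  obtain ⟨a, b, hc⟩ := mono S v⁻¹ h2 (by rw [inv_inv]; exact h1)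
  rw [inv_inv] at b
  refine ⟨b, a, fun g hg => ?_⟩
  rcases chi_01 S (v⁻¹ * g) with h3 | h3
  · exact h3
  · have h4 := hc _ h3
    rw [inv_inv, mul_inv_cancel_left, hg] at h4
    exact absurd h4 (by norm_num)

/-- PROOF: `mono_pow` for `v⁻¹`. -/
theorem mono_pow' (v : P) (h1 : S.E v = 1) (h2 : S.E v⁻¹ = 0) (m : ℕ) (hm : 0 < m) :
    S.chi (v ^ m) = 1 ∧ S.chi (v⁻¹ ^ m) = 0 := by
  obtain ⟨a, b⟩ := mono_pow S v⁻¹ h2 (by rw [inv_inv]; exact h1) m hm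
  rw [inv_inv] at b
  exact ⟨b, a⟩

/-- The sides of an end `y` with respect to the walls `v ^ n ⟨c⟩` are monotone. PROOF: by `E_spec'`
(with `p = v ^ n`, `g = 1`) the number `E (v ^ (-n) * y * v ^ n)` is the eventual value of
`chi (v ^ (-n) * y ^ k)`, and the same for `n + 1`; `v ^ (-(n+1)) * y ^ k = v⁻¹ * (v ^ (-n) * y ^ k)`
and the third part of `mono`. -/
theorem mono_E (v y : P) (h1 : S.E v = 0) (h2 : S.E v⁻¹ = 1) (n : ℤ)
    (hn : S.NC (v ^ (-n) * y * v ^ n)) (hn' : S.NC (v ^ (-(n + 1)) * y * v ^ (n + 1)))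
    (h : S.E (v ^ (-n) * y * v ^ n) = 1) : S.E (v ^ (-(n + 1)) * y * v ^ (n + 1)) = 1 := by
  obtain ⟨_, _, hc⟩ := mono S v h1 h2
  rw [zpow_neg] at hn hn' h ⊢
  have e1 := E_spec' S (v ^ n) y hn 1
  have e2 := E_spec' S (v ^ (n + 1)) y hn' 1
  obtain ⟨k, hk1, hk2⟩ := (e1.and e2).exists
  rw [h] at hk1
  have h3 := hc _ hk1
  have h4 : v⁻¹ * ((v ^ n)⁻¹ * y ^ k * 1) = (v ^ (n + 1))⁻¹ * y ^ k * 1 := by
    rw [zpow_add_one, mul_inv_rev]
    group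
  rw [h4, hk2] at h3
  exact h3

end Spl

end Pool.Agent.Lib.MP_6a1159_al.BS
end

section

/-! S7: the translates of a wall by a hyperbolic element leave every end behind. -/

set_option autoImplicit false

open Filter

namespace Pool.Agent.Lib.MP_6a1159_al.BS

namespace Spl

variable {P : Type} [Group P] (S : Spl P)

private theorem S7_alg (v y s : P) (n₁ n₂ k₁ k₂ : ℕ) (i₁ i₂ : ℤ) (hn : n₁ < n₂)
    (h1 : v⁻¹ ^ n₁ * y ^ k₁ = S.c ^ i₁ * s) (h2 : v⁻¹ ^ n₂ * y ^ k₂ = S.c ^ i₂ * s) :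
    y ^ ((k₂ : ℤ) - k₁) = v ^ n₂ * S.c ^ (i₂ - i₁) * (v ^ n₁)⁻¹ := by
  have e1 : y ^ k₁ = v ^ n₁ * (S.c ^ i₁ * s) := by
    rw [← h1, inv_pow]; group
  have e2 : y ^ k₂ = v ^ n₂ * (S.c ^ i₂ * s) := by
    rw [← h2, inv_pow]; group
  rw [zpow_sub, zpow_natCast, zpow_natCast, e1, e2, zpow_sub]
  group

private theorem S7_alg2 (v y s : P) (n₁ n₂ k₁ k₂ : ℕ) (i₁ i₂ : ℤ) (hn : n₁ < n₂)
    (h1 : v⁻¹ ^ n₁ * y ^ k₁ = S.c ^ i₁ * s) (h2 : v⁻¹ ^ n₂ * y ^ k₂ = S.c ^ i₂ * s) :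
    ((v ^ n₁)⁻¹ * y * v ^ n₁) ^ ((k₂ : ℤ) - k₁) = v ^ (n₂ - n₁) * S.c ^ (i₂ - i₁) := by
  have h := S7_alg S v y s n₁ n₂ k₁ k₂ i₁ i₂ hn h1 h2
  have h3 : ((v ^ n₁)⁻¹ * y * v ^ n₁) ^ ((k₂ : ℤ) - k₁)
      = (v ^ n₁)⁻¹ * y ^ ((k₂ : ℤ) - k₁) * v ^ n₁ := by
    have := conj_zpow (i := (k₂ : ℤ) - k₁) (a := (v ^ n₁)⁻¹) (b := y)
    rw [inv_inv] at this
    exact this
  have h4 : v ^ n₂ = v ^ n₁ * v ^ (n₂ - n₁) := by
    rw [← pow_add]; congr 1; omega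
  rw [h3, h, h4]
  group

/-- PROOF: let `q := E v⁻¹`. By `mono_pow` or `mono_pow'` (`eps v ≠ 0` means `E v ≠ E v⁻¹`,
`E_01`) for all `n ≥ 1`: `chi (v⁻¹ ^ n) = q` and `chi (v ^ n) ≠ q`, and the same with the roles
exchanged. Suppose the claim is false: then there is an infinite set `I ⊆ ℕ` of `n ≥ 1` with
`E (v⁻¹ ^ n * y * v ^ n) ≠ q`. For `n ∈ I`: `chi (v⁻¹ ^ n * y ^ 0) = q`, but
`chi (v⁻¹ ^ n * y ^ k) ≠ q` for all large `k` (`E_spec'` with `p = v ^ n`, `u = y`, `g = 1`); so there is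
`k ≥ 0` with `chi (v⁻¹ ^ n * y ^ k * y) ≠ chi (v⁻¹ ^ n * y ^ k)`, and by `fin y`
`v⁻¹ ^ n * y ^ k = c ^ i * s` with `s` in a finite set `F` which depends only on `y`. Pigeonhole
(`Set.Infinite`, `F` finite): there are `n₁ < n₂ < n₃` in `I` with the same `s`:
`v⁻¹ ^ nⱼ * y ^ kⱼ = c ^ iⱼ * s`. Then
`y ^ (k₂ - k₁) = v ^ n₂ * c ^ (i₂ - i₁) * v⁻¹ ^ n₁` (integer exponents), and with
`w := v⁻¹ ^ n₁ * y * v ^ n₁`:
`w ^ (k₂ - k₁) = v ^ (n₂ - n₁) * c ^ (i₂ - i₁)`, `w ^ (k₃ - k₁) = v ^ (n₃ - n₁) * c ^ (i₃ - i₁)`.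
`com` (with `y := v`, `u := w`, `q := E v`, `K := n₂ - n₁`, `K' := n₃ - n₁`) gives `i₂ - i₁ = 0`, so
`w ^ (k₂ - k₁) = v ^ (n₂ - n₁)` and, conjugating by `v ^ n₁`, `y ^ (k₂ - k₁) = v ^ (n₂ - n₁)` with
`n₂ - n₁ ≠ 0`, against `hc`. -/
theorem arch (v y : P) (hv : S.eps v ≠ 0) (hy : ∀ n : ℕ, S.NC (v⁻¹ ^ n * y * v ^ n))
    (hc : ∀ K N : ℤ, N ≠ 0 → y ^ K ≠ v ^ N) :
    ∀ᶠ n : ℕ in atTop, S.E (v⁻¹ ^ n * y * v ^ n) = S.E v⁻¹ := by
  have hEne : S.E v ≠ S.E v⁻¹ := by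
    intro h
    apply hv
    unfold Spl.eps
    rw [h]; ring
  have hkey : ∀ m : ℕ, 0 < m → S.chi (v ^ m) = S.E v ∧ S.chi (v⁻¹ ^ m) = S.E v⁻¹ := by
    intro m hm
    rcases S.E_01 v with h1 | h1
    · have h2 : S.E v⁻¹ = 1 := by
        rcases S.E_01 v⁻¹ with h2 | h2
        · exact absurd (h1.trans h2.symm) hEne
        · exact h2
      obtain ⟨h3, h4⟩ := S.mono_pow v h1 h2 m hm
      exact ⟨h3.trans h1.symm, h4.trans h2.symm⟩
    · have h2 : S.E v⁻¹ = 0 := by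
        rcases S.E_01 v⁻¹ with h2 | h2
        · exact h2
        · exact absurd (h1.trans h2.symm) hEne
      obtain ⟨h3, h4⟩ := S.mono_pow' v h1 h2 m hm
      exact ⟨h3.trans h1.symm, h4.trans h2.symm⟩
  by_contra hcon
  rw [Filter.not_eventually, Nat.frequently_atTop_iff_infinite] at hcon
  obtain ⟨F, hF⟩ := S.fin y
  have hstep : ∀ n : ℕ, 0 < n → S.E (v⁻¹ ^ n * y * v ^ n) ≠ S.E v⁻¹ →
      ∃ s ∈ F, ∃ k : ℕ, ∃ i : ℤ, v⁻¹ ^ n * y ^ k = S.c ^ i * s := by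
    intro n hn hne
    have hNC : S.NC ((v ^ n)⁻¹ * y * v ^ n) := by
      have := hy n
      rwa [inv_pow] at this
    have hev := S.E_spec' (v ^ n) y hNC 1
    obtain ⟨k, hk⟩ := hev.exists
    have hk' : S.chi (v⁻¹ ^ n * y ^ k) ≠ S.E v⁻¹ := by
      intro h
      apply hne
      rw [inv_pow] at h ⊢
      rw [← hk, mul_one]
      exact h
    have hex : ∃ k : ℕ, S.chi (v⁻¹ ^ n * y ^ k * y) ≠ S.chi (v⁻¹ ^ n * y ^ k) := by
      by_contra hno
      push Not at hno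
      have hall : ∀ k : ℕ, S.chi (v⁻¹ ^ n * y ^ k) = S.E v⁻¹ := by
        intro k
        induction k with
        | zero => rw [pow_zero, mul_one]; exact (hkey n hn).2
        | succ k ih => rw [pow_succ, ← mul_assoc, hno k]; exact ih
      exact hk' (hall k)
    obtain ⟨k, hk2⟩ := hex
    obtain ⟨s, hs, i, hi⟩ := hF _ hk2
    exact ⟨s, hs, k, i, hi⟩
  have hinf : ∃ s ∈ F, {n : ℕ | 0 < n ∧ ∃ k : ℕ, ∃ i : ℤ, v⁻¹ ^ n * y ^ k = S.c ^ i * s}.Infinite := by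
    by_contra hno
    push Not at hno
    have hfin : (⋃ s ∈ F, {n : ℕ | 0 < n ∧ ∃ k : ℕ, ∃ i : ℤ,
        v⁻¹ ^ n * y ^ k = S.c ^ i * s}).Finite :=
      Set.Finite.biUnion F.finite_toSet fun s hs => Set.not_infinite.1 (by
        intro h
        exact absurd h (by simpa using hno s hs))
    apply hcon
    refine (hfin.union (Set.finite_singleton 0)).subset ?_
    intro n hn
    rcases Nat.eq_zero_or_pos n with h0 | h0
    · exact Or.inr h0
    · left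
      obtain ⟨s, hs, k, i, h⟩ := hstep n h0 hn
      exact Set.mem_biUnion hs ⟨h0, k, i, h⟩
  obtain ⟨s, -, hJ⟩ := hinf
  obtain ⟨n₁, ⟨hn1, k₁, i₁, e1⟩, -⟩ := hJ.exists_gt 0
  obtain ⟨n₂, ⟨-, k₂, i₂, e2⟩, h12⟩ := hJ.exists_gt n₁
  obtain ⟨n₃, ⟨-, k₃, i₃, e3⟩, h23⟩ := hJ.exists_gt n₂
  have hw2 := S7_alg2 S v y s n₁ n₂ k₁ k₂ i₁ i₂ h12 e1 e2
  have hw3 := S7_alg2 S v y s n₁ n₃ k₁ k₃ i₁ i₃ (h12.trans h23) e1 e3
  have hi := S.com v ((v ^ n₁)⁻¹ * y * v ^ n₁) (S.E v)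
    (fun m hm => ⟨(hkey m hm).1, fun h => hEne (h.symm.trans (hkey m hm).2)⟩)
    _ _ _ _ (n₂ - n₁) (n₃ - n₁) (by omega) (by omega) hw2 hw3
  have hfinal := S7_alg S v y s n₁ n₂ k₁ k₂ i₁ i₂ h12 e1 e2
  rw [hi, zpow_zero, mul_one] at hfinal
  apply hc ((k₂ : ℤ) - k₁) ((n₂ : ℤ) - n₁) (by omega)
  rw [hfinal, zpow_sub, zpow_natCast, zpow_natCast]

end Spl

end Pool.Agent.Lib.MP_6a1159_al.BS
end
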