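import Pool.Agent.Lib.MP_6a1159_al.Mg.G001
import Pool.Agent.Lib.MP_6a1159_al.Mg.G002
import Pool.Agent.Lib.MP_6a1159_al.Mg.G004
import Pool.Agent.Lib.MP_6a1159_al.Mg.G006

section

/-! K2: the side function of the balanced splitting. -/

set_option autoImplicit false

namespace Pool.Agent.Lib.MP_6a1159_al.BS

private abbrev Wr (P : Type) [Group P] : Type :=
  SemidirectProduct (P → Multiplicative ℤ) P (mulAutArrow (A := P) (G := P))

private theorem phi_apply {P : Type} [Group P] (g : P) (m : P → Multiplicative ℤ) (x : P) :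
    (mulAutArrow (A := P) (G := P) g m) x = m (g⁻¹ * x) := rfl

open Classical in
/-- the images of the generators -/
private noncomputable def gen2 {ι : Type} (L : List ι) (Q : ι → Prop)
    (z : SG L → Multiplicative ℤ) (x : ι × Bool) : Wr (SG L) :=
  if Q x.1 then SemidirectProduct.inr (proj L (FreeGroup.of x))
  else SemidirectProduct.inl z * SemidirectProduct.inr (proj L (FreeGroup.of x)) *
    (SemidirectProduct.inl z)⁻¹

private theorem gen2_A {ι : Type} (L : List ι) (Q : ι → Prop) (z : SG L → Multiplicative ℤ)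
    (T : List ι) (hT : ∀ i ∈ T, Q i) :
    FreeGroup.lift (gen2 L Q z) (relator T) = SemidirectProduct.inr (proj L (relator T)) := by
  have h := relator_congr (FreeGroup.lift (gen2 L Q z))
    ((SemidirectProduct.inr : SG L →* Wr (SG L)).comp (proj L)) T (fun j hj => by
      constructor
      · simp [fa, gen2, hT j hj]
      · simp [fb, gen2, hT j hj])
  exact h

private theorem gen2_B {ι : Type} (L : List ι) (Q : ι → Prop) (z : SG L → Multiplicative ℤ)
    (T : List ι) (hT : ∀ i ∈ T, ¬ Q i) :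
    FreeGroup.lift (gen2 L Q z) (relator T) = SemidirectProduct.inl z *
      SemidirectProduct.inr (proj L (relator T)) * (SemidirectProduct.inl z)⁻¹ := by
  have h := relator_congr (FreeGroup.lift (gen2 L Q z))
    ((MulAut.conj (SemidirectProduct.inl z : Wr (SG L))).toMonoidHom.comp
      ((SemidirectProduct.inr : SG L →* Wr (SG L)).comp (proj L))) T (fun j hj => by
      constructor
      · simp [fa, gen2, hT j hj]
      · simp [fb, gen2, hT j hj])
  exact h

/-- PROOF: let `P := SG (LL n)`, `Z := zpowers (cc n)`, `M := P → ℤ` with the action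
`(φ w m) x := m ((proj w)⁻¹ * x)` of the free group, and `z : M`, `z x := ind (x ∈ Z)`. Let `D` be the
derivation (`exists_deriv`) with `D (of (i, s)) = 0` if `i.val < n` and
`D (of (i, s)) = z - φ (of (i, s)) z` if `n ≤ i.val`. On the subgroup `H_A` of the free group
generated by the letters with `i.val < n` we have `D w = 0`, and on the subgroup `H_B` generated by
the letters with `n ≤ i.val` we have `D w = z - φ w z` (`Subgroup.closure_induction`; both sides are
derivations). The relator is `r = c̃ * c̃'` with `c̃ = relator (take n) ∈ H_A`,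
`c̃' = relator (drop n) ∈ H_B` (`relator_append`), so `D r = φ c̃ (z - φ c̃' z) = 0`, because
`proj c̃ = cc n`, `proj c̃' = (cc n)⁻¹` (`cc_inv`) and `z (cc ^ (±1) * x) = z x`. Hence
`D (w * r * w⁻¹) = 0` for all `w` (as `φ r = 1`; `D w⁻¹ = - φ w⁻¹ (D w)`), `D` vanishes on the normal
closure of `r`, and `D` factors through `P`: `D (u * v) = D u + φ u (D v)` shows that `D u` only depends on
`proj u`. So there is `D' : P → M` with `D' (g * h) x = D' g x + D' h (g⁻¹ * x)`, `D' = 0` on `subA n` and
`D' b x = ind (x ∈ Z) - ind (b⁻¹ * x ∈ Z)` on `subB n`. Let `chi g := D' g 1`.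
`chi (g * a) = chi g + D' a g⁻¹ = chi g`. For `b ∈ subB n`:
`chi (g * b) = chi g + ind (g⁻¹ ∈ Z) - ind (b⁻¹ * g⁻¹ ∈ Z) = chi g + ind (g ∈ Z) - ind (g * b ∈ Z)`.
`chi (c * g) = D' c 1 + D' g c⁻¹ = D' g c⁻¹` (`c ∈ subA n`, so `D' c = 0`). It remains to see that
`D' g c⁻¹ = D' g 1`: use induction for `g` along right multiplications by elements of `subA n` and
`subB n` (`gen_AB`, as in `Spl.ind`): `D' (g * h) x = D' g x + D' h (g⁻¹ * x)`, the increments at
`x = c⁻¹` and at `x = 1` are equal: both `0` for `h = a ∈ subA n`, and for `h = b ∈ subB n`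
`ind (g⁻¹ * c⁻¹ ∈ Z) - ind (b⁻¹ * g⁻¹ * c⁻¹ ∈ Z) = ind (g⁻¹ ∈ Z) - ind (b⁻¹ * g⁻¹ ∈ Z)` as `c⁻¹ ∈ Z`. -/
theorem exists_chi (n : ℕ) : ∃ chi : SG (LL n) → ℤ, chi 1 = 0 ∧
    (∀ g, chi (cc n * g) = chi g) ∧ (∀ g, ∀ a ∈ subA n, chi (g * a) = chi g) ∧
    (∀ g, ∀ b ∈ subB n, chi (g * b) = chi g + ind (g ∈ Subgroup.zpowers (cc n)) -
      ind (g * b ∈ Subgroup.zpowers (cc n))) := by
  classical
  set Z : Subgroup (SG (LL n)) := Subgroup.zpowers (cc n) with hZ
  set z : SG (LL n) → Multiplicative ℤ := fun x => Multiplicative.ofAdd (ind (x ∈ Z)) with hz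
  set F : Fin (n + n) × Bool → Wr (SG (LL n)) := gen2 (LL n) (fun i => i.val < n) z with hF
  have hccZ : cc n ∈ Z := Subgroup.mem_zpowers _
  have hzc : mulAutArrow (A := SG (LL n)) (G := SG (LL n)) (cc n) z = z := by
    funext x
    rw [phi_apply]
    have : ((cc n)⁻¹ * x ∈ Z) = (x ∈ Z) :=
      propext (Subgroup.mul_mem_cancel_left Z (Z.inv_mem hccZ))
    simp only [hz, this]
  have hcomm : (SemidirectProduct.inr (cc n) : Wr (SG (LL n))) * SemidirectProduct.inl z =
      SemidirectProduct.inl z * SemidirectProduct.inr (cc n) := by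
    have := SemidirectProduct.inl_aut (φ := mulAutArrow (A := SG (LL n)) (G := SG (LL n)))
      (cc n) z
    rw [hzc, map_inv, eq_mul_inv_iff_mul_eq] at this
    exact this.symm
  have htake : ∀ i ∈ (LL n).take n, i.val < n := by
    intro i hi
    obtain ⟨k, hk, rfl⟩ := List.mem_iff_getElem.1 hi
    simp at hk ⊢
    omega
  have hdrop : ∀ i ∈ (LL n).drop n, ¬ i.val < n := by
    intro i hi
    obtain ⟨k, hk, rfl⟩ := List.mem_iff_getElem.1 hi
    simp
  have hrel : ∀ r ∈ ({relator (LL n)} : Set (FreeGroup (Fin (n + n) × Bool))),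
      FreeGroup.lift F r = 1 := by
    intro r hr
    rw [Set.mem_singleton_iff] at hr
    subst hr
    have h1 : FreeGroup.lift F (relator (LL n)) =
        FreeGroup.lift F (relator ((LL n).take n)) * FreeGroup.lift F (relator ((LL n).drop n)) := by
      rw [← map_mul, ← relator_append, List.take_append_drop]
    rw [h1, hF, gen2_A _ _ _ _ htake, gen2_B _ _ _ _ hdrop, ← cc_inv]
    change (SemidirectProduct.inr (cc n) : Wr (SG (LL n))) * _ = 1
    rw [← mul_assoc, ← mul_assoc, hcomm, map_inv]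
    group
  let Θ : SG (LL n) →* Wr (SG (LL n)) := PresentedGroup.toGroup hrel
  have hof : ∀ x, Θ (proj (LL n) (FreeGroup.of x)) = F x := fun x => PresentedGroup.toGroup.of hrel
  have hright : ∀ g, (Θ g).right = g := by
    have : (SemidirectProduct.rightHom.comp Θ) = MonoidHom.id (SG (LL n)) := by
      apply PresentedGroup.ext
      intro x
      change (Θ (proj (LL n) (FreeGroup.of x))).right = _
      rw [hof, hF]
      unfold gen2
      split_ifs
      · simp only [SemidirectProduct.right_inr]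
        rfl
      · simp only [SemidirectProduct.mul_right, SemidirectProduct.right_inl,
          SemidirectProduct.right_inr, SemidirectProduct.inv_right, one_mul, mul_one, inv_one]
        rfl
    intro g
    exact DFunLike.congr_fun this g
  have hA : ∀ a ∈ subA n, Θ a = SemidirectProduct.inr a := by
    intro a ha
    refine MonoidHom.eqOn_closure (f := Θ) (g := SemidirectProduct.inr) ?_ ha
    rintro x ⟨i, hi, rfl | rfl⟩
    · change Θ (proj (LL n) (FreeGroup.of (i, false))) = _
      rw [hof, hF]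
      simp [gen2, hi, ga, fa]
    · change Θ (proj (LL n) (FreeGroup.of (i, true))) = _
      rw [hof, hF]
      simp [gen2, hi, gb, fb]
  have hB : ∀ b ∈ subB n, Θ b = SemidirectProduct.inl z * SemidirectProduct.inr b *
      (SemidirectProduct.inl z)⁻¹ := by
    intro b hb
    refine MonoidHom.eqOn_closure (f := Θ) (g := (MulAut.conj (SemidirectProduct.inl z :
      Wr (SG (LL n)))).toMonoidHom.comp SemidirectProduct.inr) ?_ hb
    rintro x ⟨i, hi, rfl | rfl⟩
    · change Θ (proj (LL n) (FreeGroup.of (i, false))) = _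
      rw [hof, hF]
      simp [gen2, not_lt.2 hi, ga, fa]
    · change Θ (proj (LL n) (FreeGroup.of (i, true))) = _
      rw [hof, hF]
      simp [gen2, not_lt.2 hi, gb, fb]
  have hmul : ∀ g h x, (Θ (g * h)).left x = (Θ g).left x * (Θ h).left (g⁻¹ * x) := by
    intro g h x
    rw [map_mul, SemidirectProduct.mul_left, hright]
    rfl
  have hAl : ∀ a ∈ subA n, ∀ x, (Θ a).left x = 1 := by
    intro a ha x
    rw [hA a ha]
    simp
  have hBl : ∀ b ∈ subB n, ∀ x, (Θ b).left x = z x * (z (b⁻¹ * x))⁻¹ := by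
    intro b hb x
    rw [hB b hb]
    simp only [SemidirectProduct.mul_left, SemidirectProduct.left_inl,
      SemidirectProduct.right_inl, SemidirectProduct.left_inr, SemidirectProduct.right_inr,
      SemidirectProduct.inv_left, SemidirectProduct.mul_right, map_one, mul_one, one_mul,
      inv_one, MulAut.one_apply, Pi.mul_apply, map_inv, Pi.inv_apply]
    rfl
  have hone : (Θ 1).left 1 = 1 := by simp
  have hkey : ∀ g, (Θ g).left (cc n)⁻¹ = (Θ g).left 1 := by
    have hcl : ∀ g : SG (LL n), g ∈ Subgroup.closure ((subA n : Set (SG (LL n))) ∪ subB n) := by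
      intro g
      rw [← Subgroup.sup_eq_closure, gen_AB]
      exact Subgroup.mem_top g
    have hstep : ∀ g, ∀ y ∈ ((subA n : Set (SG (LL n))) ∪ subB n),
        (Θ g).left (cc n)⁻¹ = (Θ g).left 1 →
        (Θ (g * y)).left (cc n)⁻¹ = (Θ (g * y)).left 1 := by
      rintro g y (hy | hy) h
      · rw [hmul, hmul, h, hAl y hy, hAl y hy]
      · rw [hmul, hmul, h, hBl y hy, hBl y hy]
        have e1 : (g⁻¹ * (cc n)⁻¹ ∈ Z) = (g⁻¹ * 1 ∈ Z) := by
          rw [mul_one]
          exact propext (Subgroup.mul_mem_cancel_right Z (Z.inv_mem hccZ))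
        have e2 : (y⁻¹ * (g⁻¹ * (cc n)⁻¹) ∈ Z) = (y⁻¹ * (g⁻¹ * 1) ∈ Z) := by
          rw [mul_one, ← mul_assoc]
          exact propext (Subgroup.mul_mem_cancel_right Z (Z.inv_mem hccZ))
        simp only [hz, e1, e2]
    intro g
    refine Subgroup.closure_induction_right (p := fun g _ => (Θ g).left (cc n)⁻¹ = (Θ g).left 1)
      ?_ ?_ ?_ (hcl g)
    · simp
    · intro x _ y hy h
      exact hstep x y hy h
    · intro x _ y hy h
      refine hstep x y⁻¹ ?_ h
      rcases hy with hy | hy
      · exact Or.inl ((subA n).inv_mem hy)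
      · exact Or.inr ((subB n).inv_mem hy)
  refine ⟨fun g => Multiplicative.toAdd ((Θ g).left 1), ?_, ?_, ?_, ?_⟩
  · simp
  · intro g
    change Multiplicative.toAdd ((Θ (cc n * g)).left 1) = Multiplicative.toAdd ((Θ g).left 1)
    rw [hmul, hAl _ (cc_mem_A n), mul_one, one_mul, hkey]
  · intro g a ha
    change Multiplicative.toAdd ((Θ (g * a)).left 1) = Multiplicative.toAdd ((Θ g).left 1)
    rw [hmul, hAl a ha, mul_one]
  · intro g b hb
    change Multiplicative.toAdd ((Θ (g * b)).left 1) =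
      Multiplicative.toAdd ((Θ g).left 1) + _ - _
    rw [hmul, hBl b hb]
    have e1 : (g⁻¹ * 1 ∈ Z) = (g ∈ Z) := by
      rw [mul_one]
      exact propext (Subgroup.inv_mem_iff Z)
    have e2 : (b⁻¹ * (g⁻¹ * 1) ∈ Z) = (g * b ∈ Z) := by
      rw [mul_one, ← mul_inv_rev]
      exact propext (Subgroup.inv_mem_iff Z)
    simp only [hz, e1, e2, toAdd_mul, toAdd_inv, toAdd_ofAdd]
    ring

end Pool.Agent.Lib.MP_6a1159_al.BS
end

section

/-! K4b: see the imported files. -/
end

section

/-! K4da: relative one-endedness of the free group. -/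

set_option autoImplicit false

open Filter

namespace Pool.Agent.Lib.MP_6a1159_al.BS

private def K4da_f {n : ℕ} (i : Fin n) : List ((Fin n × Bool) × Bool) := [lA i, lB i, lA' i, lB' i]

private theorem K4da_finRange (n : ℕ) (i : Fin n) : List.finRange n =
    (List.finRange n).take i.val ++ i :: (List.finRange n).drop (i.val + 1) := by
  conv_lhs => rw [← List.take_append_drop i.val (List.finRange n)]
  have hi : i.val < (List.finRange n).length := by rw [List.length_finRange]; exact i.isLt
  rw [List.drop_eq_getElem_cons hi]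
  congr 2
  rw [List.getElem_finRange]
  exact Fin.ext rfl

private theorem K4da_drop (n : ℕ) (j : Fin n) : (List.finRange n).drop j.val =
    j :: (List.finRange n).drop (j.val + 1) := by
  have hi : j.val < (List.finRange n).length := by rw [List.length_finRange]; exact j.isLt
  rw [List.drop_eq_getElem_cons hi]
  congr 1
  rw [List.getElem_finRange]
  exact Fin.ext rfl

private theorem K4da_one (n : ℕ) (i : Fin n) : wc n =
    ((List.finRange n).take i.val).flatMap K4da_f ++ (lA i :: lB i :: lA' i :: lB' i ::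
      ((List.finRange n).drop (i.val + 1)).flatMap K4da_f) := by
  have h : wc n = (List.finRange n).flatMap K4da_f := rfl
  rw [h]
  conv_lhs => rw [K4da_finRange n i]
  rw [List.flatMap_append, List.flatMap_cons]
  rfl

private theorem K4da_two (n : ℕ) (i j : Fin n) (hij : i.val + 1 = j.val) : wc n =
    ((List.finRange n).take i.val).flatMap K4da_f ++ (lA i :: lB i :: lA' i :: lB' i ::
      lA j :: lB j :: lA' j :: lB' j ::
      ((List.finRange n).drop (j.val + 1)).flatMap K4da_f) := by
  rw [K4da_one n i, hij, K4da_drop n j, List.flatMap_cons]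
  rfl

/-- PROOF: suppose not; take `l`, `s` from `last_bad`. Apply `comb` with `R t := IsReduced (l ++ [t])`
(`hR` is `red_or`; `l` is reduced as a prefix), `Q t := ψ (mk (l ++ [t]))`, `q := ψ (mk l)`: `b1` is
`edge_first`, `b2` is `edge_last`, and `e1 … e4` are `edge` for the consecutive letters of `wc n`:
`(x, y) = (b_i, a_i⁻¹)` links `b_i⁻¹` and `a_i⁻¹` (`e2`); `(a_i, b_i)` links `a_i⁻¹` and `b_i` (`e3`);
`(a_i⁻¹, b_i⁻¹)` links `a_i` and `b_i⁻¹` (`e1`); `(b_i⁻¹, a_{i+1})` links `b_i` and `a_{i+1}` (`e4`). The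
decompositions `wc n = p ++ x :: y :: q` come from `List.finRange n = l₁ ++ i :: l₂` (and
`l₁ ++ i :: (i+1) :: l₂`). The conclusion at `t = s` contradicts the choice of `s`. -/
theorem psi_const (n : ℕ) (hn : 1 ≤ n) (ψ : FreeGroup (Fin n × Bool) → ℤ)
    (h1 : ∀ a, ψ (a * cF n) = ψ a) (h2 : ∀ s, {a | ψ (a * s) ≠ ψ a}.Finite)
    (a : FreeGroup (Fin n × Bool)) : ψ a = ψ 1 := by
  by_contra hcon
  obtain ⟨l, s, hls, hbad, hcyl⟩ := last_bad ψ h2 ⟨a, hcon⟩
  have hl : FreeGroup.IsReduced l := List.IsChain.left_of_append hls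
  apply hbad
  refine comb n hn (fun t => FreeGroup.IsReduced (l ++ [t])) (fun t t' htt => red_or l hl t t' htt)
    (fun t => ψ (FreeGroup.mk (l ++ [t]))) (ψ (FreeGroup.mk l)) ?_ ?_ ?_ ?_ ?_ ?_ s hls
  · intro hy
    exact edge_first n hn ψ h1 l hcyl hy
  · intro hy
    exact edge_last n hn ψ h1 l hcyl hy
  · -- e1 : lA i ~ lB' i ; x = lA' i, y = lB' i
    intro i ha hb
    have hw : wc n = (((List.finRange n).take i.val).flatMap K4da_f ++ [lA i, lB i]) ++
        lA' i :: lB' i :: ((List.finRange n).drop (i.val + 1)).flatMap K4da_f := by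
      rw [K4da_one n i, List.append_assoc]
      rfl
    exact (edge n ψ h1 l hcyl _ _ (lA' i) (lB' i) hw ha hb).symm
  · -- e2 : lB' i ~ lA' i ; x = lB i, y = lA' i
    intro i ha hb
    have hw : wc n = (((List.finRange n).take i.val).flatMap K4da_f ++ [lA i]) ++
        lB i :: lA' i :: (lB' i :: ((List.finRange n).drop (i.val + 1)).flatMap K4da_f) := by
      rw [K4da_one n i, List.append_assoc]
      rfl
    exact (edge n ψ h1 l hcyl _ _ (lB i) (lA' i) hw ha hb).symm
  · -- e3 : lA' i ~ lB i ; x = lA i, y = lB i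
    intro i ha hb
    have hw : wc n = ((List.finRange n).take i.val).flatMap K4da_f ++
        lA i :: lB i :: (lA' i :: lB' i :: ((List.finRange n).drop (i.val + 1)).flatMap K4da_f) := by
      rw [K4da_one n i]
    exact (edge n ψ h1 l hcyl _ _ (lA i) (lB i) hw ha hb).symm
  · -- e4 : lB i ~ lA j ; x = lB' i, y = lA j
    intro i j hij ha hb
    have hw : wc n = (((List.finRange n).take i.val).flatMap K4da_f ++ [lA i, lB i, lA' i]) ++
        lB' i :: lA j :: (lB j :: lA' j :: lB' j ::
        ((List.finRange n).drop (j.val + 1)).flatMap K4da_f) := by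
      rw [K4da_two n i j hij, List.append_assoc]
      rfl
    exact (edge n ψ h1 l hcyl _ _ (lB' i) (lA j) hw ha hb).symm

end Pool.Agent.Lib.MP_6a1159_al.BS
end

section

/-! K7ca: antisymmetry of the crossing numbers. -/

set_option autoImplicit false

open Filter

namespace Pool.Agent.Lib.MP_6a1159_al.BS

/-- PROOF: by `S.fin g`, `chi (p * g) ≠ chi p` implies `p = c ^ k * y`, `y` in a finite set; by
`S.fin (f⁻¹ h)`, `chi (f⁻¹ p * f⁻¹ h) ≠ chi (f⁻¹ p)` implies `f⁻¹ p = c ^ l * y'`, `p = (f c) ^ l * f y'`. For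
fixed `y`, `y'` there is at most one such `p`: two of them would give `c ^ (k - k') = (f c) ^ (l - l')`
with `k ≠ k'`, so `l ≠ l'` (`c_inf`), and `f c` would not be NC. -/
theorem fin_pair {P : Type} [Group P] (S : Spl P) (f : MulAut P) (hf : S.NC (f S.c)) (g h : P) :
    {p | S.chi (p * g) ≠ S.chi p ∧ S.chi (f⁻¹ (p * h)) ≠ S.chi (f⁻¹ p)}.Finite := by
  obtain ⟨F1, hF1⟩ := S.fin g
  obtain ⟨F2, hF2⟩ := S.fin (f⁻¹ h)
  have key : ∀ y y' : P,
      {p | (∃ k : ℤ, p = S.c ^ k * y) ∧ ∃ l : ℤ, p = (f S.c) ^ l * f y'}.Subsingleton := by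
    rintro y y' p ⟨⟨k, hk⟩, l, hl⟩ q ⟨⟨k', hk'⟩, l', hl'⟩
    have e1 : p * q⁻¹ = S.c ^ (k - k') := by
      rw [hk, hk', zpow_sub]
      group
    have e2 : p * q⁻¹ = (f S.c) ^ (l - l') := by
      rw [hl, hl', zpow_sub]
      group
    have e3 : l - l' = 0 := by
      by_contra hne
      apply hf (l - l') hne
      rw [← e2, e1]
      exact Subgroup.zpow_mem_zpowers _ _
    rw [e3, zpow_zero] at e2
    exact mul_inv_eq_one.mp e2
  apply Set.Finite.subset (Set.Finite.biUnion (Finset.finite_toSet F1) (fun y _ =>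
    Set.Finite.biUnion (Finset.finite_toSet F2) (fun y' _ => (key y y').finite)))
  rintro p ⟨hp1, hp2⟩
  rw [map_mul] at hp2
  obtain ⟨y, hy, k, hk⟩ := hF1 p hp1
  obtain ⟨y', hy', l, hl⟩ := hF2 (f⁻¹ p) hp2
  have hl' : p = (f S.c) ^ l * f y' := by
    rw [← map_zpow, ← map_mul, ← hl, MulAut.apply_inv_self]
  simp only [Set.mem_iUnion]
  exact ⟨y, hy, y', hy', ⟨k, hk⟩, l, hl'⟩

end Pool.Agent.Lib.MP_6a1159_al.BS
end
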