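import Pool.Agent.Lib.MP_6a1159_al.Mg.G003
import Pool.Agent.Lib.MP_6a1159_al.Mg.G004

section

/-! K4db: relative one-endedness of the free group. -/

set_option autoImplicit false

open Filter

namespace Pool.Agent.Lib.MP_6a1159_al.BS

/-- PROOF: `lims` (with `c = cF n`, `malF`) gives `p`, `m`, and by uniqueness of limits `p = m = ψ`, so
`ψ (a * c) = ψ a` and `{a | U a ≠ ψ a}` is finite. Hence for every `s` the set `{a | ψ (a * s) ≠ ψ a}` is
finite (contained in `{U (a * s) ≠ U a} ∪ {U a ≠ ψ a} ∪ {U (a * s) ≠ ψ (a * s)}`). `psi_const`. -/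
theorem relF (n : ℕ) (hn : 1 ≤ n) (U ψ : FreeGroup (Fin n × Bool) → ℤ)
    (hU : ∀ s, {a | U (a * s) ≠ U a}.Finite)
    (hψ : ∀ a, ∀ᶠ k : ℕ in atTop, U (a * cF n ^ k) = ψ a ∧ U (a * (cF n)⁻¹ ^ k) = ψ a)
    (a : FreeGroup (Fin n × Bool)) : ψ a = ψ 1 := by
  obtain ⟨p, m, l1, l2, -, l4⟩ := lims (cF n) (malF n hn).1 U (hU (cF n))
  have hp : ∀ a, p a = ψ a ∧ m a = ψ a := by
    intro a
    obtain ⟨k, hk1, hk2⟩ := ((l1 a).and (hψ a)).exists
    exact ⟨hk1.1.symm.trans hk2.1, hk1.2.symm.trans hk2.2⟩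
  have hF : {a | U a ≠ ψ a}.Finite := by
    refine l4.subset ?_
    intro a ha
    refine ⟨(hp a).1.trans (hp a).2.symm, ?_⟩
    rw [(hp a).1]
    exact ha
  refine psi_const n hn ψ ?_ ?_ a
  · intro b
    have := (l2 b 1).1
    rw [zpow_one] at this
    rw [← (hp b).1, ← (hp (b * cF n)).1]
    exact this
  · intro s
    have hF' : {a | U (a * s) ≠ ψ (a * s)}.Finite := by
      have : {a | U (a * s) ≠ ψ (a * s)} = (fun a => a * s) ⁻¹' {a | U a ≠ ψ a} := rfl
      rw [this]
      exact hF.preimage (mul_left_injective s).injOn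
    refine ((hU s).union (hF.union hF')).subset ?_
    intro b hb
    by_cases c1 : U (b * s) = U b
    · by_cases c2 : U b = ψ b
      · right; right
        intro c3
        exact hb (by rw [← c3, c1, c2])
      · right; left; exact c2
    · left; exact c1

end Pool.Agent.Lib.MP_6a1159_al.BS
end

section

/-! K4d: see the imported files. -/
end

section

/-! K6b: the swap of the two halves, the swap of two neighbouring handles, and the twist. -/

set_option autoImplicit false

namespace Pool.Agent.Lib.MP_6a1159_al.BS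

/-- Homomorphisms to the Heisenberg group. PROOF: `PresentedGroup.toGroup` with
`a_i ↦ ⟨x i, 0, 0⟩`, `b_i ↦ ⟨0, y i, 0⟩`; the relator has the value `⟨0, 0, ∑ x i * y i⟩ = 1`
(`heis_relator`). The value of `proj (relator T)` is `⟨0, 0, (T.map (fun i => x i * y i)).sum⟩` by
`heis_relator`. -/
theorem exists_heis (n : ℕ) (x y : Fin (n + n) → ℤ) (h : ∑ i, x i * y i = 0) :
    ∃ Φ : SG (LL n) →* Heis, ∀ T : List (Fin (n + n)),
      Φ (proj (LL n) (relator T)) = ⟨0, 0, (T.map fun i => x i * y i).sum⟩ := by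
  set f : Fin (n + n) × Bool → Heis := fun s => if s.2 then ⟨0, y s.1, 0⟩ else ⟨x s.1, 0, 0⟩ with hf
  have hval : ∀ T : List (Fin (n + n)), FreeGroup.lift f (relator T) =
      ⟨0, 0, (T.map fun i => x i * y i).sum⟩ := by
    intro T
    rw [heis_relator]
    congr 2
    refine List.map_congr_left fun i _ => ?_
    simp [hf, fa, fb]
  have hrel : ∀ r ∈ ({relator (LL n)} : Set (FreeGroup (Fin (n + n) × Bool))),
      FreeGroup.lift f r = 1 := by
    intro r hr
    rw [Set.mem_singleton_iff] at hr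
    rw [hr, hval]
    have h1 : ((LL n).map fun i => x i * y i).sum = 0 := by
      rw [← h]
      exact (Fin.sum_univ_def fun i => x i * y i).symm
    rw [h1]
    rfl
  refine ⟨PresentedGroup.toGroup hrel, fun T => ?_⟩
  rw [← hval T]
  rfl

end Pool.Agent.Lib.MP_6a1159_al.BS
end

section

/-! K6c: the swap of the two halves, the swap of two neighbouring handles, and the twist. -/

set_option autoImplicit false

namespace Pool.Agent.Lib.MP_6a1159_al.BS

private theorem K6c_one {ι : Type} (i : ι) :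
    relator [i] = fa i * fb i * (fa i)⁻¹ * (fb i)⁻¹ := by
  simp [relator]

private def K6c_e {ι : Type} [DecidableEq ι] (i j : ι) : FreeGroup (ι × Bool) →* FreeGroup (ι × Bool) :=
  FreeGroup.lift fun x => if x.1 = i then relator [i] * FreeGroup.of (j, x.2) * (relator [i])⁻¹
    else if x.1 = j then FreeGroup.of (i, x.2) else FreeGroup.of x

private def K6c_e' {ι : Type} [DecidableEq ι] (i j : ι) : FreeGroup (ι × Bool) →* FreeGroup (ι × Bool) :=
  FreeGroup.lift fun x => if x.1 = i then FreeGroup.of (j, x.2)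
    else if x.1 = j then (relator [j])⁻¹ * FreeGroup.of (i, x.2) * relator [j] else FreeGroup.of x

section
variable {ι : Type} [DecidableEq ι] {i j : ι}

private theorem K6c_ei (s : Bool) : K6c_e i j (FreeGroup.of (i, s)) =
    relator [i] * FreeGroup.of (j, s) * (relator [i])⁻¹ := by
  rw [K6c_e, FreeGroup.lift_apply_of, if_pos rfl]

private theorem K6c_ej (hij : j ≠ i) (s : Bool) :
    K6c_e i j (FreeGroup.of (j, s)) = FreeGroup.of (i, s) := by
  rw [K6c_e, FreeGroup.lift_apply_of, if_neg hij, if_pos rfl]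

private theorem K6c_eo {t : ι} (h1 : t ≠ i) (h2 : t ≠ j) (s : Bool) :
    K6c_e i j (FreeGroup.of (t, s)) = FreeGroup.of (t, s) := by
  rw [K6c_e, FreeGroup.lift_apply_of, if_neg h1, if_neg h2]

private theorem K6c_ei' (s : Bool) : K6c_e' i j (FreeGroup.of (i, s)) = FreeGroup.of (j, s) := by
  rw [K6c_e', FreeGroup.lift_apply_of, if_pos rfl]

private theorem K6c_ej' (hij : j ≠ i) (s : Bool) : K6c_e' i j (FreeGroup.of (j, s)) =
    (relator [j])⁻¹ * FreeGroup.of (i, s) * relator [j] := by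
  rw [K6c_e', FreeGroup.lift_apply_of, if_neg hij, if_pos rfl]

private theorem K6c_eo' {t : ι} (h1 : t ≠ i) (h2 : t ≠ j) (s : Bool) :
    K6c_e' i j (FreeGroup.of (t, s)) = FreeGroup.of (t, s) := by
  rw [K6c_e', FreeGroup.lift_apply_of, if_neg h1, if_neg h2]

private theorem K6c_ewi : K6c_e i j (relator [i]) = relator [i] * relator [j] * (relator [i])⁻¹ := by
  have h1 : K6c_e i j (fa i) = relator [i] * fa j * (relator [i])⁻¹ := K6c_ei false
  have h2 : K6c_e i j (fb i) = relator [i] * fb j * (relator [i])⁻¹ := K6c_ei true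
  conv_lhs => rw [K6c_one i]
  rw [map_mul, map_mul, map_mul, map_inv, map_inv, h1, h2, K6c_one j]
  group

private theorem K6c_ewj (hij : j ≠ i) : K6c_e i j (relator [j]) = relator [i] := by
  have h1 : K6c_e i j (fa j) = fa i := K6c_ej hij false
  have h2 : K6c_e i j (fb j) = fb i := K6c_ej hij true
  rw [K6c_one j, map_mul, map_mul, map_mul, map_inv, map_inv, h1, h2, K6c_one i]

private theorem K6c_ewi' : K6c_e' i j (relator [i]) = relator [j] := by
  have h1 : K6c_e' i j (fa i) = fa j := K6c_ei' false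
  have h2 : K6c_e' i j (fb i) = fb j := K6c_ei' true
  rw [K6c_one i, map_mul, map_mul, map_mul, map_inv, map_inv, h1, h2, K6c_one j]

private theorem K6c_ewj' (hij : j ≠ i) :
    K6c_e' i j (relator [j]) = (relator [j])⁻¹ * relator [i] * relator [j] := by
  have h1 : K6c_e' i j (fa j) = (relator [j])⁻¹ * fa i * relator [j] := K6c_ej' hij false
  have h2 : K6c_e' i j (fb j) = (relator [j])⁻¹ * fb i * relator [j] := K6c_ej' hij true
  conv_lhs => rw [K6c_one j]
  rw [map_mul, map_mul, map_mul, map_inv, map_inv, h1, h2, K6c_one i]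
  group

private theorem K6c_comp (hij : j ≠ i) : (K6c_e' i j).comp (K6c_e i j) = MonoidHom.id _ := by
  refine FreeGroup.ext_hom _ _ ?_
  rintro ⟨t, s⟩
  rw [MonoidHom.comp_apply, MonoidHom.id_apply]
  rcases eq_or_ne t i with rfl | h1
  · rw [K6c_ei, map_mul, map_mul, map_inv, K6c_ewi', K6c_ej' hij]
    group
  · rcases eq_or_ne t j with rfl | h2
    · rw [K6c_ej h1, K6c_ei']
    · rw [K6c_eo h1 h2, K6c_eo' h1 h2]

private theorem K6c_comp' (hij : j ≠ i) : (K6c_e i j).comp (K6c_e' i j) = MonoidHom.id _ := by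
  refine FreeGroup.ext_hom _ _ ?_
  rintro ⟨t, s⟩
  rw [MonoidHom.comp_apply, MonoidHom.id_apply]
  rcases eq_or_ne t i with rfl | h1
  · rw [K6c_ei', K6c_ej hij]
  · rcases eq_or_ne t j with rfl | h2
    · rw [K6c_ej' h1, map_mul, map_mul, map_inv, K6c_ewj h1, K6c_ei]
      group
    · rw [K6c_eo' h1 h2, K6c_eo h1 h2]

private theorem K6c_list (T : List ι) (h : ∀ t ∈ T, t ≠ i ∧ t ≠ j) :
    K6c_e i j (relator T) = relator T :=
  relator_congr (K6c_e i j) (MonoidHom.id _) T fun t ht =>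
    ⟨K6c_eo (h t ht).1 (h t ht).2 false, K6c_eo (h t ht).1 (h t ht).2 true⟩

end

private def K6c_z : Multiplicative ℤ →* Heis where
  toFun z := ⟨0, 0, z.toAdd⟩
  map_one' := rfl
  map_mul' u v := by
    ext
    · simp
    · simp
    · simp

private theorem K6c_pow (k : ℤ) : (⟨0, 0, 1⟩ : Heis) ^ k = ⟨0, 0, k⟩ := by
  have h1 := map_zpow K6c_z (Multiplicative.ofAdd 1) k
  have h2 : (Multiplicative.ofAdd (1 : ℤ)) ^ k = Multiplicative.ofAdd k := by
    rw [← ofAdd_zsmul]
    simp
  rw [h2] at h1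
  exact h1.symm

private theorem K6c_heis (n : ℕ) (p q : Fin n) : ∃ Φ : SG (LL n) →* Heis, Φ (cc n) = ⟨0, 0, 1⟩ ∧
    ∀ t : Fin (n + n), Φ (proj (LL n) (relator [t])) =
      ⟨0, 0, (if t = Fin.castAdd n p then 1 else 0) - (if t = Fin.natAdd n q then 1 else 0)⟩ := by
  obtain ⟨Φ, hΦ⟩ := exists_heis n (fun _ => 1) (fun t =>
    (if t = Fin.castAdd n p then 1 else 0) - (if t = Fin.natAdd n q then 1 else 0)) (by
      simp [Finset.sum_sub_distrib])
  refine ⟨Φ, ?_, fun t => ?_⟩
  · unfold cc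
    rw [hΦ, take_eq, List.map_map, ← Fin.sum_univ_def]
    have h1 : ∀ t : Fin n, (((fun t : Fin (n + n) => (1 : ℤ) *
        ((if t = Fin.castAdd n p then 1 else 0) - (if t = Fin.natAdd n q then 1 else 0))) ∘
          Fin.castAdd n) t) = if t = p then 1 else 0 := by
      intro t
      have h2 : Fin.castAdd n t ≠ Fin.natAdd n q := by
        intro h
        have h3 := congrArg Fin.val h
        rw [Fin.val_castAdd, Fin.val_natAdd] at h3
        omega
      have h4 : (Fin.castAdd n t = Fin.castAdd n p) ↔ t = p := by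
        rw [Fin.castAdd_inj]
      simp only [Function.comp_apply, one_mul, if_neg h2, sub_zero, h4]
    rw [Finset.sum_congr rfl fun t _ => h1 t]
    simp
  · rw [hΦ]
    simp

private theorem K6c_mem {n : ℕ} (H : Subgroup (SG (LL n))) (t : Fin (n + n)) (h1 : ga (LL n) t ∈ H)
    (h2 : gb (LL n) t ∈ H) : proj (LL n) (relator [t]) ∈ H := by
  rw [K6c_one, map_mul, map_mul, map_mul, map_inv, map_inv]
  exact H.mul_mem (H.mul_mem (H.mul_mem h1 h2) (H.inv_mem h1)) (H.inv_mem h2)

/-- The swap of the handles `n - 1` and `n`. PROOF: let `i = n - 1`, `j = n` (indices in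
`Fin (n + n)`), `w = [a_i, b_i]`, `w' = [a_j, b_j]` in the free group. The endomorphism `e` with
`a_i, b_i ↦ w a_j w⁻¹, w b_j w⁻¹`, `a_j, b_j ↦ a_i, b_i`, and the other generators fixed, has the inverse
`a_i, b_i ↦ a_j, b_j`, `a_j, b_j ↦ w'⁻¹ a_i w', w'⁻¹ b_i w'`. The relator is `R₁ * w * w' * R₂` with words `R₁`, `R₂`
without the handles `i`, `j`, and `e` maps it to `R₁ * (w w' w⁻¹) * w * R₂ = r`. So `e ∈ StR (LL n)`,
`f := (toAut (LL n) e).1`. `cc = proj (R₁ * w)` goes to `proj (R₁ * w * w' * w⁻¹) = cc * proj w' * (proj w)⁻¹`. Put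
`b := cc * proj w' ∈ subB`, `a := (proj w)⁻¹ ∈ subA`. `a ∉ ⟨cc⟩`: use `exists_heis`. Let `Φ` be given by
`x = y = 1` at the handle `0`, `x = 1`, `y = -1` at the handle `n` (and `0` elsewhere): `Φ cc = ⟨0, 0, 1⟩`,
`Φ a = 1` (as `n - 1 ≠ 0`), so `a = cc ^ k` gives `k = 0` and `a = 1`; but with `x = y = 1` at the handle
`n - 1` and `x = 1`, `y = -1` at the handle `n` `Φ a = ⟨0, 0, -1⟩ ≠ 1`. `b ∉ ⟨cc⟩`: otherwise
`proj w' = cc ^ k`; with `x = y = 1` at `0`, `x = 1`, `y = -1` at the handle `n + 1` (`n + 1 < n + n`): `k = 0`; with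
`x = y = 1` at `0`, `x = 1`, `y = -1` at `n`: `Φ (proj w') = ⟨0, 0, -1⟩ ≠ 1`. (powers: `Heis` elements
`⟨0, 0, z⟩ ^ k = ⟨0, 0, k * z⟩`.) -/
theorem exists_handle (n : ℕ) (hn : 2 ≤ n) : ∃ f : MulAut (SG (LL n)), f ∈ AutPlus (LL n) ∧
    ∃ b ∈ subB n, b ∉ Subgroup.zpowers (cc n) ∧ ∃ a ∈ subA n,
      a ∉ Subgroup.zpowers (cc n) ∧ f (cc n) = b * a := by
  obtain ⟨k, rfl⟩ : ∃ k, n = k + 1 := ⟨n - 1, by omega⟩
  have hk : 1 ≤ k := by omega
  obtain ⟨i, hi⟩ : ∃ i : Fin (k + 1 + (k + 1)), i = Fin.castAdd (k + 1) ⟨k, by omega⟩ := ⟨_, rfl⟩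
  obtain ⟨j, hj⟩ : ∃ j : Fin (k + 1 + (k + 1)), j = Fin.natAdd (k + 1) ⟨0, by omega⟩ := ⟨_, rfl⟩
  have hiv : i.val = k := by rw [hi]; rfl
  have hjv : j.val = k + 1 := by rw [hj]; rfl
  have hji : j ≠ i := by
    intro h
    have := congrArg Fin.val h
    omega
  have hlen : (LL (k + 1)).length = k + 1 + (k + 1) := List.length_finRange
  -- the decomposition of the list of the handles
  have hget : ∀ (a : ℕ) (ha : a < (LL (k + 1)).length) , ((LL (k + 1))[a]).val = a := by
    intro a ha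
    simp [LL]
  have ht : (LL (k + 1)).take (k + 1) = (LL (k + 1)).take k ++ [i] := by
    rw [List.take_succ_eq_append_getElem (by omega)]
    congr 2
    exact Fin.ext ((hget k (by omega)).trans hiv.symm)
  have hd : (LL (k + 1)).drop (k + 1) = [j] ++ (LL (k + 1)).drop (k + 2) := by
    rw [List.drop_eq_getElem_cons (by omega)]
    show _ = j :: _
    congr 1
    exact Fin.ext ((hget (k + 1) (by omega)).trans hjv.symm)
  have hLL : LL (k + 1) = (LL (k + 1)).take k ++ [i] ++ ([j] ++ (LL (k + 1)).drop (k + 2)) := by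
    rw [← ht, ← hd, List.take_append_drop]
  have hA : ∀ t ∈ (LL (k + 1)).take k, t ≠ i ∧ t ≠ j := by
    intro t hT
    obtain ⟨a, ha, rfl⟩ := List.mem_take_iff_getElem.1 hT
    have h1 := hget a (by omega)
    constructor
    · intro h
      have := congrArg Fin.val h
      omega
    · intro h
      have := congrArg Fin.val h
      omega
  have hB : ∀ t ∈ (LL (k + 1)).drop (k + 2), t ≠ i ∧ t ≠ j := by
    intro t hT
    obtain ⟨a, ha, rfl⟩ := List.mem_drop_iff_getElem.1 hT
    have h1 := hget (k + 2 + a) (by omega)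
    constructor
    · intro h
      have := congrArg Fin.val h
      omega
    · intro h
      have := congrArg Fin.val h
      omega
  let E : MulAut (FreeGroup (Fin (k + 1 + (k + 1)) × Bool)) :=
    MonoidHom.toMulEquiv (K6c_e i j) (K6c_e' i j) (K6c_comp hji) (K6c_comp' hji)
  have hEa : ∀ w, E w = K6c_e i j w := fun w => rfl
  have hE : E ∈ StR (LL (k + 1)) := by
    show E (relator (LL (k + 1))) = relator (LL (k + 1))
    rw [hEa]
    conv_lhs => rw [hLL]
    conv_rhs => rw [hLL]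
    rw [relator_append, relator_append, relator_append, map_mul, map_mul, map_mul, K6c_list _ hA,
      K6c_list _ hB, K6c_ewi, K6c_ewj hji]
    group
  have hcc : cc (k + 1) = proj (LL (k + 1)) (relator ((LL (k + 1)).take k)) *
      proj (LL (k + 1)) (relator [i]) := by
    unfold cc
    rw [ht, relator_append, map_mul]
  have hf : (toAut (LL (k + 1)) ⟨E, hE⟩).1 (cc (k + 1)) =
      cc (k + 1) * proj (LL (k + 1)) (relator [j]) * (proj (LL (k + 1)) (relator [i]))⁻¹ := by
    have h1 : (toAut (LL (k + 1)) ⟨E, hE⟩).1 (cc (k + 1)) =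
        proj (LL (k + 1)) (K6c_e i j (relator ((LL (k + 1)).take (k + 1)))) :=
      toAut_proj (LL (k + 1)) ⟨E, hE⟩ _
    rw [h1, ht, relator_append, map_mul, K6c_list _ hA, K6c_ewi, hcc]
    simp only [map_mul, map_inv]
    group
  refine ⟨(toAut (LL (k + 1)) ⟨E, hE⟩).1, (toAut (LL (k + 1)) ⟨E, hE⟩).2,
    cc (k + 1) * proj (LL (k + 1)) (relator [j]), ?_, ?_,
    (proj (LL (k + 1)) (relator [i]))⁻¹, ?_, ?_, hf⟩
  · refine (subB (k + 1)).mul_mem (cc_mem_B _) (K6c_mem _ j ?_ ?_)
    · exact Subgroup.subset_closure ⟨j, by omega, Or.inl rfl⟩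
    · exact Subgroup.subset_closure ⟨j, by omega, Or.inr rfl⟩
  · intro h
    have h1 : proj (LL (k + 1)) (relator [j]) ∈ Subgroup.zpowers (cc (k + 1)) := by
      have h2 := (Subgroup.zpowers (cc (k + 1))).mul_mem
        ((Subgroup.zpowers (cc (k + 1))).inv_mem (Subgroup.mem_zpowers (cc (k + 1)))) h
      rwa [inv_mul_cancel_left] at h2
    obtain ⟨l, hl⟩ := Subgroup.mem_zpowers_iff.1 h1
    obtain ⟨Φ, h3, h4⟩ := K6c_heis (k + 1) ⟨0, by omega⟩ ⟨1, by omega⟩
    have h5 := congrArg Φ hl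
    rw [map_zpow, h3, K6c_pow, h4] at h5
    have h6 : j ≠ Fin.castAdd (k + 1) (⟨0, by omega⟩ : Fin (k + 1)) := by
      intro h
      have h7 := congrArg Fin.val h
      rw [hjv] at h7
      simp at h7
    have h8 : j ≠ Fin.natAdd (k + 1) (⟨1, by omega⟩ : Fin (k + 1)) := by
      intro h
      have h7 := congrArg Fin.val h
      rw [hjv] at h7
      simp at h7
    rw [if_neg h6, if_neg h8] at h5
    have h9 : l = 0 := by
      have h10 := congrArg Heis.z h5
      simpa using h10
    rw [h9, zpow_zero] at hl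
    obtain ⟨Ψ, -, h11⟩ := K6c_heis (k + 1) ⟨0, by omega⟩ ⟨0, by omega⟩
    have h12 := h11 j
    rw [← hl, map_one, if_neg h6, if_pos hj] at h12
    have h13 := congrArg Heis.z h12
    simp at h13
  · refine (subA (k + 1)).inv_mem (K6c_mem _ i ?_ ?_)
    · exact Subgroup.subset_closure ⟨i, by omega, Or.inl rfl⟩
    · exact Subgroup.subset_closure ⟨i, by omega, Or.inr rfl⟩
  · intro h
    have h1 : proj (LL (k + 1)) (relator [i]) ∈ Subgroup.zpowers (cc (k + 1)) :=
      (Subgroup.inv_mem_iff _).1 h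
    obtain ⟨l, hl⟩ := Subgroup.mem_zpowers_iff.1 h1
    obtain ⟨Φ, h3, h4⟩ := K6c_heis (k + 1) ⟨0, by omega⟩ ⟨0, by omega⟩
    have h5 := congrArg Φ hl
    rw [map_zpow, h3, K6c_pow, h4] at h5
    have h6 : i ≠ Fin.castAdd (k + 1) (⟨0, by omega⟩ : Fin (k + 1)) := by
      intro h
      have h7 := congrArg Fin.val h
      rw [hiv] at h7
      simp at h7
      omega
    have h8 : i ≠ Fin.natAdd (k + 1) (⟨0, by omega⟩ : Fin (k + 1)) := by
      intro h
      have h7 := congrArg Fin.val h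
      rw [hiv] at h7
      simp at h7
    rw [if_neg h6, if_neg h8] at h5
    have h9 : l = 0 := by
      have h10 := congrArg Heis.z h5
      simpa using h10
    rw [h9, zpow_zero] at hl
    obtain ⟨Ψ, -, h11⟩ := K6c_heis (k + 1) ⟨k, by omega⟩ ⟨0, by omega⟩
    have h12 := h11 i
    rw [← hl, map_one, if_pos hi, if_neg h8] at h12
    have h13 := congrArg Heis.z h12
    simp at h13

end Pool.Agent.Lib.MP_6a1159_al.BS
end

section

/-! K6d: the swap of the two halves, the swap of two neighbouring handles, and the twist. -/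

set_option autoImplicit false

namespace Pool.Agent.Lib.MP_6a1159_al.BS

private theorem K6d_mem (n : ℕ) (i : Fin (n + n)) : i ∈ (LL n).take n ↔ i.val < n := by
  rw [take_eq, List.mem_map]
  constructor
  · rintro ⟨j, -, rfl⟩
    exact j.2
  · intro h
    exact ⟨⟨i.val, h⟩, List.mem_finRange _, Fin.ext rfl⟩

/-- The twist. PROOF: `sepTwist_proj` on the generators (`sepFree_in`, `sepFree_out`), and closure
induction. (`(LL n).take n` contains `i` iff `i.val < n`, `take_eq`.) -/
theorem twist_spec (n : ℕ) :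
    (∀ b ∈ subB n, (sepTwist (LL n) ((LL n).take n) (sepFree_take (n + n) n)).1 b = b) ∧
    ∀ a ∈ subA n, (sepTwist (LL n) ((LL n).take n) (sepFree_take (n + n) n)).1 a =
      cc n * a * (cc n)⁻¹ := by
  have hin : ∀ (x : Fin (n + n) × Bool), x.1.val < n →
      (sepTwist (LL n) ((LL n).take n) (sepFree_take (n + n) n)).1 (proj (LL n) (FreeGroup.of x)) =
        cc n * proj (LL n) (FreeGroup.of x) * (cc n)⁻¹ := by
    intro x hx
    rw [sepTwist_proj, sepFree_in _ _ _ ((K6d_mem n x.1).2 hx), map_mul, map_mul, zpow_one,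
      zpow_neg, zpow_one, map_inv]
    rfl
  have hout : ∀ (x : Fin (n + n) × Bool), n ≤ x.1.val →
      (sepTwist (LL n) ((LL n).take n) (sepFree_take (n + n) n)).1 (proj (LL n) (FreeGroup.of x)) =
        proj (LL n) (FreeGroup.of x) := by
    intro x hx
    rw [sepTwist_proj, sepFree_out _ _ _ fun h => absurd ((K6d_mem n x.1).1 h) (not_lt.2 hx)]
  constructor
  · intro b hb
    have h1 : subB n ≤ ((sepTwist (LL n) ((LL n).take n)
        (sepFree_take (n + n) n)).1.toMonoidHom).eqLocus (MonoidHom.id _) := by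
      refine (Subgroup.closure_le _).2 ?_
      rintro x ⟨i, hi, rfl | rfl⟩
      · exact hout (i, false) hi
      · exact hout (i, true) hi
    exact h1 hb
  · intro a ha
    have h1 : subA n ≤ ((sepTwist (LL n) ((LL n).take n)
        (sepFree_take (n + n) n)).1.toMonoidHom).eqLocus (MulAut.conj (cc n)).toMonoidHom := by
      refine (Subgroup.closure_le _).2 ?_
      rintro x ⟨i, hi, rfl | rfl⟩
      · exact hin (i, false) hi
      · exact hin (i, true) hi
    exact h1 ha

end Pool.Agent.Lib.MP_6a1159_al.BS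
end

section

/-! K6: see the imported files. -/
end
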