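import Pool.Agent.Lib.MP_6a1159_al.Mg.G010
import Pool.Agent.Lib.MP_6a1159_al.Mg.G006
import Pool.Agent.Lib.MP_6a1159_al.Mg.G002

section

/-! O5: one-endedness. -/

set_option autoImplicit false

open Filter

namespace Pool.Agent.Lib.MP_6a1159_al.BS

namespace Surf

variable {P : Type} [Group P] {G : Subgroup (MulAut P)} (S : Surf P G)

include S in
/-- PROOF: `lims` gives `p`, `m`; `p = m` by `noBi`. For every `γ`: `relEnd` applied to
`a ↦ U (γ * a)`, `ψ := a ↦ p (γ * a)` gives `p (γ * a) = p γ` for `a ∈ A` (the finiteness hypothesis: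
the set is the preimage of a finite set under the injective map `a ↦ γ * a`), and `relEndB`
`p (γ * b) = p γ` for `b ∈ B`. By `Spl.ind` `p` is constant, `p = q`. By the last part of `lims` the set
`{g | U g ≠ q}` is finite. `U 1 ∈ {0, 1}` etc.: `q ∈ {0, 1}` because `q` is a value of `U`
(`hp` and `Filter.Eventually.exists`). If `q = 0` then `{g | U g = 1}` is finite, if `q = 1` then `{g | U g = 0}` is
finite. -/
theorem oneEnded (U : P → ℤ) (h01 : ∀ g, U g = 0 ∨ U g = 1)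
    (hU : ∀ s, {g | U (g * s) ≠ U g}.Finite) :
    {g | U g = 0}.Finite ∨ {g | U g = 1}.Finite := by
  obtain ⟨p, m, hp, -, -, hfin⟩ := lims S.c S.c_inf U (hU S.c)
  have hpm : ∀ g, p g = m g := fun g => S.noBi U hU p m hp g
  have hfin' : ∀ γ s, {a | U (γ * (a * s)) ≠ U (γ * a)}.Finite := by
    intro γ s
    have h1 := (hU s).preimage (f := fun a => γ * a) (mul_right_injective γ).injOn
    refine h1.subset ?_
    intro a ha
    change U (γ * a * s) ≠ U (γ * a)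
    rw [mul_assoc]
    exact ha
  have hlim : ∀ γ a : P, ∀ᶠ k : ℕ in atTop, U (γ * (a * S.c ^ k)) = p (γ * a) ∧
      U (γ * (a * S.c⁻¹ ^ k)) = p (γ * a) := by
    intro γ a
    filter_upwards [hp (γ * a)] with k hk
    rw [← mul_assoc, ← mul_assoc]
    exact ⟨hk.1, hk.2.trans (hpm _).symm⟩
  have hpA : ∀ γ, ∀ a ∈ S.A, p (γ * a) = p γ := by
    intro γ a ha
    have h1 := S.relEnd (fun a => U (γ * a)) (fun a => p (γ * a))
      (fun s _ => (hfin' γ s).subset fun a ha => ha.2) (fun a _ => hlim γ a) a ha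
    beta_reduce at h1
    rwa [mul_one] at h1
  have hpB : ∀ γ, ∀ b ∈ S.B, p (γ * b) = p γ := by
    intro γ b hb
    have h1 := S.relEndB (fun a => U (γ * a)) (fun a => p (γ * a))
      (fun s _ => (hfin' γ s).subset fun a ha => ha.2) (fun a _ => hlim γ a) b hb
    beta_reduce at h1
    rwa [mul_one] at h1
  have hconst : ∀ g, p g = p 1 := fun g => S.ind (fun g => p g = p 1) rfl
    (fun g hg a ha => (hpA g a ha).trans hg) (fun g hg b hb => (hpB g b hb).trans hg) g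
  have hne : {g | U g ≠ p 1}.Finite := by
    refine hfin.subset ?_
    intro g hg
    refine ⟨hpm g, ?_⟩
    rw [hconst g]
    exact hg
  obtain ⟨k, hk, -⟩ := (hp 1).exists
  rcases h01 (1 * S.c ^ k) with h | h
  · right
    refine hne.subset ?_
    intro g hg
    have hg1 : U g = 1 := hg
    change U g ≠ p 1
    rw [← hk, h, hg1]
    exact one_ne_zero
  · left
    refine hne.subset ?_
    intro g hg
    have hg1 : U g = 0 := hg
    change U g ≠ p 1
    rw [← hk, h, hg1]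
    exact zero_ne_one

end Surf

end Pool.Agent.Lib.MP_6a1159_al.BS
end

section

/-! C1a: the corner lemma. The wall of an automorphism `f` has the stabilizer `⟨f c⟩` and the side
function `x ↦ chi (f⁻¹ x)`; the side of the attracting end of `u` is `E (f⁻¹ u)`. -/

set_option autoImplicit false

open Filter

namespace Pool.Agent.Lib.MP_6a1159_al.BS

namespace Surf

variable {P : Type} [Group P] {G : Subgroup (MulAut P)} (S : Surf P G)

/-- PROOF: let `F₀` be the set of `S.fin (f⁻¹ s)`: `chi (f⁻¹ g * f⁻¹ s) ≠ chi (f⁻¹ g)` implies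
`f⁻¹ g = c ^ k * y₀`, so `g = (f c) ^ k * f y₀`. -/
theorem finAut (f : MulAut P) (s : P) : ∃ F : Finset P, ∀ g,
    S.chi (f⁻¹ (g * s)) ≠ S.chi (f⁻¹ g) → ∃ y ∈ F, ∃ k : ℤ, g = (f S.c) ^ k * y := by
  classical
  obtain ⟨F₀, hF₀⟩ := S.fin (f⁻¹ s)
  refine ⟨F₀.image f, fun g hg => ?_⟩
  rw [map_mul] at hg
  obtain ⟨y, hy, k, hk⟩ := hF₀ (f⁻¹ g) hg
  refine ⟨f y, Finset.mem_image_of_mem _ hy, k, ?_⟩
  rw [← map_zpow, ← map_mul, ← hk, MulAut.apply_inv_self]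

/-- The limit side of an end with respect to the wall `f`. PROOF: `E_spec` for `f⁻¹ u` and
`f⁻¹ g`. -/
theorem E_specAut (f : MulAut P) (u : P) (hu : S.NC (f⁻¹ u)) (g : P) :
    ∀ᶠ k : ℕ in atTop, S.chi (f⁻¹ (u ^ k * g)) = S.E (f⁻¹ u) := by
  filter_upwards [S.E_spec (f⁻¹ u) hu (f⁻¹ g)] with k hk
  rw [map_mul, map_pow]
  exact hk

end Surf

end Pool.Agent.Lib.MP_6a1159_al.BS
end

section

/-! C1b: the corner lemma. The wall of an automorphism `f` has the stabilizer `⟨f c⟩` and the side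
function `x ↦ chi (f⁻¹ x)`; the side of the attracting end of `u` is `E (f⁻¹ u)`. -/

set_option autoImplicit false

open Filter

namespace Pool.Agent.Lib.MP_6a1159_al.BS

namespace Surf

variable {P : Type} [Group P] {G : Subgroup (MulAut P)} (S : Surf P G)

/-- The intersection of finitely many half spaces contains no end, if it contains no end of the
walls. `hend`: each of the two ends of the `i`-th wall is outside one of the half spaces. PROOF:
suppose `E ((f i)⁻¹ u) = q i` for all `i`. Let `U g := 1` if `chi ((f i)⁻¹ g) = q i` for all `i`, and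
`U g := 0` otherwise.
(a) `{g | U (g * s) ≠ U g}` is finite for every `s`: if `U (g * s) ≠ U g` there is `i` with
`chi ((f i)⁻¹ (g * s)) ≠ chi ((f i)⁻¹ g)`, so `g = (f i c) ^ k * y` with `y ∈ F i` (`finAut`), and `g` or
`g * s` is in all the half spaces. Fix `i` and `y`. By `hend` there is `j` such that
`chi ((f j)⁻¹ ((f i c) ^ k * y')) ≠ q j` for all large `k`, for `y' = y` and for `y' = y * s`
(`E_specAut` with `u = f i c`), so neither `g` nor `g * s` is in the `j`-th half space; and the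
same for `k → -∞` with the second part of `hend`
(`u = (f i c)⁻¹`, NC by `NC_inv`, `(f i c) ^ (-k) = (f i c)⁻¹ ^ k`). So only finitely many `k` for
each of the finitely many `i`, `y`.
(b) by `oneEnded` `{g | U g = 0}` or `{g | U g = 1}` is finite. The second one is infinite: it
contains `u ^ k` for all large `k` (`E_specAut` with `g = 1`, finitely many `i`), and these elements are distinct (`(f i)⁻¹ u`
is NC for `i = 0`, so `u ^ k ≠ 1` for `k ≠ 0`). The first one is infinite: it contains all `g` with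
`chi ((f 0)⁻¹ g) ≠ q 0`; if `q 0 = 1` these include `f 0 (c ^ k)`, `k : ℤ` (`chi_Z`), which are distinct
by `c_inf`; if `q 0 = 0` these include `f 0 (c ^ k * b)`, `b ∈ B`, `b ∉ ⟨c⟩` (`ne_B`, `chi_b`,
`chi_zpow`). -/
theorem corner {n : ℕ} (hn : 0 < n) (f : Fin n → MulAut P) (q : Fin n → ℤ)
    (hq : ∀ i, q i = 0 ∨ q i = 1)
    (hend : ∀ i, (∃ j, S.NC ((f j)⁻¹ (f i S.c)) ∧ S.E ((f j)⁻¹ (f i S.c)) ≠ q j) ∧
      ∃ j, S.NC ((f j)⁻¹ (f i S.c)) ∧ S.E ((f j)⁻¹ (f i S.c)⁻¹) ≠ q j)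
    (u : P) (hu : ∀ i, S.NC ((f i)⁻¹ u)) : ∃ i, S.E ((f i)⁻¹ u) ≠ q i := by
  classical
  by_contra hcon
  push Not at hcon
  set U : P → ℤ := fun g => if ∀ i, S.chi ((f i)⁻¹ g) = q i then 1 else 0 with hUdef
  have hU0 : ∀ g i, S.chi ((f i)⁻¹ g) ≠ q i → U g = 0 := by
    intro g i h
    simp only [hUdef]
    rw [if_neg (fun h' => h (h' i))]
  have hU1 : ∀ g, (∀ i, S.chi ((f i)⁻¹ g) = q i) → U g = 1 := by
    intro g h
    simp only [hUdef]
    rw [if_pos h]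
  have h01 : ∀ g, U g = 0 ∨ U g = 1 := by
    intro g
    simp only [hUdef]
    split_ifs
    · exact Or.inr rfl
    · exact Or.inl rfl
  -- (a)
  have hpos : ∀ i y, ∀ᶠ k : ℕ in atTop, U ((f i S.c) ^ k * y) = 0 := by
    intro i y
    obtain ⟨j, hj, hE⟩ := (hend i).1
    filter_upwards [S.E_specAut (f j) (f i S.c) hj y] with k hk
    refine hU0 _ j ?_
    rw [hk]
    exact hE
  have hneg : ∀ i y, ∀ᶠ k : ℕ in atTop, U ((f i S.c)⁻¹ ^ k * y) = 0 := by
    intro i y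
    obtain ⟨j, hj, hE⟩ := (hend i).2
    have hj' : S.NC ((f j)⁻¹ (f i S.c)⁻¹) := by
      rw [map_inv]
      exact (S.NC_inv _).2 hj
    filter_upwards [S.E_specAut (f j) (f i S.c)⁻¹ hj' y] with k hk
    refine hU0 _ j ?_
    rw [hk]
    exact hE
  have hfinK : ∀ i y s, {k : ℤ | U ((f i S.c) ^ k * y * s) ≠ U ((f i S.c) ^ k * y)}.Finite := by
    intro i y s
    obtain ⟨N, hN⟩ := ((hpos i y).and ((hpos i (y * s)).and ((hneg i y).and (hneg i (y * s))))).exists_forall_of_atTop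
    refine (Set.finite_Icc (-(N : ℤ)) N).subset fun k hk => ?_
    rw [Set.mem_Icc]
    by_contra hkN
    apply hk
    rcases le_or_gt 0 k with h0 | h0
    · obtain ⟨m, rfl⟩ := Int.eq_ofNat_of_zero_le h0
      have hm : N ≤ m := by omega
      obtain ⟨h1, h2, _, _⟩ := hN m hm
      rw [zpow_natCast, mul_assoc, h1, h2]
    · obtain ⟨m, hm⟩ := Int.eq_ofNat_of_zero_le (show 0 ≤ -k by omega)
      have hk' : k = -(m : ℤ) := by omega
      have hm' : N ≤ m := by omega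
      obtain ⟨_, _, h1, h2⟩ := hN m hm'
      rw [hk', zpow_neg, zpow_natCast, ← inv_pow, mul_assoc, h1, h2]
  have hUfin : ∀ s, {g | U (g * s) ≠ U g}.Finite := by
    intro s
    choose F hF using fun i => S.finAut (f i) s
    have hbig : (⋃ i, ⋃ y ∈ F i, (fun k : ℤ => (f i S.c) ^ k * y) ''
        {k : ℤ | U ((f i S.c) ^ k * y * s) ≠ U ((f i S.c) ^ k * y)}).Finite :=
      Set.finite_iUnion fun i => (F i).finite_toSet.biUnion fun y _ => (hfinK i y s).image _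
    refine hbig.subset fun g hg => ?_
    have hg' : U (g * s) ≠ U g := hg
    obtain ⟨i, hi⟩ : ∃ i, S.chi ((f i)⁻¹ (g * s)) ≠ S.chi ((f i)⁻¹ g) := by
      by_contra hno
      push Not at hno
      apply hg'
      simp only [hUdef, hno]
    obtain ⟨y, hy, k, hk⟩ := hF i g hi
    rw [Set.mem_iUnion]
    refine ⟨i, ?_⟩
    rw [Set.mem_iUnion]
    refine ⟨y, ?_⟩
    rw [Set.mem_iUnion]
    refine ⟨hy, k, ?_, hk.symm⟩
    show U ((f i S.c) ^ k * y * s) ≠ U ((f i S.c) ^ k * y)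
    rw [← hk]
    exact hg'
  have hcinj : ∀ k l : ℤ, S.c ^ k = S.c ^ l → k = l := by
    intro k l h
    have h1 : S.c ^ (k - l) = 1 := by rw [zpow_sub, h, mul_inv_cancel]
    have h2 := S.c_inf _ h1
    omega
  have hone : {g | U g = 0}.Finite ∨ {g | U g = 1}.Finite := by
    first
      | exact S.oneEnded U h01 hUfin
      | exact oneEnded U h01 hUfin
  rcases hone with h | h
  · -- {U = 0} is infinite
    rcases hq ⟨0, hn⟩ with h0 | h1
    · obtain ⟨b, hb, hbc⟩ := S.ne_B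
      have hinj : Function.Injective fun k : ℤ => f ⟨0, hn⟩ (S.c ^ k * b) := by
        intro k l hkl
        have h2 : S.c ^ k * b = S.c ^ l * b := (f ⟨0, hn⟩).injective hkl
        exact hcinj k l (mul_right_cancel h2)
      refine (Set.infinite_of_injective_forall_mem hinj fun k => ?_) h
      refine hU0 _ ⟨0, hn⟩ ?_
      show S.chi ((f ⟨0, hn⟩)⁻¹ (f ⟨0, hn⟩ (S.c ^ k * b))) ≠ q ⟨0, hn⟩
      rw [MulAut.inv_apply_self, S.chi_zpow, S.chi_b b hb hbc, h0]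
      exact one_ne_zero
    · have hinj : Function.Injective fun k : ℤ => f ⟨0, hn⟩ (S.c ^ k) := by
        intro k l hkl
        have h2 : S.c ^ k = S.c ^ l := (f ⟨0, hn⟩).injective hkl
        exact hcinj k l h2
      refine (Set.infinite_of_injective_forall_mem hinj fun k => ?_) h
      refine hU0 _ ⟨0, hn⟩ ?_
      show S.chi ((f ⟨0, hn⟩)⁻¹ (f ⟨0, hn⟩ (S.c ^ k))) ≠ q ⟨0, hn⟩
      rw [MulAut.inv_apply_self, S.chi_Z _ ⟨k, rfl⟩, h1]
      exact zero_ne_one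
  · -- {U = 1} is infinite
    have hev : ∀ᶠ k : ℕ in atTop, ∀ i, S.chi ((f i)⁻¹ (u ^ k)) = q i := by
      rw [Filter.eventually_all]
      intro i
      filter_upwards [S.E_specAut (f i) u (hu i) 1] with k hk
      rw [mul_one] at hk
      rw [hk, hcon i]
    obtain ⟨N, hN⟩ := hev.exists_forall_of_atTop
    have hinj : Function.Injective fun k : ℕ => u ^ (N + k) := by
      intro k l hkl
      by_contra hne
      have h2 : u ^ ((k : ℤ) - l) = 1 := by
        have h3 : u ^ (N + k) = u ^ (N + l) := hkl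
        rw [pow_add, pow_add] at h3
        have h4 : u ^ k = u ^ l := mul_left_cancel h3
        rw [zpow_sub, zpow_natCast, zpow_natCast, h4, mul_inv_cancel]
      refine hu ⟨0, hn⟩ ((k : ℤ) - l) (by omega) ?_
      rw [← map_zpow, h2, map_one]
      exact one_mem _
    refine (Set.infinite_of_injective_forall_mem hinj fun k => ?_) h
    exact hU1 _ (hN (N + k) (by omega))

end Surf

end Pool.Agent.Lib.MP_6a1159_al.BS
end

section

/-! S8: a hyperbolic element with a long common axis has a bounded translation length. -/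

set_option autoImplicit false

open Filter

namespace Pool.Agent.Lib.MP_6a1159_al.BS

namespace Spl

variable {P : Type} [Group P] (S : Spl P)

private theorem S8_three {α : Type} [DecidableEq α] (F : Finset α) (f : ℕ → α)
    (hf : ∀ j : ℕ, j ≤ 2 * F.card → f j ∈ F) :
    ∃ j₁ j₂ j₃ : ℕ, j₁ < j₂ ∧ j₂ < j₃ ∧ j₃ ≤ 2 * F.card ∧ f j₁ = f j₂ ∧ f j₁ = f j₃ := by
  classical
  have hcard : F.card * 2 < (Finset.range (2 * F.card + 1)).card := by
    rw [Finset.card_range]; omega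
  obtain ⟨s, _, hs2⟩ := Finset.exists_lt_card_fiber_of_mul_lt_card_of_maps_to
    (s := Finset.range (2 * F.card + 1)) (t := F) (f := f) (n := 2)
    (fun j hj => hf j (by have := Finset.mem_range.mp hj; omega)) hcard
  set T := (Finset.range (2 * F.card + 1)).filter (fun x => f x = s) with hT
  have hmem : ∀ x ∈ T, x ≤ 2 * F.card ∧ f x = s := by
    intro x hx
    rw [hT, Finset.mem_filter, Finset.mem_range] at hx
    exact ⟨by omega, hx.2⟩
  have hTne : T.Nonempty := by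
    rw [← Finset.card_pos]; omega
  let j₁ := T.min' hTne
  have hj₁ : j₁ ∈ T := Finset.min'_mem T hTne
  let j₃ := T.max' hTne
  have hj₃ : j₃ ∈ T := Finset.max'_mem T hTne
  have hcard2 : 0 < ((T.erase j₁).erase j₃).card := by
    have h1 := Finset.pred_card_le_card_erase (s := T) (a := j₁)
    have h2 := Finset.pred_card_le_card_erase (s := T.erase j₁) (a := j₃)
    omega
  obtain ⟨j₂, hj₂⟩ := Finset.card_pos.mp hcard2
  rw [Finset.mem_erase, Finset.mem_erase] at hj₂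
  obtain ⟨hne3, hne1, hj₂T⟩ := hj₂
  have hle1 : j₁ ≤ j₂ := Finset.min'_le T j₂ hj₂T
  have hle3 : j₂ ≤ j₃ := Finset.le_max' T j₂ hj₂T
  refine ⟨j₁, j₂, j₃, by omega, by omega, (hmem j₃ hj₃).1, ?_, ?_⟩
  · rw [(hmem j₁ hj₁).2, (hmem j₂ hj₂T).2]
  · rw [(hmem j₁ hj₁).2, (hmem j₃ hj₃).2]

private theorem S8_const (f : ℤ → ℤ) (h : ∀ a : ℤ, f (a + 1) = f a) (a : ℤ) : f a = f 0 := by
  induction a using Int.induction_on with
  | zero => rfl
  | succ i ih => rw [h, ih]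
  | pred i ih =>
    have := h (-(i : ℤ) - 1)
    rw [sub_add_cancel] at this
    rw [← this, ih]

/-- If `y` crosses the walls `⟨c⟩`, `v ⟨c⟩`, `v² ⟨c⟩` then the wall `v ⟨c⟩` comes before
`y ^ J ⟨c⟩`. PROOF: let `F` be the set of `fin y`, `J := 2 * F.card`. Suppose
`chi (v⁻¹ * y ^ J) = 0` (`chi_01`). All the elements `v⁻¹ ^ n * y * v ^ n`, `n ≤ 2`, have `eps = 1`
(note `(v⁻¹ ^ n * y * v ^ n)⁻¹ = v⁻¹ ^ n * y⁻¹ * v ^ n`), so they are `NC` (`NC_of_eps`).
(a) `chi (v⁻¹ * y ^ j) = 0` for all `j ≤ J`: downward induction; `w := v⁻¹ * y * v` has `E w = 1`,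
`E w⁻¹ = 0`, and the third part of `mono'` for `w` at `g = v⁻¹ * y ^ (j+1)`:
`w⁻¹ * g = v⁻¹ * y ^ j`.
(b) for `j ≤ J`: `chi (y⁻¹ ^ j * v) = 1` or `y⁻¹ ^ j * v ∈ ⟨c⟩`. Suppose `k := y⁻¹ ^ j * v ∉ ⟨c⟩`.
`nested k` at `x = y⁻¹ ^ j * y ^ a`, `a` large: `k⁻¹ * x = v⁻¹ * y ^ a` has `chi = 1` (`E_spec'`,
`E (v⁻¹ * y * v) = 1`) and `chi k⁻¹ = chi (v⁻¹ * y ^ j) = 0`; so
`chi k = chi (y ^ (a - j)) = 1` (`mono_pow'` for `y`).
(c) for `j ≤ J` and all `g`: `chi (v⁻¹ * g) = 1` implies `chi (y⁻¹ ^ j * g) = 1`. If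
`y⁻¹ ^ j * v = c ^ i` then `v⁻¹ * g = c ^ (-i) * y⁻¹ ^ j * g`, `chi_zpow`. Otherwise `nested k` at
`x = y⁻¹ ^ j * g`, `k⁻¹ * x = v⁻¹ * g`, `chi k⁻¹ = 0`, `chi k = 1`.
(d) for `j ≤ J` there is `a : ℤ` with
`chi (y⁻¹ ^ j * v⁻¹ * y ^ (a + 1)) ≠ chi (y⁻¹ ^ j * v⁻¹ * y ^ a)`: for `a → +∞`,
`chi (v⁻¹ ^ 2 * y ^ a) = 1` eventually (`E_spec'`), and (c) with `g = v⁻¹ * y ^ a` gives
`chi (y⁻¹ ^ j * v⁻¹ * y ^ a) = 1`. For `a → -∞`, `chi (v⁻¹ * y ^ a) = 0` eventually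
(`E (v⁻¹ * y⁻¹ * v) = 0`) and the third part of `mono'` for `y`, `j` times, gives
`chi (y⁻¹ ^ j * v⁻¹ * y ^ a) = 0`.
(e) by `fin y`, `y⁻¹ ^ j * v⁻¹ * y ^ (a j) = c ^ (k j) * s j` with `s j ∈ F`, for
`j = 0, …, J = 2 * F.card`: three indices `j₁ < j₂ < j₃` have the same `s`
(`Finset.exists_lt_card_fiber_of_mul_lt_card_of_maps_to`). Then with `u := y⁻¹ ^ j₁ * v⁻¹ * y * v * y ^ j₁`:
`u ^ (a₂ - a₁) = y ^ (j₂ - j₁) * c ^ (k₂ - k₁)` and `u ^ (a₃ - a₁) = y ^ (j₃ - j₁) * c ^ (k₃ - k₁)`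
(from `v⁻¹ * y ^ aⱼ = y ^ j * c ^ kⱼ * s`). `com` with `q = 1` gives `k₂ = k₁`, so
`v⁻¹ * y ^ (a₂ - a₁) * v = y ^ (j₂ - j₁)` with `j₂ - j₁ ≠ 0`, against the last hypothesis. -/
theorem period (y : P) (h1 : S.E y = 1) (h0 : S.E y⁻¹ = 0) : ∃ J : ℕ, ∀ v : P,
    S.E v = 1 → S.E v⁻¹ = 0 →
    (∀ n : ℕ, n ≤ 2 → S.E (v⁻¹ ^ n * y * v ^ n) = 1 ∧ S.E (v⁻¹ ^ n * y⁻¹ * v ^ n) = 0) →
    (∀ K K' : ℤ, K ≠ 0 → v⁻¹ * y ^ K' * v ≠ y ^ K) → S.chi (v⁻¹ * y ^ J) = 1 := by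
  classical
  obtain ⟨F, hF⟩ := S.fin y
  refine ⟨2 * F.card, ?_⟩
  intro v hv1 hv0 hn hcom
  rcases S.chi_01 (v⁻¹ * y ^ (2 * F.card)) with hJ | hJ
  swap
  · exact hJ
  exfalso
  -- the conjugates are NC
  have hinv : ∀ n : ℕ, (v⁻¹ ^ n * y * v ^ n)⁻¹ = v⁻¹ ^ n * y⁻¹ * v ^ n := by
    intro n
    rw [inv_pow]
    group
  have hNC : ∀ n : ℕ, n ≤ 2 → S.NC (v⁻¹ ^ n * y * v ^ n) := by
    intro n hn2
    apply S.NC_of_eps
    unfold Spl.eps
    rw [hinv n, (hn n hn2).1, (hn n hn2).2]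
    norm_num
  have hE1 : S.E (v⁻¹ * y * v) = 1 := by
    have := (hn 1 (by norm_num)).1
    simpa using this
  have hE0 : S.E (v⁻¹ * y⁻¹ * v) = 0 := by
    have := (hn 1 (by norm_num)).2
    simpa using this
  have hNC1 : S.NC (v⁻¹ * y * v) := by
    have := hNC 1 (by norm_num)
    simpa using this
  have hw : (v⁻¹ * y * v)⁻¹ = v⁻¹ * y⁻¹ * v := by group
  have hNC1' : S.NC (v⁻¹ * y⁻¹ * v) := by
    rw [← hw]
    exact (S.NC_inv _).mpr hNC1
  have hm := S.mono' (v⁻¹ * y * v) hE1 (by rw [hw]; exact hE0)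
  have hmy := S.mono' y h1 h0
  -- (a)
  have ha : ∀ i : ℕ, i ≤ 2 * F.card → S.chi (v⁻¹ * y ^ (2 * F.card - i)) = 0 := by
    intro i
    induction i with
    | zero => intro _; simpa using hJ
    | succ i ih =>
      intro hi
      have h := hm.2.2 _ (ih (by omega))
      have e : (v⁻¹ * y * v)⁻¹ * (v⁻¹ * y ^ (2 * F.card - i)) = v⁻¹ * y ^ (2 * F.card - (i + 1)) := by
        have e1 : 2 * F.card - i = (2 * F.card - (i + 1)) + 1 := by omega
        rw [e1, pow_succ']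
        group
      rw [e] at h
      exact h
  have haj : ∀ j : ℕ, j ≤ 2 * F.card → S.chi (v⁻¹ * y ^ j) = 0 := by
    intro j hj
    have := ha (2 * F.card - j) (by omega)
    rwa [show 2 * F.card - (2 * F.card - j) = j by omega] at this
  -- eventually 1
  have hev1 : ∀ᶠ k : ℕ in atTop, S.chi (v⁻¹ * y ^ k) = 1 := by
    have := S.E_spec' v y hNC1 1
    rw [hE1] at this
    simpa using this
  -- (c)
  have hc : ∀ j : ℕ, j ≤ 2 * F.card → ∀ g : P, S.chi (v⁻¹ * g) = 1 →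
      S.chi (y⁻¹ ^ j * g) = 1 := by
    intro j hj g hg
    by_cases hk : y⁻¹ ^ j * v ∈ Subgroup.zpowers S.c
    · obtain ⟨i, hi⟩ := Subgroup.mem_zpowers_iff.mp hk
      have e : v⁻¹ * g = S.c ^ (-i) * (y⁻¹ ^ j * g) := by
        rw [zpow_neg, hi]
        group
      rw [e, S.chi_zpow] at hg
      exact hg
    · have hki : (y⁻¹ ^ j * v)⁻¹ = v⁻¹ * y ^ j := by
        rw [mul_inv_rev, inv_pow, inv_inv]
      have hk0 : S.chi (y⁻¹ ^ j * v)⁻¹ = 0 := by
        rw [hki]; exact haj j hj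
      have hk1 : S.chi (y⁻¹ ^ j * v) = 1 := by
        obtain ⟨a, ha1, ha2⟩ := (hev1.and (eventually_gt_atTop j)).exists
        rcases S.nested _ hk (y⁻¹ ^ j * y ^ a) with h | h
        · rw [← h]
          have e : y⁻¹ ^ j * y ^ a = y ^ (a - j) := by
            obtain ⟨d, rfl⟩ := Nat.exists_eq_add_of_lt ha2
            rw [show j + d + 1 - j = d + 1 by omega, show j + d + 1 = j + (d + 1) by omega,
              pow_add, inv_pow, inv_mul_cancel_left]
          rw [e]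
          exact (S.mono_pow' y h1 h0 (a - j) (by omega)).1
        · exfalso
          rw [hk0, hki] at h
          have e : v⁻¹ * y ^ j * (y⁻¹ ^ j * y ^ a) = v⁻¹ * y ^ a := by
            rw [inv_pow]; group
          rw [e, ha1] at h
          norm_num at h
      rcases S.nested _ hk (y⁻¹ ^ j * g) with h | h
      · rw [h, hk1]
      · exfalso
        rw [hk0, hki] at h
        have e : v⁻¹ * y ^ j * (y⁻¹ ^ j * g) = v⁻¹ * g := by
          rw [inv_pow]; group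
        rw [e, hg] at h
        norm_num at h
  -- (d)
  have hd : ∀ j : ℕ, j ≤ 2 * F.card → ∃ a : ℤ,
      S.chi (y⁻¹ ^ j * v⁻¹ * y ^ (a + 1)) ≠ S.chi (y⁻¹ ^ j * v⁻¹ * y ^ a) := by
    intro j hj
    by_contra hcon
    push Not at hcon
    have hconst := S8_const (fun a : ℤ => S.chi (y⁻¹ ^ j * v⁻¹ * y ^ a)) hcon
    -- positive
    have hp : ∃ a : ℕ, S.chi (y⁻¹ ^ j * v⁻¹ * y ^ (a : ℤ)) = 1 := by
      have hev2 : ∀ᶠ k : ℕ in atTop, S.chi ((v ^ 2)⁻¹ * y ^ k * 1) = 1 := by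
        have h2 := (hn 2 le_rfl).1
        have h3 := hNC 2 le_rfl
        rw [inv_pow] at h2 h3
        have := S.E_spec' (v ^ 2) y h3 1
        rw [h2] at this
        exact this
      obtain ⟨a, ha⟩ := hev2.exists
      refine ⟨a, ?_⟩
      have e : (v ^ 2)⁻¹ * y ^ a * 1 = v⁻¹ * (v⁻¹ * y ^ a) := by
        rw [pow_two]; group
      rw [e] at ha
      have := hc j hj _ ha
      rw [zpow_natCast, mul_assoc]
      exact this
    have hq : ∃ a : ℕ, S.chi (y⁻¹ ^ j * v⁻¹ * y ^ (-(a : ℤ))) = 0 := by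
      have hev2 : ∀ᶠ k : ℕ in atTop, S.chi (v⁻¹ * y⁻¹ ^ k * 1) = 0 := by
        have := S.E_spec' v y⁻¹ hNC1' 1
        rw [hE0] at this
        exact this
      obtain ⟨a, ha⟩ := hev2.exists
      refine ⟨a, ?_⟩
      rw [mul_one] at ha
      have hind : ∀ i : ℕ, S.chi (y⁻¹ ^ i * (v⁻¹ * y⁻¹ ^ a)) = 0 := by
        intro i
        induction i with
        | zero => simpa using ha
        | succ i ih =>
          have := hmy.2.2 _ ih
          rw [pow_succ', mul_assoc]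
          exact this
      have := hind j
      rw [zpow_neg, zpow_natCast, ← inv_pow, mul_assoc]
      exact this
    obtain ⟨a, ha⟩ := hp
    obtain ⟨b, hb⟩ := hq
    have e1 := hconst (a : ℤ)
    have e2 := hconst (-(b : ℤ))
    change S.chi (y⁻¹ ^ j * v⁻¹ * y ^ (a : ℤ)) = S.chi (y⁻¹ ^ j * v⁻¹ * y ^ (0 : ℤ)) at e1
    change S.chi (y⁻¹ ^ j * v⁻¹ * y ^ (-(b : ℤ))) = S.chi (y⁻¹ ^ j * v⁻¹ * y ^ (0 : ℤ)) at e2
    rw [ha] at e1
    rw [hb, ← e1] at e2
    norm_num at e2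
  -- (e)
  have he : ∀ j : ℕ, ∃ a : ℤ, ∃ s : P, ∃ k : ℤ, j ≤ 2 * F.card →
      (s ∈ F ∧ y⁻¹ ^ j * v⁻¹ * y ^ a = S.c ^ k * s) := by
    intro j
    by_cases hj : j ≤ 2 * F.card
    · obtain ⟨a, ha⟩ := hd j hj
      have h := hF (y⁻¹ ^ j * v⁻¹ * y ^ a) (by
        rw [mul_assoc _ (y ^ a) y, ← zpow_add_one]
        exact ha)
      obtain ⟨s, hs, k, hk⟩ := h
      exact ⟨a, s, k, fun _ => ⟨hs, hk⟩⟩
    · exact ⟨0, 1, 0, fun h => absurd h hj⟩
  choose a s k hask using he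
  obtain ⟨j₁, j₂, j₃, h12, h23, h3, hs12, hs13⟩ := S8_three F s (fun j hj => (hask j hj).1)
  have key : ∀ j : ℕ, j₁ ≤ j → j ≤ 2 * F.card → s j₁ = s j →
      (y⁻¹ ^ j₁ * v⁻¹ * y * v * y ^ j₁) ^ (a j - a j₁) = y ^ (j - j₁) * S.c ^ (k j - k j₁) := by
    intro j hjj hj hsj
    have hA := (hask j hj).2
    have hB := (hask j₁ (le_trans hjj hj)).2
    rw [← hsj] at hA
    obtain ⟨d, rfl⟩ := Nat.exists_eq_add_of_le hjj
    rw [Nat.add_sub_cancel_left]
    have e1 : (y⁻¹ ^ j₁ * v⁻¹ * y * v * y ^ j₁) = (v * y ^ j₁)⁻¹ * y * (v * y ^ j₁) := by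
      rw [inv_pow]; group
    have e2 : ∀ n : ℤ, ((v * y ^ j₁)⁻¹ * y * (v * y ^ j₁)) ^ n =
        (v * y ^ j₁)⁻¹ * y ^ n * (v * y ^ j₁) := by
      intro n
      have := conj_zpow (i := n) (a := (v * y ^ j₁)⁻¹) (b := y)
      rw [inv_inv] at this
      exact this
    rw [e1, e2]
    have hA' : y ^ (a (j₁ + d)) = v * y ^ (j₁ + d) * (S.c ^ (k (j₁ + d)) * s j₁) := by
      rw [← hA, inv_pow]; group
    have hB' : y ^ (-(a j₁)) = (S.c ^ (k j₁) * s j₁)⁻¹ * (v * y ^ j₁)⁻¹ := by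
      rw [zpow_neg, ← hB, inv_pow]; group
    rw [sub_eq_add_neg, zpow_add, hA', hB', sub_eq_add_neg, zpow_add, zpow_neg, pow_add]
    group
  have k2 := key j₂ h12.le (by omega) hs12
  have k3 := key j₃ (by omega) h3 hs13
  have hy : ∀ m : ℕ, 0 < m → S.chi (y ^ m) = 1 ∧ S.chi (y⁻¹ ^ m) ≠ 1 := by
    intro m hm0
    have := S.mono_pow' y h1 h0 m hm0
    exact ⟨this.1, by rw [this.2]; norm_num⟩
  have hz := S.com y (y⁻¹ ^ j₁ * v⁻¹ * y * v * y ^ j₁) 1 hy (a j₂ - a j₁) (a j₃ - a j₁)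
    (k j₂ - k j₁) (k j₃ - k j₁) (j₂ - j₁) (j₃ - j₁) (by omega) (by omega) k2 k3
  rw [hz, zpow_zero, mul_one] at k2
  refine hcom ((j₂ - j₁ : ℕ) : ℤ) (a j₂ - a j₁) (by omega) ?_
  have e1 : (y⁻¹ ^ j₁ * v⁻¹ * y * v * y ^ j₁) = (v * y ^ j₁)⁻¹ * y * (v * y ^ j₁) := by
    rw [inv_pow]; group
  have e2 : ∀ n : ℤ, ((v * y ^ j₁)⁻¹ * y * (v * y ^ j₁)) ^ n =
      (v * y ^ j₁)⁻¹ * y ^ n * (v * y ^ j₁) := by
    intro n
    have := conj_zpow (i := n) (a := (v * y ^ j₁)⁻¹) (b := y)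
    rw [inv_inv] at this
    exact this
  rw [e1, e2] at k2
  have e3 : v⁻¹ * y ^ (a j₂ - a j₁) * v =
      y ^ j₁ * ((v * y ^ j₁)⁻¹ * y ^ (a j₂ - a j₁) * (v * y ^ j₁)) * (y ^ j₁)⁻¹ := by
    group
  rw [e3, k2, zpow_natCast]
  have e4 : y ^ j₁ * y ^ (j₂ - j₁) = y ^ (j₂ - j₁) * y ^ j₁ := by
    rw [← pow_add, ← pow_add, add_comm]
  rw [e4, mul_inv_cancel_right]

end Spl

end Pool.Agent.Lib.MP_6a1159_al.BS
end
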