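import Pool.Agent.Lib.MP_6a1159_al.Mg.G006
import Pool.Agent.Lib.MP_6a1159_al.Final
import Pool.Agent.Lib.MP_6a1159_al.Mg.G011
import Pool.Agent.Lib.MP_6a1159_al.Mg.G002

section

/-! Q4a: the quasi-morphism. -/

set_option autoImplicit false

namespace Pool.Agent.Lib.MP_6a1159_al.BS

variable {Y : Type} {τ : Y → Y → Y → ℤ}

theorem pt_ne (β : Y × Y) (hβ : β.1 ≠ β.2) (Z : Y) : pt β Z ≠ Z := by
  unfold pt
  split_ifs with h
  · rw [← h]
    exact hβ.symm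
  · exact h

/-- PROOF: the set is contained in `{β.1, γ.1}` together with the set of `Z ≠ β.1, γ.1` with
`hK τ Z β.1 γ.1 ≠ 0`. If `β.1 = γ.1` the latter is empty (`hh_self`, reflexivity). Otherwise for such `Z`
`352 ≤ |hh|`, so `152 ≤ |τ Z β.1 γ.1|` by `hh_near`, and `h.fin`. -/
theorem psi_fin (h : TW Y τ) (β γ : Y × Y) (hβ : β.1 ≠ β.2) (hγ : γ.1 ≠ γ.2) :
    {Z | hK τ Z (pt β Z) (pt γ Z) ≠ 0}.Finite := by
  have h1 : ({Z | Z ≠ β.1 ∧ Z ≠ γ.1 ∧ hK τ Z β.1 γ.1 ≠ 0} : Set Y).Finite := by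
    have hbig : ∀ Z, Z ≠ β.1 → Z ≠ γ.1 → hK τ Z β.1 γ.1 ≠ 0 → 352 ≤ |hh τ Z β.1 γ.1| := by
      intro Z _ _ hne
      by_contra hc
      apply hne
      unfold hK
      rw [if_neg hc]
    by_cases he : β.1 = γ.1
    · have : ({Z | Z ≠ β.1 ∧ Z ≠ γ.1 ∧ hK τ Z β.1 γ.1 ≠ 0} : Set Y) = ∅ := by
        rw [Set.eq_empty_iff_forall_notMem]
        rintro Z ⟨h2, h3, h4⟩
        have h5 := hbig Z h2 h3 h4
        have h6 : hh τ Z β.1 γ.1 = 0 := by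
          rw [he]
          exact hh_self h Z γ.1 γ.1 h3.symm Relation.ReflTransGen.refl
        rw [h6, abs_zero] at h5
        norm_num at h5
      rw [this]
      exact Set.finite_empty
    · refine (h.fin β.1 γ.1 he).subset ?_
      rintro Z ⟨h2, h3, h4⟩
      refine ⟨h2, h3, ?_⟩
      have h5 := hbig Z h2 h3 h4
      have h6 := hh_near h Z β.1 γ.1 h2.symm h3.symm
      have h7 : |hh τ Z β.1 γ.1| ≤ |hh τ Z β.1 γ.1 - 2 * τ Z β.1 γ.1| + |2 * τ Z β.1 γ.1| := by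
        have := abs_add_le (hh τ Z β.1 γ.1 - 2 * τ Z β.1 γ.1) (2 * τ Z β.1 γ.1)
        rwa [sub_add_cancel] at this
      rw [abs_mul, abs_two] at h7
      linarith
  refine (h1.union (Set.toFinite ({β.1, γ.1} : Set Y))).subset ?_
  intro Z hZ
  by_cases hx : β.1 = Z
  · exact Or.inr (Or.inl hx.symm)
  · by_cases hy : γ.1 = Z
    · exact Or.inr (Or.inr hy.symm)
    · left
      refine ⟨fun hh => hx hh.symm, fun hh => hy hh.symm, ?_⟩
      have h2 : hK τ Z (pt β Z) (pt γ Z) ≠ 0 := hZ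
      unfold pt at h2
      rw [if_neg hx, if_neg hy] at h2
      exact h2

/-- PROOF: `hK_anti`, `pt_ne`, `finsum_neg_distrib`. -/
theorem psi_anti (h : TW Y τ) (β γ : Y × Y) (hβ : β.1 ≠ β.2) (hγ : γ.1 ≠ γ.2) :
    Psi τ γ β = - Psi τ β γ := by
  unfold Psi
  rw [← finsum_neg_distrib]
  apply finsum_congr
  intro Z
  exact hK_anti h Z _ _ (pt_ne β hβ Z) (pt_ne γ hγ Z)

/-- PROOF: `pt (ρ β.1, ρ β.2) (ρ Z) = ρ (pt β Z)`, `hK_map`, reindex by `ρ` (`finsum_comp_equiv`). -/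
theorem psi_map (ρ : Equiv.Perm Y) (hρ : ∀ Z X W, τ (ρ Z) (ρ X) (ρ W) = τ Z X W)
    (β γ : Y × Y) : Psi τ (ρ β.1, ρ β.2) (ρ γ.1, ρ γ.2) = Psi τ β γ := by
  have hpt : ∀ (β : Y × Y) (Z : Y), pt (ρ β.1, ρ β.2) (ρ Z) = ρ (pt β Z) := by
    intro β Z
    unfold pt
    by_cases hb : β.1 = Z
    · rw [if_pos hb, if_pos (by rw [hb])]
    · rw [if_neg hb, if_neg (fun hh => hb (ρ.injective hh))]
  unfold Psi
  rw [← finsum_comp_equiv ρ]
  apply finsum_congr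
  intro Z
  rw [hpt, hpt, hK_map ρ hρ]

end Pool.Agent.Lib.MP_6a1159_al.BS
end

section

/-! Q4b: the quasi-morphism. -/

set_option autoImplicit false

namespace Pool.Agent.Lib.MP_6a1159_al.BS

variable {Y : Type} {τ : Y → Y → Y → ℤ}

/-- PROOF: let `f Z := hK (pt β) (pt γ) + hK (pt γ) (pt δ) - hK (pt β) (pt δ)`; its sum is
`Psi β γ + Psi γ δ - Psi β δ` (`psi_fin`, `finsum_add_distrib`, `finsum_sub_distrib`), `|f Z| ≤ 1216`
(`hK_coc`, `pt_ne`). The support of `f` is finite. With `x = β.1`, `y = γ.1`, `w = δ.1`: if `Z ≠ x, y, w` and `f Z ≠ 0` then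
by `hK_zero` `x, y, w` are pairwise inequivalent and one of `|hh Z x y|`, `|hh Z y w|`, `|hh Z x w|` is
`≥ 352`, so `Z ∈ Bad x y w ∪ Bad y w x ∪ Bad x w y` (`eqv_symm`). So the support has at most
`3 + 2 + 2 + 2 = 9` elements (`bad_card`), and `9 * 1216 = 10944`. -/
theorem psi_defect (h : TW Y τ) (β γ δ : Y × Y) (hβ : β.1 ≠ β.2) (hγ : γ.1 ≠ γ.2)
    (hδ : δ.1 ≠ δ.2) : |Psi τ β δ - Psi τ β γ - Psi τ γ δ| ≤ 10944 := by
  classical
  set f : Y → ℤ := fun Z => hK τ Z (pt β Z) (pt γ Z) + hK τ Z (pt γ Z) (pt δ Z) -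
    hK τ Z (pt β Z) (pt δ Z) with hf
  have h1 := psi_fin h β γ hβ hγ
  have h2 := psi_fin h γ δ hγ hδ
  have h3 := psi_fin h β δ hβ hδ
  have s1 : (Function.support fun Z => hK τ Z (pt β Z) (pt γ Z)).Finite := h1
  have s2 : (Function.support fun Z => hK τ Z (pt γ Z) (pt δ Z)).Finite := h2
  have s3 : (Function.support fun Z => hK τ Z (pt β Z) (pt δ Z)).Finite := h3
  have s12 : (Function.support fun Z => hK τ Z (pt β Z) (pt γ Z) +
      hK τ Z (pt γ Z) (pt δ Z)).Finite := by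
    refine (s1.union s2).subset ?_
    intro Z hZ
    by_contra hcon
    rw [Set.mem_union, not_or, Function.mem_support, Function.mem_support, not_not, not_not] at hcon
    exact hZ (by
      show hK τ Z (pt β Z) (pt γ Z) + hK τ Z (pt γ Z) (pt δ Z) = 0
      rw [hcon.1, hcon.2, add_zero])
  have hsum : ∑ᶠ Z, f Z = Psi τ β γ + Psi τ γ δ - Psi τ β δ := by
    show ∑ᶠ Z, ((hK τ Z (pt β Z) (pt γ Z) + hK τ Z (pt γ Z) (pt δ Z)) - hK τ Z (pt β Z) (pt δ Z)) = _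
    rw [finsum_sub_distrib s12 s3, finsum_add_distrib s1 s2]
    rfl
  have hbd : ∀ Z, |f Z| ≤ 1216 := fun Z =>
    hK_coc h Z (pt β Z) (pt γ Z) (pt δ Z) (pt_ne β hβ Z) (pt_ne γ hγ Z) (pt_ne δ hδ Z)
  have hfin : (Function.support f).Finite := by
    refine (s12.union s3).subset ?_
    intro Z hZ
    by_contra hcon
    rw [Set.mem_union, not_or, Function.mem_support, Function.mem_support, not_not, not_not] at hcon
    exact hZ (by
      show (hK τ Z (pt β Z) (pt γ Z) + hK τ Z (pt γ Z) (pt δ Z)) - hK τ Z (pt β Z) (pt δ Z) = 0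
      rw [hcon.1, hcon.2, sub_zero])
  set F := hfin.toFinset with hF
  have hFm : ∀ Z, Z ∈ F ↔ f Z ≠ 0 := fun Z => hfin.mem_toFinset
  have hsub : F ⊆ ({β.1, γ.1, δ.1} : Finset Y) ∪ (F.filter (fun Z => Z ∈ Bad τ β.1 γ.1 δ.1) ∪
      (F.filter (fun Z => Z ∈ Bad τ γ.1 δ.1 β.1) ∪ F.filter (fun Z => Z ∈ Bad τ β.1 δ.1 γ.1))) := by
    intro Z hZ
    have hZ0 := (hFm Z).1 hZ
    by_contra hcon
    rw [Finset.mem_union, not_or, Finset.mem_union, not_or, Finset.mem_union, not_or,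
      Finset.mem_filter, Finset.mem_filter, Finset.mem_filter, Finset.mem_insert, Finset.mem_insert,
      Finset.mem_singleton] at hcon
    obtain ⟨hc1, hc2, hc3, hc4⟩ := hcon
    rw [not_or, not_or] at hc1
    obtain ⟨hx, hy, hw⟩ := hc1
    have hx' : β.1 ≠ Z := fun h => hx h.symm
    have hy' : γ.1 ≠ Z := fun h => hy h.symm
    have hw' : δ.1 ≠ Z := fun h => hw h.symm
    have px : pt β Z = β.1 := by unfold pt; rw [if_neg hx']
    have py : pt γ Z = γ.1 := by unfold pt; rw [if_neg hy']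
    have pw : pt δ Z = δ.1 := by unfold pt; rw [if_neg hw']
    apply hZ0
    show hK τ Z (pt β Z) (pt γ Z) + hK τ Z (pt γ Z) (pt δ Z) - hK τ Z (pt β Z) (pt δ Z) = 0
    rw [px, py, pw]
    apply hK_zero h Z _ _ _ hx' hy' hw'
    by_contra hno
    rw [not_or, not_or, not_or] at hno
    obtain ⟨n1, n2, n3, n4⟩ := hno
    have m1 : ¬ eqv τ Z γ.1 β.1 := fun hh => n1 (eqv_symm _ _ _ hh)
    have m2 : ¬ eqv τ Z δ.1 γ.1 := fun hh => n2 (eqv_symm _ _ _ hh)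
    have m3 : ¬ eqv τ Z δ.1 β.1 := fun hh => n3 (eqv_symm _ _ _ hh)
    apply n4
    refine ⟨?_, ?_, ?_⟩
    · by_contra hge
      exact hc2 ⟨hZ, hx', hy', hw', n1, n2, n3, not_lt.1 hge⟩
    · by_contra hge
      exact hc3 ⟨hZ, hy', hw', hx', n2, m3, m1, not_lt.1 hge⟩
    · by_contra hge
      exact hc4 ⟨hZ, hx', hw', hy', n3, m2, n1, not_lt.1 hge⟩
  have hcard : F.card ≤ 9 := by
    have c1 := bad_card h β.1 γ.1 δ.1 (F.filter (fun Z => Z ∈ Bad τ β.1 γ.1 δ.1))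
      (fun Z hZ => (Finset.mem_filter.1 hZ).2)
    have c2 := bad_card h γ.1 δ.1 β.1 (F.filter (fun Z => Z ∈ Bad τ γ.1 δ.1 β.1))
      (fun Z hZ => (Finset.mem_filter.1 hZ).2)
    have c3 := bad_card h β.1 δ.1 γ.1 (F.filter (fun Z => Z ∈ Bad τ β.1 δ.1 γ.1))
      (fun Z hZ => (Finset.mem_filter.1 hZ).2)
    have c4 : ({β.1, γ.1, δ.1} : Finset Y).card ≤ 3 := Finset.card_le_three
    have c5 := Finset.card_le_card hsub
    have c6 := Finset.card_union_le ({β.1, γ.1, δ.1} : Finset Y)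
      (F.filter (fun Z => Z ∈ Bad τ β.1 γ.1 δ.1) ∪
      (F.filter (fun Z => Z ∈ Bad τ γ.1 δ.1 β.1) ∪ F.filter (fun Z => Z ∈ Bad τ β.1 δ.1 γ.1)))
    have c7 := Finset.card_union_le (F.filter (fun Z => Z ∈ Bad τ β.1 γ.1 δ.1))
      (F.filter (fun Z => Z ∈ Bad τ γ.1 δ.1 β.1) ∪ F.filter (fun Z => Z ∈ Bad τ β.1 δ.1 γ.1))
    have c8 := Finset.card_union_le (F.filter (fun Z => Z ∈ Bad τ γ.1 δ.1 β.1))
      (F.filter (fun Z => Z ∈ Bad τ β.1 δ.1 γ.1))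
    omega
  have hle : |∑ᶠ Z, f Z| ≤ 10944 := by
    rw [finsum_eq_sum f hfin]
    refine (Finset.abs_sum_le_sum_abs _ _).trans ?_
    refine (Finset.sum_le_sum fun Z _ => hbd Z).trans ?_
    rw [Finset.sum_const, nsmul_eq_mul]
    have : (F.card : ℤ) ≤ 9 := by exact_mod_cast hcard
    show (F.card : ℤ) * 1216 ≤ 10944
    linarith
  rw [hsum] at hle
  have e : Psi τ β δ - Psi τ β γ - Psi τ γ δ = -(Psi τ β γ + Psi τ γ δ - Psi τ β δ) := by ring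
  rw [e, abs_neg]
  exact hle

end Pool.Agent.Lib.MP_6a1159_al.BS
end

section

/-! Q4c: the quasi-morphism. -/

set_option autoImplicit false

namespace Pool.Agent.Lib.MP_6a1159_al.BS

variable {Y : Type} {τ : Y → Y → Y → ℤ}

/-- PROOF: `Φ g := Psi τ (b, b') (ρ g b, ρ g b')`. (1) `Φ g⁻¹ = Psi (b, b') (ρ g⁻¹ b, ρ g⁻¹ b')`, apply
`psi_map` with `ρ g` and `psi_anti`. (2) `psi_defect` for `β = (b, b')`, `γ = ρ g β`, `δ = ρ (g * g') β`, and
`Psi (ρ g β) (ρ g (ρ g' β)) = Psi β (ρ g' β)`. (3) if `ρ t b = b` then for `Z ≠ b` both points are `b` and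
`hK τ Z b b = 0` (`hh_self`), and for `Z = b` they are `b'` and `ρ t b'` (`≠ b`). So `Φ t = hK τ b b' (ρ t b')`
(`finsum_eq_single`); `hK_near` and `hh_near`: `352 + 48`. -/
theorem qm (h : TW Y τ) {Γ : Type} [Group Γ] (ρ : Γ →* Equiv.Perm Y)
    (hρ : ∀ g Z X W, τ (ρ g Z) (ρ g X) (ρ g W) = τ Z X W) (b b' : Y) (hb : b ≠ b') :
    ∃ Φ : Γ → ℤ, (∀ g, Φ g⁻¹ = - Φ g) ∧ (∀ g g', |Φ (g * g') - Φ g - Φ g'| ≤ 10944) ∧
      ∀ t, ρ t b = b → |Φ t - 2 * τ b b' (ρ t b')| ≤ 400 := by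
  have hne : ∀ g : Γ, ρ g b ≠ ρ g b' := fun g e => hb ((ρ g).injective e)
  refine ⟨fun g => Psi τ (b, b') (ρ g b, ρ g b'), ?_, ?_, ?_⟩
  · intro g
    have h1 := psi_map (ρ g) (hρ g) (b, b') (ρ g⁻¹ b, ρ g⁻¹ b')
    have e1 : ρ g (ρ g⁻¹ b) = b := by
      rw [← Equiv.Perm.mul_apply, ← map_mul, mul_inv_cancel, map_one]; rfl
    have e2 : ρ g (ρ g⁻¹ b') = b' := by
      rw [← Equiv.Perm.mul_apply, ← map_mul, mul_inv_cancel, map_one]; rfl
    simp only [e1, e2] at h1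
    have h2 := psi_anti h (b, b') (ρ g b, ρ g b') hb (hne g)
    show Psi τ (b, b') (ρ g⁻¹ b, ρ g⁻¹ b') = - Psi τ (b, b') (ρ g b, ρ g b')
    rw [← h1, h2]
  · intro g g'
    have h1 := psi_map (ρ g) (hρ g) (b, b') (ρ g' b, ρ g' b')
    have e1 : ρ (g * g') b = ρ g (ρ g' b) := by
      rw [map_mul, Equiv.Perm.mul_apply]
    have e2 : ρ (g * g') b' = ρ g (ρ g' b') := by
      rw [map_mul, Equiv.Perm.mul_apply]
    have h2 := psi_defect h (b, b') (ρ g b, ρ g b') (ρ (g * g') b, ρ (g * g') b') hb (hne g)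
      (hne (g * g'))
    show |Psi τ (b, b') (ρ (g * g') b, ρ (g * g') b') - Psi τ (b, b') (ρ g b, ρ g b') -
      Psi τ (b, b') (ρ g' b, ρ g' b')| ≤ 10944
    rw [← h1, ← e1, ← e2]
    exact h2
  · intro t ht
    have hb' : ρ t b' ≠ b := fun e => hne t (by rw [ht, e])
    have key : Psi τ (b, b') (ρ t b, ρ t b') = hK τ b b' (ρ t b') := by
      unfold Psi
      rw [finsum_eq_single _ b]
      · have p1 : pt (b, b') b = b' := by unfold pt; simp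
        have p2 : pt (ρ t b, ρ t b') b = ρ t b' := by unfold pt; simp [ht]
        rw [p1, p2]
      · intro Z hZ
        have p1 : pt (b, b') Z = b := by
          unfold pt; rw [if_neg]; exact fun e => hZ e.symm
        have p2 : pt (ρ t b, ρ t b') Z = b := by
          unfold pt; rw [if_neg]
          · exact ht
          · intro e; exact hZ (by rw [← e]; exact ht)
        rw [p1, p2]
        unfold hK
        rw [hh_self h Z b b hZ.symm Relation.ReflTransGen.refl]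
        simp
    have h1 := hK_near (τ := τ) b b' (ρ t b')
    have h2 := hh_near h b b' (ρ t b') hb.symm hb'
    show |Psi τ (b, b') (ρ t b, ρ t b') - 2 * τ b b' (ρ t b')| ≤ 400
    rw [key]
    rw [abs_le] at *
    omega

end Pool.Agent.Lib.MP_6a1159_al.BS
end

section

/-! Q4: see the imported files. -/
end

section

/-! SC: a lower bound for the stable commutator length from a quasi-morphism. -/

set_option autoImplicit false

open scoped ENNReal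
open Filter

namespace Pool.Agent.Lib.MP_6a1159_al.BS

/-- PROOF: `|Φ (y * z * y⁻¹ * z⁻¹)| ≤ 3 D` (three products, `Φ y⁻¹ = - Φ y`), and by induction on the
number of commutators (`c1_iff` describes `IsProdComm` by lists, or use `ipc_...`; `Φ 1 = 0` because
`Φ 1⁻¹ = - Φ 1`) a product of `m` commutators has `|Φ| ≤ 4 D m`. -/
theorem quasi_prod {Γ : Type} [Group Γ] (Φ : Γ → ℤ) (D : ℕ) (h1 : ∀ g, Φ g⁻¹ = - Φ g)
    (h2 : ∀ g g', |Φ (g * g') - Φ g - Φ g'| ≤ D) (m : ℕ) (x : Γ) (hx : IsProdComm m x) :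
    |Φ x| ≤ 4 * D * m := by
  obtain ⟨l, hl, rfl⟩ := c1_iff.1 hx
  subst hl
  clear hx
  induction l with
  | nil =>
    have h0 := h1 1
    rw [inv_one] at h0
    have h00 : Φ 1 = 0 := by omega
    simp [h00]
  | cons q l ih =>
    rw [List.map_cons, List.prod_cons, List.length_cons]
    set p := (l.map fun q => q.1 * q.2 * q.1⁻¹ * q.2⁻¹).prod with hp
    have e1 := abs_le.1 (h2 (q.1 * q.2 * q.1⁻¹ * q.2⁻¹) p)
    have e2 := abs_le.1 (h2 (q.1 * q.2 * q.1⁻¹) (q.2⁻¹))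
    have e3 := abs_le.1 (h2 (q.1 * q.2) (q.1⁻¹))
    have e4 := abs_le.1 (h2 q.1 q.2)
    have e5 := h1 q.1
    have e6 := h1 q.2
    have e7 := abs_le.1 ih
    obtain ⟨a1, a2⟩ := e1
    obtain ⟨b1, b2⟩ := e2
    obtain ⟨c1, c2⟩ := e3
    obtain ⟨d1, d2⟩ := e4
    obtain ⟨f1, f2⟩ := e7
    push_cast
    have e8 : 4 * (D : ℤ) * ((l.length : ℤ) + 1) = 4 * (D : ℤ) * (l.length : ℤ) + 4 * D := by ring
    rw [e8, abs_le]
    constructor <;> linarith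

/-- PROOF: `cl (x ^ n)` is `∞` or some `m` with `IsProdComm m (x ^ n)` (`exists_ipc_of_cl`), and then
`a * n - b ≤ 4 * D * m` (`quasi_prod`), i.e. `m / n ≥ (a - b / n) / (4 * D)` for `n ≥ 1`. `stableCL` is the
`liminf`; for every real `ε > 0` `cl (x ^ n) / n ≥ (a - ε) / (4 D)` for all large `n`
(`Filter.le_liminf_of_le`), let `ε → 0` (`le_of_forall_lt` or similar). -/
theorem scl_ge {Γ : Type} [Group Γ] (x : Γ) (Φ : Γ → ℤ) (D : ℕ) (hD : 0 < D)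
    (h1 : ∀ g, Φ g⁻¹ = - Φ g) (h2 : ∀ g g', |Φ (g * g') - Φ g - Φ g'| ≤ D) (a b : ℕ)
    (h3 : ∀ k : ℕ, (a : ℤ) * k - b ≤ |Φ (x ^ k)|) :
    (a : ℝ≥0∞) / ((4 * D : ℕ) : ℝ≥0∞) ≤ stableCL x := by
  rw [stableCL_eq_scl]
  refine le_iInf fun n => ?_
  by_cases h : cl (x ^ (n + 1)) = ∞
  · rw [h, ENNReal.top_div_of_ne_top (ENNReal.natCast_ne_top _)]
    exact le_top
  · obtain ⟨m, hm, hm'⟩ := exists_ipc_of_cl _ h
    rw [hm]
    have key : a * (n + 1) ≤ 4 * D * m := by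
      by_contra hlt
      push Not at hlt
      have e1 := quasi_prod Φ D h1 h2 _ _ (ipc_pow hm' (b + 1))
      rw [← pow_mul] at e1
      have e2 := h3 ((n + 1) * (b + 1))
      have e3 := le_trans e2 e1
      have e4 : a * ((n + 1) * (b + 1)) ≤ 4 * D * ((b + 1) * m) + b := by
        have : (a : ℤ) * (((n + 1) * (b + 1) : ℕ) : ℤ) ≤ 4 * D * (((b + 1) * m : ℕ) : ℤ) + b := by
          linarith
        exact_mod_cast this
      have e5 : (4 * D * m + 1) * (b + 1) ≤ (a * (n + 1)) * (b + 1) :=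
        Nat.mul_le_mul_right _ hlt
      nlinarith
    have hD0 : ((4 * D : ℕ) : ℝ≥0∞) ≠ 0 := by
      exact_mod_cast (by omega : 4 * D ≠ 0)
    have hn0 : ((n + 1 : ℕ) : ℝ≥0∞) ≠ 0 := by
      exact_mod_cast (by omega : n + 1 ≠ 0)
    rw [ENNReal.div_le_iff hD0 (ENNReal.natCast_ne_top _), mul_comm, mul_div_assoc',
      ENNReal.le_div_iff_mul_le (Or.inl hn0) (Or.inl (ENNReal.natCast_ne_top _))]
    exact_mod_cast key

end Pool.Agent.Lib.MP_6a1159_al.BS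
end

section

/-! C1: see the imported files. -/
end

section

/-! C2a: two and three walls. -/

set_option autoImplicit false

open Filter

namespace Pool.Agent.Lib.MP_6a1159_al.BS

namespace Surf

variable {P : Type} [Group P] {G : Subgroup (MulAut P)} (S : Surf P G)

/-- The relation of non-commensurability of two curves is symmetric. PROOF: `NC_symm` for
`F := f⁻¹ * h`: `F c = f⁻¹ (h c)`, `F⁻¹ c = h⁻¹ (f c)`. -/
theorem NC_comm (f h : MulAut P) (hnc : S.NC (f⁻¹ (h S.c))) : S.NC (h⁻¹ (f S.c)) := by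
  have h1 : S.NC ((f⁻¹ * h) S.c) := hnc
  have h2 := S.NC_symm (f⁻¹ * h) h1
  rwa [mul_inv_rev, inv_inv] at h2

/-- PROOF: `antisym` for `F := h⁻¹ * f ∈ G`: `F c = h⁻¹ (f c)` is NC, `F⁻¹ c = f⁻¹ (h c)`. -/
theorem antisym' (f h : MulAut P) (hf : f ∈ G) (hh : h ∈ G) (hnc : S.NC (f⁻¹ (h S.c))) :
    S.eps (f⁻¹ (h S.c)) = - S.eps (h⁻¹ (f S.c)) := by
  have h1 : S.NC ((h⁻¹ * f) S.c) := S.NC_comm f h hnc
  have h2 := S.antisym (h⁻¹ * f) (G.mul_mem (G.inv_mem hh) hf) h1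
  rw [mul_inv_rev, inv_inv] at h2
  exact h2

/-- The corner lemma for two walls. PROOF: `corner` with `n = 2`, `f = ![f, h]`, `q = ![q, r]`;
for `i = 0` use `j = 1` and for `i = 1` use `j = 0`. -/
theorem corner2 (f h : MulAut P) (q r : ℤ) (hq : q = 0 ∨ q = 1) (hr : r = 0 ∨ r = 1)
    (hnc : S.NC (f⁻¹ (h S.c)))
    (h1 : S.E (f⁻¹ (h S.c)) ≠ q) (h2 : S.E (f⁻¹ (h S.c)⁻¹) ≠ q)
    (h3 : S.E (h⁻¹ (f S.c)) ≠ r) (h4 : S.E (h⁻¹ (f S.c)⁻¹) ≠ r)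
    (u : P) (hu : S.NC (f⁻¹ u)) (hu' : S.NC (h⁻¹ u)) (h5 : S.E (f⁻¹ u) = q) :
    S.E (h⁻¹ u) ≠ r := by
  intro h6
  have hnc' : S.NC (h⁻¹ (f S.c)) := S.NC_comm f h hnc
  obtain ⟨i, hi⟩ := S.corner (n := 2) (by norm_num) ![f, h] ![q, r]
    (by
      intro i
      fin_cases i
      · exact hq
      · exact hr)
    (by
      intro i
      fin_cases i
      · exact ⟨⟨1, hnc', h3⟩, ⟨1, hnc', h4⟩⟩
      · exact ⟨⟨0, hnc, h1⟩, ⟨0, hnc, h2⟩⟩)
    u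
    (by
      intro i
      fin_cases i
      · exact hu
      · exact hu')
  fin_cases i
  · exact hi h5
  · exact hi h6

/-- If the half space `(f, q)` contains no end of the wall `h` then all the ends in this half
space are on the same side of `h`. PROOF: the numbers `E (f⁻¹ (h c))` and `E (f⁻¹ (h c)⁻¹)` are in
`{0, 1}` and both different from `q`, so they are equal and `eps (f⁻¹ (h c)) = 0`
(`map_inv`). By `antisym'` `eps (h⁻¹ (f c)) = 0`, so `E (h⁻¹ (f c)) = E (h⁻¹ (f c)⁻¹) =: s`. `corner2`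
with `r := 1 - s` gives `E (h⁻¹ u) ≠ 1 - s`, so `E (h⁻¹ u) = s`; the same for `u'`. -/
theorem sameSide (f h : MulAut P) (hf : f ∈ G) (hh : h ∈ G) (q : ℤ) (hq : q = 0 ∨ q = 1)
    (hnc : S.NC (f⁻¹ (h S.c)))
    (h1 : S.E (f⁻¹ (h S.c)) ≠ q) (h2 : S.E (f⁻¹ (h S.c)⁻¹) ≠ q)
    (u u' : P) (hu : S.NC (f⁻¹ u)) (hu' : S.NC (f⁻¹ u')) (hv : S.NC (h⁻¹ u))
    (hv' : S.NC (h⁻¹ u')) (h3 : S.E (f⁻¹ u) = q) (h4 : S.E (f⁻¹ u') = q) :
    S.E (h⁻¹ u) = S.E (h⁻¹ u') := by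
  have hnc' : S.NC (h⁻¹ (f S.c)) := S.NC_comm f h hnc
  have hE : S.E (f⁻¹ (h S.c)) = S.E (f⁻¹ (h S.c)⁻¹) := by
    rcases S.E_01 (f⁻¹ (h S.c)) with a | a <;> rcases S.E_01 (f⁻¹ (h S.c)⁻¹) with b | b <;>
      rcases hq with c | c <;> rw [a, c] at h1 <;> rw [b, c] at h2 <;> rw [a, b] <;> omega
  have heps : S.eps (f⁻¹ (h S.c)) = 0 := by
    unfold Spl.eps
    rw [← map_inv, ← hE, sub_self]
  have heps' : S.eps (h⁻¹ (f S.c)) = 0 := by
    have h5 := S.antisym' f h hf hh hnc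
    rw [heps] at h5
    omega
  have hE' : S.E (h⁻¹ (f S.c)⁻¹) = S.E (h⁻¹ (f S.c)) := by
    unfold Spl.eps at heps'
    rw [← map_inv] at heps'
    omega
  obtain ⟨r, hr, hrs⟩ : ∃ r : ℤ, (r = 0 ∨ r = 1) ∧ S.E (h⁻¹ (f S.c)) = 1 - r := by
    rcases S.E_01 (h⁻¹ (f S.c)) with a | a
    · exact ⟨1, Or.inr rfl, by rw [a]; norm_num⟩
    · exact ⟨0, Or.inl rfl, by rw [a]; norm_num⟩
  have hne : S.E (h⁻¹ (f S.c)) ≠ r := by omega
  have hne' : S.E (h⁻¹ (f S.c)⁻¹) ≠ r := by rw [hE']; exact hne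
  have k1 := S.corner2 f h q r hq hr hnc h1 h2 hne hne' u hu hv h3
  have k2 := S.corner2 f h q r hq hr hnc h1 h2 hne hne' u' hu' hv' h4
  rcases S.E_01 (h⁻¹ u) with a | a <;> rcases S.E_01 (h⁻¹ u') with b | b <;> omega

/-- PROOF: `antisym` for `f` (`eps (f c) = 1 ≠ 0` so `f c` is NC by `NC_of_eps`):
`eps (f⁻¹ c) = -1`; with `E_01` `E (f⁻¹ c) = 0`, `E (f⁻¹ c)⁻¹ = 1`; `f⁻¹ c` is NC. -/
theorem ahead (f : MulAut P) (hf : f ∈ G) (h : S.eps (f S.c) = 1) : S.NC (f⁻¹ S.c) ∧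
    S.E (f⁻¹ S.c) = 0 ∧ S.E (f⁻¹ S.c)⁻¹ = 1 := by
  have h0 : S.eps (f S.c) ≠ 0 := by rw [h]; exact one_ne_zero
  have hnc : S.NC (f S.c) := S.NC_of_eps _ h0
  have hnc' : S.NC (f⁻¹ S.c) := S.NC_symm f hnc
  have h1 := S.antisym f hf hnc
  rw [h] at h1
  unfold Spl.eps at h1
  refine ⟨hnc', ?_⟩
  rcases S.E_01 (f⁻¹ S.c) with a | a <;> rcases S.E_01 (f⁻¹ S.c)⁻¹ with b | b <;> omega

end Surf

end Pool.Agent.Lib.MP_6a1159_al.BS
end

section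

/-! C2b: two and three walls. -/

set_option autoImplicit false

open Filter

namespace Pool.Agent.Lib.MP_6a1159_al.BS

namespace Surf

variable {P : Type} [Group P] {G : Subgroup (MulAut P)} (S : Surf P G)

/-- PROOF: the values are `0`, `1`. -/
private theorem c2b_eps1 (x : P) (h : S.eps x = 1) : S.E x = 1 ∧ S.E x⁻¹ = 0 ∧ S.NC x := by
  have h1 := S.E_01 x
  have h2 := S.E_01 x⁻¹
  have h3 : S.NC x := S.NC_of_eps x (by rw [h]; decide)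
  unfold Spl.eps at h
  refine ⟨?_, ?_, h3⟩
  · rcases h1 with h1 | h1 <;> rcases h2 with h2 | h2 <;> rw [h1, h2] at h <;> omega
  · rcases h1 with h1 | h1 <;> rcases h2 with h2 | h2 <;> rw [h1, h2] at h <;> omega

/-- Trichotomy. Let `f`, `h` be walls of curves which cross `c` positively. PROOF: write
`p = E (f⁻¹ (h c))`, `m = E (f⁻¹ (h c)⁻¹)`, `p' = E (h⁻¹ (f c))`, `m' = E (h⁻¹ (f c)⁻¹)`, all in
`{0, 1}`. `antisym'`: `p - m = - (p' - m')`. If `p ≠ m` then `p' ≠ m'` and checking the cases gives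
`p + p' = 1 = m + m'`. Let `p = m`, `p' = m'`. `p = p' = 1` is impossible by `corner2` with
`q = r = 0` and `u = c`: `E (f⁻¹ c) = 0` and `E (h⁻¹ c) = 0` by `ahead`. `p = p' = 0` is impossible by
`corner2` with `q = r = 1` and `u = c⁻¹`. -/
theorem trich (f h : MulAut P) (hf : f ∈ G) (hh : h ∈ G) (hf1 : S.eps (f S.c) = 1)
    (hh1 : S.eps (h S.c) = 1) (hnc : S.NC (f⁻¹ (h S.c))) :
    S.E (f⁻¹ (h S.c)) + S.E (h⁻¹ (f S.c)) = 1 ∧
      S.E (f⁻¹ (h S.c)⁻¹) + S.E (h⁻¹ (f S.c)⁻¹) = 1 := by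
  have hp := S.E_01 (f⁻¹ (h S.c))
  have hm := S.E_01 (f⁻¹ (h S.c)⁻¹)
  have hp' := S.E_01 (h⁻¹ (f S.c))
  have hm' := S.E_01 (h⁻¹ (f S.c)⁻¹)
  have anti := S.antisym' f h hf hh hnc
  have e1 : (f⁻¹ (h S.c))⁻¹ = f⁻¹ (h S.c)⁻¹ := (map_inv f⁻¹ (h S.c)).symm
  have e2 : (h⁻¹ (f S.c))⁻¹ = h⁻¹ (f S.c)⁻¹ := (map_inv h⁻¹ (f S.c)).symm
  rw [Spl.eps, Spl.eps, e1, e2] at anti
  obtain ⟨a1, a2, a3⟩ := S.ahead f hf hf1
  obtain ⟨b1, b2, b3⟩ := S.ahead h hh hh1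
  rw [← map_inv] at a3 b3
  have a4 : S.NC (f⁻¹ S.c⁻¹) := by rw [map_inv]; exact (S.NC_inv _).mpr a1
  have b4 : S.NC (h⁻¹ S.c⁻¹) := by rw [map_inv]; exact (S.NC_inv _).mpr b1
  have k1 : S.E (f⁻¹ (h S.c)) = 1 → S.E (f⁻¹ (h S.c)⁻¹) = 1 → S.E (h⁻¹ (f S.c)) = 1 →
      S.E (h⁻¹ (f S.c)⁻¹) = 1 → False := by
    intro e1 e2 e3 e4
    exact S.corner2 f h 0 0 (Or.inl rfl) (Or.inl rfl) hnc (by omega) (by omega) (by omega)
      (by omega) S.c a1 b1 a2 b2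
  have k2 : S.E (f⁻¹ (h S.c)) = 0 → S.E (f⁻¹ (h S.c)⁻¹) = 0 → S.E (h⁻¹ (f S.c)) = 0 →
      S.E (h⁻¹ (f S.c)⁻¹) = 0 → False := by
    intro e1 e2 e3 e4
    exact S.corner2 f h 1 1 (Or.inr rfl) (Or.inr rfl) hnc (by omega) (by omega) (by omega)
      (by omega) S.c⁻¹ a4 b4 a3 b3
  by_contra hcon
  rcases hp with hp | hp <;> rcases hm with hm | hm <;> rcases hp' with hp' | hp' <;>
    rcases hm' with hm' | hm' <;> rw [hp, hm, hp', hm'] at anti hcon <;>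
    first
    | exact k1 hp hm hp' hm'
    | exact k2 hp hm hp' hm'
    | omega

/-- Transitivity for the attracting ends. PROOF: suppose `E (g⁻¹ (h c)) ≠ 1`, so it is `0`. `corner` with
`n = 3`, the walls `![1, f, g]`, `q = ![1, 1, 0]` and `u = h c`: `E (h c) = 1` (from `eps (h c) = 1`),
`E (f⁻¹ (h c)) = 1`, `E (g⁻¹ (h c)) = 0`, so the conclusion of `corner` is false. The hypotheses
`hend`: wall `1` (curve `c`): `E (f⁻¹ c) = 0 ≠ 1` and `E (g⁻¹ c⁻¹) = 1 ≠ 0` (`ahead`). Wall `f`: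
`E (g⁻¹ (f c)) = 1 ≠ 0` (`h2`) and `E (f c)⁻¹ = 0 ≠ 1` (wall `1`, from `eps (f c) = 1`). Wall `g`:
`E (f⁻¹ (g c)) = 0 ≠ 1` (`trich f g` and `h2`) and `E (g c)⁻¹ = 0 ≠ 1` (wall `1`). -/
theorem transP (f h g : MulAut P) (hf : f ∈ G) (hh : h ∈ G) (hg : g ∈ G)
    (hf1 : S.eps (f S.c) = 1) (hh1 : S.eps (h S.c) = 1) (hg1 : S.eps (g S.c) = 1)
    (n1 : S.NC (f⁻¹ (h S.c))) (n2 : S.NC (g⁻¹ (f S.c))) (n3 : S.NC (g⁻¹ (h S.c)))
    (h1 : S.E (f⁻¹ (h S.c)) = 1) (h2 : S.E (g⁻¹ (f S.c)) = 1) : S.E (g⁻¹ (h S.c)) = 1 := by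
  obtain ⟨cf1, cf2, cf3⟩ := S.c2b_eps1 _ hf1
  obtain ⟨ch1, ch2, ch3⟩ := S.c2b_eps1 _ hh1
  obtain ⟨cg1, cg2, cg3⟩ := S.c2b_eps1 _ hg1
  obtain ⟨a1, a2, a3⟩ := S.ahead f hf hf1
  obtain ⟨b1, b2, b3⟩ := S.ahead g hg hg1
  rw [← map_inv] at a3 b3
  have n4 := S.NC_comm g f n2
  have t1 := (S.trich f g hf hg hf1 hg1 n4).1
  rw [h2] at t1
  obtain ⟨i, hi⟩ := S.corner (n := 3) (by decide) ![1, f, g] ![1, 1, 0]
    (by
      intro i
      fin_cases i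
      · exact Or.inr rfl
      · exact Or.inr rfl
      · exact Or.inl rfl)
    (by
      intro i
      fin_cases i
      · refine ⟨⟨1, a1, ?_⟩, ⟨2, b1, ?_⟩⟩
        · change S.E (f⁻¹ S.c) ≠ 1
          rw [a2]; decide
        · change S.E (g⁻¹ S.c⁻¹) ≠ 0
          rw [b3]; decide
      · refine ⟨⟨2, n2, ?_⟩, ⟨0, ?_, ?_⟩⟩
        · change S.E (g⁻¹ (f S.c)) ≠ 0
          rw [h2]; decide
        · change S.NC ((1 : MulAut P)⁻¹ (f S.c))
          rw [inv_one, MulAut.one_apply]; exact cf3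
        · change S.E ((1 : MulAut P)⁻¹ (f S.c)⁻¹) ≠ 1
          rw [inv_one, MulAut.one_apply, cf2]; decide
      · refine ⟨⟨1, n4, ?_⟩, ⟨0, ?_, ?_⟩⟩
        · change S.E (f⁻¹ (g S.c)) ≠ 1
          omega
        · change S.NC ((1 : MulAut P)⁻¹ (g S.c))
          rw [inv_one, MulAut.one_apply]; exact cg3
        · change S.E ((1 : MulAut P)⁻¹ (g S.c)⁻¹) ≠ 1
          rw [inv_one, MulAut.one_apply, cg2]; decide)
    (h S.c)
    (by
      intro i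
      fin_cases i
      · change S.NC ((1 : MulAut P)⁻¹ (h S.c))
        rw [inv_one, MulAut.one_apply]; exact ch3
      · exact n1
      · exact n3)
  fin_cases i
  · change S.E ((1 : MulAut P)⁻¹ (h S.c)) ≠ 1 at hi
    rw [inv_one, MulAut.one_apply] at hi
    exact absurd ch1 hi
  · exact absurd h1 hi
  · change S.E (g⁻¹ (h S.c)) ≠ 0 at hi
    exact (S.E_01 _).resolve_left hi

/-- Transitivity for the repelling ends. PROOF: suppose `E (g⁻¹ (h c)⁻¹) = 0`. `corner` with the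
walls `![1, f, g]`, `q = ![0, 1, 0]`, `u = (h c)⁻¹`. `hend`: wall `1`: `E (f⁻¹ c) = 0 ≠ 1`,
`E (g⁻¹ c⁻¹) = 1 ≠ 0`. Wall `f`: `E (f c) = 1 ≠ 0` (wall `1`) and `E (g⁻¹ (f c)⁻¹) = 1 ≠ 0` (`h2`).
Wall `g`: `E (g c) = 1 ≠ 0` (wall `1`) and `E (f⁻¹ (g c)⁻¹) = 0 ≠ 1` (`trich`). -/
theorem transM (f h g : MulAut P) (hf : f ∈ G) (hh : h ∈ G) (hg : g ∈ G)
    (hf1 : S.eps (f S.c) = 1) (hh1 : S.eps (h S.c) = 1) (hg1 : S.eps (g S.c) = 1)
    (n1 : S.NC (f⁻¹ (h S.c))) (n2 : S.NC (g⁻¹ (f S.c))) (n3 : S.NC (g⁻¹ (h S.c)))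
    (h1 : S.E (f⁻¹ (h S.c)⁻¹) = 1) (h2 : S.E (g⁻¹ (f S.c)⁻¹) = 1) :
    S.E (g⁻¹ (h S.c)⁻¹) = 1 := by
  obtain ⟨cf1, cf2, cf3⟩ := S.c2b_eps1 _ hf1
  obtain ⟨ch1, ch2, ch3⟩ := S.c2b_eps1 _ hh1
  obtain ⟨cg1, cg2, cg3⟩ := S.c2b_eps1 _ hg1
  obtain ⟨a1, a2, a3⟩ := S.ahead f hf hf1
  obtain ⟨b1, b2, b3⟩ := S.ahead g hg hg1
  rw [← map_inv] at a3 b3
  have n4 := S.NC_comm g f n2
  have t1 := (S.trich f g hf hg hf1 hg1 n4).2
  rw [h2] at t1
  obtain ⟨i, hi⟩ := S.corner (n := 3) (by decide) ![1, f, g] ![0, 1, 0]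
    (by
      intro i
      fin_cases i
      · exact Or.inl rfl
      · exact Or.inr rfl
      · exact Or.inl rfl)
    (by
      intro i
      fin_cases i
      · refine ⟨⟨1, a1, ?_⟩, ⟨2, b1, ?_⟩⟩
        · change S.E (f⁻¹ S.c) ≠ 1
          rw [a2]; decide
        · change S.E (g⁻¹ S.c⁻¹) ≠ 0
          rw [b3]; decide
      · refine ⟨⟨0, ?_, ?_⟩, ⟨2, n2, ?_⟩⟩
        · change S.NC ((1 : MulAut P)⁻¹ (f S.c))
          rw [inv_one, MulAut.one_apply]; exact cf3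
        · change S.E ((1 : MulAut P)⁻¹ (f S.c)) ≠ 0
          rw [inv_one, MulAut.one_apply, cf1]; decide
        · change S.E (g⁻¹ (f S.c)⁻¹) ≠ 0
          rw [h2]; decide
      · refine ⟨⟨0, ?_, ?_⟩, ⟨1, n4, ?_⟩⟩
        · change S.NC ((1 : MulAut P)⁻¹ (g S.c))
          rw [inv_one, MulAut.one_apply]; exact cg3
        · change S.E ((1 : MulAut P)⁻¹ (g S.c)) ≠ 0
          rw [inv_one, MulAut.one_apply, cg1]; decide
        · change S.E (f⁻¹ (g S.c)⁻¹) ≠ 1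
          omega)
    (h S.c)⁻¹
    (by
      intro i
      fin_cases i
      · change S.NC ((1 : MulAut P)⁻¹ (h S.c)⁻¹)
        rw [inv_one, MulAut.one_apply]; exact (S.NC_inv _).mpr ch3
      · change S.NC (f⁻¹ (h S.c)⁻¹)
        rw [map_inv]; exact (S.NC_inv _).mpr n1
      · change S.NC (g⁻¹ (h S.c)⁻¹)
        rw [map_inv]; exact (S.NC_inv _).mpr n3)
  fin_cases i
  · change S.E ((1 : MulAut P)⁻¹ (h S.c)⁻¹) ≠ 0 at hi
    rw [inv_one, MulAut.one_apply] at hi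
    exact absurd ch2 hi
  · exact absurd h1 hi
  · change S.E (g⁻¹ (h S.c)⁻¹) ≠ 0 at hi
    exact (S.E_01 _).resolve_left hi

end Surf

end Pool.Agent.Lib.MP_6a1159_al.BS
end

section

/-! C2: see the imported files. -/
end

section

/-! E1a: curves and crossing numbers. -/

set_option autoImplicit false

open Filter

namespace Pool.Agent.Lib.MP_6a1159_al.BS

namespace Surf

variable {P : Type} [Group P] {G : Subgroup (MulAut P)} (S : Surf P G)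

theorem c_cur : S.c ∈ S.Cur := ⟨1, G.one_mem, rfl⟩

/-- PROOF: choice. -/
theorem rep_spec (x : P) (hx : x ∈ S.Cur) : S.rep x ∈ G ∧ S.rep x S.c = x := by
  have h : ∃ f ∈ G, f S.c = x := hx
  unfold rep
  rw [dif_pos h]
  exact h.choose_spec

theorem cur_map (f : MulAut P) (hf : f ∈ G) (x : P) : f x ∈ S.Cur ↔ x ∈ S.Cur := by
  constructor
  · rintro ⟨f', hf', h⟩
    refine ⟨f⁻¹ * f', G.mul_mem (G.inv_mem hf) hf', ?_⟩
    rw [MulAut.mul_apply, h, MulAut.inv_apply_self]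
  · rintro ⟨f', hf', h⟩
    refine ⟨f * f', G.mul_mem hf hf', ?_⟩
    rw [MulAut.mul_apply, h]

theorem cur_conj (g x : P) : g * x * g⁻¹ ∈ S.Cur ↔ x ∈ S.Cur := by
  have h := S.cur_map (MulAut.conj g) (S.conj_mem g) x
  rwa [MulAut.conj_apply] at h

private theorem E1a_inv {x : P} (hx : x ∈ S.Cur) : x⁻¹ ∈ S.Cur := by
  obtain ⟨f, hf, h⟩ := hx
  refine ⟨f * S.sw, G.mul_mem hf S.sw_mem, ?_⟩
  rw [MulAut.mul_apply, S.sw_c, map_inv, h]

/-- PROOF: `f c = x`, `(f * sw) c = f c⁻¹ = x⁻¹`. -/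
theorem cur_inv (x : P) : x⁻¹ ∈ S.Cur ↔ x ∈ S.Cur := by
  refine ⟨fun h => ?_, fun h => S.E1a_inv h⟩
  have h1 := S.E1a_inv h
  rwa [inv_inv] at h1

/-- PROOF: apply `f⁻¹` and `c_inf`. -/
theorem cur_inf (x : P) (hx : x ∈ S.Cur) (k : ℤ) (h : x ^ k = 1) : k = 0 := by
  obtain ⟨f, hf, rfl⟩ := hx
  rw [← map_zpow] at h
  have h1 : S.c ^ k = 1 := by
    have h2 := congrArg (fun y => f⁻¹ y) h
    simp only [MulAut.inv_apply_self, map_one] at h2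
    exact h2
  exact S.c_inf k h1

/-- PROOF: apply `f⁻¹` (`x = f c`) and `Spl.mal`. -/
theorem cur_mal (x : P) (hx : x ∈ S.Cur) (g : P) (k : ℤ) (hk : k ≠ 0)
    (h : g⁻¹ * x ^ k * g ∈ Subgroup.zpowers x) : g ∈ Subgroup.zpowers x := by
  obtain ⟨f, hf, rfl⟩ := hx
  obtain ⟨j, hj⟩ := Subgroup.mem_zpowers_iff.mp h
  have h1 : (f⁻¹ g)⁻¹ * S.c ^ k * f⁻¹ g ∈ Subgroup.zpowers S.c := by
    refine Subgroup.mem_zpowers_iff.mpr ⟨j, ?_⟩
    have h2 := congrArg (fun y => f⁻¹ y) hj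
    simp only [map_mul, map_inv, map_zpow, MulAut.inv_apply_self] at h2
    exact h2
  obtain ⟨i, hi⟩ := Subgroup.mem_zpowers_iff.mp (S.toSpl.mal (f⁻¹ g) k hk h1)
  refine Subgroup.mem_zpowers_iff.mpr ⟨i, ?_⟩
  rw [← map_zpow, hi, MulAut.apply_inv_self]

/-- Commensurable curves are equal up to orientation. PROOF: `x ^ k = z ^ j`; `j ≠ 0` by
`cur_inf`. `x⁻¹ * z ^ j * x = x ^ k = z ^ j ∈ ⟨z⟩`, so `x ∈ ⟨z⟩` (`cur_mal`), and similarly `z ∈ ⟨x⟩`: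
`x = z ^ a`, `z = x ^ b`, `x = x ^ (a * b)`, `a * b = 1` (`cur_inf`), `a = 1` or `a = -1`. -/
theorem cur_comm (x z : P) (hx : x ∈ S.Cur) (hz : z ∈ S.Cur) (k : ℤ) (hk : k ≠ 0)
    (h : x ^ k ∈ Subgroup.zpowers z) : x = z ∨ x = z⁻¹ := by
  obtain ⟨j, hj⟩ := Subgroup.mem_zpowers_iff.mp h
  have hj0 : j ≠ 0 := by
    rintro rfl
    rw [zpow_zero] at hj
    exact hk (S.cur_inf x hx k hj.symm)
  have c1 : x⁻¹ * x ^ k * x = x ^ k := by
    rw [mul_assoc, (Commute.refl x).zpow_left k |>.eq, ← mul_assoc, inv_mul_cancel, one_mul]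
  have c2 : z⁻¹ * z ^ j * z = z ^ j := by
    rw [mul_assoc, (Commute.refl z).zpow_left j |>.eq, ← mul_assoc, inv_mul_cancel, one_mul]
  have h1 : x ∈ Subgroup.zpowers z := by
    refine S.cur_mal z hz x j hj0 ?_
    rw [hj, c1]
    exact h
  have h2 : z ∈ Subgroup.zpowers x := by
    refine S.cur_mal x hx z k hk ?_
    rw [← hj, c2, hj]
    exact Subgroup.mem_zpowers_iff.mpr ⟨k, rfl⟩
  obtain ⟨a, ha⟩ := Subgroup.mem_zpowers_iff.mp h1
  obtain ⟨b, hb⟩ := Subgroup.mem_zpowers_iff.mp h2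
  have h3 : x ^ (b * a - 1) = 1 := by
    rw [zpow_sub, zpow_mul, hb, ha, zpow_one, mul_inv_cancel]
  have h4 := S.cur_inf x hx _ h3
  have h5 : b * a = 1 := by omega
  rcases Int.eq_one_or_neg_one_of_mul_eq_one' h5 with ⟨-, h6⟩ | ⟨-, h6⟩
  · left
    rw [← ha, h6, zpow_one]
  · right
    rw [← ha, h6, zpow_neg, zpow_one]

/-- PROOF: if `(f⁻¹ x) ^ k ∈ ⟨c⟩`, `k ≠ 0`, then `x ^ k ∈ ⟨f c⟩`, `cur_comm`. -/
theorem NC_of_ne (f : MulAut P) (hf : f ∈ G) (x : P) (hx : x ∈ S.Cur) (h1 : x ≠ f S.c)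
    (h2 : x ≠ (f S.c)⁻¹) : S.NC (f⁻¹ x) := by
  intro k hk hm
  obtain ⟨j, hj⟩ := Subgroup.mem_zpowers_iff.mp hm
  have h3 : x ^ k ∈ Subgroup.zpowers (f S.c) := by
    refine Subgroup.mem_zpowers_iff.mpr ⟨j, ?_⟩
    rw [← map_zpow, hj, map_zpow, MulAut.apply_inv_self]
  rcases S.cur_comm x (f S.c) hx ⟨f, hf, rfl⟩ k hk h3 with h | h
  · exact h1 h
  · exact h2 h

end Surf

end Pool.Agent.Lib.MP_6a1159_al.BS
end

section

/-! E1b: curves and crossing numbers. -/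

set_option autoImplicit false

open Filter

namespace Pool.Agent.Lib.MP_6a1159_al.BS

namespace Surf

variable {P : Type} [Group P] {G : Subgroup (MulAut P)} (S : Surf P G)

/-- The crossing number does not depend on the chosen automorphism. PROOF: let `r := S.rep (f c)`,
`x = h c` with `h ∈ G`. If `x = f c` or `x = (f c)⁻¹` then both `eps` are `0` (`f⁻¹ x = c ^ (±1)`,
`r⁻¹ x = c ^ (±1)`, `E_Z`). Otherwise `NC_of_ne` for `f` and for `r`, and by `antisym'`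
`eps (r⁻¹ (h c)) = - eps (h⁻¹ (r c)) = - eps (h⁻¹ (f c)) = eps (f⁻¹ (h c))`. -/
theorem ep_eq (f : MulAut P) (hf : f ∈ G) (x : P) (hx : x ∈ S.Cur) :
    S.ep x (f S.c) = S.eps (f⁻¹ x) := by
  obtain ⟨hrG, hrc⟩ := S.rep_spec (f S.c) ⟨f, hf, rfl⟩
  unfold Surf.ep
  set r := S.rep (f S.c) with hr
  by_cases h1 : x = f S.c
  · rw [h1, MulAut.inv_apply_self]
    nth_rewrite 1 [← hrc]
    rw [MulAut.inv_apply_self]
  by_cases h2 : x = (f S.c)⁻¹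
  · rw [h2, map_inv, map_inv, MulAut.inv_apply_self]
    nth_rewrite 1 [← hrc]
    rw [MulAut.inv_apply_self]
  · have n1 : S.NC (f⁻¹ x) := S.NC_of_ne f hf x hx h1 h2
    have n2 : S.NC (r⁻¹ x) := S.NC_of_ne r hrG x hx (by rw [hrc]; exact h1) (by rw [hrc]; exact h2)
    obtain ⟨h, hh, rfl⟩ := hx
    rw [S.antisym' r h hrG hh n2, S.antisym' f h hf hh n1, hrc]

/-- PROOF: `ep_eq` with `f = 1`. -/
theorem ep_c (x : P) (hx : x ∈ S.Cur) : S.ep x S.c = S.eps x := by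
  have := S.ep_eq 1 (one_mem G) x hx
  simpa using this

/-- PROOF: `ep_eq` for `z = h c` and `f z = (f * h) c`. -/
theorem ep_map (f : MulAut P) (hf : f ∈ G) (x z : P) (hx : x ∈ S.Cur) (hz : z ∈ S.Cur) :
    S.ep (f x) (f z) = S.ep x z := by
  obtain ⟨h, hh, rfl⟩ := hz
  rw [← MulAut.mul_apply, S.ep_eq (f * h) (mul_mem hf hh) (f x) ((S.cur_map f hf x).2 hx),
    S.ep_eq h hh x hx, mul_inv_rev, MulAut.mul_apply, MulAut.inv_apply_self]

/-- PROOF: `ep_map` with `MulAut.conj g`. -/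
theorem ep_conj (g x z : P) (hx : x ∈ S.Cur) (hz : z ∈ S.Cur) :
    S.ep (g * x * g⁻¹) (g * z * g⁻¹) = S.ep x z := by
  have := S.ep_map (MulAut.conj g) (S.conj_mem g) x z hx hz
  simpa only [MulAut.conj_apply] using this

/-- PROOF: `ep_eq` and `antisym'` (if not NC both are `0`, by `NC_of_eps` and `NC_comm`). -/
theorem ep_anti (x z : P) (hx : x ∈ S.Cur) (hz : z ∈ S.Cur) : S.ep z x = - S.ep x z := by
  obtain ⟨f, hf, rfl⟩ := hx
  obtain ⟨h, hh, rfl⟩ := hz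
  rw [S.ep_eq f hf (h S.c) ⟨h, hh, rfl⟩, S.ep_eq h hh (f S.c) ⟨f, hf, rfl⟩]
  by_cases hn : S.NC (f⁻¹ (h S.c))
  · exact S.antisym' f h hf hh hn
  · have hn' : ¬ S.NC (h⁻¹ (f S.c)) := fun h' => hn (S.NC_comm h f h')
    have e1 : S.eps (f⁻¹ (h S.c)) = 0 := by
      by_contra h'
      exact hn (S.NC_of_eps _ h')
    have e2 : S.eps (h⁻¹ (f S.c)) = 0 := by
      by_contra h'
      exact hn' (S.NC_of_eps _ h')
    rw [e1, e2, neg_zero]

/-- PROOF: `map_inv`, `eps_inv`. -/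
theorem ep_inv_left (x z : P) : S.ep x⁻¹ z = - S.ep x z := by
  unfold Surf.ep
  rw [map_inv, S.eps_inv]

/-- PROOF: `ep_anti`, `ep_inv_left`, `ep_anti`. -/
theorem ep_inv_right (x z : P) (hx : x ∈ S.Cur) (hz : z ∈ S.Cur) :
    S.ep x z⁻¹ = - S.ep x z := by
  rw [S.ep_anti z⁻¹ x ((S.cur_inv z).2 hz) hx, S.ep_inv_left, neg_neg, S.ep_anti x z hx hz]

/-- Curves of the same class do not cross. PROOF: `x = f c`; `ep (g * x * g⁻¹) x =
eps (f⁻¹ g * c * (f⁻¹ g)⁻¹) = 0` by `ep_eq` and `eps_cc`; `ep_anti`. -/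
theorem ep_same (x g : P) (hx : x ∈ S.Cur) : S.ep x (g * x * g⁻¹) = 0 := by
  rw [S.ep_anti (g * x * g⁻¹) x ((S.cur_conj g x).2 hx) hx]
  obtain ⟨f, hf, rfl⟩ := hx
  rw [S.ep_eq f hf _ ((S.cur_conj g _).2 ⟨f, hf, rfl⟩), map_mul, map_mul, map_inv, MulAut.inv_apply_self,
    S.eps_cc, neg_zero]

theorem ep_cases (x z : P) : S.ep x z = 0 ∨ S.ep x z = 1 ∨ S.ep x z = -1 := by
  unfold Surf.ep Spl.eps
  rcases S.E_01 ((S.rep z)⁻¹ x) with h | h <;> rcases S.E_01 ((S.rep z)⁻¹ x)⁻¹ with h' | h' <;>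
    rw [h, h'] <;> norm_num

end Surf

end Pool.Agent.Lib.MP_6a1159_al.BS
end

section

/-! E1: see the imported files. -/
end

section

/-! E4a: the two orders on the curves which cross `c` positively. -/

set_option autoImplicit false

open Filter

namespace Pool.Agent.Lib.MP_6a1159_al.BS

namespace Surf

variable {P : Type} [Group P] {G : Subgroup (MulAut P)} (S : Surf P G)

/-- PROOF: `x ≠ z` and `x ≠ z⁻¹` (`ep z⁻¹ c = -1`), so `NC_of_ne`. -/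
theorem xp_NC (x z : P) (hx : x ∈ S.Cur ∧ S.ep x S.c = 1) (hz : z ∈ S.Cur ∧ S.ep z S.c = 1)
    (h : x ≠ z) (f : MulAut P) (hf : f ∈ G) (hfz : f S.c = z) : S.NC (f⁻¹ x) := by
  refine S.NC_of_ne f hf x hx.1 (by rw [hfz]; exact h) ?_
  rw [hfz]
  intro hxz
  have h1 := hx.2
  rw [hxz, S.ep_inv_left, hz.2] at h1
  norm_num at h1

/-- The side of the ends of `x` with respect to the wall of `z` does not depend on the chosen
automorphism, if both cross `c` positively. PROOF: let `h := rep x`. By `trich f h` and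
`trich (rep z) h` (`xp_NC`, `ep_c`) both `E (f⁻¹ x)` and `E ((rep z)⁻¹ x)` are `1 - E (h⁻¹ z)`; the same for
`x⁻¹`. -/
theorem xp_indep (x z : P) (hx : x ∈ S.Cur ∧ S.ep x S.c = 1)
    (hz : z ∈ S.Cur ∧ S.ep z S.c = 1) (h : x ≠ z) (f : MulAut P) (hf : f ∈ G)
    (hfz : f S.c = z) : S.E (f⁻¹ x) = S.E ((S.rep z)⁻¹ x) ∧
      S.E (f⁻¹ x⁻¹) = S.E ((S.rep z)⁻¹ x⁻¹) := by
  obtain ⟨hh, hhx⟩ := S.rep_spec x hx.1
  obtain ⟨hr, hrz⟩ := S.rep_spec z hz.1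
  have e1 : S.eps (S.rep x S.c) = 1 := by
    rw [hhx, ← S.ep_c x hx.1]
    exact hx.2
  have e2 : S.eps (f S.c) = 1 := by
    rw [hfz, ← S.ep_c z hz.1]
    exact hz.2
  have e3 : S.eps (S.rep z S.c) = 1 := by
    rw [hrz, ← S.ep_c z hz.1]
    exact hz.2
  have t1 := S.trich f (S.rep x) hf hh e2 e1 (by
    rw [hhx]
    exact S.xp_NC x z hx hz h f hf hfz)
  have t2 := S.trich (S.rep z) (S.rep x) hr hh e3 e1 (by
    rw [hhx]
    exact S.xp_NC x z hx hz h (S.rep z) hr hrz)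
  rw [hhx, hfz] at t1
  rw [hhx, hrz] at t2
  exact ⟨by linarith [t1.1, t2.1], by linarith [t1.2, t2.2]⟩

/-- Conjugation by `c` preserves the positively crossing curves. PROOF: `cur_conj`, `ep_conj` with
`g = c` (`c * c * c⁻¹ = c`). -/
theorem xp_shift (x : P) : (S.c * x * S.c⁻¹ ∈ S.Cur ∧ S.ep (S.c * x * S.c⁻¹) S.c = 1) ↔
    (x ∈ S.Cur ∧ S.ep x S.c = 1) := by
  have hc : S.c * S.c * S.c⁻¹ = S.c := mul_inv_cancel_right _ _
  rw [S.cur_conj]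
  constructor
  · rintro ⟨h1, h2⟩
    refine ⟨h1, ?_⟩
    have h3 := S.ep_conj S.c x S.c h1 S.c_cur
    rw [hc] at h3
    rw [← h3]
    exact h2
  · rintro ⟨h1, h2⟩
    refine ⟨h1, ?_⟩
    have h3 := S.ep_conj S.c x S.c h1 S.c_cur
    rw [hc] at h3
    rw [h3]
    exact h2

end Surf

end Pool.Agent.Lib.MP_6a1159_al.BS
end

section

/-! M1a: curves of different classes cross (preparations). -/

set_option autoImplicit false

open Filter

namespace Pool.Agent.Lib.MP_6a1159_al.BS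

namespace Surf

variable {P : Type} [Group P] {G : Subgroup (MulAut P)} (S : Surf P G)

/-- PROOF: let `x := f c` and apply `S.relEnd` to `U a := chi (γ * f a)` and
`ψ a := E (γ * f a * x * (γ * f a)⁻¹)`. Finiteness: let `s ∈ A` and `F` the set of `S.fin (f s)`; if
`a ∈ A`, `chi (γ * f a * f s) ≠ chi (γ * f a)` then `γ * f a = c ^ k * y` with `y ∈ F`; for each `y`
there is at most one such `a`: if also `γ * f a' = c ^ k' * y` then
`f (a * a'⁻¹) = γ⁻¹ * c ^ (k - k') * γ ∈ f A`, so `k = k'` by `hA`, and `a = a'`. Line ends: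
`γ * f (a * c ^ k) = γ * f a * x ^ k = (γ' * x * γ'⁻¹) ^ k * γ'` with `γ' := γ * f a`, so its `chi` tends to
`E (γ' * x * γ'⁻¹) = ψ a` (`E_spec`, `hNC`), and for `c⁻¹` to
`E (γ' * x⁻¹ * γ'⁻¹) = E (γ' * x * γ'⁻¹)` by `h0` (`(γ' * x * γ'⁻¹)⁻¹ = γ' * x⁻¹ * γ'⁻¹`). So
`ψ a = ψ 1 = E (γ * x * γ⁻¹)`. -/
theorem constA (f : MulAut P) (hNC : ∀ g, S.NC (g * f S.c * g⁻¹))
    (h0 : ∀ g, S.eps (g * f S.c * g⁻¹) = 0)
    (hA : ∀ g : P, ∀ k : ℤ, ∀ a ∈ S.A, f a = g⁻¹ * S.c ^ k * g → k = 0)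
    (γ : P) (a : P) (ha : a ∈ S.A) :
    S.E (γ * f a * f S.c * (γ * f a)⁻¹) = S.E (γ * f S.c * γ⁻¹) := by
  have key := S.relEnd (fun a => S.chi (γ * f a))
    (fun a => S.E (γ * f a * f S.c * (γ * f a)⁻¹)) ?_ ?_ a ha
  · simpa using key
  · intro s hs
    obtain ⟨F, hF⟩ := S.toSpl.fin (f s)
    refine Set.Finite.subset (Set.Finite.biUnion F.finite_toSet
      (t := fun y => {a | a ∈ S.A ∧ ∃ k : ℤ, γ * f a = S.c ^ k * y}) ?_) ?_
    · intro y hy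
      apply Set.Subsingleton.finite
      rintro a1 ⟨h1, k1, e1⟩ a2 ⟨h2, k2, e2⟩
      have e3 : f (a1 * a2⁻¹) = γ⁻¹ * S.c ^ (k1 - k2) * γ := by
        have e1' : f a1 = γ⁻¹ * (S.c ^ k1 * y) := by rw [← e1]; group
        have e2' : f a2 = γ⁻¹ * (S.c ^ k2 * y) := by rw [← e2]; group
        rw [map_mul, map_inv, e1', e2']
        group
      have hk := hA γ (k1 - k2) (a1 * a2⁻¹) (S.A.mul_mem h1 (S.A.inv_mem h2)) e3
      rw [hk, zpow_zero, mul_one, inv_mul_cancel] at e3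
      have e4 : a1 * a2⁻¹ = 1 := by
        apply f.injective
        rw [e3, map_one]
      exact mul_inv_eq_one.1 e4
    · rintro a1 ⟨h1, e1⟩
      simp only [map_mul, ← mul_assoc] at e1
      obtain ⟨y, hy, k, e2⟩ := hF (γ * f a1) e1
      exact Set.mem_biUnion hy ⟨h1, k, e2⟩
  · intro a1 h1
    have hb := S.toSpl.E_spec (γ * f a1 * f S.c * (γ * f a1)⁻¹) (hNC (γ * f a1)) (γ * f a1)
    have hc := S.toSpl.E_spec (γ * f a1 * f S.c * (γ * f a1)⁻¹)⁻¹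
      ((S.toSpl.NC_inv _).2 (hNC (γ * f a1))) (γ * f a1)
    have he : S.E (γ * f a1 * f S.c * (γ * f a1)⁻¹)⁻¹ =
        S.E (γ * f a1 * f S.c * (γ * f a1)⁻¹) := by
      have := h0 (γ * f a1)
      unfold Spl.eps at this
      omega
    rw [he] at hc
    filter_upwards [hb, hc] with k hb' hc'
    constructor
    · show S.chi (γ * f (a1 * S.c ^ k)) = _
      rw [← hb']
      congr 1
      rw [conj_pow, map_mul, map_pow]
      group
    · show S.chi (γ * f (a1 * S.c⁻¹ ^ k)) = _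
      rw [← hc']
      congr 1
      rw [conj_inv, conj_pow, map_mul, map_pow, map_inv]
      group

/-- PROOF: `constA` for `f * sw` (`(f * sw) c = (f c)⁻¹`, `NC_inv`, `eps_inv`; `sw a ∈ B`): for `b ∈ B` take
`a := sw⁻¹ b ∈ A`; it gives the claim for `(f c)⁻¹`, and
`E (g * (f c)⁻¹ * g⁻¹) = E (g * f c * g⁻¹)` by `h0`. -/
theorem constB (f : MulAut P) (hNC : ∀ g, S.NC (g * f S.c * g⁻¹))
    (h0 : ∀ g, S.eps (g * f S.c * g⁻¹) = 0)
    (hB : ∀ g : P, ∀ k : ℤ, ∀ b ∈ S.B, f b = g⁻¹ * S.c ^ k * g → k = 0)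
    (γ : P) (b : P) (hb : b ∈ S.B) :
    S.E (γ * f b * f S.c * (γ * f b)⁻¹) = S.E (γ * f S.c * γ⁻¹) := by
  have hsw : (f * S.sw) S.c = (f S.c)⁻¹ := by
    rw [MulAut.mul_apply, S.sw_c, map_inv]
  have hE : ∀ g, S.E (g * (f S.c)⁻¹ * g⁻¹) = S.E (g * f S.c * g⁻¹) := by
    intro g
    have := h0 g
    unfold Spl.eps at this
    rw [← conj_inv]
    omega
  have key := constA S (f * S.sw) ?_ ?_ ?_ γ (S.sw⁻¹ b) ?_
  · rw [hsw] at key
    have e1 : (f * S.sw) (S.sw⁻¹ b) = f b := by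
      rw [MulAut.mul_apply, MulAut.apply_inv_self]
    rw [e1, hE, hE] at key
    exact key
  · intro g
    rw [hsw, ← conj_inv]
    exact (S.toSpl.NC_inv _).2 (hNC g)
  · intro g
    rw [hsw, ← conj_inv, S.toSpl.eps_inv, h0, neg_zero]
  · intro g k a ha e1
    exact hB g k (S.sw a) ((S.sw_A a).1 ha) e1
  · rw [S.sw_A, MulAut.apply_inv_self]
    exact hb

end Surf

end Pool.Agent.Lib.MP_6a1159_al.BS
end
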