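import Pool.Agent.Lib.MP_6a1159_al.Mg.G011
import Pool.Agent.Lib.MP_6a1159_al.Mg.G009

section

/-! S9: finiteness of the set of elements whose axis has a long common part with a given axis. -/

set_option autoImplicit false

open Filter

namespace Pool.Agent.Lib.MP_6a1159_al.BS

namespace Spl

variable {P : Type} [Group P] (S : Spl P)

private theorem S9_ev (y v : P) (h1 : S.E (v * y * v⁻¹) = 1) (h0 : S.E (v * y⁻¹ * v⁻¹) = 0) :
    ∀ᶠ n : ℕ in atTop, S.chi (v * y⁻¹ ^ n) = 0 := by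
  have heps : S.eps (v * y⁻¹ * v⁻¹) ≠ 0 := by
    unfold Spl.eps
    have h2 : (v * y⁻¹ * v⁻¹)⁻¹ = v * y * v⁻¹ := by group
    rw [h2, h0, h1]
    norm_num
  have hNC := S.NC_of_eps _ heps
  have hev := S.E_spec' v⁻¹ y⁻¹ (by rwa [inv_inv]) 1
  filter_upwards [hev] with n hn
  rw [inv_inv, mul_one, h0] at hn
  exact hn

/-- PROOF: let `J` be as in `period y`, and `F` the finite set of `fin (y ^ J)`. If `v` is in the
set then `chi (v⁻¹ * y ^ J) = 1` (`period`) and `chi v⁻¹ = 0` (`mono'`), so `v⁻¹ = c ^ k * s` with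
`s ∈ F`. It suffices to show that for each `s` there is at most one such `v`
(`Set.Finite.subset` of a finite union of subsingletons, or an injection into `F`). Let `v, v'` be in the set with
`v⁻¹ = c ^ k * s`, `v'⁻¹ = c ^ k' * s`. Then `v'⁻¹ = c ^ (k' - k) * v⁻¹`, so `v' = v * c ^ m` with
`m := k - k'`. Suppose `m ≠ 0`. Since `E (v * y⁻¹ * v⁻¹) = 0` and `v * y⁻¹ * v⁻¹` is `NC`
(its inverse has `E = 1`, so its `eps` is not `0`), `E_spec'` (with `p = v⁻¹`, `u = y⁻¹`, `g = 1`)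
gives `chi (v * y⁻¹ ^ n) = 0` for all large `n : ℕ`; similarly `chi (v * c ^ m * y⁻¹ ^ n) = 0` for
all large `n`. But `chi v = 1` (`mono'`), `v⁻¹ ∉ ⟨c⟩`, and `far v⁻¹ m` at `g = y⁻¹ ^ n` says
`chi (v * y⁻¹ ^ n) = chi v = 1` or `chi (v * c ^ m * y⁻¹ ^ n) = chi v = 1`, a contradiction. -/
theorem finV (y : P) (h1 : S.E y = 1) (h0 : S.E y⁻¹ = 0) :
    {v : P | (S.E v = 1 ∧ S.E v⁻¹ = 0) ∧
      (∀ n : ℕ, n ≤ 2 → S.E (v⁻¹ ^ n * y * v ^ n) = 1 ∧ S.E (v⁻¹ ^ n * y⁻¹ * v ^ n) = 0) ∧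
      (S.E (v * y * v⁻¹) = 1 ∧ S.E (v * y⁻¹ * v⁻¹) = 0) ∧
      (∀ K K' : ℤ, K ≠ 0 → v⁻¹ * y ^ K' * v ≠ y ^ K)}.Finite := by
  obtain ⟨J, hJ⟩ := S.period y h1 h0
  obtain ⟨F, hF⟩ := S.fin (y ^ J)
  have hfin : (⋃ s ∈ F, {v : P | (S.E v = 1 ∧ S.E v⁻¹ = 0) ∧
      (S.E (v * y * v⁻¹) = 1 ∧ S.E (v * y⁻¹ * v⁻¹) = 0) ∧
      ∃ k : ℤ, v⁻¹ = S.c ^ k * s}).Finite := by
    refine Set.Finite.biUnion F.finite_toSet fun s _ => Set.Subsingleton.finite ?_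
    rintro v ⟨⟨hv1, hv0⟩, ⟨hv2, hv3⟩, k, hk⟩ v' ⟨-, ⟨hv2', hv3'⟩, k', hk'⟩
    have hvv : v' = v * S.c ^ (k - k') := by
      have e1 : v = s⁻¹ * (S.c ^ k)⁻¹ := by rw [← inv_inv v, hk, mul_inv_rev]
      have e2 : v' = s⁻¹ * (S.c ^ k')⁻¹ := by rw [← inv_inv v', hk', mul_inv_rev]
      rw [e1, e2, zpow_sub]
      group
    by_cases hm : k - k' = 0
    · rw [hm, zpow_zero, mul_one] at hvv
      exact hvv.symm
    · exfalso
      obtain ⟨hc1, -, -⟩ := S.mono' v hv1 hv0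
      have hnot : v⁻¹ ∉ Subgroup.zpowers S.c := by
        intro h
        have h' : v ∈ Subgroup.zpowers S.c := by
          have := (Subgroup.zpowers S.c).inv_mem h
          rwa [inv_inv] at this
        have := S.chi_Z v h'
        rw [hc1] at this
        exact one_ne_zero this
      have ev1 := S9_ev S y v hv2 hv3
      have ev2 := S9_ev S y v' hv2' hv3'
      obtain ⟨n, hn1, hn2⟩ := (ev1.and ev2).exists
      rw [hvv] at hn2
      rcases S.far v⁻¹ hnot (k - k') hm (y⁻¹ ^ n) with h | h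
      · rw [inv_inv, hn1, hc1] at h
        exact one_ne_zero h.symm
      · rw [inv_inv, hn2, hc1] at h
        exact one_ne_zero h.symm
  refine hfin.subset ?_
  rintro v ⟨⟨hv1, hv0⟩, hv2, hv3, hv4⟩
  have h2 := hJ v hv1 hv0 hv2 hv4
  obtain ⟨-, h3, -⟩ := S.mono' v hv1 hv0
  obtain ⟨s, hs, k, hk⟩ := hF v⁻¹ (by rw [h2, h3]; exact one_ne_zero)
  exact Set.mem_biUnion hs ⟨⟨hv1, hv0⟩, hv3, k, hk⟩

end Spl

end Pool.Agent.Lib.MP_6a1159_al.BS
end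

section

/-! M1b: curves of different classes cross (preparations). -/

set_option autoImplicit false

open Filter

namespace Pool.Agent.Lib.MP_6a1159_al.BS

namespace Surf

variable {P : Type} [Group P] {G : Subgroup (MulAut P)} (S : Surf P G)

/-- Some power of a conjugate of `c` lies in `f A` or in `f B`. PROOF: suppose not. Then the
hypotheses `hA`, `hB` of `constA`, `constB` hold. With `x := f c` and `ψ γ := E (γ * x * γ⁻¹)` we get
`ψ (γ * f a) = ψ γ`, `ψ (γ * f b) = ψ γ`, so by `Spl.ind` applied to `w ↦ (ψ (f w) = ψ 1)`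
(`f (w * a) = f w * f a`) and surjectivity of `f`, `ψ` is constant, `ψ = q`. By `E_spec`
(`γ * x ^ k = (γ * x * γ⁻¹) ^ k * γ`) `chi (γ * x ^ k) = q` for all large `k : ℕ`, for every `γ`. If
`q = 1`: let `a ∈ A`, `a ∉ ⟨c⟩` (`ne_A`); `nested a` at `x ^ k` for large `k`: `1 = chi a = 0` or
`1 = chi (a⁻¹ * x ^ k) = chi a⁻¹ = 0`, impossible. If `q = 0`: `b ∈ B`, `b ∉ ⟨c⟩`: `0 = chi b = 1` or
`0 = chi (b⁻¹ * x ^ k) = chi b⁻¹ = 1`, impossible. -/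
theorem elliptic (f : MulAut P) (hNC : ∀ g, S.NC (g * f S.c * g⁻¹))
    (h0 : ∀ g, S.eps (g * f S.c * g⁻¹) = 0) :
    ∃ g : P, ∃ k : ℤ, k ≠ 0 ∧ ((∃ a ∈ S.A, f a = g⁻¹ * S.c ^ k * g) ∨
      ∃ b ∈ S.B, f b = g⁻¹ * S.c ^ k * g) := by
  by_contra hno
  have hA : ∀ g : P, ∀ k : ℤ, ∀ a ∈ S.A, f a = g⁻¹ * S.c ^ k * g → k = 0 := by
    intro g k a ha h
    by_contra hk
    exact hno ⟨g, k, hk, Or.inl ⟨a, ha, h⟩⟩
  have hB : ∀ g : P, ∀ k : ℤ, ∀ b ∈ S.B, f b = g⁻¹ * S.c ^ k * g → k = 0 := by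
    intro g k b hb h
    by_contra hk
    exact hno ⟨g, k, hk, Or.inr ⟨b, hb, h⟩⟩
  have hw : ∀ w : P, S.E (f w * f S.c * (f w)⁻¹) = S.E (f S.c) := by
    intro w
    refine S.toSpl.ind (fun w => S.E (f w * f S.c * (f w)⁻¹) = S.E (f S.c)) ?_ ?_ ?_ w
    · show S.E (f 1 * f S.c * (f 1)⁻¹) = S.E (f S.c)
      rw [map_one, one_mul, inv_one, mul_one]
    · intro g hg a ha
      show S.E (f (g * a) * f S.c * (f (g * a))⁻¹) = S.E (f S.c)
      rw [map_mul, S.constA f hNC h0 hA (f g) a ha]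
      exact hg
    · intro g hg b hb
      show S.E (f (g * b) * f S.c * (f (g * b))⁻¹) = S.E (f S.c)
      rw [map_mul, S.constB f hNC h0 hB (f g) b hb]
      exact hg
  have hlim : ∀ γ : P, ∀ᶠ k : ℕ in atTop, S.chi (γ * f S.c ^ k) = S.E (f S.c) := by
    intro γ
    obtain ⟨w, rfl⟩ := f.surjective γ
    have h1 := S.toSpl.E_spec (f w * f S.c * (f w)⁻¹) (hNC (f w)) (f w)
    rw [hw w] at h1
    refine h1.mono fun k hk => ?_
    rw [conj_pow, inv_mul_cancel_right] at hk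
    exact hk
  rcases S.toSpl.E_01 (f S.c) with hq | hq
  · obtain ⟨b, hb, hbn⟩ := S.ne_B
    have hbn' : b⁻¹ ∉ Subgroup.zpowers S.c := fun h => hbn ((Subgroup.inv_mem_iff _).1 h)
    obtain ⟨k, h1, h2⟩ := ((hlim 1).and (hlim b⁻¹)).exists
    rw [one_mul] at h1
    rcases S.toSpl.nested b hbn (f S.c ^ k) with h | h
    · rw [h1, hq, S.chi_b b hb hbn] at h
      exact zero_ne_one h
    · rw [h2, hq, S.chi_b b⁻¹ (inv_mem hb) hbn'] at h
      exact zero_ne_one h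
  · obtain ⟨a, ha, han⟩ := S.ne_A
    obtain ⟨k, h1, h2⟩ := ((hlim 1).and (hlim a⁻¹)).exists
    rw [one_mul] at h1
    rcases S.toSpl.nested a han (f S.c ^ k) with h | h
    · rw [h1, hq, S.toSpl.chi_mem_A a ha] at h
      exact one_ne_zero h
    · rw [h2, hq, S.toSpl.chi_mem_A a⁻¹ (inv_mem ha)] at h
      exact one_ne_zero h

/-- PROOF: suppose `f b = g⁻¹ * c ^ k * g`, `f a = g'⁻¹ * c ^ k' * g'` with `k ≠ 0`, `k' ≠ 0`, `b ∈ B`,
`a ∈ A`. Then `z := b ^ k' ∈ B` and `f z = g⁻¹ * c ^ (k * k') * g`, and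
`f (a ^ k) = g'⁻¹ * c ^ (k * k') * g'`; with `h := f⁻¹ (g⁻¹ * g')`: `z = h * a ^ k * h⁻¹`. `fixed_AB z h`:
there is `b' ∈ B` with `b'⁻¹ * z * b' = c ^ m`. `m ≠ 0`: otherwise `z = 1`, `c ^ (k * k') = 1`,
`c_inf`. Applying `f`: `(f c) ^ m = f b'⁻¹ * g⁻¹ * c ^ (k * k') * g * f b'`, so with
`g'' := g * f b'`: `(g'' * f c * g''⁻¹) ^ m = c ^ (k * k') ∈ ⟨c⟩`, against `hNC g''`. -/
theorem not_both (f : MulAut P) (hNC : ∀ g, S.NC (g * f S.c * g⁻¹)) (g g' : P) (k k' : ℤ)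
    (hk : k ≠ 0) (hk' : k' ≠ 0) (a b : P) (ha : a ∈ S.A) (hb : b ∈ S.B)
    (h1 : f b = g⁻¹ * S.c ^ k * g) (h2 : f a = g'⁻¹ * S.c ^ k' * g') : False := by
  have hz : f (b ^ k') = g⁻¹ * S.c ^ (k * k') * g := by
    rw [map_zpow, h1, zpow_mul]
    have h3 := conj_zpow (i := k') (a := g⁻¹) (b := S.c ^ k)
    rw [inv_inv] at h3
    exact h3
  have ha2 : f (a ^ k) = g'⁻¹ * S.c ^ (k * k') * g' := by
    rw [map_zpow, h2, mul_comm k k', zpow_mul]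
    have h3 := conj_zpow (i := k) (a := g'⁻¹) (b := S.c ^ k')
    rw [inv_inv] at h3
    exact h3
  obtain ⟨h, hh⟩ := f.surjective (g⁻¹ * g')
  have hzh : b ^ k' = h * a ^ k * h⁻¹ := by
    apply f.injective
    rw [map_mul, map_mul, map_inv, ha2, hz, hh]
    group
  have hz' : h⁻¹ * b ^ k' * h ∈ S.A := by
    have h3 : h⁻¹ * b ^ k' * h = a ^ k := by
      rw [hzh]
      group
    rw [h3]
    exact zpow_mem ha k
  obtain ⟨b', hb', m, hm⟩ := S.toSpl.fixed_AB (b ^ k') h (zpow_mem hb k') hz'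
  have hm' : S.c ^ m = b'⁻¹ * b ^ k' * b' := hm
  have hm0 : m ≠ 0 := by
    intro h3
    rw [h3, zpow_zero] at hm'
    have h4 : b ^ k' = 1 := by
      calc b ^ k' = b' * (b'⁻¹ * b ^ k' * b') * b'⁻¹ := by group
        _ = 1 := by rw [← hm', mul_one, mul_inv_cancel]
    rw [h4, map_one] at hz
    have h5 : S.c ^ (k * k') = 1 := by
      calc S.c ^ (k * k') = g * (g⁻¹ * S.c ^ (k * k') * g) * g⁻¹ := by group
        _ = 1 := by rw [← hz, mul_one, mul_inv_cancel]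
    exact mul_ne_zero hk hk' (S.c_inf _ h5)
  refine hNC (g * f b') m hm0 ⟨k * k', ?_⟩
  show S.c ^ (k * k') = (g * f b' * f S.c * (g * f b')⁻¹) ^ m
  rw [conj_zpow, ← map_zpow, hm', map_mul, map_mul, map_inv, hz]
  group

end Surf

end Pool.Agent.Lib.MP_6a1159_al.BS
end
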