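import Pool.Agent.Lib.MP_6a1159_al.Mg.G009
import Pool.Agent.Lib.MP_6a1159_al.Mg.G008
import Pool.Agent.Lib.MP_6a1159_al.Mg.G014

section

/-! E4b: the two orders on the curves which cross `c` positively. -/

set_option autoImplicit false

open Filter

namespace Pool.Agent.Lib.MP_6a1159_al.BS

namespace Surf

variable {P : Type} [Group P] {G : Subgroup (MulAut P)} (S : Surf P G)

private theorem e4b_finv (f : MulAut P) (g y : P) :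
    (MulAut.conj g * f)⁻¹ y = (f⁻¹ g)⁻¹ * f⁻¹ y * f⁻¹ g := by
  rw [mul_inv_rev, MulAut.mul_apply, MulAut.conj_inv_apply, map_mul, map_mul, map_inv]

private theorem e4b_cur (z : P) (hz : z ∈ S.Cur ∧ S.ep z S.c = 1) (N : ℕ) :
    S.c ^ N * z * (S.c ^ N)⁻¹ ∈ S.Cur ∧ S.ep (S.c ^ N * z * (S.c ^ N)⁻¹) S.c = 1 := by
  refine ⟨(S.cur_conj _ _).2 hz.1, ?_⟩
  have h1 := S.ep_conj (S.c ^ N) z S.c hz.1 S.c_cur
  have h2 : S.c ^ N * S.c * (S.c ^ N)⁻¹ = S.c := by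
    rw [← pow_succ, pow_succ', mul_assoc, mul_inv_cancel, mul_one]
  rw [h2] at h1
  rw [h1]
  exact hz.2

/-- PROOF: `w = c ^ N * z * c ^ (-N)` is in `Xp`. If `x = c ^ k * z * c ^ (-k)` for some integer `k`, take
`N > k` and use `f := conj (c ^ N) * rep z` as the automorphism for `w`: with `v := (rep z)⁻¹ c`,
`f⁻¹ x = v ^ (k - N) * c * v ^ (N - k)` and by `E_cc` its `E` is `chi (v ^ (k - N))`, which is `1` by
`mono_pow` (`ahead`: `E v = 0`, `E v⁻¹ = 1`; `v ^ (k-N) ∉ ⟨c⟩` as `chi ≠ 0`), and the same for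
`x⁻¹`; so every `N > k`, `N ≥ 0` works. Otherwise all `c ^ n * z * c ^ (-n)` (`n : ℤ`) are different from
`x`, and with `v`, `y := (rep z)⁻¹ x` the elements `v⁻¹ ^ n * y * v ^ n = (conj (c ^ n) * rep z)⁻¹ x` are
NC (`xp_NC`); `hc` of `arch`: `y ^ K = v ^ N'`, `N' ≠ 0`, means `x ^ K = c ^ N'`, then `K ≠ 0`
(`c_inf`) and `x` is not NC, against `ep x c = eps x ≠ 0` (`ep_c`, `NC_of_eps`). `arch` for `y` and
for `y⁻¹` gives `E (v⁻¹ ^ n * y * v ^ n) = E v⁻¹ = 1` and `E (v⁻¹ ^ n * y⁻¹ * v ^ n) = 1` for all large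
`n`. Finally `xp_indep` to pass to `rep w`. -/
theorem xp_arch (x z : P) (hx : x ∈ S.Cur ∧ S.ep x S.c = 1)
    (hz : z ∈ S.Cur ∧ S.ep z S.c = 1) : ∃ N : ℕ,
      x ≠ S.c ^ N * z * (S.c ^ N)⁻¹ ∧
      S.E ((S.rep (S.c ^ N * z * (S.c ^ N)⁻¹))⁻¹ x) = 1 ∧
      S.E ((S.rep (S.c ^ N * z * (S.c ^ N)⁻¹))⁻¹ x⁻¹) = 1 := by
  obtain ⟨hrG, hrc⟩ := S.rep_spec z hz.1
  set h := S.rep z with hh
  obtain ⟨v, hv⟩ : ∃ v, h⁻¹ S.c = v := ⟨_, rfl⟩
  have hepz : S.eps z = 1 := by rw [← S.ep_c z hz.1]; exact hz.2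
  have hepx : S.eps x = 1 := by rw [← S.ep_c x hx.1]; exact hx.2
  obtain ⟨hvN, hv0, hv1⟩ := S.ahead h hrG (by rw [hrc]; exact hepz)
  rw [hv] at hvN hv0 hv1
  have hNCx : S.NC x := S.NC_of_eps x (by rw [hepx]; norm_num)
  have hfG : ∀ N : ℕ, MulAut.conj (S.c ^ N) * h ∈ G := fun N => mul_mem (S.conj_mem _) hrG
  have hfc : ∀ N : ℕ, (MulAut.conj (S.c ^ N) * h) S.c = S.c ^ N * z * (S.c ^ N)⁻¹ := by
    intro N
    rw [MulAut.mul_apply, hrc, MulAut.conj_apply]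
  have hfi : ∀ (N : ℕ) (y : P), (MulAut.conj (S.c ^ N) * h)⁻¹ y = v⁻¹ ^ N * h⁻¹ y * v ^ N := by
    intro N y
    rw [e4b_finv, map_pow, hv, inv_pow]
  have key : ∀ N : ℕ, x ≠ S.c ^ N * z * (S.c ^ N)⁻¹ →
      S.E (v⁻¹ ^ N * h⁻¹ x * v ^ N) = 1 → S.E (v⁻¹ ^ N * h⁻¹ x⁻¹ * v ^ N) = 1 →
      ∃ N : ℕ, x ≠ S.c ^ N * z * (S.c ^ N)⁻¹ ∧
      S.E ((S.rep (S.c ^ N * z * (S.c ^ N)⁻¹))⁻¹ x) = 1 ∧
      S.E ((S.rep (S.c ^ N * z * (S.c ^ N)⁻¹))⁻¹ x⁻¹) = 1 := by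
    intro N hne h1 h2
    obtain ⟨i1, i2⟩ := S.xp_indep x (S.c ^ N * z * (S.c ^ N)⁻¹) hx (S.e4b_cur z hz N) hne
      (MulAut.conj (S.c ^ N) * h) (hfG N) (hfc N)
    refine ⟨N, hne, ?_, ?_⟩
    · rw [← i1, hfi]; exact h1
    · rw [← i2, hfi]; exact h2
  by_cases hex : ∃ k : ℤ, x = S.c ^ k * z * S.c ^ (-k)
  · obtain ⟨k, hk⟩ := hex
    have hkN : k < ((k.toNat + 1 : ℕ) : ℤ) := by
      push_cast
      have := Int.self_le_toNat k
      omega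
    set N := k.toNat + 1 with hN
    obtain ⟨m, hm⟩ : ∃ m : ℕ, (N : ℤ) - k = m := ⟨((N : ℤ) - k).toNat, by omega⟩
    have hm0 : 0 < m := by omega
    have hg : S.chi (v⁻¹ ^ m) = 1 := (S.mono_pow v hv0 hv1 m hm0).2
    have hgZ : v⁻¹ ^ m ∉ Subgroup.zpowers S.c := by
      intro hc
      have := S.chi_Z _ hc
      omega
    have e1 : v⁻¹ ^ N * h⁻¹ x * v ^ N = v⁻¹ ^ m * S.c * (v⁻¹ ^ m)⁻¹ := by
      have hz' : h⁻¹ z = S.c := by rw [← hrc, MulAut.inv_apply_self]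
      rw [hk, map_mul, map_mul, map_zpow, map_zpow, hv, hz']
      have a1 : v⁻¹ ^ m = v ^ (k - N) := by
        rw [inv_pow, ← zpow_natCast, ← zpow_neg, ← hm]; congr 1; ring
      have a2 : v⁻¹ ^ N = v ^ (-(N : ℤ)) := by
        rw [inv_pow, ← zpow_natCast, ← zpow_neg]
      have a3 : v ^ N = v ^ ((N : ℤ)) := (zpow_natCast _ _).symm
      rw [a1, a2, a3, ← zpow_neg]
      have b1 : v ^ (-(N : ℤ)) * (v ^ k * S.c * v ^ (-k)) * v ^ (N : ℤ) =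
          (v ^ (-(N : ℤ)) * v ^ k) * S.c * (v ^ (-k) * v ^ (N : ℤ)) := by group
      rw [b1, ← zpow_add, ← zpow_add]
      congr 2
      · congr 1; ring
      · ring
    obtain ⟨c1, c2, c3⟩ := S.E_cc (v⁻¹ ^ m) hgZ
    have f1 : S.E (v⁻¹ ^ N * h⁻¹ x * v ^ N) = 1 := by rw [e1, c2, hg]
    have f2 : S.E (v⁻¹ ^ N * h⁻¹ x⁻¹ * v ^ N) = 1 := by
      have : v⁻¹ ^ N * h⁻¹ x⁻¹ * v ^ N = v⁻¹ ^ m * S.c⁻¹ * (v⁻¹ ^ m)⁻¹ := by
        have := congrArg (·⁻¹) e1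
        simp only [mul_inv_rev, inv_inv, inv_pow, map_inv] at this ⊢
        simpa only [mul_assoc] using this
      rw [this, c3, hg]
    refine key N ?_ f1 f2
    intro hxN
    have : h⁻¹ z = S.c := by rw [← hrc, MulAut.inv_apply_self]
    have e2 : v⁻¹ ^ N * h⁻¹ x * v ^ N = S.c := by
      rw [← hfi, hxN, ← hfc, MulAut.inv_apply_self]
    rw [e2, S.E_Z S.c (Subgroup.mem_zpowers S.c)] at f1
    exact absurd f1 (by norm_num)
  · push Not at hex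
    have hne : ∀ N : ℕ, x ≠ S.c ^ N * z * (S.c ^ N)⁻¹ := by
      intro N
      have := hex N
      rwa [zpow_neg, zpow_natCast] at this
    have hNC : ∀ n : ℕ, S.NC (v⁻¹ ^ n * h⁻¹ x * v ^ n) := by
      intro n
      rw [← hfi]
      exact S.xp_NC x _ hx (S.e4b_cur z hz n) (hne n) _ (hfG n) (hfc n)
    have hNC' : ∀ n : ℕ, S.NC (v⁻¹ ^ n * h⁻¹ x⁻¹ * v ^ n) := by
      intro n
      have : v⁻¹ ^ n * h⁻¹ x⁻¹ * v ^ n = (v⁻¹ ^ n * h⁻¹ x * v ^ n)⁻¹ := by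
        simp only [mul_inv_rev, inv_inv, inv_pow, map_inv, mul_assoc]
      rw [this]
      exact (S.NC_inv _).2 (hNC n)
    have hcc : ∀ K N : ℤ, N ≠ 0 → (h⁻¹ x) ^ K ≠ v ^ N := by
      intro K N hN0 he
      rw [← hv, ← map_zpow, ← map_zpow] at he
      have he' : x ^ K = S.c ^ N := (h⁻¹).injective he
      by_cases hK : K = 0
      · rw [hK, zpow_zero] at he'
        exact hN0 (S.c_inf N he'.symm)
      · exact hNCx K hK (by rw [he']; exact Subgroup.zpow_mem_zpowers _ _)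
    have hcc' : ∀ K N : ℤ, N ≠ 0 → (h⁻¹ x⁻¹) ^ K ≠ v ^ N := by
      intro K N hN0 he
      refine hcc (-K) N hN0 ?_
      rw [← he, map_inv, inv_zpow, zpow_neg]
    have hvv : S.eps v ≠ 0 := by
      unfold Spl.eps
      rw [hv0, hv1]; norm_num
    have g1 := S.arch v (h⁻¹ x) hvv hNC hcc
    have g2 := S.arch v (h⁻¹ x⁻¹) hvv hNC' hcc'
    obtain ⟨N, n1, n2⟩ := (g1.and g2).exists
    exact key N (hne N) (n1.trans hv1) (n2.trans hv1)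

end Surf

end Pool.Agent.Lib.MP_6a1159_al.BS
end

section

/-! E4c: the two orders on the curves which cross `c` positively. -/

set_option autoImplicit false

open Filter

namespace Pool.Agent.Lib.MP_6a1159_al.BS

namespace Surf

variable {P : Type} [Group P] {G : Subgroup (MulAut P)} (S : Surf P G)

private theorem E4c_good {X : Type} (s : Equiv.Perm X) (φ : X → X → ℤ)
    (h01 : ∀ x z, φ x z = 0 ∨ φ x z = 1)
    (htri : ∀ x z, x ≠ z → φ x z + φ z x = 1)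
    (htr : ∀ x y z, x ≠ y → y ≠ z → x ≠ z → φ x y = 1 → φ y z = 1 → φ x z = 1)
    (heq : ∀ x z, x ≠ z → φ (s x) (s z) = φ x z)
    (hst : ∀ x, x ≠ s x ∧ φ x (s x) = 1)
    (har : ∀ x z, ∃ N : ℕ, x ≠ (s ^ N) z ∧ φ x ((s ^ N) z) = 1) :
    Good s (fun x z => x ≠ z ∧ φ x z = 1) where
  irrefl := fun x h => h.1 rfl
  trans := by
    rintro x y z ⟨h1, h2⟩ ⟨h3, h4⟩
    by_cases hxz : x = z
    · subst hxz
      have := htri x y h1
      omega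
    · exact ⟨hxz, htr x y z h1 h3 hxz h2 h4⟩
  tri := by
    intro x y h
    have h1 := htri x y h
    rcases h01 x y with h2 | h2
    · right
      exact ⟨fun e => h e.symm, by omega⟩
    · left
      exact ⟨h, h2⟩
  equiv := by
    intro x y
    constructor
    · rintro ⟨h1, h2⟩
      exact ⟨fun e => h1 (s.injective e), by rw [heq x y h1]; exact h2⟩
    · rintro ⟨h1, h2⟩
      have h3 : x ≠ y := fun e => h1 (by rw [e])
      exact ⟨h3, by rw [← heq x y h3]; exact h2⟩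
  step := hst
  arch := har

private theorem E4c_ind (p : Prop) (hp : p) (a : ℤ) (ha : a = 0 ∨ a = 1) : ind (p ∧ a = 1) = a := by
  unfold ind
  rcases ha with rfl | rfl <;> simp [hp]

private theorem E4c_inv (f : MulAut P) (a b : P) (h : f a = b) : f⁻¹ b = a := by
  rw [← h, MulAut.inv_apply_self]

/-- PROOF: `s` is conjugation by `c` (`xp_shift`). Put `r1 x z := x ≠ z ∧ E ((rep z)⁻¹ x) = 1`,
`r0 x z := x ≠ z ∧ E ((rep z)⁻¹ x⁻¹) = 1`. `Good`: `irrefl` clear. `trans`: let `r1 x y`, `r1 y z`.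
If `x = z` then `r1 x y` and `r1 y x` contradict `trich` (`rep`s; the sum is `1`). Otherwise
`transP` with `h = rep x`, `f = rep y`, `g = rep z` (`xp_NC`). The same with `transM` for `r0`. `tri`:
`trich` and `E_01`. `equiv`: `f := conj c * rep z` maps `c` to `s z`, `f⁻¹ (s x) = (rep z)⁻¹ x`, `xp_indep`.
`step`: with `f := conj c * rep x` for `s x`, `v := (rep x)⁻¹ c`:
`f⁻¹ x = v⁻¹ * c * v`, `E = chi v⁻¹ = 1` (`E_cc`, `mono`, `ahead`), the same for `x⁻¹`; in particular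
`x ≠ s x` (otherwise `f⁻¹ x = (conj c * rep x)⁻¹ (s x) = c`, whose `E` is `0`), `xp_indep`. `arch`:
`xp_arch`, `(s ^ N) z = c ^ N * z * (c ^ N)⁻¹`.
Last: if `x ≠ z` then `ep x z = E ((rep z)⁻¹ x) - E ((rep z)⁻¹ x⁻¹)` by definition (`map_inv`) and
`E_01`; if `x = z`, `(rep z)⁻¹ x = c` and both sides are `0`. -/
theorem order : ∃ (s : Equiv.Perm S.Xp) (r0 r1 : S.Xp → S.Xp → Prop),
    (∀ x, (s x).1 = S.c * x.1 * S.c⁻¹) ∧ Good s r0 ∧ Good s r1 ∧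
    (∀ x z, S.ep x.1 z.1 = ind (r1 x z) - ind (r0 x z)) ∧
    (∀ x z, r1 x z ↔ (x.1 ≠ z.1 ∧ S.E ((S.rep z.1)⁻¹ x.1) = 1)) ∧
    (∀ x z, r0 x z ↔ (x.1 ≠ z.1 ∧ S.E ((S.rep z.1)⁻¹ (x.1)⁻¹) = 1)) := by
  have hinv : ∀ y : P, S.c * (S.c⁻¹ * y * S.c) * S.c⁻¹ = y := by intro y; group
  have hinv' : ∀ y : P, S.c⁻¹ * (S.c * y * S.c⁻¹) * S.c = y := by intro y; group
  let s : Equiv.Perm S.Xp :=
    { toFun := fun x => ⟨S.c * x.1 * S.c⁻¹, (S.xp_shift x.1).2 x.2⟩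
      invFun := fun y => ⟨S.c⁻¹ * y.1 * S.c, (S.xp_shift (S.c⁻¹ * y.1 * S.c)).1 (by rw [hinv]; exact y.2)⟩
      left_inv := fun x => Subtype.ext (hinv' x.1)
      right_inv := fun x => Subtype.ext (hinv x.1) }
  have hs : ∀ x : S.Xp, (s x).1 = S.c * x.1 * S.c⁻¹ := fun x => rfl
  have hsN : ∀ (N : ℕ) (x : S.Xp), ((s ^ N) x).1 = S.c ^ N * x.1 * (S.c ^ N)⁻¹ := by
    intro N
    induction N with
    | zero => intro x; simp
    | succ N ih =>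
      intro x
      rw [pow_succ', Equiv.Perm.mul_apply, hs, ih, pow_succ']
      group
  have hne : ∀ x z : S.Xp, x ≠ z ↔ x.1 ≠ z.1 := fun x z => not_congr Subtype.ext_iff
  have hR : ∀ x : S.Xp, S.rep x.1 ∈ G ∧ S.rep x.1 S.c = x.1 := fun x => S.rep_spec x.1 x.2.1
  have heps : ∀ x : S.Xp, S.eps (S.rep x.1 S.c) = 1 := by
    intro x
    rw [(hR x).2, ← S.ep_c x.1 x.2.1]
    exact x.2.2
  have hNC : ∀ x z : S.Xp, x ≠ z → S.NC ((S.rep z.1)⁻¹ x.1) := by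
    intro x z h
    exact S.xp_NC x.1 z.1 x.2 z.2 ((hne x z).1 h) (S.rep z.1) (hR z).1 (hR z).2
  have htri : ∀ x z : S.Xp, x ≠ z → S.E ((S.rep z.1)⁻¹ x.1) + S.E ((S.rep x.1)⁻¹ z.1) = 1 ∧
      S.E ((S.rep z.1)⁻¹ (x.1)⁻¹) + S.E ((S.rep x.1)⁻¹ (z.1)⁻¹) = 1 := by
    intro x z h
    have h1 := S.trich (S.rep z.1) (S.rep x.1) (hR z).1 (hR x).1 (heps z) (heps x)
      (by rw [(hR x).2]; exact hNC x z h)
    rw [(hR x).2, (hR z).2] at h1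
    exact h1
  have htrP : ∀ x y z : S.Xp, x ≠ y → y ≠ z → x ≠ z → S.E ((S.rep y.1)⁻¹ x.1) = 1 →
      S.E ((S.rep z.1)⁻¹ y.1) = 1 → S.E ((S.rep z.1)⁻¹ x.1) = 1 := by
    intro x y z h1 h2 h3 h4 h5
    have h6 := S.transP (S.rep y.1) (S.rep x.1) (S.rep z.1) (hR y).1 (hR x).1 (hR z).1
      (heps y) (heps x) (heps z)
      (by rw [(hR x).2]; exact hNC x y h1) (by rw [(hR y).2]; exact hNC y z h2)
      (by rw [(hR x).2]; exact hNC x z h3) (by rw [(hR x).2]; exact h4) (by rw [(hR y).2]; exact h5)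
    rw [(hR x).2] at h6
    exact h6
  have htrM : ∀ x y z : S.Xp, x ≠ y → y ≠ z → x ≠ z → S.E ((S.rep y.1)⁻¹ (x.1)⁻¹) = 1 →
      S.E ((S.rep z.1)⁻¹ (y.1)⁻¹) = 1 → S.E ((S.rep z.1)⁻¹ (x.1)⁻¹) = 1 := by
    intro x y z h1 h2 h3 h4 h5
    have h6 := S.transM (S.rep y.1) (S.rep x.1) (S.rep z.1) (hR y).1 (hR x).1 (hR z).1
      (heps y) (heps x) (heps z)
      (by rw [(hR x).2]; exact hNC x y h1) (by rw [(hR y).2]; exact hNC y z h2)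
      (by rw [(hR x).2]; exact hNC x z h3) (by rw [(hR x).2]; exact h4) (by rw [(hR y).2]; exact h5)
    rw [(hR x).2] at h6
    exact h6
  have hcG : ∀ z : S.Xp, MulAut.conj S.c * S.rep z.1 ∈ G := fun z =>
    G.mul_mem (S.conj_mem S.c) (hR z).1
  have hcz : ∀ z : S.Xp, (MulAut.conj S.c * S.rep z.1) S.c = (s z).1 := by
    intro z
    rw [MulAut.mul_apply, (hR z).2, MulAut.conj_apply, hs]
  have hci : ∀ (z : S.Xp) (y : P), (MulAut.conj S.c * S.rep z.1)⁻¹ y =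
      (S.rep z.1)⁻¹ (S.c⁻¹ * y * S.c) := by
    intro z y
    rw [mul_inv_rev, MulAut.mul_apply]
    congr 1
  have heq : ∀ x z : S.Xp, x ≠ z → S.E ((S.rep (s z).1)⁻¹ (s x).1) = S.E ((S.rep z.1)⁻¹ x.1) ∧
      S.E ((S.rep (s z).1)⁻¹ ((s x).1)⁻¹) = S.E ((S.rep z.1)⁻¹ (x.1)⁻¹) := by
    intro x z h
    have h1 : s x ≠ s z := fun e => h (s.injective e)
    have h2 := S.xp_indep (s x).1 (s z).1 (s x).2 (s z).2 ((hne _ _).1 h1)
      (MulAut.conj S.c * S.rep z.1) (hcG z) (hcz z)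
    rw [hci, hci] at h2
    have h3 : S.c⁻¹ * (s x).1 * S.c = x.1 := by rw [hs]; group
    have h4 : S.c⁻¹ * ((s x).1)⁻¹ * S.c = (x.1)⁻¹ := by rw [hs]; group
    rw [h3, h4] at h2
    exact ⟨h2.1.symm, h2.2.symm⟩
  have hst : ∀ x : S.Xp, x ≠ s x ∧ S.E ((S.rep (s x).1)⁻¹ x.1) = 1 ∧
      S.E ((S.rep (s x).1)⁻¹ (x.1)⁻¹) = 1 := by
    intro x
    have h1 := S.ahead (S.rep x.1) (hR x).1 (heps x)
    obtain ⟨_, hv0, hv1⟩ := h1
    have hv1' : S.E ((S.rep x.1)⁻¹ S.c)⁻¹ = 1 := hv1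
    have hm := S.mono ((S.rep x.1)⁻¹ S.c) hv0 hv1'
    have hg : ((S.rep x.1)⁻¹ S.c)⁻¹ ∉ Subgroup.zpowers S.c := by
      intro hg
      have := S.chi_Z _ hg
      rw [hm.2.1] at this
      exact one_ne_zero this
    have hcc := S.E_cc ((S.rep x.1)⁻¹ S.c)⁻¹ hg
    rw [inv_inv, hm.2.1] at hcc
    have hxc : (S.rep x.1)⁻¹ x.1 = S.c := E4c_inv _ _ _ (hR x).2
    have hf1 : (MulAut.conj S.c * S.rep x.1)⁻¹ x.1 =
        ((S.rep x.1)⁻¹ S.c)⁻¹ * S.c * (S.rep x.1)⁻¹ S.c := by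
      rw [hci, map_mul, map_mul, map_inv, hxc]
    have hf2 : (MulAut.conj S.c * S.rep x.1)⁻¹ (x.1)⁻¹ =
        ((S.rep x.1)⁻¹ S.c)⁻¹ * S.c⁻¹ * (S.rep x.1)⁻¹ S.c := by
      rw [hci, map_mul, map_mul, map_inv, map_inv, hxc]
    have hx : x ≠ s x := by
      intro e
      have e1 : (MulAut.conj S.c * S.rep x.1)⁻¹ x.1 = S.c :=
        E4c_inv _ _ _ ((hcz x).trans (congrArg Subtype.val e).symm)
      have e3 := S.E_Z S.c (Subgroup.mem_zpowers S.c)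
      rw [← e1, hf1, hcc.2.1] at e3
      exact one_ne_zero e3
    have h2 := S.xp_indep x.1 (s x).1 x.2 (s x).2 ((hne _ _).1 hx)
      (MulAut.conj S.c * S.rep x.1) (hcG x) (hcz x)
    rw [hf1, hf2, hcc.2.1, hcc.2.2] at h2
    exact ⟨hx, h2.1.symm, h2.2.symm⟩
  have har : ∀ x z : S.Xp, ∃ N : ℕ, x ≠ (s ^ N) z ∧ S.E ((S.rep ((s ^ N) z).1)⁻¹ x.1) = 1 ∧
      S.E ((S.rep ((s ^ N) z).1)⁻¹ (x.1)⁻¹) = 1 := by
    intro x z
    obtain ⟨N, h1, h2, h3⟩ := S.xp_arch x.1 z.1 x.2 z.2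
    refine ⟨N, ?_, ?_, ?_⟩
    · rw [hne, hsN]; exact h1
    · rw [hsN]; exact h2
    · rw [hsN]; exact h3
  refine ⟨s, fun x z => x ≠ z ∧ S.E ((S.rep z.1)⁻¹ (x.1)⁻¹) = 1,
    fun x z => x ≠ z ∧ S.E ((S.rep z.1)⁻¹ x.1) = 1, hs, ?_, ?_, ?_, ?_, ?_⟩
  · exact E4c_good s (fun x z => S.E ((S.rep z.1)⁻¹ (x.1)⁻¹)) (fun x z => S.E_01 _)
      (fun x z h => (htri x z h).2) htrM (fun x z h => (heq x z h).2)
      (fun x => ⟨(hst x).1, (hst x).2.2⟩)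
      (fun x z => by obtain ⟨N, h1, _, h3⟩ := har x z; exact ⟨N, h1, h3⟩)
  · exact E4c_good s (fun x z => S.E ((S.rep z.1)⁻¹ x.1)) (fun x z => S.E_01 _)
      (fun x z h => (htri x z h).1) htrP (fun x z h => (heq x z h).1)
      (fun x => ⟨(hst x).1, (hst x).2.1⟩)
      (fun x z => by obtain ⟨N, h1, h2, _⟩ := har x z; exact ⟨N, h1, h2⟩)
  · intro x z
    have e0 : S.ep x.1 z.1 = S.E ((S.rep z.1)⁻¹ x.1) - S.E ((S.rep z.1)⁻¹ (x.1)⁻¹) := by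
      rw [Surf.ep, Spl.eps, map_inv]
    by_cases h : x = z
    · subst h
      have hxc : (S.rep x.1)⁻¹ x.1 = S.c := E4c_inv _ _ _ (hR x).2
      rw [e0, map_inv, hxc, S.E_Z S.c (Subgroup.mem_zpowers S.c),
        S.E_Z S.c⁻¹ (Subgroup.inv_mem _ (Subgroup.mem_zpowers S.c))]
      simp [ind]
    · rw [e0]
      exact (congrArg₂ (fun a b : ℤ => a - b) (E4c_ind _ h _ (S.E_01 ((S.rep z.1)⁻¹ x.1)))
        (E4c_ind _ h _ (S.E_01 ((S.rep z.1)⁻¹ (x.1)⁻¹)))).symm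
  · exact fun x z => and_congr (hne x z) Iff.rfl
  · exact fun x z => and_congr (hne x z) Iff.rfl

end Surf

end Pool.Agent.Lib.MP_6a1159_al.BS
end

section

/-! E4: see the imported files. -/
end

section

/-! E5: twisting numbers around `c` of positively crossing curves. -/

set_option autoImplicit false

open Filter

namespace Pool.Agent.Lib.MP_6a1159_al.BS

namespace Surf

variable {P : Type} [Group P] {G : Subgroup (MulAut P)} (S : Surf P G)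

private theorem E5_g1 (c y : P) (n : ℤ) : c * (c ^ n * y * c ^ (-n)) * c⁻¹ = c ^ (n + 1) * y * c ^ (-(n + 1)) := by
  group

/-- The powers of the translation. -/
private theorem E5_pow (s : Equiv.Perm S.Xp) (hs : ∀ x, (s x).1 = S.c * x.1 * S.c⁻¹) (z : S.Xp) (n : ℤ) :
    ((s ^ n) z).1 = S.c ^ n * z.1 * S.c ^ (-n) := by
  induction n using Int.induction_on with
  | zero =>
    show z.1 = _
    rw [zpow_zero, neg_zero, zpow_zero, one_mul, mul_one]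
  | succ n ih =>
    have h1 : (s ^ ((n : ℤ) + 1)) z = s ((s ^ (n : ℤ)) z) := by
      rw [add_comm, zpow_one_add]
      rfl
    rw [h1, hs, ih, E5_g1]
  | pred n ih =>
    have h1 : (s ^ (-(n : ℤ))) z = s ((s ^ (-(n : ℤ) - 1)) z) := by
      have h2 : (s ^ (-(n : ℤ))) = s * (s ^ (-(n : ℤ) - 1)) := by
        rw [← zpow_one_add]
        congr 1
        ring
      rw [h2]
      rfl
    rw [h1, hs] at ih
    have h4 := E5_g1 S.c z.1 (-(n : ℤ) - 1)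
    rw [sub_add_cancel, ← ih] at h4
    exact (mul_left_cancel (mul_right_cancel h4)).symm

/-- PROOF: `order` and `ord` with `e x z := ep x.1 z.1`; `((s ^ n) z).1 = c ^ n * z.1 * c ^ (-n)` by
induction on the integer `n`; `tw c x z = - 1 * 1 * ∑ᶠ ... = T x z`. For (5): `a`, `b` as in the last part of `ord`,
with the description of `r0`, `r1` in `order`: let `w := c ^ a * z * c ^ (-a)`, `w' := c ^ b * z * c ^ (-b)`;
`E ((rep x)⁻¹ w⁻¹) = 1` says `r0 w x`, and `E ((rep w')⁻¹ x) = 1` says `r1 x w'`, so not `r1 w' x`. If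
`w = x` or `w' = x` the hypotheses fail. -/
theorem tw_c : (∀ x z : P, (x ∈ S.Cur ∧ S.ep x S.c = 1) → (z ∈ S.Cur ∧ S.ep z S.c = 1) →
      {n : ℤ | S.ep x (S.c ^ n * z * S.c ^ (-n)) ≠ 0}.Finite ∧
      S.tw S.c z x = - S.tw S.c x z ∧
      (∀ w : P, (w ∈ S.Cur ∧ S.ep w S.c = 1) →
        |S.tw S.c x w - S.tw S.c x z - S.tw S.c z w| ≤ 1) ∧
      (∀ m : ℕ, (m : ℤ) ≤ |S.tw S.c x z| →
        ∃ n0 : ℤ, ∀ i : ℕ, i < m → S.ep x (S.c ^ (n0 + i) * z * S.c ^ (-(n0 + i))) ≠ 0) ∧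
      (∀ a b : ℤ, S.c ^ a * z * S.c ^ (-a) ≠ x → S.c ^ b * z * S.c ^ (-b) ≠ x →
        S.E ((S.rep x)⁻¹ (S.c ^ a * z * S.c ^ (-a))⁻¹) = 1 →
        S.E ((S.rep (S.c ^ b * z * S.c ^ (-b)))⁻¹ x) = 1 → S.tw S.c x z ≤ b - 1 - a)) := by
  obtain ⟨s, r0, r1, hs, g0, g1, he, hr1, hr0⟩ := S.order
  obtain ⟨T, hT1, hT2, hT3, hT4, hT5⟩ := ord s r0 r1 g0 g1 (fun x z => S.ep x.1 z.1) he
  have hp : ∀ (z : S.Xp) (n : ℤ), ((s ^ n) z).1 = S.c ^ n * z.1 * S.c ^ (-n) := fun z n => S.E5_pow s hs z n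
  have htw : ∀ x z : S.Xp, S.tw S.c x.1 z.1 = T x z := by
    intro x z
    rw [(hT1 x z).2]
    unfold tw
    rw [x.2.2, z.2.2]
    have h1 : ∑ᶠ n : ℤ, S.ep x.1 ((s ^ n) z).1 = ∑ᶠ n : ℤ, S.ep x.1 (S.c ^ n * z.1 * S.c ^ (-n)) := by
      apply finsum_congr
      intro n
      rw [hp]
    show -1 * 1 * _ = - ∑ᶠ n : ℤ, S.ep x.1 ((s ^ n) z).1
    rw [h1]
    ring
  intro x z hx hz
  obtain ⟨X, rfl⟩ : ∃ X : S.Xp, X.1 = x := ⟨⟨x, hx⟩, rfl⟩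
  obtain ⟨Z, rfl⟩ : ∃ Z : S.Xp, Z.1 = z := ⟨⟨z, hz⟩, rfl⟩
  refine ⟨?_, ?_, ?_, ?_, ?_⟩
  · refine (hT1 X Z).1.subset ?_
    intro n hn
    show S.ep X.1 ((s ^ n) Z).1 ≠ 0
    rw [hp]
    exact hn
  · rw [htw, htw]
    exact hT2 _ _
  · intro w hw
    obtain ⟨W, rfl⟩ : ∃ W : S.Xp, W.1 = w := ⟨⟨w, hw⟩, rfl⟩
    rw [htw, htw, htw]
    exact hT3 _ _ _
  · intro m hm
    rw [htw] at hm
    obtain ⟨n0, hn0⟩ := hT4 X Z m hm
    refine ⟨n0, ?_⟩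
    intro i hi
    have h1 : S.ep X.1 ((s ^ (n0 + i)) Z).1 ≠ 0 := hn0 i hi
    rw [hp] at h1
    exact h1
  · intro a b ha hb hEa hEb
    rw [htw]
    apply hT5 X Z a b
    · rw [hr0, hp]
      exact ⟨ha, hEa⟩
    · have h1 : r1 X ((s ^ b) Z) := by
        rw [hr1, hp]
        exact ⟨fun h => hb h.symm, hEb⟩
      intro h2
      exact g1.irrefl _ (g1.trans _ _ _ h1 h2)

end Surf

end Pool.Agent.Lib.MP_6a1159_al.BS
end

section

/-! M1: see the imported files. -/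
end

section

/-! M2a: curves of different classes cross. -/

set_option autoImplicit false

open Filter

namespace Pool.Agent.Lib.MP_6a1159_al.BS

namespace Surf

variable {P : Type} [Group P] {G : Subgroup (MulAut P)} (S : Surf P G)

private theorem M2a_id {P : Type} [Group P] (γ y h : P) (n m : ℕ) :
    ((γ * y * γ⁻¹) ^ n) ^ m * (γ * h⁻¹) = γ * h⁻¹ * (h * y ^ n * h⁻¹) ^ m := by
  rw [conj_pow, conj_pow, conj_pow]
  group

private theorem M2a_lim (y γ h : P) (hNC : S.NC (γ * y * γ⁻¹)) (n : ℕ) (hn : 0 < n)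
    (hA : h * y ^ n * h⁻¹ ∈ S.A) : S.E (γ * y * γ⁻¹) = S.chi (γ * h⁻¹) := by
  have h1 : S.NC ((γ * y * γ⁻¹) ^ n) := by
    have := S.NC_pow _ hNC (n : ℤ) (by exact_mod_cast hn.ne')
    rwa [zpow_natCast] at this
  obtain ⟨m, hm⟩ := (S.E_spec _ h1 (γ * h⁻¹)).exists
  rw [S.E_pow _ hNC n hn, M2a_id, S.chi_A _ _ (S.A.pow_mem hA m)] at hm
  exact hm.symm

private theorem M2a_core (f : MulAut P) (y : P) (hNC : ∀ g, S.NC (g * y * g⁻¹))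
    (hconst : ∀ γ : P, ∀ a ∈ S.A, S.E (γ * f a * y * (γ * f a)⁻¹) = S.E (γ * y * γ⁻¹))
    (h : P) (n : ℕ) (hn : 0 < n) (ha₀ : h * y ^ n * h⁻¹ ∈ S.A) :
    ∀ a ∈ S.A, h * f a * h⁻¹ ∈ S.A := by
  intro a ha
  by_contra hk
  obtain ⟨α, hα, hchi⟩ := S.exA _ hk
  have h1 := hconst (α⁻¹ * h) a ha
  rw [M2a_lim S y _ h (hNC _) n hn ha₀, M2a_lim S y _ h (hNC _) n hn ha₀] at h1
  have e1 : α⁻¹ * h * f a * h⁻¹ = α⁻¹ * (h * f a * h⁻¹) := by group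
  have e2 : α⁻¹ * h * h⁻¹ = α⁻¹ := by group
  rw [e1, e2, hchi, S.chi_mem_A _ (S.A.inv_mem hα)] at h1
  exact one_ne_zero h1

/-- PROOF: let `x := f c`, `a₀ := h * x ^ j * h⁻¹ ∈ A`. Let `a ∈ A`, `k := h * f a * h⁻¹`, suppose
`k ∉ A`. `exA`: `α ∈ A` with `chi (α⁻¹ * k) = 1`; `chi α⁻¹ = 0` (`chi_mem_A`). `hconst` with
`γ := α⁻¹ * h`: `E (α⁻¹ * h * f a * x * (α⁻¹ * h * f a)⁻¹) = E (α⁻¹ * h * x * (α⁻¹ * h)⁻¹)`. Compute both
sides with `E_pow` and `E_spec`, for `j > 0` (for `j < 0` use `x⁻¹`, as `E` of an inverse is the same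
by `h0`; or replace `a₀` by `a₀⁻¹ = h * x⁻¹ ^ (-j) * h⁻¹`): the right side is the eventual value (`m → ∞`) of
`chi ((α⁻¹ * h * x * (α⁻¹ * h)⁻¹) ^ (j * m) * α⁻¹) = chi (α⁻¹ * h * x ^ (j m) * h⁻¹) = chi (α⁻¹ * a₀ ^ m) =
chi α⁻¹ = 0` (`chi_A`). The left side is the eventual value of
`chi (α⁻¹ * h * f a * x ^ (j m) * h⁻¹) = chi (α⁻¹ * k * a₀ ^ m) = chi (α⁻¹ * k) = 1`. Contradiction. -/
theorem fixA (f : MulAut P) (hNC : ∀ g, S.NC (g * f S.c * g⁻¹))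
    (h0 : ∀ g, S.eps (g * f S.c * g⁻¹) = 0)
    (hconst : ∀ γ : P, ∀ a ∈ S.A,
      S.E (γ * f a * f S.c * (γ * f a)⁻¹) = S.E (γ * f S.c * γ⁻¹))
    (h : P) (j : ℤ) (hj : j ≠ 0) (ha₀ : h * (f S.c) ^ j * h⁻¹ ∈ S.A) :
    ∀ a ∈ S.A, h * f a * h⁻¹ ∈ S.A := by
  rcases lt_or_gt_of_ne hj with hj' | hj'
  · have hinv : ∀ g : P, g * (f S.c)⁻¹ * g⁻¹ = (g * f S.c * g⁻¹)⁻¹ := by intro g; group
    have hE : ∀ g : P, S.E (g * (f S.c)⁻¹ * g⁻¹) = S.E (g * f S.c * g⁻¹) := by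
      intro g
      have h1 := h0 g
      rw [Spl.eps] at h1
      rw [hinv]
      linarith
    refine M2a_core S f (f S.c)⁻¹ ?_ ?_ h (-j).toNat (by omega) ?_
    · intro g
      rw [hinv, S.NC_inv]
      exact hNC g
    · intro γ a ha
      rw [hE, hE]
      exact hconst γ a ha
    · have e1 : ((f S.c)⁻¹) ^ (-j).toNat = (f S.c) ^ j := by
        rw [← zpow_natCast, Int.toNat_of_nonneg (by omega), inv_zpow', neg_neg]
      rw [e1]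
      exact ha₀
  · refine M2a_core S f (f S.c) hNC hconst h j.toNat (by omega) ?_
    have e1 : (f S.c) ^ j.toNat = (f S.c) ^ j := by
      rw [← zpow_natCast, Int.toNat_of_nonneg (by omega)]
    rw [e1]
    exact ha₀

end Surf

end Pool.Agent.Lib.MP_6a1159_al.BS
end

section

/-! M2b: curves of different classes cross. -/

set_option autoImplicit false

open Filter

namespace Pool.Agent.Lib.MP_6a1159_al.BS

namespace Surf

variable {P : Type} [Group P] {G : Subgroup (MulAut P)} (S : Surf P G)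

/-- The main step of `fixB`, for a positive power. -/
private theorem M2b_core (f : MulAut P) (hNC : ∀ g, S.NC (g * f S.c * g⁻¹))
    (hconst : ∀ γ : P, ∀ a ∈ S.A,
      S.E (γ * f a * f S.c * (γ * f a)⁻¹) = S.E (γ * f S.c * γ⁻¹))
    (h : P) (N : ℕ) (hN : 0 < N) (hb : h * (f S.c) ^ N * h⁻¹ ∈ S.B) (a : P) (ha : a ∈ S.A) :
    h * f a * h⁻¹ ∈ S.B := by
  by_contra hk
  obtain ⟨β, hβ, hβk⟩ := S.exB (h * f a * h⁻¹)
  set x : P := f S.c with hx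
  have hcB : ∀ z ∈ Subgroup.zpowers S.c, z ∈ S.B := by
    intro z hz
    obtain ⟨i, rfl⟩ := Subgroup.mem_zpowers_iff.1 hz
    exact zpow_mem S.c_mem_B i
  have hpow : ∀ m : ℕ, (h * x ^ N * h⁻¹) ^ m = h * x ^ (N * m) * h⁻¹ := by
    intro m
    rw [conj_pow, pow_mul]
  have hbm : ∀ m : ℕ, h * x ^ (N * m) * h⁻¹ ∈ S.B := by
    intro m
    rw [← hpow m]
    exact pow_mem hb m
  have hbZ : h * x ^ N * h⁻¹ ∉ Subgroup.zpowers S.c := by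
    have e1 := hNC h (N : ℤ) (by exact_mod_cast hN.ne')
    rwa [zpow_natCast, conj_pow] at e1
  have hT : Tendsto (fun m : ℕ => N * m) atTop atTop :=
    tendsto_id.const_mul_atTop' hN
  -- the right side
  have hR := hT.eventually (S.E_spec (β⁻¹ * h * x * (β⁻¹ * h)⁻¹) (hNC (β⁻¹ * h)) β⁻¹)
  -- the left side
  have hL := hT.eventually (S.E_spec (β⁻¹ * h * f a * x * (β⁻¹ * h * f a)⁻¹)
    (hNC (β⁻¹ * h * f a)) (β⁻¹ * h * f a * h⁻¹))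
  have hR' : S.E (β⁻¹ * h * x * (β⁻¹ * h)⁻¹) = 1 := by
    obtain ⟨m₀, hm₀⟩ := eventually_atTop.1 hR
    obtain ⟨m, hm, hmZ⟩ : ∃ m, m₀ ≤ m ∧ β⁻¹ * (h * x ^ (N * m) * h⁻¹) ∉
        Subgroup.zpowers S.c := by
      by_contra hcon
      push Not at hcon
      apply hbZ
      have e1 := hcon m₀ le_rfl
      have e2 := hcon (m₀ + 1) (Nat.le_succ m₀)
      have e3 := mul_mem (inv_mem e1) e2
      rw [← hpow, ← hpow, pow_succ] at e3
      have e4 : (β⁻¹ * (h * x ^ N * h⁻¹) ^ m₀)⁻¹ * (β⁻¹ * ((h * x ^ N * h⁻¹) ^ m₀ *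
          (h * x ^ N * h⁻¹))) = h * x ^ N * h⁻¹ := by
        rw [← mul_assoc β⁻¹, inv_mul_cancel_left]
      rwa [e4] at e3
    have e1 := hm₀ m hm
    have e2 : (β⁻¹ * h * x * (β⁻¹ * h)⁻¹) ^ (N * m) * β⁻¹ =
        β⁻¹ * (h * x ^ (N * m) * h⁻¹) := by
      rw [conj_pow]; group
    rw [← e1, e2]
    exact S.chi_b _ (mul_mem (inv_mem hβ) (hbm m)) hmZ
  have hL' : S.E (β⁻¹ * h * f a * x * (β⁻¹ * h * f a)⁻¹) = 0 := by
    obtain ⟨m, hm⟩ := hL.exists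
    have e2 : (β⁻¹ * h * f a * x * (β⁻¹ * h * f a)⁻¹) ^ (N * m) * (β⁻¹ * h * f a * h⁻¹) =
        β⁻¹ * (h * f a * h⁻¹) * (h * x ^ (N * m) * h⁻¹) := by
      rw [conj_pow]; group
    rw [← hm, e2, S.chi_B _ _ (hbm m) ?_ ?_, hβk]
    · intro hz
      apply hk
      have e3 := mul_mem hβ (hcB _ hz)
      rwa [mul_inv_cancel_left] at e3
    · intro hz
      apply hk
      have e3 := mul_mem (mul_mem hβ (hcB _ hz)) (inv_mem (hbm m))
      have e4 : β * (β⁻¹ * (h * f a * h⁻¹) * (h * x ^ (N * m) * h⁻¹)) *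
          (h * x ^ (N * m) * h⁻¹)⁻¹ = h * f a * h⁻¹ := by
        rw [← mul_assoc β, mul_inv_cancel_left, mul_inv_cancel_right]
      rwa [e4] at e3
  have e := hconst (β⁻¹ * h) a ha
  rw [hL', hR'] at e
  exact zero_ne_one e

/-- PROOF: let `x := f c`, `b₀ := h * x ^ j * h⁻¹ ∈ B`, `a ∈ A`, `k := h * f a * h⁻¹`, suppose `k ∉ B`.
`exB`: `β ∈ B` with `chi (β⁻¹ * k) = 0`. As in `fixA`, with `γ := β⁻¹ * h`: the right side of `hconst` is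
the eventual value of `chi (β⁻¹ * b₀ ^ m)` (`m → ∞`, `j > 0`; for `j < 0` use `b₀⁻¹`); the elements
`β⁻¹ * b₀ ^ m ∈ B` are not in `⟨c⟩` for all but at most one `m` (two of them in `⟨c⟩` would give a nonzero power of
`b₀` in `⟨c⟩`, but `b₀ = (h * x * h⁻¹) ^ j` is NC by `hNC`, `NC_pow`), so `chi = 1` (`chi_b`) and the right side is
`1`. The left side is the eventual value of `chi (β⁻¹ * k * b₀ ^ m)`; `β⁻¹ * k ∉ B`, so
`β⁻¹ * k`, `β⁻¹ * k * b₀ ^ m ∉ ⟨c⟩` and by `chi_B` it is `chi (β⁻¹ * k) = 0`. Contradiction. -/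
theorem fixB (f : MulAut P) (hNC : ∀ g, S.NC (g * f S.c * g⁻¹))
    (h0 : ∀ g, S.eps (g * f S.c * g⁻¹) = 0)
    (hconst : ∀ γ : P, ∀ a ∈ S.A,
      S.E (γ * f a * f S.c * (γ * f a)⁻¹) = S.E (γ * f S.c * γ⁻¹))
    (h : P) (j : ℤ) (hj : j ≠ 0) (hb₀ : h * (f S.c) ^ j * h⁻¹ ∈ S.B) :
    ∀ a ∈ S.A, h * f a * h⁻¹ ∈ S.B := by
  intro a ha
  refine M2b_core S f hNC hconst h j.natAbs (Int.natAbs_pos.2 hj) ?_ a ha
  rcases Int.natAbs_eq j with e | e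
  · rw [e, zpow_natCast] at hb₀
    exact hb₀
  · rw [e, zpow_neg, zpow_natCast] at hb₀
    have e1 := inv_mem hb₀
    have e2 : (h * ((f S.c) ^ j.natAbs)⁻¹ * h⁻¹)⁻¹ = h * (f S.c) ^ j.natAbs * h⁻¹ := by
      group
    rwa [e2] at e1

end Surf

end Pool.Agent.Lib.MP_6a1159_al.BS
end
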