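import Pool.Agent.Lib.MP_6a1159_al.Mg.G003
import Pool.Agent.Lib.MP_6a1159_al.Mg.G012

section

/-! K7cb: antisymmetry of the crossing numbers. -/

set_option autoImplicit false

open Filter

namespace Pool.Agent.Lib.MP_6a1159_al.BS

/-- Finiteness. -/
private theorem K7cb_fin {P : Type} [Group P] (S : Spl P) (f : MulAut P) (hf : S.NC (f⁻¹ S.c)) (b : P) :
    {k : ℤ | S.chi (f⁻¹ (S.c ^ k * b)) ≠ S.chi (f⁻¹ (S.c ^ k))}.Finite := by
  obtain ⟨F, hF⟩ := S.fin (f⁻¹ b)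
  have h1 : ∀ k : ℤ, S.chi (f⁻¹ (S.c ^ k * b)) ≠ S.chi (f⁻¹ (S.c ^ k)) →
      ∃ y ∈ F, ∃ j : ℤ, (f⁻¹ S.c) ^ k = S.c ^ j * y := by
    intro k hk
    rw [map_mul] at hk
    obtain ⟨y, hy, j, hj⟩ := hF _ hk
    rw [map_zpow] at hj
    exact ⟨y, hy, j, hj⟩
  choose! y hy j hj using h1
  refine Set.Finite.of_injOn (f := y) (t := (F : Set P)) (fun k hk => hy k hk) ?_ F.finite_toSet
  intro k hk k' hk' hkk
  by_contra hne
  apply hf (k - k') (sub_ne_zero.mpr hne)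
  rw [zpow_sub, hj k hk, hj k' hk', hkk]
  refine ⟨j k - j k', ?_⟩
  show S.c ^ (j k - j k') = _
  rw [zpow_sub]
  group

/-- The difference of the side function along `b`. -/
private theorem K7cb_chi {P : Type} [Group P] (S : Spl P) (b : P) (hb : b ∈ S.B) (p : P) :
    S.chi (p * b) - S.chi p = ind (p ∈ Subgroup.zpowers S.c) - ind (p * b ∈ Subgroup.zpowers S.c) := by
  unfold ind
  by_cases h1 : p ∈ Subgroup.zpowers S.c
  · by_cases h2 : p * b ∈ Subgroup.zpowers S.c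
    · rw [if_pos h1, if_pos h2, S.chi_Z _ h1, S.chi_Z _ h2]
      ring
    · rw [if_pos h1, if_neg h2, S.chi_Z _ h1, S.chi_Z_mul p b h1 hb h2]
  · by_cases h2 : p * b ∈ Subgroup.zpowers S.c
    · rw [if_neg h1, if_pos h2, S.chi_Z _ h2]
      have h3 : S.chi (p * b * b⁻¹) = 1 := by
        apply S.chi_Z_mul (p * b) b⁻¹ h2 (S.B.inv_mem hb)
        rw [mul_inv_cancel_right]
        exact h1
      rw [mul_inv_cancel_right] at h3
      rw [h3]
    · rw [if_neg h1, if_neg h2, S.chi_B p b hb h1 h2]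
      ring

/-- Sums over the cyclic subgroup. -/
private theorem K7cb_sum {P : Type} [Group P] (S : Spl P) (H : P → ℤ) :
    ∑ᶠ p : P, ind (p ∈ Subgroup.zpowers S.c) * H p = ∑ᶠ k : ℤ, H (S.c ^ k) := by
  have hinj : Function.Injective (fun k : ℤ => S.c ^ k) := by
    intro k k' h
    have h1 : S.c ^ k = S.c ^ k' := h
    have h2 := S.c_inf (k - k') (by rw [zpow_sub, h1, mul_inv_cancel])
    omega
  have h3 := finsum_mem_range (f := H) hinj
  rw [← h3, finsum_mem_def]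
  apply finsum_congr
  intro p
  by_cases hp : p ∈ Subgroup.zpowers S.c
  · have hp' : p ∈ Set.range (fun k : ℤ => S.c ^ k) := by
      obtain ⟨k, hk⟩ := hp
      exact ⟨k, hk⟩
    rw [Set.indicator_of_mem hp']
    unfold ind
    rw [if_pos hp, one_mul]
  · have hp' : p ∉ Set.range (fun k : ℤ => S.c ^ k) := by
      rintro ⟨k, hk⟩
      exact hp ⟨k, hk⟩
    rw [Set.indicator_of_notMem hp']
    unfold ind
    rw [if_neg hp, zero_mul]

/-- The function on the second factor. -/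
private noncomputable def K7cb_phi {P : Type} [Group P] (S : Spl P) (f : MulAut P) (b : P) : ℤ :=
  ∑ᶠ k : ℤ, (S.chi (f⁻¹ (S.c ^ k * b)) - S.chi (f⁻¹ (S.c ^ k)))

private theorem K7cb_supp {P : Type} [Group P] (S : Spl P) (f : MulAut P) (hf : S.NC (f⁻¹ S.c)) (b : P) :
    (Function.support fun k : ℤ => S.chi (f⁻¹ (S.c ^ k * b)) - S.chi (f⁻¹ (S.c ^ k))).Finite := by
  refine (K7cb_fin S f hf b).subset ?_
  intro k hk h
  exact hk (sub_eq_zero.mpr h)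

private theorem K7cb_supp2 {P : Type} [Group P] (S : Spl P) (f : MulAut P) (hf : S.NC (f⁻¹ S.c)) (b b' : P) :
    (Function.support fun k : ℤ => S.chi (f⁻¹ (S.c ^ k * b)) - S.chi (f⁻¹ (S.c ^ k * b'))).Finite := by
  refine ((K7cb_fin S f hf b).union (K7cb_fin S f hf b')).subset ?_
  intro k hk
  by_contra h
  apply hk
  rw [Set.mem_union, not_or] at h
  have h1 : S.chi (f⁻¹ (S.c ^ k * b)) = S.chi (f⁻¹ (S.c ^ k)) := not_not.mp h.1
  have h2 : S.chi (f⁻¹ (S.c ^ k * b')) = S.chi (f⁻¹ (S.c ^ k)) := not_not.mp h.2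
  show S.chi (f⁻¹ (S.c ^ k * b)) - S.chi (f⁻¹ (S.c ^ k * b')) = 0
  rw [h1, h2, sub_self]

private theorem K7cb_supp3 {P : Type} [Group P] (S : Spl P) (H : P → ℤ)
    (hH : (Function.support fun k : ℤ => H (S.c ^ k)).Finite) :
    (Function.support fun p : P => ind (p ∈ Subgroup.zpowers S.c) * H p).Finite := by
  refine (hH.image (fun k : ℤ => S.c ^ k)).subset ?_
  intro p hp
  have hp' : ind (p ∈ Subgroup.zpowers S.c) * H p ≠ 0 := hp
  by_cases h : p ∈ Subgroup.zpowers S.c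
  · obtain ⟨k, hk⟩ := h
    refine ⟨k, ?_, hk⟩
    have hk' : S.c ^ k = p := hk
    show H (S.c ^ k) ≠ 0
    rw [hk']
    exact right_ne_zero_of_mul hp'
  · exfalso
    apply hp'
    unfold ind
    rw [if_neg h, zero_mul]

/-- The cocycle on the second factor is a coboundary. -/
private theorem K7cb_cup {P : Type} [Group P] (S : Spl P) (f : MulAut P) (hf : S.NC (f⁻¹ S.c)) (b b' : P) (hb : b ∈ S.B) :
    cup S.chi (fun p => S.chi (f⁻¹ p)) b b' = K7cb_phi S f (b * b') - K7cb_phi S f b - K7cb_phi S f b' := by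
  unfold cup
  have h1 : ∀ p : P, (S.chi (p * b) - S.chi p) * (S.chi (f⁻¹ (p * b * b')) - S.chi (f⁻¹ (p * b))) =
      ind (p ∈ Subgroup.zpowers S.c) * (S.chi (f⁻¹ (p * b * b')) - S.chi (f⁻¹ (p * b))) -
        ind (p * b ∈ Subgroup.zpowers S.c) * (S.chi (f⁻¹ (p * b * b')) - S.chi (f⁻¹ (p * b))) := by
    intro p
    rw [K7cb_chi S b hb p]
    ring
  rw [finsum_congr h1]
  have hs1 : (Function.support fun p : P => ind (p ∈ Subgroup.zpowers S.c) *
      (S.chi (f⁻¹ (p * b * b')) - S.chi (f⁻¹ (p * b)))).Finite := by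
    apply K7cb_supp3 S (fun p => S.chi (f⁻¹ (p * b * b')) - S.chi (f⁻¹ (p * b)))
    have h2 := K7cb_supp2 S f hf (b * b') b
    simp only [← mul_assoc] at h2
    exact h2
  have hs2' : (Function.support fun q : P => ind (q ∈ Subgroup.zpowers S.c) *
      (S.chi (f⁻¹ (q * b')) - S.chi (f⁻¹ q))).Finite :=
    K7cb_supp3 S (fun q => S.chi (f⁻¹ (q * b')) - S.chi (f⁻¹ q)) (K7cb_supp S f hf b')
  have hs2 : (Function.support fun p : P => ind (p * b ∈ Subgroup.zpowers S.c) *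
      (S.chi (f⁻¹ (p * b * b')) - S.chi (f⁻¹ (p * b)))).Finite := by
    refine Set.Finite.of_injOn (f := fun p => p * b) (t := Function.support fun q : P => ind (q ∈ Subgroup.zpowers S.c) *
      (S.chi (f⁻¹ (q * b')) - S.chi (f⁻¹ q))) (fun p hp => hp) ?_ hs2'
    intro p _ p' _ h
    exact mul_right_cancel h
  rw [finsum_sub_distrib hs1 hs2]
  have h3 : ∑ᶠ p : P, ind (p * b ∈ Subgroup.zpowers S.c) * (S.chi (f⁻¹ (p * b * b')) - S.chi (f⁻¹ (p * b))) =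
      ∑ᶠ q : P, ind (q ∈ Subgroup.zpowers S.c) * (S.chi (f⁻¹ (q * b')) - S.chi (f⁻¹ q)) :=
    finsum_comp_equiv (Equiv.mulRight b) (f := fun q : P => ind (q ∈ Subgroup.zpowers S.c) * (S.chi (f⁻¹ (q * b')) - S.chi (f⁻¹ q)))
  rw [h3, K7cb_sum S (fun p => S.chi (f⁻¹ (p * b * b')) - S.chi (f⁻¹ (p * b))),
    K7cb_sum S (fun q => S.chi (f⁻¹ (q * b')) - S.chi (f⁻¹ q))]
  have h4 : K7cb_phi S f (b * b') - K7cb_phi S f b = ∑ᶠ k : ℤ, (S.chi (f⁻¹ (S.c ^ k * b * b')) - S.chi (f⁻¹ (S.c ^ k * b))) := by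
    unfold K7cb_phi
    rw [← finsum_sub_distrib (K7cb_supp S f hf (b * b')) (K7cb_supp S f hf b)]
    apply finsum_congr
    intro k
    rw [← mul_assoc]
    ring
  rw [h4]
  rfl

/-- The cocycle vanishes on the first factor. -/
private theorem K7cb_cupA {P : Type} [Group P] (S : Spl P) (β : P → ℤ) (a g : P) (ha : a ∈ S.A) :
    cup S.chi β a g = 0 := by
  unfold cup
  rw [← finsum_zero (α := P)]
  apply finsum_congr
  intro p
  rw [S.chi_A p a ha, sub_self, zero_mul]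

/-- The telescoping sum. -/
private theorem K7cb_tel (x : ℤ → ℤ) (p q : ℤ) (N : ℕ) (hp : ∀ k : ℕ, N ≤ k → x k = p) (hq : ∀ k : ℕ, N ≤ k → x (-k) = q) :
    ∑ᶠ k : ℤ, (x (k - 1) - x k) = q - p := by
  have hinj : Function.Injective (fun j : ℕ => (j : ℤ) - N + 1) := by
    intro i j h
    have h1 : (i : ℤ) - N + 1 = (j : ℤ) - N + 1 := h
    omega
  have hsup : (Function.support fun k : ℤ => x (k - 1) - x k) ⊆
      (((Finset.range (2 * N)).image (fun j : ℕ => (j : ℤ) - N + 1) : Finset ℤ) : Set ℤ) := by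
    intro k hk
    have hk' : x (k - 1) - x k ≠ 0 := hk
    rw [Finset.coe_image]
    by_contra h
    apply hk'
    have h2 : k ≤ -N ∨ (N : ℤ) < k := by
      by_contra h3
      rw [not_or, not_le, not_lt] at h3
      apply h
      refine ⟨(k + N - 1).toNat, ?_, ?_⟩
      · rw [Finset.mem_coe, Finset.mem_range]
        omega
      · show (((k + N - 1).toNat : ℕ) : ℤ) - N + 1 = k
        omega
    rcases h2 with h2 | h2
    · have h4 : k = -((-k).toNat : ℤ) := by omega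
      have h5 : k - 1 = -((-k + 1).toNat : ℤ) := by omega
      have h6 := hq (-k).toNat (by omega)
      have h7 := hq (-k + 1).toNat (by omega)
      rw [← h4] at h6
      rw [← h5] at h7
      rw [h6, h7, sub_self]
    · have h4 : k = (k.toNat : ℤ) := by omega
      have h5 : k - 1 = ((k - 1).toNat : ℤ) := by omega
      have h6 := hp k.toNat (by omega)
      have h7 := hp (k - 1).toNat (by omega)
      rw [← h4] at h6
      rw [← h5] at h7
      rw [h6, h7, sub_self]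
  rw [finsum_eq_sum_of_support_subset _ hsup, Finset.sum_image (fun i _ j _ h => hinj h)]
  have h8 := Finset.sum_range_sub' (fun j : ℕ => x ((j : ℤ) - N)) (2 * N)
  have h9 : ∀ j : ℕ, x ((j : ℤ) - N + 1 - 1) - x ((j : ℤ) - N + 1) = x ((j : ℤ) - N) - x (((j + 1 : ℕ) : ℤ) - N) := by
    intro j
    have h10 : (j : ℤ) - N + 1 - 1 = (j : ℤ) - N := by ring
    have h11 : (j : ℤ) - N + 1 = ((j + 1 : ℕ) : ℤ) - N := by
      push_cast
      ring
    rw [h10, h11]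
  rw [Finset.sum_congr rfl fun j _ => h9 j, h8]
  have h12 : ((0 : ℕ) : ℤ) - N = -(N : ℤ) := by simp
  have h13 : ((2 * N : ℕ) : ℤ) - N = (N : ℤ) := by
    push_cast
    ring
  rw [h12, h13, hp N le_rfl, hq N le_rfl]

private theorem K7cb_phi_c {P : Type} [Group P] (S : Spl P) (f : MulAut P) (hf : S.NC (f⁻¹ S.c)) :
    K7cb_phi S f S.c⁻¹ = - S.eps (f⁻¹ S.c) := by
  have h1 := S.E_spec (f⁻¹ S.c) hf 1
  have h2 := S.E_spec (f⁻¹ S.c)⁻¹ ((S.NC_inv _).mpr hf) 1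
  obtain ⟨N1, hN1⟩ := eventually_atTop.mp h1
  obtain ⟨N2, hN2⟩ := eventually_atTop.mp h2
  have h3 := K7cb_tel (fun k => S.chi (f⁻¹ (S.c ^ k))) (S.E (f⁻¹ S.c)) (S.E (f⁻¹ S.c)⁻¹) (max N1 N2) (by
    intro k hk
    have h4 := hN1 k (le_trans (le_max_left _ _) hk)
    rw [mul_one] at h4
    show S.chi (f⁻¹ (S.c ^ (k : ℤ))) = _
    rw [map_zpow, zpow_natCast]
    exact h4) (by
    intro k hk
    have h4 := hN2 k (le_trans (le_max_right _ _) hk)
    rw [mul_one] at h4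
    show S.chi (f⁻¹ (S.c ^ (-(k : ℤ)))) = _
    rw [map_zpow, zpow_neg, zpow_natCast, ← inv_pow]
    exact h4)
  unfold K7cb_phi Spl.eps
  rw [neg_sub, ← h3]
  apply finsum_congr
  intro k
  rw [zpow_sub_one]

/-- The value of the cocycle `cup chi (chi ∘ f⁻¹)` on the fundamental class. PROOF: write `β p := chi (f⁻¹ p)`,
`κ := cup chi β`, `Z := zpowers c`. `κ a h = 0` for `a ∈ A` (`chi_A`). For `b ∈ B`:
`chi (p * b) - chi p = ind (p ∈ Z) - ind (p * b ∈ Z)` (from `chi_B`, `chi_b`, `chi_Z`, `chi_Z_mul`, cases; for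
`p ∉ Z`, `p * b ∈ Z`: `chi p = 1` by `chi_Z_mul` for `p * b` and `b⁻¹`), so
`κ b b' = ∑_{p ∈ Z} (β (p b b') - β (p b)) - ∑_{p ∈ Z} (β (p b') - β p) = φ (b * b') - φ b - φ b'`, where
`φ b := ∑_{k : ℤ} (β (c ^ k * b) - β (c ^ k))` (finite sums: `β (c ^ k * b) ≠ β (c ^ k)` only for finitely many
`k` by `S.fin (f⁻¹ b)`, and the NC of `f⁻¹ c` (`NC_symm`); the sum over `p * b ∈ Z` is reindexed by `p ↦ p * b⁻¹`).
Let `H_A`, `H_B` be the subgroups of the free group generated by the letters with `i.val < n`,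
`n ≤ i.val`. `e` is additive on `H_A`, so `e (relator (take n)) = 0` (`add_relator`); `w ↦ e w - φ (proj w)` is
additive on `H_B`, so `e (relator (drop n)) = φ (proj (relator (drop n))) = φ c⁻¹` (`cc_inv`). Since
`relator (LL n) = relator (take n) * relator (drop n)` and `κ c _ = 0` (`c ∈ A`),
`e (relator (LL n)) = φ c⁻¹ = ∑_k (β (c ^ (k-1)) - β (c ^ k))`, a telescoping sum, equal to
`lim_{k → -∞} β (c ^ k) - lim_{k → +∞} β (c ^ k) = E (f⁻¹ c)⁻¹ - E (f⁻¹ c) = - eps (f⁻¹ c)` by `E_spec` for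
`f⁻¹ c` (`β (c ^ k) = chi ((f⁻¹ c) ^ k)`). -/
theorem prim_value (n : ℕ) (S : Spl (SG (LL n))) (hA : S.A = subA n) (hB : S.B = subB n)
    (hc : S.c = cc n) (f : MulAut (SG (LL n))) (hf : S.NC (f S.c))
    (e : FreeGroup (Fin (n + n) × Bool) → ℤ)
    (he : IsPrim (LL n) (cup S.chi fun p => S.chi (f⁻¹ p)) e) :
    e (relator (LL n)) = - S.eps (f⁻¹ S.c) := by
  have hf' : S.NC (f⁻¹ S.c) := S.NC_symm f hf
  have hA1 := add_relator ((LL n).take n) (Subgroup.comap (proj (LL n)) S.A) (by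
    intro i hi
    rw [take_eq, List.mem_map] at hi
    obtain ⟨j, _, rfl⟩ := hi
    rw [hA]
    exact ⟨Subgroup.subset_closure ⟨Fin.castAdd n j, j.isLt, Or.inl rfl⟩,
      Subgroup.subset_closure ⟨Fin.castAdd n j, j.isLt, Or.inr rfl⟩⟩) e (by
    intro u hu v _
    rw [he u v, K7cb_cupA S _ _ _ hu, add_zero])
  have hB1 := add_relator ((LL n).drop n) (Subgroup.comap (proj (LL n)) S.B) (by
    intro i hi
    rw [drop_eq, List.mem_map] at hi
    obtain ⟨j, _, rfl⟩ := hi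
    rw [hB]
    exact ⟨Subgroup.subset_closure ⟨Fin.natAdd n j, Nat.le_add_right _ _, Or.inl rfl⟩,
      Subgroup.subset_closure ⟨Fin.natAdd n j, Nat.le_add_right _ _, Or.inr rfl⟩⟩)
    (fun w => e w - K7cb_phi S f (proj (LL n) w)) (by
    intro u hu v _
    show e (u * v) - K7cb_phi S f (proj (LL n) (u * v)) =
      (e u - K7cb_phi S f (proj (LL n) u)) + (e v - K7cb_phi S f (proj (LL n) v))
    rw [he u v, K7cb_cup S f hf' _ _ hu, map_mul]
    ring)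
  have h1 : relator (LL n) = relator ((LL n).take n) * relator ((LL n).drop n) := by
    rw [← relator_append, List.take_append_drop]
  have h2 : e (relator ((LL n).drop n)) = K7cb_phi S f (proj (LL n) (relator ((LL n).drop n))) := by
    have h3 := hB1.1
    have h4 : e (relator ((LL n).drop n)) - K7cb_phi S f (proj (LL n) (relator ((LL n).drop n))) = 0 := h3
    linarith
  have h5 : e (relator (LL n)) = e (relator ((LL n).take n) * relator ((LL n).drop n)) := congrArg e h1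
  have h6 : K7cb_phi S f (proj (LL n) (relator ((LL n).drop n))) = - S.eps (f⁻¹ S.c) := by
    rw [← K7cb_phi_c S f hf', ← cc_inv, hc]
  rw [h5, he, hA1.1, h2, K7cb_cupA S _ _ _ hA1.2, h6]
  ring

end Pool.Agent.Lib.MP_6a1159_al.BS
end

section

/-! K7cc: antisymmetry of the crossing numbers. -/

set_option autoImplicit false

open Filter

namespace Pool.Agent.Lib.MP_6a1159_al.BS

/-- PROOF: let `α := chi`, `β := chi ∘ f⁻¹`, `κ := cup α β`, `κ' := cup β α`; they are cocycles (`cup_coc`,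
`fin_pair`, the symmetric condition for `κ'`). Primitives `e`, `e'` (`exists_prim`). By
`cup_antisymm` `κ + κ' = δφ`, so `w ↦ e w + e' w - φ (proj w)` is additive, so `e (relator) + e' (relator) = φ 1 = 0`
(`add_relator`). `e (relator) = - eps (f⁻¹ c)` by `prim_value`. `κ' (f g) (f h) =
cup (chi) (chi ∘ f) g h` by `cup_map`, which is `cup chi (chi ∘ (f⁻¹)⁻¹)`; let `e''` be a primitive of
it. By `prim_aut` `e'' (relator) = e' (relator)`, and by `prim_value` for `f⁻¹` (`NC_symm`)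
`e'' (relator) = - eps (f c)`. So `- eps (f⁻¹ c) - eps (f c) = 0`. -/
theorem antisym_SG (n : ℕ) (hn : 1 ≤ n) (S : Spl (SG (LL n))) (hA : S.A = subA n)
    (hB : S.B = subB n) (hc : S.c = cc n) (f : MulAut (SG (LL n))) (hfG : f ∈ AutPlus (LL n))
    (hf : S.NC (f S.c)) : S.eps (f⁻¹ S.c) = - S.eps (f S.c) := by
  have hf' : S.NC (f⁻¹ S.c) := S.NC_symm f hf
  have hfin : ∀ g h, {p | S.chi (p * g) ≠ S.chi p ∧
      (fun p => S.chi (f⁻¹ p)) (p * h) ≠ (fun p => S.chi (f⁻¹ p)) p}.Finite :=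
    fun g h => fin_pair S f hf g h
  have hfin1 : ∀ g h, {p | (fun p => S.chi (f⁻¹ p)) (p * g) ≠ (fun p => S.chi (f⁻¹ p)) p ∧
      S.chi (p * h) ≠ S.chi p}.Finite :=
    fun g h => (hfin h g).subset (fun p hp => ⟨hp.2, hp.1⟩)
  have hfin2 : ∀ g h, {p | S.chi (p * g) ≠ S.chi p ∧
      (fun p => S.chi ((f⁻¹)⁻¹ p)) (p * h) ≠ (fun p => S.chi ((f⁻¹)⁻¹ p)) p}.Finite :=
    fun g h => fin_pair S f⁻¹ hf' g h
  have hk := cup_coc S.chi (fun p => S.chi (f⁻¹ p)) hfin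
  have hk' := cup_coc (fun p => S.chi (f⁻¹ p)) S.chi hfin1
  have hk'' := cup_coc S.chi (fun p => S.chi ((f⁻¹)⁻¹ p)) hfin2
  obtain ⟨e, he⟩ := exists_prim (LL n) _ hk
  obtain ⟨e', he'⟩ := exists_prim (LL n) _ hk'
  obtain ⟨e'', he''⟩ := exists_prim (LL n) _ hk''
  obtain ⟨φ, hφ1, hφ⟩ := cup_antisymm S.chi (fun p => S.chi (f⁻¹ p)) hfin
  -- the sum of the two values
  have h1 := (add_relator (LL n) ⊤ (fun _ _ => ⟨Subgroup.mem_top _, Subgroup.mem_top _⟩)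
    (fun w => e w + e' w - φ (proj (LL n) w)) (by
      intro u _ v _
      have h2 := he u v
      have h3 := he' u v
      have h4 := hφ (proj (LL n) u) (proj (LL n) v)
      show e (u * v) + e' (u * v) - φ (proj (LL n) (u * v)) =
        (e u + e' u - φ (proj (LL n) u)) + (e v + e' v - φ (proj (LL n) v))
      rw [map_mul, h2, h3]
      linarith)).1
  have h5 : proj (LL n) (relator (LL n)) = 1 := PresentedGroup.one_of_mem (Set.mem_singleton _)
  replace h1 : e (relator (LL n)) + e' (relator (LL n)) - φ (proj (LL n) (relator (LL n))) = 0 := h1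
  rw [h5, hφ1, sub_zero] at h1
  have h6 := prim_value n S hA hB hc f hf e he
  have h7 := prim_value n S hA hB hc f⁻¹ hf' e'' he''
  rw [inv_inv] at h7
  -- transport by `f`
  have hne : LL n ≠ [] := by
    intro h
    have h8 := congrArg List.length h
    rw [List.length_finRange, List.length_nil] at h8
    omega
  have hcup : (fun g h => cup (fun p => S.chi (f⁻¹ p)) S.chi (f g) (f h)) =
      cup S.chi (fun p => S.chi ((f⁻¹)⁻¹ p)) := by
    funext g h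
    rw [cup_map]
    congr 1
    · funext p
      show S.chi (f⁻¹ (f p)) = S.chi p
      rw [MulAut.inv_apply_self]
  have h9 := prim_aut (LL n) hne (List.nodup_finRange _) f hfG
    (cup (fun p => S.chi (f⁻¹ p)) S.chi) hk' e' e'' he' (by rw [hcup]; exact he'')
  linarith

end Pool.Agent.Lib.MP_6a1159_al.BS
end

section

/-! K7c: see the imported files. -/
end

section

/-! E6a: twisting numbers, general properties. -/

set_option autoImplicit false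

open Filter

namespace Pool.Agent.Lib.MP_6a1159_al.BS

namespace Surf

variable {P : Type} [Group P] {G : Subgroup (MulAut P)} (S : Surf P G)

private theorem cur_pow (l z : P) (hz : z ∈ S.Cur) (n : ℤ) : l ^ n * z * l ^ (-n) ∈ S.Cur := by
  rw [zpow_neg]
  exact (S.cur_conj (l ^ n) z).2 hz

/-- PROOF: `ep_map` for all factors (`f (l ^ n * z * l ^ (-n)) = (f l) ^ n * f z * (f l) ^ (-n)`, which
is a curve by `cur_conj`). -/
theorem tw_map (f : MulAut P) (hf : f ∈ G) (l x z : P) (hl : l ∈ S.Cur) (hx : x ∈ S.Cur)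
    (hz : z ∈ S.Cur) : S.tw (f l) (f x) (f z) = S.tw l x z := by
  unfold tw
  rw [S.ep_map f hf x l hx hl, S.ep_map f hf z l hz hl]
  congr 1
  apply finsum_congr
  intro n
  have h : (f l) ^ n * f z * (f l) ^ (-n) = f (l ^ n * z * l ^ (-n)) := by
    rw [map_mul, map_mul, map_zpow, map_zpow]
  rw [h]
  exact S.ep_map f hf x _ hx (S.cur_pow l z hz n)

/-- PROOF: `tw_map` with `conj g`. -/
theorem tw_conj (g l x z : P) (hl : l ∈ S.Cur) (hx : x ∈ S.Cur) (hz : z ∈ S.Cur) :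
    S.tw (g * l * g⁻¹) (g * x * g⁻¹) (g * z * g⁻¹) = S.tw l x z := by
  have h := S.tw_map (MulAut.conj g) (S.conj_mem g) l x z hl hx hz
  simpa only [MulAut.conj_apply] using h

/-- PROOF: `ep_inv_left` twice. -/
theorem tw_inv_x (l x z : P) : S.tw l x⁻¹ z = S.tw l x z := by
  unfold tw
  have h : (∑ᶠ n : ℤ, S.ep x⁻¹ (l ^ n * z * l ^ (-n)))
      = - ∑ᶠ n : ℤ, S.ep x (l ^ n * z * l ^ (-n)) := by
    rw [← finsum_neg_distrib]
    apply finsum_congr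
    intro n
    exact S.ep_inv_left x _
  rw [h, S.ep_inv_left x l]
  ring

/-- PROOF: `ep z⁻¹ l = - ep z l` and `ep x (l ^ n * z⁻¹ * l ^ (-n)) = - ep x (l ^ n * z * l ^ (-n))`
(`ep_inv_right`, `l ^ n * z⁻¹ * l ^ (-n) = (l ^ n * z * l ^ (-n))⁻¹`). -/
theorem tw_inv_z (l x z : P) (hl : l ∈ S.Cur) (hx : x ∈ S.Cur) (hz : z ∈ S.Cur) :
    S.tw l x z⁻¹ = S.tw l x z := by
  have _hl := hl
  unfold tw
  have h : (∑ᶠ n : ℤ, S.ep x (l ^ n * z⁻¹ * l ^ (-n)))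
      = - ∑ᶠ n : ℤ, S.ep x (l ^ n * z * l ^ (-n)) := by
    rw [← finsum_neg_distrib]
    apply finsum_congr
    intro n
    have e : l ^ n * z⁻¹ * l ^ (-n) = (l ^ n * z * l ^ (-n))⁻¹ := by
      rw [zpow_neg]
      group
    rw [e]
    exact S.ep_inv_right x _ hx (S.cur_pow l z hz n)
  rw [h, S.ep_inv_left z l]
  ring

/-- PROOF: the two first factors change sign (`ep_inv_right`), the sum is reindexed by `n ↦ -n`
(`finsum_comp_equiv` with `Equiv.neg ℤ`). -/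
theorem tw_inv_l (l x z : P) (hl : l ∈ S.Cur) (hx : x ∈ S.Cur) (hz : z ∈ S.Cur) :
    S.tw l⁻¹ x z = S.tw l x z := by
  unfold tw
  have h : (∑ᶠ n : ℤ, S.ep x (l⁻¹ ^ n * z * l⁻¹ ^ (-n)))
      = ∑ᶠ n : ℤ, S.ep x (l ^ n * z * l ^ (-n)) := by
    rw [← finsum_comp_equiv (Equiv.neg ℤ) (f := fun n : ℤ => S.ep x (l ^ n * z * l ^ (-n)))]
    apply finsum_congr
    intro n
    have e : l⁻¹ ^ n * z * l⁻¹ ^ (-n) = l ^ (Equiv.neg ℤ n) * z * l ^ (-(Equiv.neg ℤ n)) := by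
      rw [Equiv.neg_apply, inv_zpow', inv_zpow']
    rw [e]
  rw [h, S.ep_inv_right x l hx hl, S.ep_inv_right z l hz hl]
  ring

/-- Reduction to the case `l = c`, positive crossings. PROOF: `f := (rep l)⁻¹`; `ep (f x) c = ep x l`
(`ep_map`); replace `f x` by its inverse if this is `-1`. -/
theorem normalize (l : P) (hl : l ∈ S.Cur) : ∃ f ∈ G, f l = S.c ∧
    ∀ x ∈ S.Cur, S.ep x l ≠ 0 → ∃ x' : P, (x' = f x ∨ x' = (f x)⁻¹) ∧
      (x' ∈ S.Cur ∧ S.ep x' S.c = 1) := by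
  obtain ⟨hG, hc⟩ := S.rep_spec l hl
  have hG' : (S.rep l)⁻¹ ∈ G := inv_mem hG
  have hfl : (S.rep l)⁻¹ l = S.c := by
    rw [MulAut.inv_apply, MulEquiv.symm_apply_eq]
    exact hc.symm
  refine ⟨(S.rep l)⁻¹, hG', hfl, ?_⟩
  intro x hx hne
  have hep : S.ep ((S.rep l)⁻¹ x) S.c = S.ep x l := by
    rw [← hfl]
    exact S.ep_map (S.rep l)⁻¹ hG' x l hx hl
  have hcur : (S.rep l)⁻¹ x ∈ S.Cur := (S.cur_map (S.rep l)⁻¹ hG' x).2 hx
  rcases S.ep_cases x l with h | h | h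
  · exact absurd h hne
  · exact ⟨(S.rep l)⁻¹ x, Or.inl rfl, hcur, by rw [hep, h]⟩
  · refine ⟨((S.rep l)⁻¹ x)⁻¹, Or.inr rfl, (S.cur_inv _).2 hcur, ?_⟩
    rw [S.ep_inv_left, hep, h]
    norm_num

end Surf

end Pool.Agent.Lib.MP_6a1159_al.BS
end

section

/-! E6b: twisting numbers, general properties. -/

set_option autoImplicit false

open Filter

namespace Pool.Agent.Lib.MP_6a1159_al.BS

namespace Surf

variable {P : Type} [Group P] {G : Subgroup (MulAut P)} (S : Surf P G)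

private theorem e6b_red (f : MulAut P) (hf : f ∈ G) (l x z x' z' : P) (hfl : f l = S.c) (hl : l ∈ S.Cur)
    (hx : x ∈ S.Cur) (hz : z ∈ S.Cur) (hx' : x' = f x ∨ x' = (f x)⁻¹) (hz' : z' = f z ∨ z' = (f z)⁻¹) :
    S.tw l x z = S.tw S.c x' z' := by
  have hfx : f x ∈ S.Cur := (S.cur_map f hf x).2 hx
  have hfz : f z ∈ S.Cur := (S.cur_map f hf z).2 hz
  have hx'C : x' ∈ S.Cur := by
    rcases hx' with h | h
    · rw [h]; exact hfx
    · rw [h]; exact (S.cur_inv _).2 hfx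
  have h1 : S.tw S.c x' z' = S.tw S.c x' (f z) := by
    rcases hz' with h | h
    · rw [h]
    · rw [h, S.tw_inv_z S.c x' (f z) S.c_cur hx'C hfz]
  have h2 : S.tw S.c x' (f z) = S.tw S.c (f x) (f z) := by
    rcases hx' with h | h
    · rw [h]
    · rw [h, S.tw_inv_x]
  rw [h1, h2, ← hfl, S.tw_map f hf l x z hl hx hz]

private theorem e6b_ep (f : MulAut P) (hf : f ∈ G) (l x z x' z' : P) (hfl : f l = S.c)
    (hx : x ∈ S.Cur) (hz : z ∈ S.Cur) (hx' : x' = f x ∨ x' = (f x)⁻¹) (hz' : z' = f z ∨ z' = (f z)⁻¹)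
    (n : ℤ) (h : S.ep x' (S.c ^ n * z' * S.c ^ (-n)) ≠ 0) : S.ep x (l ^ n * z * l ^ (-n)) ≠ 0 := by
  have hfx : f x ∈ S.Cur := (S.cur_map f hf x).2 hx
  have hfz : f z ∈ S.Cur := (S.cur_map f hf z).2 hz
  have hlz : l ^ n * z * l ^ (-n) ∈ S.Cur := by
    rw [zpow_neg]; exact (S.cur_conj _ _).2 hz
  have hcz : S.c ^ n * f z * S.c ^ (-n) ∈ S.Cur := by
    rw [zpow_neg]; exact (S.cur_conj _ _).2 hfz
  have h1 : S.ep x (l ^ n * z * l ^ (-n)) = S.ep (f x) (S.c ^ n * f z * S.c ^ (-n)) := by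
    rw [← S.ep_map f hf x _ hx hlz, map_mul, map_mul, map_zpow, map_zpow, hfl]
  rw [h1]
  intro h0
  apply h
  have h2 : S.ep (f x) (S.c ^ n * z' * S.c ^ (-n)) = 0 := by
    rcases hz' with e | e
    · rw [e]; exact h0
    · have : S.c ^ n * z' * S.c ^ (-n) = (S.c ^ n * f z * S.c ^ (-n))⁻¹ := by rw [e]; group
      rw [this, S.ep_inv_right _ _ hfx hcz, h0, neg_zero]
  rcases hx' with e | e
  · rw [e]; exact h2
  · rw [e, S.ep_inv_left, h2, neg_zero]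

/-- PROOF: `normalize`, `tw_map`, `tw_inv_x`, `tw_inv_z` and the second part of `tw_c`. -/
theorem tw_anti (l x z : P) (hl : l ∈ S.Cur) (hx : x ∈ S.Cur) (hz : z ∈ S.Cur)
    (h1 : S.ep x l ≠ 0) (h2 : S.ep z l ≠ 0) : S.tw l z x = - S.tw l x z := by
  obtain ⟨f, hf, hfl, H⟩ := S.normalize l hl
  obtain ⟨x', hx', hx1⟩ := H x hx h1
  obtain ⟨z', hz', hz1⟩ := H z hz h2
  rw [S.e6b_red f hf l x z x' z' hfl hl hx hz hx' hz', S.e6b_red f hf l z x z' x' hfl hl hz hx hz' hx']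
  exact (S.tw_c x' z' hx1 hz1).2.1

/-- PROOF: the third part of `tw_c`, in the same way. -/
theorem tw_coc (l x z w : P) (hl : l ∈ S.Cur) (hx : x ∈ S.Cur) (hz : z ∈ S.Cur)
    (hw : w ∈ S.Cur) (h1 : S.ep x l ≠ 0) (h2 : S.ep z l ≠ 0) (h3 : S.ep w l ≠ 0) :
    |S.tw l x w - S.tw l x z - S.tw l z w| ≤ 1 := by
  obtain ⟨f, hf, hfl, H⟩ := S.normalize l hl
  obtain ⟨x', hx', hx1⟩ := H x hx h1
  obtain ⟨z', hz', hz1⟩ := H z hz h2
  obtain ⟨w', hw', hw1⟩ := H w hw h3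
  rw [S.e6b_red f hf l x z x' z' hfl hl hx hz hx' hz', S.e6b_red f hf l x w x' w' hfl hl hx hw hx' hw',
    S.e6b_red f hf l z w z' w' hfl hl hz hw hz' hw']
  exact (S.tw_c x' z' hx1 hz1).2.2.1 w' hw1

/-- PROOF: the fourth part of `tw_c`; replacing `x`, `z` by their inverses or applying `f` does not
change whether `ep x (...)` vanishes (`ep_inv_left`, `ep_inv_right`, `ep_map`). -/
theorem tw_cons (l x z : P) (hl : l ∈ S.Cur) (hx : x ∈ S.Cur) (hz : z ∈ S.Cur)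
    (h1 : S.ep x l ≠ 0) (h2 : S.ep z l ≠ 0) (m : ℕ) (hm : (m : ℤ) ≤ |S.tw l x z|) :
    ∃ n0 : ℤ, ∀ i : ℕ, i < m → S.ep x (l ^ (n0 + i) * z * l ^ (-(n0 + i))) ≠ 0 := by
  obtain ⟨f, hf, hfl, H⟩ := S.normalize l hl
  obtain ⟨x', hx', hx1⟩ := H x hx h1
  obtain ⟨z', hz', hz1⟩ := H z hz h2
  rw [S.e6b_red f hf l x z x' z' hfl hl hx hz hx' hz'] at hm
  obtain ⟨n0, hn0⟩ := (S.tw_c x' z' hx1 hz1).2.2.2.1 m hm
  exact ⟨n0, fun i hi => S.e6b_ep f hf l x z x' z' hfl hx hz hx' hz' _ (hn0 i hi)⟩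

/-- PROOF: the sum in the definition has only the term `n = 0`, and all three factors are in
`{0, 1, -1}` (`ep_cases`, `finsum_eq_single`). -/
theorem tw_le_one (l x z : P) (h : ∀ n : ℤ, n ≠ 0 → S.ep x (l ^ n * z * l ^ (-n)) = 0) :
    |S.tw l x z| ≤ 1 := by
  unfold Surf.tw
  rw [finsum_eq_single _ (0 : ℤ) h]
  rcases S.ep_cases x l with h1 | h1 | h1 <;> rcases S.ep_cases z l with h2 | h2 | h2 <;>
    rcases S.ep_cases x (l ^ (0 : ℤ) * z * l ^ (-(0 : ℤ))) with h3 | h3 | h3 <;>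
    rw [h1, h2, h3] <;> norm_num

/-- PROOF: `x'` and `x` are of the same class: all the terms of the sum are `0` by `ep_same` (the curve
`l ^ n * x' * l ^ (-n)` is `g' * x * g'⁻¹` or `g' * x⁻¹ * g'⁻¹ = (g' * x * g'⁻¹)⁻¹`, `ep_inv_right`). -/
theorem tw_same (l x x' : P) (hx : x ∈ S.Cur) (h : x' ∈ cls x) : S.tw l x x' = 0 := by
  have h0 : ∀ n : ℤ, S.ep x (l ^ n * x' * l ^ (-n)) = 0 := by
    intro n
    obtain ⟨g, h | h⟩ := h
    · have : l ^ n * x' * l ^ (-n) = (l ^ n * g) * x * (l ^ n * g)⁻¹ := by rw [h]; group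
      rw [this]
      exact S.ep_same x _ hx
    · have : l ^ n * x' * l ^ (-n) = ((l ^ n * g) * x * (l ^ n * g)⁻¹)⁻¹ := by rw [h]; group
      rw [this, S.ep_inv_right _ _ hx ((S.cur_conj _ _).2 hx), S.ep_same x _ hx, neg_zero]
  unfold Surf.tw
  simp only [h0, finsum_zero, mul_zero]

end Surf

end Pool.Agent.Lib.MP_6a1159_al.BS
end

section

/-! E6: see the imported files. -/
end

section

/-! W1a: growth of the twisting numbers under the twist about `c`. -/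

set_option autoImplicit false

open Filter

namespace Pool.Agent.Lib.MP_6a1159_al.BS

namespace Spl

variable {P : Type} [Group P] (S : Spl P)

/-- PROOF: `nested b` at `b * g`: `chi (b * g) = chi b = 1` or `chi g = chi b⁻¹ = 1`. -/
theorem chi_b_mul (b g : P) (hb : b ∈ S.B) (hb' : b ∉ Subgroup.zpowers S.c)
    (h : S.chi g = 0) : S.chi (b * g) = 1 := by
  have hbi : b⁻¹ ∉ Subgroup.zpowers S.c := fun hh => hb' (by
    have := (Subgroup.zpowers S.c).inv_mem hh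
    rwa [inv_inv] at this)
  rcases S.nested b hb' (b * g) with h1 | h1
  · rw [h1]
    exact S.chi_b b hb hb'
  · rw [inv_mul_cancel_left, S.chi_b b⁻¹ (S.B.inv_mem hb) hbi] at h1
    omega

/-- PROOF: `nested a` at `a * g`: `chi (a * g) = chi a = 0` or `chi g = chi a⁻¹ = 0`. -/
theorem chi_a_mul (a g : P) (ha : a ∈ S.A) (ha' : a ∉ Subgroup.zpowers S.c)
    (h : S.chi g = 1) : S.chi (a * g) = 0 := by
  rcases S.nested a ha' (a * g) with h1 | h1
  · rw [h1]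
    exact S.chi_mem_A a ha
  · rw [inv_mul_cancel_left, S.chi_mem_A a⁻¹ (S.A.inv_mem ha)] at h1
    omega

/-- PROOF: with `u := b * a`: `chi (u ^ m) = 1` for `m ≥ 1`: `u ^ (m + 1) = b * (a * u ^ m)`,
`chi (a * u ^ m) = 0` by `chi_a_mul` (`m ≥ 1`) or `chi a = 0` (`m = 0`), then `chi_b_mul`. Similarly
`u⁻¹ = a⁻¹ * b⁻¹`, `chi (u⁻¹ ^ m) = 0`: `chi (b⁻¹ * u⁻¹ ^ m) = 1`. So `E u = 1`, `E u⁻¹ = 0`. -/
theorem eps_ba (b a : P) (hb : b ∈ S.B) (hb' : b ∉ Subgroup.zpowers S.c) (ha : a ∈ S.A)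
    (ha' : a ∉ Subgroup.zpowers S.c) : S.E (b * a) = 1 ∧ S.E (b * a)⁻¹ = 0 ∧
      ∀ m : ℕ, 0 < m → S.chi (b⁻¹ * (b * a) ^ m) = 0 ∧ S.chi (a * (b * a)⁻¹ ^ m) = 1 := by
  have hbi' : b⁻¹ ∉ Subgroup.zpowers S.c := fun hh => hb' (by
    have := (Subgroup.zpowers S.c).inv_mem hh
    rwa [inv_inv] at this)
  have hbi : b⁻¹ ∈ S.B := S.B.inv_mem hb
  have hai' : a⁻¹ ∉ Subgroup.zpowers S.c := fun hh => ha' (by
    have := (Subgroup.zpowers S.c).inv_mem hh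
    rwa [inv_inv] at this)
  have hai : a⁻¹ ∈ S.A := S.A.inv_mem ha
  have hA : ∀ m : ℕ, S.chi (a * (b * a) ^ m) = 0 := by
    intro m
    induction m with
    | zero =>
      rw [pow_zero, mul_one]
      exact S.chi_mem_A a ha
    | succ m ih =>
      apply S.chi_a_mul a _ ha ha'
      rw [pow_succ', mul_assoc b a]
      exact S.chi_b_mul b _ hb hb' ih
  have hB : ∀ m : ℕ, S.chi (b⁻¹ * (b * a)⁻¹ ^ m) = 1 := by
    intro m
    induction m with
    | zero =>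
      rw [pow_zero, mul_one]
      exact S.chi_b _ hbi hbi'
    | succ m ih =>
      apply S.chi_b_mul b⁻¹ _ hbi hbi'
      rw [pow_succ', mul_inv_rev, mul_assoc a⁻¹ b⁻¹, ← mul_inv_rev b a]
      exact S.chi_a_mul a⁻¹ _ hai hai' ih
  have h1 : ∀ m : ℕ, 0 < m → S.chi ((b * a) ^ m) = 1 := by
    intro m hm
    obtain ⟨k, rfl⟩ : ∃ k, m = k + 1 := ⟨m - 1, by omega⟩
    rw [pow_succ', mul_assoc b a]
    exact S.chi_b_mul b _ hb hb' (hA k)
  have h0 : ∀ m : ℕ, 0 < m → S.chi ((b * a)⁻¹ ^ m) = 0 := by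
    intro m hm
    obtain ⟨k, rfl⟩ : ∃ k, m = k + 1 := ⟨m - 1, by omega⟩
    rw [pow_succ', mul_inv_rev, mul_assoc a⁻¹ b⁻¹, ← mul_inv_rev b a]
    exact S.chi_a_mul a⁻¹ _ hai hai' (hB k)
  refine ⟨?_, ?_, ?_⟩
  · unfold E
    rw [if_pos]
    filter_upwards [eventually_gt_atTop 0] with m hm
    exact h1 m hm
  · unfold E
    rw [if_neg]
    intro hh
    obtain ⟨m, hm1, hm2⟩ := (hh.and (eventually_gt_atTop 0)).exists
    rw [h0 m hm2] at hm1
    omega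
  · intro m hm
    obtain ⟨k, rfl⟩ : ∃ k, m = k + 1 := ⟨m - 1, by omega⟩
    constructor
    · rw [pow_succ', mul_assoc b a, inv_mul_cancel_left]
      exact hA k
    · rw [pow_succ', mul_inv_rev, mul_assoc a⁻¹ b⁻¹, mul_inv_cancel_left, ← mul_inv_rev b a]
      exact hB k

end Spl

end Pool.Agent.Lib.MP_6a1159_al.BS
end

section

/-! W1b: growth of the twisting numbers under the twist about `c`. -/

set_option autoImplicit false

open Filter

namespace Pool.Agent.Lib.MP_6a1159_al.BS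

namespace Surf

variable {P : Type} [Group P] {G : Subgroup (MulAut P)} (S : Surf P G)

private theorem w1b_E (p u g : P) (q : ℤ) (hN : S.NC ((MulAut.conj p)⁻¹ u))
    (h : ∀ m : ℕ, 0 < m → S.chi (p⁻¹ * u ^ m * g) = q) : S.E ((MulAut.conj p)⁻¹ u) = q := by
  rw [MulAut.conj_inv_apply] at hN ⊢
  obtain ⟨m, hm, hm'⟩ := ((S.E_spec' p u hN g).and (eventually_gt_atTop 0)).exists
  exact hm.symm.trans (h m hm')

private theorem w1b_NC (p x : P) (hx : x ∈ S.Cur) (h : S.eps x ≠ 0) : S.NC ((MulAut.conj p)⁻¹ x) := by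
  refine S.NC_of_ne (MulAut.conj p) (S.conj_mem p) x hx ?_ ?_
  · intro e
    rw [e, MulAut.conj_apply] at h
    exact h (S.eps_cc p)
  · intro e
    rw [e, MulAut.conj_apply, S.eps_inv, S.eps_cc p] at h
    exact h rfl

private theorem w1b_pow (g u : P) (m : ℕ) : (g * u * g⁻¹) ^ m * g = g * u ^ m := by
  rw [conj_pow, inv_mul_cancel_right]

private theorem w1b_pow' (g u : P) (m : ℕ) : (g * u * g⁻¹)⁻¹ ^ m * g = g * u⁻¹ ^ m := by
  rw [← w1b_pow g u⁻¹ m]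
  congr 2
  group

private theorem w1b_eps (u : P) (n : ℕ) : S.eps (S.c ^ n * u * (S.c ^ n)⁻¹) = S.eps u := by
  have := S.eps_conj_c (n : ℤ) u
  rwa [zpow_neg, zpow_natCast] at this

private theorem w1b_tk (t : MulAut P) (htB : ∀ b ∈ S.B, t b = b)
    (htA : ∀ a ∈ S.A, t a = S.c * a * S.c⁻¹) (b a : P) (hb : b ∈ S.B) (ha : a ∈ S.A) (k : ℕ) :
    (t ^ k) (b * a) = b * (S.c ^ k * a * (S.c ^ k)⁻¹) := by
  induction k with
  | zero => simp
  | succ k ih =>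
    rw [pow_succ', MulAut.mul_apply, ih, map_mul, map_mul, map_mul, map_inv, map_pow, htB _ hb, htA _ ha,
      htB _ S.c_mem_B, pow_succ]
    group

private theorem w1b_ne (b a : P)
    (hb : b ∈ S.B) (hb' : b ∉ Subgroup.zpowers S.c) (ha : a ∈ S.A)
    (ha' : a ∉ Subgroup.zpowers S.c) (k : ℕ) (hk : 0 < k) (n : ℤ) :
    b * (S.c ^ k * a * (S.c ^ k)⁻¹) ≠ S.c ^ n * (b * a) * S.c ^ (-n) := by
  intro h
  have hcA : ∀ j : ℤ, S.c ^ j ∈ S.A := fun j => zpow_mem S.c_mem_A j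
  have hcB : ∀ j : ℤ, S.c ^ j ∈ S.B := fun j => zpow_mem S.c_mem_B j
  have hcAk : S.c ^ k ∈ S.A := pow_mem S.c_mem_A k
  have h1 : b⁻¹ * S.c ^ n * b = (S.c ^ k * a * (S.c ^ k)⁻¹) * S.c ^ n * a⁻¹ := by
    have : S.c ^ k * a * (S.c ^ k)⁻¹ = b⁻¹ * (S.c ^ n * (b * a) * S.c ^ (-n)) := by
      rw [← h, inv_mul_cancel_left]
    rw [this, zpow_neg]
    group
  have hA : b⁻¹ * S.c ^ n * b ∈ S.A := by
    rw [h1]
    exact mul_mem (mul_mem (mul_mem (mul_mem hcAk ha) (inv_mem hcAk)) (hcA n)) (inv_mem ha)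
  have hB : b⁻¹ * S.c ^ n * b ∈ S.B := mul_mem (mul_mem (inv_mem hb) (hcB n)) hb
  have hZ := S.inter_AB _ hA hB
  have hn : n = 0 := by
    by_contra hn
    exact hb' (S.mal_B b hb n hn hZ)
  rw [hn] at h
  simp only [zpow_zero, neg_zero, one_mul, mul_one] at h
  have h2 : S.c ^ k * a * (S.c ^ k)⁻¹ = a := mul_left_cancel h
  have h3 : a⁻¹ * S.c ^ (k : ℤ) * a = S.c ^ (k : ℤ) := by
    rw [zpow_natCast]
    have : S.c ^ k * a = a * S.c ^ k := mul_inv_eq_iff_eq_mul.1 h2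
    rw [mul_assoc, this, inv_mul_cancel_left]
  exact ha' (S.mal_A a ha k (by omega) (by rw [h3]; exact Subgroup.zpow_mem_zpowers _ _))

/-- PROOF. Let `u := f c = b * a`, `x := (t ^ k) u = b * (c ^ k * a * c ^ (-k))` (induction on `k`; `t c = c`
since `c ∈ B`), and `a' := c ^ k * a * c ^ (-k) ∈ A`, `a' ∉ ⟨c⟩`. By `eps_ba` `eps u = 1 = eps x`, and `u`, `x` are
curves: first two claims (`ep_c`). For `k = 0` the inequality is trivial (`abs_nonneg`). If `x = c ^ n * u * c ^ (-n)` for some integer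
`n`, i.e. `b * a' = c ^ n * b * a * c ^ (-n)`: then `b⁻¹ * c ^ n * b = a' * c ^ n * a⁻¹`, an element of
`A ∩ B = ⟨c⟩` (`inter_AB`), so `n = 0` by `mal_B`, `a' = a`, `a⁻¹ * c ^ k * a = c ^ k`, so `k = 0` by `mal_A`. So for
`k ≥ 1` `x` is different from all `c ^ n * u * c ^ (-n)` (and from their inverses, `eps`). We apply the last part of
`tw_c` to `x`, `z := u`, with `a := k - 1` and `b := 1` there: it gives `tw c x u ≤ 1 - 1 - (k - 1)`, hence
`|tw c x u| ≥ k - 1`. To check: (i) `E ((rep x)⁻¹ (c ^ (k-1) * u * c ^ (-(k-1)))⁻¹) = 1`;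
(ii) `E ((rep (c * u * c⁻¹))⁻¹ x) = 1`.
Let `v := f⁻¹ c`: `E v = 0`, `E v⁻¹ = 1`, `chi v = 0`, `chi v⁻¹ = 1` (`ahead`, `mono`).
(i) let `w := c ^ (k-1) * u * c ^ (-(k-1))`, `h := MulAut.conj (c ^ (k-1)) * f`, `h c = w`. By `trich` (for
`h`, `rep x`) it suffices that `E (h⁻¹ x⁻¹) = 0`. `sameSide` with the wall `f' := MulAut.conj p`, `p := c ^ k * a⁻¹`
(`p ∈ A`, `p ∉ ⟨c⟩`, `chi p⁻¹ = 0`), `q := 1`, the second wall `h`, and the ends `x⁻¹` and
`u_k⁻¹`, `u_k := c ^ k * u * c ^ (-k)`. `f'⁻¹ y = p⁻¹ * y * p`, its `E` is the eventual value of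
`chi (p⁻¹ * y ^ m * g)` (`E_spec'`), any `g`; all the NC conditions by `NC_of_ne` and `eps` (`x`, `u_k`, `w`
have `eps = 1`, the curve `p * c * p⁻¹` has `eps = 0`, and they are pairwise different and not inverse).
`x⁻¹ = c ^ k * a⁻¹ * c ^ (-k) * b⁻¹ = p * c ^ (-k) * b⁻¹`; `p⁻¹ * x⁻¹ ^ (m+1) = c ^ (-k) * b⁻¹ * x⁻¹ ^ m` has
`chi = chi (b⁻¹ * x⁻¹ ^ m) = 1` (`chi x⁻¹ ^ m = 0`, `chi_b_mul`). `p⁻¹ * u_k⁻¹ ^ m * c ^ k = a * u⁻¹ ^ m` has `chi = 1`
(`eps_ba`). `E (f'⁻¹ w) ≠ 1`: `chi (p⁻¹ * (c ^ (k-1) * u ^ m))`: `chi (c ^ (k-1) * u ^ m) = 1`, `p⁻¹ ∈ A`, so `0` by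
`chi_a_mul`. `E (f'⁻¹ w⁻¹) ≠ 1`: `chi (p⁻¹ * w⁻¹ ^ m * c ^ (k-1)) = chi (a * c⁻¹ * u⁻¹ ^ m)`, and `far a⁻¹ (-1)` at
`g = u⁻¹ ^ m`: `chi (a * g) = chi a = 0` (false, it is `1`) or `chi (a * c⁻¹ * g) = 0`. So
`E (h⁻¹ x⁻¹) = E (h⁻¹ u_k⁻¹)` and `h⁻¹ u_k⁻¹ = f⁻¹ (c * u⁻¹ * c⁻¹) = v * c⁻¹ * v⁻¹`, whose `E` is
`chi v = 0` (`E_cc`).
(ii) let `h := MulAut.conj c * f`, `h c = c * u * c⁻¹ =: w`; by `xp_indep` it suffices that `E (h⁻¹ x) = 1`.
`sameSide` with `f' := MulAut.conj b`, `q := 0`, `h`, the ends `x` and `u`: `chi (b⁻¹ * x ^ m) = 0`,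
`chi (b⁻¹ * u ^ m) = 0` (`eps_ba`). `E (f'⁻¹ w) ≠ 0`: `chi (b⁻¹ * w ^ m * c) = chi (b⁻¹ * c * u ^ m)`, `far b 1` at
`g = u ^ m`: `chi (b⁻¹ * g) = chi b⁻¹ = 1` (false) or `chi (b⁻¹ * c * g) = 1`. `E (f'⁻¹ w⁻¹) ≠ 0`:
`chi (b⁻¹ * (c * u⁻¹ ^ m)) = 1` by `chi_b_mul` (`chi (c * u⁻¹ ^ m) = 0`). So `E (h⁻¹ x) = E (h⁻¹ u)`, and
`h⁻¹ u = f⁻¹ (c⁻¹ * u * c) = v⁻¹ * c * v` has `E = chi v⁻¹ = 1` (`E_cc`). -/
theorem growth (t : MulAut P) (ht : t ∈ G) (htB : ∀ b ∈ S.B, t b = b)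
    (htA : ∀ a ∈ S.A, t a = S.c * a * S.c⁻¹) (f : MulAut P) (hf : f ∈ G) (b a : P)
    (hb : b ∈ S.B) (hb' : b ∉ Subgroup.zpowers S.c) (ha : a ∈ S.A)
    (ha' : a ∉ Subgroup.zpowers S.c) (hfc : f S.c = b * a) (k : ℕ) :
    S.ep (f S.c) S.c = 1 ∧ S.ep ((t ^ k) (f S.c)) S.c = 1 ∧
      (k : ℤ) - 1 ≤ |S.tw S.c ((t ^ k) (f S.c)) (f S.c)| := by
  obtain ⟨u, hu⟩ : ∃ u, f S.c = u := ⟨_, rfl⟩
  have hu' : u = b * a := by rw [← hu, hfc]
  obtain ⟨x, hx⟩ : ∃ x, (t ^ k) (f S.c) = x := ⟨_, rfl⟩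
  have hcAk : S.c ^ k ∈ S.A := pow_mem S.c_mem_A k
  obtain ⟨a', ha1⟩ : ∃ a', a' = S.c ^ k * a * (S.c ^ k)⁻¹ := ⟨_, rfl⟩
  have hxa : x = b * a' := by rw [← hx, hfc, S.w1b_tk t htB htA b a hb ha k, ha1]
  have ha'A : a' ∈ S.A := by rw [ha1]; exact mul_mem (mul_mem hcAk ha) (inv_mem hcAk)
  have ha'Z : a' ∉ Subgroup.zpowers S.c := by
    intro h
    apply ha'
    have : a = (S.c ^ k)⁻¹ * a' * S.c ^ k := by rw [ha1]; group
    rw [this]
    exact mul_mem (mul_mem (inv_mem (pow_mem (Subgroup.mem_zpowers _) k)) h)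
      (pow_mem (Subgroup.mem_zpowers _) k)
  obtain ⟨eu1, eu0, eup⟩ := S.eps_ba b a hb hb' ha ha'
  obtain ⟨ex1, ex0, exp⟩ := S.eps_ba b a' hb hb' ha'A ha'Z
  rw [← hu'] at eu1 eu0 eup
  rw [← hxa] at ex1 ex0 exp
  have hepsu : S.eps u = 1 := by unfold Spl.eps; rw [eu1, eu0]; norm_num
  have hepsx : S.eps x = 1 := by unfold Spl.eps; rw [ex1, ex0]; norm_num
  have huC : u ∈ S.Cur := ⟨f, hf, hu⟩
  have hxC : x ∈ S.Cur := ⟨t ^ k * f, mul_mem (pow_mem ht k) hf, by rw [MulAut.mul_apply]; exact hx⟩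
  have hepu : S.ep u S.c = 1 := by rw [S.ep_c u huC, hepsu]
  have hepx : S.ep x S.c = 1 := by rw [S.ep_c x hxC, hepsx]
  rw [hx, hu]
  refine ⟨hepu, hepx, ?_⟩
  rcases Nat.eq_zero_or_pos k with hk0 | hk
  · rw [hk0]
    have := abs_nonneg (S.tw S.c x u)
    push_cast
    linarith
  have hne : ∀ n : ℤ, x ≠ S.c ^ n * u * S.c ^ (-n) := by
    intro n
    rw [hxa, ha1, hu']
    exact S.w1b_ne b a hb hb' ha ha' k hk n
  have hne' : ∀ n : ℕ, x ≠ S.c ^ n * u * (S.c ^ n)⁻¹ := by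
    intro n
    have := hne n
    rwa [zpow_neg, zpow_natCast] at this
  have hZa : a⁻¹ ∉ Subgroup.zpowers S.c := fun h => ha' (by simpa using inv_mem h)
  have hZb : b⁻¹ ∉ Subgroup.zpowers S.c := fun h => hb' (by simpa using inv_mem h)
  obtain ⟨v, hv⟩ : ∃ v, f⁻¹ S.c = v := ⟨_, rfl⟩
  have hfu : f⁻¹ u = S.c := by rw [← hu, MulAut.inv_apply_self]
  obtain ⟨hvN, hv0, hv1⟩ := S.ahead f hf (by rw [hu]; exact hepsu)
  rw [hv] at hvN hv0 hv1
  obtain ⟨cv, cv', -⟩ := S.mono v hv0 hv1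
  have hvZ : v ∉ Subgroup.zpowers S.c := by
    have := hvN 1 one_ne_zero
    rwa [zpow_one] at this
  have hvZ' : v⁻¹ ∉ Subgroup.zpowers S.c := fun h => hvZ (by simpa using inv_mem h)
  have hcurc : ∀ n : ℕ, S.c ^ n * u * (S.c ^ n)⁻¹ ∈ S.Cur := fun n => (S.cur_conj _ _).2 huC
  have hpowu : ∀ m : ℕ, 0 < m → S.chi (u ^ m) = 1 ∧ S.chi (u⁻¹ ^ m) = 0 := fun m hm =>
    S.mono_pow' u eu1 eu0 m hm
  have hpowx : ∀ m : ℕ, S.chi (x⁻¹ ^ m) = 0 := by
    intro m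
    rcases Nat.eq_zero_or_pos m with h | h
    · rw [h, pow_zero]; exact S.chi_one
    · exact (S.mono_pow' x ex1 ex0 m h).2
  -- the automorphism for the wall `c ^ n * u * c ^ (-n)`
  have hhG : ∀ n : ℕ, MulAut.conj (S.c ^ n) * f ∈ G := fun n => mul_mem (S.conj_mem _) hf
  have hhc : ∀ n : ℕ, (MulAut.conj (S.c ^ n) * f) S.c = S.c ^ n * u * (S.c ^ n)⁻¹ := by
    intro n
    rw [MulAut.mul_apply, hu, MulAut.conj_apply]
  have hhi : ∀ (n : ℕ) (y : P), (MulAut.conj (S.c ^ n) * f)⁻¹ y = f⁻¹ ((S.c ^ n)⁻¹ * y * S.c ^ n) := by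
    intro n y
    rw [mul_inv_rev, MulAut.mul_apply, MulAut.conj_inv_apply]
  have hcn : ∀ n : ℕ, ∀ g : P, S.chi (S.c ^ n * g) = S.chi g := by
    intro n g
    have := S.chi_zpow n g
    rwa [zpow_natCast] at this
  -- (i)
  have part1 : ∀ m0 : ℕ, k = m0 + 1 →
      S.E ((S.rep x)⁻¹ (S.c ^ m0 * u * (S.c ^ m0)⁻¹)⁻¹) = 1 := by
    intro m0 hm0
    obtain ⟨hrG, hrc⟩ := S.rep_spec x hxC
    obtain ⟨h, hh⟩ : ∃ h, h = MulAut.conj (S.c ^ m0) * f := ⟨_, rfl⟩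
    have h1G : h ∈ G := by rw [hh]; exact hhG m0
    have h1c : h S.c = S.c ^ m0 * u * (S.c ^ m0)⁻¹ := by rw [hh]; exact hhc m0
    obtain ⟨w, hw⟩ : ∃ w, w = S.c ^ m0 * u * (S.c ^ m0)⁻¹ := ⟨_, rfl⟩
    rw [← hw] at h1c ⊢
    have hwC : w ∈ S.Cur := by rw [hw]; exact hcurc m0
    have hepsw : S.eps w = 1 := by rw [hw, S.w1b_eps]; exact hepsu
    have hxw : x ≠ w := by rw [hw]; exact hne' m0
    have hxw' : x ≠ w⁻¹ := by
      intro e
      rw [e, S.eps_inv, hepsw] at hepsx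
      exact absurd hepsx (by norm_num)
    have hNhx : S.NC (h⁻¹ x) := S.NC_of_ne h h1G x hxC (by rw [h1c]; exact hxw) (by rw [h1c]; exact hxw')
    have htr := S.trich h (S.rep x) h1G hrG (by rw [h1c]; exact hepsw) (by rw [hrc]; exact hepsx)
      (by rw [hrc]; exact hNhx)
    rw [hrc, h1c] at htr
    -- it suffices that `E (h⁻¹ x⁻¹) = 0`
    suffices hs : S.E (h⁻¹ x⁻¹) = 0 by
      have := htr.2
      rw [hs] at this
      linarith
    obtain ⟨p, hp⟩ : ∃ p, p = S.c ^ k * a⁻¹ := ⟨_, rfl⟩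
    have hpA : p ∈ S.A := by rw [hp]; exact mul_mem hcAk (inv_mem ha)
    have hpi : p⁻¹ = a * (S.c ^ k)⁻¹ := by rw [hp]; group
    have hpZ : p⁻¹ ∉ Subgroup.zpowers S.c := by
      intro hc
      apply ha'
      have : a = p⁻¹ * S.c ^ k := by rw [hpi]; group
      rw [this]
      exact mul_mem hc (pow_mem (Subgroup.mem_zpowers _) k)
    obtain ⟨z, hz⟩ : ∃ z, z = S.c ^ k * u * (S.c ^ k)⁻¹ := ⟨_, rfl⟩
    have hzC : z ∈ S.Cur := by rw [hz]; exact hcurc k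
    have hepsz : S.eps z = 1 := by rw [hz, S.w1b_eps]; exact hepsu
    have hhz : h⁻¹ z⁻¹ = v * S.c⁻¹ * v⁻¹ := by
      rw [hh, hhi]
      have : (S.c ^ m0)⁻¹ * z⁻¹ * S.c ^ m0 = S.c * u⁻¹ * S.c⁻¹ := by
        rw [hz, hm0, pow_succ]
        group
      rw [this, map_mul, map_mul, map_inv, map_inv, hfu, hv]
    obtain ⟨cc1, cc2, cc3⟩ := S.E_cc v hvZ
    have hsame := S.sameSide (MulAut.conj p) h (S.conj_mem p) h1G 1 (Or.inr rfl)
      (by rw [h1c]; exact S.w1b_NC p w hwC (by rw [hepsw]; norm_num))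
      (by
        rw [h1c, S.w1b_E p w (S.c ^ m0) 0 (S.w1b_NC p w hwC (by rw [hepsw]; norm_num)) ?_]
        · norm_num
        · intro m hm
          rw [hw, mul_assoc, w1b_pow]
          exact S.chi_a_mul p⁻¹ _ (inv_mem hpA) hpZ (by rw [hcn]; exact (hpowu m hm).1))
      (by
        rw [h1c, S.w1b_E p w⁻¹ (S.c ^ m0) 0 (S.w1b_NC p w⁻¹ ((S.cur_inv w).2 hwC)
          (by rw [S.eps_inv, hepsw]; norm_num)) ?_]
        · norm_num
        · intro m hm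
          rw [hw, mul_assoc, w1b_pow', hpi, hm0, pow_succ]
          have e1 : a * (S.c ^ m0 * S.c)⁻¹ * (S.c ^ m0 * u⁻¹ ^ m) = a⁻¹⁻¹ * S.c ^ (-1 : ℤ) * u⁻¹ ^ m := by
            group
          rw [e1]
          have hfar := S.far a⁻¹ hZa (-1) (by norm_num) (u⁻¹ ^ m)
          have ca : S.chi a⁻¹⁻¹ = 0 := by rw [inv_inv]; exact S.chi_mem_A a ha
          rw [ca] at hfar
          rcases hfar with hfar | hfar
          · rw [inv_inv, hu', (by rw [← hu']; exact (eup m hm).2 :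
              S.chi (a * (b * a)⁻¹ ^ m) = 1)] at hfar
            exact absurd hfar (by norm_num)
          · exact hfar)
      x⁻¹ z⁻¹
      (S.w1b_NC p x⁻¹ ((S.cur_inv x).2 hxC) (by rw [S.eps_inv, hepsx]; norm_num))
      (S.w1b_NC p z⁻¹ ((S.cur_inv z).2 hzC) (by rw [S.eps_inv, hepsz]; norm_num))
      (by rw [map_inv]; exact (S.NC_inv _).2 hNhx)
      (by
        rw [hhz]
        have : v * S.c⁻¹ * v⁻¹ = (v * S.c * v⁻¹)⁻¹ := by group
        rw [this]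
        exact (S.NC_inv _).2 cc1)
      (by
        refine S.w1b_E p x⁻¹ 1 1 (S.w1b_NC p x⁻¹ ((S.cur_inv x).2 hxC)
          (by rw [S.eps_inv, hepsx]; norm_num)) ?_
        intro m hm
        obtain ⟨m', rfl⟩ : ∃ m', m = m' + 1 := ⟨m - 1, by omega⟩
        have e1 : p⁻¹ * x⁻¹ ^ (m' + 1) * 1 = S.c ^ (-(k : ℤ)) * (b⁻¹ * x⁻¹ ^ m') := by
          rw [pow_succ', mul_one, ← mul_assoc, ← mul_assoc]
          congr 1
          rw [hpi, hxa, ha1, zpow_neg, zpow_natCast]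
          group
        rw [e1, S.chi_zpow]
        exact S.chi_b_mul b⁻¹ _ (inv_mem hb) hZb (hpowx m'))
      (by
        refine S.w1b_E p z⁻¹ (S.c ^ k) 1 (S.w1b_NC p z⁻¹ ((S.cur_inv z).2 hzC)
          (by rw [S.eps_inv, hepsz]; norm_num)) ?_
        intro m hm
        rw [hz, mul_assoc, w1b_pow', hpi]
        have e1 : a * (S.c ^ k)⁻¹ * (S.c ^ k * u⁻¹ ^ m) = a * u⁻¹ ^ m := by
          rw [mul_assoc, inv_mul_cancel_left]
        rw [e1]
        exact (eup m hm).2)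
    rw [hsame, hhz, cc3]
    exact cv
  -- (ii)
  have part2 : S.E ((S.rep (S.c * u * S.c⁻¹))⁻¹ x) = 1 := by
    obtain ⟨h, hh⟩ : ∃ h, h = MulAut.conj (S.c ^ 1) * f := ⟨_, rfl⟩
    have h1G : h ∈ G := by rw [hh]; exact hhG 1
    have h1c : h S.c = S.c * u * S.c⁻¹ := by rw [hh, hhc 1, pow_one]
    obtain ⟨w, hw⟩ : ∃ w, w = S.c * u * S.c⁻¹ := ⟨_, rfl⟩
    rw [← hw] at h1c ⊢
    have hwC : w ∈ S.Cur := by rw [hw]; simpa only [pow_one] using hcurc 1
    have hepsw : S.eps w = 1 := by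
      have := S.w1b_eps u 1
      rw [pow_one] at this
      rw [hw, this]; exact hepsu
    have hepw : S.ep w S.c = 1 := by rw [S.ep_c w hwC, hepsw]
    have hxw : x ≠ w := by
      have := hne' 1
      rw [pow_one] at this
      rw [hw]; exact this
    have hxw' : x ≠ w⁻¹ := by
      intro e
      rw [e, S.eps_inv, hepsw] at hepsx
      exact absurd hepsx (by norm_num)
    have hNhx : S.NC (h⁻¹ x) := S.NC_of_ne h h1G x hxC (by rw [h1c]; exact hxw) (by rw [h1c]; exact hxw')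
    rw [← (S.xp_indep x w ⟨hxC, hepx⟩ ⟨hwC, hepw⟩ hxw h h1G h1c).1]
    have hhu : h⁻¹ u = v⁻¹ * S.c * v⁻¹⁻¹ := by
      rw [hh, hhi, pow_one, map_mul, map_mul, map_inv, hfu, hv, inv_inv]
    obtain ⟨cc1, cc2, cc3⟩ := S.E_cc v⁻¹ hvZ'
    have hsame := S.sameSide (MulAut.conj b) h (S.conj_mem b) h1G 0 (Or.inl rfl)
      (by rw [h1c]; exact S.w1b_NC b w hwC (by rw [hepsw]; norm_num))
      (by
        rw [h1c, S.w1b_E b w S.c 1 (S.w1b_NC b w hwC (by rw [hepsw]; norm_num)) ?_]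
        · norm_num
        · intro m hm
          rw [hw, mul_assoc, w1b_pow, ← mul_assoc]
          have hfar := S.far b hb' 1 (by norm_num) (u ^ m)
          have cb : S.chi b⁻¹ = 1 := S.chi_b b⁻¹ (inv_mem hb) hZb
          rw [cb, zpow_one] at hfar
          rcases hfar with hfar | hfar
          · rw [(eup m hm).1] at hfar
            exact absurd hfar (by norm_num)
          · exact hfar)
      (by
        rw [h1c, S.w1b_E b w⁻¹ S.c 1 (S.w1b_NC b w⁻¹ ((S.cur_inv w).2 hwC)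
          (by rw [S.eps_inv, hepsw]; norm_num)) ?_]
        · norm_num
        · intro m hm
          rw [hw, mul_assoc, w1b_pow']
          exact S.chi_b_mul b⁻¹ _ (inv_mem hb) hZb (by rw [S.chi_c]; exact (hpowu m hm).2))
      x u
      (S.w1b_NC b x hxC (by rw [hepsx]; norm_num))
      (S.w1b_NC b u huC (by rw [hepsu]; norm_num))
      hNhx
      (by rw [hhu]; exact cc1)
      (by
        refine S.w1b_E b x 1 0 (S.w1b_NC b x hxC (by rw [hepsx]; norm_num)) ?_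
        intro m hm
        rw [mul_one]
        exact (exp m hm).1)
      (by
        refine S.w1b_E b u 1 0 (S.w1b_NC b u huC (by rw [hepsu]; norm_num)) ?_
        intro m hm
        rw [mul_one]
        exact (eup m hm).1)
    rw [hsame, hhu, cc2]
    exact cv'
  obtain ⟨m0, hm0⟩ : ∃ m0, k = m0 + 1 := ⟨k - 1, by omega⟩
  have htw := (S.tw_c x u ⟨hxC, hepx⟩ ⟨huC, hepu⟩).2.2.2.2 (m0 : ℤ) 1 (hne m0).symm (hne 1).symm
    (by rw [zpow_neg, zpow_natCast]; exact part1 m0 hm0)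
    (by rw [zpow_neg, zpow_one]; exact part2)
  rw [hm0]
  have := neg_le_abs (S.tw S.c x u)
  push_cast
  linarith

end Surf

end Pool.Agent.Lib.MP_6a1159_al.BS
end

section

/-! W1: see the imported files. -/
end
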