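import Pool.Agent.Lib.MP_6a1159_al.BS.Defs
import Pool.Agent.Lib.MP_6a1159_al.Mg.G002

section

/-! O1: the properties of `A` transported to `B` by the swap. -/

set_option autoImplicit false

open Filter

namespace Pool.Agent.Lib.MP_6a1159_al.BS

namespace Surf

variable {P : Type} [Group P] {G : Subgroup (MulAut P)} (S : Surf P G)

/-- PROOF: apply `S.relEnd` to `U ∘ sw` and `ψ ∘ sw` (`sw a ∈ B` for `a ∈ A` by `sw_A`;
`sw (a * c ^ k) = sw a * c⁻¹ ^ k`; the finite set for `s ∈ A` is the preimage under the injective map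
`sw` of the finite set for `sw s`). For `b ∈ B` put `a := sw⁻¹ b`, `a ∈ A` by `sw_A`. -/
theorem relEndB (U ψ : P → ℤ) (hU : ∀ s ∈ S.B, {a | a ∈ S.B ∧ U (a * s) ≠ U a}.Finite)
    (hψ : ∀ a ∈ S.B, ∀ᶠ k : ℕ in atTop, U (a * S.c ^ k) = ψ a ∧ U (a * S.c⁻¹ ^ k) = ψ a) :
    ∀ a ∈ S.B, ψ a = ψ 1 := by
  have h1 : ∀ s ∈ S.A, {a | a ∈ S.A ∧ U (S.sw (a * s)) ≠ U (S.sw a)}.Finite := by
    intro s hs
    have h2 := (hU (S.sw s) ((S.sw_A s).1 hs)).preimage (f := S.sw) S.sw.injective.injOn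
    refine h2.subset ?_
    rintro a ⟨ha, hb⟩
    refine ⟨(S.sw_A a).1 ha, ?_⟩
    rw [map_mul] at hb
    exact hb
  have h2 : ∀ a ∈ S.A, ∀ᶠ k : ℕ in atTop, U (S.sw (a * S.c ^ k)) = ψ (S.sw a) ∧
      U (S.sw (a * S.c⁻¹ ^ k)) = ψ (S.sw a) := by
    intro a ha
    filter_upwards [hψ (S.sw a) ((S.sw_A a).1 ha)] with k hk
    rw [map_mul, map_mul, map_pow, map_pow, map_inv, S.sw_c, inv_inv]
    exact ⟨hk.2, hk.1⟩
  intro b hb
  have h3 := S.relEnd (fun x => U (S.sw x)) (fun x => ψ (S.sw x)) h1 h2 (S.sw⁻¹ b)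
    ((S.sw_A _).2 (by rw [MulAut.apply_inv_self]; exact hb))
  beta_reduce at h3
  rwa [MulAut.apply_inv_self, map_one] at h3

/-- PROOF: `φ ∘ sw` is additive on `A`, so `φ (sw c) = φ c⁻¹ = 0`, and `φ 1 = 0`,
`φ c + φ c⁻¹ = φ 1`. -/
theorem homB (φ : P → ℤ) (h : ∀ a ∈ S.B, ∀ a' ∈ S.B, φ (a * a') = φ a + φ a') : φ S.c = 0 := by
  have h1 := S.homA (fun x => φ (S.sw x)) (fun a ha a' ha' => by
    rw [map_mul]
    exact h _ ((S.sw_A a).1 ha) _ ((S.sw_A a').1 ha'))
  beta_reduce at h1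
  rw [S.sw_c] at h1
  have h2 := h S.c S.c_mem_B S.c⁻¹ (S.B.inv_mem S.c_mem_B)
  have h3 := h 1 S.B.one_mem 1 S.B.one_mem
  rw [mul_inv_cancel] at h2
  rw [mul_one] at h3
  omega

end Surf

end Pool.Agent.Lib.MP_6a1159_al.BS
end

section

/-! O3: if the line `⟨c⟩` has different ends, then so has another line. -/

set_option autoImplicit false

open Filter

namespace Pool.Agent.Lib.MP_6a1159_al.BS

private theorem O3_tele (f : ℤ → ℤ) (N : ℕ) :
    ∑ k ∈ Finset.Ico (-(N : ℤ)) N, (f (k + 1) - f k) = f N - f (-N) := by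
  induction N with
  | zero => simp
  | succ N ih =>
    have h : Finset.Ico (-((N + 1 : ℕ) : ℤ)) ((N + 1 : ℕ) : ℤ)
        = insert (-((N : ℤ) + 1)) (insert (N : ℤ) (Finset.Ico (-(N : ℤ)) N)) := by
      ext k
      simp only [Finset.mem_Ico, Finset.mem_insert]
      push_cast
      omega
    rw [h, Finset.sum_insert, Finset.sum_insert, ih]
    · have e : -((N : ℤ) + 1) + 1 = -(N : ℤ) := by ring
      rw [e]
      push_cast
      ring
    · simp
    · simp only [Finset.mem_insert, Finset.mem_Ico]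
      omega

private theorem O3_tel (f : ℤ → ℤ) (P M : ℤ) (hf : {k | f (k + 1) ≠ f k}.Finite)
    (h1 : ∀ᶠ k : ℕ in atTop, f k = P ∧ f (-k) = M) : ∑ᶠ k, (f (k + 1) - f k) = P - M := by
  obtain ⟨N0, hN0⟩ := eventually_atTop.1 h1
  set B := hf.toFinset.sup Int.natAbs with hB
  have hb : ∀ k, f (k + 1) ≠ f k → k.natAbs ≤ B := by
    intro k hk
    exact Finset.le_sup (f := Int.natAbs) (hf.mem_toFinset.2 hk)
  have hs : Function.support (fun k => f (k + 1) - f k) ⊆
      ((Finset.Ico (-((max N0 (B + 1) : ℕ) : ℤ)) ((max N0 (B + 1) : ℕ) : ℤ) : Finset ℤ) : Set ℤ) := by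
    intro k hk
    have hk' : f (k + 1) ≠ f k := by
      intro h
      exact hk (by simp [h])
    have := hb k hk'
    simp only [Finset.coe_Ico, Set.mem_Ico]
    have h2 : B + 1 ≤ max N0 (B + 1) := le_max_right _ _
    omega
  rw [finsum_eq_sum_of_support_subset _ hs, O3_tele]
  obtain ⟨h2, h3⟩ := hN0 (max N0 (B + 1)) (le_max_left _ _)
  rw [h2, h3]

/-- PROOF: suppose `p a = m a` for all `a ∉ ⟨c⟩`. Define `φ s := ∑ᶠ a, (V (a * s) - V a)` (finite
support by `hV`). `φ (s * t) = φ s + φ t`: `V (a * s * t) - V a = (V (a * s * t) - V (a * s)) +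
(V (a * s) - V a)` and the sum of the first bracket is `φ t` (reindex by the bijection
`a ↦ a * s`, `finsum_comp_equiv` or `Finset.sum_equiv`). So `φ c = 0` by `hom`. We show that
`φ c = p 1 - m 1`, a contradiction. The function `h a := V (a * c) - V a` has finite support `T`.
Sum over the fibres of the quotient map `H → H ⧸ zpowers c`: for each coset `a ⟨c⟩` the sum of `h`
over the coset is `∑ₖ (V (a * c ^ (k+1)) - V (a * c ^ k)) = p a - m a`: the map `k : ℤ ↦ a * c ^ k`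
is injective (`hc`) with image the coset, and for large `N` the sum over `-N ≤ k < N` telescopes
(`Finset.sum_range_sub` etc.) to `V (a * c ^ N) - V (a * c⁻¹ ^ N) = p a - m a`. This is `0` for all
cosets but `⟨c⟩`. -/
theorem other_line {H : Type} [Group H] (c : H) (hc : ∀ k : ℤ, c ^ k = 1 → k = 0)
    (hom : ∀ φ : H → ℤ, (∀ a b, φ (a * b) = φ a + φ b) → φ c = 0)
    (V p m : H → ℤ) (hV : ∀ s, {a | V (a * s) ≠ V a}.Finite)
    (hp : ∀ a, ∀ᶠ k : ℕ in atTop, V (a * c ^ k) = p a ∧ V (a * c⁻¹ ^ k) = m a)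
    (h1 : p 1 ≠ m 1) : ∃ a, a ∉ Subgroup.zpowers c ∧ p a ≠ m a := by
  by_contra hcon
  push Not at hcon
  classical
  have hfs : ∀ s, (Function.support fun a => V (a * s) - V a).Finite := by
    intro s
    refine (hV s).subset ?_
    intro a ha
    exact sub_ne_zero.1 ha
  set φ : H → ℤ := fun s => ∑ᶠ a, (V (a * s) - V a) with hφ
  have hadd : ∀ s t, φ (s * t) = φ s + φ t := by
    intro s t
    have e1 : φ t = ∑ᶠ a, (V (a * s * t) - V (a * s)) :=
      (finsum_comp_equiv (Equiv.mulRight s) (f := fun a => V (a * t) - V a)).symm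
    have hf1 : (Function.support fun a => V (a * s * t) - V (a * s)).Finite :=
      ((hfs t).preimage ((mul_left_injective s).injOn)).subset (fun a ha => ha)
    rw [e1, hφ]
    simp only
    rw [← finsum_add_distrib (hfs s) hf1]
    refine finsum_congr fun a => ?_
    rw [← mul_assoc]
    ring
  have h0 : φ c = 0 := hom φ hadd
  have hinj : ∀ i j : ℤ, c ^ i = c ^ j → i = j := by
    intro i j hij
    have : c ^ (i - j) = 1 := by rw [zpow_sub, hij, mul_inv_cancel]
    have := hc _ this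
    omega
  -- a section of the quotient map
  let Z := Subgroup.zpowers c
  let q0 : H ⧸ Z := QuotientGroup.mk 1
  let sec : H ⧸ Z → H := Function.update Quotient.out q0 1
  have hsec : ∀ q : H ⧸ Z, (QuotientGroup.mk (sec q) : H ⧸ Z) = q := by
    intro q
    by_cases hq : q = q0
    · subst hq
      simp only [sec, Function.update_self]
      rfl
    · simp only [sec, Function.update_of_ne hq]
      exact QuotientGroup.out_eq' q
  have hsec0 : sec q0 = 1 := by simp [sec]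
  have hbij : Function.Bijective (fun x : (H ⧸ Z) × ℤ => sec x.1 * c ^ x.2) := by
    constructor
    · rintro ⟨q, i⟩ ⟨q', j⟩ h
      simp only at h
      have hq : q = q' := by
        rw [← hsec q, ← hsec q']
        refine QuotientGroup.eq.2 ?_
        have : (sec q)⁻¹ * sec q' = c ^ (i - j) := by
          have h' : sec q' = sec q * c ^ i * (c ^ j)⁻¹ := by rw [h]; group
          rw [h', zpow_sub]
          group
        rw [this]
        exact Subgroup.zpow_mem_zpowers c _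
      subst hq
      have : c ^ i = c ^ j := mul_left_cancel h
      rw [hinj i j this]
    · intro a
      have h := hsec (QuotientGroup.mk a)
      have h' := QuotientGroup.eq.1 h
      obtain ⟨k, hk⟩ := Subgroup.mem_zpowers_iff.1 h'
      refine ⟨(QuotientGroup.mk a, k), ?_⟩
      simp only
      rw [hk]
      group
  let e : (H ⧸ Z) × ℤ ≃ H := Equiv.ofBijective _ hbij
  have h1' : φ c = ∑ᶠ x : (H ⧸ Z) × ℤ, (V (sec x.1 * c ^ x.2 * c) - V (sec x.1 * c ^ x.2)) :=
    (finsum_comp_equiv e (f := fun a => V (a * c) - V a)).symm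
  have hfin : (Function.support fun x : (H ⧸ Z) × ℤ =>
      (V (sec x.1 * c ^ x.2 * c) - V (sec x.1 * c ^ x.2))).Finite :=
    ((hfs c).preimage hbij.1.injOn).subset (fun a ha => ha)
  rw [finsum_curry _ hfin] at h1'
  simp only at h1'
  have h2 : ∀ q : H ⧸ Z, ∑ᶠ k : ℤ, (V (sec q * c ^ k * c) - V (sec q * c ^ k))
      = p (sec q) - m (sec q) := by
    intro q
    have h3 := O3_tel (fun k => V (sec q * c ^ k)) (p (sec q)) (m (sec q)) ?_ ?_
    · rw [← h3]
      refine finsum_congr fun k => ?_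
      rw [zpow_add_one, mul_assoc]
    · have hi : Function.Injective (fun k : ℤ => sec q * c ^ k) := by
        intro i j hij
        exact hinj i j (mul_left_cancel hij)
      refine ((hV c).preimage hi.injOn).subset ?_
      intro k hk
      show V (sec q * c ^ k * c) ≠ V (sec q * c ^ k)
      rw [mul_assoc, ← zpow_add_one]
      exact hk
    · filter_upwards [hp (sec q)] with k hk
      refine ⟨?_, ?_⟩
      · have := hk.1
        simpa using this
      · have := hk.2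
        simpa using this
  rw [finsum_congr h2, finsum_eq_single _ q0, hsec0] at h1'
  · rw [h0] at h1'
    exact h1 (by linarith)
  · intro q hq
    have : sec q ∉ Subgroup.zpowers c := by
      intro hmem
      apply hq
      rw [← hsec q]
      refine QuotientGroup.eq.2 ?_
      rw [mul_one]
      exact inv_mem hmem
    rw [hcon _ this, sub_self]

end Pool.Agent.Lib.MP_6a1159_al.BS
end

section

/-! O4a: a function with finite coboundary has equal ends along every line. -/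

set_option autoImplicit false

open Filter

namespace Pool.Agent.Lib.MP_6a1159_al.BS

private theorem O4a_other {P : Type} [Group P] (A : Subgroup P) (c : P) (hcA : c ∈ A)
    (hc : ∀ k : ℤ, c ^ k = 1 → k = 0)
    (hom : ∀ φ : P → ℤ, (∀ a ∈ A, ∀ a' ∈ A, φ (a * a') = φ a + φ a') → φ c = 0)
    (U : P → ℤ) (hU : ∀ s, {g | U (g * s) ≠ U g}.Finite) (p m : P → ℤ)
    (hp : ∀ g, ∀ᶠ k : ℕ in atTop, U (g * c ^ k) = p g ∧ U (g * c⁻¹ ^ k) = m g) (γ : P)
    (h : p γ ≠ m γ) : ∃ a ∈ A, a ∉ Subgroup.zpowers c ∧ p (γ * a) ≠ m (γ * a) := by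
  classical
  have key := other_line (H := A) ⟨c, hcA⟩ (by
      intro k hk
      apply hc k
      have := congrArg (fun x : A => (x : P)) hk
      simpa using this) (by
      intro φ hφ
      have e := hom (fun g => if hg : g ∈ A then φ ⟨g, hg⟩ else 0) (by
        intro a ha a' ha'
        have haa' : a * a' ∈ A := A.mul_mem ha ha'
        simp only [dif_pos ha, dif_pos ha', dif_pos haa']
        exact hφ ⟨a, ha⟩ ⟨a', ha'⟩)
      simpa only [dif_pos hcA] using e)
    (fun a => U (γ * (a : P))) (fun a => p (γ * (a : P))) (fun a => m (γ * (a : P))) (by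
      intro s
      have hinj : Function.Injective (fun a : A => γ * (a : P)) := by
        intro a b hab
        exact Subtype.ext (mul_left_cancel hab)
      refine ((hU (s : P)).preimage hinj.injOn).subset ?_
      intro a ha
      simp only [Set.mem_setOf_eq, Set.mem_preimage, Subgroup.coe_mul] at ha ⊢
      rw [mul_assoc]
      exact ha) (by
      intro a
      filter_upwards [hp (γ * (a : P))] with k hk
      simp only [Subgroup.coe_mul, SubmonoidClass.coe_pow, InvMemClass.coe_inv]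
      rw [← mul_assoc, ← mul_assoc]
      exact hk) (by simpa using h)
  obtain ⟨a, ha1, ha2⟩ := key
  refine ⟨a, a.2, ?_, ha2⟩
  intro hz
  apply ha1
  obtain ⟨k, hk⟩ := Subgroup.mem_zpowers_iff.1 hz
  refine Subgroup.mem_zpowers_iff.2 ⟨k, Subtype.ext ?_⟩
  simpa using hk

namespace Surf

variable {P : Type} [Group P] {G : Subgroup (MulAut P)} (S : Surf P G)

/-- PROOF: apply `other_line` in the group `H := ↥S.A`, `c := ⟨S.c, _⟩`, to
`V a := U (γ * a)`, `p' a := p (γ * a)`, `m' a := m (γ * a)`. `hom`: extend `φ : H → ℤ` to `P` by `0`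
outside `A` and use `S.homA`. -/
theorem otherA (U : P → ℤ) (hU : ∀ s, {g | U (g * s) ≠ U g}.Finite) (p m : P → ℤ)
    (hp : ∀ g, ∀ᶠ k : ℕ in atTop, U (g * S.c ^ k) = p g ∧ U (g * S.c⁻¹ ^ k) = m g) (γ : P)
    (h : p γ ≠ m γ) : ∃ a ∈ S.A, a ∉ Subgroup.zpowers S.c ∧ p (γ * a) ≠ m (γ * a) :=
  O4a_other S.A S.c S.c_mem_A S.c_inf S.homA U hU p m hp γ h

/-- PROOF: the same with `B` and `S.homB`. -/
theorem otherB (U : P → ℤ) (hU : ∀ s, {g | U (g * s) ≠ U g}.Finite) (p m : P → ℤ)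
    (hp : ∀ g, ∀ᶠ k : ℕ in atTop, U (g * S.c ^ k) = p g ∧ U (g * S.c⁻¹ ^ k) = m g) (γ : P)
    (h : p γ ≠ m γ) : ∃ b ∈ S.B, b ∉ Subgroup.zpowers S.c ∧ p (γ * b) ≠ m (γ * b) :=
  O4a_other S.B S.c S.c_mem_B S.c_inf S.homB U hU p m hp γ h

end Surf

end Pool.Agent.Lib.MP_6a1159_al.BS
end

section

/-! O4b: a function with finite coboundary has equal ends along every line. -/

set_option autoImplicit false

open Filter

namespace Pool.Agent.Lib.MP_6a1159_al.BS

namespace Surf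

variable {P : Type} [Group P] {G : Subgroup (MulAut P)} (S : Surf P G)

/-- PROOF: suppose `p g₀ ≠ m g₀`. By `lims` (its `p`, `m` are the same functions, as limits are
unique) there is a finite set `F` such that every `g` with `p g ≠ m g` is in `F ⟨c⟩`, and
`p (g * c ^ k) = p g`, `m (g * c ^ k) = m g`. So the set `W` of the cosets `(g : P ⧸ zpowers c)`
with `p g ≠ m g` is finite and not empty. For `γ` with `p γ ≠ m γ` and `q ∈ {0, 1}` let `N(γ, q)` be
the number of the cosets `[ε] ∈ W` with `[ε] ≠ [γ]` and `chi (γ⁻¹ * ε) = q` (well defined: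
`chi_mul_zpow`). Choose `(γ, q)` with `N(γ, q)` minimal.
Claim `N(γ, q) = 0`: otherwise let `[δ] ∈ W`, `[δ] ≠ [γ]`, `chi (γ⁻¹ * δ) = q`, and let
`q' := 1 - chi (δ⁻¹ * γ)`. Every `[ε]` counted in `N(δ, q')` is counted in `N(γ, q)`: `[ε] ≠ [γ]`
because `chi (δ⁻¹ * ε) = q' ≠ chi (δ⁻¹ * γ)`, and `nested` with `k := γ⁻¹ * δ ∉ ⟨c⟩` at
`x := γ⁻¹ * ε` gives `chi (γ⁻¹ * ε) = chi (γ⁻¹ * δ) = q` or `chi (δ⁻¹ * ε) = chi (δ⁻¹ * γ)`, the latter
is false. And `[δ]` is counted in `N(γ, q)` but not in `N(δ, q')`. So `N(δ, q') < N(γ, q)`.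
If `q = 0`, `otherA` gives `a ∈ A`, `a ∉ ⟨c⟩`, `[γ a] ∈ W`, `[γ a] ≠ [γ]`,
`chi (γ⁻¹ * (γ * a)) = chi a = 0`: so `N(γ, 0) > 0`. If `q = 1`, `otherB` and `chi b = 1`: so
`N(γ, 1) > 0`. Contradiction. -/
theorem noBi (U : P → ℤ) (hU : ∀ s, {g | U (g * s) ≠ U g}.Finite) (p m : P → ℤ)
    (hp : ∀ g, ∀ᶠ k : ℕ in atTop, U (g * S.c ^ k) = p g ∧ U (g * S.c⁻¹ ^ k) = m g) (g : P) :
    p g = m g := by
  classical
  obtain ⟨p', m', h1, -, ⟨F, hF⟩, -⟩ := lims S.c S.c_inf U (hU S.c)
  have hpm : ∀ g, p' g = p g ∧ m' g = m g := by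
    intro g
    obtain ⟨k, h2, h3⟩ := ((h1 g).and (hp g)).exists
    exact ⟨h2.1.symm.trans h3.1, h2.2.symm.trans h3.2⟩
  have hF' : ∀ g, p g ≠ m g → ∃ y ∈ F, ∃ k : ℤ, g = y * S.c ^ k := by
    intro g h
    apply hF g
    rw [(hpm g).1, (hpm g).2]
    exact h
  by_contra h0
  -- the sets of walls
  let N : P → ℤ → Set (P ⧸ Subgroup.zpowers S.c) := fun γ q =>
    {w | ∃ ε : P, (QuotientGroup.mk ε : P ⧸ Subgroup.zpowers S.c) = w ∧ p ε ≠ m ε ∧
      γ⁻¹ * ε ∉ Subgroup.zpowers S.c ∧ S.chi (γ⁻¹ * ε) = q}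
  have hNfin : ∀ γ q, (N γ q).Finite := by
    intro γ q
    refine ((F.finite_toSet.image
      (fun y => (QuotientGroup.mk y : P ⧸ Subgroup.zpowers S.c)))).subset ?_
    rintro w ⟨ε, rfl, h2, -, -⟩
    obtain ⟨y, hy, k, rfl⟩ := hF' ε h2
    refine ⟨y, hy, ?_⟩
    rw [QuotientGroup.eq]
    exact ⟨k, by group⟩
  have key : ∀ n : ℕ, ∀ γ q, p γ ≠ m γ → (q = 0 ∨ q = 1) → (N γ q).ncard = n → False := by
    intro n
    induction n using Nat.strong_induction_on with
    | _ n ih =>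
      intro γ q hγ hq hn
      obtain ⟨δ, hδ, hδn, hδq⟩ : ∃ δ, p δ ≠ m δ ∧ γ⁻¹ * δ ∉ Subgroup.zpowers S.c ∧
          S.chi (γ⁻¹ * δ) = q := by
        rcases hq with rfl | rfl
        · obtain ⟨a, ha, hac, h2⟩ := otherA S U hU p m hp γ hγ
          refine ⟨γ * a, h2, ?_, ?_⟩
          · rw [inv_mul_cancel_left]; exact hac
          · rw [inv_mul_cancel_left]; exact S.chi_mem_A a ha
        · obtain ⟨b, hb, hbc, h2⟩ := otherB S U hU p m hp γ hγ
          refine ⟨γ * b, h2, ?_, ?_⟩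
          · rw [inv_mul_cancel_left]; exact hbc
          · rw [inv_mul_cancel_left]; exact S.chi_b b hb hbc
      have hq' : (1 - S.chi (δ⁻¹ * γ) = 0 ∨ 1 - S.chi (δ⁻¹ * γ) = 1) := by
        rcases S.chi_01 (δ⁻¹ * γ) with h2 | h2
        · right; rw [h2]; rfl
        · left; rw [h2]; rfl
      have hsub : N δ (1 - S.chi (δ⁻¹ * γ)) ⊂ N γ q := by
        rw [Set.ssubset_iff_of_subset]
        · refine ⟨QuotientGroup.mk δ, ⟨δ, rfl, hδ, hδn, hδq⟩, ?_⟩
          rintro ⟨ε, h2, -, h3, -⟩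
          exact h3 (QuotientGroup.eq.1 h2.symm)
        · rintro w ⟨ε, rfl, h2, h3, h4⟩
          refine ⟨ε, rfl, h2, ?_, ?_⟩
          · rintro ⟨k, hk⟩
            have h5 : δ⁻¹ * ε = δ⁻¹ * γ * S.c ^ k := by
              have : S.c ^ k = γ⁻¹ * ε := hk
              rw [this]; group
            rw [h5, S.chi_mul_zpow] at h4
            omega
          · have h5 := S.nested (γ⁻¹ * δ) hδn (γ⁻¹ * ε)
            have h6 : (γ⁻¹ * δ)⁻¹ * (γ⁻¹ * ε) = δ⁻¹ * ε := by group
            have h7 : (γ⁻¹ * δ)⁻¹ = δ⁻¹ * γ := by group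
            rw [h6, h7] at h5
            rcases h5 with h5 | h5
            · rw [h5, hδq]
            · omega
      exact ih _ (hn ▸ Set.ncard_lt_ncard hsub (hNfin γ q)) δ _ hδ hq' rfl
  exact key _ g 0 h0 (Or.inl rfl) rfl

end Surf

end Pool.Agent.Lib.MP_6a1159_al.BS
end

section

/-! O4: see the imported files. -/
end
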