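import Pool.Agent.Lib.MP_6a1159_al.Mg.G012

section

/-! M2c: curves of different classes cross. -/

set_option autoImplicit false

open Filter

namespace Pool.Agent.Lib.MP_6a1159_al.BS

namespace Surf

variable {P : Type} [Group P] {G : Subgroup (MulAut P)} (S : Surf P G)

/-- The main step, in the case where a power of a conjugate of `c` is in `f B`. PROOF: by `not_both`
no nonzero power of a conjugate of `c` is in `f A`: this is `hA` of `constA`, so `hconst` of `fixA`,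
`fixB` holds. By `hell`, `f c`, i.e. `h * (f c) ^ j * h⁻¹`, is in `A` or in `B`. In the first case
`fixA`: `F := MulAut.conj h * f` maps `A` into `A`, so by `S.hopf` `F⁻¹ c ∈ A` (`c ∈ A`), i.e.
`c = F a = h * f a * h⁻¹` for some `a ∈ A`: `f a = h⁻¹ * c ^ 1 * h`, against `hA`. In the second case `fixB`:
`h * f a * h⁻¹ ∈ B` for `a ∈ A`; `F := sw * MulAut.conj h * f` maps `A` into `A` (`sw_B`), so
`F⁻¹ c ∈ A`, `c = sw (h * f a * h⁻¹)`, and since `sw c⁻¹ = c` `h * f a * h⁻¹ = c⁻¹`,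
`f a = h⁻¹ * c ^ (-1) * h`, against `hA`. -/
theorem cross_aux (f : MulAut P) (hNC : ∀ g, S.NC (g * f S.c * g⁻¹))
    (h0 : ∀ g, S.eps (g * f S.c * g⁻¹) = 0)
    (hB : ∃ g : P, ∃ k : ℤ, k ≠ 0 ∧ ∃ b ∈ S.B, f b = g⁻¹ * S.c ^ k * g)
    (hell : ∃ h : P, ∃ j : ℤ, j ≠ 0 ∧
      (h * (f S.c) ^ j * h⁻¹ ∈ S.A ∨ h * (f S.c) ^ j * h⁻¹ ∈ S.B)) : False := by
  obtain ⟨g0, k0, hk0, b0, hb0, hfb0⟩ := hB
  have hA : ∀ g : P, ∀ k : ℤ, ∀ a ∈ S.A, f a = g⁻¹ * S.c ^ k * g → k = 0 := by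
    intro g k a ha hfa
    by_contra hk
    exact S.not_both f hNC g0 g k0 k hk0 hk a b0 ha hb0 hfb0 hfa
  have hconst : ∀ γ : P, ∀ a ∈ S.A,
      S.E (γ * f a * f S.c * (γ * f a)⁻¹) = S.E (γ * f S.c * γ⁻¹) :=
    fun γ a ha => S.constA f hNC h0 hA γ a ha
  obtain ⟨h, j, hj, h1 | h1⟩ := hell
  · have hF := S.fixA f hNC h0 hconst h j hj h1
    have h2 := S.hopf (MulAut.conj h * f) (fun a ha => by
      rw [MulAut.mul_apply, MulAut.conj_apply]
      exact hF a ha) S.c S.c_mem_A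
    have h3 : h * f ((MulAut.conj h * f)⁻¹ S.c) * h⁻¹ = S.c := by
      have h5 := MulAut.apply_inv_self P (MulAut.conj h * f) S.c
      rwa [MulAut.mul_apply, MulAut.conj_apply] at h5
    have h4 := hA h 1 _ h2 (by
      rw [zpow_one]
      nth_rewrite 2 [← h3]
      group)
    exact one_ne_zero h4
  · have hF := S.fixB f hNC h0 hconst h j hj h1
    have h2 := S.hopf (S.sw * (MulAut.conj h * f)) (fun a ha => by
      rw [MulAut.mul_apply, MulAut.mul_apply, MulAut.conj_apply]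
      exact (S.sw_B _).1 (hF a ha)) S.c S.c_mem_A
    have h3 : h * f ((S.sw * (MulAut.conj h * f))⁻¹ S.c) * h⁻¹ = S.c⁻¹ := by
      have h5 := MulAut.apply_inv_self P (S.sw * (MulAut.conj h * f)) S.c
      rw [MulAut.mul_apply, MulAut.mul_apply, MulAut.conj_apply] at h5
      apply S.sw.injective
      rw [h5, map_inv, S.sw_c, inv_inv]
    have h4 := hA h (-1) _ h2 (by
      rw [zpow_neg, zpow_one, ← h3]
      group)
    exact absurd h4 (by decide)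

/-- Curves of different classes cross. PROOF: suppose `f c` is not of the form `g * c * g⁻¹` or
`g * c⁻¹ * g⁻¹`. Then `hNC`: `g * f c * g⁻¹` is a curve different from `c`, `c⁻¹`, `NC_of_ne` with
`f := 1`. Let `f' := f⁻¹`; it satisfies the same hypotheses: `f' c = g * c * g⁻¹` gives
`f c = (f g)⁻¹ * c * f g`, so also NC; `eps (g * f⁻¹ c * g⁻¹) = 0`: with `F := MulAut.conj g * f⁻¹ ∈ G`,
`F c = g * f⁻¹ c * g⁻¹`, `F⁻¹ c = f (g⁻¹ * c * g) = (f g)⁻¹ * f c * f g` has `eps = 0` by `h0`, and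
`antisym` for `F`. `elliptic` for `f⁻¹`: `∃ g, j ≠ 0`, `a ∈ A` or `B`, `f⁻¹ a = g⁻¹ * c ^ j * g`, so
`a = (f g)⁻¹ * (f c) ^ j * f g`: this is `hell` with `h := (f g)⁻¹`. `elliptic` for `f`: if the element is
in `B`, `cross_aux`. If it is in `A`: `f a = g⁻¹ * c ^ k * g`; apply `cross_aux` to `f * sw`:
`(f * sw) c = (f c)⁻¹` (`NC_inv`, `eps_inv`), `b := sw⁻¹ a ∈ B` (`sw_B`), `(f * sw) b = f a`; `hell` with
`-j`. -/
theorem cross (f : MulAut P) (hf : f ∈ G) (h0 : ∀ g, S.eps (g * f S.c * g⁻¹) = 0) :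
    ∃ g : P, f S.c = g * S.c * g⁻¹ ∨ f S.c = g * S.c⁻¹ * g⁻¹ := by
  by_contra hcon
  have hne : ∀ g : P, f S.c ≠ g * S.c * g⁻¹ ∧ f S.c ≠ g * S.c⁻¹ * g⁻¹ := fun g =>
    ⟨fun h => hcon ⟨g, Or.inl h⟩, fun h => hcon ⟨g, Or.inr h⟩⟩
  have key : ∀ F ∈ G, (∀ g : P, F S.c ≠ g * S.c * g⁻¹ ∧ F S.c ≠ g * S.c⁻¹ * g⁻¹) →
      ∀ g, S.NC (g * F S.c * g⁻¹) := by
    intro F hF hn g
    have hx : g * F S.c * g⁻¹ ∈ S.Cur := (S.cur_conj g (F S.c)).2 ⟨F, hF, rfl⟩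
    have e1 : F S.c = g⁻¹ * (g * F S.c * g⁻¹) * (g⁻¹)⁻¹ := by group
    have h1 := S.NC_of_ne 1 G.one_mem (g * F S.c * g⁻¹) hx (fun h => (hn g⁻¹).1 (by
      rw [MulAut.one_apply] at h
      rwa [h] at e1)) (fun h => (hn g⁻¹).2 (by
      rw [MulAut.one_apply] at h
      rwa [h] at e1))
    rwa [inv_one, MulAut.one_apply] at h1
  have hNC := key f hf hne
  have hff : ∀ y, f (f⁻¹ y) = y := fun y => MulAut.apply_inv_self P f y
  have hne' : ∀ g : P, f⁻¹ S.c ≠ g * S.c * g⁻¹ ∧ f⁻¹ S.c ≠ g * S.c⁻¹ * g⁻¹ := by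
    intro g
    constructor
    · intro h
      apply (hne (f g)⁻¹).1
      have h1 := congrArg f h
      rw [hff, map_mul, map_mul, map_inv] at h1
      nth_rewrite 2 [h1]
      group
    · intro h
      apply (hne (f g)⁻¹).2
      have h1 := congrArg f h
      rw [hff, map_mul, map_mul, map_inv, map_inv] at h1
      nth_rewrite 2 [h1]
      group
  have hf' : f⁻¹ ∈ G := G.inv_mem hf
  have hNC' := key f⁻¹ hf' hne'
  have h0' : ∀ g, S.eps (g * f⁻¹ S.c * g⁻¹) = 0 := by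
    intro g
    have h1 := S.antisym (MulAut.conj g * f⁻¹) (G.mul_mem (S.conj_mem g) hf') (by
      rw [MulAut.mul_apply, MulAut.conj_apply]
      exact hNC' g)
    have h2 : (MulAut.conj g * f⁻¹)⁻¹ S.c = (f g)⁻¹ * f S.c * ((f g)⁻¹)⁻¹ := by
      rw [mul_inv_rev, inv_inv, MulAut.mul_apply, ← map_inv, MulAut.conj_apply, map_mul, map_mul,
        map_inv, inv_inv, inv_inv]
    rw [h2, h0, MulAut.mul_apply, MulAut.conj_apply] at h1
    omega
  have hell : ∃ h : P, ∃ j : ℤ, j ≠ 0 ∧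
      (h * (f S.c) ^ j * h⁻¹ ∈ S.A ∨ h * (f S.c) ^ j * h⁻¹ ∈ S.B) := by
    obtain ⟨g, k, hk, h1⟩ := S.elliptic f⁻¹ hNC' h0'
    have h2 : ∀ a : P, f⁻¹ a = g⁻¹ * S.c ^ k * g → (f g)⁻¹ * (f S.c) ^ k * ((f g)⁻¹)⁻¹ = a := by
      intro a ha
      have h3 := congrArg f ha
      rw [hff, map_mul, map_mul, map_inv, map_zpow] at h3
      rw [inv_inv]
      exact h3.symm
    refine ⟨(f g)⁻¹, k, hk, ?_⟩
    rcases h1 with ⟨a, ha, h1⟩ | ⟨b, hb, h1⟩
    · left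
      rw [h2 a h1]
      exact ha
    · right
      rw [h2 b h1]
      exact hb
  obtain ⟨g, k, hk, ⟨a, ha, h1⟩ | ⟨b, hb, h1⟩⟩ := S.elliptic f hNC h0
  · have hsc : (f * S.sw) S.c = (f S.c)⁻¹ := by
      rw [MulAut.mul_apply, S.sw_c, map_inv]
    have hci : ∀ g : P, g * (f S.c)⁻¹ * g⁻¹ = (g * f S.c * g⁻¹)⁻¹ := fun g => by group
    have hss : S.sw (S.sw⁻¹ a) = a := MulAut.apply_inv_self P S.sw a
    refine S.cross_aux (f * S.sw) (fun g => ?_) (fun g => ?_) ⟨g, k, hk, S.sw⁻¹ a, ?_, ?_⟩ ?_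
    · rw [hsc, hci]
      exact (S.NC_inv _).2 (hNC g)
    · rw [hsc, hci, S.eps_inv, h0, neg_zero]
    · rw [S.sw_B, hss]
      exact ha
    · rw [MulAut.mul_apply, hss]
      exact h1
    · obtain ⟨h, j, hj, h2⟩ := hell
      refine ⟨h, -j, neg_ne_zero.2 hj, ?_⟩
      rw [hsc, inv_zpow', neg_neg]
      exact h2
  · exact S.cross_aux f hNC h0 ⟨g, k, hk, b, hb, h1⟩ hell

end Surf

end Pool.Agent.Lib.MP_6a1159_al.BS
end

section

/-! M2: see the imported files. -/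
end
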