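import Pool.Agent.Lib.MP_6a1159_al.Mg.G007
import Pool.Agent.Lib.MP_6a1159_al.Mg.G014
import Pool.Agent.Lib.MP_6a1159_al.Mg.G015
import Pool.Agent.Lib.MP_6a1159_al.Mg.G009
import Pool.Agent.Lib.MP_6a1159_al.Mg.G003
import Pool.Agent.Lib.MP_6a1159_al.Mg.G005
import Pool.Agent.Lib.MP_6a1159_al.Mg.G002

section

/-! B1a: the inequality of Behrstock for twisting numbers. -/

set_option autoImplicit false

open Filter

namespace Pool.Agent.Lib.MP_6a1159_al.BS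

namespace Surf

variable {P : Type} [Group P] {G : Subgroup (MulAut P)} (S : Surf P G)

private theorem B1a_step (v y : P) (h1 : S.E v = 0) (h2 : S.E v⁻¹ = 1) (n : ℤ)
    (ha : S.eps (v ^ (-n) * y * v ^ n) ≠ 0)
    (hb : S.eps (v ^ (-(n + 1)) * y * v ^ (n + 1)) ≠ 0) :
    S.eps (v ^ (-(n + 1)) * y * v ^ (n + 1)) = S.eps (v ^ (-n) * y * v ^ n) := by
  have hinv : ∀ n : ℤ, (v ^ (-n) * y * v ^ n)⁻¹ = v ^ (-n) * y⁻¹ * v ^ n := by
    intro n
    group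
  have na := S.toSpl.NC_of_eps _ ha
  have nb := S.toSpl.NC_of_eps _ hb
  have na' := (S.toSpl.NC_inv _).2 na
  have nb' := (S.toSpl.NC_inv _).2 nb
  rw [hinv] at na' nb'
  have m1 := S.toSpl.mono_E v y h1 h2 n na nb
  have m2 := S.toSpl.mono_E v y⁻¹ h1 h2 n na' nb'
  rw [← hinv, ← hinv] at m2
  unfold Spl.eps at ha hb ⊢
  rcases S.toSpl.E_01 (v ^ (-n) * y * v ^ n) with a1 | a1 <;>
  rcases S.toSpl.E_01 (v ^ (-n) * y * v ^ n)⁻¹ with a2 | a2 <;>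
  rcases S.toSpl.E_01 (v ^ (-(n + 1)) * y * v ^ (n + 1)) with a3 | a3 <;>
  rcases S.toSpl.E_01 (v ^ (-(n + 1)) * y * v ^ (n + 1))⁻¹ with a4 | a4 <;>
  simp_all

/-- The direction in which `y` crosses the walls `v ^ n ⟨c⟩`, `n = -1, 0, 1`, is constant. PROOF: all
the elements `v ^ (-n) * y * v ^ n` are NC (`NC_of_eps`), with inverse `v ^ (-n) * y⁻¹ * v ^ n`. By
`E_01` the pair `(E, E of the inverse)` is `(1, 0)` or `(0, 1)` for each of the three `n`.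
Case `E v = 0`, `E v⁻¹ = 1`: by `mono_E` (for `y` and for `y⁻¹`) `E = 1` at `n` implies `E = 1` at
`n + 1`, so the pairs are equal. Case `E v = 1`, `E v⁻¹ = 0`: use `mono_E` for `v⁻¹`
(`(v⁻¹) ^ (-n) = v ^ n`), which goes from `n + 1` to `n`. -/
theorem direction (v y : P) (hv : S.eps v ≠ 0)
    (h : ∀ n : ℤ, -1 ≤ n → n ≤ 1 → S.eps (v ^ (-n) * y * v ^ n) ≠ 0) :
    ∀ n : ℤ, -1 ≤ n → n ≤ 1 → S.eps (v ^ (-n) * y * v ^ n) = S.eps y := by
  have h0 := h 0 (by norm_num) (by norm_num)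
  have hp := h 1 (by norm_num) (by norm_num)
  have hm := h (-1) (by norm_num) (by norm_num)
  have e0 : v ^ (-(0 : ℤ)) * y * v ^ (0 : ℤ) = y := by simp
  have key : S.eps (v ^ (-(1 : ℤ)) * y * v ^ (1 : ℤ)) = S.eps y ∧
      S.eps (v ^ (-(-1 : ℤ)) * y * v ^ (-1 : ℤ)) = S.eps y := by
    rcases S.toSpl.E_01 v with a1 | a1
    · have a2 : S.E v⁻¹ = 1 := by
        rcases S.toSpl.E_01 v⁻¹ with a2 | a2
        · exfalso; apply hv; unfold Spl.eps; rw [a1, a2]; rfl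
        · exact a2
      have k1 := B1a_step S v y a1 a2 0 h0 (by simpa using hp)
      have k2 := B1a_step S v y a1 a2 (-1) hm (by simpa using h0)
      rw [e0] at k1
      constructor
      · simpa using k1
      · rw [← k2]
        simp
    · have a2 : S.E v⁻¹ = 0 := by
        rcases S.toSpl.E_01 v⁻¹ with a2 | a2
        · exact a2
        · exfalso; apply hv; unfold Spl.eps; rw [a1, a2]; rfl
      have a1' : S.E v⁻¹⁻¹ = 1 := by rw [inv_inv]; exact a1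
      have k1 := B1a_step S v⁻¹ y a2 a1' 0 (by simpa using h0) (by simpa using hm)
      have k2 := B1a_step S v⁻¹ y a2 a1' (-1) (by simpa using hp) (by simpa using h0)
      constructor
      · simpa using k2.symm
      · simpa using k1
  intro n hn1 hn2
  have hn : n = -1 ∨ n = 0 ∨ n = 1 := by omega
  rcases hn with rfl | rfl | rfl
  · exact key.2
  · rw [e0]
  · exact key.1

end Surf

end Pool.Agent.Lib.MP_6a1159_al.BS
end

section

/-! B1b: the inequality of Behrstock for twisting numbers. -/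

set_option autoImplicit false

open Filter

namespace Pool.Agent.Lib.MP_6a1159_al.BS

namespace Surf

variable {P : Type} [Group P] {G : Subgroup (MulAut P)} (S : Surf P G)

private theorem B1b_core (v y : P) (hvc : v ∈ S.Cur) (hyc : y ∈ S.Cur) (hv1 : S.E v = 1) (hv0 : S.E v⁻¹ = 0)
    (hy : S.eps y = 1)
    (h : ∀ n : ℤ, -1 ≤ n → n ≤ 1 → S.eps (v ^ (-n) * y * v ^ n) ≠ 0) (k : ℤ) (hk : k ≠ 0) :
    S.ep y (S.c ^ k * v * S.c ^ (-k)) = 0 := by
  have hveps : S.eps v = 1 := by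
    unfold Spl.eps
    rw [hv1, hv0]
    norm_num
  have hvne : S.eps v ≠ 0 := by rw [hveps]; exact one_ne_zero
  have hNCv : S.NC v := S.NC_of_eps v hvne
  have hvZ : v ∉ Subgroup.zpowers S.c := by
    have h1 := hNCv 1 one_ne_zero
    rwa [zpow_one] at h1
  have hviZ : v⁻¹ ∉ Subgroup.zpowers S.c := fun h1 => hvZ (by simpa using inv_mem h1)
  have hdir := S.direction v y hvne h
  -- the signs for the neighbours
  have hp : S.eps (v⁻¹ * y * v) = 1 := by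
    have h1 := hdir 1 (by norm_num) (by norm_num)
    rw [zpow_neg, zpow_one, hy] at h1
    exact h1
  have hm : S.eps (v * y * v⁻¹) = 1 := by
    have h1 := hdir (-1) (by norm_num) (by norm_num)
    rw [neg_neg, zpow_one, zpow_neg, zpow_one, hy] at h1
    exact h1
  have hsplit : ∀ w : P, S.eps w = 1 → S.E w = 1 ∧ S.E w⁻¹ = 0 := by
    intro w hw
    unfold Spl.eps at hw
    rcases S.E_01 w with h1 | h1 <;> rcases S.E_01 w⁻¹ with h2 | h2 <;> rw [h1, h2] at hw <;>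
      first
        | (exfalso; omega)
        | exact ⟨h1, h2⟩
  obtain ⟨hp1, hp0⟩ := hsplit _ hp
  obtain ⟨hm1, hm0⟩ := hsplit _ hm
  have hm0' : S.E (v * y⁻¹ * v⁻¹) = 0 := by
    have h1 : (v * y * v⁻¹)⁻¹ = v * y⁻¹ * v⁻¹ := by group
    rwa [h1] at hm0
  obtain ⟨hchv, hchvi, hmono⟩ := S.mono' v hv1 hv0
  have hmono2 : ∀ g, S.chi g = 1 → S.chi (v * g) = 1 := by
    have h1 := (S.mono v⁻¹ hv0 (by rw [inv_inv]; exact hv1)).2.2
    rw [inv_inv] at h1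
    exact h1
  have hpow := S.mono_pow' v hv1 hv0
  set v' : P := S.c ^ k * v * S.c ^ (-k) with hv'
  have hv'eq : v' = S.c ^ k * v * (S.c ^ k)⁻¹ := by rw [hv', zpow_neg]
  have hv'c : v' ∈ S.Cur := by
    rw [hv'eq]
    exact (S.cur_conj (S.c ^ k) v).2 hvc
  have hv'eps : S.eps v' = 1 := by
    rw [hv', S.eps_conj_c, hveps]
  obtain ⟨hhG, hhc⟩ := S.rep_spec v' hv'c
  have hself : S.ep v' v' = 0 := by
    have h1 := S.ep_same v' 1 hv'c
    rwa [one_mul, inv_one, mul_one] at h1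
  by_cases hyv : y = v'
  · rw [hyv]
    exact hself
  by_cases hyvi : y = v'⁻¹
  · rw [hyvi, S.ep_inv_left, hself, neg_zero]
  have hNCy : S.NC ((S.rep v')⁻¹ y) :=
    S.NC_of_ne (S.rep v') hhG y hyc (by rw [hhc]; exact hyv) (by rw [hhc]; exact hyvi)
  have hvv' : v ≠ v' := by
    intro h1
    have h2 : v⁻¹ * S.c ^ k * v = S.c ^ k := by
      have h3 : v * S.c ^ k = S.c ^ k * v := by
        calc v * S.c ^ k = v' * S.c ^ k := by rw [← h1]
          _ = S.c ^ k * v := by rw [hv'eq]; group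
      rw [mul_assoc, ← h3, inv_mul_cancel_left]
    exact hvZ (S.mal v k hk (by rw [h2]; exact ⟨k, rfl⟩))
  have hvvi' : v ≠ v'⁻¹ := by
    intro h1
    have h2 : S.eps v = - S.eps v' := by
      rw [← S.eps_inv, ← h1]
    rw [hveps, hv'eps] at h2
    norm_num at h2
  have hNCv2 : S.NC ((S.rep v')⁻¹ v) :=
    S.NC_of_ne (S.rep v') hhG v hvc (by rw [hhc]; exact hvv') (by rw [hhc]; exact hvvi')
  have hpw : ∀ m : ℕ, v' ^ m * S.c ^ k = S.c ^ k * v ^ m := by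
    intro m
    rw [hv'eq, conj_pow]
    group
  have hpwi : ∀ m : ℕ, v'⁻¹ ^ m * S.c ^ k = S.c ^ k * v⁻¹ ^ m := by
    intro m
    have h1 : v'⁻¹ = S.c ^ k * v⁻¹ * (S.c ^ k)⁻¹ := by rw [hv'eq]; group
    rw [h1, conj_pow]
    group
  -- (a)
  have ha : S.E ((S.rep v')⁻¹ y) = S.E ((S.rep v')⁻¹ v) := by
    have hconj : ∀ w : P, (MulAut.conj v)⁻¹ w = v⁻¹ * w * v := fun w => MulAut.conj_inv_apply v w
    have hncf : S.NC ((MulAut.conj v)⁻¹ (S.rep v' S.c)) := by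
      rw [hhc]
      refine S.NC_of_ne _ (S.conj_mem v) v' hv'c ?_ ?_
      · intro h1
        rw [MulAut.conj_apply] at h1
        have h2 := S.eps_cc v
        rw [← h1, hv'eps] at h2
        norm_num at h2
      · intro h1
        rw [MulAut.conj_apply] at h1
        have h2 := S.eps_cc v
        have h3 : S.eps v' = 0 := by rw [h1, S.eps_inv, h2, neg_zero]
        rw [hv'eps] at h3
        norm_num at h3
    have hncf' : S.NC (v⁻¹ * v' * v) := by rwa [hhc, hconj] at hncf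
    refine S.sameSide (MulAut.conj v) (S.rep v') (S.conj_mem v) hhG 1 (Or.inr rfl) hncf ?_ ?_ y v
      ?_ ?_ hNCy hNCv2 ?_ ?_
    · rw [hhc, hconj]
      have h1 := S.E_spec' v v' hncf' (S.c ^ k)
      obtain ⟨m, hm1, hm2⟩ := (h1.and (eventually_ge_atTop 2)).exists
      rw [mul_assoc, hpw m] at hm1
      rw [← hm1]
      rcases S.far v hvZ k hk (v ^ m) with h3 | h3
      · exfalso
        have h4 : v⁻¹ * v ^ m = v ^ (m - 1) := by
          have h5 : m = (m - 1) + 1 := by omega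
          rw [h5, pow_succ', inv_mul_cancel_left, Nat.add_sub_cancel]
        rw [h4, (hpow (m - 1) (by omega)).1, hchvi] at h3
        norm_num at h3
      · rw [← mul_assoc, h3, hchvi]
        exact zero_ne_one
    · rw [hhc, hconj]
      have hnci : S.NC (v⁻¹ * v'⁻¹ * v) := by
        have h2 : v⁻¹ * v'⁻¹ * v = (v⁻¹ * v' * v)⁻¹ := by group
        rw [h2]
        exact (S.NC_inv _).2 hncf'
      have h1 := S.E_spec' v v'⁻¹ hnci (S.c ^ k)
      obtain ⟨m, hm1, hm2⟩ := (h1.and (eventually_ge_atTop 1)).exists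
      rw [mul_assoc, hpwi m] at hm1
      rw [← hm1, hmono (S.c ^ k * v⁻¹ ^ m) (by rw [S.chi_zpow]; exact (hpow m (by omega)).2)]
      exact zero_ne_one
    · rw [hconj]
      exact S.NC_of_eps _ (by rw [hp]; exact one_ne_zero)
    · rw [hconj, inv_mul_cancel, one_mul]
      exact hNCv
    · rw [hconj]
      exact hp1
    · rw [hconj, inv_mul_cancel, one_mul]
      exact hv1
  -- (b)
  have hb : S.E ((S.rep v')⁻¹ y⁻¹) = S.E ((S.rep v')⁻¹ v⁻¹) := by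
    have hconj : ∀ w : P, (MulAut.conj v⁻¹)⁻¹ w = v * w * v⁻¹ := fun w => by
      rw [MulAut.conj_inv_apply, inv_inv]
    have hncf : S.NC ((MulAut.conj v⁻¹)⁻¹ (S.rep v' S.c)) := by
      rw [hhc]
      refine S.NC_of_ne _ (S.conj_mem v⁻¹) v' hv'c ?_ ?_
      · intro h1
        rw [MulAut.conj_apply] at h1
        have h2 := S.eps_cc v⁻¹
        rw [← h1, hv'eps] at h2
        norm_num at h2
      · intro h1
        rw [MulAut.conj_apply] at h1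
        have h2 := S.eps_cc v⁻¹
        have h3 : S.eps v' = 0 := by rw [h1, S.eps_inv, h2, neg_zero]
        rw [hv'eps] at h3
        norm_num at h3
    have hncf' : S.NC (v⁻¹⁻¹ * v' * v⁻¹) := by
      rw [hhc, hconj] at hncf
      rw [inv_inv]
      exact hncf
    refine S.sameSide (MulAut.conj v⁻¹) (S.rep v') (S.conj_mem v⁻¹) hhG 0 (Or.inl rfl) hncf ?_ ?_ y⁻¹ v⁻¹
      ?_ ?_ ?_ ?_ ?_ ?_
    · rw [hhc, hconj]
      have h1 := S.E_spec' v⁻¹ v' hncf' (S.c ^ k)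
      obtain ⟨m, hm1, hm2⟩ := (h1.and (eventually_ge_atTop 1)).exists
      rw [mul_assoc, hpw m, inv_inv] at hm1
      rw [← hm1, hmono2 (S.c ^ k * v ^ m) (by rw [S.chi_zpow]; exact (hpow m (by omega)).1)]
      exact one_ne_zero
    · rw [hhc, hconj]
      have hnci : S.NC (v⁻¹⁻¹ * v'⁻¹ * v⁻¹) := by
        have h2 : v⁻¹⁻¹ * v'⁻¹ * v⁻¹ = (v⁻¹⁻¹ * v' * v⁻¹)⁻¹ := by group
        rw [h2]
        exact (S.NC_inv _).2 hncf'
      have h1 := S.E_spec' v⁻¹ v'⁻¹ hnci (S.c ^ k)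
      obtain ⟨m, hm1, hm2⟩ := (h1.and (eventually_ge_atTop 2)).exists
      rw [mul_assoc, hpwi m, inv_inv] at hm1
      rw [← hm1]
      rcases S.far v⁻¹ hviZ k hk (v⁻¹ ^ m) with h3 | h3
      · exfalso
        rw [inv_inv] at h3
        have h4 : v * v⁻¹ ^ m = v⁻¹ ^ (m - 1) := by
          have h5 : m = (m - 1) + 1 := by omega
          rw [h5, pow_succ', mul_inv_cancel_left, Nat.add_sub_cancel]
        rw [h4, (hpow (m - 1) (by omega)).2, hchv] at h3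
        norm_num at h3
      · rw [inv_inv] at h3
        rw [← mul_assoc, h3, hchv]
        exact one_ne_zero
    · rw [hconj]
      have h2 : v * y⁻¹ * v⁻¹ = (v * y * v⁻¹)⁻¹ := by group
      rw [h2]
      exact (S.NC_inv _).2 (S.NC_of_eps _ (by rw [hm]; exact one_ne_zero))
    · rw [hconj, mul_inv_cancel, one_mul]
      exact (S.NC_inv _).2 hNCv
    · rw [map_inv]
      exact (S.NC_inv _).2 hNCy
    · rw [map_inv]
      exact (S.NC_inv _).2 hNCv2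
    · rw [hconj]
      exact hm0'
    · rw [hconj, mul_inv_cancel, one_mul]
      exact hv0
  -- (c)
  have hc : S.ep v v' = 0 := by
    rw [hv'eq]
    exact S.ep_same v (S.c ^ k) hvc
  unfold Surf.ep Spl.eps at hc ⊢
  rw [← map_inv] at hc ⊢
  rw [ha, hb]
  exact hc

/-- PROOF: replacing `v` by `v⁻¹` (this changes `n` to `-n` and `ep y (c ^ k * v * c ^ (-k))` by a
sign, `ep_inv_right`) we may assume `E v = 1`, `E v⁻¹ = 0`; replacing `y` by `y⁻¹` we may assume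
`eps y = 1`, and by `direction` `E (v⁻¹ * y * v) = 1`, `E (v⁻¹ * y⁻¹ * v) = 0`, `E (v * y * v⁻¹) = 1`,
`E (v * y⁻¹ * v⁻¹) = 0` (`E_01`). `chi v = 1`, `chi v⁻¹ = 0` (`mono'`). Let `v' := c ^ k * v * c ^ (-k)`,
`h' := rep v'`. If `y = v'` or `y = v'⁻¹` then `ep y v' = 0` (`ep_same` with `g = 1`, `ep_inv_left`).
Otherwise `h'⁻¹ y` is NC (`NC_of_ne`).
(a) `sameSide` with `f := MulAut.conj v`, `q := 1`, `h := h'`, `u := y`, `u' := v`. Here `f⁻¹ w = v⁻¹ * w * v`.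
`E (f⁻¹ y) = 1` (above), `E (f⁻¹ v) = E v = 1`. The wall `h'` has the curve `v'`; `f⁻¹ v'` is NC
because `eps v' = eps v ≠ 0` (`eps_conj_c`) while `v' ∈ {f c, (f c)⁻¹}` would give `eps v' = 0`
(`eps_cc`, `eps_inv`), so `NC_of_ne`. `E (f⁻¹ v') ≠ 1`: by `E_spec'` it is the eventual value of
`chi (v⁻¹ * v' ^ m * c ^ k) = chi (v⁻¹ * c ^ k * v ^ m)`; by `far v k` at `g = v ^ m` this is `chi v⁻¹ = 0`
or `chi (v⁻¹ * v ^ m) = chi v⁻¹ = 0`, and the second alternative is false for `m ≥ 2`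
(`mono_pow'`). `E (f⁻¹ v'⁻¹) ≠ 1`: eventual value of `chi (v⁻¹ * v'⁻¹ ^ m * c ^ k) =
chi (v⁻¹ * (c ^ k * v⁻¹ ^ m))`; `chi (c ^ k * v⁻¹ ^ m) = chi (v⁻¹ ^ m) = 0` (`mono_pow'`) so by the third
part of `mono'` it is `0`. NC of `f⁻¹ y`: `eps (f⁻¹ y) = 1`; of `f⁻¹ v = v`; of `h'⁻¹ v`: `v ≠ v'`
(else `v` commutes with `c ^ k`: `v⁻¹ * c ^ k * v = c ^ k`, `v ∈ ⟨c⟩` by `mal`, against
`eps v ≠ 0`) and `v ≠ v'⁻¹` (`eps v'⁻¹ = - eps v`), `NC_of_ne`. Conclusion: `E (h'⁻¹ y) = E (h'⁻¹ v)`.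
(b) `sameSide` with `f := MulAut.conj v⁻¹`, `q := 0`, `h := h'`, `u := y⁻¹`, `u' := v⁻¹`:
`f⁻¹ w = v * w * v⁻¹`; `E (v * y⁻¹ * v⁻¹) = 0`, `E (v * v⁻¹ * v⁻¹) = 0`. `E (f⁻¹ v'⁻¹) ≠ 0`: eventual value
of `chi (v * c ^ k * v⁻¹ ^ m)`, `far v⁻¹ k` at `g = v⁻¹ ^ m`: it is `chi v = 1` or
`chi (v * v⁻¹ ^ m) = chi v = 1`, the latter false for `m ≥ 2`. `E (f⁻¹ v') ≠ 0`: eventual value of
`chi (v * (c ^ k * v ^ m))`; `chi (c ^ k * v ^ m) = 1`, and `mono` for `v⁻¹` (third part) gives `1`. Conclusion: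
`E (h'⁻¹ y⁻¹) = E (h'⁻¹ v⁻¹)`.
(c) `v` and `v'` are of the same class, so `ep v v' = 0` (`ep_same`), i.e.
`E (h'⁻¹ v) = E (h'⁻¹ v⁻¹)`; hence `ep y v' = E (h'⁻¹ y) - E (h'⁻¹ y⁻¹) = 0`. -/
theorem behr_c (v y : P) (hvc : v ∈ S.Cur) (hyc : y ∈ S.Cur) (hv : S.eps v ≠ 0)
    (h : ∀ n : ℤ, -1 ≤ n → n ≤ 1 → S.eps (v ^ (-n) * y * v ^ n) ≠ 0) (k : ℤ) (hk : k ≠ 0) :
    S.ep y (S.c ^ k * v * S.c ^ (-k)) = 0 := by
  have key : ∀ v y : P, v ∈ S.Cur → y ∈ S.Cur → S.E v = 1 → S.E v⁻¹ = 0 →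
      (∀ n : ℤ, -1 ≤ n → n ≤ 1 → S.eps (v ^ (-n) * y * v ^ n) ≠ 0) →
      S.ep y (S.c ^ k * v * S.c ^ (-k)) = 0 := by
    intro v y hvc hyc hv1 hv0 h
    have hy0 : S.eps y ≠ 0 := by
      have h1 := h 0 (by norm_num) (by norm_num)
      rwa [neg_zero, zpow_zero, one_mul, mul_one] at h1
    have hy : S.eps y = 1 ∨ S.eps y = -1 := by
      unfold Spl.eps at hy0 ⊢
      rcases S.E_01 y with h1 | h1 <;> rcases S.E_01 y⁻¹ with h2 | h2 <;> rw [h1, h2] at hy0 ⊢ <;> omega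
    rcases hy with hy | hy
    · exact S.B1b_core v y hvc hyc hv1 hv0 hy h k hk
    · have h1 := S.B1b_core v y⁻¹ hvc ((S.cur_inv y).2 hyc) hv1 hv0 (by rw [S.eps_inv, hy]; norm_num)
        (fun n hn1 hn2 => by
          have h2 : v ^ (-n) * y⁻¹ * v ^ n = (v ^ (-n) * y * v ^ n)⁻¹ := by group
          rw [h2, S.eps_inv]
          exact neg_ne_zero.2 (h n hn1 hn2)) k hk
      rw [S.ep_inv_left] at h1
      exact neg_eq_zero.1 h1
  have hcases : (S.E v = 1 ∧ S.E v⁻¹ = 0) ∨ (S.E v = 0 ∧ S.E v⁻¹ = 1) := by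
    unfold Spl.eps at hv
    rcases S.E_01 v with h1 | h1 <;> rcases S.E_01 v⁻¹ with h2 | h2 <;> rw [h1, h2] at hv <;>
      first
        | (exfalso; omega)
        | exact Or.inl ⟨h1, h2⟩
        | exact Or.inr ⟨h1, h2⟩
  rcases hcases with ⟨h1, h0⟩ | ⟨h0, h1⟩
  · exact key v y hvc hyc h1 h0 h
  · have h2 := key v⁻¹ y ((S.cur_inv v).2 hvc) hyc h1 (by rw [inv_inv]; exact h0)
      (fun n hn1 hn2 => by
        have h3 := h (-n) (by omega) (by omega)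
        rw [neg_neg] at h3
        rw [inv_zpow, inv_zpow, zpow_neg, inv_inv, ← zpow_neg]
        exact h3)
    have h4 : S.c ^ k * v⁻¹ * S.c ^ (-k) = (S.c ^ k * v * S.c ^ (-k))⁻¹ := by group
    have h5 : S.c ^ k * v * S.c ^ (-k) ∈ S.Cur := by
      rw [zpow_neg]
      exact (S.cur_conj (S.c ^ k) v).2 hvc
    rw [h4, S.ep_inv_right y _ hyc h5] at h2
    exact neg_eq_zero.1 h2

end Surf

end Pool.Agent.Lib.MP_6a1159_al.BS
end

section

/-! B1c: the inequality of Behrstock for twisting numbers. -/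

set_option autoImplicit false

open Filter

namespace Pool.Agent.Lib.MP_6a1159_al.BS

namespace Surf

variable {P : Type} [Group P] {G : Subgroup (MulAut P)} (S : Surf P G)

/-- PROOF: by `tw_cons` with `m = 3` there is `n0` such that `x` crosses `l ^ n * z * l ^ (-n)` for
`n = n0, n0 + 1, n0 + 2`; take `n := n0 + 1`, `z' := l ^ n * z * l ^ (-n)`. `f := (rep z')⁻¹ ∈ G`,
`f z' = c`, `v := f l`, `y := f x`. `eps v = ep v c = ep l z' ≠ 0` (`ep_c`, `ep_map`, `ep_conj`: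
`ep l z' = ep l z`, `ep_anti`). `v ^ (-j) * y * v ^ j` for `j = -1, 0, 1`: its `eps` is
`ep (v ^ (-j) * y * v ^ j) c = ep y (v ^ j * c * v ^ (-j)) = ep x (l ^ j * z' * l ^ (-j))` (`ep_conj`,
`ep_map`) `≠ 0`. `behr_c` gives `ep y (c ^ k * v * c ^ (-k)) = 0` for `k ≠ 0`, i.e.
`ep x (z' ^ k * l * z' ^ (-k)) = 0` (`ep_map`), and `tw_le_one`. -/
theorem behr (l x z : P) (hl : l ∈ S.Cur) (hx : x ∈ S.Cur) (hz : z ∈ S.Cur)
    (h1 : S.ep x l ≠ 0) (h2 : S.ep z l ≠ 0) (h : 3 ≤ |S.tw l x z|) :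
    ∃ n : ℤ, S.ep x (l ^ n * z * l ^ (-n)) ≠ 0 ∧ S.ep l (l ^ n * z * l ^ (-n)) ≠ 0 ∧
      |S.tw (l ^ n * z * l ^ (-n)) x l| ≤ 1 := by
  obtain ⟨n0, hn0⟩ := S.tw_cons l x z hl hx hz h1 h2 3 (by exact_mod_cast h)
  have hcz : ∀ k : ℤ, l ^ k * z * l ^ (-k) ∈ S.Cur := by
    intro k
    rw [zpow_neg]
    exact (S.cur_conj (l ^ k) z).2 hz
  have hlz : ∀ k : ℤ, S.ep l (l ^ k * z * l ^ (-k)) ≠ 0 := by
    intro k
    have e1 : S.ep l (l ^ k * z * l ^ (-k)) = S.ep l z := by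
      have e2 := S.ep_conj (l ^ k) l z hl hz
      have e3 : l ^ k * l * (l ^ k)⁻¹ = l := by
        rw [← zpow_add_one, ← zpow_neg, ← zpow_add, add_neg_cancel_comm, zpow_one]
      rw [e3] at e2
      rw [zpow_neg]
      exact e2
    rw [e1, S.ep_anti z l hz hl]
    exact neg_ne_zero.2 h2
  refine ⟨n0 + 1, ?_, hlz _, ?_⟩
  · have := hn0 1 (by norm_num)
    exact_mod_cast this
  set z' : P := l ^ (n0 + 1) * z * l ^ (-(n0 + 1)) with hz'
  have hz'c : z' ∈ S.Cur := hcz _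
  obtain ⟨hrG, hrc⟩ := S.rep_spec z' hz'c
  set f : MulAut P := (S.rep z')⁻¹ with hf
  have hfG : f ∈ G := G.inv_mem hrG
  have hfz : f z' = S.c := by
    have : f (S.rep z' S.c) = S.c := MulAut.inv_apply_self P _ _
    rwa [hrc] at this
  have hvc : f l ∈ S.Cur := (S.cur_map f hfG l).2 hl
  have hyc : f x ∈ S.Cur := (S.cur_map f hfG x).2 hx
  have hev : S.eps (f l) ≠ 0 := by
    rw [← S.ep_c (f l) hvc, ← hfz, S.ep_map f hfG l z' hl hz'c]
    exact hlz _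
  have hj : ∀ j : ℤ, -1 ≤ j → j ≤ 1 → S.eps ((f l) ^ (-j) * f x * (f l) ^ j) ≠ 0 := by
    intro j hj1 hj2
    have hcur : (f l) ^ (-j) * f x * (f l) ^ j ∈ S.Cur := by
      have := (S.cur_conj ((f l) ^ (-j)) (f x)).2 hyc
      rwa [← zpow_neg, neg_neg] at this
    have e1 := S.ep_conj ((f l) ^ j) ((f l) ^ (-j) * f x * (f l) ^ j) S.c hcur S.c_cur
    have e2 : (f l) ^ j * ((f l) ^ (-j) * f x * (f l) ^ j) * ((f l) ^ j)⁻¹ = f x := by
      rw [zpow_neg]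
      group
    have e3 : (f l) ^ j * S.c * ((f l) ^ j)⁻¹ = f (l ^ j * z' * (l ^ j)⁻¹) := by
      rw [map_mul, map_mul, map_inv, map_zpow, hfz]
    have hzj : l ^ j * z' * (l ^ j)⁻¹ = l ^ (n0 + 1 + j) * z * l ^ (-(n0 + 1 + j)) := by
      rw [hz', zpow_neg, zpow_neg, zpow_add l (n0 + 1) j, (Commute.refl l).zpow_zpow (n0 + 1) j]
      group
    rw [e2, e3, S.ep_map f hfG x _ hx ((S.cur_conj (l ^ j) z').2 hz'c), hzj] at e1
    rw [← S.ep_c _ hcur, ← e1]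
    obtain ⟨i, hi⟩ : ∃ i : ℕ, (i : ℤ) = 1 + j := ⟨(1 + j).toNat, Int.toNat_of_nonneg (by omega)⟩
    have := hn0 i (by omega)
    rw [hi, ← add_assoc] at this
    exact this
  apply S.tw_le_one
  intro k hk
  have e1 := S.behr_c (f l) (f x) hvc hyc hev hj k hk
  have e2 : S.c ^ k * f l * S.c ^ (-k) = f (z' ^ k * l * z' ^ (-k)) := by
    rw [map_mul, map_mul, map_zpow, map_zpow, hfz]
  have hcur : z' ^ k * l * z' ^ (-k) ∈ S.Cur := by
    rw [zpow_neg]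
    exact (S.cur_conj (z' ^ k) l).2 hl
  rw [e2, S.ep_map f hfG x _ hx hcur] at e1
  exact e1

end Surf

end Pool.Agent.Lib.MP_6a1159_al.BS
end

section

/-! B1: see the imported files. -/
end

section

/-! F1a: finiteness of the set of classes with large twisting number. -/

set_option autoImplicit false

open Filter

namespace Pool.Agent.Lib.MP_6a1159_al.BS

private theorem F1a_conj {P : Type} [Group P] (g x y : P) (h : y ∈ cls x) :
    y ∈ cls (g * x * g⁻¹) := by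
  obtain ⟨a, h | h⟩ := h
  · exact ⟨a * g⁻¹, Or.inl (by rw [h]; group)⟩
  · exact ⟨a * g⁻¹, Or.inr (by rw [h]; group)⟩

private theorem F1a_inv {P : Type} [Group P] (x y : P) (h : y ∈ cls x) : y ∈ cls x⁻¹ := by
  obtain ⟨a, h | h⟩ := h
  · exact ⟨a, Or.inr (by rw [h, inv_inv])⟩
  · exact ⟨a, Or.inl h⟩

theorem cls_conj {P : Type} [Group P] (g x : P) : cls (g * x * g⁻¹) = cls x := by
  ext y
  constructor
  · intro h
    have h2 := F1a_conj g⁻¹ (g * x * g⁻¹) y h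
    have e : g⁻¹ * (g * x * g⁻¹) * g⁻¹⁻¹ = x := by group
    rwa [e] at h2
  · exact F1a_conj g x y

theorem cls_inv {P : Type} [Group P] (x : P) : cls x⁻¹ = cls x := by
  ext y
  constructor
  · intro h
    have h2 := F1a_inv x⁻¹ y h
    rwa [inv_inv] at h2
  · exact F1a_inv x y

theorem cls_self {P : Type} [Group P] (x : P) : x ∈ cls x := ⟨1, Or.inl (by group)⟩

theorem cls_eq {P : Type} [Group P] (x y : P) (h : y ∈ cls x) : cls y = cls x := by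
  obtain ⟨g, h | h⟩ := h
  · rw [h, cls_conj]
  · rw [h, cls_conj, cls_inv]

theorem cls_map {P : Type} [Group P] (f : MulAut P) (x : P) : f '' cls x = cls (f x) := by
  ext y
  constructor
  · rintro ⟨z, ⟨g, h | h⟩, rfl⟩
    · exact ⟨f g, Or.inl (by rw [h, map_mul, map_mul, map_inv])⟩
    · exact ⟨f g, Or.inr (by rw [h, map_mul, map_mul, map_inv, map_inv])⟩
  · rintro ⟨g, h | h⟩
    · exact ⟨f⁻¹ y, ⟨f⁻¹ g, Or.inl (by
        rw [h, map_mul, map_mul, map_inv, MulAut.inv_apply_self])⟩, MulAut.apply_inv_self _ _ _⟩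
    · exact ⟨f⁻¹ y, ⟨f⁻¹ g, Or.inr (by
        rw [h, map_mul, map_mul, map_inv, map_inv, MulAut.inv_apply_self])⟩,
        MulAut.apply_inv_self _ _ _⟩

end Pool.Agent.Lib.MP_6a1159_al.BS
end

section

/-! F1b: finiteness of the set of classes with large twisting number. -/

set_option autoImplicit false

open Filter

namespace Pool.Agent.Lib.MP_6a1159_al.BS

namespace Surf

variable {P : Type} [Group P] {G : Subgroup (MulAut P)} (S : Surf P G)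

private theorem F1b_one (S : Surf P G) (u : P) (h : S.eps u = 1) : S.E u = 1 ∧ S.E u⁻¹ = 0 := by
  have h1 := S.E_01 u
  have h2 := S.E_01 u⁻¹
  unfold Spl.eps at h
  omega

private theorem F1b_neg (S : Surf P G) (u : P) (h : S.eps u = -1) : S.E u = 0 ∧ S.E u⁻¹ = 1 := by
  have h1 := S.E_01 u
  have h2 := S.E_01 u⁻¹
  unfold Spl.eps at h
  omega

private theorem F1b_eps (S : Surf P G) (u : P) (h : S.eps u ≠ 0) : S.eps u = 1 ∨ S.eps u = -1 := by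
  have h1 := S.E_01 u
  have h2 := S.E_01 u⁻¹
  unfold Spl.eps at h ⊢
  omega

private theorem F1b_dir (S : Surf P G) (v y : P) (hv : S.eps v ≠ 0)
    (h : ∀ n : ℤ, -1 ≤ n → n ≤ 2 → S.eps (v ^ (-n) * y * v ^ n) ≠ 0) :
    ∀ n : ℤ, -1 ≤ n → n ≤ 2 → S.eps (v ^ (-n) * y * v ^ n) = S.eps y := by
  have d1 := S.direction v y hv (fun n h1 h2 => h n h1 (by omega))
  have e : ∀ n : ℤ, v ^ (-n) * (v⁻¹ * y * v) * v ^ n = v ^ (-(n + 1)) * y * v ^ (n + 1) := by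
    intro n
    group
  have d2 := S.direction v (v⁻¹ * y * v) hv (fun n h1 h2 => by
    rw [e]
    exact h (n + 1) (by omega) (by omega))
  have d3 : S.eps (v⁻¹ * y * v) = S.eps y := by
    have := d1 1 (by omega) (by omega)
    rw [zpow_neg, zpow_one] at this
    exact this
  intro n h1 h2
  rcases (show n ≤ 1 ∨ n = 2 by omega) with h3 | h3
  · exact d1 n h1 h3
  · subst h3
    have := d2 1 (by omega) (by omega)
    rw [e, d3] at this
    exact this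

/-- Tree level statement. Notation: the wall of the curve `z` is the wall `⟨c⟩`, `v` stands for `l`,
and `y` for `x₀`. PROOF: by `direction` twice (for `n = -1, 0, 1` around `0`, and around `1`, i.e. for
`v⁻¹ * y * v` in place of `y`) all the numbers `eps (v ^ (-n) * y * v ^ n)`, `-1 ≤ n ≤ 2`, are equal to
`eps y`. Let `y₁ := y` or `y⁻¹`, with `eps y₁ = 1`; then `v` is in the set of `finV y₁` (`E_01`), with the
last condition by `hmal`. So the set is contained in the union of the sets of `finV y` and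
`finV y⁻¹` (each of them is finite, or empty if `eps y` has the wrong sign). -/
theorem finV' (y : P)
    (hmal : ∀ v : P, ∀ K K' : ℤ, K ≠ 0 → v⁻¹ * y ^ K' * v = y ^ K → v ∈ Subgroup.zpowers y) :
    {v : P | (S.E v = 1 ∧ S.E v⁻¹ = 0) ∧ v ∉ Subgroup.zpowers y ∧
      ∀ n : ℤ, -1 ≤ n → n ≤ 2 → S.eps (v ^ (-n) * y * v ^ n) ≠ 0}.Finite := by
  set V := {v : P | (S.E v = 1 ∧ S.E v⁻¹ = 0) ∧ v ∉ Subgroup.zpowers y ∧
      ∀ n : ℤ, -1 ≤ n → n ≤ 2 → S.eps (v ^ (-n) * y * v ^ n) ≠ 0} with hV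
  have hV' : ∀ v ∈ V, ∀ n : ℤ, -1 ≤ n → n ≤ 2 → S.eps (v ^ (-n) * y * v ^ n) = S.eps y := by
    intro v hv
    rw [hV] at hv
    obtain ⟨⟨a1, a0⟩, _, b⟩ := hv
    refine F1b_dir S v y ?_ b
    unfold Spl.eps
    rw [a1, a0]
    norm_num
  by_cases hy : S.eps y = 0
  · have : V = ∅ := by
      apply Set.eq_empty_of_forall_notMem
      intro v hv
      have hv2 := hv
      rw [hV] at hv2
      have := hv2.2.2 0 (by omega) (by omega)
      rw [hV' v hv 0 (by omega) (by omega)] at this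
      exact this hy
    rw [this]
    exact Set.finite_empty
  have hinv : ∀ (v : P) (n : ℤ), (v ^ (-n) * y * v ^ n)⁻¹ = v ^ (-n) * y⁻¹ * v ^ n := by
    intro v n
    group
  rcases F1b_eps S y hy with h1 | h1
  · obtain ⟨e1, e0⟩ := F1b_one S y h1
    refine (S.finV y e1 e0).subset ?_
    intro v hv
    have hd := hV' v hv
    rw [hV] at hv
    obtain ⟨a, b, _⟩ := hv
    refine ⟨a, ?_, ?_, ?_⟩
    · intro n hn
      have := F1b_one S _ ((hd (n : ℤ) (by omega) (by omega)).trans h1)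
      rw [hinv] at this
      rw [zpow_neg, zpow_natCast, ← inv_pow] at this
      exact this
    · have := F1b_one S _ ((hd (-1) (by omega) (by omega)).trans h1)
      rw [hinv] at this
      simpa using this
    · intro K K' hK hcon
      exact b (hmal v K K' hK hcon)
  · obtain ⟨e1, e0⟩ := F1b_neg S y h1
    refine (S.finV y⁻¹ e0 (by rw [inv_inv]; exact e1)).subset ?_
    intro v hv
    have hd := hV' v hv
    rw [hV] at hv
    obtain ⟨a, b, _⟩ := hv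
    refine ⟨a, ?_, ?_, ?_⟩
    · intro n hn
      have := F1b_neg S _ ((hd (n : ℤ) (by omega) (by omega)).trans h1)
      rw [hinv] at this
      rw [zpow_neg, zpow_natCast, ← inv_pow] at this
      rw [inv_inv]
      exact ⟨this.2, this.1⟩
    · have := F1b_neg S _ ((hd (-1) (by omega) (by omega)).trans h1)
      rw [hinv] at this
      rw [inv_inv]
      constructor
      · simpa using this.2
      · simpa using this.1
    · intro K K' hK hcon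
      refine b (hmal v (-K) (-K') (by omega) ?_)
      rw [inv_zpow, inv_zpow] at hcon
      rw [zpow_neg, zpow_neg]
      exact hcon

end Surf

end Pool.Agent.Lib.MP_6a1159_al.BS
end

section

/-! F1c: finiteness of the set of classes with large twisting number. -/

set_option autoImplicit false

open Filter

namespace Pool.Agent.Lib.MP_6a1159_al.BS

namespace Surf

variable {P : Type} [Group P] {G : Subgroup (MulAut P)} (S : Surf P G)

private theorem F1c_const (φ : ℤ → ℤ) (h : ∀ k, φ (k + 1) = φ k) (k : ℤ) : φ k = φ 0 := by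
  induction k using Int.induction_on with
  | zero => rfl
  | succ k ih => rw [h, ih]
  | pred k ih =>
    have h1 := h (-(k : ℤ) - 1)
    rw [sub_add_cancel] at h1
    rw [← h1, ih]

private theorem F1c_core (x₀ : P) (hx : x₀ ∈ S.Cur) (f : MulAut P) (hf : f ∈ G) (F₀ : Finset P)
    (hF₀ : ∀ x, S.chi (x * f⁻¹ x₀) ≠ S.chi x → ∃ y ∈ F₀, ∃ k : ℤ, x = S.c ^ k * y)
    (l : P) (hl : l ∈ S.Cur) (g : P) (h1 : S.ep x₀ l ≠ 0)
    (h2 : S.ep l (g * f S.c * g⁻¹) = 1)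
    (h3 : ∀ n : ℤ, -1 ≤ n → n ≤ 2 → S.ep x₀ (l ^ n * (g * f S.c * g⁻¹) * l ^ (-n)) ≠ 0) :
    ∃ s ∈ F₀, ∃ v : P, ((S.E v = 1 ∧ S.E v⁻¹ = 0) ∧
      v ∉ Subgroup.zpowers (s * f⁻¹ x₀ * s⁻¹) ∧
      ∀ n : ℤ, -1 ≤ n → n ≤ 2 → S.eps (v ^ (-n) * (s * f⁻¹ x₀ * s⁻¹) * v ^ n) ≠ 0) ∧
      cls l = cls (f (s⁻¹ * v * s)) := by
  set y₀ : P := f⁻¹ x₀ with hy₀
  have hfc : f S.c ∈ S.Cur := ⟨f, hf, rfl⟩
  have hfy : f y₀ = x₀ := MulAut.apply_inv_self P f x₀
  set γ : P := f⁻¹ g with hγ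
  have hfγ : f γ = g := MulAut.apply_inv_self P f g
  -- the wall of `g * f c * g⁻¹` crosses the axis of `x₀`
  have hne : S.eps (γ⁻¹ * y₀ * γ) ≠ 0 := by
    have e1 : S.ep x₀ (g * f S.c * g⁻¹) ≠ 0 := by
      have := h3 0 (by norm_num) (by norm_num)
      simpa using this
    have e2 := S.ep_eq (MulAut.conj g * f) (mul_mem (S.conj_mem g) hf) x₀ hx
    have e3 : (MulAut.conj g * f) S.c = g * f S.c * g⁻¹ := by
      rw [MulAut.mul_apply, MulAut.conj_apply]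
    have e4 : (MulAut.conj g * f)⁻¹ x₀ = γ⁻¹ * y₀ * γ := by
      have e5 : (MulAut.conj g * f) (γ⁻¹ * y₀ * γ) = x₀ := by
        rw [MulAut.mul_apply, MulAut.conj_apply, map_mul, map_mul, map_inv, hfγ, hfy]
        group
      rw [← e5, MulAut.inv_apply_self]
    rw [e3, e4] at e2
    rw [← e2]
    exact e1
  have hNC := S.NC_of_eps _ hne
  obtain ⟨k, hk⟩ : ∃ k : ℤ, S.chi (γ⁻¹ * y₀ ^ k * y₀) ≠ S.chi (γ⁻¹ * y₀ ^ k) := by
    by_contra hcon
    push Not at hcon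
    have hc : ∀ k : ℤ, S.chi (γ⁻¹ * y₀ ^ k) = S.chi (γ⁻¹ * y₀ ^ (0 : ℤ)) := by
      intro k
      refine F1c_const (fun k => S.chi (γ⁻¹ * y₀ ^ k)) (fun k => ?_) k
      rw [← hcon k, zpow_add_one, mul_assoc]
    have hNC' : S.NC (γ⁻¹ * y₀⁻¹ * γ) := by
      have e1 : γ⁻¹ * y₀⁻¹ * γ = (γ⁻¹ * y₀ * γ)⁻¹ := by group
      rw [e1]
      exact (S.NC_inv _).2 hNC
    have a1 := S.E_spec' γ y₀ hNC 1
    have a2 := S.E_spec' γ y₀⁻¹ hNC' 1
    obtain ⟨m, b1, b2⟩ := (a1.and a2).exists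
    apply hne
    have e1 : γ⁻¹ * y₀⁻¹ * γ = (γ⁻¹ * y₀ * γ)⁻¹ := by group
    have e2 := hc m
    have e3 := hc (-m)
    rw [mul_one, ← zpow_natCast] at b1 b2
    rw [inv_zpow'] at b2
    unfold Spl.eps
    rw [← e1, ← b1, ← b2, e2, e3, sub_self]
  obtain ⟨s, hs, i, hi⟩ := hF₀ _ hk
  -- `γ = y₀ ^ k * s⁻¹ * c ^ (-i)`
  have hγe : γ = y₀ ^ k * s⁻¹ * S.c ^ (-i) := by
    have e1 : γ⁻¹ = S.c ^ i * s * y₀ ^ (-k) := by
      rw [← hi]; group
    rw [← inv_inv γ, e1]; group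
  have hg : g = x₀ ^ k * (f s)⁻¹ * (f S.c) ^ (-i) := by
    rw [← hfγ, hγe, map_mul, map_mul, map_zpow, map_zpow, map_inv, hfy]
  set t : P := x₀ ^ (-k) with ht
  set ψ : MulAut P := MulAut.conj (f s)⁻¹ * f with hψ
  have hψG : ψ ∈ G := mul_mem (S.conj_mem _) hf
  have hψa : ∀ u : P, ψ u = (f s)⁻¹ * f u * f s := by
    intro u
    rw [hψ, MulAut.mul_apply, MulAut.conj_apply, inv_inv]
  have hψc : ψ S.c = t * (g * f S.c * g⁻¹) * t⁻¹ := by
    rw [hψa, hg, ht]; group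
  set l₂ : P := t * l * t⁻¹ with hl₂
  have hl₂C : l₂ ∈ S.Cur := (S.cur_conj t l).2 hl
  have hψcC : ψ S.c ∈ S.Cur := ⟨ψ, hψG, rfl⟩
  have hZC : g * f S.c * g⁻¹ ∈ S.Cur := (S.cur_conj g _).2 hfc
  have htx : t * x₀ * t⁻¹ = x₀ := by
    rw [ht]; group
  have hys : ψ (s * y₀ * s⁻¹) = x₀ := by
    rw [hψa, map_mul, map_mul, map_inv, hfy]; group
  set v : P := ψ⁻¹ l₂ with hv
  have hψv : ψ v = l₂ := MulAut.apply_inv_self P ψ l₂
  refine ⟨s, hs, v, ⟨?_, ?_, ?_⟩, ?_⟩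
  · have e1 : S.eps v = 1 := by
      have e2 := S.ep_eq ψ hψG l₂ hl₂C
      rw [hψc, hl₂, S.ep_conj t l _ hl hZC, h2] at e2
      rw [hv, hl₂, ← e2]
    unfold Spl.eps at e1
    rcases S.E_01 v with e3 | e3 <;> rcases S.E_01 v⁻¹ with e4 | e4 <;> rw [e3, e4] at e1 <;>
      norm_num at e1
    exact ⟨e3, e4⟩
  · intro hmem
    obtain ⟨j, hj⟩ := Subgroup.mem_zpowers_iff.1 hmem
    have e1 : l₂ = x₀ ^ j := by
      rw [← hψv, ← hj, map_zpow, hys]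
    have e2 : l = x₀ ^ j := by
      have e3 : l = t⁻¹ * l₂ * t := by rw [hl₂]; group
      rw [e3, e1, ht]; group
    have e4 : l = x₀ ∨ l = x₀⁻¹ := by
      refine S.cur_comm l x₀ hl hx 1 one_ne_zero ?_
      rw [zpow_one, e2]
      exact Subgroup.zpow_mem_zpowers x₀ j
    have e5 : S.ep x₀ x₀ = 0 := by
      have := S.ep_same x₀ 1 hx
      simpa using this
    apply h1
    rcases e4 with e4 | e4
    · rw [e4]; exact e5
    · rw [e4, S.ep_inv_right x₀ x₀ hx hx, e5, neg_zero]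
  · intro n hn1 hn2
    have e1 : v ^ (-n) * (s * y₀ * s⁻¹) * v ^ n = ψ⁻¹ (l₂ ^ (-n) * x₀ * l₂ ^ n) := by
      have e2 : ψ (v ^ (-n) * (s * y₀ * s⁻¹) * v ^ n) = l₂ ^ (-n) * x₀ * l₂ ^ n := by
        rw [map_mul, map_mul, map_zpow, map_zpow, hys, hψv]
      rw [← e2, MulAut.inv_apply_self]
    have hC : l₂ ^ (-n) * x₀ * l₂ ^ n ∈ S.Cur := by
      have e2 := (S.cur_conj (l₂ ^ (-n)) x₀).2 hx
      have e3 : (l₂ ^ (-n))⁻¹ = l₂ ^ n := by rw [zpow_neg, inv_inv]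
      rwa [e3] at e2
    have hC2 : l ^ n * (g * f S.c * g⁻¹) * l ^ (-n) ∈ S.Cur := by
      have e2 := (S.cur_conj (l ^ n) _).2 hZC
      rwa [← zpow_neg] at e2
    rw [e1, ← S.ep_eq ψ hψG _ hC, ← S.ep_conj (l₂ ^ n) _ _ hC hψcC]
    have e2 : l₂ ^ n * (l₂ ^ (-n) * x₀ * l₂ ^ n) * (l₂ ^ n)⁻¹ = x₀ := by group
    have e3 : l₂ ^ n * ψ S.c * (l₂ ^ n)⁻¹ =
        t * (l ^ n * (g * f S.c * g⁻¹) * l ^ (-n)) * t⁻¹ := by
      rw [hψc, hl₂, conj_zpow]; group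
    have e4 : S.ep x₀ (t * (l ^ n * (g * f S.c * g⁻¹) * l ^ (-n)) * t⁻¹) =
        S.ep x₀ (l ^ n * (g * f S.c * g⁻¹) * l ^ (-n)) := by
      have e5 := S.ep_conj t x₀ _ hx hC2
      rwa [htx] at e5
    rw [e2, e3, e4]
    exact h3 n hn1 hn2
  · have e1 : f (s⁻¹ * v * s) = l₂ := by
      rw [← hψv, hψa, map_mul, map_mul, map_inv]
    rw [e1, hl₂, cls_conj]

/-- PROOF. Let `y₀ := f⁻¹ x₀` and let `F₀` be the finite set of `S.fin y₀`. Let `Y = cls l`, `z` be as in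
the set. By `cls_inv`, `tw_inv_z`, `ep_inv_left`, replacing `z` by `z⁻¹`, we may assume
`z = g * f c * g⁻¹`. Replacing `l` by `l⁻¹` (`cls_inv`, `tw_inv_l`, `ep_inv_right`) we may assume that
`ep l z = 1` (`ep_anti`: `ep l z ≠ 0`). By `tw_cons` with `m = 4` there is `n0` such that `x₀` crosses
`l ^ (n0 + i) * z * l ^ (-(n0 + i))` for `i = 0, 1, 2, 3`. Replace `z` by
`l ^ (n0 + 1) * z * l ^ (-(n0 + 1))` (again conjugate to `f c`, and `ep l` of it is `ep l z = 1` by `ep_conj`):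
so `x₀` crosses `l ^ n * z * l ^ (-n)` for `-1 ≤ n ≤ 2`, `z = g * f c * g⁻¹` with a new `g`. Put
`γ := f⁻¹ g`. `eps (γ⁻¹ * y₀ * γ) = ep x₀ z ≠ 0` (`ep_eq` with the automorphism `conj g * f`), so
`E (γ⁻¹ * y₀ * γ) ≠ E (γ⁻¹ * y₀⁻¹ * γ)`, and by `E_spec'` `chi (γ⁻¹ * y₀ ^ k)` has different values for
`k → +∞`, `k → -∞`. So there is `k : ℤ` with `chi (γ⁻¹ * y₀ ^ k * y₀) ≠ chi (γ⁻¹ * y₀ ^ k)` and by
`S.fin y₀` `γ⁻¹ * y₀ ^ k = c ^ i * s`, `s ∈ F₀`, i.e. `γ = y₀ ^ k * s⁻¹ * c ^ (-i)`. Conjugate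
everything by `x₀ ^ (-k)` (this fixes `x₀`, and the class of `l`): we may assume `k = 0`,
`γ = s⁻¹ * c ^ (-i)`, and as `c ^ (-i)` commutes with `c` we may replace `g` by `f s⁻¹`: `γ = s⁻¹`,
`z = f s⁻¹ * f c * f s`. Let `φ := (MulAut.conj (f s⁻¹) * f)⁻¹ ∈ G`: `φ z = c`, `y := φ x₀ = s * y₀ * s⁻¹`,
`v := φ l`. Then `v` is in the set of `finV' y`: `eps v = ep l z = 1`, so `E v = 1`, `E v⁻¹ = 0`;
`v ∉ ⟨y⟩`: otherwise `l ∈ ⟨x₀⟩`, `l = x₀ ^ j` with `j ≠ 0` (`cur_inf`), so `l = x₀` or `l = x₀⁻¹`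
(`cur_comm`) against `ep x₀ l ≠ 0` (`ep_same`, `ep_inv_right`); `eps (v ^ (-n) * y * v ^ n) =
ep x₀ (l ^ n * z * l ^ (-n)) ≠ 0`. The hypothesis `hmal` of `finV'`: `y` is a curve; if
`v⁻¹ * y ^ K' * v = y ^ K` with `K ≠ 0` then `K' ≠ 0` and `v ∈ ⟨y⟩` by `cur_mal`. Finally
`Y = cls l = cls (φ⁻¹ v) = cls (f (s⁻¹ * v * s))`. So the set is contained in the union over `s ∈ F₀` of the
images of the finite sets of `finV' (s * y₀ * s⁻¹)` under `v ↦ cls (f (s⁻¹ * v * s))`. -/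
theorem finTw (x₀ : P) (hx : x₀ ∈ S.Cur) (f : MulAut P) (hf : f ∈ G) :
    {Y : Set P | ∃ l ∈ S.Cur, Y = cls l ∧ ∃ z ∈ S.Cur, z ∈ cls (f S.c) ∧ S.ep x₀ l ≠ 0 ∧
      S.ep z l ≠ 0 ∧ 4 ≤ |S.tw l x₀ z|}.Finite := by
  obtain ⟨F₀, hF₀⟩ := S.fin (f⁻¹ x₀)
  have hfin : ∀ s : P, {v : P | (S.E v = 1 ∧ S.E v⁻¹ = 0) ∧
      v ∉ Subgroup.zpowers (s * f⁻¹ x₀ * s⁻¹) ∧
      ∀ n : ℤ, -1 ≤ n → n ≤ 2 →
        S.eps (v ^ (-n) * (s * f⁻¹ x₀ * s⁻¹) * v ^ n) ≠ 0}.Finite := by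
    intro s
    have hyC : s * f⁻¹ x₀ * s⁻¹ ∈ S.Cur := by
      rw [S.cur_conj, S.cur_map f⁻¹ (inv_mem hf)]
      exact hx
    refine S.finV' _ ?_
    intro v K K' hK h
    refine S.cur_mal _ hyC v K' ?_ ?_
    · intro hK'
      rw [hK', zpow_zero, mul_one, inv_mul_cancel] at h
      exact hK (S.cur_inf _ hyC K h.symm)
    · rw [h]
      exact Subgroup.zpow_mem_zpowers _ K
  refine Set.Finite.subset (Set.Finite.biUnion F₀.finite_toSet fun s _ =>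
    (hfin s).image fun v => cls (f (s⁻¹ * v * s))) ?_
  rintro Y ⟨l, hl, rfl, z, hz, hzc, h1, h2, h4⟩
  -- `z` is conjugate to `f c`
  obtain ⟨g, z, hz, hzg, h2, h4⟩ : ∃ g z : P, z ∈ S.Cur ∧ z = g * f S.c * g⁻¹ ∧
      S.ep z l ≠ 0 ∧ 4 ≤ |S.tw l x₀ z| := by
    obtain ⟨g, hg | hg⟩ := hzc
    · exact ⟨g, z, hz, hg, h2, h4⟩
    · refine ⟨g, z⁻¹, (S.cur_inv z).2 hz, ?_, ?_, ?_⟩
      · rw [hg]; group
      · rw [S.ep_inv_left]
        exact neg_ne_zero.2 h2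
      · rw [S.tw_inv_z l x₀ z hl hx hz]
        exact h4
  -- `l` crosses `z` positively
  obtain ⟨l', hl', hcls, h1', h2', h4', hpos⟩ : ∃ l' : P, l' ∈ S.Cur ∧ cls l' = cls l ∧
      S.ep x₀ l' ≠ 0 ∧ S.ep z l' ≠ 0 ∧ 4 ≤ |S.tw l' x₀ z| ∧ S.ep l' z = 1 := by
    have e1 : S.ep l z = - S.ep z l := S.ep_anti z l hz hl
    rcases S.ep_cases l z with e2 | e2 | e2
    · rw [e2] at e1
      exact absurd (neg_eq_zero.1 e1.symm) h2
    · exact ⟨l, hl, rfl, h1, h2, h4, e2⟩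
    · refine ⟨l⁻¹, (S.cur_inv l).2 hl, cls_inv l, ?_, ?_, ?_, ?_⟩
      · rw [S.ep_inv_right x₀ l hx hl]
        exact neg_ne_zero.2 h1
      · rw [S.ep_inv_right z l hz hl]
        exact neg_ne_zero.2 h2
      · rw [S.tw_inv_l l x₀ z hl hx hz]
        exact h4
      · rw [S.ep_inv_left, e2, neg_neg]
  obtain ⟨n0, hn0⟩ := S.tw_cons l' x₀ z hl' hx hz h1' h2' 4 (by exact_mod_cast h4')
  have hfc : f S.c ∈ S.Cur := ⟨f, hf, rfl⟩
  have ez : l' ^ (n0 + 1) * g * f S.c * (l' ^ (n0 + 1) * g)⁻¹ =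
      l' ^ (n0 + 1) * z * (l' ^ (n0 + 1))⁻¹ := by
    rw [hzg]; group
  obtain ⟨s, hs, v, hv, hcl⟩ := F1c_core S x₀ hx f hf F₀ hF₀ l' hl' (l' ^ (n0 + 1) * g) h1'
    (by
      rw [ez]
      have e1 := S.ep_conj (l' ^ (n0 + 1)) l' z hl' hz
      have e2 : l' ^ (n0 + 1) * l' * (l' ^ (n0 + 1))⁻¹ = l' := by group
      rw [e2] at e1
      rw [e1, hpos])
    (by
      intro n hn1 hn2
      rw [ez]
      obtain ⟨j, hj⟩ := Int.eq_ofNat_of_zero_le (show 0 ≤ n + 1 by omega)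
      have hj4 : j < 4 := by omega
      have e1 := hn0 j hj4
      have e2 : l' ^ n * (l' ^ (n0 + 1) * z * (l' ^ (n0 + 1))⁻¹) * l' ^ (-n) =
          l' ^ (n0 + j) * z * l' ^ (-(n0 + j)) := by
        have e3 : (n0 + j : ℤ) = n + (n0 + 1) := by omega
        rw [e3]; group
      rw [e2]
      exact e1)
  rw [Set.mem_iUnion₂]
  refine ⟨s, hs, v, hv, ?_⟩
  change cls (f (s⁻¹ * v * s)) = cls l
  rw [← hcl, hcls]

end Surf

end Pool.Agent.Lib.MP_6a1159_al.BS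
end

section

/-! F1: see the imported files. -/
end

section

/-! Y1a: the classes of curves, and the sets of twisting numbers of classes. -/

set_option autoImplicit false

open Filter

namespace Pool.Agent.Lib.MP_6a1159_al.BS

namespace Surf

variable {P : Type} [Group P] {G : Subgroup (MulAut P)} (S : Surf P G)

/-- The action of `G` on the classes. PROOF: `f • cls x = f '' cls x = cls (f x)` (`cls_map`,
`cur_map`); inner automorphisms act trivially (`cls_conj`). -/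
theorem exists_act : ∃ ρ : G →* Equiv.Perm S.YY, (∀ f : G, ∀ X : S.YY,
      (ρ f X).1 = (f : MulAut P) '' X.1) ∧
    ∀ g : P, ρ ⟨MulAut.conj g, S.conj_mem g⟩ = 1 := by
  let φ : G → S.YY → S.YY := fun f X => ⟨(f : MulAut P) '' X.1, by
    obtain ⟨x, hx, hX⟩ := X.2
    exact ⟨(f : MulAut P) x, (S.cur_map f f.2 x).2 hx, by rw [hX, cls_map]⟩⟩
  have hφ : ∀ f X, (φ f X).1 = (f : MulAut P) '' X.1 := fun f X => rfl
  have h1 : ∀ X, φ 1 X = X := by
    intro X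
    refine Subtype.ext ?_
    rw [hφ]
    change (fun x => x) '' X.1 = X.1
    exact Set.image_id' X.1
  have hm : ∀ f g X, φ (f * g) X = φ f (φ g X) := by
    intro f g X
    refine Subtype.ext ?_
    rw [hφ, hφ, hφ, Set.image_image]
    rfl
  refine ⟨{ toFun := fun f => ⟨φ f, φ f⁻¹, fun X => ?_, fun X => ?_⟩
            map_one' := ?_
            map_mul' := ?_ }, fun f X => rfl, ?_⟩
  · rw [← hm, inv_mul_cancel, h1]
  · rw [← hm, mul_inv_cancel, h1]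
  · exact Equiv.ext fun X => h1 X
  · exact fun f g => Equiv.ext fun X => hm f g X
  · intro g
    refine Equiv.ext fun X => Subtype.ext ?_
    change (MulAut.conj g) '' X.1 = X.1
    obtain ⟨x, hx, hX⟩ := X.2
    rw [hX, cls_map, MulAut.conj_apply, cls_conj]

/-- PROOF: elements of a class are conjugate to `x` or `x⁻¹`, `cur_conj`, `cur_inv`. -/
theorem yy_cur (X : S.YY) (x : P) (hx : x ∈ X.1) : x ∈ S.Cur := by
  obtain ⟨x₀, hx₀, hX⟩ := X.2
  rw [hX] at hx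
  obtain ⟨g, hg | hg⟩ := hx
  · rw [hg]
    exact (S.cur_conj g x₀).2 hx₀
  · rw [hg]
    exact (S.cur_conj g x₀⁻¹).2 ((S.cur_inv x₀).2 hx₀)

/-- PROOF: `cls_eq`: `X = cls x = Y`. -/
theorem yy_eq (X Y : S.YY) (x : P) (hx : x ∈ X.1) (hy : x ∈ Y.1) : X = Y := by
  refine Subtype.ext ?_
  obtain ⟨x₀, -, hX⟩ := X.2
  obtain ⟨y₀, -, hY⟩ := Y.2
  have h1 : x ∈ cls x₀ := hX ▸ hx
  have h2 : x ∈ cls y₀ := hY ▸ hy
  rw [hX, hY, ← cls_eq x₀ x h1, ← cls_eq y₀ x h2]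

/-- Different classes cross: for every `l ∈ Z` there is `x ∈ X` which crosses `l`. PROOF: let
`f := (rep l)⁻¹`, so `f l = c`, and `x₀ ∈ X`, `h := f * rep x₀ ∈ G`, `h c = f x₀`. If
`eps (g * h c * g⁻¹) = 0` for all `g` then by `cross` `f x₀ = g * c * g⁻¹` or `g * c⁻¹ * g⁻¹`, so
`x₀ = g' * l * g'⁻¹` or `g' * l⁻¹ * g'⁻¹` with `g' = f⁻¹ g`, `x₀ ∈ cls l = Z`, `X = Z` by `yy_eq`. So
there is `g` with `eps (g * f x₀ * g⁻¹) ≠ 0`; `x := f⁻¹ (g * f x₀ * g⁻¹) = f⁻¹ g * x₀ * (f⁻¹ g)⁻¹ ∈ X` and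
`ep x l = ep (f x) c = eps (f x) ≠ 0`. -/
theorem yy_cross (X Z : S.YY) (h : X ≠ Z) (l : P) (hl : l ∈ Z.1) : ∃ x ∈ X.1, S.ep x l ≠ 0 := by
  have hlc : l ∈ S.Cur := S.yy_cur Z l hl
  obtain ⟨x₀, hx₀, hX⟩ := X.2
  obtain ⟨hr1, hr2⟩ := S.rep_spec l hlc
  obtain ⟨hs1, hs2⟩ := S.rep_spec x₀ hx₀
  have hZ : Z.1 = cls l := by
    obtain ⟨z₀, -, hZ⟩ := Z.2
    have h2 : l ∈ cls z₀ := hZ ▸ hl
    rw [hZ, cls_eq z₀ l h2]
  have hmem : (S.rep l)⁻¹ * S.rep x₀ ∈ G := G.mul_mem (G.inv_mem hr1) hs1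
  have hval : ((S.rep l)⁻¹ * S.rep x₀) S.c = (S.rep l)⁻¹ x₀ := by
    rw [MulAut.mul_apply, hs2]
  have hinv : ∀ y, S.rep l ((S.rep l)⁻¹ y) = y := fun y => MulAut.apply_inv_self P (S.rep l) y
  have hinv' : ∀ y, (S.rep l)⁻¹ (S.rep l y) = y := fun y => MulAut.inv_apply_self P (S.rep l) y
  by_cases h0 : ∀ g, S.eps (g * ((S.rep l)⁻¹ * S.rep x₀) S.c * g⁻¹) = 0
  · exfalso
    obtain ⟨g, hg⟩ := S.cross _ hmem h0
    rw [hval] at hg
    apply h
    have hx0Z : x₀ ∈ Z.1 := by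
      rw [hZ]
      refine ⟨S.rep l g, ?_⟩
      rcases hg with hg | hg
      · left
        have h3 := congrArg (S.rep l) hg
        rw [hinv, map_mul, map_mul, map_inv, hr2] at h3
        exact h3
      · right
        have h3 := congrArg (S.rep l) hg
        rw [hinv, map_mul, map_mul, map_inv, map_inv, hr2] at h3
        exact h3
    have hx0X : x₀ ∈ X.1 := by
      rw [hX]
      exact cls_self x₀
    exact S.yy_eq X Z x₀ hx0X hx0Z
  · push Not at h0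
    obtain ⟨g, hg⟩ := h0
    rw [hval] at hg
    refine ⟨S.rep l g * x₀ * (S.rep l g)⁻¹, ?_, ?_⟩
    · rw [hX]
      exact ⟨S.rep l g, Or.inl rfl⟩
    · unfold ep
      rw [map_mul, map_mul, map_inv, hinv']
      exact hg

/-- PROOF: `yy_cross` for some `l ∈ Z`. -/
theorem tset_nonempty (Z X W : S.YY) (hX : X ≠ Z) (hW : W ≠ Z) :
    (S.Tset Z.1 X.1 W.1).Nonempty := by
  obtain ⟨l, hlc, hZ⟩ := Z.2
  have hl : l ∈ Z.1 := by
    rw [hZ]
    exact cls_self l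
  obtain ⟨x, hx, hxl⟩ := S.yy_cross X Z hX l hl
  obtain ⟨w, hw, hwl⟩ := S.yy_cross W Z hW l hl
  exact ⟨S.tw l x w, l, hl, x, hx, w, hw, hlc, S.yy_cur X x hx, S.yy_cur W w hw, hxl, hwl, rfl⟩

end Surf

end Pool.Agent.Lib.MP_6a1159_al.BS
end

section

/-! Y1b: the classes of curves, and the sets of twisting numbers of classes. -/

set_option autoImplicit false

open Filter

namespace Pool.Agent.Lib.MP_6a1159_al.BS

namespace Surf

variable {P : Type} [Group P] {G : Subgroup (MulAut P)} (S : Surf P G)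

private theorem Y1b_mem (X : S.YY) {x x' : P} (hx : x ∈ X.1) (hx' : x' ∈ X.1) : x' ∈ cls x := by
  obtain ⟨x0, _, h0⟩ := X.2
  have h1 : X.1 = cls x := by
    rw [h0] at hx
    rw [h0, cls_eq x0 x hx]
  rw [← h1]
  exact hx'

private theorem Y1b_conj (X : S.YY) {x : P} (hx : x ∈ X.1) (g : P) : g * x * g⁻¹ ∈ X.1 := by
  obtain ⟨x0, _, h0⟩ := X.2
  have h1 : X.1 = cls x := by
    rw [h0] at hx
    rw [h0, cls_eq x0 x hx]
  rw [h1]
  exact ⟨g, Or.inl rfl⟩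

/-- moving the base curve of a twisting number to `l` -/
private theorem Y1b_move (Z X W : S.YY) (l : P) (hl : l ∈ Z.1) (hlc : l ∈ S.Cur) (n : ℤ)
    (hn : n ∈ S.Tset Z.1 X.1 W.1) : ∃ x ∈ X.1, ∃ w ∈ W.1, x ∈ S.Cur ∧ w ∈ S.Cur ∧
      S.ep x l ≠ 0 ∧ S.ep w l ≠ 0 ∧ n = S.tw l x w := by
  obtain ⟨l', hl', x, hx, w, hw, hlc', hxc, hwc, h1, h2, h3⟩ := hn
  obtain ⟨g, hg⟩ := Y1b_mem S Z hl hl'
  have ex : g * (g⁻¹ * x * g⁻¹⁻¹) * g⁻¹ = x := by group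
  have ew : g * (g⁻¹ * w * g⁻¹⁻¹) * g⁻¹ = w := by group
  have hxc' : g⁻¹ * x * g⁻¹⁻¹ ∈ S.Cur := (S.cur_conj g⁻¹ x).2 hxc
  have hwc' : g⁻¹ * w * g⁻¹⁻¹ ∈ S.Cur := (S.cur_conj g⁻¹ w).2 hwc
  have hlci : l⁻¹ ∈ S.Cur := (S.cur_inv l).2 hlc
  refine ⟨g⁻¹ * x * g⁻¹⁻¹, Y1b_conj S X hx _, g⁻¹ * w * g⁻¹⁻¹, Y1b_conj S W hw _, hxc', hwc', ?_⟩
  rcases hg with hg | hg
  · have a1 := S.ep_conj g (g⁻¹ * x * g⁻¹⁻¹) l hxc' hlc
    have a2 := S.ep_conj g (g⁻¹ * w * g⁻¹⁻¹) l hwc' hlc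
    have a3 := S.tw_conj g l (g⁻¹ * x * g⁻¹⁻¹) (g⁻¹ * w * g⁻¹⁻¹) hlc hxc' hwc'
    rw [ex, ← hg] at a1
    rw [ew, ← hg] at a2
    rw [ex, ew, ← hg] at a3
    refine ⟨?_, ?_, ?_⟩
    · rw [← a1]
      exact h1
    · rw [← a2]
      exact h2
    · rw [← a3]
      exact h3
  · have a1 := S.ep_conj g (g⁻¹ * x * g⁻¹⁻¹) l⁻¹ hxc' hlci
    have a2 := S.ep_conj g (g⁻¹ * w * g⁻¹⁻¹) l⁻¹ hwc' hlci
    have a3 := S.tw_conj g l⁻¹ (g⁻¹ * x * g⁻¹⁻¹) (g⁻¹ * w * g⁻¹⁻¹) hlci hxc' hwc'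
    rw [ex, ← hg, S.ep_inv_right _ l hxc' hlc] at a1
    rw [ew, ← hg, S.ep_inv_right _ l hwc' hlc] at a2
    rw [ex, ew, ← hg, S.tw_inv_l l _ _ hlc hxc' hwc'] at a3
    refine ⟨?_, ?_, ?_⟩
    · intro h
      rw [h, neg_zero] at a1
      exact h1 a1
    · intro h
      rw [h, neg_zero] at a2
      exact h2 a2
    · rw [← a3]
      exact h3

/-- PROOF: let `n = tw l x w`, `n' = tw l' x' w'`. `l' = g * l * g⁻¹` or `g * l⁻¹ * g⁻¹`; conjugating
`l', x', w'` by `g⁻¹` (`tw_conj`, `ep_conj`) and `tw_inv_l` (`ep_inv_right`) we may assume `l' = l`. By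
`tw_coc` twice and `tw_same` (`tw l x x' = 0`, `tw l w' w = 0`):
`|tw l x w - tw l x x' - tw l x' w| ≤ 1` and `|tw l x' w - tw l x' w' - tw l w' w| ≤ 1`. -/
theorem tset_diam (Z X W : S.YY) (n n' : ℤ) (hn : n ∈ S.Tset Z.1 X.1 W.1)
    (hn' : n' ∈ S.Tset Z.1 X.1 W.1) : |n - n'| ≤ 2 := by
  obtain ⟨l, hl, x, hx, w, hw, hlc, hxc, hwc, h1, h2, h3⟩ := hn
  obtain ⟨x', hx', w', hw', hxc', hwc', h1', h2', h3'⟩ := Y1b_move S Z X W l hl hlc n' hn'
  have a1 := S.tw_coc l x x' w hlc hxc hxc' hwc h1 h1' h2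
  have a2 := S.tw_coc l x' w' w hlc hxc' hwc' hwc h1' h2' h2
  rw [S.tw_same l x x' hxc (Y1b_mem S X hx hx'), ← h3] at a1
  rw [S.tw_same l w' w hwc' (Y1b_mem S W hw' hw), ← h3'] at a2
  rw [abs_le] at a1 a2 ⊢
  omega

/-- PROOF: `tw_anti`. -/
theorem tset_anti (Z X W : S.YY) : S.Tset Z.1 W.1 X.1 = (fun n => -n) '' S.Tset Z.1 X.1 W.1 := by
  ext n
  constructor
  · rintro ⟨l, hl, w, hw, x, hx, hlc, hwc, hxc, h1, h2, h3⟩
    exact ⟨S.tw l x w, ⟨l, hl, x, hx, w, hw, hlc, hxc, hwc, h2, h1, rfl⟩, by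
      change - S.tw l x w = n
      rw [h3, S.tw_anti l x w hlc hxc hwc h2 h1]⟩
  · rintro ⟨m, ⟨l, hl, x, hx, w, hw, hlc, hxc, hwc, h1, h2, h3⟩, hm⟩
    refine ⟨l, hl, w, hw, x, hx, hlc, hwc, hxc, h2, h1, ?_⟩
    have hm' : - m = n := hm
    rw [S.tw_anti l x w hlc hxc hwc h1 h2, ← h3, hm']

/-- PROOF: `tw_map`, `ep_map`, `cur_map` for `f` and for `f⁻¹`. -/
theorem tset_map (f : MulAut P) (hf : f ∈ G) (Z X W : S.YY) :
    S.Tset (f '' Z.1) (f '' X.1) (f '' W.1) = S.Tset Z.1 X.1 W.1 := by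
  ext n
  constructor
  · rintro ⟨_, ⟨l, hl, rfl⟩, _, ⟨x, hx, rfl⟩, _, ⟨w, hw, rfl⟩, hlc, hxc, hwc, h1, h2, h3⟩
    have hlc' := (S.cur_map f hf l).1 hlc
    have hxc' := (S.cur_map f hf x).1 hxc
    have hwc' := (S.cur_map f hf w).1 hwc
    refine ⟨l, hl, x, hx, w, hw, hlc', hxc', hwc', ?_, ?_, ?_⟩
    · rw [← S.ep_map f hf x l hxc' hlc']
      exact h1
    · rw [← S.ep_map f hf w l hwc' hlc']
      exact h2
    · rw [h3, S.tw_map f hf l x w hlc' hxc' hwc']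
  · rintro ⟨l, hl, x, hx, w, hw, hlc, hxc, hwc, h1, h2, h3⟩
    refine ⟨f l, ⟨l, hl, rfl⟩, f x, ⟨x, hx, rfl⟩, f w, ⟨w, hw, rfl⟩, (S.cur_map f hf l).2 hlc,
      (S.cur_map f hf x).2 hxc, (S.cur_map f hf w).2 hwc, ?_, ?_, ?_⟩
    · rw [S.ep_map f hf x l hxc hlc]
      exact h1
    · rw [S.ep_map f hf w l hwc hlc]
      exact h2
    · rw [S.tw_map f hf l x w hlc hxc hwc]
      exact h3

end Surf

end Pool.Agent.Lib.MP_6a1159_al.BS
end

section

/-! Y1: see the imported files. -/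
end

section

/-! Y2a: the twisting numbers of classes. -/

set_option autoImplicit false

open Filter

namespace Pool.Agent.Lib.MP_6a1159_al.BS

namespace Surf

variable {P : Type} [Group P] {G : Subgroup (MulAut P)} (S : Surf P G)

private theorem Y2a_bdd (Z X W : S.YY) (n : ℤ) (hn : n ∈ S.Tset Z.1 X.1 W.1) :
    BddAbove (S.Tset Z.1 X.1 W.1) ∧ BddBelow (S.Tset Z.1 X.1 W.1) := by
  refine ⟨⟨n + 2, fun m hm => ?_⟩, ⟨n - 2, fun m hm => ?_⟩⟩
  · have h := abs_le.1 (S.tset_diam Z X W n m hn hm)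
    linarith [h.1]
  · have h := abs_le.1 (S.tset_diam Z X W n m hn hm)
    linarith [h.2]

/-- PROOF: the set `T` is not empty (it contains `n`) and of diameter at most `2` (`tset_diam`), so
bounded: `sSup T` and `sInf T` are in `T` (`Int.csSup_mem`, `Int.csInf_mem`), `sInf T ≤ n ≤ sSup T ≤
sInf T + 2`; so `|sSup T + sInf T - 2 n| ≤ 2`. -/
theorem tau_near (Z X W : S.YY) (n : ℤ) (hn : n ∈ S.Tset Z.1 X.1 W.1) :
    |S.tau Z X W - 2 * n| ≤ 2 := by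
  obtain ⟨hA, hB⟩ := S.Y2a_bdd Z X W n hn
  have h1 : sSup (S.Tset Z.1 X.1 W.1) ∈ S.Tset Z.1 X.1 W.1 := Int.csSup_mem ⟨n, hn⟩ hA
  have h2 : sInf (S.Tset Z.1 X.1 W.1) ∈ S.Tset Z.1 X.1 W.1 := Int.csInf_mem ⟨n, hn⟩ hB
  have h3 : n ≤ sSup (S.Tset Z.1 X.1 W.1) := le_csSup hA hn
  have h4 : sInf (S.Tset Z.1 X.1 W.1) ≤ n := csInf_le hB hn
  have h5 := abs_le.1 (S.tset_diam Z X W _ _ h1 h2)
  unfold tau
  rw [abs_le]
  constructor <;> linarith [h5.1, h5.2]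

/-- PROOF: `tset_anti` and, for the bounded nonempty set `T` of integers, `sSup (-T) = - sInf T`,
`sInf (-T) = - sSup T` (if `T` is empty all are `0`; it is bounded by `tset_diam`). -/
theorem tau_anti (Z X W : S.YY) : S.tau Z W X = - S.tau Z X W := by
  have hT := S.tset_anti Z X W
  unfold tau
  rw [hT]
  rcases Set.eq_empty_or_nonempty (S.Tset Z.1 X.1 W.1) with he | ⟨n, hn⟩
  · rw [he, Set.image_empty, Int.csSup_empty, Int.csInf_empty]
    rfl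
  · obtain ⟨hA, hB⟩ := S.Y2a_bdd Z X W n hn
    have h1 : sSup (S.Tset Z.1 X.1 W.1) ∈ S.Tset Z.1 X.1 W.1 := Int.csSup_mem ⟨n, hn⟩ hA
    have h2 : sInf (S.Tset Z.1 X.1 W.1) ∈ S.Tset Z.1 X.1 W.1 := Int.csInf_mem ⟨n, hn⟩ hB
    have h3 : IsGreatest ((fun n => -n) '' S.Tset Z.1 X.1 W.1) (-sInf (S.Tset Z.1 X.1 W.1)) :=
      ⟨⟨_, h2, rfl⟩, by
        rintro _ ⟨m, hm, rfl⟩
        exact neg_le_neg (csInf_le hB hm)⟩
    have h4 : IsLeast ((fun n => -n) '' S.Tset Z.1 X.1 W.1) (-sSup (S.Tset Z.1 X.1 W.1)) :=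
      ⟨⟨_, h1, rfl⟩, by
        rintro _ ⟨m, hm, rfl⟩
        exact neg_le_neg (le_csSup hA hm)⟩
    rw [h3.csSup_eq, h4.csInf_eq]
    ring

/-- PROOF: `tset_map`. -/
theorem tau_map (ρ : G →* Equiv.Perm S.YY)
    (hρ : ∀ f : G, ∀ X : S.YY, (ρ f X).1 = (f : MulAut P) '' X.1) (f : G) (Z X W : S.YY) :
    S.tau (ρ f Z) (ρ f X) (ρ f W) = S.tau Z X W := by
  unfold tau
  rw [hρ f Z, hρ f X, hρ f W, S.tset_map (f : MulAut P) f.2 Z X W]

end Surf

end Pool.Agent.Lib.MP_6a1159_al.BS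
end

section

/-! Y2b: the twisting numbers of classes. -/

set_option autoImplicit false

open Filter

namespace Pool.Agent.Lib.MP_6a1159_al.BS

namespace Surf

variable {P : Type} [Group P] {G : Subgroup (MulAut P)} (S : Surf P G)

private theorem y2b_ne (Z : S.YY) : ∃ l, l ∈ Z.1 := by
  obtain ⟨x, -, h⟩ := Z.2
  exact ⟨x, by rw [h]; exact cls_self x⟩

private theorem y2b_cls (Z : S.YY) (l : P) (hl : l ∈ Z.1) : Z.1 = cls l := by
  obtain ⟨x, -, h⟩ := Z.2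
  rw [h] at hl ⊢
  exact (cls_eq x l hl).symm

private theorem y2b_conj (Z : S.YY) (l g : P) (hl : l ∈ Z.1) : g * l * g⁻¹ ∈ Z.1 := by
  rw [y2b_cls S Z l hl]
  exact ⟨g, Or.inl rfl⟩

private theorem y2b_mem (Z X W : S.YY) (l x w : P) (hl : l ∈ Z.1) (hx : x ∈ X.1) (hw : w ∈ W.1)
    (h1 : S.ep x l ≠ 0) (h2 : S.ep w l ≠ 0) : S.tw l x w ∈ S.Tset Z.1 X.1 W.1 :=
  ⟨l, hl, x, hx, w, hw, S.yy_cur Z l hl, S.yy_cur X x hx, S.yy_cur W w hw, h1, h2, rfl⟩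

/-- PROOF: choose `l ∈ Z` and `x ∈ X`, `v ∈ V`, `w ∈ W` crossing `l` (`yy_cross`); then `tw_coc` and
`tau_near` three times: `2 * 1 + 2 + 2 + 2 = 8`. -/
theorem tau_coc (Z X V W : S.YY) (hX : X ≠ Z) (hV : V ≠ Z) (hW : W ≠ Z) :
    |S.tau Z X W - S.tau Z X V - S.tau Z V W| ≤ 8 := by
  obtain ⟨l, hl⟩ := y2b_ne S Z
  obtain ⟨x, hx, hxl⟩ := S.yy_cross X Z hX l hl
  obtain ⟨v, hv, hvl⟩ := S.yy_cross V Z hV l hl
  obtain ⟨w, hw, hwl⟩ := S.yy_cross W Z hW l hl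
  have h1 := S.tau_near Z X W _ (y2b_mem S Z X W l x w hl hx hw hxl hwl)
  have h2 := S.tau_near Z X V _ (y2b_mem S Z X V l x v hl hx hv hxl hvl)
  have h3 := S.tau_near Z V W _ (y2b_mem S Z V W l v w hl hv hw hvl hwl)
  have h4 := S.tw_coc l x v w (S.yy_cur Z l hl) (S.yy_cur X x hx) (S.yy_cur V v hv)
    (S.yy_cur W w hw) hxl hvl hwl
  rw [abs_le] at *
  constructor <;> linarith [h1.1, h1.2, h2.1, h2.2, h3.1, h3.2, h4.1, h4.2]

/-- PROOF: choose `l ∈ Y`, `x ∈ X`, `z ∈ Z` crossing `l`. By `tau_near` `|2 * tw l x z| ≥ 8`, so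
`|tw l x z| ≥ 4`. `behr` gives `z' := l ^ n * z * l ^ (-n) ∈ Z` with `|tw z' x l| ≤ 1`, and
`tw z' x l ∈ Tset Z X Y`, so `|tau Z X Y| ≤ 2 + 2 = 4` by `tau_near`. -/
theorem tau_behr (X Y Z : S.YY) (hXY : X ≠ Y) (hYZ : Y ≠ Z) (hXZ : X ≠ Z)
    (h : 10 ≤ |S.tau Y X Z|) : |S.tau Z X Y| ≤ 4 := by
  obtain ⟨l, hl⟩ := y2b_ne S Y
  obtain ⟨x, hx, hxl⟩ := S.yy_cross X Y hXY l hl
  obtain ⟨z, hz, hzl⟩ := S.yy_cross Z Y hYZ.symm l hl
  have h1 := S.tau_near Y X Z _ (y2b_mem S Y X Z l x z hl hx hz hxl hzl)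
  have h3 : 3 ≤ |S.tw l x z| := by
    have e1 : |S.tau Y X Z| ≤ |S.tau Y X Z - 2 * S.tw l x z| + |2 * S.tw l x z| := by
      have := abs_add_le (S.tau Y X Z - 2 * S.tw l x z) (2 * S.tw l x z)
      simpa using this
    have e2 : |2 * S.tw l x z| = 2 * |S.tw l x z| := by
      rw [abs_mul]
      norm_num
    rw [e2] at e1
    omega
  obtain ⟨n, hn1, hn2, hn3⟩ := S.behr l x z (S.yy_cur Y l hl) (S.yy_cur X x hx)
    (S.yy_cur Z z hz) hxl hzl h3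
  have hz' : l ^ n * z * l ^ (-n) ∈ Z.1 := by
    rw [zpow_neg]
    exact y2b_conj S Z z (l ^ n) hz
  have h4 := S.tau_near Z X Y _ (y2b_mem S Z X Y (l ^ n * z * l ^ (-n)) x l hz' hx hl hn1 hn2)
  rw [abs_le] at *
  constructor <;> linarith [h4.1, h4.2, hn3.1, hn3.2]

/-- PROOF: let `x₀ ∈ X`, `Z = cls (f c)` with `f ∈ G`. For `Y` in the set choose `l ∈ Y` which crosses
`x₀` (`yy_cross` and `ep_anti`), and `z ∈ Z` which crosses `l`. `tau_near`: `|tw l x₀ z| ≥ 4`. So `Y.1`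
is in the finite set of `finTw x₀ f`; `Subtype.val` is injective. -/
theorem tau_fin (X Z : S.YY) (h : X ≠ Z) :
    {Y : S.YY | Y ≠ X ∧ Y ≠ Z ∧ 10 ≤ |S.tau Y X Z|}.Finite := by
  obtain ⟨x₀, hx₀⟩ := y2b_ne S X
  obtain ⟨z₀, ⟨f, hf, hfz⟩, hZ⟩ := Z.2
  have hfin := S.finTw x₀ (S.yy_cur X x₀ hx₀) f hf
  refine (hfin.preimage (f := (Subtype.val : S.YY → Set P))
    (Subtype.val_injective.injOn)).subset ?_
  rintro Y ⟨hYX, hYZ, hY⟩
  obtain ⟨l, hl, hlx⟩ := S.yy_cross Y X hYX x₀ hx₀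
  obtain ⟨z, hz, hzl⟩ := S.yy_cross Z Y (Ne.symm hYZ) l hl
  have hxl : S.ep x₀ l ≠ 0 := by
    rw [S.ep_anti l x₀ (S.yy_cur Y l hl) (S.yy_cur X x₀ hx₀)]
    exact neg_ne_zero.2 hlx
  have h1 := S.tau_near Y X Z _ (y2b_mem S Y X Z l x₀ z hl hx₀ hz hxl hzl)
  have h3 : 4 ≤ |S.tw l x₀ z| := by
    have e1 : |S.tau Y X Z| ≤ |S.tau Y X Z - 2 * S.tw l x₀ z| + |2 * S.tw l x₀ z| := by
      have := abs_add_le (S.tau Y X Z - 2 * S.tw l x₀ z) (2 * S.tw l x₀ z)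
      simpa using this
    have e2 : |2 * S.tw l x₀ z| = 2 * |S.tw l x₀ z| := by
      rw [abs_mul]
      norm_num
    rw [e2] at e1
    omega
  refine ⟨l, S.yy_cur Y l hl, y2b_cls S Y l hl, z, S.yy_cur Z z hz, ?_, hxl, hzl, h3⟩
  rw [hfz, ← hZ]
  exact hz

end Surf

end Pool.Agent.Lib.MP_6a1159_al.BS
end

section

/-! Y2: see the imported files. -/
end

section

/-! Y3: the main theorem for abstract surface data. -/

set_option autoImplicit false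

open scoped ENNReal
open Filter

namespace Pool.Agent.Lib.MP_6a1159_al.BS

namespace Surf

variable {P : Type} [Group P] {G : Subgroup (MulAut P)} (S : Surf P G)

/-- PROOF: `tau_anti`, `tau_coc`, `tau_behr`, `tau_fin`. -/
theorem tw_tau : TW S.YY S.tau where
  anti Z X W := S.tau_anti Z X W
  coc Z X V W hX hV hW := S.tau_coc Z X V W hX hV hW
  behr X Y Z h1 h2 h3 h := S.tau_behr X Y Z h1 h2 h3 h
  fin X Z h := S.tau_fin X Z h

/-- PROOF. Let `ρ₀ : G →* Equiv.Perm S.YY` be as in `exists_act`; it is trivial on `N` (`hN`: the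
elements of `N` are inner, `⟨conj g, _⟩`), so it induces `ρ : G ⧸ N →* Equiv.Perm S.YY`
(`QuotientGroup.lift`). Let `b₀ := cls c`, `b₁ := cls (f c)` as elements of `S.YY`; `b₀ ≠ b₁` because
`ep (f c) c = 1` (`growth`) while `ep c' c = 0` for `c' ∈ cls c` (`ep_same`, `ep_anti`, `ep_inv_left`;
`cls_self`). `tau_map` gives the invariance, `qm` gives `Φ : G ⧸ N → ℤ`. Let `x := mk ⟨t, ht⟩`.
`t c = c` (`c ∈ B`), so `ρ (x ^ k) b₀ = cls ((t ^ k) c) = b₀`, and `ρ (x ^ k) b₁ = cls ((t ^ k) (f c))`. So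
`|Φ (x ^ k) - 2 * tau b₀ b₁ (ρ (x ^ k) b₁)| ≤ 400`. The number `n := tw c (f c) ((t ^ k) (f c))` is in
`Tset b₀ b₁ (ρ (x ^ k) b₁)` (`growth`), `|n| = |tw c ((t ^ k) (f c)) (f c)| ≥ k - 1` (`tw_anti`,
`growth`), and `|tau - 2 n| ≤ 2` (`tau_near`). So `|Φ (x ^ k)| ≥ 4 (k - 1) - 4 - 400 = 4 k - 408`.
`scl_ge` with `a = 4`, `b = 408`, `D = 10944`: `4 / (4 * 10944) = 1 / 10944`. -/
theorem main (N : Subgroup G) [N.Normal]
    (hN : ∀ g : G, g ∈ N → ∃ p : P, (g : MulAut P) = MulAut.conj p)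
    (t : MulAut P) (ht : t ∈ G) (htB : ∀ b ∈ S.B, t b = b)
    (htA : ∀ a ∈ S.A, t a = S.c * a * S.c⁻¹) (f : MulAut P) (hf : f ∈ G) (b a : P)
    (hb : b ∈ S.B) (hb' : b ∉ Subgroup.zpowers S.c) (ha : a ∈ S.A)
    (ha' : a ∉ Subgroup.zpowers S.c) (hfc : f S.c = b * a) :
    (1 : ℝ≥0∞) / 10944 ≤ stableCL (QuotientGroup.mk (⟨t, ht⟩ : G) : G ⧸ N) := by
  obtain ⟨ρ₀, hρ₀, hin⟩ := S.exists_act
  have hker : N ≤ ρ₀.ker := by
    intro g hg
    obtain ⟨p, hp⟩ := hN g hg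
    rw [MonoidHom.mem_ker]
    have : g = ⟨MulAut.conj p, S.conj_mem p⟩ := Subtype.ext hp
    rw [this, hin]
  have hgr := S.growth t ht htB htA f hf b a hb hb' ha ha' hfc
  have hfcur : f S.c ∈ S.Cur := ⟨f, hf, rfl⟩
  have hccur : S.c ∈ S.Cur := S.c_cur
  let b₀ : S.YY := ⟨cls S.c, S.c, hccur, rfl⟩
  let b₁ : S.YY := ⟨cls (f S.c), f S.c, hfcur, rfl⟩
  have hne : b₀ ≠ b₁ := by
    intro h
    have h1 : f S.c ∈ cls S.c := by
      have h2 : cls S.c = cls (f S.c) := congrArg Subtype.val h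
      rw [h2]
      exact cls_self _
    have h3 := (hgr 0).1
    obtain ⟨g, hg | hg⟩ := h1
    · rw [hg] at h3
      have h4 := S.ep_same S.c g hccur
      have h5 := S.ep_anti S.c (g * S.c * g⁻¹) hccur (by rw [← hg]; exact hfcur)
      omega
    · have e : g * S.c⁻¹ * g⁻¹ = (g * S.c * g⁻¹)⁻¹ := by group
      have hc' : g * S.c * g⁻¹ ∈ S.Cur := (S.cur_conj g S.c).2 hccur
      rw [hg, e, S.ep_inv_left] at h3
      have h4 := S.ep_same S.c g hccur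
      have h5 := S.ep_anti S.c (g * S.c * g⁻¹) hccur hc'
      omega
  let ρ : G ⧸ N →* Equiv.Perm S.YY := QuotientGroup.lift N ρ₀ hker
  have hρ : ∀ g Z X W, S.tau (ρ g Z) (ρ g X) (ρ g W) = S.tau Z X W := by
    intro g Z X W
    obtain ⟨g, rfl⟩ := QuotientGroup.mk_surjective g
    exact S.tau_map ρ₀ hρ₀ g Z X W
  obtain ⟨Φ, h1, h2, h3⟩ := qm S.tw_tau ρ hρ b₀ b₁ hne
  have htc : t S.c = S.c := htB _ S.c_mem_B
  have htk : ∀ k : ℕ, (t ^ k) S.c = S.c := by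
    intro k
    induction k with
    | zero => rfl
    | succ k ih => rw [pow_succ, MulAut.mul_apply, htc, ih]
  have hx : ∀ k : ℕ, ∀ X : S.YY, (ρ ((QuotientGroup.mk (⟨t, ht⟩ : G) : G ⧸ N) ^ k) X).1 =
      (t ^ k : MulAut P) '' X.1 := by
    intro k X
    have e : (QuotientGroup.mk (⟨t, ht⟩ : G) : G ⧸ N) ^ k =
        QuotientGroup.mk ((⟨t, ht⟩ : G) ^ k) := rfl
    rw [e]
    exact hρ₀ _ X
  have hfix : ∀ k : ℕ, ρ ((QuotientGroup.mk (⟨t, ht⟩ : G) : G ⧸ N) ^ k) b₀ = b₀ := by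
    intro k
    apply Subtype.ext
    rw [hx]
    show (t ^ k : MulAut P) '' cls S.c = cls S.c
    rw [cls_map, htk]
  have key : ∀ k : ℕ, (4 : ℤ) * k - 408 ≤
      |Φ ((QuotientGroup.mk (⟨t, ht⟩ : G) : G ⧸ N) ^ k)| := by
    intro k
    have h4 := h3 _ (hfix k)
    set x := (QuotientGroup.mk (⟨t, ht⟩ : G) : G ⧸ N) ^ k with hxdef
    obtain ⟨g1, g2, g3⟩ := hgr k
    have hcur2 : (t ^ k) (f S.c) ∈ S.Cur := (S.cur_map _ (G.pow_mem ht k) _).2 hfcur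
    have h5 : S.tw S.c (f S.c) ((t ^ k) (f S.c)) ∈ S.Tset b₀.1 b₁.1 (ρ x b₁).1 := by
      refine ⟨S.c, cls_self _, f S.c, cls_self _, (t ^ k) (f S.c), ?_, hccur, hfcur, hcur2,
        ?_, ?_, rfl⟩
      · rw [hxdef, hx]
        exact ⟨f S.c, cls_self _, rfl⟩
      · rw [g1]; exact one_ne_zero
      · rw [g2]; exact one_ne_zero
    have h6 := S.tau_near b₀ b₁ (ρ x b₁) _ h5
    have h7 : S.tw S.c ((t ^ k) (f S.c)) (f S.c) = - S.tw S.c (f S.c) ((t ^ k) (f S.c)) :=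
      S.tw_anti S.c (f S.c) ((t ^ k) (f S.c)) hccur hfcur hcur2 (by rw [g1]; exact one_ne_zero)
        (by rw [g2]; exact one_ne_zero)
    rw [h7, abs_neg] at g3
    rcases abs_cases (S.tw S.c (f S.c) ((t ^ k) (f S.c))) with ⟨a1, a2⟩ | ⟨a1, a2⟩ <;>
    rcases abs_cases (Φ x) with ⟨a3, a4⟩ | ⟨a3, a4⟩ <;>
    rw [abs_le] at h4 h6 <;> omega
  have h8 := scl_ge (QuotientGroup.mk (⟨t, ht⟩ : G) : G ⧸ N) Φ 10944 (by norm_num) h1
    (by exact_mod_cast h2) 4 408 (by exact_mod_cast key)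
  refine le_trans (le_of_eq ?_) h8
  rw [ENNReal.div_eq_div_iff] <;> norm_num

end Surf

end Pool.Agent.Lib.MP_6a1159_al.BS
end

section

/-! K8a: the surface group satisfies the abstract properties, and the final theorem. -/

set_option autoImplicit false

open scoped ENNReal
open Filter

namespace Pool.Agent.Lib.MP_6a1159_al.BS

private theorem K8a_ind_pos (p : Prop) (h : p) : ind p = 1 := by
  simp [ind, h]

private theorem K8a_ind_neg (p : Prop) (h : ¬ p) : ind p = 0 := by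
  simp [ind, h]

private theorem K8a_cF {n : ℕ} (f : FreeGroup (Fin n × Bool) →* Multiplicative ℤ) :
    f (cF n) = 1 := by
  unfold cF relator
  rw [map_list_prod, List.map_map]
  apply List.prod_eq_one
  intro x hx
  obtain ⟨i, _, rfl⟩ := List.mem_map.1 hx
  simp only [Function.comp_apply, map_mul, map_inv]
  rw [mul_comm (f (fa i)) (f (fb i))]
  group

/-- The generator `a_0` is not a power of the boundary word. -/
private theorem K8a_ne (n : ℕ) (hn : 1 ≤ n) : fa (⟨0, hn⟩ : Fin n) ∉ Subgroup.zpowers (cF n) := by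
  intro h
  obtain ⟨k, hk⟩ := Subgroup.mem_zpowers_iff.1 h
  let f : FreeGroup (Fin n × Bool) →* Multiplicative ℤ :=
    FreeGroup.lift fun _ => Multiplicative.ofAdd (1 : ℤ)
  have h1 : f (fa (⟨0, hn⟩ : Fin n)) = Multiplicative.ofAdd (1 : ℤ) := by
    simp only [f, fa, FreeGroup.lift_apply_of]
  have h2 : f (fa (⟨0, hn⟩ : Fin n)) = 1 := by
    rw [← hk, map_zpow, K8a_cF, one_zpow]
  rw [h1] at h2
  exact one_ne_zero (Multiplicative.ofAdd.injective (h2.trans ofAdd_zero.symm))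

private theorem K8a_mem (n : ℕ) (w : FreeGroup (Fin n × Bool)) :
    iA n w ∈ Subgroup.zpowers (cc n) ↔ w ∈ Subgroup.zpowers (cF n) := by
  constructor
  · intro h
    obtain ⟨k, hk⟩ := Subgroup.mem_zpowers_iff.1 h
    rw [← iA_cF, ← map_zpow] at hk
    exact Subgroup.mem_zpowers_iff.2 ⟨k, iA_inj n hk⟩
  · intro h
    obtain ⟨k, hk⟩ := Subgroup.mem_zpowers_iff.1 h
    exact Subgroup.mem_zpowers_iff.2 ⟨k, by rw [← iA_cF, ← map_zpow, hk]⟩

private theorem K8a_inf (n : ℕ) (hn : 1 ≤ n) (k : ℤ) (h : cc n ^ k = 1) : k = 0 := by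
  rw [← iA_cF, ← map_zpow] at h
  exact (malF n hn).1 k (iA_inj n (h.trans (map_one _).symm))

private theorem K8a_malA (n : ℕ) (hn : 1 ≤ n) (x : SG (LL n)) (hx : x ∈ subA n) (k : ℤ)
    (hk : k ≠ 0) (h : x⁻¹ * cc n ^ k * x ∈ Subgroup.zpowers (cc n)) :
    x ∈ Subgroup.zpowers (cc n) := by
  rw [← iA_range] at hx
  obtain ⟨w, rfl⟩ := hx
  rw [K8a_mem]
  refine (malF n hn).2 w k hk ?_
  rw [← K8a_mem, map_mul, map_mul, map_inv, map_zpow, iA_cF]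
  exact h

/-- PROOF: `chi` from `exists_chi` (`chi_B`: the two indicators vanish; `chi_b`:
`chi (1 * b) = chi 1 + 1 - 0`). `c_inf`, `mal_A`: `malF` and `iA` (`iA_inj`, `iA_cF`, `iA_range`:
`x = iA w`, `iA (w⁻¹ * cF ^ k * w) ∈ zpowers (cc n)` gives `w⁻¹ * cF ^ k * w ∈ zpowers (cF n)`). `mal_B`:
from `mal_A` by `exists_sw` (`sw x ∈ A`, `sw c = c⁻¹`). `ne_A`: `ga 0 ∈ subA n` is not a power of
`cc n` (`fa 0` is not a power of `cF n`: the homomorphism to `Multiplicative ℤ` counting `a_0`), `ne_B` by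
`sw⁻¹` or `sw`. -/
theorem exists_spl (n : ℕ) (hn : 1 ≤ n) : ∃ S : Spl (SG (LL n)), S.A = subA n ∧
    S.B = subB n ∧ S.c = cc n := by
  obtain ⟨chi, h1, hc, hA, hB⟩ := exists_chi n
  obtain ⟨sw, _, swc, swA, swB⟩ := exists_sw n
  -- the swap and the powers of the curve
  have swz : ∀ x, sw x ∈ Subgroup.zpowers (cc n) ↔ x ∈ Subgroup.zpowers (cc n) := by
    intro x
    constructor
    · intro h
      obtain ⟨k, hk⟩ := Subgroup.mem_zpowers_iff.1 h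
      refine Subgroup.mem_zpowers_iff.2 ⟨-k, sw.injective ?_⟩
      rw [map_zpow, swc, inv_zpow, zpow_neg, inv_inv, hk]
    · intro h
      obtain ⟨k, hk⟩ := Subgroup.mem_zpowers_iff.1 h
      refine Subgroup.mem_zpowers_iff.2 ⟨-k, ?_⟩
      rw [← hk, map_zpow, swc, inv_zpow, zpow_neg]
  have neA : ∃ a ∈ subA n, a ∉ Subgroup.zpowers (cc n) := by
    refine ⟨iA n (fa ⟨0, hn⟩), ?_, ?_⟩
    · rw [← iA_range]
      exact ⟨_, rfl⟩
    · rw [K8a_mem]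
      exact K8a_ne n hn
  refine ⟨{ A := subA n
            B := subB n
            c := cc n
            chi := chi
            c_mem_A := cc_mem_A n
            c_mem_B := cc_mem_B n
            gen := gen_AB n
            chi_one := h1
            chi_c := hc
            chi_A := hA
            chi_B := ?_
            chi_b := ?_
            c_inf := K8a_inf n hn
            mal_A := fun x hx k hk h => K8a_malA n hn x hx k hk h
            mal_B := ?_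
            ne_A := neA
            ne_B := ?_ }, rfl, rfl, rfl⟩
  · intro g b hb hg hgb
    rw [hB g b hb, K8a_ind_neg _ hg, K8a_ind_neg _ hgb]
    ring
  · intro b hb hb'
    have h := hB 1 b hb
    rw [one_mul, h1, K8a_ind_pos _ (one_mem _), K8a_ind_neg _ hb'] at h
    rw [h]
    ring
  · intro x hx k hk h
    rw [← swz]
    refine K8a_malA n hn (sw x) ((swB x).1 hx) (-k) (neg_ne_zero.2 hk) ?_
    have h2 := (swz _).2 h
    rw [map_mul, map_mul, map_inv, map_zpow, swc, inv_zpow] at h2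
    rw [zpow_neg]
    exact h2
  · obtain ⟨a, ha, ha'⟩ := neA
    exact ⟨sw a, (swA a).1 ha, fun h => ha' ((swz a).1 h)⟩

end Pool.Agent.Lib.MP_6a1159_al.BS
end

section

/-! K8b: the surface group satisfies the abstract properties, and the final theorem. -/

set_option autoImplicit false

open scoped ENNReal
open Filter

namespace Pool.Agent.Lib.MP_6a1159_al.BS

/-- PROOF: `U' := U ∘ iA`, `ψ' := ψ ∘ iA`, `relF`; the finiteness of `{w | U' (w * s) ≠ U' w}` as the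
preimage of a finite set under the injective `iA`. -/
theorem relEnd_SG (n : ℕ) (hn : 1 ≤ n) (U ψ : SG (LL n) → ℤ)
    (hU : ∀ s ∈ subA n, {a | a ∈ subA n ∧ U (a * s) ≠ U a}.Finite)
    (hψ : ∀ a ∈ subA n, ∀ᶠ k : ℕ in atTop, U (a * cc n ^ k) = ψ a ∧
      U (a * (cc n)⁻¹ ^ k) = ψ a) : ∀ a ∈ subA n, ψ a = ψ 1 := by
  have hmem : ∀ w, iA n w ∈ subA n := fun w => by
    rw [← iA_range]
    exact ⟨w, rfl⟩
  have hU' : ∀ s, {a | (fun w => U (iA n w)) (a * s) ≠ (fun w => U (iA n w)) a}.Finite := by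
    intro s
    refine ((hU (iA n s) (hmem s)).preimage (iA_inj n).injOn).subset ?_
    intro w hw
    refine ⟨hmem w, ?_⟩
    have h1 : U (iA n (w * s)) ≠ U (iA n w) := hw
    rw [map_mul] at h1
    exact h1
  have hψ' : ∀ a, ∀ᶠ k : ℕ in atTop, (fun w => U (iA n w)) (a * cF n ^ k) =
      (fun w => ψ (iA n w)) a ∧ (fun w => U (iA n w)) (a * (cF n)⁻¹ ^ k) =
      (fun w => ψ (iA n w)) a := by
    intro a
    filter_upwards [hψ (iA n a) (hmem a)] with k hk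
    simp only [map_mul, map_pow, map_inv, iA_cF]
    exact hk
  intro a ha
  rw [← iA_range] at ha
  obtain ⟨w, rfl⟩ := ha
  have h2 := relF n hn (fun w => U (iA n w)) (fun w => ψ (iA n w)) hU' hψ' w
  simp only [map_one] at h2
  exact h2

/-- PROOF: `cc n = iA (cF n)` is a product of commutators of elements of `subA n` (`relator`), and
`φ` is additive on `subA n` (e.g. `add_relator` with `T = List.finRange n`, `H = ⊤`,
`e := φ ∘ iA`). -/
theorem homA_SG (n : ℕ) (φ : SG (LL n) → ℤ)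
    (h : ∀ a ∈ subA n, ∀ a' ∈ subA n, φ (a * a') = φ a + φ a') : φ (cc n) = 0 := by
  have hmem : ∀ w, iA n w ∈ subA n := fun w => by
    rw [← iA_range]
    exact ⟨w, rfl⟩
  have h1 := (add_relator (List.finRange n) ⊤ (fun _ _ => ⟨Subgroup.mem_top _, Subgroup.mem_top _⟩)
    (fun w => φ (iA n w)) (fun u _ v _ => by
      simp only [map_mul]
      exact h _ (hmem u) _ (hmem v))).1
  have h2 : φ (iA n (cF n)) = 0 := h1
  rw [iA_cF] at h2
  exact h2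

/-- PROOF: let `ρ` be the retraction (`exists_ret`), `θ : FreeGroup _ →* FreeGroup _`,
`θ w := ρ (F⁻¹ (iA w))`. It is surjective: for `w₀` the element `F (iA w₀) ∈ subA n` is `iA w₁`
(`iA_range`) and `θ w₁ = ρ (iA w₀) = w₀`. By `hopfF` `θ` is injective. Let `a = iA w ∈ subA n`,
`w₀ := θ w`, `F (iA w₀) = iA w₁`, `θ w₁ = w₀ = θ w`, so `w₁ = w`, `a = F (iA w₀)` and
`F⁻¹ a = iA w₀ ∈ subA n`. -/
theorem hopf_SG (n : ℕ) (F : MulAut (SG (LL n))) (h : ∀ a ∈ subA n, F a ∈ subA n) :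
    ∀ a ∈ subA n, F⁻¹ a ∈ subA n := by
  obtain ⟨ρ, hρ⟩ := exists_ret n
  have hmem : ∀ w, iA n w ∈ subA n := fun w => by
    rw [← iA_range]
    exact ⟨w, rfl⟩
  have hex : ∀ w₀, ∃ w₁, iA n w₁ = F (iA n w₀) := fun w₀ => by
    have h1 := h _ (hmem w₀)
    rw [← iA_range] at h1
    exact h1
  let θ : FreeGroup (Fin n × Bool) →* FreeGroup (Fin n × Bool) :=
    ρ.comp ((F⁻¹ : MulAut (SG (LL n))).toMonoidHom.comp (iA n))
  have hθ : ∀ w, θ w = ρ (F⁻¹ (iA n w)) := fun _ => rfl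
  have hθ1 : ∀ w₀ w₁, iA n w₁ = F (iA n w₀) → θ w₁ = w₀ := fun w₀ w₁ h1 => by
    rw [hθ, h1, MulAut.inv_apply_self, hρ]
  have hs : Function.Surjective θ := fun w₀ => by
    obtain ⟨w₁, h1⟩ := hex w₀
    exact ⟨w₁, hθ1 w₀ w₁ h1⟩
  have hi := hopfF θ hs
  intro a ha
  rw [← iA_range] at ha
  obtain ⟨w, rfl⟩ := ha
  obtain ⟨w₁, h1⟩ := hex (θ w)
  have h2 : w₁ = w := hi (hθ1 _ _ h1)
  rw [← h2, h1, MulAut.inv_apply_self]
  exact hmem _

end Pool.Agent.Lib.MP_6a1159_al.BS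
end

section

/-! K8c: the surface group satisfies the abstract properties, and the final theorem. -/

set_option autoImplicit false

open scoped ENNReal
open Filter

namespace Pool.Agent.Lib.MP_6a1159_al.BS

/-- PROOF: `exists_spl`, `antisym_SG`, `relEnd_SG`, `homA_SG`, `hopf_SG`, `exists_sw`;
`MulAut.conj g ∈ AutPlus` because `x ∘ conj g = x` for homomorphisms `x` to an abelian group. -/
theorem exists_surf (n : ℕ) (hn : 1 ≤ n) : ∃ S : Surf (SG (LL n)) (AutPlus (LL n)),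
    S.A = subA n ∧ S.B = subB n ∧ S.c = cc n := by
  obtain ⟨S, hA, hB, hc⟩ := exists_spl n hn
  obtain ⟨sw, h1, h2, h3, h4⟩ := exists_sw n
  refine ⟨{ S with
    conj_mem := ?_
    sw := sw
    sw_mem := h1
    sw_c := by rw [hc]; exact h2
    sw_A := by rw [hA, hB]; exact h3
    sw_B := by rw [hA, hB]; exact h4
    antisym := fun f hf h => antisym_SG n hn S hA hB hc f hf h
    relEnd := by rw [hA, hc]; exact relEnd_SG n hn
    homA := by rw [hA, hc]; exact homA_SG n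
    hopf := by rw [hA]; exact hopf_SG n }, hA, hB, hc⟩
  intro g x y
  have e : ∀ z : SG (LL n) →* Multiplicative ℤ, z.comp (MulAut.conj g).toMonoidHom = z := by
    intro z
    refine MonoidHom.ext fun w => ?_
    show z (g * w * g⁻¹) = z w
    rw [z.map_mul, z.map_mul, z.map_inv, mul_comm (z g), mul_assoc, mul_inv_cancel, mul_one]
  rw [e, e]

/-- The stable commutator length of the twist about a balanced separating curve is at least
`1 / 10944`. PROOF: `two_mul`; `exists_surf`, `exists_handle`, `twist_spec` and `Surf.main` with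
`N := Inn (LL n)`; `phiSep (n + n) n = stableCL (sepTw (n + n) n)` and `sepTw` is the class of
`sepTwist`. -/
theorem final_bs (n : ℕ) (hn : 2 ≤ n) : (1 : ℝ≥0∞) / 10944 ≤ phiSep (2 * n) n := by
  rw [two_mul]
  obtain ⟨S, hA, hB, hc⟩ := exists_surf n (by omega)
  obtain ⟨f, hf, b, hb, hb', a, ha, ha', hfc⟩ := exists_handle n hn
  obtain ⟨t1, t2⟩ := twist_spec n
  have := S.main (Inn (LL n)) (by
    intro g hg
    obtain ⟨p, hp⟩ := hg
    exact ⟨p, hp.symm⟩) (sepTwist (LL n) ((LL n).take n) (sepFree_take (n + n) n)).1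
    (sepTwist (LL n) ((LL n).take n) (sepFree_take (n + n) n)).2
    (by rw [hB]; exact t1) (by rw [hA, hc]; exact t2) f hf b a (by rw [hB]; exact hb)
    (by rw [hc]; exact hb') (by rw [hA]; exact ha) (by rw [hc]; exact ha') (by rw [hc]; exact hfc)
  exact this

end Pool.Agent.Lib.MP_6a1159_al.BS
end
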