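import Pool.Agent.Lib.MP_6a1159_al.Mg.G019

section

/-! An upper bound for the stable commutator length: the counting argument in an abstract group. -/

set_option autoImplicit false

open scoped ENNReal

namespace Pool.Agent.Lib.MP_6a1159_al

section near

variable {G : Type} [Group G]

/-- `u` and `v` agree up to a product of `k` commutators. -/
def Near (k : ℕ) (u v : G) : Prop := IsProdComm k (u * v⁻¹)

theorem near_refl (u : G) : Near 0 u u := by
  unfold Near
  rw [mul_inv_cancel]
  exact ipc_zero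

theorem near_mul {k l : ℕ} {u v u' v' : G} (h : Near k u v) (h' : Near l u' v') :
    Near (k + l) (u * u') (v * v') := by
  have h1 := ipc_mul h (ipc_conj v h')
  have e : u * v⁻¹ * (v * (u' * v'⁻¹) * v⁻¹) = u * u' * (v * v')⁻¹ := by group
  rw [e] at h1
  exact h1

theorem near_inv {k : ℕ} {u v : G} (h : Near k u v) : Near k u⁻¹ v⁻¹ := by
  have h1 := ipc_conj u⁻¹ (ipc_inv h)
  have e : u⁻¹ * (u * v⁻¹)⁻¹ * u⁻¹⁻¹ = u⁻¹ * v⁻¹⁻¹ := by group
  rw [e] at h1
  exact h1

theorem near_conj (g x : G) : Near 1 (g * x * g⁻¹) x := ipc_comm g x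

theorem near_mono {k l : ℕ} (h : k ≤ l) {u v : G} (h1 : Near k u v) : Near l u v :=
  ipc_mono h h1

/-- The powers of a conjugate of `x` are near the powers of `x`. -/
theorem near_pow {x y : G} (h : ∃ g, y = g * x * g⁻¹) (m : ℕ) : Near 1 (y ^ m) (x ^ m) := by
  obtain ⟨g, rfl⟩ := h
  rw [conj_pow]
  exact near_conj g _

theorem near_list {ι : Type} (L : List ι) (f : ι → G) (v : G) (k : ℕ)
    (h : ∀ i ∈ L, Near k (f i) v) : Near (L.length * k) (L.map f).prod (v ^ L.length) := by
  induction L with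
  | nil => simpa using near_refl (1 : G)
  | cons a L ih =>
    have h1 := h a (by simp)
    have h2 := ih fun i hi => h i (by simp [hi])
    rw [List.map_cons, List.prod_cons, List.length_cons, pow_succ', Nat.succ_mul, Nat.add_comm]
    exact near_mul h1 h2

/-- The product of the powers and the power of the product. -/
theorem pow_ipc (x y : G) (m : ℕ) :
    IsProdComm m (x ^ (2 * m) * y ^ (2 * m) * ((x * y) ^ (2 * m))⁻¹) := by
  induction m with
  | zero => simpa using (ipc_zero : IsProdComm 0 (1 : G))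
  | succ m ih =>
    have e1 : x ^ (2 * (m + 1)) = x * x * x ^ (2 * m) := by
      rw [show 2 * (m + 1) = 2 * m + 1 + 1 by ring, pow_succ', pow_succ', mul_assoc]
    have e2 : y ^ (2 * (m + 1)) = y ^ (2 * m) * y * y := by
      rw [show 2 * (m + 1) = 2 * m + 1 + 1 by ring, pow_succ, pow_succ]
    have e3 : (x * y) ^ (2 * (m + 1)) = (x * y) * (x * y) ^ (2 * m) * (x * y) := by
      rw [show 2 * (m + 1) = 2 * m + 1 + 1 by ring, pow_succ, pow_succ']
    rw [e1, e2, e3]
    have h1 := ipc_conj (x * y) ih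
    generalize x ^ (2 * m) = X at *
    generalize y ^ (2 * m) = Y at *
    generalize (x * y) ^ (2 * m) = Z at *
    have h2 := ipc_mul (ipc_conj x (ipc_comm (x * (X * Y)) (y * x⁻¹))) h1
    have e : x * (x * (X * Y) * (y * x⁻¹) * (x * (X * Y))⁻¹ * (y * x⁻¹)⁻¹) * x⁻¹ *
        (x * y * (X * Y * Z⁻¹) * (x * y)⁻¹) =
        x * x * X * (Y * y * y) * (x * y * Z * (x * y))⁻¹ := by group
    rw [e, Nat.add_comm] at h2
    exact h2

end near

section lists

variable {G : Type} [Group G] {ι : Type}

theorem list_mul (L : List ι) (f g : ι → G)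
    (h : L.Pairwise fun i j => Commute (g i) (f j)) :
    (L.map f).prod * (L.map g).prod = (L.map fun i => f i * g i).prod := by
  induction L with
  | nil => simp
  | cons a L ih =>
    rw [List.pairwise_cons] at h
    obtain ⟨h1, h2⟩ := h
    have h3 : Commute (g a) (L.map f).prod := by
      refine Commute.list_prod_right _ _ ?_
      intro z hz
      obtain ⟨j, hj, rfl⟩ := List.mem_map.1 hz
      exact h1 j hj
    rw [List.map_cons, List.prod_cons, List.map_cons, List.prod_cons, List.map_cons,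
      List.prod_cons, ← ih h2]
    calc f a * (L.map f).prod * (g a * (L.map g).prod) =
        f a * ((L.map f).prod * g a) * (L.map g).prod := by simp only [mul_assoc]
      _ = f a * (g a * (L.map f).prod) * (L.map g).prod := by rw [h3.eq]
      _ = _ := by simp only [mul_assoc]

theorem list_pow (L : List ι) (f : ι → G) (h : L.Pairwise fun i j => Commute (f i) (f j))
    (k : ℕ) : (L.map f).prod ^ k = (L.map fun i => f i ^ k).prod := by
  induction k with
  | zero => simp
  | succ k ih =>
    rw [pow_succ, ih, list_mul]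
    · simp only [pow_succ]
    · exact h.imp fun {i j} hij => hij.pow_right k

end lists

section count

variable {G : Type} [Group G]

/-- For a chain of three elements, `(a c b)² = (b a c)²`. -/
theorem chain_sq {A B C : G} (hAC : Commute A C) (h1 : A * B * A = B * A * B)
    (h2 : B * C * B = C * B * C) : (A * C * B) ^ 2 = (B * (A * C)) ^ 2 := by
  have h3 : A * C = C * A := hAC.eq
  calc (A * C * B) ^ 2 = (A * C) * B * A * C * B := by simp only [pow_two, mul_assoc]
    _ = C * (A * B * A) * C * B := by rw [h3]; simp only [mul_assoc]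
    _ = C * B * A * (B * C * B) := by rw [h1]; simp only [mul_assoc]
    _ = C * B * (A * C) * B * C := by rw [h2]; simp only [mul_assoc]
    _ = (C * B * C) * A * B * C := by rw [h3]; simp only [mul_assoc]
    _ = B * C * (B * A * B) * C := by rw [← h2]; simp only [mul_assoc]
    _ = B * (C * A) * B * A * C := by rw [← h1]; simp only [mul_assoc]
    _ = (B * (A * C)) ^ 2 := by rw [← h3]; simp only [pow_two, mul_assoc]

/-- If `(P Q)² = (Q P)²`, then `(P Q²)² = (P Q)⁴ Q⁻¹ P⁻² Q`, and `(P Q)⁴` commutes with `P`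
and with `Q`. -/
theorem pq_sq {P Q : G} (h : (P * Q) ^ 2 = (Q * P) ^ 2) :
    (P * Q ^ 2) ^ 2 = (P * Q) ^ 4 * (Q⁻¹ * P ^ 2 * Q)⁻¹ ∧ Commute ((P * Q) ^ 4) P ∧
      Commute ((P * Q) ^ 4) Q := by
  have h' : P * Q * P * Q = Q * P * Q * P := by
    simpa only [pow_two, mul_assoc] using h
  have hP : Commute ((P * Q) ^ 2) P := by
    show (P * Q) ^ 2 * P = P * (P * Q) ^ 2
    conv_rhs => rw [h]
    simp only [pow_two, mul_assoc]
  have hQ : Commute ((P * Q) ^ 2) Q := by
    show (P * Q) ^ 2 * Q = Q * (P * Q) ^ 2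
    conv_lhs => rw [h]
    simp only [pow_two, mul_assoc]
  have e4 : (P * Q) ^ 4 = (P * Q) ^ 2 * (P * Q) ^ 2 := by rw [← pow_add]
  refine ⟨?_, by rw [e4]; exact hP.mul_left hP, by rw [e4]; exact hQ.mul_left hQ⟩
  rw [eq_mul_inv_iff_mul_eq]
  calc (P * Q ^ 2) ^ 2 * (Q⁻¹ * P ^ 2 * Q) = P * Q * (Q * P * Q * P) * P * Q := by
        simp only [pow_two]
        group
    _ = P * Q * (P * Q * P * Q) * P * Q := by rw [h']
    _ = (P * Q) ^ 4 := by
        rw [e4]
        simp only [pow_two, mul_assoc]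

/-- The powers of `P Q²`. -/
theorem pq_pow {A B C D D' : G} (hAC : Commute A C) (h1 : A * B * A = B * A * B)
    (h2 : B * C * B = C * B * C) (hE : (A * C * B) ^ 4 = D * D') (hD : Commute D D') (m : ℕ) :
    (A * C * B ^ 2) ^ (2 * m) = D ^ m * D' ^ m * (B⁻¹ * (A ^ (2 * m))⁻¹ * B⁻¹⁻¹) *
      (B⁻¹ * (C ^ (2 * m))⁻¹ * B⁻¹⁻¹) := by
  obtain ⟨h3, h4, h5⟩ := pq_sq (P := A * C) (Q := B) (chain_sq hAC h1 h2)
  have h6 : Commute ((A * C * B) ^ 4) ((B⁻¹ * (A * C) ^ 2 * B)⁻¹) :=
    (((h5.inv_right).mul_right (h4.pow_right 2)).mul_right h5).inv_right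
  rw [pow_mul, h3, h6.mul_pow, hE, hD.mul_pow, mul_assoc (D ^ m * D' ^ m)]
  congr 1
  have h7 : B⁻¹ * (A * C) ^ 2 * B = B⁻¹ * (A * C) ^ 2 * B⁻¹⁻¹ := by rw [inv_inv]
  have h8 : (B⁻¹ * (A * C) ^ 2 * B⁻¹⁻¹)⁻¹ ^ m = (B⁻¹ * ((A * C) ^ (2 * m)) * B⁻¹⁻¹)⁻¹ := by
    rw [inv_pow, conj_pow, ← pow_mul]
  rw [h7, h8, hAC.eq, (hAC.symm).mul_pow]
  group

/-- The counting argument. -/
theorem abs_count {ι : Type} (L : List ι) (A B C D D' : ι → G) (x : G)
    (hA : ∀ i ∈ L, ∃ g, A i = g * x * g⁻¹) (hB : ∀ i ∈ L, ∃ g, B i = g * x * g⁻¹)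
    (hC : ∀ i ∈ L, ∃ g, C i = g * x * g⁻¹) (hD : ∀ i ∈ L, ∃ g, D i = g * x * g⁻¹)
    (hD' : ∀ i ∈ L, ∃ g, D' i = g * x * g⁻¹) (hAC : ∀ i ∈ L, Commute (A i) (C i))
    (h1 : ∀ i ∈ L, A i * B i * A i = B i * A i * B i)
    (h2 : ∀ i ∈ L, B i * C i * B i = C i * B i * C i)
    (hE : ∀ i ∈ L, (A i * C i * B i) ^ 4 = D i * D' i) (hDD : ∀ i ∈ L, Commute (D i) (D' i))
    (hAA : L.Pairwise fun i j => Commute (A i) (A j)) (hAB : L.Pairwise fun i j => Commute (A i) (B j))
    (hAC' : L.Pairwise fun i j => Commute (A i) (C j)) (hBA : L.Pairwise fun i j => Commute (B i) (A j))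
    (hBB : L.Pairwise fun i j => Commute (B i) (B j)) (hBC : L.Pairwise fun i j => Commute (B i) (C j))
    (hCA : L.Pairwise fun i j => Commute (C i) (A j)) (hCB : L.Pairwise fun i j => Commute (C i) (B j))
    (hCC : L.Pairwise fun i j => Commute (C i) (C j)) (m : ℕ) :
    IsProdComm (m + 7 * L.length) (x ^ (10 * L.length * m)) := by
  have hPP : L.Pairwise fun i j => Commute (A i * C i) (A j * C j) := by
    refine ((hAA.and hAC').and (hCA.and hCC)).imp fun {i j} h => ?_
    obtain ⟨⟨a, b⟩, c, d⟩ := h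
    exact (a.mul_right b).mul_left (c.mul_right d)
  have hQP : L.Pairwise fun i j => Commute (B i ^ 2) (A j * C j) := by
    refine (hBA.and hBC).imp fun {i j} h => ?_
    exact (h.1.mul_right h.2).pow_left 2
  have hQQ : L.Pairwise fun i j => Commute (B i ^ 2) (B j ^ 2) :=
    hBB.imp fun {i j} h => (h.pow_left 2).pow_right 2
  have hPQ : L.Pairwise fun i j => Commute (A i * C i) (B j ^ 2) := by
    refine (hAB.and hCB).imp fun {i j} h => ?_
    exact (h.1.mul_left h.2).pow_right 2
  have hall : L.Pairwise fun i j => Commute (A i * C i * B i ^ 2) (A j * C j * B j ^ 2) := by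
    refine ((hPP.and hPQ).and (hQP.and hQQ)).imp fun {i j} h => ?_
    obtain ⟨⟨a, b⟩, c, d⟩ := h
    exact (a.mul_right b).mul_left (c.mul_right d)
  have e1 := list_pow L _ hPP (2 * m)
  have e2 := list_pow L _ hQQ (2 * m)
  have e3 := list_mul L (fun i => A i * C i) (fun i => B i ^ 2) hQP
  have e4 := list_pow L _ hall (2 * m)
  -- the three products
  have n1 : Near (L.length * 2) ((L.map fun i => A i * C i).prod ^ (2 * m))
      ((x ^ (2 * m) * x ^ (2 * m)) ^ L.length) := by
    rw [e1]
    refine near_list L _ _ 2 fun i hi => ?_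
    rw [(hAC i hi).mul_pow]
    exact near_mul (near_pow (hA i hi) _) (near_pow (hC i hi) _)
  have n2 : Near (L.length * 1) ((L.map fun i => B i ^ 2).prod ^ (2 * m))
      ((x ^ (2 * (2 * m))) ^ L.length) := by
    rw [e2]
    refine near_list L _ _ 1 fun i hi => ?_
    rw [← pow_mul]
    exact near_pow (hB i hi) _
  have n3 : Near (L.length * 4)
      (((L.map fun i => A i * C i).prod * (L.map fun i => B i ^ 2).prod) ^ (2 * m))
      ((x ^ m * x ^ m * (x ^ (2 * m))⁻¹ * (x ^ (2 * m))⁻¹) ^ L.length) := by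
    rw [e3, e4]
    refine near_list L _ _ 4 fun i hi => ?_
    rw [pq_pow (hAC i hi) (h1 i hi) (h2 i hi) (hE i hi) (hDD i hi) m]
    have hconj : ∀ y : G, (∃ g, y = g * x * g⁻¹) →
        Near 1 ((B i)⁻¹ * (y ^ (2 * m))⁻¹ * (B i)⁻¹⁻¹) (x ^ (2 * m))⁻¹ := by
      rintro y ⟨g, rfl⟩
      have h3 := near_conj ((B i)⁻¹ * g) (x ^ (2 * m))⁻¹
      rw [conj_pow]
      have e5 : (B i)⁻¹ * (g * x ^ (2 * m) * g⁻¹)⁻¹ * (B i)⁻¹⁻¹ =
          (B i)⁻¹ * g * (x ^ (2 * m))⁻¹ * ((B i)⁻¹ * g)⁻¹ := by group
      rw [e5]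
      exact h3
    exact near_mul (near_mul (near_mul (near_pow (hD i hi) m) (near_pow (hD' i hi) m))
      (hconj _ (hA i hi))) (hconj _ (hC i hi))
  have h3 := pow_ipc (L.map fun i => A i * C i).prod (L.map fun i => B i ^ 2).prod m
  have n4 := near_mul (near_mul n1 n2) (near_inv n3)
  have h4 := ipc_mul (ipc_inv n4) h3
  have e6 : ∀ u v : G, (u * v⁻¹)⁻¹ * u = v := fun u v => by group
  rw [e6] at h4
  have e7 : (x ^ (2 * m) * x ^ (2 * m)) ^ L.length * (x ^ (2 * (2 * m))) ^ L.length *
      ((x ^ m * x ^ m * (x ^ (2 * m))⁻¹ * (x ^ (2 * m))⁻¹) ^ L.length)⁻¹ =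
      x ^ (10 * L.length * m) := by
    simp only [← zpow_natCast, ← zpow_mul, ← zpow_add, ← zpow_neg]
    congr 1
    push_cast
    ring
  rw [e7] at h4
  refine ipc_mono ?_ h4
  omega

end count

end Pool.Agent.Lib.MP_6a1159_al
end

section

/-! Dehn twists as automorphisms of the free group: general form, braid relations, commutation. -/

set_option autoImplicit false

namespace Pool.Agent.Lib.MP_6a1159_al

section gen

variable {X : Type}

/-- `f` is the twist about the curve `c`: the letters `x` with `l x` are multiplied by `c⁻¹` on the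
left, those with `r x` by `c` on the right. -/
structure IsTw (f : MulAut (FreeGroup X)) (c : FreeGroup X) (l r : X → Bool) : Prop where
  of : ∀ x, f (FreeGroup.of x) =
    (if l x then c⁻¹ else 1) * FreeGroup.of x * (if r x then c else 1)
  c : f c = c

theorem ub_ext {f g : MulAut (FreeGroup X)} (h : ∀ x, f (FreeGroup.of x) = g (FreeGroup.of x)) :
    f = g := by
  have h' : f.toMonoidHom = g.toMonoidHom := FreeGroup.ext_hom _ _ h
  ext w
  exact DFunLike.congr_fun h' w

/-- The endomorphism given by `c`, `l`, `r`. -/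
def twG (c : FreeGroup X) (l r : X → Bool) : FreeGroup X →* FreeGroup X :=
  FreeGroup.lift fun x => (if l x then c⁻¹ else 1) * FreeGroup.of x * (if r x then c else 1)

theorem twG_of (c : FreeGroup X) (l r : X → Bool) (x : X) : twG c l r (FreeGroup.of x) =
    (if l x then c⁻¹ else 1) * FreeGroup.of x * (if r x then c else 1) :=
  FreeGroup.lift_apply_of

theorem twG_inv {c d : FreeGroup X} {l r : X → Bool} (h : twG c l r d = d) (hcd : d = c⁻¹)
    (w : FreeGroup X) : twG c l r (twG d l r w) = w := by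
  have h1 : (twG c l r).comp (twG d l r) = MonoidHom.id _ := by
    refine FreeGroup.ext_hom _ _ fun x => ?_
    show twG c l r (twG d l r (FreeGroup.of x)) = FreeGroup.of x
    rw [twG_of]
    subst hcd
    cases hl : l x <;> cases hr : r x <;>
      simp only [map_mul, map_inv, h, map_one, if_true, if_false, twG_of, hl, hr,
        Bool.false_eq_true] <;> group
  exact DFunLike.congr_fun h1 w

/-- The automorphism given by `c`, `l`, `r`. -/
def twU (c : FreeGroup X) (l r : X → Bool) (h1 : twG c l r c⁻¹ = c⁻¹)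
    (h2 : twG c⁻¹ l r c = c) : MulAut (FreeGroup X) where
  toFun := twG c l r
  invFun := twG c⁻¹ l r
  left_inv w := twG_inv h2 (inv_inv c).symm w
  right_inv w := twG_inv h1 rfl w
  map_mul' := map_mul _

theorem isTw_twU (c : FreeGroup X) (l r : X → Bool) (h1 : twG c l r c⁻¹ = c⁻¹)
    (h2 : twG c⁻¹ l r c = c) : IsTw (twU c l r h1 h2) c l r := by
  refine ⟨fun x => twG_of c l r x, ?_⟩
  show twG c l r c = c
  rw [map_inv, inv_inj] at h1
  exact h1

theorem ub_braid {f g : MulAut (FreeGroup X)} {c d : FreeGroup X} {l r l' r' : X → Bool}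
    (hf : IsTw f c l r) (hg : IsTw g d l' r') (hd : f d = d * c) (hc : g c = d⁻¹ * c) :
    f * g * f = g * f * g := by
  have h1 := hf.c
  have h2 := hg.c
  refine ub_ext fun x => ?_
  show f (g (f (FreeGroup.of x))) = g (f (g (FreeGroup.of x)))
  rw [hf.of, hg.of]
  cases hl : l x <;> cases hr : r x <;> cases hl' : l' x <;> cases hr' : r' x <;>
    simp only [map_mul, map_inv, h1, h2, hd, hc, map_one, if_true, if_false, hf.of, hg.of,
      hl, hr, hl', hr', Bool.false_eq_true] <;> group

theorem ub_comm1 {f g : MulAut (FreeGroup X)} {c d : FreeGroup X} {l r l' r' : X → Bool}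
    (hf : IsTw f c l r) (hg : IsTw g d l' r') (hd : f d = d) (hc : g c = c)
    (h : ∀ x, (l x = false ∨ l' x = false) ∧ (r x = false ∨ r' x = false)) : Commute f g := by
  refine ub_ext fun x => ?_
  show f (g (FreeGroup.of x)) = g (f (FreeGroup.of x))
  rw [hf.of, hg.of]
  have hx := h x
  cases hl : l x <;> cases hr : r x <;> cases hl' : l' x <;> cases hr' : r' x <;>
    simp only [map_mul, map_inv, hd, hc, map_one, if_true, if_false, hf.of, hg.of,
      hl, hr, hl', hr', Bool.false_eq_true, Bool.true_eq_false, or_false, false_or, or_self,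
      and_false, and_true] at hx ⊢ <;> group

theorem ub_comm2 {f g : MulAut (FreeGroup X)} {c d : FreeGroup X} {l r l' r' : X → Bool}
    (hf : IsTw f c l r) (hg : IsTw g d l' r') (hd : f d = d) (hc : g c = d⁻¹ * c * d)
    (h : ∀ x, (l x = true → l' x = true) ∧ (r x = true → r' x = true)) : Commute f g := by
  refine ub_ext fun x => ?_
  show f (g (FreeGroup.of x)) = g (f (FreeGroup.of x))
  rw [hf.of, hg.of]
  obtain ⟨hx1, hx2⟩ := h x
  cases hl : l x <;> cases hr : r x <;> cases hl' : l' x <;> cases hr' : r' x <;>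
    simp only [hl, hr, hl', hr'] at hx1 hx2 <;>
    simp only [map_mul, map_inv, hd, hc, map_one, if_true, if_false, hf.of, hg.of,
      hl, hr, hl', hr', Bool.false_eq_true] <;>
    first
    | exact absurd (hx1 trivial) (by decide)
    | exact absurd (hx2 trivial) (by decide)
    | group

end gen

variable {κ : Type} [DecidableEq κ]

/-- The curve `b a⁻¹ b⁻¹` of the first handle. -/
def gam : FreeGroup (Option κ × Bool) := fb none * (fa none)⁻¹ * (fb none)⁻¹

/-- The curve `b a⁻¹ b⁻¹ · relS P`. -/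
def eP (P : List κ) : FreeGroup (Option κ × Bool) := gam * relS P

theorem eP_append (P M : List κ) (i : κ) : eP (P ++ i :: M) =
    eP P * (fa (some i) * fb (some i) * (fa (some i))⁻¹ * (fb (some i))⁻¹) * relS M := by
  unfold eP
  rw [relS_append, relS_cons]
  simp only [mul_assoc]

theorem relS_conj (f : FreeGroup (Option κ × Bool) →* FreeGroup (Option κ × Bool))
    (d : FreeGroup (Option κ × Bool)) (P : List κ)
    (h : ∀ j ∈ P, f (fa (some j)) = d⁻¹ * fa (some j) * d ∧
      f (fb (some j)) = d⁻¹ * fb (some j) * d) : f (relS P) = d⁻¹ * relS P * d := by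
  induction P with
  | nil => simp [relS, relator]
  | cons i P ih =>
    obtain ⟨h1, h2⟩ := h i (by simp)
    rw [relS_cons]
    simp only [map_mul, map_inv, h1, h2, ih fun j hj => h j (by simp [hj])]
    group

theorem eP_conj (f : FreeGroup (Option κ × Bool) →* FreeGroup (Option κ × Bool))
    (d : FreeGroup (Option κ × Bool)) (P : List κ) (ha : f (fa none) = fa none)
    (hb : f (fb none) = d⁻¹ * fb none)
    (h : ∀ j ∈ P, f (fa (some j)) = d⁻¹ * fa (some j) * d ∧
      f (fb (some j)) = d⁻¹ * fb (some j) * d) : f (eP P) = d⁻¹ * eP P * d := by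
  unfold eP gam
  simp only [map_mul, map_inv, ha, hb, relS_conj f d P h]
  group

/-- The left letters of the curve `eP P`. -/
def lD (P : List κ) : Option κ × Bool → Bool
  | (none, s) => s
  | (some j, _) => decide (j ∈ P)

/-- The right letters of the curve `eP P`. -/
def rD (P : List κ) : Option κ × Bool → Bool
  | (none, _) => false
  | (some j, _) => decide (j ∈ P)

/-- The left letters of the curve `eP P * a_i`. -/
def lC (P : List κ) (i : κ) : Option κ × Bool → Bool
  | (none, s) => s
  | (some j, s) => decide (j ∈ P) || (decide (j = i) && !s)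

/-- The right letters of the curve `eP P * a_i`. -/
def rC (P : List κ) (i : κ) : Option κ × Bool → Bool
  | (none, _) => false
  | (some j, _) => decide (j ∈ P) || decide (j = i)

section values

variable (d : FreeGroup (Option κ × Bool)) (P : List κ) (i j : κ)

theorem gD_a0 : twG d (lD P) (rD P) (fa none) = fa none := by
  unfold fa
  rw [twG_of]
  simp [lD, rD]

theorem gD_b0 : twG d (lD P) (rD P) (fb none) = d⁻¹ * fb none := by
  unfold fb
  rw [twG_of]
  simp [lD, rD]

theorem gD_in (h : j ∈ P) : twG d (lD P) (rD P) (fa (some j)) = d⁻¹ * fa (some j) * d ∧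
    twG d (lD P) (rD P) (fb (some j)) = d⁻¹ * fb (some j) * d := by
  unfold fa fb
  rw [twG_of, twG_of]
  simp [lD, rD, h]

theorem gD_out (h : j ∉ P) : twG d (lD P) (rD P) (fa (some j)) = fa (some j) ∧
    twG d (lD P) (rD P) (fb (some j)) = fb (some j) := by
  unfold fa fb
  rw [twG_of, twG_of]
  simp [lD, rD, h]

theorem gC_a0 : twG d (lC P i) (rC P i) (fa none) = fa none := by
  unfold fa
  rw [twG_of]
  simp [lC, rC]

theorem gC_b0 : twG d (lC P i) (rC P i) (fb none) = d⁻¹ * fb none := by
  unfold fb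
  rw [twG_of]
  simp [lC, rC]

theorem gC_in (h : j ∈ P) : twG d (lC P i) (rC P i) (fa (some j)) = d⁻¹ * fa (some j) * d ∧
    twG d (lC P i) (rC P i) (fb (some j)) = d⁻¹ * fb (some j) * d := by
  unfold fa fb
  rw [twG_of, twG_of]
  simp [lC, rC, h]

theorem gC_out (h : j ∉ P) (h' : j ≠ i) : twG d (lC P i) (rC P i) (fa (some j)) = fa (some j) ∧
    twG d (lC P i) (rC P i) (fb (some j)) = fb (some j) := by
  unfold fa fb
  rw [twG_of, twG_of]
  simp [lC, rC, h, h']

theorem gC_i (h : i ∉ P) :
    twG d (lC P i) (rC P i) (fa (some i)) = d⁻¹ * fa (some i) * d ∧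
    twG d (lC P i) (rC P i) (fb (some i)) = fb (some i) * d := by
  unfold fa fb
  rw [twG_of, twG_of]
  simp [lC, rC, h]

theorem gD_eP : twG d (lD P) (rD P) (eP P) = d⁻¹ * eP P * d :=
  eP_conj _ d P (gD_a0 d P) (gD_b0 d P) fun j hj => gD_in d P j hj

theorem gC_eP : twG d (lC P i) (rC P i) (eP P) = d⁻¹ * eP P * d :=
  eP_conj _ d P (gC_a0 d P i) (gC_b0 d P i) fun j hj => gC_in d P i j hj

end values

/-- The twist about `eP P`. -/
def DE (P : List κ) : MulAut (FreeGroup (Option κ × Bool)) :=
  twU (eP P) (lD P) (rD P)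
    (by rw [map_inv, gD_eP]; group) (by rw [gD_eP]; group)

/-- The twist about `eP P * a_i`. -/
def CE (P : List κ) (i : κ) (hi : i ∉ P) : MulAut (FreeGroup (Option κ × Bool)) :=
  twU (eP P * fa (some i)) (lC P i) (rC P i)
    (by rw [map_inv, map_mul, gC_eP, (gC_i _ P i hi).1]; group)
    (by rw [map_mul, gC_eP, (gC_i _ P i hi).1]; group)

theorem isTw_DE (P : List κ) : IsTw (DE P) (eP P) (lD P) (rD P) := isTw_twU _ _ _ _ _

theorem isTw_CE (P : List κ) (i : κ) (hi : i ∉ P) :
    IsTw (CE P i hi) (eP P * fa (some i)) (lC P i) (rC P i) := isTw_twU _ _ _ _ _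

theorem isTw_twE (i : Option κ) :
    IsTw (twE i) (fa i) (fun _ => false) (fun x => decide (x = (i, true))) := by
  refine ⟨fun x => ?_, twFree_a i i 1⟩
  obtain ⟨j, s⟩ := x
  cases s
  · show twFree i 1 (fa j) = _
    rw [twFree_a]
    simp [fa]
  · show twFree i 1 (fb j) = _
    by_cases h : j = i
    · subst h
      rw [twFree_b]
      simp [fb]
    · rw [twFree_b_ne i j 1 h]
      simp [fb, h]

theorem isTw_twE' (i : Option κ) :
    IsTw (twE' i) (fb i)⁻¹ (fun _ => false) (fun x => decide (x = (i, false))) := by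
  refine ⟨fun x => ?_, ?_⟩
  · obtain ⟨j, s⟩ := x
    cases s
    · show twFree' i 1 (fa j) = _
      by_cases h : j = i
      · subst h
        rw [twFree'_a]
        simp [fa]
      · rw [twFree'_a_ne i j 1 h]
        simp [fa, h]
    · show twFree' i 1 (fb j) = _
      rw [twFree'_b]
      simp [fb]
  · show twFree' i 1 (fb i)⁻¹ = (fb i)⁻¹
    rw [map_inv, twFree'_b]

section apply

variable (P : List κ) (i j : κ)

theorem DE_a0 : DE P (fa none) = fa none := gD_a0 (eP P) P

theorem DE_b0 : DE P (fb none) = (eP P)⁻¹ * fb none := gD_b0 _ P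

theorem DE_in (h : j ∈ P) : DE P (fa (some j)) = (eP P)⁻¹ * fa (some j) * eP P ∧
    DE P (fb (some j)) = (eP P)⁻¹ * fb (some j) * eP P := gD_in _ P j h

theorem DE_out (h : j ∉ P) : DE P (fa (some j)) = fa (some j) ∧
    DE P (fb (some j)) = fb (some j) := gD_out _ P j h

variable (hi : i ∉ P)

theorem CE_a0 : CE P i hi (fa none) = fa none := gC_a0 (eP P * fa (some i)) P i

theorem CE_b0 : CE P i hi (fb none) = (eP P * fa (some i))⁻¹ * fb none := gC_b0 _ P i

theorem CE_in (h : j ∈ P) :
    CE P i hi (fa (some j)) = (eP P * fa (some i))⁻¹ * fa (some j) * (eP P * fa (some i)) ∧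
    CE P i hi (fb (some j)) = (eP P * fa (some i))⁻¹ * fb (some j) * (eP P * fa (some i)) :=
  gC_in _ P i j h

theorem CE_out (h : j ∉ P) (h' : j ≠ i) : CE P i hi (fa (some j)) = fa (some j) ∧
    CE P i hi (fb (some j)) = fb (some j) := gC_out _ P i j h h'

theorem CE_i :
    CE P i hi (fa (some i)) = (eP P * fa (some i))⁻¹ * fa (some i) * (eP P * fa (some i)) ∧
    CE P i hi (fb (some i)) = fb (some i) * (eP P * fa (some i)) := gC_i _ P i hi

theorem CE_eP : CE P i hi (eP P) = (eP P * fa (some i))⁻¹ * eP P * (eP P * fa (some i)) :=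
  gC_eP _ P i

theorem tw_gam (i : κ) : twE (some i) (gam : FreeGroup (Option κ × Bool)) = gam := by
  show twFree (some i) 1 gam = gam
  unfold gam
  simp only [map_mul, map_inv, twFree_a, twFree_b_ne (some i) none 1 (by simp)]

theorem tw'_gam (i : κ) : twE' (some i) (gam : FreeGroup (Option κ × Bool)) = gam := by
  show twFree' (some i) 1 gam = gam
  unfold gam
  simp only [map_mul, map_inv, twFree'_b, twFree'_a_ne (some i) none 1 (by simp)]

theorem tw_eP (i : κ) : twE (some i) (eP P) = eP P := by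
  unfold eP
  rw [map_mul, tw_gam]
  congr 1
  exact twFree_relator (some i) 1 _

theorem tw'_eP (i : κ) : twE' (some i) (eP P) = eP P := by
  unfold eP
  rw [map_mul, tw'_gam]
  congr 1
  exact twFree'_relator (some i) 1 _

theorem tw0_eP : twE' (none : Option κ) (eP P) = fb none * eP P := by
  have h1 : twE' (none : Option κ) (gam : FreeGroup (Option κ × Bool)) = fb none * gam := by
    show twFree' (none : Option κ) 1 gam = fb none * gam
    unfold gam
    simp only [map_mul, map_inv, twFree'_b, twFree'_a]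
    group
  have h2 : twE' (none : Option κ) (relS P) = relS P := twFree'_relator none 1 _
  unfold eP
  rw [map_mul, h1, h2, mul_assoc]

end apply

end Pool.Agent.Lib.MP_6a1159_al
end

section

/-! The relations between the twists. -/

set_option autoImplicit false

namespace Pool.Agent.Lib.MP_6a1159_al

variable {κ : Type} [DecidableEq κ]

theorem DE_nil : DE ([] : List κ) = twE none := by
  apply a3_aut_ext
  · rw [DE_a0]
    exact (twFree_a (none : Option κ) none 1).symm
  · rw [DE_b0]
    have h : twE (none : Option κ) (fb none) = fb none * fa none := by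
      show twFree (none : Option κ) 1 (fb none) = _
      rw [twFree_b, zpow_one]
    rw [h]
    simp only [eP, gam, relS, relator, List.map_nil, List.prod_nil]
    group
  · intro j
    rw [(DE_out [] j (by simp)).1]
    exact (twFree_a (none : Option κ) (some j) 1).symm
  · intro j
    rw [(DE_out [] j (by simp)).2]
    exact (twFree_b_ne (none : Option κ) (some j) 1 (by simp)).symm

theorem DE_relS (P Q : List κ) (h : ∀ j ∈ Q, j ∉ P) : DE P (relS Q) = relS Q :=
  map_relS (DE P).toMonoidHom Q fun j hj => DE_out P j (h j hj)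

theorem CE_relS (P Q : List κ) (i : κ) (hi : i ∉ P) (h : ∀ j ∈ Q, j ∉ P ∧ j ≠ i) :
    CE P i hi (relS Q) = relS Q :=
  map_relS (CE P i hi).toMonoidHom Q fun j hj => CE_out P i j hi (h j hj).1 (h j hj).2

theorem rel_eq (P Q : List κ) : relator (BL (P ++ Q)) = fa none * eP P * relS Q := by
  rw [relator_BL, relS_append]
  unfold eP gam
  simp only [mul_assoc]

theorem DE_mem (P Q : List κ) (h : ∀ j ∈ Q, j ∉ P) : DE P ∈ StR (BL (P ++ Q)) := by
  show DE P (relator (BL (P ++ Q))) = relator (BL (P ++ Q))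
  rw [rel_eq, map_mul, map_mul, DE_a0, (isTw_DE P).c, DE_relS P Q h]

theorem CE_mem (P Q : List κ) (i : κ) (hi : i ∉ P) (h : ∀ j ∈ Q, j ∉ P ∧ j ≠ i) :
    CE P i hi ∈ StR (BL (P ++ i :: Q)) := by
  show CE P i hi (relator (BL (P ++ i :: Q))) = relator (BL (P ++ i :: Q))
  rw [rel_eq, relS_cons]
  simp only [map_mul, map_inv, CE_a0, CE_eP, (CE_i P i hi).1, (CE_i P i hi).2,
    CE_relS P Q i hi h]
  group

/-! ### Braid relations -/

theorem braid_AB (i : κ) : twE (some i) * twE' (some i) * twE (some i) =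
    twE' (some i) * twE (some i) * twE' (some i) := by
  refine (ub_braid (isTw_twE' (some i)) (isTw_twE (some i)) ?_ ?_).symm
  · show twFree' (some i) 1 (fa (some i)) = _
    rw [twFree'_a]
    simp
  · show twFree (some i) 1 (fb (some i))⁻¹ = _
    rw [map_inv, twFree_b]
    simp

theorem braid_BC (P : List κ) (i : κ) (hi : i ∉ P) :
    twE' (some i) * CE P i hi * twE' (some i) = CE P i hi * twE' (some i) * CE P i hi := by
  refine ub_braid (isTw_twE' (some i)) (isTw_CE P i hi) ?_ ?_
  · rw [map_mul, tw'_eP]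
    have h : twE' (some i) (fa (some i)) = fa (some i) * (fb (some i))⁻¹ := by
      show twFree' (some i) 1 (fa (some i)) = _
      rw [twFree'_a]
      simp
    rw [h, mul_assoc]
  · rw [map_inv, (CE_i P i hi).2, mul_inv_rev]

theorem braid_CT (P : List κ) (i : κ) (hi : i ∉ P) :
    CE P i hi * twE' none * CE P i hi = twE' none * CE P i hi * twE' none := by
  refine ub_braid (isTw_CE P i hi) (isTw_twE' none) ?_ ?_
  · rw [map_inv, CE_b0, mul_inv_rev, inv_inv]
  · rw [map_mul, tw0_eP]
    have h : twE' (none : Option κ) (fa (some i)) = fa (some i) :=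
      twFree'_a_ne none (some i) 1 (by simp)
    rw [h, inv_inv, mul_assoc]

theorem braid_DT (P : List κ) : DE P * twE' none * DE P = twE' none * DE P * twE' none := by
  refine ub_braid (isTw_DE P) (isTw_twE' none) ?_ ?_
  · rw [map_inv, DE_b0, mul_inv_rev, inv_inv]
  · rw [tw0_eP, inv_inv]

/-! ### Commutation -/

theorem comm_AC (P : List κ) (i : κ) (hi : i ∉ P) : Commute (twE (some i)) (CE P i hi) := by
  refine ub_comm2 (isTw_twE (some i)) (isTw_CE P i hi) ?_ (CE_i P i hi).1 ?_
  · rw [map_mul, tw_eP]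
    congr 1
    exact twFree_a (some i) (some i) 1
  · intro x
    refine ⟨fun h => absurd h (by simp), fun h => ?_⟩
    have h' : x = (some i, true) := of_decide_eq_true h
    subst h'
    simp [rC]

theorem comm_AB (i j : κ) (h : i ≠ j) : Commute (twE (some i)) (twE' (some j)) :=
  (twE'_comm_twE (some j) (some i) (fun hh => h (Option.some.inj hh).symm)).symm

theorem comm_BB (i j : κ) (h : i ≠ j) : Commute (twE' (some i)) (twE' (some j)) := by
  refine ub_comm1 (isTw_twE' (some i)) (isTw_twE' (some j)) ?_ ?_ ?_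
  · rw [map_inv]
    congr 1
    exact twFree'_b (some i) (some j) 1
  · rw [map_inv]
    congr 1
    exact twFree'_b (some j) (some i) 1
  · intro x
    refine ⟨Or.inl rfl, ?_⟩
    by_cases hx : x = (some i, false)
    · right
      subst hx
      simp [h]
    · left
      simp [hx]

/-- `A_i` and `C_j`, `i` inside. -/
theorem comm_AC' (P : List κ) (i j : κ) (hj : j ∉ P) (h : i ∈ P) :
    Commute (twE (some i)) (CE P j hj) := by
  refine ub_comm2 (isTw_twE (some i)) (isTw_CE P j hj) ?_ (CE_in P j i hj h).1 ?_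
  · rw [map_mul, tw_eP]
    congr 1
    exact twFree_a (some i) (some j) 1
  · intro x
    refine ⟨fun h => absurd h (by simp), fun h' => ?_⟩
    have h'' : x = (some i, true) := of_decide_eq_true h'
    subst h''
    simp [rC, h]

/-- `B_i` and `C_j`, `i` inside. -/
theorem comm_BC' (P : List κ) (i j : κ) (hj : j ∉ P) (h : i ∈ P) :
    Commute (twE' (some i)) (CE P j hj) := by
  refine ub_comm2 (isTw_twE' (some i)) (isTw_CE P j hj) ?_ ?_ ?_
  · rw [map_mul, tw'_eP]
    congr 1
    exact twFree'_a_ne (some i) (some j) 1 (fun hh => hj ((Option.some.inj hh) ▸ h))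
  · rw [map_inv, (CE_in P j i hj h).2]
    group
  · intro x
    refine ⟨fun h => absurd h (by simp), fun h' => ?_⟩
    have h'' : x = (some i, false) := of_decide_eq_true h'
    subst h''
    simp [rC, h]

/-- `C_i` and `A_j`, `j` outside. -/
theorem comm_CA' (P : List κ) (i j : κ) (hi : i ∉ P) (hj : j ∉ P) (hij : j ≠ i) :
    Commute (CE P i hi) (twE (some j)) := by
  refine ub_comm1 (isTw_CE P i hi) (isTw_twE (some j)) (CE_out P i j hi hj hij).1 ?_ ?_
  · rw [map_mul, tw_eP]
    congr 1
    exact twFree_a (some j) (some i) 1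
  · intro x
    refine ⟨Or.inr rfl, ?_⟩
    by_cases hx : x = (some j, true)
    · left
      subst hx
      simp [rC, hj, hij]
    · right
      simp [hx]

/-- `C_i` and `B_j`, `j` outside. -/
theorem comm_CB' (P : List κ) (i j : κ) (hi : i ∉ P) (hj : j ∉ P) (hij : j ≠ i) :
    Commute (CE P i hi) (twE' (some j)) := by
  refine ub_comm1 (isTw_CE P i hi) (isTw_twE' (some j)) ?_ ?_ ?_
  · rw [map_inv, (CE_out P i j hi hj hij).2]
  · rw [map_mul, tw'_eP]
    congr 1
    exact twFree'_a_ne (some j) (some i) 1 (fun hh => hij (Option.some.inj hh).symm)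
  · intro x
    refine ⟨Or.inr rfl, ?_⟩
    by_cases hx : x = (some j, false)
    · left
      subst hx
      simp [rC, hj, hij]
    · right
      simp [hx]

/-- `C_i` and `C_j`, `C_i` inside. -/
theorem comm_CC' (P M : List κ) (i j : κ) (hi : i ∉ P) (hj : j ∉ P ++ i :: M)
    (hM : ∀ l ∈ M, l ∉ P ∧ l ≠ i) : Commute (CE P i hi) (CE (P ++ i :: M) j hj) := by
  refine ub_comm2 (isTw_CE P i hi) (isTw_CE (P ++ i :: M) j hj) ?_ ?_ ?_
  · have hjP : j ∉ P := fun h => hj (by simp [h])
    have hji : j ≠ i := fun h => hj (by simp [h])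
    rw [map_mul, (CE_out P i j hi hjP hji).1]
    congr 1
    rw [eP_append]
    simp only [map_mul, map_inv, CE_eP, (CE_i P i hi).1, (CE_i P i hi).2, CE_relS P M i hi hM]
    group
  · have h1 := gC_eP (eP (P ++ i :: M) * fa (some j)) (P ++ i :: M) j
    have h2 : CE (P ++ i :: M) j hj (eP P) =
        (eP (P ++ i :: M) * fa (some j))⁻¹ * eP P * (eP (P ++ i :: M) * fa (some j)) :=
      eP_conj (CE (P ++ i :: M) j hj).toMonoidHom _ P (CE_a0 _ j hj) (CE_b0 _ j hj)
        fun l hl => CE_in (P ++ i :: M) j l hj (by simp [hl])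
    rw [map_mul, h2, (CE_in (P ++ i :: M) j i hj (by simp)).1]
    group
  · rintro ⟨_ | l, s⟩
    · simp [lC, rC]
    · simp only [lC, rC, Bool.or_eq_true, decide_eq_true_eq, Bool.and_eq_true, List.mem_append,
        List.mem_cons]
      tauto

/-- `D(P)` and `D(P ++ [i])`. -/
theorem comm_DD (P : List κ) (i : κ) (hi : i ∉ P) : Commute (DE P) (DE (P ++ [i])) := by
  refine ub_comm2 (isTw_DE P) (isTw_DE (P ++ [i])) ?_ ?_ ?_
  · rw [eP_append]
    simp only [map_mul, map_inv, (isTw_DE P).c, (DE_out P i hi).1, (DE_out P i hi).2,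
      DE_relS P [] (by simp)]
  · exact eP_conj (DE (P ++ [i])).toMonoidHom _ P (DE_a0 _) (DE_b0 _)
      fun l hl => DE_in (P ++ [i]) l (by simp [hl])
  · rintro ⟨_ | l, s⟩
    · simp [lD, rD]
    · simp only [lD, rD, decide_eq_true_eq, List.mem_append]
      tauto

/-! ### The chain relation -/

/-- The product `A C B` of the chain. -/
def KE (P : List κ) (i : κ) (hi : i ∉ P) : MulAut (FreeGroup (Option κ × Bool)) :=
  twE (some i) * CE P i hi * twE' (some i)

section chain

variable (P : List κ) (i : κ) (hi : i ∉ P)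

theorem KE_app (w : FreeGroup (Option κ × Bool)) :
    KE P i hi w = twE (some i) (CE P i hi (twE' (some i) w)) := rfl

theorem twE_c : twE (some i) (eP P * fa (some i)) = eP P * fa (some i) := by
  rw [map_mul, tw_eP]
  congr 1
  exact twFree_a (some i) (some i) 1

theorem twE_b : twE (some i) (fb (some i)) = fb (some i) * fa (some i) := by
  show twFree (some i) 1 (fb (some i)) = _
  rw [twFree_b, zpow_one]

theorem twE_a (j : Option κ) : twE (some i) (fa j) = fa j := twFree_a (some i) j 1

theorem twE'_a : twE' (some i) (fa (some i)) = fa (some i) * (fb (some i))⁻¹ := by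
  show twFree' (some i) 1 (fa (some i)) = _
  rw [twFree'_a]
  simp

theorem twE'_b (j : Option κ) : twE' (some i) (fb j) = fb j := twFree'_b (some i) j 1

theorem K_e : KE P i hi (eP P) = (fa (some i))⁻¹ * eP P * fa (some i) := by
  rw [KE_app, tw'_eP, CE_eP, map_mul, map_mul, map_inv, twE_c, tw_eP]
  group

theorem K_a : KE P i hi (fa (some i)) = (fa (some i))⁻¹ * (eP P)⁻¹ * (fb (some i))⁻¹ := by
  rw [KE_app, twE'_a]
  simp only [map_mul, map_inv, (CE_i P i hi).1, (CE_i P i hi).2, twE_b, twE_a, tw_eP]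
  group

theorem K_b : KE P i hi (fb (some i)) = fb (some i) * fa (some i) * eP P * fa (some i) := by
  rw [KE_app, twE'_b]
  simp only [map_mul, (CE_i P i hi).2, twE_b, twE_a, tw_eP]
  group

theorem K_a0 : KE P i hi (fa none) = fa none := by
  have h : twE' (some i) (fa (none : Option κ)) = fa none :=
    twFree'_a_ne (some i) none 1 (by simp)
  rw [KE_app, h, CE_a0, twE_a]

theorem K_b0 : KE P i hi (fb none) = (fa (some i))⁻¹ * (eP P)⁻¹ * fb none := by
  have h : twE (some i) (fb (none : Option κ)) = fb none :=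
    twFree_b_ne (some i) none 1 (by simp)
  rw [KE_app, twE'_b, CE_b0]
  simp only [map_mul, map_inv, tw_eP, twE_a, h]
  group

theorem K_ain (j : κ) (h : j ∈ P) : KE P i hi (fa (some j)) =
    (eP P * fa (some i))⁻¹ * fa (some j) * (eP P * fa (some i)) := by
  have hji : j ≠ i := fun hh => hi (hh ▸ h)
  have h1 : twE' (some i) (fa (some j)) = fa (some j) :=
    twFree'_a_ne (some i) (some j) 1 (fun hh => hji (Option.some.inj hh))
  rw [KE_app, h1, (CE_in P i j hi h).1]
  simp only [map_mul, map_inv, tw_eP, twE_a]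

theorem K_bin (j : κ) (h : j ∈ P) : KE P i hi (fb (some j)) =
    (eP P * fa (some i))⁻¹ * fb (some j) * (eP P * fa (some i)) := by
  have hji : j ≠ i := fun hh => hi (hh ▸ h)
  have h1 : twE (some i) (fb (some j)) = fb (some j) :=
    twFree_b_ne (some i) (some j) 1 (fun hh => hji (Option.some.inj hh))
  rw [KE_app, twE'_b, (CE_in P i j hi h).2]
  simp only [map_mul, map_inv, tw_eP, twE_a, h1]

theorem K_out (j : κ) (h : j ∉ P) (hji : j ≠ i) : KE P i hi (fa (some j)) = fa (some j) ∧
    KE P i hi (fb (some j)) = fb (some j) := by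
  have h1 : twE' (some i) (fa (some j)) = fa (some j) :=
    twFree'_a_ne (some i) (some j) 1 (fun hh => hji (Option.some.inj hh))
  have h2 : twE (some i) (fb (some j)) = fb (some j) :=
    twFree_b_ne (some i) (some j) 1 (fun hh => hji (Option.some.inj hh))
  constructor
  · rw [KE_app, h1, (CE_out P i j hi h hji).1, twE_a]
  · rw [KE_app, twE'_b, (CE_out P i j hi h hji).2, h2]

theorem KE_four (w : FreeGroup (Option κ × Bool)) : (KE P i hi ^ 4) w =
    KE P i hi (KE P i hi (KE P i hi (KE P i hi w))) := rfl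

/-- The square of the chain, on the letters. -/
theorem K2_e : KE P i hi (KE P i hi (eP P)) =
    fb (some i) * eP P * (fb (some i))⁻¹ := by
  simp only [K_e, map_mul, map_inv, K_a]
  group

theorem K2_a : KE P i hi (KE P i hi (fa (some i))) =
    fb (some i) * (eP P)⁻¹ * (fa (some i))⁻¹ * (fb (some i))⁻¹ := by
  simp only [K_e, map_mul, map_inv, K_a, K_b]
  group

theorem K2_b : KE P i hi (KE P i hi (fb (some i))) =
    fb (some i) * fa (some i) * (fb (some i))⁻¹ * (fa (some i))⁻¹ * (fb (some i))⁻¹ := by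
  simp only [K_e, map_mul, map_inv, K_a, K_b]
  group

theorem K2_b0 : KE P i hi (KE P i hi (fb none)) = fb (some i) * (eP P)⁻¹ * fb none := by
  simp only [K_b0, map_mul, map_inv, K_a, K_e]
  group

theorem K2_x (x : FreeGroup (Option κ × Bool))
    (h : KE P i hi x = (eP P * fa (some i))⁻¹ * x * (eP P * fa (some i))) :
    KE P i hi (KE P i hi x) = fb (some i) * (eP P)⁻¹ * x * eP P * (fb (some i))⁻¹ := by
  rw [h]
  simp only [h, map_mul, map_inv, K_a, K_e]
  group

theorem K4_x (x : FreeGroup (Option κ × Bool))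
    (h : KE P i hi x = (eP P * fa (some i))⁻¹ * x * (eP P * fa (some i))) :
    KE P i hi (KE P i hi (KE P i hi (KE P i hi x))) =
      (eP (P ++ [i]))⁻¹ * (eP P)⁻¹ * x * eP P * eP (P ++ [i]) := by
  rw [K2_x P i hi x h]
  simp only [map_mul, map_inv, K2_x P i hi x h, K2_b, K2_e, eP_append, relS, relator,
    List.map_nil, List.prod_nil]
  group

/-- The chain relation. -/
theorem chain_rel : KE P i hi ^ 4 = DE P * DE (P ++ [i]) := by
  have e1 : DE P (eP (P ++ [i])) = eP (P ++ [i]) := by
    rw [eP_append]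
    simp only [map_mul, map_inv, (isTw_DE P).c, (DE_out P i hi).1, (DE_out P i hi).2,
      DE_relS P [] (by simp)]
  apply a3_aut_ext
  · rw [KE_four]
    show _ = DE P (DE (P ++ [i]) (fa none))
    rw [DE_a0, DE_a0]
    simp only [K_a0]
  · rw [KE_four, K2_b0]
    show _ = DE P (DE (P ++ [i]) (fb none))
    have h5 : DE P ((eP (P ++ [i]))⁻¹ * fb none) = (eP (P ++ [i]))⁻¹ * ((eP P)⁻¹ * fb none) := by
      rw [map_mul, map_inv, e1, DE_b0]
    rw [DE_b0, h5]
    simp only [map_mul, map_inv, K2_b, K2_e, K2_b0, eP_append, relS, relator,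
      List.map_nil, List.prod_nil]
    group
  · intro j
    rw [KE_four]
    show _ = DE P (DE (P ++ [i]) (fa (some j)))
    by_cases hj : j ∈ P
    · rw [K4_x P i hi _ (K_ain P i hi j hj), (DE_in (P ++ [i]) j (by simp [hj])).1]
      simp only [map_mul, map_inv, e1, (DE_in P j hj).1]
      group
    · by_cases hji : j = i
      · subst hji
        have h5 : DE P ((eP (P ++ [j]))⁻¹ * fa (some j) * eP (P ++ [j])) =
            (eP (P ++ [j]))⁻¹ * fa (some j) * eP (P ++ [j]) := by
          rw [map_mul, map_mul, map_inv, e1, (DE_out P j hj).1]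
        rw [K2_a, (DE_in (P ++ [j]) j (by simp)).1, h5]
        simp only [map_mul, map_inv, K2_b, K2_e, K2_a, eP_append, relS,
          relator, List.map_nil, List.prod_nil]
        group
      · rw [(DE_out (P ++ [i]) j (by simp [hj, hji])).1, (DE_out P j hj).1]
        simp only [(K_out P i hi j hj hji).1]
  · intro j
    rw [KE_four]
    show _ = DE P (DE (P ++ [i]) (fb (some j)))
    by_cases hj : j ∈ P
    · rw [K4_x P i hi _ (K_bin P i hi j hj), (DE_in (P ++ [i]) j (by simp [hj])).2]
      simp only [map_mul, map_inv, e1, (DE_in P j hj).2]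
      group
    · by_cases hji : j = i
      · subst hji
        have h5 : DE P ((eP (P ++ [j]))⁻¹ * fb (some j) * eP (P ++ [j])) =
            (eP (P ++ [j]))⁻¹ * fb (some j) * eP (P ++ [j]) := by
          rw [map_mul, map_mul, map_inv, e1, (DE_out P j hj).2]
        rw [K2_b, (DE_in (P ++ [j]) j (by simp)).2, h5]
        simp only [map_mul, map_inv, K2_b, K2_a, eP_append, relS,
          relator, List.map_nil, List.prod_nil]
        group
      · rw [(DE_out (P ++ [i]) j (by simp [hj, hji])).2, (DE_out P j hj).2]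
        simp only [(K_out P i hi j hj hji).2]

end chain

end Pool.Agent.Lib.MP_6a1159_al
end
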