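import Pool.Agent.Lib.MP_6a1159_al.Main
import Pool.Agent.Lib.MP_6a1159_al.HC.Sep
import Pool.Agent.Lib.MP_6a1159_al.Mg.G021

section

/-! General coverings of surface groups: composition, restriction of automorphisms. -/

set_option autoImplicit false

namespace Pool.Agent.Lib.MP_6a1159_al

/-- A covering: an injective homomorphism which multiplies the intersection form by a nonzero
constant. -/
structure Cov {ι ι' : Type} (L' : List ι') (L : List ι) (Θ : SG L' →* SG L) : Prop where
  inj : Function.Injective Θ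
  form : ∃ d : ℤ, d ≠ 0 ∧ ∀ x y : SG L →* Multiplicative ℤ,
    inter L' (x.comp Θ) (y.comp Θ) = d * inter L x y

theorem Cov.comp {ι ι' ι'' : Type} {L'' : List ι''} {L' : List ι'} {L : List ι}
    {Θ' : SG L'' →* SG L'} {Θ : SG L' →* SG L} (h' : Cov L'' L' Θ') (h : Cov L' L Θ) :
    Cov L'' L (Θ.comp Θ') := by
  refine ⟨h.inj.comp h'.inj, ?_⟩
  obtain ⟨d, hd, h1⟩ := h.form
  obtain ⟨d', hd', h1'⟩ := h'.form
  refine ⟨d' * d, mul_ne_zero hd' hd, fun x y => ?_⟩
  rw [← MonoidHom.comp_assoc, ← MonoidHom.comp_assoc, h1', h1, mul_assoc]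

theorem cov_aut {ι : Type} {L : List ι} (f : AutPlus L) : Cov L L f.1.toMonoidHom :=
  ⟨f.1.injective, 1, one_ne_zero, fun x y => by rw [one_mul]; exact f.2 x y⟩

theorem cov_id {ι : Type} (L : List ι) : Cov L L (MonoidHom.id _) :=
  ⟨Function.injective_id, 1, one_ne_zero, fun x y => by simp⟩

theorem cov_Theta {κ : Type} [DecidableEq κ] (p : ℕ) [NeZero p] (L0 : List κ) :
    Cov (BL (CL p L0)) (BL L0) (Theta p L0) :=
  ⟨Theta_injective p L0, p, by exact_mod_cast NeZero.ne p, inter_Theta p L0⟩

theorem exists_inter_one {κ : Type} (L0 : List κ) :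
    ∃ X Y : SG (BL L0) →* Multiplicative ℤ, inter (BL L0) X Y = 1 := by
  classical
  obtain ⟨X, hX⟩ := k5_hom (BL L0) (fun x => if x = (none, false) then Multiplicative.ofAdd 1 else 1)
  obtain ⟨Y, hY⟩ := k5_hom (BL L0) (fun x => if x = (none, true) then Multiplicative.ofAdd 1 else 1)
  refine ⟨X, Y, ?_⟩
  have hXa : ∀ i, X (ga (BL L0) i) = if i = none then Multiplicative.ofAdd 1 else 1 := by
    intro i
    have := hX (i, false)
    rw [ga, fa, this]
    simp
  have hXb : ∀ i, X (gb (BL L0) i) = 1 := by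
    intro i
    have := hX (i, true)
    rw [gb, fb, this]
    simp
  have hYb : ∀ i, Y (gb (BL L0) i) = if i = none then Multiplicative.ofAdd 1 else 1 := by
    intro i
    have := hY (i, true)
    rw [gb, fb, this]
    simp
  have hYa : ∀ i, Y (ga (BL L0) i) = 1 := by
    intro i
    have := hY (i, false)
    rw [ga, fa, this]
    simp
  unfold inter
  rw [List.map_cons, List.sum_cons, List.map_map]
  have h0 : ∀ l : List κ, (l.map ((fun i => (X (ga (BL L0) i)).toAdd * (Y (gb (BL L0) i)).toAdd -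
      (X (gb (BL L0) i)).toAdd * (Y (ga (BL L0) i)).toAdd) ∘ some)).sum = 0 := by
    intro l
    apply List.sum_eq_zero
    intro x hx
    obtain ⟨i, _, rfl⟩ := List.mem_map.1 hx
    simp [hXa, hXb, hYa, hYb]
  rw [h0]
  simp [hXa, hXb, hYa, hYb]

/-- Restriction of an automorphism which preserves the covering subgroup. -/
theorem Cov.res {κ ι' : Type} {L0 : List κ} {L' : List ι'} {Θ : SG L' →* SG (BL L0)}
    (h : Cov L' (BL L0) Θ) (f : AutPlus (BL L0)) (hf : ∀ w, f.1 w ∈ Θ.range ↔ w ∈ Θ.range) :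
    ∃ f' : AutPlus L', ∀ y, Θ (f'.1 y) = f.1 (Θ y) := by
  have h1 : ∀ y, ∃ y', Θ y' = f.1 (Θ y) := fun y => (hf _).2 ⟨y, rfl⟩
  have h2 : ∀ y, ∃ y', Θ y' = f.1⁻¹ (Θ y) := fun y => by
    have h3 := hf (f.1⁻¹ (Θ y))
    rw [MulAut.apply_inv_self] at h3
    exact h3.1 ⟨y, rfl⟩
  choose F hF using h1
  choose G hG using h2
  let f' : MulAut (SG L') :=
    { toFun := F
      invFun := G
      left_inv := fun y => by
        apply h.inj
        rw [hG, hF, MulAut.inv_apply_self]
      right_inv := fun y => by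
        apply h.inj
        rw [hF, hG, MulAut.apply_inv_self]
      map_mul' := fun y z => by
        apply h.inj
        rw [hF, map_mul, map_mul, map_mul, hF, hF] }
  have hf' : ∀ y, Θ (f' y) = f.1 (Θ y) := hF
  refine ⟨⟨f', ?_⟩, hf'⟩
  obtain ⟨e, he⟩ := exists_deg L' f'.toMonoidHom
  obtain ⟨d, hd, hform⟩ := h.form
  obtain ⟨X, Y, hXY⟩ := exists_inter_one L0
  have h4 := he (X.comp Θ) (Y.comp Θ)
  have e1 : ∀ Z : SG (BL L0) →* Multiplicative ℤ,
      (Z.comp Θ).comp f'.toMonoidHom = (Z.comp f.1.toMonoidHom).comp Θ := by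
    intro Z
    refine MonoidHom.ext fun y => ?_
    show Z (Θ (f' y)) = Z (f.1 (Θ y))
    rw [hf']
  rw [e1, e1, hform, hform, f.2 X Y, hXY] at h4
  have he1 : e = 1 := by
    have : d * (e - 1) = 0 := by linarith
    rcases mul_eq_zero.1 this with h5 | h5
    · exact absurd h5 hd
    · linarith
  intro x y
  have h5 := he x y
  rw [he1, one_mul] at h5
  exact h5

/-- If every automorphism preserves the covering subgroup, restriction is a homomorphism. -/
theorem Cov.exists_resHom {κ ι' : Type} {L0 : List κ} {L' : List ι'} {Θ : SG L' →* SG (BL L0)}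
    (h : Cov L' (BL L0) Θ) (hf : ∀ (f : AutPlus (BL L0)) (w), f.1 w ∈ Θ.range ↔ w ∈ Θ.range) :
    ∃ ρ : AutPlus (BL L0) →* AutPlus L', ∀ f y, Θ ((ρ f).1 y) = f.1 (Θ y) := by
  choose r hr using fun f => h.res f (hf f)
  refine ⟨{ toFun := r, map_one' := ?_, map_mul' := ?_ }, hr⟩
  · apply Subtype.ext
    ext y
    apply h.inj
    exact hr 1 y
  · intro f g
    apply Subtype.ext
    ext y
    apply h.inj
    rw [hr]
    show f.1 (g.1 (Θ y)) = Θ ((r f).1 ((r g).1 y))
    rw [hr, hr]

/-- Inner automorphisms, as elements of `AutPlus L`. -/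
def inn {ι : Type} (L : List ι) : SG L →* AutPlus L where
  toFun γ := ⟨MulAut.conj γ, conj_mem L γ⟩
  map_one' := Subtype.ext (map_one _)
  map_mul' a b := Subtype.ext (map_mul _ a b)

theorem inn_apply {ι : Type} (L : List ι) (γ y : SG L) : (inn L γ).1 y = γ * y * γ⁻¹ := rfl

theorem mk_inn {ι : Type} (L : List ι) (γ : SG L) :
    (QuotientGroup.mk (inn L γ) : Mod L) = 1 :=
  (QuotientGroup.eq_one_iff _).2 ⟨γ, rfl⟩

/-- Two automorphisms with the same class differ by an inner one. -/
theorem exists_inn {ι : Type} (L : List ι) (V W : AutPlus L)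
    (h : (QuotientGroup.mk V : Mod L) = QuotientGroup.mk W) : ∃ δ, V = inn L δ * W := by
  have h1 : (QuotientGroup.mk (V * W⁻¹) : Mod L) = 1 := by
    rw [QuotientGroup.mk_mul, QuotientGroup.mk_inv, h, mul_inv_cancel]
  obtain ⟨δ, hδ⟩ := (QuotientGroup.eq_one_iff _).1 h1
  refine ⟨δ, ?_⟩
  have h2 : inn L δ = V * W⁻¹ := Subtype.ext hδ
  rw [h2, inv_mul_cancel_right]

theorem mul_inn {ι : Type} (L : List ι) (V : AutPlus L) (δ : SG L) :
    V * inn L δ = inn L (V.1 δ) * V := by
  apply Subtype.ext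
  ext y
  show V.1 (δ * y * δ⁻¹) = V.1 δ * V.1 y * (V.1 δ)⁻¹
  rw [map_mul, map_mul, map_inv]

/-- A product of automorphisms `inn (δ q) * P q` is an inner automorphism times the product of the
`P q`. -/
theorem prod_inn {ι J : Type} (L : List ι) (l : List J) (δ : J → SG L) (P : J → AutPlus L) :
    ∃ γ, (l.map fun q => inn L (δ q) * P q).prod = inn L γ * (l.map P).prod := by
  induction l with
  | nil => exact ⟨1, by simp⟩
  | cons q l ih =>
    obtain ⟨γ, hγ⟩ := ih
    refine ⟨δ q * (P q).1 γ, ?_⟩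
    rw [List.map_cons, List.prod_cons, hγ, List.map_cons, List.prod_cons, map_mul]
    calc inn L (δ q) * P q * (inn L γ * (l.map P).prod)
        = inn L (δ q) * (P q * inn L γ) * (l.map P).prod := by simp only [mul_assoc]
      _ = inn L (δ q) * (inn L ((P q).1 γ) * P q) * (l.map P).prod := by rw [mul_inn]
      _ = _ := by simp only [mul_assoc]

end Pool.Agent.Lib.MP_6a1159_al
end

section

/-! Normal forms of cyclic coverings relative to a curve, with the position of the curve. -/

set_option autoImplicit false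

namespace Pool.Agent.Lib.MP_6a1159_al

/-- The automorphisms which map `x` to a conjugate of `x`. -/
def CF {G : Type} [Group G] (x : G) : Subgroup (MulAut G) where
  carrier := {e | ∃ u, e x = u * x * u⁻¹}
  mul_mem' := by
    rintro e f ⟨u, hu⟩ ⟨v, hv⟩
    refine ⟨e v * u, ?_⟩
    show e (f x) = _
    rw [hv, map_mul, map_mul, map_inv, hu]
    group
  one_mem' := ⟨1, by simp⟩
  inv_mem' := by
    rintro e ⟨u, hu⟩
    refine ⟨(e⁻¹ u)⁻¹, ?_⟩
    have h : e⁻¹ (e x) = e⁻¹ (u * x * u⁻¹) := by rw [hu]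
    rw [MulAut.inv_apply_self, map_mul, map_mul, map_inv] at h
    rw [inv_inv]
    conv_rhs => rw [h]
    group

variable {κ : Type} [DecidableEq κ] {p : ℕ} [Fact p.Prime]

omit [Fact p.Prime] in
theorem twE_CF {ι : Type} [DecidableEq ι] (j i : ι) : twE j ∈ CF (fa i) :=
  ⟨1, by
    show twFree j 1 (fa i) = _
    rw [twFree_a, one_mul, inv_one, mul_one]⟩

omit [Fact p.Prime] in
theorem twE'_CF {ι : Type} [DecidableEq ι] (j i : ι) (h : i ≠ j) : twE' j ∈ CF (fa i) :=
  ⟨1, by
    show twFree' j 1 (fa i) = _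
    rw [twFree'_a_ne j i 1 h, one_mul, inv_one, mul_one]⟩

theorem pushE_CF_none (P : List κ) (j : κ) (hj : j ∉ P) :
    pushE P j hj ∈ CF (fa (none : Option κ)) :=
  ⟨1, by
    show pushHom P j 1 (fa none) = _
    rw [a4_a, one_mul, inv_one, mul_one]⟩

theorem pushE_CF_some (P : List κ) (j i : κ) (hj : j ∉ P) :
    pushE P j hj ∈ CF (fa (some i : Option κ)) := by
  by_cases h : i = j
  · subst h
    refine ⟨pushW' P i ^ (-1 : ℤ), ?_⟩
    show pushHom P i 1 (fa (some i)) = _
    rw [a4_ai]
    group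
  · refine ⟨1, ?_⟩
    show pushHom P j 1 (fa (some i)) = _
    rw [a4_aj P j i 1 h, one_mul, inv_one, mul_one]

/-- Every nontrivial homomorphism `c` can be moved to a multiple of `c00` by an automorphism which
conjugates the twist about `a` to the twist about `b` (if `c a ≠ 0`) or about some `a_i`
(if `c a = 0`). -/
theorem types' (L0 : List κ) (hn : L0.Nodup) (hc : ∀ k, k ∈ L0)
    (c : FreeGroup (Option κ × Bool) →* Multiplicative (ZMod p)) (hc1 : c ≠ 1) :
    ∃ e ∈ StR (BL L0), (∀ w, c (e w) = 1 ↔ c00 p w = 1) ∧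
      ((c (fa none) ≠ 1 ∧ e⁻¹ * twE none * e = twE' none ∧
          ∃ u, e (fb none) = u * (fa none)⁻¹ * u⁻¹) ∨
        (c (fa none) = 1 ∧ ∃ i : Option κ, e⁻¹ * twE none * e = twE i ∧
          ∃ u, e (fa i) = u * fa none * u⁻¹)) := by
  have hnQ : ∀ (P : List κ) (j : κ) (Q : List κ), L0 = P ++ j :: Q → j ∉ P ∧ j ∉ Q := by
    intro P j Q h
    rw [h, List.nodup_append] at hn
    obtain ⟨_, h2, h3⟩ := hn
    refine ⟨fun hj => h3 j hj j List.mem_cons_self rfl, ?_⟩
    rw [List.nodup_cons] at h2
    exact h2.1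
  by_cases ha : c (fa none) = 1
  · by_cases hall : ∀ j : κ, c (fa (some j)) = 1 ∧ c (fb (some j)) = 1
    · -- `c` is already a multiple of `c00`
      have hb : c (fb none) ≠ 1 := by
        intro hb
        apply hc1
        refine FreeGroup.ext_hom _ _ fun x => ?_
        obtain ⟨_ | j, _ | _⟩ := x
        · exact ha
        · exact hb
        · exact (hall j).1
        · exact (hall j).2
      refine ⟨1, one_mem _, ?_, Or.inr ⟨ha, none, by simp, 1, by simp⟩⟩
      intro w
      rw [MulAut.one_apply]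
      apply n3_iff c hb
      rintro ⟨_ | j, _ | _⟩ hx
      · exact ha
      · exact absurd rfl hx
      · exact (hall j).1
      · exact (hall j).2
    · push Not at hall
      obtain ⟨i, hi⟩ := hall
      obtain ⟨P, Q, hPQ⟩ := List.append_of_mem (hc i)
      obtain ⟨hiP, hiQ⟩ := hnQ P i Q hPQ
      set X := exE P i hiP with hX
      have hXa : c (X (fa none)) = c (fa (some i)) := by
        have h2 : X (fa none) = (fa none * fb none * (fa none)⁻¹ * (fb none)⁻¹ * relS P) *
            fa (some i) * (fa none * fb none * (fa none)⁻¹ * (fb none)⁻¹ * relS P)⁻¹ := by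
          show exHom P i (fa none) = _
          simp [exHom, fa]
        rw [h2, map_mul, map_mul, map_inv, mul_right_comm, mul_inv_cancel, one_mul]
      have hXb : c (X (fb none)) = c (fb (some i)) := by
        have h2 : X (fb none) = (fa none * fb none * (fa none)⁻¹ * (fb none)⁻¹ * relS P) *
            fb (some i) * (fa none * fb none * (fa none)⁻¹ * (fb none)⁻¹ * relS P)⁻¹ := by
          show exHom P i (fb none) = _
          simp [exHom, fb]
        rw [h2, map_mul, map_mul, map_inv, mul_right_comm, mul_inv_cancel, one_mul]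
      have hXai : c (X (fa (some i))) = 1 := by
        have h2 : X (fa (some i)) = (relS P)⁻¹ * fa none * relS P := by
          show exHom P i (fa (some i)) = _
          simp [exHom, fa]
        rw [h2, map_mul, map_mul, map_inv, ha, mul_one, inv_mul_cancel]
      have hXmem : X ∈ StR (BL L0) := by
        rw [hPQ]
        exact exE_mem P Q i hiP hiQ
      -- make the value at `a` nontrivial
      obtain ⟨Y, hYmem, hYcomm, hYCF, hYa, hYai⟩ : ∃ Y ∈ StR (BL L0),
          Commute Y (twE (some i)) ∧ Y ∈ CF (fa (some i)) ∧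
            c (X (Y (fa none))) ≠ 1 ∧ c (X (Y (fa (some i)))) = 1 := by
        by_cases h1 : c (X (fa none)) = 1
        · refine ⟨twE' none, twE'_mem _ _, twE'_comm_twE none (some i) (by simp),
            twE'_CF none (some i) (by simp), ?_, ?_⟩
          · have h2 : (twE' none : MulAut (FreeGroup (Option κ × Bool))) (fa none) =
                fa none * fb none ^ (-1 : ℤ) := by
              exact twFree'_a (ι := Option κ) none 1
            rw [h2, map_mul, map_mul, h1, one_mul, map_zpow, map_zpow, zpow_neg_one, Ne,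
              inv_eq_one, hXb]
            rw [hXa] at h1
            intro h3
            exact hi h1 h3
          · have h2 : (twE' none : MulAut (FreeGroup (Option κ × Bool))) (fa (some i)) =
                fa (some i) := by
              exact twFree'_a_ne (ι := Option κ) none (some i) 1 (by simp)
            rw [h2, hXai]
        · exact ⟨1, one_mem _, Commute.one_left _, one_mem _, by simpa using h1, by simpa using hXai⟩
      set c2 : FreeGroup (Option κ × Bool) →* Multiplicative (ZMod p) :=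
        (c.comp X.toMonoidHom).comp Y.toMonoidHom with hc2
      have hc2' : ∀ w, c2 w = c (X (Y w)) := fun w => rfl
      obtain ⟨F, hF, hF1, hF2, hF3⟩ := kill L0 hn hc
        (StR (BL L0) ⊓ Subgroup.centralizer {twE (some i)} ⊓ CF (fa (some i))) c2 hYa
        (fun P' j Q' hj h => by
          obtain ⟨h1, h2⟩ := hnQ P' j Q' h
          exact Subgroup.mem_inf.2 ⟨n3_mem (by rw [h]; exact pushE_mem P' Q' j hj h2)
            (pushE_comm_some P' j i hj), pushE_CF_some P' j i hj⟩)
        (fun j => by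
          by_cases hji : j = i
          · subst hji
            exact Or.inr hYai
          · refine Or.inl ⟨Subgroup.mem_inf.2 ⟨n3_mem (twE_mem _ _) (twE_comm_twE _ _),
              twE_CF _ _⟩, Subgroup.mem_inf.2
              ⟨n3_mem (twE'_mem _ _) (twE'_comm_twE _ _ (by simpa using hji)),
                twE'_CF _ _ (fun hh => hji (Option.some_injective _ hh).symm)⟩⟩)
        (Subgroup.mem_inf.2 ⟨n3_mem (twE_mem _ _) (twE_comm_twE _ _), twE_CF _ _⟩)
      obtain ⟨hF', hFCF⟩ := Subgroup.mem_inf.1 hF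
      have hFc := n3_comm hF'
      refine ⟨X * Y * F * rotE, ?_, ?_, Or.inr ⟨ha, some i, ?_, ?_⟩⟩
      · exact mul_mem (mul_mem (mul_mem hXmem hYmem) hF'.1) (rotE_mem L0)
      · intro w
        have h1 : c ((X * Y * F * rotE : MulAut (FreeGroup (Option κ × Bool))) w) = (c2.comp F.toMonoidHom) (rotE w) := rfl
        rw [h1]
        refine n3_rot (c2.comp F.toMonoidHom) ?_ hF2 hF3 w
        show c2 (F (fa none)) ≠ 1
        rw [hF1]
        exact hYa
      · have e1 : X⁻¹ * twE none * X = twE (some i) := exE_conj P i hiP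
        have e2 : Y⁻¹ * twE (some i) * Y = twE (some i) := by
          rw [mul_assoc, ← hYcomm.eq, ← mul_assoc, inv_mul_cancel, one_mul]
        have e3 : F⁻¹ * twE (some i) * F = twE (some i) := by
          rw [mul_assoc, ← hFc.eq, ← mul_assoc, inv_mul_cancel, one_mul]
        have e4 : (rotE : MulAut (FreeGroup (Option κ × Bool)))⁻¹ * twE (some i) * rotE =
            twE (some i) := by
          rw [mul_assoc, ← (rotE_comm i).eq, ← mul_assoc, inv_mul_cancel, one_mul]
        calc (X * Y * F * rotE)⁻¹ * twE none * (X * Y * F * rotE)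
            = rotE⁻¹ * (F⁻¹ * (Y⁻¹ * (X⁻¹ * twE none * X) * Y) * F) * rotE := by group
          _ = twE (some i) := by rw [e1, e2, e3, e4]
      · obtain ⟨u1, hu1⟩ := mul_mem hYCF hFCF
        have h1 : (rotE : MulAut (FreeGroup (Option κ × Bool))) (fa (some i)) = fa (some i) :=
          a3_rot_sa i
        have h2 : X (fa (some i)) = (relS P)⁻¹ * fa none * relS P := by
          show exHom P i (fa (some i)) = _
          simp [exHom, fa]
        refine ⟨X u1 * (relS P)⁻¹, ?_⟩
        show X (Y (F (rotE (fa (some i))))) = _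
        rw [h1]
        have h3 : Y (F (fa (some i))) = u1 * fa (some i) * u1⁻¹ := hu1
        rw [h3, map_mul, map_mul, map_inv, h2]
        group
  · obtain ⟨F, hF, hF1, hF2, hF3⟩ := kill L0 hn hc
      (StR (BL L0) ⊓ Subgroup.centralizer {twE none} ⊓ CF (fa none)) c ha
      (fun P' j Q' hj h => by
        obtain ⟨h1, h2⟩ := hnQ P' j Q' h
        exact Subgroup.mem_inf.2 ⟨n3_mem (by rw [h]; exact pushE_mem P' Q' j hj h2)
          (pushE_comm_none P' j hj), pushE_CF_none P' j hj⟩)
      (fun j => Or.inl ⟨Subgroup.mem_inf.2 ⟨n3_mem (twE_mem _ _) (twE_comm_twE _ _), twE_CF _ _⟩,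
        Subgroup.mem_inf.2 ⟨n3_mem (twE'_mem _ _) (twE'_comm_twE _ _ (by simp)),
          twE'_CF _ _ (by simp)⟩⟩)
      (Subgroup.mem_inf.2 ⟨n3_mem (twE_mem _ _) (Commute.refl _), twE_CF _ _⟩)
    obtain ⟨hF', hFCF⟩ := Subgroup.mem_inf.1 hF
    have hFc := n3_comm hF'
    refine ⟨F * rotE, mul_mem hF'.1 (rotE_mem L0), ?_, Or.inl ⟨ha, ?_, ?_⟩⟩
    · intro w
      have h1 : c ((F * rotE : MulAut (FreeGroup (Option κ × Bool))) w) = (c.comp F.toMonoidHom) (rotE w) := rfl
      rw [h1]
      refine n3_rot (c.comp F.toMonoidHom) ?_ hF2 hF3 w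
      show c (F (fa none)) ≠ 1
      rw [hF1]
      exact ha
    · have e3 : F⁻¹ * twE none * F = twE none := by
        rw [mul_assoc, ← hFc.eq, ← mul_assoc, inv_mul_cancel, one_mul]
      calc (F * rotE)⁻¹ * twE none * (F * rotE)
          = rotE⁻¹ * (F⁻¹ * twE none * F) * rotE := by group
        _ = twE' none := by rw [e3, rotE_conj]
    · obtain ⟨u1, hu1⟩ := hFCF
      have h1 : (rotE : MulAut (FreeGroup (Option κ × Bool))) (fb none) = (fa none)⁻¹ := a3_rot_b
      refine ⟨u1, ?_⟩
      show F (rotE (fb none)) = _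
      rw [h1, map_inv, hu1]
      group

end Pool.Agent.Lib.MP_6a1159_al
end

section

/-! Lifts of Dehn twists to the cyclic covering, with the positions of the curves. -/

set_option autoImplicit false

namespace Pool.Agent.Lib.MP_6a1159_al

section CPC

variable {ι : Type} [DecidableEq ι]

/-- `u` is a product of `r` conjugates of the `N`-th power of the twist; the conjugating
automorphisms satisfy `Pg`. -/
def CPC (L : List (Option ι)) (Pg : AutPlus L → Prop) (r N : ℕ) (u : Mod L) : Prop :=
  ∃ l : List (AutPlus L), l.length = r ∧ (∀ g ∈ l, Pg g) ∧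
    u = (l.map fun g => (QuotientGroup.mk g : Mod L) * tw L none ^ N * (QuotientGroup.mk g)⁻¹).prod

theorem CPC_mul {L : List (Option ι)} {Pg : AutPlus L → Prop} {r r' N : ℕ} {u u' : Mod L}
    (h : CPC L Pg r N u) (h' : CPC L Pg r' N u') : CPC L Pg (r + r') N (u * u') := by
  obtain ⟨l, h1, h2, h3⟩ := h
  obtain ⟨l', h1', h2', h3'⟩ := h'
  refine ⟨l ++ l', by simp [h1, h1'], ?_, by rw [h3, h3']; simp⟩
  intro g hg
  rcases List.mem_append.1 hg with h | h
  · exact h2 g h
  · exact h2' g h

theorem CPC_single (L : List (Option ι)) (Pg : AutPlus L → Prop) (N : ℕ) (g : AutPlus L)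
    (hg : Pg g) : CPC L Pg 1 N ((QuotientGroup.mk g : Mod L) * tw L none ^ N *
      (QuotientGroup.mk g)⁻¹) :=
  ⟨[g], rfl, by simpa using hg, by simp⟩

theorem CPC_list {L : List (Option ι)} {Pg : AutPlus L → Prop} {N : ℕ} {J : Type} (l : List J)
    (u : J → Mod L) (h : ∀ j ∈ l, CPC L Pg 1 N (u j)) : CPC L Pg l.length N (l.map u).prod := by
  induction l with
  | nil => exact ⟨[], rfl, by simp, rfl⟩
  | cons j l ih =>
    have := CPC_mul (h j (by simp)) (ih fun i hi => h i (by simp [hi]))
    rw [List.map_cons, List.prod_cons, List.length_cons, Nat.add_comm]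
    exact this

/-- The same at the level of automorphisms. -/
theorem CPC_inn {L : List (Option ι)} {Pg : AutPlus L → Prop} {r N : ℕ} (V : AutPlus L)
    (h : CPC L Pg r N (QuotientGroup.mk V : Mod L)) :
    ∃ (δ : SG L) (l : List (AutPlus L)), l.length = r ∧ (∀ g ∈ l, Pg g) ∧
      V = inn L δ * (l.map fun g => g * twist L none ^ N * g⁻¹).prod := by
  obtain ⟨l, h1, h2, h3⟩ := h
  have h4 : (QuotientGroup.mk V : Mod L) = QuotientGroup.mk
      (l.map fun g => g * twist L none ^ N * g⁻¹).prod := by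
    rw [h3]
    have h5 := map_list_prod (QuotientGroup.mk' (Inn L))
      (l.map fun g => g * twist L none ^ N * g⁻¹)
    rw [List.map_map] at h5
    exact h5.symm
  obtain ⟨δ, hδ⟩ := exists_inn L V _ h4
  exact ⟨δ, l, h1, h2, hδ⟩

end CPC

variable {κ : Type} [DecidableEq κ] (p : ℕ) [NeZero p] (L0 : List κ)

/-- The curve of `g` lies over the curve `a_i`. -/
def PC (i : Option κ) (g : AutPlus (BL (CL p L0))) : Prop :=
  ∃ u, Theta p L0 (g.1 (ga _ none)) = u * ga _ i * u⁻¹

/-- The curve of `g` lies over the curve `a`. -/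
abbrev PB (g : AutPlus (BL (CL p L0))) : Prop := PC p L0 none g

theorem PB_cb (n : ℕ) : PB p L0 (res p L0 (cb p L0) ^ n) := by
  refine ⟨gb _ none ^ n, ?_⟩
  have h : res p L0 (cb p L0) ^ n = res p L0 (cb p L0 ^ n) := (map_pow _ _ _).symm
  rw [h, res_spec, r6_th_a]
  have h2 : ∀ n : ℕ, ∀ w, ((cb p L0 ^ n).1).1 w =
      gb (BL L0) none ^ n * w * (gb (BL L0) none ^ n)⁻¹ := by
    intro n
    induction n with
    | zero => intro w; rw [pow_zero, pow_zero]; simp
    | succ n ih =>
      intro w
      rw [pow_succ]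
      show ((cb p L0 ^ n).1).1 (((cb p L0).1).1 w) = _
      rw [ih]
      show _ * (gb (BL L0) none * w * (gb (BL L0) none)⁻¹) * _ = _
      rw [pow_succ]
      group
  exact h2 n _

/-- The twist about `a_j` is conjugate to the twist about `a`, with the position of the curve. -/
theorem exists_some_conj {κ' : Type} [DecidableEq κ'] (L1 : List κ') (hn : L1.Nodup) (j : κ')
    (hj : j ∈ L1) : ∃ g : AutPlus (BL L1), twist (BL L1) (some j) = g * twist (BL L1) none * g⁻¹ ∧
      ∃ u, g.1 (ga _ none) = u * ga _ (some j) * u⁻¹ := by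
  obtain ⟨P, Q, hPQ⟩ := List.append_of_mem hj
  have hPj : j ∉ P ∧ j ∉ Q := by
    rw [hPQ, List.nodup_append] at hn
    obtain ⟨_, h2, h3⟩ := hn
    refine ⟨fun hj => h3 j hj j List.mem_cons_self rfl, ?_⟩
    rw [List.nodup_cons] at h2
    exact h2.1
  have hX : exE P j hPj.1 ∈ StR (BL L1) := by
    rw [hPQ]
    exact exE_mem P Q j hPj.1 hPj.2
  set X : AutPlus (BL L1) := toAut (BL L1) ⟨exE P j hPj.1, hX⟩ with hXdef
  refine ⟨X⁻¹, ?_, ?_⟩
  · rw [inv_inv, ← toAut_twE, ← toAut_twE, hXdef, ← map_inv, ← map_mul, ← map_mul]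
    congr 1
    apply Subtype.ext
    exact (exE_conj P j hPj.1).symm
  · have h1 : X.1 (ga _ (some j)) = (proj _ (relS P))⁻¹ * ga _ none * proj _ (relS P) := by
      show X.1 (proj _ (fa (some j))) = _
      rw [hXdef, toAut_proj]
      show proj _ (exHom P j (fa (some j))) = _
      rw [a6_hom_sa, map_mul, map_mul, map_inv]
      rfl
    have h2 : ga (BL L1) (some j) = (X⁻¹ : AutPlus (BL L1)).1 (X.1 (ga _ (some j))) := by
      show _ = X.1⁻¹ (X.1 _)
      rw [MulAut.inv_apply_self]
    refine ⟨(X⁻¹ : AutPlus (BL L1)).1 (proj _ (relS P)), ?_⟩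
    rw [h2, h1, map_mul, map_mul, map_inv]
    group

/-- Type C: the twist about `a_i` restricts to the product of the twists about `a_(k,i)`. -/
theorem lift_C (hn : L0.Nodup) (i : κ) (hi : i ∈ L0) (m : ℕ) (f : St0 p L0)
    (hf : f.1 = twist (BL L0) (some i) ^ m) :
    CPC (BL (CL p L0)) (PC p L0 (some i)) p m (rM p L0 f) := by
  have hinj : Function.Injective (fun k : Fin p => (some (k, i) : Option (Fin p × κ))) := by
    intro k l h
    simpa using h
  have hJ : ((List.finRange p).map fun k : Fin p => (some (k, i) : Option (Fin p × κ))).Nodup :=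
    (List.nodup_finRange p).map hinj
  have hres : res p L0 f = (((List.finRange p).map fun k : Fin p =>
      (some (k, i) : Option (Fin p × κ))).map fun z => twist (BL (CL p L0)) z ^ m).prod := by
    have hb0 : (twist (BL L0) (some i) ^ m).1 (gb (BL L0) none) = gb (BL L0) none :=
      r4_pow_b_ne _ _ _ (by simp) m
    apply res_eq
    · intro z
      rw [r4_prod_a, hf]
      rcases z with _ | ⟨k, l⟩
      · rw [r4_Theta_a0, r4_pow_a]
      · rw [r4_Theta_a, map_mul, map_mul, map_inv, map_pow, hb0, r4_pow_a]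
    · intro z
      rw [hf]
      rcases z with _ | ⟨k, l⟩
      · rw [r4_prod_b_not _ _ _ _ (by simp), r4_Theta_b0, map_pow, hb0]
      · by_cases hl : l = i
        · subst hl
          rw [r4_prod_b _ _ hJ m _ (List.mem_map.2 ⟨k, by simp, rfl⟩), map_mul, map_pow,
            r4_Theta_b, r4_Theta_a, map_mul, map_mul, map_inv, map_pow, hb0, r4_pow_b]
          have hpow : ∀ (u v : SG (BL L0)), (u * v * u⁻¹) ^ m = u * v ^ m * u⁻¹ := by
            intro u v
            rw [← MulAut.conj_apply, ← MulAut.conj_apply, map_pow]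
          rw [hpow]
          simp only [mul_assoc, inv_mul_cancel_left]
        · have hne : (some (k, l) : Option (Fin p × κ)) ∉
              (List.finRange p).map fun k : Fin p => (some (k, i) : Option (Fin p × κ)) := by
            intro h
            obtain ⟨k', _, h'⟩ := List.mem_map.1 h
            simp only [Option.some.injEq, Prod.mk.injEq] at h'
            exact hl h'.2.symm
          rw [r4_prod_b_not _ _ _ _ hne, r4_Theta_b, map_mul, map_mul, map_inv, map_pow, hb0,
            r4_pow_b_ne _ _ _ (by simpa using hl)]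
  have hcl : rM p L0 f = ((List.finRange p).map fun k : Fin p =>
      tw (BL (CL p L0)) (some (k, i)) ^ m).prod := by
    show (QuotientGroup.mk' _) (res p L0 f) = _
    rw [hres, map_list_prod, List.map_map, List.map_map]
    rfl
  rw [hcl]
  have h1 := CPC_list (L := BL (CL p L0)) (Pg := PC p L0 (some i)) (N := m) (List.finRange p)
    (fun k : Fin p => tw (BL (CL p L0)) (some (k, i)) ^ m) (by
      intro k _
      have hmem : (k, i) ∈ CL p L0 := by
        rw [CL, List.mem_flatMap]
        exact ⟨k, by simp, List.mem_map.2 ⟨i, hi, rfl⟩⟩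
      obtain ⟨g, hg, u, hu⟩ := exists_some_conj (CL p L0) (CL_nodup p L0 hn) (k, i) hmem
      have h2 := CPC_single (BL (CL p L0)) (PC p L0 (some i)) m g (by
        refine ⟨Theta p L0 u * gb _ none ^ (k : ℕ), ?_⟩
        rw [hu, map_mul, map_mul, map_inv, r4_Theta_a]
        group)
      have h3 : tw (BL (CL p L0)) (some (k, i)) ^ m =
          (QuotientGroup.mk g : Mod (BL (CL p L0))) * tw (BL (CL p L0)) none ^ m *
            (QuotientGroup.mk g)⁻¹ := by
        show (QuotientGroup.mk (twist (BL (CL p L0)) (some (k, i))) : Mod (BL (CL p L0))) ^ m = _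
        rw [hg, QuotientGroup.mk_mul, QuotientGroup.mk_mul, QuotientGroup.mk_inv, conj_pow]
        rfl
      show CPC _ _ 1 m (tw (BL (CL p L0)) (some (k, i)) ^ m)
      rw [h3]
      exact h2)
  rw [List.length_finRange] at h1
  exact h1

/-- The product of the `U_1, ..., U_j`. -/
theorem r6_V' (m j : ℕ) (hjp : j < p) : ∃ V : AutPlus (BL (CL p L0)),
    CPC (BL (CL p L0)) (PB p L0) j m (QuotientGroup.mk V : Mod (BL (CL p L0))) ∧
    (∀ y ∈ Subgroup.closure (r6S p L0 j), Theta p L0 (V.1 y) =
      (twist (BL L0) none ^ m).1 (Theta p L0 y)) ∧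
    Theta p L0 (V.1 (gb _ none)) = (gb (BL L0) none * ga (BL L0) none ^ m) ^ j *
      (gb (BL L0) none ^ j)⁻¹ * gb (BL L0) none ^ p ∧
    ∀ (k : Fin p) (i : κ), j ≤ (k : ℕ) →
      Theta p L0 (V.1 (ga _ (some (k, i)))) =
        ((gb (BL L0) none * ga (BL L0) none ^ m) ^ j * (gb (BL L0) none ^ j)⁻¹) *
          Theta p L0 (ga _ (some (k, i))) *
          ((gb (BL L0) none * ga (BL L0) none ^ m) ^ j * (gb (BL L0) none ^ j)⁻¹)⁻¹ ∧
      Theta p L0 (V.1 (gb _ (some (k, i)))) =
        ((gb (BL L0) none * ga (BL L0) none ^ m) ^ j * (gb (BL L0) none ^ j)⁻¹) *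
          Theta p L0 (gb _ (some (k, i))) *
          ((gb (BL L0) none * ga (BL L0) none ^ m) ^ j * (gb (BL L0) none ^ j)⁻¹)⁻¹ := by
  induction j with
  | zero =>
    refine ⟨1, ⟨[], rfl, by simp, rfl⟩, ?_, ?_, ?_⟩
    · intro y hy
      have h : Set.EqOn (Theta p L0) ((twist (BL L0) none ^ m).1.toMonoidHom.comp (Theta p L0))
          (Subgroup.closure (r6S p L0 0)) := by
        apply MonoidHom.eqOn_closure
        rintro y (rfl | ⟨k, i, hk, rfl | rfl⟩)
        · show Theta p L0 _ = (twist (BL L0) none ^ m).1 (Theta p L0 _)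
          rw [r6_th_a, r6_tw_a]
        · show Theta p L0 _ = (twist (BL L0) none ^ m).1 (Theta p L0 _)
          rw [r6_th_ai, show (k : ℕ) = 0 by omega]
          simp only [pow_zero, one_mul, inv_one, mul_one, r6_tw_a]
        · show Theta p L0 _ = (twist (BL L0) none ^ m).1 (Theta p L0 _)
          rw [r6_th_bi, show (k : ℕ) = 0 by omega]
          simp only [pow_zero, one_mul, inv_one, mul_one]
          rw [r6_tw_b_ne _ _ _ _ (by simp)]
      exact h hy
    · show Theta p L0 (gb _ none) = _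
      rw [r6_th_b]; simp
    · intro k i _
      constructor
      · show Theta p L0 (ga _ _) = _
        simp
      · show Theta p L0 (gb _ _) = _
        simp
  | succ j ih =>
    obtain ⟨V, hCP, h1, h2, h3⟩ := ih (by omega)
    obtain ⟨U, hU, hUa, hUb, hUk⟩ := exists_U p L0 m (j + 1) (by omega) hjp
    obtain ⟨x, hx, hxe⟩ := r6_x p L0 j (by omega)
    set a := ga (BL L0) none with ha
    set b := gb (BL L0) none with hb
    -- the image of `x ^ m`
    have hxm : Theta p L0 (x ^ m) = b ^ (j + 1) * a ^ m * (b ^ (j + 1))⁻¹ := by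
      rw [map_pow, hxe, conj_pow]
    have hVx : Theta p L0 (V.1 (x ^ m)) = (b * a ^ m) ^ (j + 1) * a ^ m *
        ((b * a ^ m) ^ (j + 1))⁻¹ := by
      rw [h1 _ (Subgroup.pow_mem _ hx m), hxm, map_mul, map_mul, map_inv, map_pow, map_pow,
        r6_tw_b, r6_tw_a]
    have key : (b * a ^ m) ^ (j + 1) * a ^ m * ((b * a ^ m) ^ (j + 1))⁻¹ *
        ((b * a ^ m) ^ j * (b ^ j)⁻¹) = (b * a ^ m) ^ (j + 1) * (b ^ (j + 1))⁻¹ := by
      rw [pow_succ (b * a ^ m) j, pow_succ b j]
      group
    have hconj : ∀ (k : Fin p) (y : SG (BL (CL p L0))), Theta p L0 (U.1 y) =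
        (b ^ (j + 1) * a ^ m * (b ^ (j + 1))⁻¹) * Theta p L0 y *
          (b ^ (j + 1) * a ^ m * (b ^ (j + 1))⁻¹)⁻¹ →
        Theta p L0 (V.1 y) = ((b * a ^ m) ^ j * (b ^ j)⁻¹) * Theta p L0 y *
          ((b * a ^ m) ^ j * (b ^ j)⁻¹)⁻¹ →
        Theta p L0 ((V * U).1 y) = ((b * a ^ m) ^ (j + 1) * (b ^ (j + 1))⁻¹) *
          Theta p L0 y * ((b * a ^ m) ^ (j + 1) * (b ^ (j + 1))⁻¹)⁻¹ := by
      intro k y hy hV
      have e : U.1 y = x ^ m * y * (x ^ m)⁻¹ := by
        apply Theta_injective p L0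
        rw [hy, map_mul, map_mul, map_inv, hxm]
      show Theta p L0 (V.1 (U.1 y)) = _
      rw [e, map_mul, map_mul, map_inv, map_mul, map_mul, map_inv, hVx, hV, ← key]
      group
    refine ⟨V * U, ?_, ?_, ?_, ?_⟩
    · have := CPC_mul hCP (CPC_single (BL (CL p L0)) (PB p L0) m (res p L0 (cb p L0) ^ (j + 1))
        (PB_cb p L0 (j + 1)))
      have e : (QuotientGroup.mk (res p L0 (cb p L0) ^ (j + 1)) : Mod (BL (CL p L0))) =
        rM p L0 (cb p L0) ^ (j + 1) := rfl
      rw [e, ← hU, ← QuotientGroup.mk_mul] at this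
      exact this
    · have h : Set.EqOn ((Theta p L0).comp (V * U).1.toMonoidHom)
          ((twist (BL L0) none ^ m).1.toMonoidHom.comp (Theta p L0))
          (Subgroup.closure (r6S p L0 (j + 1))) := by
        apply MonoidHom.eqOn_closure
        rintro y (rfl | ⟨k, i, hk, hy⟩)
        · show Theta p L0 (V.1 (U.1 (ga _ none))) = (twist (BL L0) none ^ m).1 (Theta p L0 _)
          rw [hUa, h1 _ (Subgroup.subset_closure (Or.inl rfl))]
        · show Theta p L0 (V.1 (U.1 _)) = (twist (BL L0) none ^ m).1 (Theta p L0 _)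
          rcases Nat.lt_or_ge (k : ℕ) (j + 1) with hlt | hge
          · have hm : y ∈ Subgroup.closure (r6S p L0 j) :=
              Subgroup.subset_closure (Or.inr ⟨k, i, by omega, hy⟩)
            have hUy : U.1 y = y := by
              rcases hy with rfl | rfl
              · exact ((hUk k i).1 hlt).1
              · exact ((hUk k i).1 hlt).2
            rw [hUy, h1 _ hm]
          · have hk' : (k : ℕ) = j + 1 := by omega
            rcases hy with rfl | rfl
            · have := hconj k _ ((hUk k i).2 hge).1 (h3 k i (by omega)).1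
              have h' : Theta p L0 (V.1 (U.1 (ga _ (some (k, i))))) = _ := this
              rw [h', r6_th_ai, hk', map_mul, map_mul, map_inv, map_pow, r6_tw_b, r6_tw_a,
                ← hb, ← ha]
              group
            · have := hconj k _ ((hUk k i).2 hge).2 (h3 k i (by omega)).2
              have h' : Theta p L0 (V.1 (U.1 (gb _ (some (k, i))))) = _ := this
              rw [h', r6_th_bi, hk', map_mul, map_mul, map_inv, map_pow, r6_tw_b,
                r6_tw_b_ne _ _ _ _ (by simp), ← hb, ← ha]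
              group
      intro y hy
      exact h hy
    · have e : U.1 (gb _ none) = x ^ m * gb _ none := by
        apply Theta_injective p L0
        rw [hUb, map_mul, hxm, r6_th_b]
      show Theta p L0 (V.1 (U.1 (gb _ none))) = _
      rw [e, map_mul, map_mul, hVx, h2, ← key]
      group
    · intro k i hk
      exact ⟨hconj k _ ((hUk k i).2 hk).1 (h3 k i (by omega)).1,
        hconj k _ ((hUk k i).2 hk).2 (h3 k i (by omega)).2⟩

/-- Type B: the twist about `a` restricts to the product of the twists about the `p` lifts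
`x_0, ..., x_(p-1)` of `a`. -/
theorem lift_B (m : ℕ) (f : St0 p L0) (hf : f.1 = twist (BL L0) none ^ m) :
    CPC (BL (CL p L0)) (PB p L0) p m (rM p L0 f) := by
  have hp : 1 ≤ p := Nat.one_le_iff_ne_zero.2 (NeZero.ne p)
  obtain ⟨V, hCP, h1, h2, h3⟩ := r6_V' p L0 m (p - 1) (by omega)
  have hall : ∀ k : Fin p, (k : ℕ) ≤ p - 1 := fun k => by omega
  have hres : res p L0 f = V * twist (BL (CL p L0)) none ^ m := by
    apply res_eq
    · intro i
      rw [hf]
      show Theta p L0 (V.1 ((twist (BL (CL p L0)) none ^ m).1 (ga _ i))) = _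
      rw [r6_tw_a]
      apply h1
      apply Subgroup.subset_closure
      cases i with
      | none => exact Or.inl rfl
      | some q => exact Or.inr ⟨q.1, q.2, hall _, Or.inl rfl⟩
    · intro i
      rw [hf]
      show Theta p L0 (V.1 ((twist (BL (CL p L0)) none ^ m).1 (gb _ i))) = _
      cases i with
      | none =>
        have h0 : ga (BL (CL p L0)) none ∈ Subgroup.closure (r6S p L0 (p - 1)) :=
          Subgroup.subset_closure (Or.inl rfl)
        have hm : ga (BL (CL p L0)) none ^ m ∈ Subgroup.closure (r6S p L0 (p - 1)) :=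
          Subgroup.pow_mem _ h0 m
        rw [r6_tw_b, map_mul, map_mul, h2, h1 _ hm, map_pow, map_pow, r6_th_a, r6_th_b, r6_tw_a,
          map_pow, r6_tw_b]
        obtain ⟨n, rfl⟩ : ∃ n, p = n + 1 := ⟨p - 1, by omega⟩
        simp only [Nat.add_sub_cancel]
        rw [pow_succ (gb (BL L0) none) n, pow_succ (gb (BL L0) none * ga (BL L0) none ^ m) n]
        group
      | some q =>
        rw [r6_tw_b_ne _ _ _ _ (by simp)]
        apply h1
        apply Subgroup.subset_closure
        exact Or.inr ⟨q.1, q.2, hall _, Or.inr rfl⟩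
  have hM : rM p L0 f = (QuotientGroup.mk V : Mod (BL (CL p L0))) *
      tw (BL (CL p L0)) none ^ m := by
    show (QuotientGroup.mk (res p L0 f) : Mod (BL (CL p L0))) = _
    rw [hres]
    rfl
  rw [hM]
  have := CPC_mul hCP (CPC_single (BL (CL p L0)) (PB p L0) m 1 (by
    refine ⟨1, ?_⟩
    show Theta p L0 (ga _ none) = _
    rw [r6_th_a]
    group))
  rw [QuotientGroup.mk_one, one_mul, inv_one, mul_one, show p - 1 + 1 = p by omega] at this
  exact this

/-- Type A: the `p n`-th power of the twist about `b` restricts to a conjugate of the `n`-th power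
of the twist. -/
theorem lift_A (n : ℕ) (f : St0 p L0)
    (hf : f.1 = toAut (BL L0) ⟨twE' none, twE'_mem none _⟩ ^ (p * n)) :
    ∃ g : AutPlus (BL (CL p L0)), res p L0 f = g * twist (BL (CL p L0)) none ^ n * g⁻¹ ∧
      Theta p L0 (g.1 (ga _ none)) = (gb _ none ^ p)⁻¹ := by
  have hF : ∀ w, f.1.1 (proj (BL L0) w) = proj (BL L0) (twFree' none ((p * n : ℕ) : ℤ) w) := by
    intro w
    rw [hf]
    exact r3_toAut_pow (BL L0) (p * n) w
  have h1 : res p L0 f = toAut (BL (CL p L0)) ⟨twE' none, twE'_mem none _⟩ ^ n := by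
    apply res_eq
    · intro i
      show Theta p L0 ((toAut (BL (CL p L0)) ⟨twE' none, twE'_mem none _⟩ ^ n).1
        (proj _ (fa i))) = f.1.1 (Theta p L0 (proj _ (fa i)))
      rw [r3_toAut_pow, Theta_proj, Theta_proj, hF]
      congr 1
      rcases i with _ | q
      · simp only [twFree'_a, map_mul, map_zpow, r3_th_a_none, r3_th_b_none]
        rw [← zpow_natCast, ← zpow_mul]
        push_cast
        congr 2
        ring
      · rw [twFree'_a_ne none (some q) _ (by simp)]
        simp only [r3_th_a_some, map_mul, map_pow, map_inv, twFree'_b,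
          twFree'_a_ne none (some q.2) _ (by simp : some q.2 ≠ none)]
    · intro i
      show Theta p L0 ((toAut (BL (CL p L0)) ⟨twE' none, twE'_mem none _⟩ ^ n).1
        (proj _ (fb i))) = f.1.1 (Theta p L0 (proj _ (fb i)))
      rw [r3_toAut_pow, Theta_proj, Theta_proj, hF, twFree'_b]
      congr 1
      rcases i with _ | q
      · simp only [r3_th_b_none, map_pow, twFree'_b]
      · simp only [r3_th_b_some, map_mul, map_pow, map_inv, twFree'_b]
  set X : AutPlus (BL (CL p L0)) := toAut (BL (CL p L0)) ⟨rotE, rotE_mem _⟩ with hXdef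
  refine ⟨X⁻¹, ?_, ?_⟩
  · have h2 : X⁻¹ * twist (BL (CL p L0)) none * X =
        toAut (BL (CL p L0)) ⟨twE' none, twE'_mem none _⟩ := by
      rw [← toAut_twE, hXdef, ← map_inv, ← map_mul, ← map_mul]
      congr 1
      apply Subtype.ext
      exact rotE_conj
    rw [h1, ← h2]
    have := (conj_pow (i := n) (a := X⁻¹) (b := twist (BL (CL p L0)) none))
    rw [inv_inv] at this ⊢
    exact this
  · have h1 : X.1 (gb _ none) = (ga _ none)⁻¹ := by
      show X.1 (proj _ (fb none)) = _
      rw [hXdef, toAut_proj]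
      show proj _ (rotHom (fb none)) = _
      rw [a3_rot_b, map_inv]
      rfl
    have h2 : (X⁻¹ : AutPlus (BL (CL p L0))).1 (ga _ none) = (gb _ none)⁻¹ := by
      have h3 : (X⁻¹ : AutPlus (BL (CL p L0))).1 (X.1 (gb _ none)) = gb _ none := by
        show X.1⁻¹ (X.1 _) = _
        rw [MulAut.inv_apply_self]
      rw [h1, map_inv, inv_eq_iff_eq_inv] at h3
      exact h3
    rw [h2, map_inv, r6_th_b]

end Pool.Agent.Lib.MP_6a1159_al
end

section

/-! Lifting products of conjugates of powers of the twist through one cyclic covering. -/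

set_option autoImplicit false

namespace Pool.Agent.Lib.MP_6a1159_al

section ord

variable {G : Type} [Group G]

/-- `e` is the order of `x` modulo `K`. -/
def Ord (K : Subgroup G) (x : G) (e : ℕ) : Prop := ∀ n : ℕ, x ^ n ∈ K ↔ e ∣ n

theorem Ord.conj {K : Subgroup G} [hK : K.Normal] {x : G} {e : ℕ} (h : Ord K x e) (u : G) :
    Ord K (u * x * u⁻¹) e := by
  intro n
  rw [conj_pow, ← h n]
  constructor
  · intro h1
    have := hK.conj_mem _ h1 u⁻¹
    rwa [inv_inv, mul_assoc, mul_assoc, inv_mul_cancel, mul_one, ← mul_assoc, inv_mul_cancel,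
      one_mul] at this
  · intro h1
    exact hK.conj_mem _ h1 u

theorem Ord.inv {K : Subgroup G} {x : G} {e : ℕ} (h : Ord K x e) : Ord K x⁻¹ e := by
  intro n
  rw [inv_pow, K.inv_mem_iff]
  exact h n

theorem Ord.pow {K : Subgroup G} {x : G} {p d : ℕ} (hp : 0 < p) (h : Ord K x (p * d)) :
    Ord K (x ^ p) d := by
  intro n
  rw [← pow_mul, h (p * n), Nat.mul_dvd_mul_iff_left hp]

end ord

/-- The product of the conjugates of the powers of the twist. -/
noncomputable def ptw {ι : Type} [DecidableEq ι] (L : List (Option ι)) (k : ℕ)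
    (l : List (AutPlus L × ℕ)) : AutPlus L :=
  (l.map fun q => q.1 * twist L none ^ (q.2 * k) * q.1⁻¹).prod

theorem ptw_append {ι : Type} [DecidableEq ι] (L : List (Option ι)) (k : ℕ)
    (l l' : List (AutPlus L × ℕ)) : ptw L k (l ++ l') = ptw L k l * ptw L k l' := by
  simp [ptw]

theorem conj_ptw {ι : Type} [DecidableEq ι] (L : List (Option ι)) (k : ℕ)
    (s : AutPlus L) (l : List (AutPlus L × ℕ)) :
    s * ptw L k l * s⁻¹ = ptw L k (l.map fun q => (s * q.1, q.2)) := by
  unfold ptw
  induction l with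
  | nil => simp
  | cons q l ih =>
    simp only [List.map_cons, List.prod_cons]
    rw [← ih]
    simp only [mul_inv_rev, mul_assoc, inv_mul_cancel_left]

/-- The automorphisms `F k` restrict, up to conjugation, to products of conjugates of powers of the
twist; `R` measures the number of factors. -/
def MT {κ' G : Type} [DecidableEq κ'] [Group G] (L1 : List κ') (Θ : SG (BL L1) →* G)
    (K : Subgroup G) (m : ℕ) (F : ℕ → MulAut G) (R : ℕ) : Prop :=
  ∀ k : ℕ, ∃ (γ : G) (l : List (AutPlus (BL L1) × ℕ)), (l.map fun q => m / q.2).sum = R ∧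
    (∀ q ∈ l, q.2 ∣ m ∧ Ord K (Θ (q.1.1 (ga _ none))) q.2) ∧
    ∀ y, F k (Θ y) = γ * Θ ((ptw (BL L1) k l).1 y) * γ⁻¹

section step

variable {κ : Type} [DecidableEq κ] (p : ℕ) [Fact p.Prime] (L1 : List κ)

theorem tw_St0 (i : Option κ) : twist (BL L1) i ∈ St0 p L1 := by
  have h1 : (c0 p L1).comp (twist (BL L1) i).1.toMonoidHom = c0 p L1 := by
    apply PresentedGroup.ext
    rintro ⟨j, s⟩
    cases s
    · show c0 p L1 ((twist (BL L1) i).1 (ga _ j)) = c0 p L1 (ga _ j)
      rw [show (twist (BL L1) i).1 (ga _ j) = ga _ j from twAut_a _ i j]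
    · show c0 p L1 ((twist (BL L1) i).1 (gb _ j)) = c0 p L1 (gb _ j)
      by_cases h : j = i
      · subst h
        rw [show (twist (BL L1) j).1 (gb _ j) = gb _ j * ga _ j from twAut_b _ j, map_mul, k3_c0_a,
          mul_one]
      · rw [show (twist (BL L1) i).1 (gb _ j) = gb _ j from twAut_b_ne _ i j h]
  intro w
  have h2 : c0 p L1 ((twist (BL L1) i).1 w) = c0 p L1 w := DFunLike.congr_fun h1 w
  rw [h2]

theorem tw'_St0 (n : ℕ) : toAut (BL L1) ⟨twE' none, twE'_mem none _⟩ ^ (p * n) ∈ St0 p L1 := by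
  have h1 : (c0 p L1).comp (toAut (BL L1) ⟨twE' none, twE'_mem none _⟩ ^ (p * n)).1.toMonoidHom =
      c0 p L1 := by
    apply PresentedGroup.ext
    rintro ⟨j, s⟩
    cases s
    · show c0 p L1 ((toAut (BL L1) ⟨twE' none, twE'_mem none _⟩ ^ (p * n)).1 (proj _ (fa j))) =
        c0 p L1 (ga _ j)
      rw [r3_toAut_pow]
      by_cases h : j = none
      · subst h
        rw [twFree'_a, map_mul, map_zpow]
        show c0 p L1 (ga _ none * gb _ none ^ (-((p * n : ℕ) : ℤ))) = _
        rw [map_mul, map_zpow, k3_c0_b]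
        have : (Multiplicative.ofAdd (1 : ZMod p)) ^ (-((p * n : ℕ) : ℤ)) = 1 := by
          apply Multiplicative.toAdd.injective
          rw [toAdd_zpow, toAdd_ofAdd, toAdd_one]
          push_cast
          simp
        rw [this, mul_one]
      · rw [twFree'_a_ne none j _ h]
        rfl
    · show c0 p L1 ((toAut (BL L1) ⟨twE' none, twE'_mem none _⟩ ^ (p * n)).1 (proj _ (fb j))) =
        c0 p L1 (gb _ j)
      rw [r3_toAut_pow, twFree'_b]
      rfl
  intro w
  have h2 : c0 p L1 ((toAut (BL L1) ⟨twE' none, twE'_mem none _⟩ ^ (p * n)).1 w) = c0 p L1 w :=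
    DFunLike.congr_fun h1 w
  rw [h2]

omit [DecidableEq κ] [Fact p.Prime] in
theorem aut_mul_apply {ι : Type} {L : List ι} (f g : AutPlus L) (y : SG L) :
    (f * g).1 y = f.1 (g.1 y) := rfl

omit [DecidableEq κ] [Fact p.Prime] in
theorem aut_inv_apply {ι : Type} {L : List ι} (f : AutPlus L) (y : SG L) :
    f⁻¹.1 (f.1 y) = y := MulAut.inv_apply_self _ f.1 y

omit [DecidableEq κ] [Fact p.Prime] in
theorem aut_apply_inv {ι : Type} {L : List ι} (f : AutPlus L) (y : SG L) :
    f.1 (f⁻¹.1 y) = y := MulAut.apply_inv_self _ f.1 y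

/-- One factor. -/
theorem elem_step (hn : L1.Nodup) (hc : ∀ k, k ∈ L1) {G : Type} [Group G]
    (Θ : SG (BL L1) →* G) (K : Subgroup G) [K.Normal] (c : SG (BL L1) →* Multiplicative (ZMod p))
    (hK : ∀ w, Θ w ∈ K → c w = 1) (hc1 : c ≠ 1) (m : ℕ) (hm : 0 < m) (ε : AutPlus (BL L1))
    (hε : ∀ w, c (ε.1 w) = 1 ↔ c0 p L1 w = 1) (q : AutPlus (BL L1) × ℕ)
    (hq : q.2 ∣ m ∧ Ord K (Θ (q.1.1 (ga _ none))) q.2) (k : ℕ) :
    ∃ (δ : SG (BL (CL p L1))) (l' : List (AutPlus (BL (CL p L1)) × ℕ)),
      (l'.map fun r => m / r.2).sum = p * (m / q.2) ∧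
      (∀ r ∈ l', r.2 ∣ m ∧ Ord K (Θ (ε.1 (Theta p L1 (r.1.1 (ga _ none))))) r.2) ∧
      ∀ y, (q.1 * twist _ none ^ (q.2 * k) * q.1⁻¹).1 (ε.1 (Theta p L1 y)) =
        ε.1 (Theta p L1 ((inn _ δ * ptw _ k l').1 y)) := by
  obtain ⟨h, e0⟩ := q
  obtain ⟨hq1, hq2⟩ := hq
  simp only at hq1 hq2 ⊢
  have hp0 : 0 < p := (Fact.out : p.Prime).pos
  set ch : FreeGroup (Option κ × Bool) →* Multiplicative (ZMod p) :=
    (c.comp h.1.toMonoidHom).comp (proj (BL L1)) with hch
  have hch' : ∀ w, ch w = c (h.1 (proj (BL L1) w)) := fun w => rfl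
  have hch1 : ch ≠ 1 := by
    intro h1
    apply hc1
    refine MonoidHom.ext fun w => ?_
    obtain ⟨w', hw'⟩ := PresentedGroup.mk_surjective _ (h⁻¹.1 w)
    have h2 : ch w' = 1 := DFunLike.congr_fun h1 w'
    rw [hch'] at h2
    have h3 : proj (BL L1) w' = h⁻¹.1 w := hw'
    rw [h3, aut_apply_inv] at h2
    exact h2
  obtain ⟨e, he, hew, hcase⟩ := types' L1 hn hc ch hch1
  set E : AutPlus (BL L1) := toAut (BL L1) ⟨e, he⟩ with hE
  have hEc : ∀ w, c (h.1 (E.1 w)) = 1 ↔ c0 p L1 w = 1 := by
    intro w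
    obtain ⟨w, rfl⟩ := PresentedGroup.mk_surjective _ w
    have h1 := toAut_proj (BL L1) ⟨e, he⟩ w
    have h2 : c (h.1 (E.1 (proj (BL L1) w))) = ch (e w) := by
      rw [hE, h1]
      rfl
    rw [show (PresentedGroup.mk ({relator (BL L1)} : Set (FreeGroup (Option κ × Bool)))) w =
      proj (BL L1) w from rfl, h2, c0_proj]
    exact hew w
  have hσ : ε⁻¹ * h * E ∈ St0 p L1 := by
    intro w
    have h1 := hε ((ε⁻¹ * h * E).1 w)
    have h2 : ε.1 ((ε⁻¹ * h * E).1 w) = h.1 (E.1 w) := by
      rw [aut_mul_apply, aut_mul_apply, aut_apply_inv]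
    rw [h2] at h1
    rw [← h1]
    exact hEc w
  set σ : St0 p L1 := ⟨ε⁻¹ * h * E, hσ⟩ with hσdef
  -- the position of a curve
  have hcurve : ∀ (x : SG (BL (CL p L1))), Θ (ε.1 (Theta p L1 ((res p L1 σ).1 x))) =
      Θ (h.1 (E.1 (Theta p L1 x))) := by
    intro x
    rw [res_spec]
    show Θ (ε.1 ((ε⁻¹ * h * E).1 _)) = _
    rw [aut_mul_apply, aut_mul_apply, aut_apply_inv]
  -- the general formula
  have hform : ∀ (T : AutPlus (BL L1)) (N : ℕ) (hT : T ^ N ∈ St0 p L1),
      E⁻¹ * twist (BL L1) none * E = T → ∀ y,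
      (h * twist _ none ^ N * h⁻¹).1 (ε.1 (Theta p L1 y)) =
        ε.1 (Theta p L1 ((res p L1 σ * res p L1 ⟨T ^ N, hT⟩ * (res p L1 σ)⁻¹).1 y)) := by
    intro T N hT hTE y
    have h1 : twist (BL L1) none ^ N = E * T ^ N * E⁻¹ := by
      rw [← hTE]
      have := conj_pow (i := N) (a := E⁻¹) (b := twist (BL L1) none)
      rw [inv_inv] at this
      rw [this]
      group
    have h2 : (res p L1 σ * res p L1 ⟨T ^ N, hT⟩ * (res p L1 σ)⁻¹) =
        res p L1 (σ * ⟨T ^ N, hT⟩ * σ⁻¹) := by
      rw [map_mul, map_mul, map_inv]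
    rw [h2, res_spec, ← aut_mul_apply, ← aut_mul_apply, h1]
    have h3 : (h * (E * T ^ N * E⁻¹) * h⁻¹) * ε = ε * (σ * ⟨T ^ N, hT⟩ * σ⁻¹ : St0 p L1).1 := by
      show _ = ε * ((ε⁻¹ * h * E) * T ^ N * (ε⁻¹ * h * E)⁻¹)
      group
    rw [h3]
  rcases hcase with ⟨hA, hA1, u, hA2⟩ | ⟨hB, i, hB1, u, hB2⟩
  · -- type A
    have hpe : p ∣ e0 := by
      have h1 : Θ (h.1 (ga _ none)) ^ e0 ∈ K := (hq2 e0).2 dvd_rfl
      rw [← map_pow] at h1
      have h2 := hK _ h1
      rw [map_pow] at h2
      have h3 : c (h.1 (ga _ none)) ≠ 1 := hA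
      have h4 : (e0 : ZMod p) * (c (h.1 (ga _ none))).toAdd = 0 := by
        have := congrArg Multiplicative.toAdd h2
        rwa [toAdd_pow, toAdd_one, nsmul_eq_mul] at this
      rcases mul_eq_zero.1 h4 with h5 | h5
      · exact (ZMod.natCast_eq_zero_iff _ _).1 h5
      · exact absurd (Multiplicative.toAdd.injective h5) h3
    obtain ⟨e1, rfl⟩ := hpe
    have hT : toAut (BL L1) ⟨twE' none, twE'_mem none _⟩ ^ (p * e1 * k) ∈ St0 p L1 := by
      rw [mul_assoc]
      exact tw'_St0 p L1 (e1 * k)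
    have hTE : E⁻¹ * twist (BL L1) none * E = toAut (BL L1) ⟨twE' none, twE'_mem none _⟩ := by
      rw [← toAut_twE, hE, ← map_inv, ← map_mul, ← map_mul]
      congr 1
      apply Subtype.ext
      exact hA1
    obtain ⟨g, hg, hgc⟩ := lift_A p L1 (e1 * k)
      ⟨toAut (BL L1) ⟨twE' none, twE'_mem none _⟩ ^ (p * e1 * k), hT⟩ (by
        show _ ^ (p * e1 * k) = _
        rw [mul_assoc])
    refine ⟨1, [(res p L1 σ * g, e1)], ?_, ?_, ?_⟩
    · have he1 : 0 < e1 := by
        rcases Nat.eq_zero_or_pos e1 with h0 | h0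
        · subst h0
          rw [mul_zero, zero_dvd_iff] at hq1
          omega
        · exact h0
      obtain ⟨d, hd⟩ := hq1
      rw [List.map_cons, List.sum_cons, List.map_nil, List.sum_nil, add_zero]
      show m / e1 = p * (m / (p * e1))
      rw [hd, Nat.mul_div_cancel_left _ (Nat.mul_pos hp0 he1), mul_assoc, mul_left_comm,
        Nat.mul_div_cancel_left _ he1]
    · intro r hr
      rw [List.mem_singleton] at hr
      subst hr
      refine ⟨(Dvd.intro_left p rfl).trans hq1, ?_⟩
      rw [aut_mul_apply, hcurve, hgc]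
      have h1 : E.1 (gb _ none) = proj _ u * (ga _ none)⁻¹ * (proj _ u)⁻¹ := by
        show E.1 (proj _ (fb none)) = _
        rw [hE, toAut_proj]
        show proj _ (e (fb none)) = _
        rw [hA2, map_mul, map_mul, map_inv, map_inv]
        rfl
      have h2 : Θ (h.1 (E.1 ((gb (BL L1) none ^ p)⁻¹))) = Θ (h.1 (proj _ u)) *
          (Θ (h.1 (ga _ none)) ^ p) * (Θ (h.1 (proj _ u)))⁻¹ := by
        rw [map_inv, map_pow, h1, conj_pow, inv_pow]
        simp only [map_mul, map_inv, map_pow, mul_inv_rev, inv_inv, mul_assoc]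
      rw [h2]
      exact (hq2.pow hp0).conj _
    · intro y
      rw [hform _ (p * e1 * k) hT hTE y, hg, map_one, one_mul]
      congr 3
  · -- types B and C
    have hT : twist (BL L1) i ^ (e0 * k) ∈ St0 p L1 := (St0 p L1).pow_mem (tw_St0 p L1 i) _
    have hTE : E⁻¹ * twist (BL L1) none * E = twist (BL L1) i := by
      rw [← toAut_twE, ← toAut_twE, hE, ← map_inv, ← map_mul, ← map_mul]
      congr 1
      apply Subtype.ext
      exact hB1
    have hCPC : CPC (BL (CL p L1)) (PC p L1 i) p (e0 * k)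
        (QuotientGroup.mk (res p L1 ⟨twist (BL L1) i ^ (e0 * k), hT⟩) : Mod (BL (CL p L1))) := by
      cases i with
      | none => exact lift_B p L1 (e0 * k) _ rfl
      | some i => exact lift_C p L1 hn i (hc i) (e0 * k) _ rfl
    obtain ⟨δ, l, hl1, hl2, hl3⟩ := CPC_inn _ hCPC
    refine ⟨(res p L1 σ).1 δ, l.map fun g => (res p L1 σ * g, e0), ?_, ?_, ?_⟩
    · rw [List.map_map]
      have h1 : (fun r : AutPlus (BL (CL p L1)) × ℕ => m / r.2) ∘
          (fun g => (res p L1 σ * g, e0)) = fun _ => m / e0 := rfl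
      rw [h1, List.map_const', List.sum_replicate, hl1, smul_eq_mul]
    · intro r hr
      obtain ⟨g, hg, rfl⟩ := List.mem_map.1 hr
      refine ⟨hq1, ?_⟩
      obtain ⟨v, hv⟩ := hl2 g hg
      rw [aut_mul_apply, hcurve, hv]
      have h1 : E.1 (ga _ i) = proj _ u * ga _ none * (proj _ u)⁻¹ := by
        show E.1 (proj _ (fa i)) = _
        rw [hE, toAut_proj]
        show proj _ (e (fa i)) = _
        rw [hB2, map_mul, map_mul, map_inv]
        rfl
      have h2 : Θ (h.1 (E.1 (v * ga (BL L1) i * v⁻¹))) = Θ (h.1 (E.1 v * proj _ u)) *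
          Θ (h.1 (ga _ none)) * (Θ (h.1 (E.1 v * proj _ u)))⁻¹ := by
        have h3 : E.1 (v * ga (BL L1) i * v⁻¹) = E.1 v *
            (proj _ u * ga _ none * (proj _ u)⁻¹) * (E.1 v)⁻¹ := by
          rw [map_mul, map_mul, map_inv, h1]
        rw [h3]
        simp only [map_mul, map_inv, mul_inv_rev, mul_assoc]
      rw [h2]
      exact hq2.conj _
    · intro y
      rw [hform _ (e0 * k) hT hTE y, hl3]
      congr 3
      have h1 : ptw (BL (CL p L1)) k (l.map fun g => (res p L1 σ * g, e0)) =
          res p L1 σ * (l.map fun g => g * twist (BL (CL p L1)) none ^ (e0 * k) * g⁻¹).prod *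
            (res p L1 σ)⁻¹ := by
        have h2 := conj_ptw (BL (CL p L1)) k (res p L1 σ) (l.map fun g => (g, e0))
        rw [List.map_map] at h2
        have h3 : ptw (BL (CL p L1)) k (l.map fun g => (g, e0)) =
            (l.map fun g => g * twist (BL (CL p L1)) none ^ (e0 * k) * g⁻¹).prod := by
          unfold ptw
          rw [List.map_map]
          rfl
        rw [h3] at h2
        exact h2.symm
      rw [h1, ← mul_assoc (res p L1 σ) (inn _ δ), mul_inn]
      simp only [mul_assoc]

/-- Lifting through one cyclic covering. -/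
theorem MT_step (hn : L1.Nodup) (hc : ∀ k, k ∈ L1) {κ0 : Type} (L0 : List κ0)
    (Θ : SG (BL L1) →* SG (BL L0)) (hΘ : Cov (BL L1) (BL L0) Θ) (K : Subgroup (SG (BL L0)))
    [K.Normal] (c : SG (BL L1) →* Multiplicative (ZMod p)) (hK : ∀ w, Θ w ∈ K → c w = 1)
    (hc1 : c ≠ 1) (m : ℕ) (hm : 0 < m) (F : ℕ → MulAut (SG (BL L0))) (R : ℕ)
    (hMT : MT L1 Θ K m F R) :
    ∃ Θ' : SG (BL (CL p L1)) →* SG (BL L0), Cov (BL (CL p L1)) (BL L0) Θ' ∧
      (∀ w, w ∈ Θ'.range ↔ ∃ y, c y = 1 ∧ Θ y = w) ∧ MT (CL p L1) Θ' K m F (p * R) := by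
  set c' : FreeGroup (Option κ × Bool) →* Multiplicative (ZMod p) := c.comp (proj (BL L1)) with hc'
  have hc2 : c' ≠ 1 := by
    intro h
    apply hc1
    refine MonoidHom.ext fun w => ?_
    obtain ⟨w, rfl⟩ := PresentedGroup.mk_surjective _ w
    exact DFunLike.congr_fun h w
  obtain ⟨e, he, hew, -⟩ := types' L1 hn hc c' hc2
  set ε : AutPlus (BL L1) := toAut (BL L1) ⟨e, he⟩ with hεdef
  have hε : ∀ w, c (ε.1 w) = 1 ↔ c0 p L1 w = 1 := by
    intro w
    obtain ⟨w, rfl⟩ := PresentedGroup.mk_surjective _ w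
    have h1 := toAut_proj (BL L1) ⟨e, he⟩ w
    have h2 : c (ε.1 (proj (BL L1) w)) = c' (e w) := by
      rw [hεdef, h1]
      rfl
    rw [show (PresentedGroup.mk ({relator (BL L1)} : Set (FreeGroup (Option κ × Bool)))) w =
      proj (BL L1) w from rfl, h2, c0_proj]
    exact hew w
  refine ⟨(Θ.comp ε.1.toMonoidHom).comp (Theta p L1),
    (cov_Theta p L1).comp ((cov_aut ε).comp hΘ), ?_, ?_⟩
  · intro w
    constructor
    · rintro ⟨y, rfl⟩
      refine ⟨ε.1 (Theta p L1 y), ?_, rfl⟩
      rw [hε]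
      have h1 : Theta p L1 y ∈ (c0 p L1).ker := by
        rw [← range_Theta]
        exact ⟨y, rfl⟩
      exact h1
    · rintro ⟨y, hy, rfl⟩
      have h1 : c0 p L1 (ε⁻¹.1 y) = 1 := by
        rw [← hε, aut_apply_inv]
        exact hy
      have h2 : ε⁻¹.1 y ∈ (Theta p L1).range := by
        rw [range_Theta]
        exact h1
      obtain ⟨z, hz⟩ := h2
      refine ⟨z, ?_⟩
      show Θ (ε.1 (Theta p L1 z)) = Θ y
      rw [hz, aut_apply_inv]
  · intro k
    obtain ⟨γ, l, h1, h2, h3⟩ := hMT k
    -- the factors one by one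
    have hl : ∀ l : List (AutPlus (BL L1) × ℕ),
        (∀ q ∈ l, q.2 ∣ m ∧ Ord K (Θ (q.1.1 (ga _ none))) q.2) →
        ∃ (δ : SG (BL (CL p L1))) (l' : List (AutPlus (BL (CL p L1)) × ℕ)),
          (l'.map fun r => m / r.2).sum = p * (l.map fun q => m / q.2).sum ∧
          (∀ r ∈ l', r.2 ∣ m ∧ Ord K (Θ (ε.1 (Theta p L1 (r.1.1 (ga _ none))))) r.2) ∧
          ∀ y, (ptw (BL L1) k l).1 (ε.1 (Theta p L1 y)) =
            ε.1 (Theta p L1 ((inn _ δ * ptw _ k l').1 y)) := by
      intro l
      induction l with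
      | nil =>
        intro _
        exact ⟨1, [], by simp, by simp, fun y => by simp [ptw]⟩
      | cons q l ih =>
        intro hq
        obtain ⟨δ1, l1, a1, a2, a3⟩ := ih fun r hr => hq r (by simp [hr])
        obtain ⟨δ2, l2, b1, b2, b3⟩ := elem_step p L1 hn hc Θ K c hK hc1 m hm ε hε q
          (hq q (by simp)) k
        refine ⟨δ2 * (ptw _ k l2).1 δ1, l2 ++ l1, ?_, ?_, ?_⟩
        · rw [List.map_append, List.sum_append, a1, b1, List.map_cons, List.sum_cons]
          ring
        · intro r hr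
          rcases List.mem_append.1 hr with h | h
          · exact b2 r h
          · exact a2 r h
        · intro y
          have e1 : ptw (BL L1) k (q :: l) =
              (q.1 * twist _ none ^ (q.2 * k) * q.1⁻¹) * ptw (BL L1) k l := by
            simp [ptw]
          rw [e1, aut_mul_apply, a3, b3, ← aut_mul_apply, ptw_append, map_mul]
          congr 3
          rw [mul_assoc (inn _ δ2), ← mul_assoc (ptw _ k l2) (inn _ δ1), mul_inn]
          simp only [mul_assoc]
    obtain ⟨δ, l', a1, a2, a3⟩ := hl l h2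
    refine ⟨γ * Θ (ε.1 (Theta p L1 δ)), l', by rw [a1, h1], a2, ?_⟩
    intro y
    show F k (Θ (ε.1 (Theta p L1 y))) = _
    rw [h3, a3, aut_mul_apply, inn_apply]
    show γ * Θ (ε.1 (Theta p L1 _)) * γ⁻¹ = γ * Θ (ε.1 (Theta p L1 δ)) *
      Θ (ε.1 (Theta p L1 _)) * (γ * Θ (ε.1 (Theta p L1 δ)))⁻¹
    simp only [map_mul, map_inv, mul_inv_rev, mul_assoc]

end step

end Pool.Agent.Lib.MP_6a1159_al
end

section

/-! The homology covering as a chain of cyclic coverings of prime degrees. -/

set_option autoImplicit false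

namespace Pool.Agent.Lib.MP_6a1159_al

section Km

variable {ι : Type} (L : List ι) (m : ℕ)

/-- The elements which vanish in `H_1(S; ℤ/m)`. -/
def Km : Subgroup (SG L) where
  carrier := {w | ∀ X : SG L →* Multiplicative ℤ, (m : ℤ) ∣ (X w).toAdd}
  mul_mem' {a b} ha hb X := by
    rw [map_mul, toAdd_mul]
    exact dvd_add (ha X) (hb X)
  one_mem' X := by simp
  inv_mem' {a} ha X := by
    rw [map_inv, toAdd_inv]
    exact (dvd_neg).2 (ha X)

theorem mem_Km (w : SG L) : w ∈ Km L m ↔ ∀ X : SG L →* Multiplicative ℤ, (m : ℤ) ∣ (X w).toAdd :=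
  Iff.rfl

instance : (Km L m).Normal where
  conj_mem a ha u X := by
    have h : X (u * a * u⁻¹) = X a := by
      rw [X.map_mul, X.map_mul, X.map_inv, mul_inv_cancel_comm]
    rw [h]
    exact ha X

theorem Km_char (f : AutPlus L) (w : SG L) : f.1 w ∈ Km L m ↔ w ∈ Km L m := by
  constructor
  · intro h X
    have h1 := h (X.comp f⁻¹.1.toMonoidHom)
    have h2 : (X.comp f⁻¹.1.toMonoidHom) (f.1 w) = X w := by
      show X (f⁻¹.1 (f.1 w)) = X w
      rw [aut_inv_apply]
    rwa [h2] at h1
  · intro h X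
    exact h (X.comp f.1.toMonoidHom)

theorem Km_pow (w : SG L) : w ^ m ∈ Km L m := by
  intro X
  rw [map_pow, toAdd_pow, nsmul_eq_mul]
  exact Dvd.intro _ rfl

/-- The coordinates. -/
theorem exists_coord : ∃ C : ι × Bool → SG L →* Multiplicative ℤ, ∀ x y,
    C x (proj L (FreeGroup.of y)) = (open Classical in if y = x then Multiplicative.ofAdd 1 else 1) := by
  classical
  choose C hC using fun x : ι × Bool => k5_hom L (fun y => if y = x then Multiplicative.ofAdd 1 else 1)
  exact ⟨C, fun x y => by rw [hC]⟩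

theorem Km_index [Fintype ι] [NeZero m] : (Km L m).index = m ^ (2 * Fintype.card ι) := by
  classical
  obtain ⟨C, hC⟩ := exists_coord L
  let red : Multiplicative ℤ →* Multiplicative (ZMod m) :=
    AddMonoidHom.toMultiplicative (Int.castAddHom (ZMod m))
  have hred : ∀ z : Multiplicative ℤ, red z = Multiplicative.ofAdd ((z.toAdd : ℤ) : ZMod m) :=
    fun z => rfl
  let Φ : SG L →* (ι × Bool → Multiplicative (ZMod m)) := MonoidHom.pi fun x => red.comp (C x)
  have hΦ : ∀ w x, Φ w x = red (C x w) := fun w x => rfl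
  -- the coordinates generate
  have hgen : ∀ (X : SG L →* Multiplicative ℤ) (w : SG L),
      X w = ∏ x : ι × Bool, (C x w) ^ (X (proj L (FreeGroup.of x))).toAdd := by
    intro X w
    let Y : SG L →* Multiplicative ℤ :=
      { toFun := fun w => ∏ x : ι × Bool, (C x w) ^ (X (proj L (FreeGroup.of x))).toAdd
        map_one' := by simp
        map_mul' := fun a b => by
          rw [← Finset.prod_mul_distrib]
          congr 1
          funext x
          rw [map_mul, mul_zpow] }
    have h : X = Y := by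
      apply PresentedGroup.ext
      intro y
      show X (proj L (FreeGroup.of y)) = ∏ x : ι × Bool,
        (C x (proj L (FreeGroup.of y))) ^ (X (proj L (FreeGroup.of x))).toAdd
      rw [Finset.prod_eq_single y]
      · rw [hC, if_pos rfl]
        apply Multiplicative.toAdd.injective
        rw [toAdd_zpow, toAdd_ofAdd, zsmul_eq_mul]
        simp
      · intro x _ hx
        rw [hC, if_neg (Ne.symm hx), one_zpow]
      · simp
    exact DFunLike.congr_fun h w
  have hker : Φ.ker = Km L m := by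
    ext w
    rw [MonoidHom.mem_ker, mem_Km]
    constructor
    · intro h X
      have h1 : ∀ x, (m : ℤ) ∣ (C x w).toAdd := by
        intro x
        have h2 := congrFun h x
        rw [hΦ, hred] at h2
        have h3 : (((C x w).toAdd : ℤ) : ZMod m) = 0 := h2
        exact (ZMod.intCast_zmod_eq_zero_iff_dvd _ _).1 h3
      rw [hgen X w, toAdd_prod]
      apply Finset.dvd_sum
      intro x _
      rw [toAdd_zpow, zsmul_eq_mul]
      exact Dvd.dvd.mul_left (h1 x) _
    · intro h
      funext x
      rw [hΦ, hred]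
      have h3 : (((C x w).toAdd : ℤ) : ZMod m) = 0 :=
        (ZMod.intCast_zmod_eq_zero_iff_dvd _ _).2 (h (C x))
      rw [h3]
      rfl
  have hsurj : Function.Surjective Φ := by
    intro v
    refine ⟨((Finset.univ : Finset (ι × Bool)).toList.map fun x =>
      proj L (FreeGroup.of x) ^ (v x).toAdd.val).prod, ?_⟩
    rw [map_list_prod, List.map_map]
    have h1 : (Φ ∘ fun x => proj L (FreeGroup.of x) ^ (v x).toAdd.val) = fun x =>
        (Pi.mulSingle x (v x) : ι × Bool → Multiplicative (ZMod m)) := by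
      funext x
      rw [Function.comp_apply, map_pow]
      funext y
      rw [Pi.pow_apply, hΦ, hC]
      by_cases h : x = y
      · subst h
        rw [if_pos rfl, Pi.mulSingle_eq_same, hred]
        apply Multiplicative.toAdd.injective
        rw [toAdd_pow, toAdd_ofAdd, toAdd_ofAdd, nsmul_eq_mul, Int.cast_one, mul_one,
          ZMod.natCast_zmod_val]
      · rw [if_neg h, map_one, one_pow, Pi.mulSingle_eq_of_ne (Ne.symm h)]
    rw [h1, Finset.prod_map_toList]
    exact Finset.univ_prod_mulSingle v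
  rw [← hker, Subgroup.index_ker, MonoidHom.range_eq_top.2 hsurj, Subgroup.card_top,
    m2_card_fun]

end Km

section chain

/-- A character of the covering group which vanishes on `Km`. -/
theorem chain_char {κ0 κ1 : Type} (L0 : List κ0) (L1 : List κ1)
    (Θ : SG (BL L1) →* SG (BL L0)) (m : ℕ)
    (h : ∃ y, Θ y ∉ Km (BL L0) m) : ∃ p : ℕ, p.Prime ∧
      ∃ c : SG (BL L1) →* Multiplicative (ZMod p), c ≠ 1 ∧ ∀ w, Θ w ∈ Km (BL L0) m → c w = 1 := by
  obtain ⟨y0, hy0⟩ := h
  rw [mem_Km] at hy0
  push Not at hy0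
  obtain ⟨X, hX⟩ := hy0
  set f : SG (BL L1) →* Multiplicative ℤ := X.comp Θ with hf
  obtain ⟨⟨g, y1, hy1⟩, hg⟩ := IsCyclic.exists_generator (α := f.range)
  have hn : ∀ w, ∃ n : ℤ, (f w).toAdd = n * g.toAdd := by
    intro w
    obtain ⟨n, hn⟩ := Subgroup.mem_zpowers_iff.1 (hg ⟨f w, w, rfl⟩)
    refine ⟨n, ?_⟩
    have h1 : g ^ n = f w := congrArg Subtype.val hn
    rw [← h1, toAdd_zpow, zsmul_eq_mul, Int.cast_id]
  set s : ℤ := g.toAdd with hs
  have hms : ¬ (m : ℤ) ∣ s := by
    intro h
    obtain ⟨n, hn'⟩ := hn y0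
    apply hX
    show (m : ℤ) ∣ (f y0).toAdd
    rw [hn']
    exact Dvd.dvd.mul_left h n
  have hs0 : s ≠ 0 := by
    intro h
    rw [h] at hms
    exact hms (dvd_zero _)
  set d : ℕ := Int.gcd s m with hd
  have hd0 : 0 < d := Int.gcd_pos_of_ne_zero_left _ hs0
  have hdm : d ∣ m := Int.natCast_dvd_natCast.1 (by
    have := Int.gcd_dvd_right s (m : ℤ)
    exact this)
  obtain ⟨m', hm'⟩ := hdm
  have hm'1 : m' ≠ 1 := by
    intro h
    rw [h, mul_one] at hm'
    apply hms
    rw [hm']
    exact Int.gcd_dvd_left s (m : ℤ)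
  obtain ⟨p, hp, hpm⟩ := Nat.exists_prime_and_dvd hm'1
  refine ⟨p, hp, ?_⟩
  have hdiv : ∀ w, (f w).toAdd / s * s = (f w).toAdd := by
    intro w
    obtain ⟨n, hn'⟩ := hn w
    rw [hn', Int.mul_ediv_cancel _ hs0]
  let c : SG (BL L1) →* Multiplicative (ZMod p) :=
    { toFun := fun w => Multiplicative.ofAdd ((((f w).toAdd / s : ℤ)) : ZMod p)
      map_one' := by
        rw [map_one, toAdd_one, Int.zero_ediv, Int.cast_zero]
        rfl
      map_mul' := fun a b => by
        have h1 : (f (a * b)).toAdd / s = (f a).toAdd / s + (f b).toAdd / s := by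
          obtain ⟨n, hn'⟩ := hn a
          obtain ⟨n', hn''⟩ := hn b
          rw [map_mul, toAdd_mul, hn', hn'', ← add_mul, Int.mul_ediv_cancel _ hs0,
            Int.mul_ediv_cancel _ hs0, Int.mul_ediv_cancel _ hs0]
        rw [h1, Int.cast_add]
        rfl }
  have hc : ∀ w, c w = Multiplicative.ofAdd ((((f w).toAdd / s : ℤ)) : ZMod p) := fun w => rfl
  refine ⟨c, ?_, ?_⟩
  · intro h
    have h1 := DFunLike.congr_fun h y1
    rw [hc, hy1, Int.ediv_self hs0] at h1
    have h2 : ((1 : ℤ) : ZMod p) = 0 := h1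
    rw [Int.cast_one] at h2
    have := Fact.mk hp
    exact one_ne_zero h2
  · intro w hw
    have h1 : (m : ℤ) ∣ (f w).toAdd := hw X
    obtain ⟨n, hn'⟩ := hn w
    rw [hc, hn', Int.mul_ediv_cancel _ hs0]
    have h2 : (m' : ℤ) ∣ n := by
      obtain ⟨s', hs'⟩ : (d : ℤ) ∣ s := Int.gcd_dvd_left s (m : ℤ)
      have hcop : IsCoprime (m' : ℤ) s' := by
        have h3 : Int.gcd s' m' = 1 := by
          have h4 := Int.gcd_div_gcd_div_gcd (i := s) (j := (m : ℤ)) (by rw [← hd]; exact hd0)
          have hdz : (d : ℤ) ≠ 0 := by exact_mod_cast hd0.ne'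
          have h5 : s / ((Int.gcd s m : ℕ) : ℤ) = s' := by
            rw [← hd]
            conv_lhs => rw [hs']
            exact Int.mul_ediv_cancel_left _ hdz
          have h6 : (m : ℤ) / ((Int.gcd s m : ℕ) : ℤ) = m' := by
            rw [← hd]
            have : (m : ℤ) = (d : ℤ) * m' := by exact_mod_cast hm'
            rw [this]
            exact Int.mul_ediv_cancel_left _ hdz
          rw [h5, h6] at h4
          exact h4
        exact (Int.isCoprime_iff_gcd_eq_one.2 h3).symm
      rw [hn', hs', show (m : ℤ) = (d : ℤ) * m' by exact_mod_cast hm',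
        show n * ((d : ℤ) * s') = (d : ℤ) * (n * s') by ring] at h1
      have h7 : (m' : ℤ) ∣ n * s' :=
        (mul_dvd_mul_iff_left (by exact_mod_cast hd0.ne')).1 h1
      exact hcop.dvd_of_dvd_mul_right h7
    have h8 : (p : ℤ) ∣ n := dvd_trans (by exact_mod_cast hpm) h2
    rw [(ZMod.intCast_zmod_eq_zero_iff_dvd n p).2 h8]
    rfl

theorem card_range_char {G : Type} [Group G] (p : ℕ) (hp : p.Prime)
    (c : G →* Multiplicative (ZMod p)) (hc : c ≠ 1) : c.ker.index = p := by
  have := Fact.mk hp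
  rw [Subgroup.index_ker]
  have hcard : Nat.card (Multiplicative (ZMod p)) = p := Nat.card_zmod p
  have h1 : Nat.card c.range ∣ p := by
    have := Subgroup.card_subgroup_dvd_card c.range
    rwa [hcard] at this
  rcases (Nat.dvd_prime hp).1 h1 with h | h
  · exfalso
    apply hc
    refine MonoidHom.ext fun w => ?_
    have h2 := (Subgroup.card_eq_one.1 h)
    have h3 : c w ∈ c.range := ⟨w, rfl⟩
    rw [h2, Subgroup.mem_bot] at h3
    exact h3
  · exact h

/-- The chain of coverings down to `Km`. -/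
theorem chain {κ0 : Type} (L0 : List κ0) (m : ℕ) (hm : 0 < m)
    (F : ℕ → MulAut (SG (BL L0))) : ∀ (n : ℕ) (κ1 : Type) (_ : DecidableEq κ1) (L1 : List κ1)
      (Θ : SG (BL L1) →* SG (BL L0)) (R : ℕ), L1.Nodup → (∀ k, k ∈ L1) →
      Cov (BL L1) (BL L0) Θ → Km (BL L0) m ≤ Θ.range → MT L1 Θ (Km (BL L0) m) m F R →
      (Km (BL L0) m).relIndex Θ.range = n → n ≠ 0 →
      ∃ (κ2 : Type) (_ : DecidableEq κ2) (L2 : List κ2) (Θ2 : SG (BL L2) →* SG (BL L0)),
        L2.Nodup ∧ (∀ k, k ∈ L2) ∧ Cov (BL L2) (BL L0) Θ2 ∧ Θ2.range = Km (BL L0) m ∧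
        L2.length = n * L1.length ∧ MT L2 Θ2 (Km (BL L0) m) m F (n * R) := by
  intro n
  induction n using Nat.strong_induction_on with
  | _ n ih =>
    intro κ1 _ L1 Θ R hn hc hΘ hle hMT hidx hn0
    by_cases hall : ∀ y, Θ y ∈ Km (BL L0) m
    · have hr : Θ.range = Km (BL L0) m := by
        apply le_antisymm _ hle
        rintro _ ⟨y, rfl⟩
        exact hall y
      have hn1 : n = 1 := by
        rw [← hidx, hr, Subgroup.relIndex_self]
      subst hn1
      exact ⟨κ1, inferInstance, L1, Θ, hn, hc, hΘ, hr, by rw [one_mul], by rwa [one_mul]⟩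
    · push Not at hall
      obtain ⟨p, hp, c, hc1, hcK⟩ := chain_char L0 L1 Θ m hall
      have := Fact.mk hp
      obtain ⟨Θ', hΘ', hr', hMT'⟩ := MT_step p L1 hn hc L0 Θ hΘ (Km (BL L0) m) c hcK hc1 m hm F R
        hMT
      have hle' : Km (BL L0) m ≤ Θ'.range := by
        intro w hw
        obtain ⟨y, rfl⟩ := hle hw
        exact (hr' _).2 ⟨y, hcK y hw, rfl⟩
      have hle2 : Θ'.range ≤ Θ.range := by
        intro w hw
        obtain ⟨y, _, rfl⟩ := (hr' w).1 hw
        exact ⟨y, rfl⟩
      have hidx2 : Θ'.range.relIndex Θ.range = p := by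
        rw [← Subgroup.index_comap]
        have h1 : Θ'.range.comap Θ = c.ker := by
          ext y
          rw [Subgroup.mem_comap, hr', MonoidHom.mem_ker]
          constructor
          · rintro ⟨z, hz, hz'⟩
            rw [← hΘ.inj hz']
            exact hz
          · intro h
            exact ⟨y, h, rfl⟩
        rw [h1]
        exact card_range_char p hp c hc1
      have hmul := Subgroup.relIndex_mul_relIndex (Km (BL L0) m) Θ'.range Θ.range hle' hle2
      rw [hidx, hidx2] at hmul
      set n' := (Km (BL L0) m).relIndex Θ'.range with hn'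
      have hn'0 : n' ≠ 0 := by
        intro h
        rw [h, zero_mul] at hmul
        exact hn0 hmul.symm
      have hlt : n' < n := by
        rw [← hmul]
        have := hp.two_le
        have : 0 < n' := Nat.pos_of_ne_zero hn'0
        nlinarith
      obtain ⟨κ2, _, L2, Θ2, a1, a2, a3, a4, a5, a6⟩ := ih n' hlt (Fin p × κ1) inferInstance
        (CL p L1) Θ' (p * R) (CL_nodup p L1 hn) (CL_mem p L1 hc) hΘ' hle' hMT' rfl hn'0
      refine ⟨κ2, inferInstance, L2, Θ2, a1, a2, a3, a4, ?_, ?_⟩
      · rw [a5, CL_length, ← hmul, mul_assoc]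
      · rw [← hmul, mul_assoc]
        exact a6

end chain

end Pool.Agent.Lib.MP_6a1159_al
end

section

/-! The inequality between the stable commutator lengths. -/

set_option autoImplicit false

open scoped ENNReal

namespace Pool.Agent.Lib.MP_6a1159_al

theorem pow_inn {ι : Type} (L : List ι) (K : Subgroup (SG L)) [K.Normal] (u : AutPlus L)
    (hu : ∀ w, (QuotientGroup.mk (u.1 w) : SG L ⧸ K) = QuotientGroup.mk w) (γ : SG L) (m : ℕ) :
    ∃ δ, (u * inn L γ) ^ m = u ^ m * inn L δ ∧
      (QuotientGroup.mk δ : SG L ⧸ K) = (QuotientGroup.mk γ) ^ m := by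
  induction m with
  | zero => exact ⟨1, by simp, by simp⟩
  | succ m ih =>
    obtain ⟨δ, h1, h2⟩ := ih
    refine ⟨u⁻¹.1 δ * γ, ?_, ?_⟩
    · rw [pow_succ, h1, pow_succ, map_mul]
      have h3 := mul_inn L u (u⁻¹.1 δ)
      rw [aut_apply_inv] at h3
      calc u ^ m * inn L δ * (u * inn L γ) = u ^ m * (inn L δ * u) * inn L γ := by
            simp only [mul_assoc]
        _ = u ^ m * (u * inn L (u⁻¹.1 δ)) * inn L γ := by rw [h3]
        _ = _ := by simp only [mul_assoc]
    · have h4 := hu (u⁻¹.1 δ)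
      rw [aut_apply_inv] at h4
      rw [QuotientGroup.mk_mul, ← h4, h2, pow_succ]

theorem pow_trivial {ι : Type} (L : List ι) (K : Subgroup (SG L)) [K.Normal] (u : AutPlus L)
    (hu : ∀ w, (QuotientGroup.mk (u.1 w) : SG L ⧸ K) = QuotientGroup.mk w) (n : ℕ) (w : SG L) :
    (QuotientGroup.mk ((u ^ n).1 w) : SG L ⧸ K) = QuotientGroup.mk w := by
  induction n generalizing w with
  | zero => rfl
  | succ n ih =>
    rw [pow_succ, aut_mul_apply, ih, hu]

theorem CP_pow {M : Type} [Group M] {t : M} {r e : ℕ} {u : M} (h : CP t r e u) (m : ℕ) :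
    CP t (m * r) (m * e) (u ^ m) := by
  induction m with
  | zero => exact ⟨[], by simp, by simp, by simp⟩
  | succ m ih =>
    have := CP_mul ih h
    rw [pow_succ, Nat.succ_mul, Nat.succ_mul]
    exact this

theorem final_ineq {κ0 κ2 : Type} [DecidableEq κ2] (L0 : List κ0) (m : ℕ) (hm : 0 < m)
    (x : AutPlus (BL L0)) (hx : ∀ w, (QuotientGroup.mk (x.1 w) : SG (BL L0) ⧸ Km (BL L0) m) =
      QuotientGroup.mk w) (L2 : List κ2) (Θ2 : SG (BL L2) →* SG (BL L0))
    (hΘ : Cov (BL L2) (BL L0) Θ2) (hr : Θ2.range = Km (BL L0) m) (r : ℕ) (hr0 : 0 < r)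
    (hMT : MT L2 Θ2 (Km (BL L0) m) m (fun k => (x ^ k).1) (m * r)) :
    (r : ℝ≥0∞) * scl (tw (BL L2) none) ≤ scl (QuotientGroup.mk x : Mod (BL L0)) := by
  have key := scl_ineq (QuotientGroup.mk x : Mod (BL L0)) (tw (BL L2) none) r 1 hr0 one_pos ?_
  · simpa using key
  intro n k hn hk
  refine ⟨m * m, m * r, Nat.mul_pos hm hm, fun j hj => ?_⟩
  obtain ⟨ρ, hρ⟩ := hΘ.exists_resHom (fun f w => by rw [hr]; exact Km_char _ _ f w)
  -- inner automorphisms by elements of the covering group
  have hρK : ∀ δ : SG (BL L0), (QuotientGroup.mk δ : SG (BL L0) ⧸ Km (BL L0) m) = 1 →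
      (QuotientGroup.mk (ρ (inn _ δ)) : Mod (BL L2)) = 1 := by
    intro δ hδ
    have h1 : δ ∈ Θ2.range := by
      rw [hr]
      exact (QuotientGroup.eq_one_iff _).1 hδ
    obtain ⟨z, rfl⟩ := h1
    have h2 : ρ (inn _ (Θ2 z)) = inn _ z := by
      apply Subtype.ext
      ext y
      apply hΘ.inj
      rw [hρ]
      show Θ2 z * Θ2 y * (Θ2 z)⁻¹ = Θ2 (z * y * z⁻¹)
      rw [map_mul, map_mul, map_inv]
    rw [h2, mk_inn]
  have hm1 : ∀ γ : SG (BL L0), (QuotientGroup.mk γ : SG (BL L0) ⧸ Km (BL L0) m) ^ m = 1 := by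
    intro γ
    rw [← QuotientGroup.mk_pow]
    exact (QuotientGroup.eq_one_iff _).2 (Km_pow _ m γ)
  -- the lift of the product of commutators
  have h' : IsProdComm k (QuotientGroup.mk (x ^ n) : Mod (BL L0)) := hk
  obtain ⟨N0, ⟨γ0, hγ0⟩, hV0⟩ := ipc_lift (Inn (BL L0)) h'
  have hN0 : N0 = inn _ γ0 := Subtype.ext hγ0.symm
  subst hN0
  obtain ⟨δ1, hδ1, hδ1'⟩ := pow_inn (BL L0) (Km (BL L0) m) (x ^ n)
    (fun w => pow_trivial _ _ x hx n w) γ0 m
  obtain ⟨δ2, hδ2, hδ2'⟩ := pow_inn (BL L0) (Km (BL L0) m) ((x ^ n) ^ m)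
    (fun w => by rw [← pow_mul]; exact pow_trivial _ _ x hx (n * m) w) δ1 j
  rw [hm1] at hδ1'
  rw [hδ1', one_pow] at hδ2'
  have hV := ipc_pow (ipc_pow hV0 m) j
  rw [hδ1, hδ2, ← pow_mul, ← pow_mul] at hV
  have eN : n * (m * j) = n * m * j := (mul_assoc n m j).symm
  rw [eN] at hV
  set N : ℕ := n * m * j with hN
  have hA := ipc_map ((QuotientGroup.mk' (Inn (BL L2))).comp ρ) hV
  have hA1 : ((QuotientGroup.mk' (Inn (BL L2))).comp ρ) (x ^ N * inn _ δ2) =
      (QuotientGroup.mk (ρ (x ^ N)) : Mod (BL L2)) := by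
    rw [map_mul]
    show (QuotientGroup.mk (ρ (x ^ N)) : Mod (BL L2)) * QuotientGroup.mk (ρ (inn _ δ2)) = _
    rw [hρK δ2 hδ2', mul_one]
  rw [hA1] at hA
  -- the decomposition
  obtain ⟨γ, l, hl1, hl2, hl3⟩ := hMT N
  have hone : ∀ q ∈ l, q.2 = 1 := by
    intro q hq
    have h1 := ((hl2 q hq).2 1).1 (by
      rw [pow_one, ← hr]
      exact ⟨_, rfl⟩)
    exact Nat.dvd_one.1 h1
  have hlen : l.length = r := by
    have h1 : (l.map fun q => m / q.2) = l.map fun _ => m := by
      apply List.map_congr_left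
      intro q hq
      rw [hone q hq, Nat.div_one]
    rw [h1, List.map_const', List.sum_replicate, smul_eq_mul, mul_comm] at hl1
    exact Nat.eq_of_mul_eq_mul_left hm hl1
  have hdec : ρ (x ^ N) = ρ (inn _ γ) * ptw (BL L2) N l := by
    apply Subtype.ext
    ext y
    apply hΘ.inj
    rw [aut_mul_apply, hρ, hρ, inn_apply]
    exact hl3 y
  set A : Mod (BL L2) := QuotientGroup.mk (ρ (x ^ N)) with hAdef
  set D : Mod (BL L2) := QuotientGroup.mk (ρ (inn _ γ)) with hDdef
  set P : Mod (BL L2) := QuotientGroup.mk (ptw (BL L2) N l) with hPdef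
  have hADP : A = D * P := by
    rw [hAdef, hdec, QuotientGroup.mk_mul]
  have hDm : D ^ m = 1 := by
    rw [hDdef, ← QuotientGroup.mk_pow, ← map_pow, ← map_pow]
    apply hρK
    rw [QuotientGroup.mk_pow]
    exact hm1 γ
  have hcomm : Commute D A := by
    have h1 : x ^ N * inn _ γ = inn _ ((x ^ N).1 γ * γ⁻¹) * inn _ γ * x ^ N := by
      rw [mul_inn, ← map_mul, inv_mul_cancel_right]
    have h2 : A * D = (QuotientGroup.mk (ρ (inn _ ((x ^ N).1 γ * γ⁻¹))) : Mod (BL L2)) *
        D * A := by
      rw [hAdef, hDdef, ← QuotientGroup.mk_mul, ← QuotientGroup.mk_mul, ← QuotientGroup.mk_mul,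
        ← map_mul, ← map_mul, ← map_mul, ← h1]
    rw [hρK _ (by
      rw [QuotientGroup.mk_mul, QuotientGroup.mk_inv, pow_trivial _ _ x hx N γ,
        mul_inv_cancel]), one_mul] at h2
    exact h2.symm
  have hPm : P ^ m = A ^ m := by
    have h1 : P = D⁻¹ * A := by rw [hADP]; group
    rw [h1, hcomm.inv_left.mul_pow, inv_pow, hDm, inv_one, one_mul]
  have hCP : CP (tw (BL L2) none) r (r * N) P := by
    refine ⟨l.map fun q => (QuotientGroup.mk q.1, N), by rw [List.length_map, hlen], ?_, ?_⟩
    · rw [List.map_map]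
      have h1 : (Prod.snd ∘ fun q : AutPlus (BL L2) × ℕ =>
          ((QuotientGroup.mk q.1 : Mod (BL L2)), N)) = fun _ => N := rfl
      rw [h1, List.map_const', List.sum_replicate, hlen, smul_eq_mul]
    · rw [List.map_map]
      have h5 := map_list_prod (QuotientGroup.mk' (Inn (BL L2)))
        (l.map fun q => q.1 * twist (BL L2) none ^ (q.2 * N) * q.1⁻¹)
      rw [List.map_map] at h5
      rw [hPdef]
      unfold ptw
      refine h5.trans ?_
      congr 1
      apply List.map_congr_left
      intro q hq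
      show (QuotientGroup.mk (q.1 * twist (BL L2) none ^ (q.2 * N) * q.1⁻¹) : Mod (BL L2)) = _
      rw [hone q hq, one_mul]
      rfl
  have hfin := CP_ipc (CP_pow hCP m) (by
    rw [hPm]
    exact ipc_pow hA m)
  have e1 : m * (j * (m * k)) + m * r = m * m * 1 * k * j + m * r := by ring
  have e2 : m * (r * N) = m * m * r * n * j := by rw [hN]; ring
  rw [e1, e2] at hfin
  exact hfin

end Pool.Agent.Lib.MP_6a1159_al
end

section

/-! Monomial homomorphisms attached to a separating curve. -/

set_option autoImplicit false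

namespace Pool.Agent.Lib.MP_6a1159_al

/-- Monomial `p × p`-matrices (with cyclic permutation part) over a group. -/
@[ext] structure Mono (p : ℕ) (G : Type) where
  f : ZMod p → G
  s : ZMod p

namespace Mono

variable {p : ℕ} {G H : Type} [Group G] [Group H]

instance : Mul (Mono p G) := ⟨fun u v => ⟨fun x => u.f x * v.f (x + u.s), u.s + v.s⟩⟩
instance : One (Mono p G) := ⟨⟨fun _ => 1, 0⟩⟩
instance : Inv (Mono p G) := ⟨fun u => ⟨fun x => (u.f (x - u.s))⁻¹, -u.s⟩⟩

@[simp] theorem mul_f (u v : Mono p G) (x : ZMod p) : (u * v).f x = u.f x * v.f (x + u.s) := rfl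
@[simp] theorem mul_s (u v : Mono p G) : (u * v).s = u.s + v.s := rfl
@[simp] theorem one_f (x : ZMod p) : (1 : Mono p G).f x = 1 := rfl
@[simp] theorem one_s : (1 : Mono p G).s = 0 := rfl
@[simp] theorem inv_f (u : Mono p G) (x : ZMod p) : (u⁻¹).f x = (u.f (x - u.s))⁻¹ := rfl
@[simp] theorem inv_s (u : Mono p G) : (u⁻¹).s = -u.s := rfl

instance : Group (Mono p G) :=
  Group.ofLeftAxioms
    (fun a b c => by
      ext x
      · simp only [mul_f, mul_s]
        rw [mul_assoc, add_assoc]
      · simp only [mul_s]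
        ring)
    (fun a => by
      ext x
      · simp
      · simp)
    (fun a => by
      ext x
      · simp only [mul_f, inv_f, inv_s, one_f]
        rw [← sub_eq_add_neg, inv_mul_cancel]
      · simp)

/-- Shift of the index. -/
def shift (y : ZMod p) : Mono p G →* Mono p G where
  toFun u := ⟨fun x => u.f (x + y), u.s⟩
  map_one' := rfl
  map_mul' u v := by
    ext x
    · show u.f (x + y) * v.f (x + y + u.s) = u.f (x + y) * v.f (x + u.s + y)
      rw [add_right_comm]
    · rfl

end Mono

section psi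

variable {ι : Type} [DecidableEq ι] {p : ℕ} (L M : List ι)
  (c1 : SG L →* Multiplicative (ZMod p))

/-- The constant matrices. -/
def cst : SG L →* Mono p (SG L) where
  toFun u := ⟨fun _ => u, (c1 u).toAdd⟩
  map_one' := by
    ext x
    · rfl
    · simp
  map_mul' u v := by
    ext x
    · rfl
    · simp

/-- The diagonal matrix with the entries `w ^ ω x`. -/
def diag (w : SG L) (ω : ZMod p → ℤ) : Mono p (SG L) := ⟨fun x => w ^ ω x, 0⟩

/-- The word of the separating curve. -/
def sw : SG L := proj L (relator M)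

/-- The monomial homomorphism on the free group. -/
def psiFree (ω : ZMod p → ℤ) : FreeGroup (ι × Bool) →* Mono p (SG L) :=
  FreeGroup.lift fun x => if x.1 ∈ M then
    diag L (sw L M) ω * cst L c1 (proj L (FreeGroup.of x)) * (diag L (sw L M) ω)⁻¹
    else cst L c1 (proj L (FreeGroup.of x))

theorem psiFree_in (ω : ZMod p → ℤ) (x : ι × Bool) (hx : x.1 ∈ M) :
    psiFree L M c1 ω (FreeGroup.of x) =
      diag L (sw L M) ω * cst L c1 (proj L (FreeGroup.of x)) * (diag L (sw L M) ω)⁻¹ := by
  rw [psiFree, FreeGroup.lift_apply_of, if_pos hx]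

theorem psiFree_out (ω : ZMod p → ℤ) (x : ι × Bool) (hx : x.1 ∉ M) :
    psiFree L M c1 ω (FreeGroup.of x) = cst L c1 (proj L (FreeGroup.of x)) := by
  rw [psiFree, FreeGroup.lift_apply_of, if_neg hx]

omit [DecidableEq ι] in
theorem comm_relator {H : Type} [CommGroup H] (F : FreeGroup (ι × Bool) →* H) (T : List ι) :
    F (relator T) = 1 := by
  unfold relator
  rw [map_list_prod, List.map_map]
  apply List.prod_eq_one
  intro x hx
  obtain ⟨i, _, rfl⟩ := List.mem_map.1 hx
  simp only [Function.comp_apply, map_mul, map_inv]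
  rw [mul_right_comm, mul_inv_cancel_right, mul_inv_cancel]

omit [DecidableEq ι] in
theorem c1_relator (T : List ι) : c1 (proj L (relator T)) = 1 :=
  comm_relator (c1.comp (proj L)) T

theorem diag_sw (ω : ZMod p → ℤ) :
    diag L (sw L M) ω * cst L c1 (sw L M) * (diag L (sw L M) ω)⁻¹ = cst L c1 (sw L M) := by
  have h1 : (c1 (sw L M)).toAdd = 0 := by
    rw [sw, c1_relator]
    rfl
  ext x
  · show (sw L M) ^ ω x * sw L M * ((sw L M) ^ ω (x + (0 + (c1 (sw L M)).toAdd) - 0))⁻¹ = sw L M
    rw [h1, add_zero, add_zero, sub_zero, ← zpow_add_one, ← zpow_neg, ← zpow_add]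
    rw [show ω x + 1 + -ω x = 1 by ring, zpow_one]
  · show (0 : ZMod p) + (c1 (sw L M)).toAdd + -0 = (c1 (sw L M)).toAdd
    simp

theorem psiFree_relator_in (ω : ZMod p → ℤ) :
    psiFree L M c1 ω (relator M) = cst L c1 (sw L M) := by
  have h1 := relator_congr (psiFree L M c1 ω)
    (((MulAut.conj (diag L (sw L M) ω)).toMonoidHom.comp (cst L c1)).comp (proj L)) M (by
      intro j hj
      exact ⟨psiFree_in L M c1 ω (j, false) hj, psiFree_in L M c1 ω (j, true) hj⟩)
  rw [h1]
  exact diag_sw L M c1 ω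

theorem psiFree_relator_out (ω : ZMod p → ℤ) (T : List ι) (hT : ∀ j ∈ T, j ∉ M) :
    psiFree L M c1 ω (relator T) = cst L c1 (proj L (relator T)) :=
  relator_congr (psiFree L M c1 ω) ((cst L c1).comp (proj L)) T fun j hj =>
    ⟨psiFree_out L M c1 ω (j, false) (hT j hj), psiFree_out L M c1 ω (j, true) (hT j hj)⟩

variable {L M} in
theorem psiFree_relator {A B : List ι} (hL : L = A ++ M ++ B) (hA : ∀ j ∈ A, j ∉ M)
    (hB : ∀ j ∈ B, j ∉ M) (ω : ZMod p → ℤ) : psiFree L M c1 ω (relator L) = 1 := by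
  have h1 : psiFree L M c1 ω (relator (A ++ M ++ B)) =
      cst L c1 (proj L (relator (A ++ M ++ B))) := by
    rw [relator_append, relator_append, map_mul, map_mul, psiFree_relator_in,
      psiFree_relator_out L M c1 ω A hA, psiFree_relator_out L M c1 ω B hB, ← map_mul, ← map_mul,
      sw, ← map_mul, ← map_mul]
  rw [← hL] at h1
  rw [h1]
  have h2 : proj L (relator L) = 1 := PresentedGroup.one_of_mem (Set.mem_singleton _)
  rw [h2, map_one]

/-- The monomial homomorphism. -/
def psi (h : ∀ ω : ZMod p → ℤ, psiFree L M c1 ω (relator L) = 1) (ω : ZMod p → ℤ) :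
    SG L →* Mono p (SG L) :=
  PresentedGroup.toGroup (f := fun x => psiFree L M c1 ω (FreeGroup.of x)) (by
    intro r hr
    rw [Set.mem_singleton_iff] at hr
    have h1 : FreeGroup.lift (fun x => psiFree L M c1 ω (FreeGroup.of x)) =
        psiFree L M c1 ω := by
      ext x <;> simp
    rw [h1, hr]
    exact h ω)

variable (h : ∀ ω : ZMod p → ℤ, psiFree L M c1 ω (relator L) = 1)

theorem psi_proj (ω : ZMod p → ℤ) (w : FreeGroup (ι × Bool)) :
    psi L M c1 h ω (proj L w) = psiFree L M c1 ω w := by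
  have h1 : (psi L M c1 h ω).comp (proj L) = psiFree L M c1 ω := by
    refine FreeGroup.ext_hom _ _ fun x => ?_
    show FreeGroup.lift (fun x => psiFree L M c1 ω (FreeGroup.of x)) (FreeGroup.of x) = _
    rw [FreeGroup.lift_apply_of]
  exact DFunLike.congr_fun h1 w

theorem psi_in_f (ω : ZMod p → ℤ) (x : ι × Bool) (hx : x.1 ∈ M) (y : ZMod p) :
    (psi L M c1 h ω (proj L (FreeGroup.of x))).f y = (sw L M) ^ ω y * proj L (FreeGroup.of x) *
      ((sw L M) ^ ω (y + (c1 (proj L (FreeGroup.of x))).toAdd))⁻¹ := by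
  rw [psi_proj, psiFree_in L M c1 ω x hx]
  show (sw L M) ^ ω y * proj L (FreeGroup.of x) *
      ((sw L M) ^ ω (y + (0 + (c1 (proj L (FreeGroup.of x))).toAdd) - 0))⁻¹ = _
  rw [zero_add, sub_zero]

theorem psi_out_f (ω : ZMod p → ℤ) (x : ι × Bool) (hx : x.1 ∉ M) (y : ZMod p) :
    (psi L M c1 h ω (proj L (FreeGroup.of x))).f y = proj L (FreeGroup.of x) := by
  rw [psi_proj, psiFree_out L M c1 ω x hx]
  rfl

theorem psi_s (ω : ZMod p → ℤ) (u : SG L) : (psi L M c1 h ω u).s = (c1 u).toAdd := by
  let S : Mono p (SG L) →* Multiplicative (ZMod p) :=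
    { toFun := fun u => Multiplicative.ofAdd u.s
      map_one' := rfl
      map_mul' := fun _ _ => rfl }
  have h1 : S.comp (psi L M c1 h ω) = c1 := by
    apply PresentedGroup.ext
    intro x
    show Multiplicative.ofAdd (psi L M c1 h ω (proj L (FreeGroup.of x))).s =
      c1 (proj L (FreeGroup.of x))
    rw [psi_proj]
    by_cases hx : x.1 ∈ M
    · rw [psiFree_in L M c1 ω x hx]
      show Multiplicative.ofAdd ((0 : ZMod p) + (c1 (proj L (FreeGroup.of x))).toAdd + -0) = _
      rw [zero_add, neg_zero, add_zero]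
      rfl
    · rw [psiFree_out L M c1 ω x hx]
      rfl
  exact congrArg Multiplicative.toAdd (DFunLike.congr_fun h1 u)

theorem psi_sw (ω : ZMod p → ℤ) : psi L M c1 h ω (sw L M) = cst L c1 (sw L M) := by
  rw [sw, psi_proj, psiFree_relator_in]
  rfl

theorem psi_sw_zpow_f (ω : ZMod p → ℤ) (n : ℤ) (y : ZMod p) :
    (psi L M c1 h ω (sw L M ^ n)).f y = sw L M ^ n := by
  rw [map_zpow, psi_sw, ← map_zpow]
  rfl

theorem c1_sw_zpow (n : ℤ) : c1 (sw L M ^ n) = 1 := by
  rw [map_zpow, sw, c1_relator, one_zpow]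

/-- The entries of `psi` have the same character. -/
theorem c1_psi_f (ω : ZMod p → ℤ) (u : SG L) (y : ZMod p) :
    c1 ((psi L M c1 h ω u).f y) = c1 u := by
  let Q : SG L →* Mono p (Multiplicative (ZMod p)) :=
    { toFun := fun u => ⟨fun y => c1 ((psi L M c1 h ω u).f y), (c1 u).toAdd⟩
      map_one' := by
        rw [map_one, map_one]
        ext y
        · exact map_one c1
        · rfl
      map_mul' := fun a b => by
        rw [map_mul, map_mul]
        ext y
        · show c1 ((psi L M c1 h ω a).f y * (psi L M c1 h ω b).f (y + (psi L M c1 h ω a).s)) = _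
          rw [map_mul, psi_s]
          rfl
        · rfl }
  let Q' : SG L →* Mono p (Multiplicative (ZMod p)) :=
    { toFun := fun u => ⟨fun y => c1 u, (c1 u).toAdd⟩
      map_one' := by
        rw [map_one]
        rfl
      map_mul' := fun a b => by
        rw [map_mul]
        rfl }
  have h1 : Q = Q' := by
    apply PresentedGroup.ext
    intro x
    ext y
    · show c1 ((psi L M c1 h ω (proj L (FreeGroup.of x))).f y) = c1 (proj L (FreeGroup.of x))
      by_cases hx : x.1 ∈ M
      · rw [psi_in_f L M c1 h ω x hx, map_mul, map_mul, map_inv, c1_sw_zpow, c1_sw_zpow, one_mul,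
          inv_one, mul_one]
      · rw [psi_out_f L M c1 h ω x hx]
    · rfl
  exact congrArg (fun z : Mono p (Multiplicative (ZMod p)) => z.f y) (DFunLike.congr_fun h1 u)

/-- Composition. -/
theorem psi_comp (ω ω' : ZMod p → ℤ) (u : SG L) (y : ZMod p) :
    (psi L M c1 h ω ((psi L M c1 h ω' u).f y)).f y = (psi L M c1 h (ω + ω') u).f y := by
  let Q : SG L →* Mono p (SG L) :=
    { toFun := fun u => ⟨fun y => (psi L M c1 h ω ((psi L M c1 h ω' u).f y)).f y, (c1 u).toAdd⟩
      map_one' := by
        ext y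
        · show (psi L M c1 h ω ((psi L M c1 h ω' 1).f y)).f y = _
          rw [map_one, Mono.one_f, map_one]
          rfl
        · show (c1 1).toAdd = 0
          rw [map_one]
          rfl
      map_mul' := fun a b => by
        ext y
        · show (psi L M c1 h ω ((psi L M c1 h ω' (a * b)).f y)).f y =
            (psi L M c1 h ω ((psi L M c1 h ω' a).f y)).f y *
              (psi L M c1 h ω ((psi L M c1 h ω' b).f (y + (c1 a).toAdd))).f (y + (c1 a).toAdd)
          rw [map_mul, Mono.mul_f, map_mul, Mono.mul_f, psi_s, psi_s, c1_psi_f]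
        · show (c1 (a * b)).toAdd = _
          rw [map_mul]
          rfl }
  have h1 : Q = psi L M c1 h (ω + ω') := by
    apply PresentedGroup.ext
    intro x
    ext y
    · show (psi L M c1 h ω ((psi L M c1 h ω' (proj L (FreeGroup.of x))).f y)).f y =
        (psi L M c1 h (ω + ω') (proj L (FreeGroup.of x))).f y
      by_cases hx : x.1 ∈ M
      · rw [psi_in_f L M c1 h ω' x hx, psi_in_f L M c1 h (ω + ω') x hx, map_mul, map_mul, map_inv]
        have e1 : (psi L M c1 h ω (sw L M ^ ω' y)).s = 0 := by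
          rw [psi_s, c1_sw_zpow]
          rfl
        have e2 : (psi L M c1 h ω (sw L M ^
            ω' (y + (c1 (proj L (FreeGroup.of x))).toAdd))).s = 0 := by
          rw [psi_s, c1_sw_zpow]
          rfl
        rw [Mono.mul_f, Mono.mul_f, Mono.inv_f, Mono.mul_s, e1, e2, psi_sw_zpow_f, psi_sw_zpow_f,
          psi_in_f L M c1 h ω x hx]
        simp only [add_zero, Pi.add_apply, zpow_add, mul_inv_rev]
        rw [(Commute.zpow_zpow_self (sw L M) (ω y) (ω' y)).eq]
        simp only [mul_assoc]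
        rw [← mul_inv_rev, ← mul_inv_rev,
          (Commute.zpow_zpow_self (sw L M) (ω (y + _)) (ω' (y + _))).eq]
      · rw [psi_out_f L M c1 h ω' x hx, psi_out_f L M c1 h (ω + ω') x hx,
          psi_out_f L M c1 h ω x hx]
    · show (c1 (proj L (FreeGroup.of x))).toAdd = (psi L M c1 h (ω + ω') _).s
      rw [psi_s]
      rfl
  have h2 := DFunLike.congr_fun h1 u
  have h3 := congrArg (fun z : Mono p (SG L) => z.f y) h2
  exact h3

/-- Translation. -/
theorem psi_shift (ω : ZMod p → ℤ) (u : SG L) (x y : ZMod p) :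
    (psi L M c1 h ω u).f (x + y) = (psi L M c1 h (fun z => ω (z + y)) u).f x := by
  have h1 : (Mono.shift y).comp (psi L M c1 h ω) = psi L M c1 h (fun z => ω (z + y)) := by
    apply PresentedGroup.ext
    intro g
    ext x
    · show (psi L M c1 h ω (proj L (FreeGroup.of g))).f (x + y) = (psi L M c1 h _ _).f x
      by_cases hx : g.1 ∈ M
      · rw [psi_in_f L M c1 h ω g hx]
        refine Eq.trans ?_ (psi_in_f L M c1 h (fun z => ω (z + y)) g hx x).symm
        rw [add_right_comm]
      · rw [psi_out_f L M c1 h ω g hx]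
        exact (psi_out_f L M c1 h (fun z => ω (z + y)) g hx x).symm
    · show (psi L M c1 h ω (proj L (FreeGroup.of g))).s = (psi L M c1 h _ (proj L _)).s
      rw [psi_s, psi_s]
  have h2 := DFunLike.congr_fun h1 u
  have h3 := congrArg (fun z : Mono p (SG L) => z.f x) h2
  exact h3

end psi

end Pool.Agent.Lib.MP_6a1159_al
end

section

/-! The twist about one lift of the separating curve. -/

set_option autoImplicit false

namespace Pool.Agent.Lib.MP_6a1159_al

section isC

variable {ι : Type} [DecidableEq ι] {L : List (Option ι)}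

/-- `f` is conjugate to the twist, and its curve is `c` up to conjugation and inversion. -/
def IsC (L : List (Option ι)) (f : AutPlus L) (c : SG L) : Prop :=
  ∃ g : AutPlus L, f = g * twist L none * g⁻¹ ∧
    ∃ u, g.1 (ga L none) = u * c * u⁻¹ ∨ g.1 (ga L none) = u * c⁻¹ * u⁻¹

theorem IsC.braid {f v : AutPlus L} {c d : SG L} (hf : IsC L f c) (hb : f * v * f = v * f * v)
    (h : ∃ u, (f * v).1 c = u * d * u⁻¹ ∨ (f * v).1 c = u * d⁻¹ * u⁻¹) : IsC L v d := by
  obtain ⟨g, hg, u, hu⟩ := hf
  obtain ⟨u', hu'⟩ := h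
  refine ⟨f * v * g, ?_, ?_⟩
  · have h1 : v = (f * v) * f * (f * v)⁻¹ := by
      rw [eq_mul_inv_iff_mul_eq, ← mul_assoc, hb]
    calc v = (f * v) * f * (f * v)⁻¹ := h1
      _ = (f * v) * (g * twist L none * g⁻¹) * (f * v)⁻¹ := by rw [← hg]
      _ = _ := by group
  · have h2 : (f * v * g).1 (ga L none) = (f * v).1 (g.1 (ga L none)) := rfl
    rw [h2]
    refine ⟨(f * v).1 u * u', ?_⟩
    rcases hu with hu | hu <;> rcases hu' with hu' | hu'
    · left
      rw [hu, map_mul, map_mul, map_inv, hu']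
      group
    · right
      rw [hu, map_mul, map_mul, map_inv, hu']
      group
    · right
      rw [hu, map_mul, map_mul, map_inv, map_inv, hu']
      group
    · left
      rw [hu, map_mul, map_mul, map_inv, map_inv, hu']
      group

end isC

section te

variable {κ : Type} [DecidableEq κ] {p : ℕ} (k0 k1 : Fin p) (i : κ) (Q P : List κ)

/-- A lift of the separating curve. -/
def gam1 : FreeGroup (Option (Fin p × κ) × Bool) :=
  fb (some (k1, i)) * (fa (some (k1, i)))⁻¹ * (fb (some (k1, i)))⁻¹ *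
    relS (Q.map fun j => (k1, j)) * fa (some (k0, i))

/-- The conjugating element for the handles in `P`. -/
def eta1 (n : ℤ) : FreeGroup (Option (Fin p × κ) × Bool) :=
  gam1 k0 k1 i Q ^ (-n) * fa (some (k0, i)) * gam1 k0 k1 i Q ^ n * (fa (some (k0, i)))⁻¹

/-- The powers of the twist about `gam1`. -/
def teHom (n : ℤ) : FreeGroup (Option (Fin p × κ) × Bool) →*
    FreeGroup (Option (Fin p × κ) × Bool) :=
  FreeGroup.lift fun x => match x with
    | (none, s) => FreeGroup.of (none, s)
    | (some (k, j), s) =>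
      if j = i then
        if k = k0 then
          if s then fb (some (k0, i)) * gam1 k0 k1 i Q ^ n
          else gam1 k0 k1 i Q ^ (-n) * fa (some (k0, i)) * gam1 k0 k1 i Q ^ n
        else if k = k1 ∧ s = true then gam1 k0 k1 i Q ^ (-n) * fb (some (k1, i))
        else FreeGroup.of (some (k, j), s)
      else if k = k1 then
        if j ∈ Q then gam1 k0 k1 i Q ^ (-n) * FreeGroup.of (some (k, j), s) * gam1 k0 k1 i Q ^ n
        else if j ∈ P then
          eta1 k0 k1 i Q n * FreeGroup.of (some (k, j), s) * (eta1 k0 k1 i Q n)⁻¹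
        else FreeGroup.of (some (k, j), s)
      else FreeGroup.of (some (k, j), s)

section values

variable (n : ℤ)

theorem te_none (s : Bool) : teHom k0 k1 i Q P n (FreeGroup.of (none, s)) =
    FreeGroup.of (none, s) := by
  rw [teHom, FreeGroup.lift_apply_of]

theorem te_c0 : teHom k0 k1 i Q P n (fa (some (k0, i))) =
    gam1 k0 k1 i Q ^ (-n) * fa (some (k0, i)) * gam1 k0 k1 i Q ^ n := by
  rw [fa, teHom, FreeGroup.lift_apply_of]
  simp [fa]

theorem te_d0 : teHom k0 k1 i Q P n (fb (some (k0, i))) =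
    fb (some (k0, i)) * gam1 k0 k1 i Q ^ n := by
  rw [fb, teHom, FreeGroup.lift_apply_of]
  simp [fb]

theorem te_c1 (h : k1 ≠ k0) : teHom k0 k1 i Q P n (fa (some (k1, i))) = fa (some (k1, i)) := by
  rw [fa, teHom, FreeGroup.lift_apply_of]
  simp [h]

theorem te_d1 (h : k1 ≠ k0) : teHom k0 k1 i Q P n (fb (some (k1, i))) =
    gam1 k0 k1 i Q ^ (-n) * fb (some (k1, i)) := by
  rw [fb, teHom, FreeGroup.lift_apply_of]
  simp [h, fb]

theorem te_Q (j : κ) (hj : j ∈ Q) (hi : i ∉ Q) (s : Bool) :
    teHom k0 k1 i Q P n (FreeGroup.of (some (k1, j), s)) =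
      gam1 k0 k1 i Q ^ (-n) * FreeGroup.of (some (k1, j), s) * gam1 k0 k1 i Q ^ n := by
  have h : j ≠ i := fun h => hi (h ▸ hj)
  rw [teHom, FreeGroup.lift_apply_of]
  simp [h, hj]

theorem te_P (j : κ) (hj : j ∈ P) (hi : i ∉ P) (hQ : j ∉ Q) (s : Bool) :
    teHom k0 k1 i Q P n (FreeGroup.of (some (k1, j), s)) =
      eta1 k0 k1 i Q n * FreeGroup.of (some (k1, j), s) * (eta1 k0 k1 i Q n)⁻¹ := by
  have h : j ≠ i := fun h => hi (h ▸ hj)
  rw [teHom, FreeGroup.lift_apply_of]
  simp [h, hj, hQ]

theorem te_else (k : Fin p) (j : κ) (s : Bool) (h1 : k ≠ k1) (h2 : k = k0 → j ≠ i) :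
    teHom k0 k1 i Q P n (FreeGroup.of (some (k, j), s)) = FreeGroup.of (some (k, j), s) := by
  rw [teHom, FreeGroup.lift_apply_of]
  by_cases h : j = i
  · subst h
    have h3 : k ≠ k0 := fun h => h2 h rfl
    simp [h1, h3]
  · simp [h, h1]

theorem te_relQ (hi : i ∉ Q) : teHom k0 k1 i Q P n (relS (Q.map fun j => (k1, j))) =
    gam1 k0 k1 i Q ^ (-n) * relS (Q.map fun j => (k1, j)) * gam1 k0 k1 i Q ^ n := by
  have h := relS_conj (teHom k0 k1 i Q P n) (gam1 k0 k1 i Q ^ n) (Q.map fun j => (k1, j)) (by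
    intro q hq
    obtain ⟨j, hj, rfl⟩ := List.mem_map.1 hq
    rw [← zpow_neg]
    exact ⟨te_Q k0 k1 i Q P n j hj hi false, te_Q k0 k1 i Q P n j hj hi true⟩)
  rw [h, zpow_neg]

theorem te_relP (hi : i ∉ P) (hQ : ∀ j ∈ P, j ∉ Q) :
    teHom k0 k1 i Q P n (relS (P.map fun j => (k1, j))) =
      eta1 k0 k1 i Q n * relS (P.map fun j => (k1, j)) * (eta1 k0 k1 i Q n)⁻¹ := by
  have h := relS_conj (teHom k0 k1 i Q P n) (eta1 k0 k1 i Q n)⁻¹ (P.map fun j => (k1, j)) (by
    intro q hq
    obtain ⟨j, hj, rfl⟩ := List.mem_map.1 hq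
    rw [inv_inv]
    exact ⟨te_P k0 k1 i Q P n j hj hi (hQ j hj) false,
      te_P k0 k1 i Q P n j hj hi (hQ j hj) true⟩)
  rw [h, inv_inv]

omit [DecidableEq κ] in
theorem relQ_eq : relS (Q.map fun j => (k1, j)) = fb (some (k1, i)) * fa (some (k1, i)) *
    (fb (some (k1, i)))⁻¹ * gam1 k0 k1 i Q * (fa (some (k0, i)))⁻¹ := by
  unfold gam1
  group

theorem te_gam (h : k1 ≠ k0) (hi : i ∉ Q) :
    teHom k0 k1 i Q P n (gam1 k0 k1 i Q) = gam1 k0 k1 i Q := by
  have h1 : teHom k0 k1 i Q P n (gam1 k0 k1 i Q) = teHom k0 k1 i Q P n (fb (some (k1, i)) *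
      (fa (some (k1, i)))⁻¹ * (fb (some (k1, i)))⁻¹ *
        relS (Q.map fun j => (k1, j)) * fa (some (k0, i))) := rfl
  rw [h1]
  simp only [map_mul, map_inv, te_d1 k0 k1 i Q P n h, te_c1 k0 k1 i Q P n h,
    te_relQ k0 k1 i Q P n hi, te_c0]
  rw [relQ_eq k0 k1 i Q]
  group

theorem te_comp (h : k1 ≠ k0) (hiQ : i ∉ Q) (hiP : i ∉ P) (n l : ℤ)
    (w : FreeGroup (Option (Fin p × κ) × Bool)) :
    teHom k0 k1 i Q P n (teHom k0 k1 i Q P l w) = teHom k0 k1 i Q P (n + l) w := by
  have hg := te_gam k0 k1 i Q P n h hiQ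
  have hc : (teHom k0 k1 i Q P n).comp (teHom k0 k1 i Q P l) = teHom k0 k1 i Q P (n + l) := by
    refine FreeGroup.ext_hom _ _ ?_
    rintro ⟨_ | ⟨k, j⟩, s⟩
    · rw [MonoidHom.comp_apply, te_none, te_none, te_none]
    · rw [MonoidHom.comp_apply]
      by_cases hj : j = i
      · subst hj
        by_cases hk : k = k0
        · subst hk
          cases s
          · show teHom k k1 j Q P n (teHom k k1 j Q P l (fa (some (k, j)))) =
              teHom k k1 j Q P (n + l) (fa (some (k, j)))
            rw [te_c0, te_c0, map_mul, map_mul, map_zpow, map_zpow, hg, te_c0]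
            group
          · show teHom k k1 j Q P n (teHom k k1 j Q P l (fb (some (k, j)))) =
              teHom k k1 j Q P (n + l) (fb (some (k, j)))
            rw [te_d0, te_d0, map_mul, map_zpow, hg, te_d0]
            group
        · by_cases hk1 : k = k1
          · subst hk1
            cases s
            · show teHom k0 k j Q P n (teHom k0 k j Q P l (fa (some (k, j)))) =
                teHom k0 k j Q P (n + l) (fa (some (k, j)))
              rw [te_c1 _ _ _ _ _ _ h, te_c1 _ _ _ _ _ _ h, te_c1 _ _ _ _ _ _ h]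
            · show teHom k0 k j Q P n (teHom k0 k j Q P l (fb (some (k, j)))) =
                teHom k0 k j Q P (n + l) (fb (some (k, j)))
              rw [te_d1 _ _ _ _ _ _ h, te_d1 _ _ _ _ _ _ h, map_mul, map_zpow, hg,
                te_d1 _ _ _ _ _ _ h]
              group
          · rw [te_else _ _ _ _ _ _ k j s hk1 (fun h' => absurd h' hk),
              te_else _ _ _ _ _ _ k j s hk1 (fun h' => absurd h' hk),
              te_else _ _ _ _ _ _ k j s hk1 (fun h' => absurd h' hk)]
      · by_cases hk1 : k = k1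
        · subst hk1
          by_cases hjQ : j ∈ Q
          · rw [te_Q _ _ _ _ _ _ j hjQ hiQ, te_Q _ _ _ _ _ _ j hjQ hiQ, map_mul, map_mul,
              map_zpow, map_zpow, hg, te_Q _ _ _ _ _ _ j hjQ hiQ]
            group
          · by_cases hjP : j ∈ P
            · rw [te_P _ _ _ _ _ _ j hjP hiP hjQ, te_P _ _ _ _ _ _ j hjP hiP hjQ, map_mul,
                map_mul, map_inv, te_P _ _ _ _ _ _ j hjP hiP hjQ]
              have he : teHom k0 k i Q P n (eta1 k0 k i Q l) * eta1 k0 k i Q n =
                  eta1 k0 k i Q (n + l) := by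
                have h1 : teHom k0 k i Q P n (eta1 k0 k i Q l) = teHom k0 k i Q P n
                  (gam1 k0 k i Q ^ (-l) * fa (some (k0, i)) * gam1 k0 k i Q ^ l *
                    (fa (some (k0, i)))⁻¹) := rfl
                rw [h1]
                simp only [map_mul, map_inv, map_zpow, hg, te_c0]
                unfold eta1
                group
              rw [← he]
              group
            · have h1 : ∀ m : ℤ, teHom k0 k i Q P m (FreeGroup.of (some (k, j), s)) =
                  FreeGroup.of (some (k, j), s) := by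
                intro m
                rw [teHom, FreeGroup.lift_apply_of]
                simp [hj, hjQ, hjP]
              rw [h1, h1, h1]
        · rw [te_else _ _ _ _ _ _ k j s hk1 (fun _ => hj),
            te_else _ _ _ _ _ _ k j s hk1 (fun _ => hj),
            te_else _ _ _ _ _ _ k j s hk1 (fun _ => hj)]
  exact DFunLike.congr_fun hc w

theorem te_zero (w : FreeGroup (Option (Fin p × κ) × Bool)) : teHom k0 k1 i Q P 0 w = w := by
  have hc : teHom k0 k1 i Q P 0 = MonoidHom.id _ := by
    refine FreeGroup.ext_hom _ _ ?_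
    rintro ⟨_ | ⟨k, j⟩, s⟩
    · rw [te_none]
      rfl
    · rw [teHom, FreeGroup.lift_apply_of, MonoidHom.id_apply]
      simp only [neg_zero, zpow_zero, one_mul, mul_one, eta1, mul_inv_cancel, inv_one]
      split_ifs with h1 h2 h3 h4
      · subst h1 h2 h3
        rfl
      · subst h1 h2
        simp only [Bool.not_eq_true] at h3
        subst h3
        rfl
      · obtain ⟨h5, h6⟩ := h4
        subst h1 h5 h6
        rfl
      all_goals rfl
  rw [hc]
  rfl

variable (h : k1 ≠ k0) (hiQ : i ∉ Q) (hiP : i ∉ P)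

/-- The twist about `gam1`. -/
def teE : MulAut (FreeGroup (Option (Fin p × κ) × Bool)) where
  toFun := teHom k0 k1 i Q P 1
  invFun := teHom k0 k1 i Q P (-1)
  left_inv w := by rw [te_comp k0 k1 i Q P h hiQ hiP]; exact te_zero k0 k1 i Q P w
  right_inv w := by rw [te_comp k0 k1 i Q P h hiQ hiP]; exact te_zero k0 k1 i Q P w
  map_mul' := map_mul _

theorem teE_apply (w : FreeGroup (Option (Fin p × κ) × Bool)) :
    teE k0 k1 i Q P h hiQ hiP w = teHom k0 k1 i Q P 1 w := rfl

theorem teE_pow (m : ℕ) (w : FreeGroup (Option (Fin p × κ) × Bool)) :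
    (teE k0 k1 i Q P h hiQ hiP ^ m) w = teHom k0 k1 i Q P m w := by
  induction m generalizing w with
  | zero => exact (te_zero k0 k1 i Q P w).symm
  | succ m ih =>
    rw [pow_succ, MulAut.mul_apply, ih, teE_apply, te_comp k0 k1 i Q P h hiQ hiP]
    push_cast
    rfl

/-- The relator is fixed. -/
theorem teE_mem (hQ : ∀ j ∈ P, j ∉ Q) (X : List (Fin p × κ)) (hX : ∀ q ∈ X, q.1 ≠ k0 ∧ q.1 ≠ k1) :
    teE k0 k1 i Q P h hiQ hiP ∈ StR (BL (X ++ ((i :: (Q ++ P)).map (fun j => (k1, j)) ++
      (i :: (Q ++ P)).map (fun j => (k0, j))))) := by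
  show teHom k0 k1 i Q P 1 (relator (BL _)) = relator (BL _)
  have e1 : ∀ k : Fin p, relS ((i :: (Q ++ P)).map (fun j => (k, j))) =
      fa (some (k, i)) * fb (some (k, i)) * (fa (some (k, i)))⁻¹ * (fb (some (k, i)))⁻¹ *
        (relS (Q.map fun j => (k, j)) * relS (P.map fun j => (k, j))) := by
    intro k
    rw [List.map_cons, relS_cons, List.map_append, relS_append]
  have e2 : teHom k0 k1 i Q P 1 (relS X) = relS X := by
    apply map_relS
    rintro ⟨k, j⟩ hq
    obtain ⟨h1, h2⟩ := hX _ hq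
    exact ⟨te_else _ _ _ _ _ _ k j false h2 (fun h' => absurd h' h1),
      te_else _ _ _ _ _ _ k j true h2 (fun h' => absurd h' h1)⟩
  have e3 : ∀ T : List κ, (∀ j ∈ T, j ≠ i) →
      teHom k0 k1 i Q P 1 (relS (T.map fun j => (k0, j))) = relS (T.map fun j => (k0, j)) := by
    intro T hT
    apply map_relS
    intro q hq
    obtain ⟨j, hj, rfl⟩ := List.mem_map.1 hq
    exact ⟨te_else _ _ _ _ _ _ k0 j false h.symm (fun _ => hT j hj),
      te_else _ _ _ _ _ _ k0 j true h.symm (fun _ => hT j hj)⟩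
  have hQi : ∀ j ∈ Q, j ≠ i := fun j hj h' => hiQ (h' ▸ hj)
  have hPi : ∀ j ∈ P, j ≠ i := fun j hj h' => hiP (h' ▸ hj)
  rw [relator_BL, relS_append, relS_append, e1, e1]
  have en : ∀ s, teHom k0 k1 i Q P 1 (FreeGroup.of (none, s)) = FreeGroup.of (none, s) :=
    te_none k0 k1 i Q P 1
  have ea : teHom k0 k1 i Q P 1 (fa none) = fa none := en false
  have eb : teHom k0 k1 i Q P 1 (fb none) = fb none := en true
  simp only [map_mul, map_inv, ea, eb, e2, e3 Q hQi, e3 P hPi, te_c0, te_d0,
    te_c1 k0 k1 i Q P 1 h, te_d1 k0 k1 i Q P 1 h, te_relQ k0 k1 i Q P 1 hiQ,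
    te_relP k0 k1 i Q P 1 hiP hQ]
  rw [relQ_eq k0 k1 i Q]
  unfold eta1
  group

/-- The braid relation with the twist about `b_(k1, i)`. -/
theorem teE_braid : twE' (some (k1, i)) * teE k0 k1 i Q P h hiQ hiP * twE' (some (k1, i)) =
    teE k0 k1 i Q P h hiQ hiP * twE' (some (k1, i)) * teE k0 k1 i Q P h hiQ hiP := by
  set V : MulAut (FreeGroup (Option (Fin p × κ) × Bool)) := twE' (some (k1, i)) with hV
  set T := teE k0 k1 i Q P h hiQ hiP with hT
  have vb : ∀ q, V (fb q) = fb q := fun q => twFree'_b _ q 1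
  have va : ∀ q, q ≠ some (k1, i) → V (fa q) = fa q := fun q hq => twFree'_a_ne _ q 1 hq
  have vc : V (fa (some (k1, i))) = fa (some (k1, i)) * (fb (some (k1, i)))⁻¹ := by
    have := twFree'_a (some (k1, i) : Option (Fin p × κ)) 1
    rw [zpow_neg_one] at this
    exact this
  have h0 : (some (k0, i) : Option (Fin p × κ)) ≠ some (k1, i) := by
    intro h'
    simp only [Option.some.injEq, Prod.mk.injEq, and_true] at h'
    exact h h'.symm
  have vQ : V (relS (Q.map fun j => (k1, j))) = relS (Q.map fun j => (k1, j)) := by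
    have := map_relS V.toMonoidHom (Q.map fun j => (k1, j)) (by
      intro q hq
      obtain ⟨j, hj, rfl⟩ := List.mem_map.1 hq
      refine ⟨va _ ?_, vb _⟩
      intro h'
      simp only [Option.some.injEq, Prod.mk.injEq, true_and] at h'
      exact hiQ (h' ▸ hj))
    exact this
  have vg : V (gam1 k0 k1 i Q) = fb (some (k1, i)) * gam1 k0 k1 i Q := by
    have h1 : V (gam1 k0 k1 i Q) = V (fb (some (k1, i)) *
      (fa (some (k1, i)))⁻¹ * (fb (some (k1, i)))⁻¹ *
        relS (Q.map fun j => (k1, j)) * fa (some (k0, i))) := rfl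
    rw [h1]
    simp only [map_mul, map_inv, vb, vc, va _ h0, vQ]
    rw [relQ_eq k0 k1 i Q]
    group
  have tg : T (gam1 k0 k1 i Q) = gam1 k0 k1 i Q := te_gam k0 k1 i Q P 1 h hiQ
  have tc0 : T (fa (some (k0, i))) = (gam1 k0 k1 i Q)⁻¹ * fa (some (k0, i)) * gam1 k0 k1 i Q := by
    have := te_c0 k0 k1 i Q P 1
    rwa [zpow_neg_one, zpow_one] at this
  have td0 : T (fb (some (k0, i))) = fb (some (k0, i)) * gam1 k0 k1 i Q := by
    have := te_d0 k0 k1 i Q P 1
    rwa [zpow_one] at this
  have tc1 : T (fa (some (k1, i))) = fa (some (k1, i)) := te_c1 k0 k1 i Q P 1 h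
  have td1 : T (fb (some (k1, i))) = (gam1 k0 k1 i Q)⁻¹ * fb (some (k1, i)) := by
    have := te_d1 k0 k1 i Q P 1 h
    rwa [zpow_neg_one] at this
  have eeta : eta1 k0 k1 i Q 1 = (gam1 k0 k1 i Q)⁻¹ * fa (some (k0, i)) * gam1 k0 k1 i Q *
      (fa (some (k0, i)))⁻¹ := by
    unfold eta1
    rw [zpow_neg_one, zpow_one]
  refine ub_ext ?_
  rintro ⟨_ | ⟨k, j⟩, s⟩
  · have t1 : T (FreeGroup.of (none, s)) = FreeGroup.of (none, s) := te_none k0 k1 i Q P 1 s
    have v1 : V (FreeGroup.of (none, s)) = FreeGroup.of (none, s) := by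
      cases s
      · exact va none (by simp)
      · exact vb none
    show V (T (V (FreeGroup.of (none, s)))) = T (V (T (FreeGroup.of (none, s))))
    rw [t1, v1, t1, v1]
  · show V (T (V _)) = T (V (T _))
    by_cases hj : j = i
    · subst hj
      by_cases hk : k = k0
      · subst hk
        cases s
        · show V (T (V (fa (some (k, j))))) = T (V (T (fa (some (k, j)))))
          simp only [map_mul, map_inv, va _ h0, tc0, vg, td1, tg]
          group
        · show V (T (V (fb (some (k, j))))) = T (V (T (fb (some (k, j)))))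
          simp only [map_mul, vb, td0, vg, td1, tg]
          group
      · by_cases hk1 : k = k1
        · subst hk1
          cases s
          · show V (T (V (fa (some (k, j))))) = T (V (T (fa (some (k, j)))))
            simp only [map_mul, map_inv, vb, vc, tc1, td1, vg]
            group
          · show V (T (V (fb (some (k, j))))) = T (V (T (fb (some (k, j)))))
            simp only [map_mul, map_inv, vb, td1, vg, tg]
            try group
        · have t1 : T (FreeGroup.of (some (k, j), s)) = FreeGroup.of (some (k, j), s) :=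
            te_else _ _ _ _ _ _ k j s hk1 (fun h' => absurd h' hk)
          have v1 : V (FreeGroup.of (some (k, j), s)) = FreeGroup.of (some (k, j), s) := by
            cases s
            · exact va _ (by
                intro h'
                simp only [Option.some.injEq, Prod.mk.injEq, and_true] at h'
                exact hk1 h')
            · exact vb _
          rw [t1, v1, t1, v1]
    · have v1 : V (FreeGroup.of (some (k, j), s)) = FreeGroup.of (some (k, j), s) := by
        cases s
        · exact va _ (by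
            intro h'
            simp only [Option.some.injEq, Prod.mk.injEq] at h'
            exact hj h'.2)
        · exact vb _
      by_cases hk1 : k = k1
      · subst hk1
        by_cases hjQ : j ∈ Q
        · have t1 : T (FreeGroup.of (some (k, j), s)) = (gam1 k0 k i Q)⁻¹ *
              FreeGroup.of (some (k, j), s) * gam1 k0 k i Q := by
            have := te_Q k0 k i Q P 1 j hjQ hiQ s
            rwa [zpow_neg_one, zpow_one] at this
          simp only [v1, t1, map_mul, map_inv, vg, tg, td1]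
          group
        · by_cases hjP : j ∈ P
          · have t1 : T (FreeGroup.of (some (k, j), s)) = eta1 k0 k i Q 1 *
              FreeGroup.of (some (k, j), s) * (eta1 k0 k i Q 1)⁻¹ :=
              te_P k0 k i Q P 1 j hjP hiP hjQ s
            simp only [v1, t1, eeta, map_mul, map_inv, vg, tg, td1, tc0, va _ h0]
            group
          · have t1 : T (FreeGroup.of (some (k, j), s)) = FreeGroup.of (some (k, j), s) := by
              have h5 : T (FreeGroup.of (some (k, j), s)) =
                teHom k0 k i Q P 1 (FreeGroup.of (some (k, j), s)) := rfl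
              rw [h5, teHom, FreeGroup.lift_apply_of]
              simp [hj, hjQ, hjP]
            rw [v1, t1, v1]
            exact t1.symm
      · have t1 : T (FreeGroup.of (some (k, j), s)) = FreeGroup.of (some (k, j), s) :=
          te_else _ _ _ _ _ _ k j s hk1 (fun _ => hj)
        rw [v1, t1, v1]
        exact t1.symm

end values

end te

/-- The twist about `b_q` is conjugate to the twist, with the position of the curve. -/
theorem isC_V {κ' : Type} [DecidableEq κ'] (L1 : List κ') (hn : L1.Nodup) (q : κ') (hq : q ∈ L1) :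
    IsC (BL L1) (toAut (BL L1) ⟨twE' (some q), twE'_mem _ _⟩) (gb (BL L1) (some q)) := by
  obtain ⟨g, hg, u, hu⟩ := exists_some_conj L1 hn q hq
  have h1 : IsC (BL L1) (twist (BL L1) (some q)) (ga (BL L1) (some q)) :=
    ⟨g, hg, u, Or.inl hu⟩
  refine h1.braid ?_ ⟨1, Or.inr ?_⟩
  · rw [← toAut_twE, ← map_mul, ← map_mul, ← map_mul, ← map_mul]
    congr 1
    apply Subtype.ext
    exact braid_AB q
  · rw [aut_mul_apply]
    have h2 : (toAut (BL L1) ⟨twE' (some q), twE'_mem _ _⟩).1 (ga (BL L1) (some q)) =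
        ga _ (some q) * (gb _ (some q))⁻¹ := by
      show (toAut (BL L1) ⟨twE' (some q), twE'_mem _ _⟩).1 (proj _ (fa (some q))) = _
      rw [toAut_proj]
      show proj _ (twFree' (some q) 1 (fa (some q))) = _
      rw [twFree'_a, map_mul, zpow_neg_one, map_inv]
      rfl
    rw [h2, map_mul, map_inv]
    rw [show (twist (BL L1) (some q)).1 (ga _ (some q)) = ga _ (some q) from twAut_a _ _ _,
      show (twist (BL L1) (some q)).1 (gb _ (some q)) = gb _ (some q) * ga _ (some q) from
        twAut_b _ _]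
    group

end Pool.Agent.Lib.MP_6a1159_al
end

section

/-! The first lift of the separating twist. -/

set_option autoImplicit false

namespace Pool.Agent.Lib.MP_6a1159_al


section e

variable {κ : Type} [DecidableEq κ] (i : κ)

/-- The automorphism which moves the character `b ↦ 1, b_i ↦ 1` to `b ↦ 1`. -/
def eHom : FreeGroup (Option κ × Bool) →* FreeGroup (Option κ × Bool) :=
  FreeGroup.lift fun x => match x with
    | (none, false) => fa none * fa (some i)
    | (none, true) => (fa (some i))⁻¹ * fb none * fa (some i)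
    | (some j, s) =>
      if j = i then
        if s then fb (some i) * (fa (some i))⁻¹ * (fb none)⁻¹ * fa (some i)
        else (fa (some i))⁻¹ * fb none * fa (some i) * (fb none)⁻¹ * fa (some i)
      else FreeGroup.of (some j, s)

/-- The inverse of `eHom`. -/
def eInv : FreeGroup (Option κ × Bool) →* FreeGroup (Option κ × Bool) :=
  FreeGroup.lift fun x => match x with
    | (none, false) => fa none * (fb none)⁻¹ * (fa (some i))⁻¹ * fb none
    | (none, true) => (fb none)⁻¹ * fa (some i) * fb none * (fa (some i))⁻¹ * fb none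
    | (some j, s) =>
      if j = i then
        if s then fb (some i) * fb none
        else (fb none)⁻¹ * fa (some i) * fb none
      else FreeGroup.of (some j, s)

theorem e_a : eHom i (fa none) = fa none * fa (some i) := by
  rw [fa, eHom, FreeGroup.lift_apply_of]
  rfl

theorem e_b : eHom i (fb none) = (fa (some i))⁻¹ * fb none * fa (some i) := by
  rw [fb, eHom, FreeGroup.lift_apply_of]
  rfl

theorem e_c : eHom i (fa (some i)) =
    (fa (some i))⁻¹ * fb none * fa (some i) * (fb none)⁻¹ * fa (some i) := by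
  rw [fa, eHom, FreeGroup.lift_apply_of]
  simp [fa]

theorem e_d : eHom i (fb (some i)) =
    fb (some i) * (fa (some i))⁻¹ * (fb none)⁻¹ * fa (some i) := by
  rw [fb, eHom, FreeGroup.lift_apply_of]
  simp [fb]

theorem e_else (j : κ) (s : Bool) (h : j ≠ i) :
    eHom i (FreeGroup.of (some j, s)) = FreeGroup.of (some j, s) := by
  rw [eHom, FreeGroup.lift_apply_of]
  simp [h]

theorem ei_a : eInv i (fa none) = fa none * (fb none)⁻¹ * (fa (some i))⁻¹ * fb none := by
  rw [fa, eInv, FreeGroup.lift_apply_of]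
  rfl

theorem ei_b : eInv i (fb none) =
    (fb none)⁻¹ * fa (some i) * fb none * (fa (some i))⁻¹ * fb none := by
  rw [fb, eInv, FreeGroup.lift_apply_of]
  rfl

theorem ei_c : eInv i (fa (some i)) = (fb none)⁻¹ * fa (some i) * fb none := by
  rw [fa, eInv, FreeGroup.lift_apply_of]
  simp [fa]

theorem ei_d : eInv i (fb (some i)) = fb (some i) * fb none := by
  rw [fb, eInv, FreeGroup.lift_apply_of]
  simp [fb]

theorem ei_else (j : κ) (s : Bool) (h : j ≠ i) :
    eInv i (FreeGroup.of (some j, s)) = FreeGroup.of (some j, s) := by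
  rw [eInv, FreeGroup.lift_apply_of]
  simp [h]

theorem e_ei (w : FreeGroup (Option κ × Bool)) : eHom i (eInv i w) = w := by
  have h1 : (eHom i).comp (eInv i) = MonoidHom.id _ := by
    refine FreeGroup.ext_hom _ _ ?_
    rintro ⟨_ | j, s⟩
    · cases s
      · show eHom i (eInv i (fa none)) = fa none
        rw [ei_a]
        simp only [map_mul, map_inv, e_a, e_b, e_c]
        group
      · show eHom i (eInv i (fb none)) = fb none
        rw [ei_b]
        simp only [map_mul, map_inv, e_b, e_c]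
        group
    · by_cases h : j = i
      · subst h
        cases s
        · show eHom j (eInv j (fa (some j))) = fa (some j)
          rw [ei_c]
          simp only [map_mul, map_inv, e_b, e_c]
          group
        · show eHom j (eInv j (fb (some j))) = fb (some j)
          rw [ei_d]
          simp only [map_mul, e_b, e_d]
          group
      · rw [MonoidHom.comp_apply, ei_else i j s h, e_else i j s h]
        rfl
  exact DFunLike.congr_fun h1 w

theorem ei_e (w : FreeGroup (Option κ × Bool)) : eInv i (eHom i w) = w := by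
  have h1 : (eInv i).comp (eHom i) = MonoidHom.id _ := by
    refine FreeGroup.ext_hom _ _ ?_
    rintro ⟨_ | j, s⟩
    · cases s
      · show eInv i (eHom i (fa none)) = fa none
        rw [e_a]
        simp only [map_mul, ei_a, ei_c]
        group
      · show eInv i (eHom i (fb none)) = fb none
        rw [e_b]
        simp only [map_mul, map_inv, ei_b, ei_c]
        group
    · by_cases h : j = i
      · subst h
        cases s
        · show eInv j (eHom j (fa (some j))) = fa (some j)
          rw [e_c]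
          simp only [map_mul, map_inv, ei_b, ei_c]
          group
        · show eInv j (eHom j (fb (some j))) = fb (some j)
          rw [e_d]
          simp only [map_mul, map_inv, ei_b, ei_c, ei_d]
          group
      · rw [MonoidHom.comp_apply, e_else i j s h, ei_else i j s h]
        rfl
  exact DFunLike.congr_fun h1 w

/-- `eHom` as an automorphism. -/
def eE : MulAut (FreeGroup (Option κ × Bool)) where
  toFun := eHom i
  invFun := eInv i
  left_inv := ei_e i
  right_inv := e_ei i
  map_mul' := map_mul _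

theorem eE_mem (R : List κ) (h : i ∉ R) : eE i ∈ StR (BL (i :: R)) := by
  show eHom i (relator (BL (i :: R))) = relator (BL (i :: R))
  have h1 : eHom i (relS R) = relS R := by
    apply map_relS
    intro j hj
    have hne : j ≠ i := fun h' => h (h' ▸ hj)
    exact ⟨e_else i j false hne, e_else i j true hne⟩
  rw [relator_BL, relS_cons]
  simp only [map_mul, map_inv, e_a, e_b, e_c, e_d, h1]
  group

end e

end Pool.Agent.Lib.MP_6a1159_al
end
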