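import Pool.Agent.Lib.MP_6a1159_al.Mg.G016
import Pool.Agent.Lib.MP_6a1159_al.Final

section

/-! The first lift of the separating twist: computation. -/

set_option autoImplicit false

namespace Pool.Agent.Lib.MP_6a1159_al

section J

variable {κ : Type} [DecidableEq κ] (p : ℕ) [Fact p.Prime] (i : κ) (Q P : List κ)

/-- The handles. -/
abbrev J0 : List κ := i :: (Q ++ P)

/-- The handles on one side of the separating curve. -/
abbrev JM : List (Option κ) := (i :: Q).map some

omit [DecidableEq κ] in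
theorem BL_split : BL (J0 i Q P) = [none] ++ JM i Q ++ P.map some := by
  simp [BL, J0, JM]

variable {i Q P}

omit [DecidableEq κ] in
theorem none_notMem_JM : (none : Option κ) ∉ JM i Q := by simp

omit [DecidableEq κ] in
theorem hA (j : Option κ) (hj : j ∈ [(none : Option κ)]) : j ∉ JM i Q := by
  rw [List.mem_singleton] at hj
  subst hj
  exact none_notMem_JM

omit [DecidableEq κ] in
theorem hB (hiP : i ∉ P) (hQ : ∀ j ∈ P, j ∉ Q) (j : Option κ) (hj : j ∈ P.map some) :
    j ∉ JM i Q := by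
  obtain ⟨k, hk, rfl⟩ := List.mem_map.1 hj
  intro h
  obtain ⟨l, hl, hl'⟩ := List.mem_map.1 h
  rw [Option.some.injEq] at hl'
  subst hl'
  rcases List.mem_cons.1 hl with h1 | h1
  · exact hiP (h1 ▸ hk)
  · exact hQ _ hk h1

variable (i Q P)

/-- Reduction modulo `p`. -/
def redp (p : ℕ) : Multiplicative ℤ →* Multiplicative (ZMod p) :=
  AddMonoidHom.toMultiplicative (Int.castAddHom (ZMod p))

theorem redp_apply (p : ℕ) (z : Multiplicative ℤ) :
    redp p z = Multiplicative.ofAdd ((z.toAdd : ℤ) : ZMod p) := rfl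

theorem exists_X1 : ∃ X : SG (BL (J0 i Q P)) →* Multiplicative ℤ,
    X (ga _ none) = 1 ∧ X (gb _ none) = Multiplicative.ofAdd 1 ∧
    X (ga _ (some i)) = 1 ∧ X (gb _ (some i)) = Multiplicative.ofAdd 1 ∧
    ∀ j, j ≠ i → X (ga _ (some j)) = 1 ∧ X (gb _ (some j)) = 1 := by
  obtain ⟨X, hX⟩ := k5_hom (BL (J0 i Q P)) (fun x =>
    if x = (none, true) ∨ x = (some i, true) then Multiplicative.ofAdd 1 else 1)
  refine ⟨X, ?_, ?_, ?_, ?_, fun j hj => ⟨?_, ?_⟩⟩
  · exact (hX (none, false)).trans (by simp)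
  · exact (hX (none, true)).trans (by simp)
  · exact (hX (some i, false)).trans (by simp)
  · exact (hX (some i, true)).trans (by simp)
  · exact (hX (some j, false)).trans (by simp)
  · exact (hX (some j, true)).trans (by simp [hj])

/-- The covering: in the coordinates of the surface, `A ↦ c a`, `B ↦ b ^ p`,
`c_k ↦ b ^ (k+1) c b ^ -(k+1)`, `d_k ↦ b ^ k (c d c⁻¹ b⁻¹) b ^ -k`, `x_k ↦ b ^ k c x c⁻¹ b ^ -k`. -/
noncomputable def Th2 (hi : i ∉ Q ++ P) :
    SG (BL (CL p (J0 i Q P))) →* SG (BL (J0 i Q P)) :=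
  ((inn _ (ga (BL (J0 i Q P)) (some i))) *
    toAut (BL (J0 i Q P)) ⟨eE i, eE_mem i (Q ++ P) hi⟩).1.toMonoidHom.comp (Theta p (J0 i Q P))

variable (hi : i ∉ Q ++ P)


theorem eps_apply (w : FreeGroup (Option κ × Bool)) :
    ((inn _ (ga (BL (J0 i Q P)) (some i))) * toAut (BL (J0 i Q P)) ⟨eE i, eE_mem i (Q ++ P) hi⟩).1
      (proj _ w) = ga (BL (J0 i Q P)) (some i) * proj _ (eHom i w) * (ga (BL (J0 i Q P)) (some i))⁻¹ := by
  rw [aut_mul_apply, toAut_proj, inn_apply]
  rfl

theorem Th2_apply (y : SG (BL (CL p (J0 i Q P)))) : Th2 p i Q P hi y =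
    ((inn _ (ga (BL (J0 i Q P)) (some i))) * toAut (BL (J0 i Q P)) ⟨eE i, eE_mem i (Q ++ P) hi⟩).1
      (Theta p (J0 i Q P) y) := rfl

theorem eps_a : ((inn _ (ga (BL (J0 i Q P)) (some i))) * toAut (BL (J0 i Q P)) ⟨eE i, eE_mem i (Q ++ P) hi⟩).1
    (ga (BL (J0 i Q P)) none) = ga (BL (J0 i Q P)) (some i) * ga (BL (J0 i Q P)) none := by
  refine (eps_apply i Q P hi (fa none)).trans ?_
  rw [e_a, map_mul]
  show ga (BL (J0 i Q P)) (some i) * (ga (BL (J0 i Q P)) none * ga (BL (J0 i Q P)) (some i)) * (ga (BL (J0 i Q P)) (some i))⁻¹ = _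
  group

theorem eps_b : ((inn _ (ga (BL (J0 i Q P)) (some i))) * toAut (BL (J0 i Q P)) ⟨eE i, eE_mem i (Q ++ P) hi⟩).1
    (gb (BL (J0 i Q P)) none) = gb (BL (J0 i Q P)) none := by
  refine (eps_apply i Q P hi (fb none)).trans ?_
  rw [e_b]
  simp only [map_mul, map_inv]
  show ga (BL (J0 i Q P)) (some i) * ((ga (BL (J0 i Q P)) (some i))⁻¹ * gb (BL (J0 i Q P)) none * ga (BL (J0 i Q P)) (some i)) * (ga (BL (J0 i Q P)) (some i))⁻¹ = _
  group

theorem eps_c : ((inn _ (ga (BL (J0 i Q P)) (some i))) * toAut (BL (J0 i Q P)) ⟨eE i, eE_mem i (Q ++ P) hi⟩).1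
    (ga (BL (J0 i Q P)) (some i)) = gb (BL (J0 i Q P)) none * ga (BL (J0 i Q P)) (some i) * (gb (BL (J0 i Q P)) none)⁻¹ := by
  refine (eps_apply i Q P hi (fa (some i))).trans ?_
  rw [e_c]
  simp only [map_mul, map_inv]
  show ga (BL (J0 i Q P)) (some i) * ((ga (BL (J0 i Q P)) (some i))⁻¹ * gb (BL (J0 i Q P)) none * ga (BL (J0 i Q P)) (some i) * (gb (BL (J0 i Q P)) none)⁻¹ *
    ga (BL (J0 i Q P)) (some i)) * (ga (BL (J0 i Q P)) (some i))⁻¹ = _
  group

theorem eps_d : ((inn _ (ga (BL (J0 i Q P)) (some i))) * toAut (BL (J0 i Q P)) ⟨eE i, eE_mem i (Q ++ P) hi⟩).1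
    (gb (BL (J0 i Q P)) (some i)) = ga (BL (J0 i Q P)) (some i) * gb (BL (J0 i Q P)) (some i) * (ga (BL (J0 i Q P)) (some i))⁻¹ * (gb (BL (J0 i Q P)) none)⁻¹ := by
  refine (eps_apply i Q P hi (fb (some i))).trans ?_
  rw [e_d]
  simp only [map_mul, map_inv]
  show ga (BL (J0 i Q P)) (some i) * (gb (BL (J0 i Q P)) (some i) * (ga (BL (J0 i Q P)) (some i))⁻¹ * (gb (BL (J0 i Q P)) none)⁻¹ *
    ga (BL (J0 i Q P)) (some i)) * (ga (BL (J0 i Q P)) (some i))⁻¹ = _
  group

theorem eps_else (j : κ) (s : Bool) (h : j ≠ i) :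
    ((inn _ (ga (BL (J0 i Q P)) (some i))) * toAut (BL (J0 i Q P)) ⟨eE i, eE_mem i (Q ++ P) hi⟩).1
      (proj _ (FreeGroup.of (some j, s))) =
      ga (BL (J0 i Q P)) (some i) * proj _ (FreeGroup.of (some j, s)) * (ga (BL (J0 i Q P)) (some i))⁻¹ := by
  rw [eps_apply i Q P hi, e_else i j s h]

/-- Values of the covering map. -/
theorem Th2_a : Th2 p i Q P hi (ga _ none) = ga (BL (J0 i Q P)) (some i) * ga (BL (J0 i Q P)) none := by
  rw [Th2_apply, r5_theta_a, eps_a i Q P hi]

theorem Th2_b : Th2 p i Q P hi (gb _ none) = gb (BL (J0 i Q P)) none ^ p := by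
  rw [Th2_apply, r5_theta_b, map_pow, eps_b i Q P hi]

theorem Th2_c (k : Fin p) : Th2 p i Q P hi (ga _ (some (k, i))) =
    gb (BL (J0 i Q P)) none ^ (k : ℕ) * (gb (BL (J0 i Q P)) none * ga (BL (J0 i Q P)) (some i) * (gb (BL (J0 i Q P)) none)⁻¹) * (gb (BL (J0 i Q P)) none ^ (k : ℕ))⁻¹ := by
  rw [Th2_apply, r5_theta_ah, map_mul, map_mul, map_inv, map_pow, eps_b i Q P hi, eps_c i Q P hi]

theorem Th2_d (k : Fin p) : Th2 p i Q P hi (gb _ (some (k, i))) =
    gb (BL (J0 i Q P)) none ^ (k : ℕ) * (ga (BL (J0 i Q P)) (some i) * gb (BL (J0 i Q P)) (some i) * (ga (BL (J0 i Q P)) (some i))⁻¹ * (gb (BL (J0 i Q P)) none)⁻¹) *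
      (gb (BL (J0 i Q P)) none ^ (k : ℕ))⁻¹ := by
  rw [Th2_apply, r5_theta_bh, map_mul, map_mul, map_inv, map_pow, eps_b i Q P hi, eps_d i Q P hi]

theorem Th2_else (k : Fin p) (j : κ) (s : Bool) (h : j ≠ i) :
    Th2 p i Q P hi (proj _ (FreeGroup.of (some (k, j), s))) =
      gb (BL (J0 i Q P)) none ^ (k : ℕ) * (ga (BL (J0 i Q P)) (some i) * proj _ (FreeGroup.of (some j, s)) *
        (ga (BL (J0 i Q P)) (some i))⁻¹) * (gb (BL (J0 i Q P)) none ^ (k : ℕ))⁻¹ := by
  have h1 : Theta p (J0 i Q P) (proj _ (FreeGroup.of (some (k, j), s))) =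
      gb (BL (J0 i Q P)) none ^ (k : ℕ) * proj _ (FreeGroup.of (some j, s)) * (gb (BL (J0 i Q P)) none ^ (k : ℕ))⁻¹ := by
    cases s
    · exact r5_theta_ah p (J0 i Q P) k j
    · exact r5_theta_bh p (J0 i Q P) k j
  rw [Th2_apply, h1, map_mul, map_mul, map_inv, map_pow, eps_b i Q P hi, eps_else i Q P hi j s h]

theorem cov_Th2 : Cov (BL (CL p (J0 i Q P))) (BL (J0 i Q P)) (Th2 p i Q P hi) :=
  (cov_Theta p (J0 i Q P)).comp (cov_aut _)

/-- The range of the covering map. -/
theorem range_Th2 (X : SG (BL (J0 i Q P)) →* Multiplicative ℤ)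
    (hX : X (ga _ none) = 1 ∧ X (gb _ none) = Multiplicative.ofAdd 1 ∧
      X (ga _ (some i)) = 1 ∧ X (gb _ (some i)) = Multiplicative.ofAdd 1 ∧
      ∀ j, j ≠ i → X (ga _ (some j)) = 1 ∧ X (gb _ (some j)) = 1) :
    (Th2 p i Q P hi).range = ((redp p).comp X).ker := by
  set ε := (inn _ (ga (BL (J0 i Q P)) (some i))) * toAut (BL (J0 i Q P)) ⟨eE i, eE_mem i (Q ++ P) hi⟩ with hε
  obtain ⟨h1, h2, h3, h4, h5⟩ := hX
  have hcomp : ((redp p).comp X).comp ε.1.toMonoidHom = c0 p (J0 i Q P) := by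
    apply PresentedGroup.ext
    rintro ⟨_ | j, s⟩
    · cases s
      · show redp p (X (ε.1 (ga (BL (J0 i Q P)) none))) = c0 p (J0 i Q P) (ga (BL (J0 i Q P)) none)
        rw [hε, eps_a i Q P hi, map_mul, h1, h3, k3_c0_a, one_mul, map_one]
      · show redp p (X (ε.1 (gb (BL (J0 i Q P)) none))) = c0 p (J0 i Q P) (gb (BL (J0 i Q P)) none)
        rw [hε, eps_b i Q P hi, h2, k3_c0_b, redp_apply, toAdd_ofAdd, Int.cast_one]
    · by_cases h : j = i
      · subst h
        cases s
        · show redp p (X (ε.1 (ga _ (some j)))) = c0 p (J0 j Q P) (ga _ (some j))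
          rw [hε, eps_c j Q P hi]
          simp only [map_mul, map_inv]
          rw [h2, h3, k3_c0_a, (redp p).map_one, mul_one, mul_inv_cancel]
        · show redp p (X (ε.1 (gb _ (some j)))) = c0 p (J0 j Q P) (gb _ (some j))
          rw [hε, eps_d j Q P hi]
          simp only [map_mul, map_inv]
          rw [h2, h3, h4, k3_c0_bi]
          rw [(redp p).map_one, one_mul, inv_one, mul_one, mul_inv_cancel]
      · have h6 : X (proj _ (FreeGroup.of (some j, s))) = 1 := by
          cases s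
          · exact (h5 j h).1
          · exact (h5 j h).2
        have h7 : c0 p (J0 i Q P) (proj _ (FreeGroup.of (some j, s))) = 1 := by
          cases s
          · exact k3_c0_a p _ (some j)
          · exact k3_c0_bi p _ j
        show redp p (X (ε.1 (proj _ (FreeGroup.of (some j, s))))) =
          c0 p (J0 i Q P) (proj _ (FreeGroup.of (some j, s)))
        rw [hε, eps_else i Q P hi j s h]
        simp only [map_mul, map_inv]
        rw [h6, h3, h7]
        simp
  have hc : ∀ y, redp p (X (ε.1 y)) = c0 p (J0 i Q P) y := fun y => DFunLike.congr_fun hcomp y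
  ext w
  rw [MonoidHom.mem_ker]
  constructor
  · rintro ⟨y, rfl⟩
    show redp p (X (ε.1 (Theta p (J0 i Q P) y))) = 1
    rw [hc]
    have h6 : Theta p (J0 i Q P) y ∈ (c0 p (J0 i Q P)).ker := by
      rw [← range_Theta]
      exact ⟨y, rfl⟩
    exact h6
  · intro h
    have h6 : ε⁻¹.1 w ∈ (Theta p (J0 i Q P)).range := by
      rw [range_Theta]
      show c0 p (J0 i Q P) (ε⁻¹.1 w) = 1
      rw [← hc, aut_apply_inv]
      exact h
    obtain ⟨z, hz⟩ := h6
    refine ⟨z, ?_⟩
    rw [Th2_apply, hz]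
    exact aut_apply_inv _ _

/-- The separating curve. -/
theorem Th2_gam (k0 k1 : Fin p) (hk0 : (k0 : ℕ) = 0) (hk1 : (k1 : ℕ) = 1) (hiQ : i ∉ Q) :
    Th2 p i Q P hi (proj _ (gam1 k0 k1 i Q)) =
      gb (BL (J0 i Q P)) none * sw (BL (J0 i Q P)) (JM i Q) * (gb (BL (J0 i Q P)) none)⁻¹ := by
  have hrel : Th2 p i Q P hi (proj _ (relS (Q.map fun j => (k1, j)))) =
      gb (BL (J0 i Q P)) none * (ga (BL (J0 i Q P)) (some i) * proj _ (relS Q) * (ga (BL (J0 i Q P)) (some i))⁻¹) * (gb (BL (J0 i Q P)) none)⁻¹ := by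
    have h1 : relS (Q.map fun j => (k1, j)) =
        relator (Q.map fun j => (some (k1, j) : Option (Fin p × κ))) := by
      unfold relS
      rw [List.map_map]
      rfl
    -- compare two homomorphisms on the free group
    let F1 : FreeGroup (κ × Bool) →* SG (BL (J0 i Q P)) := FreeGroup.lift fun x =>
      Th2 p i Q P hi (proj _ (FreeGroup.of (some (k1, x.1), x.2)))
    let F2 : FreeGroup (κ × Bool) →* SG (BL (J0 i Q P)) := FreeGroup.lift fun x =>
      gb (BL (J0 i Q P)) none * (ga (BL (J0 i Q P)) (some i) * proj _ (FreeGroup.of (some x.1, x.2)) * (ga (BL (J0 i Q P)) (some i))⁻¹) *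
        (gb (BL (J0 i Q P)) none)⁻¹
    have h2 : F1 (relator Q) = F2 (relator Q) := by
      apply relator_congr
      intro j hj
      have hne : j ≠ i := fun h' => hiQ (h' ▸ hj)
      constructor
      · show F1 (FreeGroup.of (j, false)) = F2 (FreeGroup.of (j, false))
        rw [FreeGroup.lift_apply_of, FreeGroup.lift_apply_of, Th2_else p i Q P hi k1 j false hne,
          hk1, pow_one]
      · show F1 (FreeGroup.of (j, true)) = F2 (FreeGroup.of (j, true))
        rw [FreeGroup.lift_apply_of, FreeGroup.lift_apply_of, Th2_else p i Q P hi k1 j true hne,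
          hk1, pow_one]
    let E1 : FreeGroup (κ × Bool) →* FreeGroup (Option (Fin p × κ) × Bool) :=
      FreeGroup.map fun x => (some (k1, x.1), x.2)
    let E2 : FreeGroup (κ × Bool) →* FreeGroup (Option κ × Bool) :=
      FreeGroup.map fun x => (some x.1, x.2)
    have h3 : F1 = ((Th2 p i Q P hi).comp (proj _)).comp E1 := by
      refine FreeGroup.ext_hom _ _ fun x => ?_
      show F1 (FreeGroup.of x) = Th2 p i Q P hi (proj _ (FreeGroup.map _ (FreeGroup.of x)))
      rw [FreeGroup.lift_apply_of, FreeGroup.map.of]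
    have h4 : F2 = ((MulAut.conj (gb (BL (J0 i Q P)) none * ga (BL (J0 i Q P)) (some i))).toMonoidHom.comp (proj _)).comp E2 := by
      refine FreeGroup.ext_hom _ _ fun x => ?_
      show F2 (FreeGroup.of x) = (gb (BL (J0 i Q P)) none * ga (BL (J0 i Q P)) (some i)) *
        (proj _ (FreeGroup.map _ (FreeGroup.of x))) * (gb (BL (J0 i Q P)) none * ga (BL (J0 i Q P)) (some i))⁻¹
      rw [FreeGroup.lift_apply_of, FreeGroup.map.of]
      group
    have h5 : E1 (relator Q) = relS (Q.map fun j => (k1, j)) := by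
      rw [h1]
      unfold relator
      rw [map_list_prod, List.map_map, List.map_map]
      congr 1
    have h6 : E2 (relator Q) = relS Q := by
      unfold relS relator
      rw [map_list_prod, List.map_map, List.map_map]
      congr 1
    have h7 : Th2 p i Q P hi (proj _ (E1 (relator Q))) = (gb (BL (J0 i Q P)) none * ga (BL (J0 i Q P)) (some i)) *
        proj _ (E2 (relator Q)) * (gb (BL (J0 i Q P)) none * ga (BL (J0 i Q P)) (some i))⁻¹ := by
      have h8 : F1 (relator Q) = Th2 p i Q P hi (proj _ (E1 (relator Q))) :=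
        DFunLike.congr_fun h3 _
      have h9 : F2 (relator Q) = (gb (BL (J0 i Q P)) none * ga (BL (J0 i Q P)) (some i)) *
        proj _ (E2 (relator Q)) * (gb (BL (J0 i Q P)) none * ga (BL (J0 i Q P)) (some i))⁻¹ := DFunLike.congr_fun h4 _
      rw [← h8, ← h9, h2]
    rw [h5, h6] at h7
    rw [h7]
    group
  have hsw : sw (BL (J0 i Q P)) (JM i Q) = ga (BL (J0 i Q P)) (some i) * gb (BL (J0 i Q P)) (some i) * (ga (BL (J0 i Q P)) (some i))⁻¹ *
      (gb (BL (J0 i Q P)) (some i))⁻¹ * proj _ (relS Q) := by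
    show proj _ (relS (i :: Q)) = _
    rw [relS_cons]
    simp only [map_mul, map_inv]
    rfl
  have hg : proj (BL (CL p (J0 i Q P))) (gam1 k0 k1 i Q) = gb _ (some (k1, i)) *
      (ga _ (some (k1, i)))⁻¹ * (gb _ (some (k1, i)))⁻¹ *
      proj _ (relS (Q.map fun j => (k1, j))) * ga _ (some (k0, i)) := by
    unfold gam1
    simp only [map_mul, map_inv]
    rfl
  rw [hg, hsw]
  simp only [map_mul, map_inv]
  rw [hrel, Th2_c, Th2_c, Th2_d, hk0, hk1]
  group

end J

end Pool.Agent.Lib.MP_6a1159_al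
end

section

/-! The first lift of the separating twist: the twists about the lifts of the curve. -/

set_option autoImplicit false

namespace Pool.Agent.Lib.MP_6a1159_al

/-- The last two blocks of the handles of the covering surface. -/
theorem CL_split {κ : Type} {p : ℕ} (k0 k1 : Fin p) (hk0 : (k0 : ℕ) = 0) (hk1 : (k1 : ℕ) = 1)
    (L0 : List κ) : ∃ X : List (Fin p × κ), (∀ q ∈ X, q.1 ≠ k0 ∧ q.1 ≠ k1) ∧
      CL p L0 = X ++ (L0.map (fun j => (k1, j)) ++ L0.map (fun j => (k0, j))) := by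
  have hp : 1 < p := by
    have := k1.2
    omega
  obtain ⟨q, rfl⟩ : ∃ q, p = q + 2 := ⟨p - 2, by omega⟩
  have e0 : k0 = 0 := Fin.ext (by simpa using hk0)
  have e1 : k1 = 1 := Fin.ext (by simpa using hk1)
  subst e0 e1
  refine ⟨((List.finRange q).map (Fin.succ ∘ Fin.succ)).reverse.flatMap
    fun k => L0.map fun i => (k, i), ?_, ?_⟩
  · intro x hx
    rw [List.mem_flatMap] at hx
    obtain ⟨k, hk, hx⟩ := hx
    obtain ⟨j, _, rfl⟩ := List.mem_map.1 hx
    rw [List.mem_reverse, List.mem_map] at hk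
    obtain ⟨l, _, rfl⟩ := hk
    constructor
    · intro h
      have := congrArg Fin.val h
      simp at this
    · intro h
      have := congrArg Fin.val h
      simp at this
  · unfold CL
    rw [List.finRange_succ, List.finRange_succ]
    simp [List.flatMap_append]

section K

variable {κ : Type} [DecidableEq κ] (p : ℕ) [Fact p.Prime] (i : κ) (Q P : List κ)


/-- The values of the character on the generators. -/
structure IsC1 (c1 : SG (BL (J0 i Q P)) →* Multiplicative (ZMod p)) : Prop where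
  a : c1 (ga (BL (J0 i Q P)) none) = 1
  b : c1 (gb (BL (J0 i Q P)) none) = Multiplicative.ofAdd 1
  c : c1 (ga (BL (J0 i Q P)) (some i)) = 1
  d : c1 (gb (BL (J0 i Q P)) (some i)) = Multiplicative.ofAdd 1
  x : ∀ j, j ≠ i → ∀ s, c1 (proj _ (FreeGroup.of (some j, s))) = 1

variable (c1 : SG (BL (J0 i Q P)) →* Multiplicative (ZMod p)) (hc : IsC1 p i Q P c1)
  (h : ∀ ω : ZMod p → ℤ, psiFree (BL (J0 i Q P)) (JM i Q) c1 ω (relator (BL (J0 i Q P))) = 1)
  (ω : ZMod p → ℤ)


theorem pa_f (x : ZMod p) : (psi (BL (J0 i Q P)) (JM i Q) c1 h ω (ga (BL (J0 i Q P)) none)).f x = ga (BL (J0 i Q P)) none :=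
  psi_out_f _ _ c1 h ω (none, false) none_notMem_JM x

include hc in
theorem pb_f (k : ℕ) (x : ZMod p) : (psi (BL (J0 i Q P)) (JM i Q) c1 h ω (gb (BL (J0 i Q P)) none ^ k)).f x = gb (BL (J0 i Q P)) none ^ k := by
  induction k generalizing x with
  | zero => rw [pow_zero, map_one]; rfl
  | succ k ih =>
    rw [pow_succ, map_mul, Mono.mul_f, ih]
    congr 1
    exact psi_out_f _ _ c1 h ω (none, true) none_notMem_JM _

omit [DecidableEq κ] in
theorem pc_mem : (some i : Option κ) ∈ JM i Q := by simp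

include hc in
theorem pc_f (x : ZMod p) : (psi (BL (J0 i Q P)) (JM i Q) c1 h ω (ga (BL (J0 i Q P)) (some i))).f x =
    sw (BL (J0 i Q P)) (JM i Q) ^ ω x * ga (BL (J0 i Q P)) (some i) * (sw (BL (J0 i Q P)) (JM i Q) ^ ω x)⁻¹ := by
  have h1 := psi_in_f _ _ c1 h ω (some i, false) (pc_mem i Q) x
  have h2 : c1 (proj _ (FreeGroup.of (some i, false))) = 1 := hc.c
  rw [h2, toAdd_one, add_zero] at h1
  exact h1

include hc in
theorem pd_f (x : ZMod p) : (psi (BL (J0 i Q P)) (JM i Q) c1 h ω (gb (BL (J0 i Q P)) (some i))).f x =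
    sw (BL (J0 i Q P)) (JM i Q) ^ ω x * gb (BL (J0 i Q P)) (some i) * (sw (BL (J0 i Q P)) (JM i Q) ^ ω (x + 1))⁻¹ := by
  have h1 := psi_in_f _ _ c1 h ω (some i, true) (pc_mem i Q) x
  have h2 : c1 (proj _ (FreeGroup.of (some i, true))) = Multiplicative.ofAdd 1 := hc.d
  rw [h2, toAdd_ofAdd] at h1
  exact h1

include hc in
theorem pQ_f (j : κ) (hj : j ∈ Q) (hji : j ≠ i) (s : Bool) (x : ZMod p) :
    (psi (BL (J0 i Q P)) (JM i Q) c1 h ω (proj _ (FreeGroup.of (some j, s)))).f x =
      sw (BL (J0 i Q P)) (JM i Q) ^ ω x * proj _ (FreeGroup.of (some j, s)) * (sw (BL (J0 i Q P)) (JM i Q) ^ ω x)⁻¹ := by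
  have h1 := psi_in_f _ _ c1 h ω (some j, s) (show (some j : Option κ) ∈ JM i Q from
    List.mem_map.2 ⟨j, List.mem_cons_of_mem _ hj, rfl⟩) x
  rw [hc.x j hji s, toAdd_one, add_zero] at h1
  exact h1

theorem pP_f (j : κ) (hj : j ∉ Q) (hji : j ≠ i) (s : Bool) (x : ZMod p) :
    (psi (BL (J0 i Q P)) (JM i Q) c1 h ω (proj _ (FreeGroup.of (some j, s)))).f x = proj _ (FreeGroup.of (some j, s)) :=
  psi_out_f _ _ c1 h ω (some j, s) (by
    intro h1
    obtain ⟨l, hl, hl'⟩ := List.mem_map.1 h1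
    rw [Option.some.injEq] at hl'
    subst hl'
    rcases List.mem_cons.1 hl with h2 | h2
    · exact hji h2
    · exact hj h2) x

include hc in
theorem pb_s (k : ℕ) : (psi (BL (J0 i Q P)) (JM i Q) c1 h ω (gb (BL (J0 i Q P)) none ^ k)).s = (k : ZMod p) := by
  rw [psi_s, map_pow, hc.b, toAdd_pow, toAdd_ofAdd]
  simp

include hc in
/-- Conjugation by the powers of `b`. -/
theorem psi_conj_b (k : ℕ) (v : SG (BL (J0 i Q P))) (x : ZMod p) :
    (psi (BL (J0 i Q P)) (JM i Q) c1 h ω (gb (BL (J0 i Q P)) none ^ k * v * (gb (BL (J0 i Q P)) none ^ k)⁻¹)).f x =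
      gb (BL (J0 i Q P)) none ^ k * (psi (BL (J0 i Q P)) (JM i Q) c1 h ω v).f (x + k) * (gb (BL (J0 i Q P)) none ^ k)⁻¹ := by
  rw [map_mul, map_mul, map_inv, Mono.mul_f, Mono.mul_f, Mono.inv_f, pb_f p i Q P c1 hc,
    pb_f p i Q P c1 hc, pb_s p i Q P c1 hc]

include hc in
theorem psi_c (k : ℕ) (x : ZMod p) :
    (psi (BL (J0 i Q P)) (JM i Q) c1 h ω (gb (BL (J0 i Q P)) none ^ k * (gb (BL (J0 i Q P)) none * ga (BL (J0 i Q P)) (some i) * (gb (BL (J0 i Q P)) none)⁻¹) * (gb (BL (J0 i Q P)) none ^ k)⁻¹)).f x =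
      gb (BL (J0 i Q P)) none ^ k * (gb (BL (J0 i Q P)) none * (sw (BL (J0 i Q P)) (JM i Q) ^ ω (x + k + 1) * ga (BL (J0 i Q P)) (some i) *
        (sw (BL (J0 i Q P)) (JM i Q) ^ ω (x + k + 1))⁻¹) * (gb (BL (J0 i Q P)) none)⁻¹) * (gb (BL (J0 i Q P)) none ^ k)⁻¹ := by
  rw [psi_conj_b p i Q P c1 hc]
  have h1 := psi_conj_b p i Q P c1 hc h ω 1 (ga (BL (J0 i Q P)) (some i)) (x + k)
  rw [pow_one, pc_f p i Q P c1 hc, Nat.cast_one] at h1
  rw [h1]

include hc in
theorem psi_d (k : ℕ) (x : ZMod p) :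
    (psi (BL (J0 i Q P)) (JM i Q) c1 h ω (gb (BL (J0 i Q P)) none ^ k * (ga (BL (J0 i Q P)) (some i) * gb (BL (J0 i Q P)) (some i) * (ga (BL (J0 i Q P)) (some i))⁻¹ * (gb (BL (J0 i Q P)) none)⁻¹) *
      (gb (BL (J0 i Q P)) none ^ k)⁻¹)).f x =
      gb (BL (J0 i Q P)) none ^ k * (sw (BL (J0 i Q P)) (JM i Q) ^ ω (x + k) * ga (BL (J0 i Q P)) (some i) * gb (BL (J0 i Q P)) (some i) * (ga (BL (J0 i Q P)) (some i))⁻¹ *
        (sw (BL (J0 i Q P)) (JM i Q) ^ ω (x + k + 1))⁻¹ * (gb (BL (J0 i Q P)) none)⁻¹) * (gb (BL (J0 i Q P)) none ^ k)⁻¹ := by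
  rw [psi_conj_b p i Q P c1 hc]
  congr 2
  have hb := pb_f p i Q P c1 hc h ω 1
  rw [pow_one] at hb
  have s1 : (psi (BL (J0 i Q P)) (JM i Q) c1 h ω (ga (BL (J0 i Q P)) (some i))).s = 0 := by rw [psi_s, hc.c]; rfl
  have s2 : (psi (BL (J0 i Q P)) (JM i Q) c1 h ω (gb (BL (J0 i Q P)) (some i))).s = 1 := by rw [psi_s, hc.d]; rfl
  simp only [map_mul, map_inv, Mono.mul_f, Mono.mul_s, Mono.inv_f, Mono.inv_s, hb, s1, s2,
    pc_f p i Q P c1 hc, pd_f p i Q P c1 hc, add_zero, zero_add, sub_zero]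
  group

include hc in
theorem psi_Q (j : κ) (hj : j ∈ Q) (hji : j ≠ i) (s : Bool) (k : ℕ) (x : ZMod p) :
    (psi (BL (J0 i Q P)) (JM i Q) c1 h ω (gb (BL (J0 i Q P)) none ^ k * (ga (BL (J0 i Q P)) (some i) * proj _ (FreeGroup.of (some j, s)) * (ga (BL (J0 i Q P)) (some i))⁻¹) *
      (gb (BL (J0 i Q P)) none ^ k)⁻¹)).f x =
      gb (BL (J0 i Q P)) none ^ k * (sw (BL (J0 i Q P)) (JM i Q) ^ ω (x + k) * (ga (BL (J0 i Q P)) (some i) * proj _ (FreeGroup.of (some j, s)) *
        (ga (BL (J0 i Q P)) (some i))⁻¹) * (sw (BL (J0 i Q P)) (JM i Q) ^ ω (x + k))⁻¹) * (gb (BL (J0 i Q P)) none ^ k)⁻¹ := by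
  rw [psi_conj_b p i Q P c1 hc]
  congr 2
  have s1 : (psi (BL (J0 i Q P)) (JM i Q) c1 h ω (ga (BL (J0 i Q P)) (some i))).s = 0 := by rw [psi_s, hc.c]; rfl
  have s2 : (psi (BL (J0 i Q P)) (JM i Q) c1 h ω (proj _ (FreeGroup.of (some j, s)))).s = 0 := by rw [psi_s, hc.x j hji]; rfl
  simp only [map_mul, map_inv, Mono.mul_f, Mono.mul_s, Mono.inv_f, s1, s2,
    pc_f p i Q P c1 hc, pQ_f p i Q P c1 hc h ω j hj hji, add_zero, sub_zero]
  group

include hc in
theorem psi_P (j : κ) (hj : j ∉ Q) (hji : j ≠ i) (s : Bool) (k : ℕ) (x : ZMod p) :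
    (psi (BL (J0 i Q P)) (JM i Q) c1 h ω (gb (BL (J0 i Q P)) none ^ k * (ga (BL (J0 i Q P)) (some i) * proj _ (FreeGroup.of (some j, s)) * (ga (BL (J0 i Q P)) (some i))⁻¹) *
      (gb (BL (J0 i Q P)) none ^ k)⁻¹)).f x =
      gb (BL (J0 i Q P)) none ^ k * (sw (BL (J0 i Q P)) (JM i Q) ^ ω (x + k) * ga (BL (J0 i Q P)) (some i) * (sw (BL (J0 i Q P)) (JM i Q) ^ ω (x + k))⁻¹ *
        proj _ (FreeGroup.of (some j, s)) *
        (sw (BL (J0 i Q P)) (JM i Q) ^ ω (x + k) * ga (BL (J0 i Q P)) (some i) * (sw (BL (J0 i Q P)) (JM i Q) ^ ω (x + k))⁻¹)⁻¹) * (gb (BL (J0 i Q P)) none ^ k)⁻¹ := by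
  rw [psi_conj_b p i Q P c1 hc]
  congr 2
  have s1 : (psi (BL (J0 i Q P)) (JM i Q) c1 h ω (ga (BL (J0 i Q P)) (some i))).s = 0 := by rw [psi_s, hc.c]; rfl
  have s2 : (psi (BL (J0 i Q P)) (JM i Q) c1 h ω (proj _ (FreeGroup.of (some j, s)))).s = 0 := by rw [psi_s, hc.x j hji]; rfl
  simp only [map_mul, map_inv, Mono.mul_f, Mono.mul_s, Mono.inv_f, s1, s2,
    pc_f p i Q P c1 hc, pP_f p i Q P c1 h ω j hj hji, add_zero, sub_zero]

end K

end Pool.Agent.Lib.MP_6a1159_al
end

section

/-! The first lift of the separating twist: the formula for one lift of the curve. -/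

set_option autoImplicit false

namespace Pool.Agent.Lib.MP_6a1159_al

section L

variable {κ : Type} [DecidableEq κ] (p : ℕ) [Fact p.Prime] (i : κ) (Q P : List κ)


variable (c1 : SG (BL (J0 i Q P)) →* Multiplicative (ZMod p)) (hc : IsC1 p i Q P c1)
  (h : ∀ ω : ZMod p → ℤ, psiFree (BL (J0 i Q P)) (JM i Q) c1 ω (relator (BL (J0 i Q P))) = 1)


include hc in
theorem claim4 (hi : i ∉ Q ++ P) (hr : ∀ y, c1 (Th2 p i Q P hi y) = 1)
    (hall : ∀ j, j ∈ J0 i Q P) (hiQ : i ∉ Q) (hiP : i ∉ P)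
    (k0 k1 : Fin p) (hk0 : (k0 : ℕ) = 0) (hk1 : (k1 : ℕ) = 1) (n : ℤ)
    (τ : SG (BL (CL p (J0 i Q P))) →* SG (BL (CL p (J0 i Q P))))
    (hτ : ∀ w, τ (proj _ w) = proj _ (teHom k0 k1 i Q P n w))
    (y : SG (BL (CL p (J0 i Q P)))) :
    Th2 p i Q P hi (τ y) = (psi (BL (J0 i Q P)) (JM i Q) c1 h (fun x => if x = 1 then -n else 0)
      (Th2 p i Q P hi y)).f 0 := by
  set ω : ZMod p → ℤ := fun x => if x = 1 then -n else 0 with hω
  have hne : k1 ≠ k0 := by
    intro h'
    rw [h'] at hk1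
    omega
  have w1 : ∀ k : Fin p, k ≠ k1 → ω ((k : ℕ) : ZMod p) = 0 := by
    intro k hk
    rw [hω]
    simp only
    rw [if_neg]
    intro h1
    rw [← Nat.cast_one, ZMod.natCast_eq_natCast_iff', Nat.mod_eq_of_lt k.2,
      Nat.mod_eq_of_lt (Fact.out : p.Prime).one_lt] at h1
    exact hk (Fin.ext (h1.trans hk1.symm))
  have w1' : ω ((k1 : ℕ) : ZMod p) = -n := by
    rw [hk1, Nat.cast_one, hω]
    simp
  have w2 : ∀ k : Fin p, k ≠ k0 → ω (((k : ℕ) : ZMod p) + 1) = 0 := by
    intro k hk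
    rw [hω]
    simp only
    rw [if_neg]
    intro h1
    rw [add_eq_right, ZMod.natCast_eq_zero_iff] at h1
    exact hk (Fin.ext ((Nat.eq_zero_of_dvd_of_lt h1 k.2).trans hk0.symm))
  have w2' : ω (((k0 : ℕ) : ZMod p) + 1) = -n := by
    rw [hk0, hω]
    simp
  have hg : ∀ z : ℤ, Th2 p i Q P hi (proj _ (gam1 k0 k1 i Q ^ z)) =
      gb (BL (J0 i Q P)) none * sw (BL (J0 i Q P)) (JM i Q) ^ z * (gb (BL (J0 i Q P)) none)⁻¹ := by
    intro z
    rw [map_zpow, map_zpow, Th2_gam p i Q P hi k0 k1 hk0 hk1 hiQ, conj_zpow]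
  let Φ : SG (BL (CL p (J0 i Q P))) →* SG (BL (J0 i Q P)) :=
    { toFun := fun y => (psi (BL (J0 i Q P)) (JM i Q) c1 h ω (Th2 p i Q P hi y)).f 0
      map_one' := by
        rw [map_one, map_one]
        rfl
      map_mul' := fun a b => by
        rw [map_mul, map_mul, Mono.mul_f, psi_s, hr, toAdd_one, add_zero] }
  have key : (Th2 p i Q P hi).comp τ = Φ := by
    apply PresentedGroup.ext
    rintro ⟨_ | ⟨k, j⟩, s⟩
    · show Th2 p i Q P hi (τ (proj _ (FreeGroup.of (none, s)))) = Φ (proj _ (FreeGroup.of (none, s)))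
      rw [hτ, te_none]
      cases s
      · show Th2 p i Q P hi (ga _ none) = (psi (BL (J0 i Q P)) (JM i Q) c1 h ω
          (Th2 p i Q P hi (ga _ none))).f 0
        have h0 : ω 0 = 0 := by
          have := w1 k0 hne.symm
          rwa [hk0, Nat.cast_zero] at this
        rw [Th2_a, map_mul, Mono.mul_f, pc_f p i Q P c1 hc, pa_f, h0]
        simp
      · show Th2 p i Q P hi (gb _ none) = (psi (BL (J0 i Q P)) (JM i Q) c1 h ω
          (Th2 p i Q P hi (gb _ none))).f 0
        rw [Th2_b, pb_f p i Q P c1 hc]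
    · show Th2 p i Q P hi (τ (proj _ (FreeGroup.of (some (k, j), s)))) =
        Φ (proj _ (FreeGroup.of (some (k, j), s)))
      rw [hτ]
      by_cases hj : j = i
      · subst hj
        cases s
        · show Th2 p j Q P hi (proj _ (teHom k0 k1 j Q P n (fa (some (k, j))))) =
            (psi (BL (J0 j Q P)) (JM j Q) c1 h ω (Th2 p j Q P hi (ga _ (some (k, j))))).f 0
          rw [Th2_c, psi_c p j Q P c1 hc, zero_add]
          by_cases hk : k = k0
          · subst hk
            rw [te_c0, w2', map_mul, map_mul, map_mul, map_mul, hg, hg]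
            rw [show proj (BL (CL p (J0 j Q P))) (fa (some (k, j))) = ga _ (some (k, j)) from rfl,
              Th2_c, hk0]
            group
          · rw [w2 k hk]
            have h2 : teHom k0 k1 j Q P n (fa (some (k, j))) = fa (some (k, j)) := by
              by_cases hk1' : k = k1
              · subst hk1'
                exact te_c1 _ _ _ _ _ _ hne
              · exact te_else _ _ _ _ _ _ k j false hk1' (fun h' => absurd h' hk)
            rw [h2, show proj (BL (CL p (J0 j Q P))) (fa (some (k, j))) =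
              ga _ (some (k, j)) from rfl, Th2_c]
            simp
        · show Th2 p j Q P hi (proj _ (teHom k0 k1 j Q P n (fb (some (k, j))))) =
            (psi (BL (J0 j Q P)) (JM j Q) c1 h ω (Th2 p j Q P hi (gb _ (some (k, j))))).f 0
          rw [Th2_d, psi_d p j Q P c1 hc, zero_add]
          by_cases hk : k = k0
          · subst hk
            rw [te_d0, w2', w1 k hne.symm, map_mul, map_mul, hg]
            rw [show proj (BL (CL p (J0 j Q P))) (fb (some (k, j))) = gb _ (some (k, j)) from rfl,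
              Th2_d, hk0]
            group
          · rw [w2 k hk]
            by_cases hk1' : k = k1
            · subst hk1'
              rw [te_d1 _ _ _ _ _ _ hne, w1', map_mul, map_mul, hg]
              rw [show proj (BL (CL p (J0 j Q P))) (fb (some (k, j))) =
                gb _ (some (k, j)) from rfl, Th2_d, hk1]
              group
            · have h2 : teHom k0 k1 j Q P n (fb (some (k, j))) = fb (some (k, j)) :=
                te_else _ _ _ _ _ _ k j true hk1' (fun h' => absurd h' hk)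
              rw [h2, show proj (BL (CL p (J0 j Q P))) (fb (some (k, j))) =
                gb _ (some (k, j)) from rfl, Th2_d, w1 k hk1']
              simp
      · show Th2 p i Q P hi (proj _ (teHom k0 k1 i Q P n (FreeGroup.of (some (k, j), s)))) =
          (psi (BL (J0 i Q P)) (JM i Q) c1 h ω (Th2 p i Q P hi
            (proj _ (FreeGroup.of (some (k, j), s))))).f 0
        rw [Th2_else p i Q P hi k j s hj]
        by_cases hjQ : j ∈ Q
        · rw [psi_Q p i Q P c1 hc h ω j hjQ hj, zero_add]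
          by_cases hk1' : k = k1
          · subst hk1'
            rw [te_Q _ _ _ _ _ _ j hjQ hiQ, w1', map_mul, map_mul, map_mul, map_mul, hg, hg,
              Th2_else p i Q P hi k j s hj, hk1]
            group
          · rw [te_else _ _ _ _ _ _ k j s hk1' (fun _ => hj), Th2_else p i Q P hi k j s hj,
              w1 k hk1']
            simp
        · rw [psi_P p i Q P c1 hc h ω j hjQ hj, zero_add]
          have hjP : j ∈ P := by
            rcases List.mem_cons.1 (hall j) with h1 | h1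
            · exact absurd h1 hj
            · rcases List.mem_append.1 h1 with h1 | h1
              · exact absurd h1 hjQ
              · exact h1
          by_cases hk1' : k = k1
          · subst hk1'
            have he : Th2 p i Q P hi (proj _ (eta1 k0 k i Q n)) =
                gb (BL (J0 i Q P)) none * sw (BL (J0 i Q P)) (JM i Q) ^ (-n) * ga (BL (J0 i Q P)) (some i) * sw (BL (J0 i Q P)) (JM i Q) ^ n * (ga (BL (J0 i Q P)) (some i))⁻¹ *
                  (gb (BL (J0 i Q P)) none)⁻¹ := by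
              unfold eta1
              rw [map_mul, map_mul, map_mul, map_mul, map_mul, map_mul, map_inv, map_inv, hg, hg]
              rw [show proj (BL (CL p (J0 i Q P))) (fa (some (k0, i))) =
                ga _ (some (k0, i)) from rfl, Th2_c, hk0]
              group
            rw [te_P _ _ _ _ _ _ j hjP hiP hjQ, w1', map_mul, map_mul, map_mul, map_mul, map_inv,
              map_inv, he, Th2_else p i Q P hi k j s hj, hk1]
            group
          · rw [te_else _ _ _ _ _ _ k j s hk1' (fun _ => hj), Th2_else p i Q P hi k j s hj,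
              w1 k hk1']
            simp
  exact DFunLike.congr_fun key y

end L

end Pool.Agent.Lib.MP_6a1159_al
end

section

/-! The first lift of the separating twist. -/

set_option autoImplicit false

namespace Pool.Agent.Lib.MP_6a1159_al

section const

variable {ι : Type} [DecidableEq ι] {p : ℕ} (L M : List ι)
  (c1 : SG L →* Multiplicative (ZMod p))
  (h : ∀ ω : ZMod p → ℤ, psiFree L M c1 ω (relator L) = 1)

theorem psi_const (hs : ∀ k : ℤ, sepFree M k (relator L) = relator L) (k : ℕ) (u : SG L)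
    (y : ZMod p) : (psi L M c1 h (fun _ => -(k : ℤ)) u).f y = ((sepTwist L M hs)⁻¹ ^ k).1 u := by
  let Φ : SG L →* SG L :=
    { toFun := fun u => (psi L M c1 h (fun _ => -(k : ℤ)) u).f y
      map_one' := by rw [map_one]; rfl
      map_mul' := fun a b => by
        rw [map_mul, Mono.mul_f, psi_shift] }
  have key : Φ = ((sepTwist L M hs)⁻¹ ^ k).1.toMonoidHom := by
    apply PresentedGroup.ext
    intro x
    show (psi L M c1 h (fun _ => -(k : ℤ)) (proj L (FreeGroup.of x))).f y =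
      ((sepTwist L M hs)⁻¹ ^ k).1 (proj L (FreeGroup.of x))
    rw [sepTwist_inv_pow]
    by_cases hx : x.1 ∈ M
    · rw [psi_in_f L M c1 h _ x hx, sepFree_in M _ x hx, map_mul, map_mul, map_zpow, map_zpow,
        neg_neg, zpow_neg, zpow_neg, inv_inv, zpow_natCast]
      rfl
    · rw [psi_out_f L M c1 h _ x hx, sepFree_out M _ x hx]
  exact DFunLike.congr_fun key u

end const

section M

variable {κ : Type} [DecidableEq κ] (p : ℕ) [Fact p.Prime] (i : κ) (Q P : List κ)


variable (c1 : SG (BL (J0 i Q P)) →* Multiplicative (ZMod p)) (hc : IsC1 p i Q P c1)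
  (h : ∀ ω : ZMod p → ℤ, psiFree (BL (J0 i Q P)) (JM i Q) c1 ω (relator (BL (J0 i Q P))) = 1)


/-- The restriction of the conjugation by `b`. -/
theorem exists_R (hi : i ∉ Q ++ P) (hr : (Th2 p i Q P hi).range = c1.ker) :
    ∃ R : AutPlus (BL (CL p (J0 i Q P))), ∀ y, Th2 p i Q P hi (R.1 y) =
      gb (BL (J0 i Q P)) none * Th2 p i Q P hi y * (gb (BL (J0 i Q P)) none)⁻¹ := by
  obtain ⟨R, hR⟩ := (cov_Th2 p i Q P hi).res (inn _ (gb (BL (J0 i Q P)) none)) (by
    intro w
    rw [hr, MonoidHom.mem_ker, MonoidHom.mem_ker, inn_apply, map_mul, map_mul, map_inv,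
      mul_inv_cancel_comm])
  exact ⟨R, hR⟩

omit [Fact p.Prime] in
theorem R_pow (hi : i ∉ Q ++ P) (R : AutPlus (BL (CL p (J0 i Q P))))
    (hR : ∀ y, Th2 p i Q P hi (R.1 y) = gb (BL (J0 i Q P)) none * Th2 p i Q P hi y * (gb (BL (J0 i Q P)) none)⁻¹) (t : ℕ)
    (y : SG (BL (CL p (J0 i Q P)))) : Th2 p i Q P hi ((R ^ t).1 y) =
      gb (BL (J0 i Q P)) none ^ t * Th2 p i Q P hi y * (gb (BL (J0 i Q P)) none ^ t)⁻¹ := by
  induction t generalizing y with
  | zero =>
    rw [pow_zero, pow_zero]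
    show Th2 p i Q P hi y = _
    simp
  | succ t ih =>
    rw [pow_succ, aut_mul_apply, ih, hR, pow_succ]
    group

include hc in
/-- The formula for all the lifts of the curve. -/
theorem claim5 (hi : i ∉ Q ++ P) (k : ℕ) (T : AutPlus (BL (CL p (J0 i Q P))))
    (hT : ∀ y, Th2 p i Q P hi (T.1 y) = (psi (BL (J0 i Q P)) (JM i Q) c1 h
      (fun x => if x = 1 then -(k : ℤ) else 0) (Th2 p i Q P hi y)).f 0)
    (R : AutPlus (BL (CL p (J0 i Q P))))
    (hR : ∀ y, Th2 p i Q P hi (R.1 y) = gb (BL (J0 i Q P)) none * Th2 p i Q P hi y * (gb (BL (J0 i Q P)) none)⁻¹) (t : ℕ)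
    (y : SG (BL (CL p (J0 i Q P)))) : Th2 p i Q P hi ((R ^ t * T * (R ^ t)⁻¹).1 y) =
      (psi (BL (J0 i Q P)) (JM i Q) c1 h (fun x => if x = 1 + (t : ZMod p) then -(k : ℤ) else 0)
        (Th2 p i Q P hi y)).f 0 := by
  rw [aut_mul_apply, aut_mul_apply, R_pow p i Q P hi R hR, hT]
  have h1 := R_pow p i Q P hi R hR t ((R ^ t)⁻¹.1 y)
  rw [aut_apply_inv] at h1
  have h2 := psi_conj_b p i Q P c1 hc h (fun x => if x = 1 then -(k : ℤ) else 0) t
    (Th2 p i Q P hi ((R ^ t)⁻¹.1 y)) (0 + -(t : ZMod p))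
  rw [← h1, zero_add, neg_add_cancel] at h2
  rw [← h2]
  have h3 := psi_shift (BL (J0 i Q P)) (JM i Q) c1 h (fun x => if x = 1 then -(k : ℤ) else 0)
    (Th2 p i Q P hi y) 0 (-(t : ZMod p))
  rw [zero_add] at h3
  rw [h3]
  congr 3
  funext x
  congr 1
  rw [eq_iff_iff, ← sub_eq_add_neg, sub_eq_iff_eq_add]

include hc in
theorem claim6 (hi : i ∉ Q ++ P) (k : ℕ) (T : AutPlus (BL (CL p (J0 i Q P))))
    (hT : ∀ y, Th2 p i Q P hi (T.1 y) = (psi (BL (J0 i Q P)) (JM i Q) c1 h
      (fun x => if x = 1 then -(k : ℤ) else 0) (Th2 p i Q P hi y)).f 0)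
    (R : AutPlus (BL (CL p (J0 i Q P))))
    (hR : ∀ y, Th2 p i Q P hi (R.1 y) = gb (BL (J0 i Q P)) none * Th2 p i Q P hi y * (gb (BL (J0 i Q P)) none)⁻¹) (N : ℕ)
    (y : SG (BL (CL p (J0 i Q P)))) :
    Th2 p i Q P hi (((List.range N).map fun t => R ^ t * T * (R ^ t)⁻¹).prod.1 y) =
      (psi (BL (J0 i Q P)) (JM i Q) c1 h
        (fun x => ∑ t ∈ Finset.range N, if x = 1 + (t : ZMod p) then -(k : ℤ) else 0)
        (Th2 p i Q P hi y)).f 0 := by
  induction N generalizing y with
  | zero =>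
    rw [List.range_zero, List.map_nil, List.prod_nil]
    have h1 : ∀ u : SG (BL (J0 i Q P)),
        (psi (BL (J0 i Q P)) (JM i Q) c1 h (fun _ => (0 : ℤ)) u).f 0 = u := by
      intro u
      let Φ : SG (BL (J0 i Q P)) →* SG (BL (J0 i Q P)) :=
        { toFun := fun u => (psi (BL (J0 i Q P)) (JM i Q) c1 h (fun _ => (0 : ℤ)) u).f 0
          map_one' := by rw [map_one]; rfl
          map_mul' := fun a b => by
            rw [map_mul, Mono.mul_f, psi_shift] }
      have key : Φ = MonoidHom.id _ := by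
        apply PresentedGroup.ext
        intro x
        show (psi (BL (J0 i Q P)) (JM i Q) c1 h (fun _ => (0 : ℤ)) (proj _ (FreeGroup.of x))).f 0 =
          proj _ (FreeGroup.of x)
        by_cases hx : x.1 ∈ JM i Q
        · rw [psi_in_f _ _ c1 h _ x hx]
          simp
        · rw [psi_out_f _ _ c1 h _ x hx]
      exact DFunLike.congr_fun key u
    simp only [Finset.range_zero, Finset.sum_empty]
    exact (h1 _).symm
  | succ N ih =>
    rw [List.range_succ, List.map_append, List.prod_append, List.map_cons, List.map_nil,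
      List.prod_cons, List.prod_nil, mul_one, aut_mul_apply, ih,
      claim5 p i Q P c1 hc h hi k T hT R hR, psi_comp]
    congr 3
    funext x
    rw [Finset.sum_range_succ]
    rfl

omit [DecidableEq κ] in
theorem sum_all (k : ℕ) (x : ZMod p) :
    (∑ t ∈ Finset.range p, if x = 1 + (t : ZMod p) then -(k : ℤ) else 0) = -(k : ℤ) := by
  have hp0 : NeZero p := ⟨(Fact.out : p.Prime).ne_zero⟩
  rw [Finset.sum_eq_single (x - 1).val]
  · rw [if_pos]
    rw [ZMod.natCast_zmod_val]
    ring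
  · intro t ht hne
    rw [if_neg]
    intro h1
    apply hne
    have h2 : ((t : ℕ) : ZMod p) = x - 1 := by rw [h1]; ring
    rw [← h2, ZMod.val_natCast, Nat.mod_eq_of_lt (Finset.mem_range.1 ht)]
  · intro h1
    exact absurd (Finset.mem_range.2 (ZMod.val_lt _)) h1

end M

end Pool.Agent.Lib.MP_6a1159_al
end

section

/-! The first lift of the separating twist is a product of twists about nonseparating curves. -/

set_option autoImplicit false

namespace Pool.Agent.Lib.MP_6a1159_al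

section N

variable {κ : Type} [DecidableEq κ] (p : ℕ) [Fact p.Prime] (i : κ) (Q P : List κ)

omit [Fact p.Prime] in
/-- The twist about `gam1` as an automorphism of the surface group. -/
theorem exists_te (hn : (J0 i Q P).Nodup) (k0 k1 : Fin p) (hk0 : (k0 : ℕ) = 0)
    (hk1 : (k1 : ℕ) = 1) : ∃ T : AutPlus (BL (CL p (J0 i Q P))),
      (∀ (k : ℕ) (w : FreeGroup (Option (Fin p × κ) × Bool)),
        (T ^ k).1 (proj _ w) = proj _ (teHom k0 k1 i Q P k w)) ∧
      IsC (BL (CL p (J0 i Q P))) T (proj _ (gam1 k0 k1 i Q)) := by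
  have hne : k1 ≠ k0 := by
    intro h'
    rw [h'] at hk1
    omega
  have hn' := hn
  rw [List.nodup_cons, List.mem_append, not_or, List.nodup_append] at hn'
  obtain ⟨⟨hiQ, hiP⟩, hnQ, hnP, hQP'⟩ := hn'
  have hQP : ∀ j ∈ P, j ∉ Q := fun j hj hj' => hQP' j hj' j hj rfl
  obtain ⟨X, hX, hXe⟩ := CL_split k0 k1 hk0 hk1 (J0 i Q P)
  have hmem : teE k0 k1 i Q P hne hiQ hiP ∈ StR (BL (CL p (J0 i Q P))) := by
    rw [hXe]
    exact teE_mem k0 k1 i Q P hne hiQ hiP hQP X hX
  refine ⟨toAut (BL (CL p (J0 i Q P))) ⟨teE k0 k1 i Q P hne hiQ hiP, hmem⟩, ?_, ?_⟩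
  · intro k w
    rw [← map_pow, toAut_proj]
    congr 1
    exact teE_pow k0 k1 i Q P hne hiQ hiP k w
  · have hq : (k1, i) ∈ CL p (J0 i Q P) := by
      rw [hXe]
      simp [J0]
    refine (isC_V (CL p (J0 i Q P)) (CL_nodup p _ hn) (k1, i) hq).braid ?_ ⟨1, Or.inr ?_⟩
    · rw [← map_mul, ← map_mul, ← map_mul, ← map_mul]
      congr 1
      apply Subtype.ext
      exact teE_braid k0 k1 i Q P hne hiQ hiP
    · have h0 : (some (k0, i) : Option (Fin p × κ)) ≠ some (k1, i) := by
        intro h'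
        simp only [Option.some.injEq, Prod.mk.injEq, and_true] at h'
        exact hne h'.symm
      have vQ : twFree' (some (k1, i)) 1 (relS (Q.map fun j => (k1, j))) =
          relS (Q.map fun j => (k1, j)) :=
        map_relS (twFree' (some (k1, i)) 1) (Q.map fun j => (k1, j)) (by
          intro q hq
          obtain ⟨j, hj, rfl⟩ := List.mem_map.1 hq
          refine ⟨twFree'_a_ne _ _ 1 ?_, twFree'_b _ _ 1⟩
          intro h'
          simp only [Option.some.injEq, Prod.mk.injEq, true_and] at h'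
          exact hiQ (h' ▸ hj))
      have vg : twFree' (some (k1, i)) 1 (gam1 k0 k1 i Q) =
          fb (some (k1, i)) * gam1 k0 k1 i Q := by
        have h1 : twFree' (some (k1, i)) 1 (gam1 k0 k1 i Q) =
          twFree' (some (k1, i)) 1 (fb (some (k1, i)) *
          (fa (some (k1, i)))⁻¹ * (fb (some (k1, i)))⁻¹ *
            relS (Q.map fun j => (k1, j)) * fa (some (k0, i))) := rfl
        rw [h1]
        simp only [map_mul, map_inv, twFree'_b, twFree'_a, twFree'_a_ne _ _ 1 h0, vQ]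
        rw [relQ_eq k0 k1 i Q]
        group
      rw [aut_mul_apply]
      have h2 : (toAut (BL (CL p (J0 i Q P))) ⟨teE k0 k1 i Q P hne hiQ hiP, hmem⟩).1
          (gb _ (some (k1, i))) = proj _ ((gam1 k0 k1 i Q)⁻¹ * fb (some (k1, i))) := by
        show (toAut (BL (CL p (J0 i Q P))) ⟨teE k0 k1 i Q P hne hiQ hiP, hmem⟩).1
          (proj _ (fb (some (k1, i)))) = _
        rw [toAut_proj]
        congr 1
        have := te_d1 k0 k1 i Q P 1 hne
        rw [zpow_neg_one] at this
        exact this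
      rw [h2, toAut_proj]
      have h3 : twFree' (some (k1, i)) 1 ((gam1 k0 k1 i Q)⁻¹ * fb (some (k1, i))) =
          (gam1 k0 k1 i Q)⁻¹ := by
        rw [map_mul, map_inv, vg, twFree'_b]
        group
      have h4 : (twE' (some (k1, i)) : MulAut (FreeGroup (Option (Fin p × κ) × Bool)))
          ((gam1 k0 k1 i Q)⁻¹ * fb (some (k1, i))) = (gam1 k0 k1 i Q)⁻¹ := h3
      show proj _ ((twE' (some (k1, i)) : MulAut (FreeGroup (Option (Fin p × κ) × Bool)))
        ((gam1 k0 k1 i Q)⁻¹ * fb (some (k1, i)))) = _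
      rw [h4, map_inv, one_mul, inv_one, mul_one]

theorem sw_mem_Km {ι : Type} (L M : List ι) (m : ℕ) : sw L M ∈ Km L m := by
  intro X
  have h1 : X (sw L M) = 1 := comm_relator (X.comp (proj L)) M
  rw [h1, toAdd_one]
  exact dvd_zero _

theorem Ord_one {G : Type} [Group G] {K : Subgroup G} {x : G} (h : x ∈ K) : Ord K x 1 :=
  fun n => ⟨fun _ => one_dvd _, fun _ => K.pow_mem h n⟩

/-- The first lift. -/
theorem MT_first (m : ℕ) (hn : (J0 i Q P).Nodup) (hall : ∀ j, j ∈ J0 i Q P)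
    (hi : i ∉ Q ++ P) (c1 : SG (BL (J0 i Q P)) →* Multiplicative (ZMod p))
    (hc : IsC1 p i Q P c1) (hr : (Th2 p i Q P hi).range = c1.ker)
    (hs : ∀ k : ℤ, sepFree (JM i Q) k (relator (BL (J0 i Q P))) = relator (BL (J0 i Q P))) :
    MT (CL p (J0 i Q P)) (Th2 p i Q P hi) (Km (BL (J0 i Q P)) m) m
      (fun k => ((sepTwist (BL (J0 i Q P)) (JM i Q) hs)⁻¹ ^ k).1) (m * p) := by
  have hp := (Fact.out : p.Prime)
  obtain ⟨k0, hk0⟩ : ∃ k0 : Fin p, (k0 : ℕ) = 0 := ⟨⟨0, hp.pos⟩, rfl⟩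
  obtain ⟨k1, hk1⟩ : ∃ k1 : Fin p, (k1 : ℕ) = 1 := ⟨⟨1, hp.one_lt⟩, rfl⟩
  have hn' := hn
  rw [List.nodup_cons, List.mem_append, not_or, List.nodup_append] at hn'
  obtain ⟨⟨hiQ, hiP⟩, hnQ, hnP, hQP'⟩ := hn'
  have hQP : ∀ j ∈ P, j ∉ Q := fun j hj hj' => hQP' j hj' j hj rfl
  have h : ∀ ω : ZMod p → ℤ,
      psiFree (BL (J0 i Q P)) (JM i Q) c1 ω (relator (BL (J0 i Q P))) = 1 :=
    psiFree_relator c1 (BL_split i Q P) hA (hB hiP hQP)
  have hr1 : ∀ y, c1 (Th2 p i Q P hi y) = 1 := by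
    intro y
    have : Th2 p i Q P hi y ∈ c1.ker := by
      rw [← hr]
      exact ⟨y, rfl⟩
    exact this
  obtain ⟨T, hT, g, hg, u, hu⟩ := exists_te p i Q P hn k0 k1 hk0 hk1
  obtain ⟨R, hR⟩ := exists_R p i Q P c1 hi hr
  -- the curve
  have hcurve : Th2 p i Q P hi (g.1 (ga _ none)) ∈ Km (BL (J0 i Q P)) m := by
    have h1 : Th2 p i Q P hi (proj _ (gam1 k0 k1 i Q)) ∈ Km (BL (J0 i Q P)) m := by
      rw [Th2_gam p i Q P hi k0 k1 hk0 hk1 hiQ]
      exact (inferInstance : (Km (BL (J0 i Q P)) m).Normal).conj_mem _ (sw_mem_Km _ _ m) _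
    rcases hu with hu | hu
    · rw [hu, map_mul, map_mul, map_inv]
      exact (inferInstance : (Km (BL (J0 i Q P)) m).Normal).conj_mem _ h1 _
    · rw [hu, map_mul, map_mul, map_inv, map_inv]
      exact (inferInstance : (Km (BL (J0 i Q P)) m).Normal).conj_mem _ (inv_mem h1) _
  intro k
  refine ⟨1, (List.range p).map fun t => (R ^ t * g, 1), ?_, ?_, ?_⟩
  · rw [List.map_map]
    have h1 : ((fun q : AutPlus (BL (CL p (J0 i Q P))) × ℕ => m / q.2) ∘
        fun t => (R ^ t * g, 1)) = fun _ => m := by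
      funext t
      simp
    rw [h1, List.map_const', List.sum_replicate, List.length_range, smul_eq_mul, mul_comm]
  · intro q hq
    obtain ⟨t, _, rfl⟩ := List.mem_map.1 hq
    refine ⟨one_dvd _, Ord_one ?_⟩
    rw [aut_mul_apply, R_pow p i Q P hi R hR]
    exact (inferInstance : (Km (BL (J0 i Q P)) m).Normal).conj_mem _ hcurve _
  · intro y
    rw [one_mul, inv_one, mul_one]
    have h1 : ptw (BL (CL p (J0 i Q P))) k ((List.range p).map fun t => (R ^ t * g, 1)) =
        ((List.range p).map fun t => R ^ t * T ^ k * (R ^ t)⁻¹).prod := by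
      unfold ptw
      rw [List.map_map]
      congr 1
      apply List.map_congr_left
      intro t _
      show R ^ t * g * twist _ none ^ (1 * k) * (R ^ t * g)⁻¹ = _
      rw [hg, conj_pow, one_mul]
      group
    have hTk : ∀ y, Th2 p i Q P hi ((T ^ k).1 y) = (psi (BL (J0 i Q P)) (JM i Q) c1 h
        (fun x => if x = 1 then -(k : ℤ) else 0) (Th2 p i Q P hi y)).f 0 :=
      fun y => claim4 p i Q P c1 hc h hi hr1 hall hiQ hiP k0 k1 hk0 hk1 k
        (T ^ k).1.toMonoidHom (hT k) y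
    rw [h1, claim6 p i Q P c1 hc h hi k (T ^ k) hTk R hR p y]
    have h2 : (fun x : ZMod p => ∑ t ∈ Finset.range p, if x = 1 + (t : ZMod p)
        then -(k : ℤ) else 0) = fun _ => -(k : ℤ) := by
      funext x
      exact sum_all p k x
    rw [h2, psi_const _ _ c1 h hs]

end N

end Pool.Agent.Lib.MP_6a1159_al
end

section

/-! The inequality for the separating twist, with a special list of handles. -/

set_option autoImplicit false

open scoped ENNReal

namespace Pool.Agent.Lib.MP_6a1159_al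

theorem scl_inv {G : Type} [Group G] (x : G) : scl x⁻¹ = scl x := by
  unfold scl
  refine iInf_congr fun n => ?_
  congr 1
  refine c6_cl_congr fun k => ⟨fun h => ?_, fun h => ?_⟩
  · have := ipc_inv h
    rwa [inv_pow, inv_inv] at this
  · rw [inv_pow]
    exact ipc_inv h

section O

variable {κ : Type} [DecidableEq κ] (i : κ) (Q P : List κ)

theorem sepTwist_trivial {ι : Type} [DecidableEq ι] (L M : List ι)
    (hs : ∀ k : ℤ, sepFree M k (relator L) = relator L) (m : ℕ) (w : SG L) :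
    (QuotientGroup.mk ((sepTwist L M hs)⁻¹.1 w) : SG L ⧸ Km L m) = QuotientGroup.mk w := by
  have key : (QuotientGroup.mk' (Km L m)).comp (sepTwist L M hs)⁻¹.1.toMonoidHom =
      QuotientGroup.mk' (Km L m) := by
    apply PresentedGroup.ext
    intro x
    show (QuotientGroup.mk' (Km L m)) ((sepTwist L M hs)⁻¹.1 (proj L (FreeGroup.of x))) =
      (QuotientGroup.mk' (Km L m)) (proj L (FreeGroup.of x))
    rw [sepTwist_inv_proj]
    by_cases hx : x.1 ∈ M
    · rw [sepFree_in M _ x hx, map_mul, map_mul, map_zpow, map_zpow]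
      have h1 : (QuotientGroup.mk' (Km L m)) (proj L (relator M)) = 1 :=
        (QuotientGroup.eq_one_iff _).2 (sw_mem_Km L M m)
      rw [map_mul, map_mul, map_zpow, map_zpow, h1, one_zpow, one_zpow, one_mul, mul_one]
    · rw [sepFree_out M _ x hx]
  exact DFunLike.congr_fun key w

/-- The inequality for the separating twist. -/
theorem part_a [Fintype κ] (m : ℕ) (hm : 2 ≤ m) (hn : (J0 i Q P).Nodup)
    (hall : ∀ j, j ∈ J0 i Q P)
    (hs : ∀ k : ℤ, sepFree (JM i Q) k (relator (BL (J0 i Q P))) = relator (BL (J0 i Q P))) :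
    ∃ (κ2 : Type) (_ : DecidableEq κ2) (L2 : List κ2), L2.Nodup ∧ (∀ k, k ∈ L2) ∧
      L2.length = m ^ (2 * (Fintype.card κ + 1)) * (J0 i Q P).length ∧
      ((m ^ (2 * (Fintype.card κ + 1)) : ℕ) : ℝ≥0∞) * scl (tw (BL L2) none) ≤
        scl (QuotientGroup.mk (sepTwist (BL (J0 i Q P)) (JM i Q) hs) :
          Mod (BL (J0 i Q P))) := by
  have hm0 : 0 < m := by omega
  have hmz : NeZero m := ⟨hm0.ne'⟩
  set p := m.minFac with hpdef
  have hp : p.Prime := Nat.minFac_prime (by omega)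
  have := Fact.mk hp
  have hpm : p ∣ m := Nat.minFac_dvd m
  have hi : i ∉ Q ++ P := (List.nodup_cons.1 hn).1
  obtain ⟨X, hX⟩ := exists_X1 i Q P
  set c1 := (redp p).comp X with hc1
  have hc : IsC1 p i Q P c1 := by
    obtain ⟨h1, h2, h3, h4, h5⟩ := hX
    refine ⟨?_, ?_, ?_, ?_, ?_⟩
    · show redp p (X _) = 1
      rw [h1, map_one]
    · show redp p (X _) = _
      rw [h2, redp_apply, toAdd_ofAdd, Int.cast_one]
    · show redp p (X _) = 1
      rw [h3, map_one]
    · show redp p (X _) = _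
      rw [h4, redp_apply, toAdd_ofAdd, Int.cast_one]
    · intro j hj s
      show redp p (X _) = 1
      have h6 : X (proj _ (FreeGroup.of (some j, s))) = 1 := by
        cases s
        · exact (h5 j hj).1
        · exact (h5 j hj).2
      rw [h6, map_one]
  have hr : (Th2 p i Q P hi).range = c1.ker := range_Th2 p i Q P hi X hX
  have hMT := MT_first p i Q P m hn hall hi c1 hc hr hs
  have hle : Km (BL (J0 i Q P)) m ≤ (Th2 p i Q P hi).range := by
    intro w hw
    rw [hr, MonoidHom.mem_ker]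
    show redp p (X w) = 1
    have h1 : (m : ℤ) ∣ (X w).toAdd := hw X
    have h2 : (p : ℤ) ∣ (X w).toAdd := dvd_trans (by exact_mod_cast hpm) h1
    rw [redp_apply, (ZMod.intCast_zmod_eq_zero_iff_dvd _ _).2 h2]
    rfl
  have hc1ne : c1 ≠ 1 := by
    intro h1
    have h2 : c1 (gb _ none) = 1 := by rw [h1]; rfl
    rw [hc.b] at h2
    have h3 : (1 : ZMod p) = 0 := h2
    exact one_ne_zero h3
  have hidx : (Th2 p i Q P hi).range.index = p := by
    rw [hr]
    exact card_range_char p hp c1 hc1ne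
  set n := (Km (BL (J0 i Q P)) m).relIndex (Th2 p i Q P hi).range with hndef
  have hnp : n * p = m ^ (2 * (Fintype.card κ + 1)) := by
    have h1 := Subgroup.relIndex_mul_index hle
    rw [← hndef, hidx, Km_index, Fintype.card_option] at h1
    exact h1
  have hn0 : n ≠ 0 := by
    intro h0
    rw [h0, zero_mul] at hnp
    exact (pow_pos hm0 _).ne hnp
  obtain ⟨κ2, _, L2, Θ2, a1, a2, a3, a4, a5, a6⟩ := chain (J0 i Q P) m hm0
    (fun k => ((sepTwist (BL (J0 i Q P)) (JM i Q) hs)⁻¹ ^ k).1) n (Fin p × κ) inferInstance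
    (CL p (J0 i Q P)) (Th2 p i Q P hi) (m * p) (CL_nodup p _ hn) (CL_mem p _ hall)
    (cov_Th2 p i Q P hi) hle hMT rfl hn0
  refine ⟨κ2, inferInstance, L2, a1, a2, ?_, ?_⟩
  · rw [a5, CL_length, ← hnp, mul_assoc]
  · rw [← scl_inv (QuotientGroup.mk (sepTwist (BL (J0 i Q P)) (JM i Q) hs) :
      Mod (BL (J0 i Q P))), ← QuotientGroup.mk_inv]
    refine final_ineq (J0 i Q P) m hm0 (sepTwist (BL (J0 i Q P)) (JM i Q) hs)⁻¹
      (sepTwist_trivial _ _ hs m) L2 Θ2 a3 a4 (m ^ (2 * (Fintype.card κ + 1)))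
      (pow_pos hm0 _) ?_
    have e : m * m ^ (2 * (Fintype.card κ + 1)) = n * (m * p) := by
      rw [← hnp]
      ring
    rw [e]
    exact a6

end O

end Pool.Agent.Lib.MP_6a1159_al
end

section

/-! Transfer to the standard surface group. -/

set_option autoImplicit false

open scoped ENNReal

namespace Pool.Agent.Lib.MP_6a1159_al

/-- An isomorphism of surface groups which is compatible with the intersection forms induces an
isomorphism of the mapping class groups. -/
theorem exists_modEquiv {ι ι' : Type} {L : List ι} {L' : List ι'} (S : SG L ≃* SG L')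
    (hI : ∀ x y : SG L' →* Multiplicative ℤ, inter L' x y =
      inter L (x.comp S.toMonoidHom) (y.comp S.toMonoidHom)) :
    ∃ E : Mod L ≃* Mod L', ∀ (f : AutPlus L) (f' : AutPlus L'),
      (∀ y, f'.1 (S y) = S (f.1 y)) → E (QuotientGroup.mk f) = QuotientGroup.mk f' := by
  have hI' : ∀ x y : SG L →* Multiplicative ℤ, inter L x y =
      inter L' (x.comp S.symm.toMonoidHom) (y.comp S.symm.toMonoidHom) := by
    intro x y
    rw [hI]
    have h : ∀ z : SG L →* Multiplicative ℤ,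
        (z.comp S.symm.toMonoidHom).comp S.toMonoidHom = z := by
      intro z
      refine MonoidHom.ext fun w => ?_
      show z (S.symm (S _)) = _
      rw [S.symm_apply_apply]
    rw [h, h]
  have m1 : ∀ f : AutPlus L, MulAut.congr S f.1 ∈ AutPlus L' := by
    intro f x y
    have h : ∀ z : SG L' →* Multiplicative ℤ,
        (z.comp (MulAut.congr S f.1).toMonoidHom).comp S.toMonoidHom =
          (z.comp S.toMonoidHom).comp f.1.toMonoidHom := by
      intro z
      refine MonoidHom.ext fun w => ?_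
      show z (S (f.1 (S.symm (S _)))) = _
      rw [S.symm_apply_apply]
      rfl
    rw [hI, h, h, f.2, ← hI]
  have m2 : ∀ f : AutPlus L', (MulAut.congr S).symm f.1 ∈ AutPlus L := by
    intro f x y
    have h : ∀ z : SG L →* Multiplicative ℤ,
        (z.comp ((MulAut.congr S).symm f.1).toMonoidHom).comp S.symm.toMonoidHom =
          (z.comp S.symm.toMonoidHom).comp f.1.toMonoidHom := by
      intro z
      refine MonoidHom.ext fun w => ?_
      show z (S.symm (f.1 (S (S.symm _)))) = _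
      rw [S.apply_symm_apply]
      rfl
    rw [hI', h, h, f.2, ← hI']
  let E1 : AutPlus L ≃* AutPlus L' := {
    toFun := fun f => ⟨MulAut.congr S f.1, m1 f⟩
    invFun := fun f => ⟨(MulAut.congr S).symm f.1, m2 f⟩
    left_inv := fun f => Subtype.ext ((MulAut.congr S).symm_apply_apply f.1)
    right_inv := fun f => Subtype.ext ((MulAut.congr S).apply_symm_apply f.1)
    map_mul' := fun f g => Subtype.ext (map_mul (MulAut.congr S) f.1 g.1) }
  have hE1 : ∀ (f : AutPlus L) (w : SG L), (E1 f).1 (S w) = S (f.1 w) := by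
    intro f w
    show S (f.1 (S.symm (S w))) = S (f.1 w)
    rw [S.symm_apply_apply]
  have hInn : (Inn L).map (E1 : AutPlus L →* AutPlus L') = Inn L' := by
    ext f'
    constructor
    · rintro ⟨f, ⟨w, hw⟩, rfl⟩
      refine ⟨S w, ?_⟩
      have hw' : MulAut.conj w = f.1 := hw
      show MulAut.conj (S w) = (E1 f).1
      ext z
      obtain ⟨z, rfl⟩ := S.surjective z
      rw [hE1, ← hw']
      simp
    · rintro ⟨w', hw⟩
      have hw' : MulAut.conj w' = f'.1 := hw
      refine ⟨E1.symm f', ⟨S.symm w', ?_⟩, E1.apply_symm_apply f'⟩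
      show MulAut.conj (S.symm w') = (E1.symm f').1
      ext z
      show S.symm w' * z * (S.symm w')⁻¹ = S.symm (f'.1 (S z))
      rw [← hw']
      show _ = S.symm (w' * S z * w'⁻¹)
      simp
  refine ⟨QuotientGroup.congr _ _ E1 hInn, fun f f' hf => ?_⟩
  show (QuotientGroup.mk (E1 f) : Mod L') = QuotientGroup.mk f'
  congr 1
  apply Subtype.ext
  ext w
  obtain ⟨w, rfl⟩ := S.surjective w
  rw [hE1, hf]

/-- Renaming the handles and moving the last one to the front. -/
theorem exists_rotate {ι ι' : Type} (e : ι ≃ ι') (L : List ι) (A B : List ι')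
    (hL : L.map e = A ++ B) : ∃ S : SG L ≃* SG (B ++ A),
      (∀ w, S (proj L w) = proj (B ++ A) (FreeGroup.map (fun x => (e x.1, x.2)) w)) ∧
      ∀ x y : SG (B ++ A) →* Multiplicative ℤ, inter (B ++ A) x y =
        inter L (x.comp S.toMonoidHom) (y.comp S.toMonoidHom) := by
  obtain ⟨F, hF⟩ : ∃ F : FreeGroup (ι × Bool) ≃* FreeGroup (ι' × Bool),
      ∀ w, F w = FreeGroup.map (fun x => (e x.1, x.2)) w := by
    refine ⟨FreeGroup.freeGroupCongr (e.prodCongr (Equiv.refl Bool)), fun w => ?_⟩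
    rfl
  have Fa : ∀ i, F (fa i) = fa (e i) := fun i => by
    rw [hF, fa, FreeGroup.map.of]
    rfl
  have Fb : ∀ i, F (fb i) = fb (e i) := fun i => by
    rw [hF, fb, FreeGroup.map.of]
    rfl
  have Fr : F (relator L) = relator (A ++ B) := by
    rw [← hL]
    unfold relator
    rw [map_list_prod, List.map_map, List.map_map]
    congr 1
    apply List.map_congr_left
    intro j _
    simp only [Function.comp_apply, map_mul, map_inv, Fa, Fb]
  have hconj : relator (B ++ A) = (relator A)⁻¹ * relator (A ++ B) * relator A := by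
    rw [relator_append, relator_append]
    group
  have hnc : Subgroup.normalClosure {relator (A ++ B)} =
      Subgroup.normalClosure {relator (B ++ A)} := by
    apply le_antisymm
    · apply Subgroup.normalClosure_le_normal
      rw [Set.singleton_subset_iff, SetLike.mem_coe]
      have h1 : relator (A ++ B) = relator A * relator (B ++ A) * (relator A)⁻¹ := by
        rw [hconj]
        group
      rw [h1]
      exact Subgroup.Normal.conj_mem inferInstance _
        (Subgroup.subset_normalClosure (Set.mem_singleton _)) _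
    · apply Subgroup.normalClosure_le_normal
      rw [Set.singleton_subset_iff, SetLike.mem_coe, hconj]
      have h1 := Subgroup.Normal.conj_mem (H := Subgroup.normalClosure {relator (A ++ B)})
        inferInstance (relator (A ++ B))
        (Subgroup.subset_normalClosure (Set.mem_singleton _)) (relator A)⁻¹
      rwa [inv_inv] at h1
  have hn : (Subgroup.normalClosure {relator L}).map (F : FreeGroup (ι × Bool) →*
      FreeGroup (ι' × Bool)) = Subgroup.normalClosure {relator (B ++ A)} := by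
    rw [Subgroup.map_normalClosure _ _ F.surjective, Set.image_singleton]
    rw [show (F : FreeGroup (ι × Bool) →* FreeGroup (ι' × Bool)) (relator L) =
      relator (A ++ B) from Fr, hnc]
  let S : SG L ≃* SG (B ++ A) := QuotientGroup.congr _ _ F hn
  have hS : ∀ w, S (proj L w) = proj (B ++ A) (F w) := fun w => rfl
  refine ⟨S, fun w => by rw [hS, hF], ?_⟩
  intro x y
  have Sa : ∀ i, S.toMonoidHom (ga L i) = ga (B ++ A) (e i) := fun i => by
    show S (proj L (fa i)) = _
    rw [hS, Fa]; rfl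
  have Sb : ∀ i, S.toMonoidHom (gb L i) = gb (B ++ A) (e i) := fun i => by
    show S (proj L (fb i)) = _
    rw [hS, Fb]; rfl
  have h1 : inter L (x.comp S.toMonoidHom) (y.comp S.toMonoidHom) =
      ((A ++ B).map fun i => (x (ga (B ++ A) i)).toAdd * (y (gb (B ++ A) i)).toAdd -
        (x (gb (B ++ A) i)).toAdd * (y (ga (B ++ A) i)).toAdd).sum := by
    rw [← hL, List.map_map]
    unfold inter
    congr 1
    apply List.map_congr_left
    intro j _
    simp only [Function.comp_apply, MonoidHom.comp_apply, Sa, Sb]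
  rw [h1]
  unfold inter
  rw [List.map_append, List.map_append, List.sum_append, List.sum_append, add_comm]

end Pool.Agent.Lib.MP_6a1159_al
end
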