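import Pool.Agent.Lib.MP_6a1159_al.Final
import Pool.Agent.Lib.MP_6a1159_al.Mg.G021

section

/-! The upper bound for the stable commutator length of the twist about a nonseparating curve. -/

set_option autoImplicit false

open scoped ENNReal

namespace Pool.Agent.Lib.MP_6a1159_al

section lists

variable {n : ℕ}

/-- The handles before `i`. -/
def pre (i : Fin n) : List (Fin n) := (List.finRange n).take i.val

/-- The handles after `i`. -/
def post (i : Fin n) : List (Fin n) := (List.finRange n).drop (i.val + 1)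

theorem mem_pre {i j : Fin n} : j ∈ pre i ↔ j < i := by
  unfold pre
  rw [List.mem_take_iff_getElem]
  constructor
  · rintro ⟨k, hk, rfl⟩
    rw [List.getElem_finRange]
    rw [Fin.lt_def]
    simp only [Fin.val_cast]
    omega
  · intro h
    refine ⟨j.val, ?_, ?_⟩
    · rw [List.length_finRange]
      exact lt_min h j.2
    · rw [List.getElem_finRange]
      rfl

theorem mem_post {i j : Fin n} (h : j ∈ post i) : i < j := by
  unfold post at h
  rw [List.mem_drop_iff_getElem] at h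
  obtain ⟨k, hk, rfl⟩ := h
  rw [List.getElem_finRange]
  rw [Fin.lt_def]
  simp only [Fin.val_cast]
  omega

theorem split_fin (i : Fin n) : List.finRange n = pre i ++ i :: post i := by
  unfold pre post
  have h1 : i.val < (List.finRange n).length := by
    rw [List.length_finRange]
    exact i.2
  have h2 := List.drop_eq_getElem_cons h1
  rw [List.getElem_finRange] at h2
  have h3 : Fin.cast (List.length_finRange : (List.finRange n).length = n) ⟨i.val, h1⟩ = i := rfl
  conv_lhs => rw [← List.take_append_drop i.val (List.finRange n)]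
  rw [h2]
  rfl

theorem pre_split {i j : Fin n} (h : i < j) :
    ∃ M : List (Fin n), pre j = pre i ++ i :: M ∧ ∀ l ∈ M, l ∉ pre i ∧ l ≠ i := by
  refine ⟨((List.finRange n).take j.val).drop (i.val + 1), ?_, ?_⟩
  · have h1 : i.val < ((List.finRange n).take j.val).length := by
      rw [List.length_take, List.length_finRange]
      exact lt_min h i.2
    have h2 := List.drop_eq_getElem_cons h1
    have h3 : ((List.finRange n).take j.val)[i.val] = i := by
      rw [List.getElem_take, List.getElem_finRange]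
      rfl
    have h4 : ((List.finRange n).take j.val).take i.val = (List.finRange n).take i.val := by
      rw [List.take_take]
      congr 1
      exact min_eq_left (le_of_lt h)
    show (List.finRange n).take j.val = (List.finRange n).take i.val ++ _
    conv_lhs => rw [← List.take_append_drop i.val ((List.finRange n).take j.val)]
    rw [h2, h3, h4]
  · intro l hl
    have h5 : l ∈ post i := by
      rw [List.drop_take] at hl
      exact List.mem_of_mem_take hl
    have h6 := mem_post h5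
    refine ⟨fun h7 => ?_, fun h7 => ?_⟩
    · exact absurd (mem_pre.1 h7) (not_lt.2 h6.le)
    · exact absurd h7 h6.ne'

end lists

theorem notMem_pre {n : ℕ} (i : Fin n) : i ∉ pre i := fun h => lt_irrefl _ (mem_pre.1 h)

section family

variable (n : ℕ)

/-- The automorphisms which fix the boundary word. -/
abbrev SB : Subgroup (MulAut (FreeGroup (Option (Fin n) × Bool))) := StR (BL (List.finRange n))

variable {n}

def fX : SB n := ⟨twE none, twE_mem _ _⟩

def fT : SB n := ⟨twE' none, twE'_mem _ _⟩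

def fA (i : Fin n) : SB n := ⟨twE (some i), twE_mem _ _⟩

def fB (i : Fin n) : SB n := ⟨twE' (some i), twE'_mem _ _⟩

def fC (i : Fin n) : SB n := ⟨CE (pre i) i (notMem_pre i), by
  have h := CE_mem (pre i) (post i) i (notMem_pre i) fun j hj =>
    ⟨fun h => absurd (mem_pre.1 h) (not_lt.2 (mem_post hj).le), (mem_post hj).ne'⟩
  rwa [← split_fin i] at h⟩

def fD (i : Fin n) : SB n := ⟨DE (pre i), by
  have h := DE_mem (pre i) (i :: post i) fun j hj => by
    rcases List.mem_cons.1 hj with h | h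
    · rw [h]
      exact notMem_pre i
    · exact fun h' => absurd (mem_pre.1 h') (not_lt.2 (mem_post h).le)
  rwa [← split_fin i] at h⟩

def fD' (i : Fin n) : SB n := ⟨DE (pre i ++ [i]), by
  have h := DE_mem (pre i ++ [i]) (post i) fun j hj h' => by
    rcases List.mem_append.1 h' with h1 | h1
    · exact absurd (mem_pre.1 h1) (not_lt.2 (mem_post hj).le)
    · exact absurd (List.mem_singleton.1 h1) (mem_post hj).ne'
  rw [List.append_assoc, List.singleton_append, ← split_fin i] at h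
  exact h⟩

theorem conj_braid {G : Type} [Group G] {u v : G} (h : u * v * u = v * u * v) :
    v = (u * v) * u * (u * v)⁻¹ := by
  rw [eq_mul_inv_iff_mul_eq, ← mul_assoc, h]

theorem conj_trans {G : Type} [Group G] {x u v : G} (h1 : ∃ g, u = g * x * g⁻¹)
    (h : u * v * u = v * u * v) : ∃ g, v = g * x * g⁻¹ := by
  obtain ⟨g, hg⟩ := h1
  refine ⟨u * v * g, ?_⟩
  have h2 := conj_braid h
  have h3 : u * v * g * x * (u * v * g)⁻¹ = (u * v) * (g * x * g⁻¹) * (u * v)⁻¹ := by group
  rw [h3, ← hg]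
  exact h2

theorem cT : ∃ g : SB n, fT = g * fX * g⁻¹ := by
  refine conj_trans (u := fX) ⟨1, by group⟩ ?_
  apply Subtype.ext
  have h := braid_DT ([] : List (Fin n))
  rw [DE_nil] at h
  exact h

theorem cD (i : Fin n) : ∃ g : SB n, fD i = g * fX * g⁻¹ :=
  conj_trans cT (Subtype.ext (braid_DT (pre i)).symm)

theorem cD' (i : Fin n) : ∃ g : SB n, fD' i = g * fX * g⁻¹ :=
  conj_trans cT (Subtype.ext (braid_DT (pre i ++ [i])).symm)

theorem cC (i : Fin n) : ∃ g : SB n, fC i = g * fX * g⁻¹ :=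
  conj_trans cT (Subtype.ext (braid_CT (pre i) i (notMem_pre i)).symm)

theorem cB (i : Fin n) : ∃ g : SB n, fB i = g * fX * g⁻¹ :=
  conj_trans (cC i) (Subtype.ext (braid_BC (pre i) i (notMem_pre i)).symm)

theorem cA (i : Fin n) : ∃ g : SB n, fA i = g * fX * g⁻¹ :=
  conj_trans (cB i) (Subtype.ext (braid_AB i).symm)

theorem sc {u v : SB n} (h : Commute u.1 v.1) : Commute u v := Subtype.ext h

theorem comm_CC (i j : Fin n) (h : i < j) :
    Commute (CE (pre i) i (notMem_pre i)) (CE (pre j) j (notMem_pre j)) := by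
  obtain ⟨M, hM, hM'⟩ := pre_split h
  have key : ∀ (Q : List (Fin n)) (_ : Q = pre i ++ i :: M) (hj : j ∉ Q),
      Commute (CE (pre i) i (notMem_pre i)) (CE Q j hj) := by
    rintro Q rfl hj
    exact comm_CC' (pre i) M i j (notMem_pre i) hj hM'
  exact key (pre j) hM (notMem_pre j)

/-- The powers of the twist are products of few commutators, already in the mapping class group of
the surface with one boundary component. -/
theorem ub_free (m : ℕ) : IsProdComm (m + 7 * n) ((fX : SB n) ^ (10 * n * m)) := by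
  have hlt := List.pairwise_lt_finRange n
  have h := abs_count (List.finRange n) fA fB fC fD fD' (fX : SB n) (fun i _ => cA i)
    (fun i _ => cB i) (fun i _ => cC i) (fun i _ => cD i) (fun i _ => cD' i)
    (fun i _ => sc (u := fA i) (v := fC i) (comm_AC (pre i) i (notMem_pre i)))
    (fun i _ => Subtype.ext (braid_AB i))
    (fun i _ => Subtype.ext (braid_BC (pre i) i (notMem_pre i)))
    (fun i _ => Subtype.ext (chain_rel (pre i) i (notMem_pre i)))
    (fun i _ => sc (u := fD i) (v := fD' i) (comm_DD (pre i) i (notMem_pre i)))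
    (hlt.imp fun {i j} _ => sc (u := fA i) (v := fA j) (twE_comm_twE (some i) (some j)))
    (hlt.imp fun {i j} hij => sc (u := fA i) (v := fB j) (comm_AB i j hij.ne))
    (hlt.imp fun {i j} hij => sc (u := fA i) (v := fC j)
      (comm_AC' (pre j) i j (notMem_pre j) (mem_pre.2 hij)))
    (hlt.imp fun {i j} hij => sc (u := fB i) (v := fA j) (comm_AB j i hij.ne').symm)
    (hlt.imp fun {i j} hij => sc (u := fB i) (v := fB j) (comm_BB i j hij.ne))
    (hlt.imp fun {i j} hij => sc (u := fB i) (v := fC j)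
      (comm_BC' (pre j) i j (notMem_pre j) (mem_pre.2 hij)))
    (hlt.imp fun {i j} hij => sc (u := fC i) (v := fA j) (comm_CA' (pre i) i j (notMem_pre i)
      (fun h => absurd (mem_pre.1 h) (not_lt.2 hij.le)) hij.ne'))
    (hlt.imp fun {i j} hij => sc (u := fC i) (v := fB j) (comm_CB' (pre i) i j (notMem_pre i)
      (fun h => absurd (mem_pre.1 h) (not_lt.2 hij.le)) hij.ne'))
    (hlt.imp fun {i j} hij => sc (u := fC i) (v := fC j) (comm_CC i j hij)) m
  rw [List.length_finRange] at h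
  exact h

theorem ub_mod (m : ℕ) :
    IsProdComm (m + 7 * n) ((tw (BL (List.finRange n)) none) ^ (10 * n * m)) := by
  have h := ipc_map ((QuotientGroup.mk' (Inn (BL (List.finRange n)))).comp
    (toAut (BL (List.finRange n)))) (ub_free (n := n) m)
  rw [map_pow] at h
  have e : ((QuotientGroup.mk' (Inn (BL (List.finRange n)))).comp
      (toAut (BL (List.finRange n)))) fX = tw (BL (List.finRange n)) none := by
    rw [MonoidHom.comp_apply]
    show QuotientGroup.mk' (Inn (BL (List.finRange n)))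
      (toAut (BL (List.finRange n)) ⟨twE none, twE_mem _ _⟩) = _
    rw [toAut_twE]
    rfl
  rw [e] at h
  exact h

end family

/-- `φ(g, 0) ≤ 1 / (10 (g - 1))`. -/
theorem phi_le (g : ℕ) (hg : 2 ≤ g) (i : Fin g) :
    phi g i ≤ 1 / (10 * ((g - 1 : ℕ) : ℝ≥0∞)) := by
  obtain ⟨n, rfl⟩ : ∃ n, g = n + 1 := ⟨g - 1, by omega⟩
  rw [phi_eq, phi0_eq (List.finRange n) (List.nodup_finRange n) (by simp) (n + 1)
    (by simp) i, Nat.add_sub_cancel]
  have h := c8_bound (tw (BL (List.finRange n)) none) 1 10 1 n 1 (7 * n) le_rfl (by norm_num)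
    (by omega) (fun j _ => by
      have h1 := ub_mod (n := n) j
      have e1 : 1 * 1 * 1 * j + 7 * n = j + 7 * n := by ring
      have e2 : 1 * 10 * n * j = 10 * n * j := by ring
      rw [e1, e2]
      exact h1)
  have hn0 : (n : ℝ≥0∞) ≠ 0 := by
    have : n ≠ 0 := by omega
    exact_mod_cast this
  rw [ENNReal.le_div_iff_mul_le (Or.inl (mul_ne_zero (by norm_num) hn0))
    (Or.inl (ENNReal.mul_ne_top (by norm_num) (ENNReal.natCast_ne_top n)))]
  push_cast at h
  rw [mul_comm]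
  simpa using h

end Pool.Agent.Lib.MP_6a1159_al
end

section

/-! Mapping classes which preserve the handles `some i`. -/

set_option autoImplicit false

namespace Pool.Agent.Lib.MP_6a1159_al

variable {κ : Type} [DecidableEq κ]

/-- The group generated by the handle `i`. -/
def Hd (L0 : List κ) (i : κ) : Subgroup (SG (BL L0)) :=
  Subgroup.closure {ga (BL L0) (some i), gb (BL L0) (some i)}

/-- `f` maps the handle groups into conjugates of handle groups. -/
def Pres (L0 : List κ) (f : MulAut (SG (BL L0))) : Prop :=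
  ∀ i, ∃ j γ, ∀ w ∈ Hd L0 i, γ⁻¹ * f w * γ ∈ Hd L0 j

omit [DecidableEq κ] in
theorem ga_mem (L0 : List κ) (i : κ) : ga (BL L0) (some i) ∈ Hd L0 i :=
  Subgroup.subset_closure (by simp)

omit [DecidableEq κ] in
theorem gb_mem (L0 : List κ) (i : κ) : gb (BL L0) (some i) ∈ Hd L0 i :=
  Subgroup.subset_closure (by simp)

omit [DecidableEq κ] in
theorem pres_of_gen (L0 : List κ) (f : MulAut (SG (BL L0)))
    (h : ∀ i, ∃ j γ, γ⁻¹ * f (ga _ (some i)) * γ ∈ Hd L0 j ∧
      γ⁻¹ * f (gb _ (some i)) * γ ∈ Hd L0 j) : Pres L0 f := by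
  intro i
  obtain ⟨j, γ, h1, h2⟩ := h i
  refine ⟨j, γ, ?_⟩
  have hle : Hd L0 i ≤ (Hd L0 j).comap ((MulAut.conj γ⁻¹).toMonoidHom.comp f.toMonoidHom) := by
    rw [Hd, Subgroup.closure_le]
    rintro x (rfl | hx)
    · show (MulAut.conj γ⁻¹) (f _) ∈ Hd L0 j
      rw [MulAut.conj_apply, inv_inv]
      exact h1
    · rw [Set.mem_singleton_iff] at hx
      subst hx
      show (MulAut.conj γ⁻¹) (f _) ∈ Hd L0 j
      rw [MulAut.conj_apply, inv_inv]
      exact h2
  intro w hw
  have h3 : (MulAut.conj γ⁻¹) (f w) ∈ Hd L0 j := hle hw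
  rw [MulAut.conj_apply, inv_inv] at h3
  exact h3

omit [DecidableEq κ] in
theorem pres_mul (L0 : List κ) (f g : MulAut (SG (BL L0))) (hf : Pres L0 f) (hg : Pres L0 g) :
    Pres L0 (f * g) := by
  intro i
  obtain ⟨j, γ, h1⟩ := hg i
  obtain ⟨l, δ, h2⟩ := hf j
  refine ⟨l, f γ * δ, fun w hw => ?_⟩
  have h3 := h2 _ (h1 w hw)
  rw [map_mul, map_mul, map_inv] at h3
  rw [MulAut.mul_apply]
  have e : (f γ * δ)⁻¹ * f (g w) * (f γ * δ) = δ⁻¹ * ((f γ)⁻¹ * f (g w) * f γ) * δ := by group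
  rw [e]
  exact h3

omit [DecidableEq κ] in
theorem pres_conj (L0 : List κ) (δ : SG (BL L0)) : Pres L0 (MulAut.conj δ) := by
  intro i
  refine ⟨i, δ, fun w hw => ?_⟩
  rw [MulAut.conj_apply]
  have e : δ⁻¹ * (δ * w * δ⁻¹) * δ = w := by group
  rw [e]
  exact hw

/-- The automorphisms which permute the conjugacy classes of the handle groups. -/
def PA (L0 : List κ) : Subgroup (AutPlus (BL L0)) where
  carrier := {α | Pres L0 α.1 ∧ Pres L0 α.1⁻¹}
  mul_mem' {α β} hα hβ := ⟨pres_mul L0 _ _ hα.1 hβ.1, by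
    have h := pres_mul L0 _ _ hβ.2 hα.2
    rw [← mul_inv_rev] at h
    exact h⟩
  one_mem' := by
    have h := pres_conj L0 1
    rw [map_one] at h
    refine ⟨h, ?_⟩
    show Pres L0 (1 : MulAut _)⁻¹
    rw [inv_one]
    exact h
  inv_mem' {α} hα := ⟨hα.2, by
    show Pres L0 (α.1⁻¹)⁻¹
    rw [inv_inv]
    exact hα.1⟩

omit [DecidableEq κ] in
theorem conj_PA (L0 : List κ) (δ : SG (BL L0)) :
    (⟨MulAut.conj δ, conj_mem _ δ⟩ : AutPlus (BL L0)) ∈ PA L0 := by
  refine ⟨pres_conj L0 δ, ?_⟩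
  show Pres L0 (MulAut.conj δ)⁻¹
  rw [← map_inv]
  exact pres_conj L0 δ⁻¹

omit [DecidableEq κ] in
theorem mem_PA_of (L0 : List κ) (α : AutPlus (BL L0))
    (h1 : ∀ i, α.1 (ga _ (some i)) ∈ Hd L0 i) (h2 : ∀ i, α.1 (gb _ (some i)) ∈ Hd L0 i)
    (h3 : ∀ i, α.1⁻¹ (ga _ (some i)) ∈ Hd L0 i) (h4 : ∀ i, α.1⁻¹ (gb _ (some i)) ∈ Hd L0 i) :
    α ∈ PA L0 := by
  refine ⟨pres_of_gen L0 _ fun i => ⟨i, 1, ?_, ?_⟩, pres_of_gen L0 _ fun i => ⟨i, 1, ?_, ?_⟩⟩
  · simpa using h1 i
  · simpa using h2 i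
  · simpa using h3 i
  · simpa using h4 i

omit [DecidableEq κ] in
theorem fix_PA (L0 : List κ) (α : AutPlus (BL L0))
    (h1 : ∀ i, α.1 (ga _ (some i)) = ga _ (some i))
    (h2 : ∀ i, α.1 (gb _ (some i)) = gb _ (some i)) : α ∈ PA L0 := by
  have h3 : ∀ w, α.1 w = w → α.1⁻¹ w = w := by
    intro w hw
    rw [MulAut.inv_apply, MulEquiv.symm_apply_eq]
    exact hw.symm
  apply mem_PA_of
  · intro i; rw [h1]; exact ga_mem L0 i
  · intro i; rw [h2]; exact gb_mem L0 i
  · intro i; rw [h3 _ (h1 i)]; exact ga_mem L0 i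
  · intro i; rw [h3 _ (h2 i)]; exact gb_mem L0 i

theorem twist_none_PA (L0 : List κ) : twist (BL L0) none ∈ PA L0 :=
  fix_PA L0 _ (fun i => twAut_a _ _ _) (fun i => twAut_b_ne _ _ _ (by simp))

theorem twist_some_PA (L0 : List κ) (i : κ) : twist (BL L0) (some i) ∈ PA L0 := by
  have h3 : ∀ w v, v = (twist (BL L0) (some i)).1 w → (twist (BL L0) (some i)).1⁻¹ v = w := by
    intro w v hw
    rw [MulAut.inv_apply, MulEquiv.symm_apply_eq]
    exact hw
  have ha : ∀ j, (twist (BL L0) (some i)).1 (ga _ j) = ga _ j := fun j => twAut_a _ _ _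
  have hb : (twist (BL L0) (some i)).1 (gb _ (some i)) = gb _ (some i) * ga _ (some i) :=
    twAut_b _ _
  have hbn : ∀ j, j ≠ some i → (twist (BL L0) (some i)).1 (gb _ j) = gb _ j :=
    fun j hj => twAut_b_ne _ _ _ hj
  apply mem_PA_of
  · intro j; rw [ha]; exact ga_mem L0 j
  · intro j
    by_cases hj : j = i
    · subst hj
      rw [hb]
      exact Subgroup.mul_mem _ (gb_mem L0 j) (ga_mem L0 j)
    · rw [hbn _ (by simpa using hj)]; exact gb_mem L0 j
  · intro j; rw [h3 _ _ (ha _).symm]; exact ga_mem L0 j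
  · intro j
    by_cases hj : j = i
    · subst hj
      rw [h3 (gb _ (some j) * (ga _ (some j))⁻¹) _ (by
        rw [map_mul, map_inv, ha, hb, mul_inv_cancel_right])]
      exact Subgroup.mul_mem _ (gb_mem L0 j) (Subgroup.inv_mem _ (ga_mem L0 j))
    · rw [h3 _ _ (hbn _ (by simpa using hj)).symm]; exact gb_mem L0 j

section res

variable (p : ℕ) [NeZero p] (L0 : List κ)

omit [DecidableEq κ] in
theorem form_fin (w : SG (BL L0)) :
    ∃ (l : Fin p) (θ : SG (BL (CL p L0))), w = Theta p L0 θ * gb (BL L0) none ^ (l : ℕ) := by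
  obtain ⟨k, hk⟩ := k3_form p L0 w
  have hp : (0 : ℤ) < p := by exact_mod_cast Nat.pos_of_ne_zero (NeZero.ne p)
  have h1 : 0 ≤ k % p := Int.emod_nonneg _ hp.ne'
  have h2 : k % p < p := Int.emod_lt_of_pos _ hp
  obtain ⟨l, hl⟩ := Int.eq_ofNat_of_zero_le h1
  have hlp : l < p := by omega
  have h3 : w * (gb (BL L0) none ^ l)⁻¹ ∈ (Theta p L0).range := by
    have e : w * (gb (BL L0) none ^ l)⁻¹ =
        (w * gb (BL L0) none ^ (-k)) * (gb (BL L0) none ^ p) ^ (k / p) := by
      have e2 : k = l + p * (k / p) := by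
        rw [← hl]; exact (Int.emod_add_mul_ediv k p).symm
      have e3 : (gb (BL L0) none ^ l)⁻¹ = gb (BL L0) none ^ (-(l : ℤ)) := by simp
      rw [e3, mul_assoc, ← zpow_natCast, ← zpow_mul, ← zpow_add]
      congr 2
      linarith
    rw [e]
    exact Subgroup.mul_mem _ hk (Subgroup.zpow_mem _ (k3_bp p L0) _)
  obtain ⟨θ, hθ⟩ := h3
  exact ⟨⟨l, hlp⟩, θ, by rw [hθ]; group⟩

omit [DecidableEq κ] [NeZero p] in
theorem hd_lift (l : Fin p) (j : κ) (u : SG (BL L0)) (hu : u ∈ Hd L0 j) :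
    ∃ v ∈ Hd (CL p L0) (l, j), Theta p L0 v =
      gb (BL L0) none ^ (l : ℕ) * u * (gb (BL L0) none ^ (l : ℕ))⁻¹ := by
  unfold Hd at hu
  induction hu using Subgroup.closure_induction with
  | mem x hx =>
    rcases hx with rfl | hx
    · exact ⟨_, ga_mem _ _, k3_th_ai p L0 l j⟩
    · rw [Set.mem_singleton_iff] at hx
      subst hx
      exact ⟨_, gb_mem _ _, k3_th_bi p L0 l j⟩
  | one => exact ⟨1, Subgroup.one_mem _, by simp⟩
  | mul x y _ _ hx hy =>
    obtain ⟨v, hv, ev⟩ := hx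
    obtain ⟨v', hv', ev'⟩ := hy
    refine ⟨v * v', Subgroup.mul_mem _ hv hv', ?_⟩
    rw [map_mul, ev, ev']; group
  | inv x _ hx =>
    obtain ⟨v, hv, ev⟩ := hx
    refine ⟨v⁻¹, Subgroup.inv_mem _ hv, ?_⟩
    rw [map_inv, ev]; group

theorem pres_res (f : St0 p L0) (hf : Pres L0 f.1.1) : Pres (CL p L0) (res p L0 f).1 := by
  apply pres_of_gen
  rintro ⟨k, i⟩
  obtain ⟨j, γ, h⟩ := hf i
  obtain ⟨l, θ, hθ⟩ := form_fin p L0 (f.1.1 (gb (BL L0) none ^ (k : ℕ)) * γ)
  have key : ∀ (x : SG (BL L0)) (y : SG (BL (CL p L0))), x ∈ Hd L0 i →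
      Theta p L0 y = gb (BL L0) none ^ (k : ℕ) * x * (gb (BL L0) none ^ (k : ℕ))⁻¹ →
      θ⁻¹ * (res p L0 f).1 y * θ ∈ Hd (CL p L0) (l, j) := by
    intro x y hx hy
    obtain ⟨v, hv, ev⟩ := hd_lift p L0 l j _ (h x hx)
    have e : (res p L0 f).1 y = θ * v * θ⁻¹ := by
      apply Theta_injective p L0
      rw [res_spec, hy, map_mul, map_mul, map_inv, map_mul, map_mul, map_inv, ev]
      have e1 : f.1.1 (gb (BL L0) none ^ (k : ℕ)) =
          Theta p L0 θ * gb (BL L0) none ^ (l : ℕ) * γ⁻¹ := by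
        rw [← hθ]; group
      rw [e1]
      group
    rw [e]
    have e2 : θ⁻¹ * (θ * v * θ⁻¹) * θ = v := by group
    rw [e2]
    exact hv
  exact ⟨(l, j), θ, key _ _ (ga_mem L0 i) (k3_th_ai p L0 k i),
    key _ _ (gb_mem L0 i) (k3_th_bi p L0 k i)⟩

theorem res_PA (f : St0 p L0) (hf : f.1 ∈ PA L0) : res p L0 f ∈ PA (CL p L0) := by
  refine ⟨pres_res p L0 f hf.1, ?_⟩
  have h := pres_res p L0 f⁻¹ hf.2
  rw [map_inv] at h
  exact h

end res

end Pool.Agent.Lib.MP_6a1159_al
end

section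

/-! The homomorphisms to `ℤ/p` which kill the handles `some i`. -/

set_option autoImplicit false

namespace Pool.Agent.Lib.MP_6a1159_al

variable {κ : Type} [DecidableEq κ]

/-- The nontrivial homomorphisms to `ℤ/p` which kill the handles `some i`. -/
abbrev JJ (p : ℕ) (L0 : List κ) : Type := {c : SG (BL L0) →* Multiplicative (ZMod p) //
  c ≠ 1 ∧ ∀ i, c (ga _ (some i)) = 1 ∧ c (gb _ (some i)) = 1}

omit [DecidableEq κ] in
theorem kill_hd (p : ℕ) (L0 : List κ) (c : SG (BL L0) →* Multiplicative (ZMod p))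
    (hc : ∀ i, c (ga _ (some i)) = 1 ∧ c (gb _ (some i)) = 1) (i : κ) (w : SG (BL L0))
    (hw : w ∈ Hd L0 i) : c w = 1 := by
  have hle : Hd L0 i ≤ c.ker := by
    rw [Hd, Subgroup.closure_le]
    rintro x (rfl | hx)
    · exact (hc i).1
    · rw [Set.mem_singleton_iff] at hx
      subst hx
      exact (hc i).2
  exact hle hw

instance actJJ (p : ℕ) (L0 : List κ) : MulAction (PA L0) (JJ p L0) where
  smul α c := ⟨c.1.comp (α⁻¹ : PA L0).1.1.toMonoidHom, by
    constructor
    · intro h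
      apply c.2.1
      refine MonoidHom.ext fun w => ?_
      have h1 := DFunLike.congr_fun h (α.1.1 w)
      have h2 : c.1 ((α⁻¹ : PA L0).1.1 (α.1.1 w)) = 1 := h1
      have h3 : (α⁻¹ : PA L0).1.1 (α.1.1 w) = w := by
        show α.1.1⁻¹ (α.1.1 w) = w
        rw [MulAut.inv_apply_self]
      rw [h3] at h2
      rw [h2]
      rfl
    · intro i
      obtain ⟨j, γ, h⟩ := (α⁻¹ : PA L0).2.1 i
      have key : ∀ w ∈ Hd L0 i, c.1 ((α⁻¹ : PA L0).1.1 w) = 1 := by
        intro w hw
        have h1 := kill_hd p L0 c.1 c.2.2 j _ (h w hw)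
        rw [map_mul, map_mul, map_inv] at h1
        have h2 : c.1 ((α⁻¹ : PA L0).1.1 w) = c.1 γ * (c.1 γ)⁻¹ := by
          have h3 := eq_inv_of_mul_eq_one_left h1
          have h4 := eq_mul_inv_of_mul_eq h1
          rw [inv_mul_eq_iff_eq_mul] at h4
          rw [h4, one_mul]
        rw [h2, mul_inv_cancel]
      exact ⟨key _ (ga_mem L0 i), key _ (gb_mem L0 i)⟩⟩
  one_smul c := by
    apply Subtype.ext
    refine MonoidHom.ext fun w => ?_
    rfl
  mul_smul α β c := by
    apply Subtype.ext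
    refine MonoidHom.ext fun w => ?_
    rfl

omit [DecidableEq κ] in
theorem smulJ_apply (p : ℕ) (L0 : List κ) (α : PA L0) (c : JJ p L0) (w : SG (BL L0)) :
    (α • c).1 w = c.1 ((α⁻¹ : PA L0).1.1 w) := rfl

noncomputable instance (p : ℕ) (L0 : List κ) : DecidableEq (JJ p L0) := Classical.decEq _

omit [DecidableEq κ] in
theorem m2_symm (p : ℕ) (L0 : List κ) (f : Option κ × Bool → Multiplicative (ZMod p))
    (x : Option κ × Bool) :
    (m2_equiv p (BL L0)).symm f (proj _ (FreeGroup.of x)) = f x :=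
  congrFun ((m2_equiv p (BL L0)).apply_symm_apply f) x

/-- The values at `a` and `b`. -/
noncomputable def jEquiv (p : ℕ) (L0 : List κ) :
    JJ p L0 ≃ {v : Multiplicative (ZMod p) × Multiplicative (ZMod p) // v ≠ 1} where
  toFun c := ⟨(c.1 (ga _ none), c.1 (gb _ none)), by
    intro h
    apply c.2.1
    apply PresentedGroup.ext
    rintro ⟨_ | j, _ | _⟩
    · exact (Prod.ext_iff.1 h).1
    · exact (Prod.ext_iff.1 h).2
    · exact (c.2.2 j).1
    · exact (c.2.2 j).2⟩
  invFun v := ⟨(m2_equiv p (BL L0)).symm (fun x => match x with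
      | (none, false) => v.1.1
      | (none, true) => v.1.2
      | (some _, _) => 1), by
    have h : ∀ x, (m2_equiv p (BL L0)).symm (fun x => match x with
      | (none, false) => v.1.1
      | (none, true) => v.1.2
      | (some _, _) => 1) (proj _ (FreeGroup.of x)) = (match x with
      | (none, false) => v.1.1
      | (none, true) => v.1.2
      | (some _, _) => 1) := fun x => m2_symm p L0 _ x
    constructor
    · intro h0
      apply v.2
      have h1 := h (none, false)
      have h2 := h (none, true)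
      rw [h0] at h1 h2
      exact Prod.ext h1.symm h2.symm
    · intro i
      exact ⟨h (some i, false), h (some i, true)⟩⟩
  left_inv c := by
    apply Subtype.ext
    apply PresentedGroup.ext
    intro x
    have h : ∀ (f : Option κ × Bool → Multiplicative (ZMod p)) x,
      (m2_equiv p (BL L0)).symm f (proj _ (FreeGroup.of x)) = f x := fun f x =>
        congrFun ((m2_equiv p (BL L0)).apply_symm_apply f) x
    refine (h _ x).trans ?_
    obtain ⟨_ | j, _ | _⟩ := x
    · rfl
    · rfl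
    · exact (c.2.2 j).1.symm
    · exact (c.2.2 j).2.symm
  right_inv v := by
    have h : ∀ (f : Option κ × Bool → Multiplicative (ZMod p)) x,
      (m2_equiv p (BL L0)).symm f (proj _ (FreeGroup.of x)) = f x := fun f x =>
        congrFun ((m2_equiv p (BL L0)).apply_symm_apply f) x
    apply Subtype.ext
    exact Prod.ext (h _ (none, false)) (h _ (none, true))

noncomputable instance (p : ℕ) [NeZero p] (L0 : List κ) : Fintype (JJ p L0) :=
  Fintype.ofEquiv _ (jEquiv p L0).symm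

omit [DecidableEq κ] in
theorem sum_JJ (p : ℕ) [NeZero p] (L0 : List κ) (X Y : ℕ)
    [∀ c : JJ p L0, Decidable (c.1 (ga _ none) = 1)] :
    (∑ c : JJ p L0, if c.1 (ga _ none) = 1 then X else Y) = (p - 1) * X + (p * p - p) * Y := by
  classical
  have h1 : (∑ c : JJ p L0, if c.1 (ga _ none) = 1 then X else Y) =
      ∑ v : {v : Multiplicative (ZMod p) × Multiplicative (ZMod p) // v ≠ 1},
        if v.1.1 = 1 then X else Y :=
    Fintype.sum_equiv (jEquiv p L0) _ _ fun c => if_congr Iff.rfl rfl rfl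
  have h2 : (∑ v : {v : Multiplicative (ZMod p) × Multiplicative (ZMod p) // v ≠ 1},
        if v.1.1 = 1 then X else Y) = ∑ v ∈ (Finset.univ.erase
        (1 : Multiplicative (ZMod p) × Multiplicative (ZMod p))), if v.1 = 1 then X else Y :=
    (Finset.sum_subtype (Finset.univ.erase
        (1 : Multiplicative (ZMod p) × Multiplicative (ZMod p)))
      (fun v => by rw [Finset.mem_erase]; simp)
      (fun v : Multiplicative (ZMod p) × Multiplicative (ZMod p) =>
        if v.1 = 1 then X else Y)).symm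
  have h3 := Finset.add_sum_erase Finset.univ
    (fun v : Multiplicative (ZMod p) × Multiplicative (ZMod p) => if v.1 = 1 then X else Y)
    (Finset.mem_univ 1)
  have hp : 1 ≤ p := Nat.one_le_iff_ne_zero.2 (NeZero.ne p)
  have hcard : Fintype.card (Multiplicative (ZMod p)) = p := by
    rw [Fintype.card_multiplicative, ZMod.card]
  have h4 : (∑ v : Multiplicative (ZMod p) × Multiplicative (ZMod p),
      if v.1 = 1 then X else Y) = p * (X + (p - 1) * Y) := by
    rw [Fintype.sum_prod_type]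
    have h5 : ∀ x : Multiplicative (ZMod p), (∑ _y : Multiplicative (ZMod p),
        if x = 1 then X else Y) = p * (if x = 1 then X else Y) := by
      intro x
      rw [Finset.sum_const, Finset.card_univ, hcard, smul_eq_mul]
    simp only [h5]
    rw [← Finset.mul_sum]
    congr 1
    rw [Finset.sum_ite, Finset.sum_const, Finset.sum_const, smul_eq_mul, smul_eq_mul,
      Finset.filter_eq' Finset.univ (1 : Multiplicative (ZMod p)), if_pos (Finset.mem_univ _),
      Finset.card_singleton, one_mul, Finset.filter_ne' Finset.univ (1 : Multiplicative (ZMod p)),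
      Finset.card_erase_of_mem (Finset.mem_univ _), Finset.card_univ, hcard]
  rw [h1, h2]
  simp only [Prod.fst_one, if_true] at h3
  rw [h4] at h3
  obtain ⟨q, rfl⟩ : ∃ q, p = q + 1 := ⟨p - 1, by omega⟩
  have e1 : q + 1 - 1 = q := by omega
  have e2 : (q + 1) * (q + 1) - (q + 1) = (q + 1) * q := by
    rw [Nat.mul_succ, Nat.add_sub_cancel]
  rw [e1] at h3 ⊢
  rw [e2]
  nlinarith

omit [DecidableEq κ] in
theorem card_JJ (p : ℕ) [NeZero p] (L0 : List κ) : Fintype.card (JJ p L0) = p * p - 1 := by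
  classical
  have h := sum_JJ p L0 1 1
  simp only [ite_self, Finset.sum_const, Finset.card_univ, smul_eq_mul, mul_one] at h
  rw [h]
  have hp : 1 ≤ p := Nat.one_le_iff_ne_zero.2 (NeZero.ne p)
  have : p ≤ p * p := Nat.le_mul_of_pos_left p hp
  omega

end Pool.Agent.Lib.MP_6a1159_al
end

section

/-! The choice of the automorphisms `f` for the coverings which kill the handles. -/

set_option autoImplicit false

namespace Pool.Agent.Lib.MP_6a1159_al

variable {κ : Type} [DecidableEq κ]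

/-- Automorphisms of the free group which fix the handles induce elements of `PA`. -/
theorem toAut_PA (L0 : List κ) (e : StR (BL L0)) (h1 : ∀ j, e.1 (fa (some j)) = fa (some j))
    (h2 : ∀ j, e.1 (fb (some j)) = fb (some j)) : toAut (BL L0) e ∈ PA L0 := by
  apply fix_PA
  · intro j
    show (toAut (BL L0) e).1 (proj _ (fa (some j))) = proj _ (fa (some j))
    rw [toAut_proj, h1]
  · intro j
    show (toAut (BL L0) e).1 (proj _ (fb (some j))) = proj _ (fb (some j))
    rw [toAut_proj, h2]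

theorem rotE_sa (j : κ) : (rotE : MulAut (FreeGroup (Option κ × Bool))) (fa (some j)) =
    fa (some j) := a3_rot_sa j

theorem rotE_sb (j : κ) : (rotE : MulAut (FreeGroup (Option κ × Bool))) (fb (some j)) =
    fb (some j) := a3_rot_sb j

theorem twEp_sa (m : ℕ) (j : κ) : ((twE none : MulAut (FreeGroup (Option κ × Bool))) ^ m)
    (fa (some j)) = fa (some j) := by
  rw [twE_pow, twFree_a]

theorem twEp_sb (m : ℕ) (j : κ) : ((twE none : MulAut (FreeGroup (Option κ × Bool))) ^ m)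
    (fb (some j)) = fb (some j) := by
  rw [twE_pow, twFree_b_ne none (some j) _ (by simp)]

/-- Twist about `b` of the first handle. -/
noncomputable def twB (L0 : List κ) : AutPlus (BL L0) := toAut (BL L0) ⟨twE' none, twE'_mem none _⟩

theorem twB_PA (L0 : List κ) : twB L0 ∈ PA L0 := by
  apply toAut_PA
  · intro j
    have := twE'_pow (none : Option κ) 1 (fa (some j))
    rw [pow_one] at this
    show twE' none (fa (some j)) = _
    rw [this, twFree'_a_ne none (some j) _ (by simp)]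
  · intro j
    have := twE'_pow (none : Option κ) 1 (fb (some j))
    rw [pow_one] at this
    show twE' none (fb (some j)) = _
    rw [this, twFree'_b]

/-- The rotation. -/
noncomputable def rotA (L0 : List κ) : AutPlus (BL L0) := toAut (BL L0) ⟨rotE, rotE_mem L0⟩

theorem rotA_PA (L0 : List κ) : rotA L0 ∈ PA L0 := toAut_PA L0 _ rotE_sa rotE_sb

theorem rotA_conj (L0 : List κ) : (rotA L0)⁻¹ * twist (BL L0) none * rotA L0 = twB L0 := by
  unfold rotA twB
  rw [← toAut_twE, ← map_inv, ← map_mul, ← map_mul]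
  congr 1
  apply Subtype.ext
  exact rotE_conj

theorem exists_fP (p : ℕ) [Fact p.Prime] (L0 : List κ) (c : JJ p L0) :
    ∃ f : PA L0, (∀ w, c.1 (f.1.1 w) = 1 ↔ c0 p L0 w = 1) ∧
      (∀ i, Commute f.1 (twist (BL L0) (some i))) ∧
      ((c.1 (ga _ none) = 1 ∧ f.1⁻¹ * twist (BL L0) none * f.1 = twist (BL L0) none) ∨
        (c.1 (ga _ none) ≠ 1 ∧ f.1⁻¹ * twist (BL L0) none * f.1 = twB L0)) := by
  set c' : FreeGroup (Option κ × Bool) →* Multiplicative (ZMod p) :=
    c.1.comp (proj (BL L0)) with hc'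
  have hs : ∀ j : κ, c' (fa (some j)) = 1 ∧ c' (fb (some j)) = 1 := c.2.2
  by_cases ha : c.1 (ga _ none) = 1
  · have hb : c' (fb none) ≠ 1 := by
      intro hb
      apply c.2.1
      apply PresentedGroup.ext
      rintro ⟨_ | j, _ | _⟩
      · exact ha
      · exact hb
      · exact (hs j).1
      · exact (hs j).2
    refine ⟨1, ?_, fun i => Commute.one_left _, Or.inl ⟨ha, ?_⟩⟩
    · intro w
      obtain ⟨w, rfl⟩ := PresentedGroup.mk_surjective _ w
      show c' w = 1 ↔ c0 p L0 (proj _ w) = 1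
      rw [c0_proj]
      apply n3_iff c' hb
      rintro ⟨_ | j, _ | _⟩ hx
      · exact ha
      · exact absurd rfl hx
      · exact (hs j).1
      · exact (hs j).2
    · show (1 : AutPlus (BL L0))⁻¹ * _ * 1 = _
      rw [inv_one, one_mul, mul_one]
  · have ha' : c' (fa none) ≠ 1 := ha
    obtain ⟨m, hm⟩ := n1_exp (c' (fb none)) (c' (fa none)) ha'
    set e : MulAut (FreeGroup (Option κ × Bool)) := twE none ^ m * rotE with he
    have hemem : e ∈ StR (BL L0) := mul_mem (pow_mem (twE_mem none _) m) (rotE_mem L0)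
    have hea : ∀ j, e (fa (some j)) = fa (some j) := by
      intro j
      rw [he, MulAut.mul_apply, rotE_sa, twEp_sa]
    have heb : ∀ j, e (fb (some j)) = fb (some j) := by
      intro j
      rw [he, MulAut.mul_apply, rotE_sb, twEp_sb]
    have hf : toAut (BL L0) ⟨e, hemem⟩ ∈ PA L0 := toAut_PA L0 _ hea heb
    refine ⟨⟨toAut (BL L0) ⟨e, hemem⟩, hf⟩, ?_, ?_, Or.inr ⟨ha, ?_⟩⟩
    · intro w
      obtain ⟨w, rfl⟩ := PresentedGroup.mk_surjective _ w
      have h1 := toAut_proj (BL L0) ⟨e, hemem⟩ w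
      have h2 : c.1 ((toAut (BL L0) ⟨e, hemem⟩).1 (proj (BL L0) w)) = c' (e w) := by
        rw [h1]
        rfl
      rw [show (PresentedGroup.mk ({relator (BL L0)} : Set (FreeGroup (Option κ × Bool)))) w =
        proj (BL L0) w from rfl, h2, c0_proj]
      have h3 := n3_rot (c'.comp ((twE none : MulAut (FreeGroup (Option κ × Bool))) ^ m).toMonoidHom)
        (by
          show c' (((twE none : MulAut (FreeGroup (Option κ × Bool))) ^ m) (fa none)) ≠ 1
          rw [twE_pow, twFree_a]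
          exact ha')
        (by
          show c' (((twE none : MulAut (FreeGroup (Option κ × Bool))) ^ m) (fb none)) = 1
          rw [twE_pow, twFree_b, map_mul, map_zpow, zpow_natCast]
          exact hm)
        (by
          intro j
          show c' (((twE none : MulAut (FreeGroup (Option κ × Bool))) ^ m) (fa (some j))) = 1 ∧
            c' (((twE none : MulAut (FreeGroup (Option κ × Bool))) ^ m) (fb (some j))) = 1
          rw [twEp_sa, twEp_sb]
          exact hs j) w
      exact h3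
    · intro i
      have h1 : Commute (⟨e, hemem⟩ : StR (BL L0)) ⟨twE (some i), twE_mem (some i) _⟩ := by
        apply Subtype.ext
        show e * twE (some i) = twE (some i) * e
        exact ((twE_comm_twE (none : Option κ) (some i)).pow_left m).mul_left (rotE_comm i)
      have h2 := h1.map (toAut (BL L0))
      rw [toAut_twE] at h2
      exact h2
    · show (toAut (BL L0) ⟨e, hemem⟩)⁻¹ * twist (BL L0) none * toAut (BL L0) ⟨e, hemem⟩ = twB L0
      unfold twB
      rw [← toAut_twE, ← map_inv, ← map_mul, ← map_mul]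
      congr 1
      apply Subtype.ext
      show e⁻¹ * twE none * e = twE' none
      rw [← rotE_conj, he]
      group

end Pool.Agent.Lib.MP_6a1159_al
end

section

/-! Lifts of Dehn twists to the cyclic covering, inside the group of the mapping classes which
preserve the handles. -/

set_option autoImplicit false

namespace Pool.Agent.Lib.MP_6a1159_al

section CPH

variable {M : Type} [Group M]

/-- `u` is a product of `r` conjugates, by elements of `H`, of powers of `t` of total exponent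
`e`. -/
def CPH (H : Subgroup M) (t : M) (r e : ℕ) (u : M) : Prop :=
  ∃ l : List (M × ℕ), (∀ q ∈ l, q.1 ∈ H) ∧ l.length = r ∧ (l.map Prod.snd).sum = e ∧
    u = (l.map fun q => q.1 * t ^ q.2 * q.1⁻¹).prod

theorem CPH_single {H : Subgroup M} (t c : M) (e : ℕ) (hc : c ∈ H) :
    CPH H t 1 e (c * t ^ e * c⁻¹) :=
  ⟨[(c, e)], by simpa using hc, rfl, by simp, by simp⟩

theorem CPH_mul {H : Subgroup M} {t : M} {r e r' e' : ℕ} {u u' : M} (h : CPH H t r e u)
    (h' : CPH H t r' e' u') : CPH H t (r + r') (e + e') (u * u') := by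
  obtain ⟨l, h0, h1, h2, rfl⟩ := h
  obtain ⟨l', h0', h1', h2', rfl⟩ := h'
  refine ⟨l ++ l', ?_, by simp [h1, h1'], by simp [h2, h2'], by simp⟩
  intro q hq
  rcases List.mem_append.1 hq with h | h
  · exact h0 q h
  · exact h0' q h

theorem CPH_toCP {H : Subgroup M} {t u : M} (ht : t ∈ H) (hu : u ∈ H) {r e : ℕ}
    (h : CPH H t r e u) : CP (⟨t, ht⟩ : H) r e ⟨u, hu⟩ := by
  obtain ⟨l, h0, h1, h2, h3⟩ := h
  have key : ∀ l : List (M × ℕ), (∀ q ∈ l, q.1 ∈ H) → ∃ l' : List (H × ℕ),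
      l'.length = l.length ∧ (l'.map Prod.snd).sum = (l.map Prod.snd).sum ∧
      (((l'.map fun q => q.1 * (⟨t, ht⟩ : H) ^ q.2 * q.1⁻¹).prod : H) : M) =
        (l.map fun q => q.1 * t ^ q.2 * q.1⁻¹).prod := by
    intro l
    induction l with
    | nil => exact fun _ => ⟨[], rfl, rfl, rfl⟩
    | cons q l ih =>
      intro h
      obtain ⟨l', e1, e2, e3⟩ := ih fun q' hq' => h q' (by simp [hq'])
      refine ⟨(⟨q.1, h q (by simp)⟩, q.2) :: l', by simp [e1], by simp [e2], ?_⟩
      rw [List.map_cons, List.prod_cons, Subgroup.coe_mul, e3, List.map_cons, List.prod_cons]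
      rfl
  obtain ⟨l', e1, e2, e3⟩ := key l h0
  refine ⟨l', by rw [e1, h1], by rw [e2, h2], ?_⟩
  apply Subtype.ext
  rw [e3]
  exact h3

end CPH

variable {κ : Type} [DecidableEq κ]

/-- The mapping classes which preserve the handles. -/
def PMs (L0 : List κ) : Subgroup (Mod (BL L0)) := (PA L0).map (QuotientGroup.mk' (Inn (BL L0)))

omit [DecidableEq κ] in
theorem mk_mem_PMs (L0 : List κ) (f : AutPlus (BL L0)) (hf : f ∈ PA L0) :
    (QuotientGroup.mk f : Mod (BL L0)) ∈ PMs L0 := ⟨f, hf, rfl⟩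

variable (p : ℕ) [NeZero p] (L0 : List κ)

theorem rM_mem (f : St0 p L0) (hf : f.1 ∈ PA L0) : rM p L0 f ∈ PMs (CL p L0) :=
  mk_mem_PMs _ _ (res_PA p L0 f hf)

theorem rM_cb_mem : rM p L0 (cb p L0) ∈ PMs (CL p L0) := rM_mem p L0 _ (conj_PA L0 _)

/-- The product of the `U_1, ..., U_j`. -/
theorem r6_VH (m j : ℕ) (hjp : j < p) : ∃ V : AutPlus (BL (CL p L0)),
    CPH (PMs (CL p L0)) (tw (BL (CL p L0)) none) j (j * m) (QuotientGroup.mk V : Mod (BL (CL p L0))) ∧
    (∀ y ∈ Subgroup.closure (r6S p L0 j), Theta p L0 (V.1 y) =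
      (twist (BL L0) none ^ m).1 (Theta p L0 y)) ∧
    Theta p L0 (V.1 (gb _ none)) = (gb (BL L0) none * ga (BL L0) none ^ m) ^ j *
      (gb (BL L0) none ^ j)⁻¹ * gb (BL L0) none ^ p ∧
    ∀ (k : Fin p) (i : κ), j ≤ (k : ℕ) →
      Theta p L0 (V.1 (ga _ (some (k, i)))) =
        ((gb (BL L0) none * ga (BL L0) none ^ m) ^ j * (gb (BL L0) none ^ j)⁻¹) *
          Theta p L0 (ga _ (some (k, i))) *
          ((gb (BL L0) none * ga (BL L0) none ^ m) ^ j * (gb (BL L0) none ^ j)⁻¹)⁻¹ ∧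
      Theta p L0 (V.1 (gb _ (some (k, i)))) =
        ((gb (BL L0) none * ga (BL L0) none ^ m) ^ j * (gb (BL L0) none ^ j)⁻¹) *
          Theta p L0 (gb _ (some (k, i))) *
          ((gb (BL L0) none * ga (BL L0) none ^ m) ^ j * (gb (BL L0) none ^ j)⁻¹)⁻¹ := by
  induction j with
  | zero =>
    refine ⟨1, ⟨[], by simp, rfl, by simp, by simp⟩, ?_, ?_, ?_⟩
    · intro y hy
      have h : Set.EqOn (Theta p L0) ((twist (BL L0) none ^ m).1.toMonoidHom.comp (Theta p L0))
          (Subgroup.closure (r6S p L0 0)) := by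
        apply MonoidHom.eqOn_closure
        rintro y (rfl | ⟨k, i, hk, rfl | rfl⟩)
        · show Theta p L0 _ = (twist (BL L0) none ^ m).1 (Theta p L0 _)
          rw [r6_th_a, r6_tw_a]
        · show Theta p L0 _ = (twist (BL L0) none ^ m).1 (Theta p L0 _)
          rw [r6_th_ai, show (k : ℕ) = 0 by omega]
          simp only [pow_zero, one_mul, inv_one, mul_one, r6_tw_a]
        · show Theta p L0 _ = (twist (BL L0) none ^ m).1 (Theta p L0 _)
          rw [r6_th_bi, show (k : ℕ) = 0 by omega]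
          simp only [pow_zero, one_mul, inv_one, mul_one]
          rw [r6_tw_b_ne _ _ _ _ (by simp)]
      exact h hy
    · show Theta p L0 (gb _ none) = _
      rw [r6_th_b]; simp
    · intro k i _
      constructor
      · show Theta p L0 (ga _ _) = _
        simp
      · show Theta p L0 (gb _ _) = _
        simp
  | succ j ih =>
    obtain ⟨V, hCP, h1, h2, h3⟩ := ih (by omega)
    obtain ⟨U, hU, hUa, hUb, hUk⟩ := exists_U p L0 m (j + 1) (by omega) hjp
    obtain ⟨x, hx, hxe⟩ := r6_x p L0 j (by omega)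
    set a := ga (BL L0) none with ha
    set b := gb (BL L0) none with hb
    -- the image of `x ^ m`
    have hxm : Theta p L0 (x ^ m) = b ^ (j + 1) * a ^ m * (b ^ (j + 1))⁻¹ := by
      rw [map_pow, hxe, conj_pow]
    have hVx : Theta p L0 (V.1 (x ^ m)) = (b * a ^ m) ^ (j + 1) * a ^ m *
        ((b * a ^ m) ^ (j + 1))⁻¹ := by
      rw [h1 _ (Subgroup.pow_mem _ hx m), hxm, map_mul, map_mul, map_inv, map_pow, map_pow,
        r6_tw_b, r6_tw_a]
    have key : (b * a ^ m) ^ (j + 1) * a ^ m * ((b * a ^ m) ^ (j + 1))⁻¹ *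
        ((b * a ^ m) ^ j * (b ^ j)⁻¹) = (b * a ^ m) ^ (j + 1) * (b ^ (j + 1))⁻¹ := by
      rw [pow_succ (b * a ^ m) j, pow_succ b j]
      group
    have hconj : ∀ (k : Fin p) (y : SG (BL (CL p L0))), Theta p L0 (U.1 y) =
        (b ^ (j + 1) * a ^ m * (b ^ (j + 1))⁻¹) * Theta p L0 y *
          (b ^ (j + 1) * a ^ m * (b ^ (j + 1))⁻¹)⁻¹ →
        Theta p L0 (V.1 y) = ((b * a ^ m) ^ j * (b ^ j)⁻¹) * Theta p L0 y *
          ((b * a ^ m) ^ j * (b ^ j)⁻¹)⁻¹ →
        Theta p L0 ((V * U).1 y) = ((b * a ^ m) ^ (j + 1) * (b ^ (j + 1))⁻¹) *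
          Theta p L0 y * ((b * a ^ m) ^ (j + 1) * (b ^ (j + 1))⁻¹)⁻¹ := by
      intro k y hy hV
      have e : U.1 y = x ^ m * y * (x ^ m)⁻¹ := by
        apply Theta_injective p L0
        rw [hy, map_mul, map_mul, map_inv, hxm]
      show Theta p L0 (V.1 (U.1 y)) = _
      rw [e, map_mul, map_mul, map_inv, map_mul, map_mul, map_inv, hVx, hV, ← key]
      group
    refine ⟨V * U, ?_, ?_, ?_, ?_⟩
    · have := CPH_mul hCP (CPH_single (tw (BL (CL p L0)) none) (rM p L0 (cb p L0) ^ (j + 1)) m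
        (Subgroup.pow_mem _ (rM_cb_mem p L0) _))
      rw [← hU, ← QuotientGroup.mk_mul] at this
      rw [Nat.succ_mul]
      exact this
    · have h : Set.EqOn ((Theta p L0).comp (V * U).1.toMonoidHom)
          ((twist (BL L0) none ^ m).1.toMonoidHom.comp (Theta p L0))
          (Subgroup.closure (r6S p L0 (j + 1))) := by
        apply MonoidHom.eqOn_closure
        rintro y (rfl | ⟨k, i, hk, hy⟩)
        · show Theta p L0 (V.1 (U.1 (ga _ none))) = (twist (BL L0) none ^ m).1 (Theta p L0 _)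
          rw [hUa, h1 _ (Subgroup.subset_closure (Or.inl rfl))]
        · show Theta p L0 (V.1 (U.1 _)) = (twist (BL L0) none ^ m).1 (Theta p L0 _)
          rcases Nat.lt_or_ge (k : ℕ) (j + 1) with hlt | hge
          · have hm : y ∈ Subgroup.closure (r6S p L0 j) :=
              Subgroup.subset_closure (Or.inr ⟨k, i, by omega, hy⟩)
            have hUy : U.1 y = y := by
              rcases hy with rfl | rfl
              · exact ((hUk k i).1 hlt).1
              · exact ((hUk k i).1 hlt).2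
            rw [hUy, h1 _ hm]
          · have hk' : (k : ℕ) = j + 1 := by omega
            rcases hy with rfl | rfl
            · have := hconj k _ ((hUk k i).2 hge).1 (h3 k i (by omega)).1
              have h' : Theta p L0 (V.1 (U.1 (ga _ (some (k, i))))) = _ := this
              rw [h', r6_th_ai, hk', map_mul, map_mul, map_inv, map_pow, r6_tw_b, r6_tw_a,
                ← hb, ← ha]
              group
            · have := hconj k _ ((hUk k i).2 hge).2 (h3 k i (by omega)).2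
              have h' : Theta p L0 (V.1 (U.1 (gb _ (some (k, i))))) = _ := this
              rw [h', r6_th_bi, hk', map_mul, map_mul, map_inv, map_pow, r6_tw_b,
                r6_tw_b_ne _ _ _ _ (by simp), ← hb, ← ha]
              group
      intro y hy
      exact h hy
    · have e : U.1 (gb _ none) = x ^ m * gb _ none := by
        apply Theta_injective p L0
        rw [hUb, map_mul, hxm, r6_th_b]
      show Theta p L0 (V.1 (U.1 (gb _ none))) = _
      rw [e, map_mul, map_mul, hVx, h2, ← key]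
      group
    · intro k i hk
      exact ⟨hconj k _ ((hUk k i).2 hk).1 (h3 k i (by omega)).1,
        hconj k _ ((hUk k i).2 hk).2 (h3 k i (by omega)).2⟩

/-- Type B: the twist about `a` restricts to the product of the twists about the `p` lifts
`x_0, ..., x_(p-1)` of `a`. -/
theorem rM_BH (m : ℕ) (f : St0 p L0) (hf : f.1 = twist (BL L0) none ^ m) :
    CPH (PMs (CL p L0)) (tw (BL (CL p L0)) none) p (p * m) (rM p L0 f) := by
  have hp : 1 ≤ p := Nat.one_le_iff_ne_zero.2 (NeZero.ne p)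
  obtain ⟨V, hCP, h1, h2, h3⟩ := r6_VH p L0 m (p - 1) (by omega)
  have hall : ∀ k : Fin p, (k : ℕ) ≤ p - 1 := fun k => by omega
  have hres : res p L0 f = V * twist (BL (CL p L0)) none ^ m := by
    apply res_eq
    · intro i
      rw [hf]
      show Theta p L0 (V.1 ((twist (BL (CL p L0)) none ^ m).1 (ga _ i))) = _
      rw [r6_tw_a]
      apply h1
      apply Subgroup.subset_closure
      cases i with
      | none => exact Or.inl rfl
      | some q => exact Or.inr ⟨q.1, q.2, hall _, Or.inl rfl⟩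
    · intro i
      rw [hf]
      show Theta p L0 (V.1 ((twist (BL (CL p L0)) none ^ m).1 (gb _ i))) = _
      cases i with
      | none =>
        have h0 : ga (BL (CL p L0)) none ∈ Subgroup.closure (r6S p L0 (p - 1)) :=
          Subgroup.subset_closure (Or.inl rfl)
        have hm : ga (BL (CL p L0)) none ^ m ∈ Subgroup.closure (r6S p L0 (p - 1)) :=
          Subgroup.pow_mem _ h0 m
        rw [r6_tw_b, map_mul, map_mul, h2, h1 _ hm, map_pow, map_pow, r6_th_a, r6_th_b, r6_tw_a,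
          map_pow, r6_tw_b]
        obtain ⟨n, rfl⟩ : ∃ n, p = n + 1 := ⟨p - 1, by omega⟩
        simp only [Nat.add_sub_cancel]
        rw [pow_succ (gb (BL L0) none) n, pow_succ (gb (BL L0) none * ga (BL L0) none ^ m) n]
        group
      | some q =>
        rw [r6_tw_b_ne _ _ _ _ (by simp)]
        apply h1
        apply Subgroup.subset_closure
        exact Or.inr ⟨q.1, q.2, hall _, Or.inr rfl⟩
  have hM : rM p L0 f = (QuotientGroup.mk V : Mod (BL (CL p L0))) *
      tw (BL (CL p L0)) none ^ m := by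
    show (QuotientGroup.mk (res p L0 f) : Mod (BL (CL p L0))) = _
    rw [hres]
    rfl
  rw [hM]
  have := CPH_mul hCP (CPH_single (tw (BL (CL p L0)) none) (1 : Mod (BL (CL p L0))) m
    (Subgroup.one_mem _))
  rw [one_mul, inv_one, mul_one] at this
  rw [show p - 1 + 1 = p by omega, show (p - 1) * m + m = p * m by
    obtain ⟨n, rfl⟩ : ∃ n, p = n + 1 := ⟨p - 1, by omega⟩
    simp only [Nat.add_sub_cancel]; ring] at this
  exact this


/-- Type A. -/
theorem rM_AH (m : ℕ) (f : St0 p L0) (hf : f.1 = twB L0 ^ (p * m)) :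
    CPH (PMs (CL p L0)) (tw (BL (CL p L0)) none) 1 m (rM p L0 f) := by
  have hF : ∀ w, f.1.1 (proj (BL L0) w) = proj (BL L0) (twFree' none ((p * m : ℕ) : ℤ) w) := by
    intro w
    rw [hf]
    exact r3_toAut_pow (BL L0) (p * m) w
  have h1 : res p L0 f = twB (CL p L0) ^ m := by
    unfold twB
    apply res_eq
    · intro i
      show Theta p L0 ((toAut (BL (CL p L0)) ⟨twE' none, twE'_mem none _⟩ ^ m).1
        (proj _ (fa i))) = f.1.1 (Theta p L0 (proj _ (fa i)))
      rw [r3_toAut_pow, Theta_proj, Theta_proj, hF]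
      congr 1
      rcases i with _ | q
      · simp only [twFree'_a, map_mul, map_zpow, r3_th_a_none, r3_th_b_none]
        rw [← zpow_natCast, ← zpow_mul]
        push_cast
        congr 2
        ring
      · rw [twFree'_a_ne none (some q) _ (by simp)]
        simp only [r3_th_a_some, map_mul, map_pow, map_inv, twFree'_b,
          twFree'_a_ne none (some q.2) _ (by simp : some q.2 ≠ none)]
    · intro i
      show Theta p L0 ((toAut (BL (CL p L0)) ⟨twE' none, twE'_mem none _⟩ ^ m).1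
        (proj _ (fb i))) = f.1.1 (Theta p L0 (proj _ (fb i)))
      rw [r3_toAut_pow, Theta_proj, Theta_proj, hF, twFree'_b]
      congr 1
      rcases i with _ | q
      · simp only [r3_th_b_none, map_pow, twFree'_b]
      · simp only [r3_th_b_some, map_mul, map_pow, map_inv, twFree'_b]
  have h2 : rM p L0 f = (QuotientGroup.mk (rotA (CL p L0))⁻¹ : Mod (BL (CL p L0))) *
      tw (BL (CL p L0)) none ^ m *
      (QuotientGroup.mk (rotA (CL p L0))⁻¹ : Mod (BL (CL p L0)))⁻¹ := by
    show (QuotientGroup.mk (res p L0 f) : Mod (BL (CL p L0))) = _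
    rw [h1, ← rotA_conj]
    have e : ((rotA (CL p L0))⁻¹ * twist (BL (CL p L0)) none * rotA (CL p L0)) ^ m =
        (rotA (CL p L0))⁻¹ * twist (BL (CL p L0)) none ^ m * ((rotA (CL p L0))⁻¹)⁻¹ := by
      rw [← conj_pow, inv_inv]
    rw [e]
    rfl
  rw [h2]
  exact CPH_single _ _ _ (mk_mem_PMs _ _ (Subgroup.inv_mem _ (rotA_PA _)))

end Pool.Agent.Lib.MP_6a1159_al
end

section

/-! The transfer of the relative inequality to the `p`-fold coverings. -/

set_option autoImplicit false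

namespace Pool.Agent.Lib.MP_6a1159_al

variable {κ : Type} [DecidableEq κ]

/-- The product of the twists about the curves `a_i` of the handles `some i`. -/
noncomputable def HT (L0 : List κ) : AutPlus (BL L0) :=
  ((L0.map some).map fun i => twist (BL L0) i).prod

theorem twist_comm {ι : Type} [DecidableEq ι] (L : List ι) (i j : ι) :
    Commute (twist L i) (twist L j) := by
  have h1 : Commute (⟨twE i, twE_mem i L⟩ : StR L) ⟨twE j, twE_mem j L⟩ :=
    Subtype.ext (twE_comm_twE i j)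
  have h2 := h1.map (toAut L)
  rw [toAut_twE, toAut_twE] at h2
  exact h2

theorem HT_pow (L0 : List κ) (m : ℕ) :
    HT L0 ^ m = ((L0.map some).map fun i => twist (BL L0) i ^ m).prod := by
  unfold HT
  apply list_pow
  exact List.pairwise_of_forall fun i j => twist_comm _ _ _

theorem HT_PA (L0 : List κ) : HT L0 ∈ PA L0 := by
  unfold HT
  apply Subgroup.list_prod_mem
  intro x hx
  obtain ⟨i, hi, rfl⟩ := List.mem_map.1 hx
  obtain ⟨j, _, rfl⟩ := List.mem_map.1 hi
  exact twist_some_PA L0 j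

theorem HT_comm (L0 : List κ) (x : AutPlus (BL L0))
    (h : ∀ i, Commute x (twist (BL L0) (some i))) : Commute x (HT L0) := by
  unfold HT
  apply Commute.list_prod_right
  intro y hy
  obtain ⟨i, hi, rfl⟩ := List.mem_map.1 hy
  obtain ⟨j, _, rfl⟩ := List.mem_map.1 hi
  exact h j

/-- The chain `t_a - ∑ t_(a_i)`. -/
noncomputable def zA (L0 : List κ) : AutPlus (BL L0) := twist (BL L0) none * (HT L0)⁻¹

theorem zA_PA (L0 : List κ) : zA L0 ∈ PA L0 :=
  Subgroup.mul_mem _ (twist_none_PA L0) (Subgroup.inv_mem _ (HT_PA L0))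

theorem zA_comm (L0 : List κ) : Commute (twist (BL L0) none) (HT L0) :=
  HT_comm L0 _ fun _ => twist_comm _ _ _

theorem zA_pow (L0 : List κ) (m : ℕ) :
    zA L0 ^ m = twist (BL L0) none ^ m * (HT L0 ^ m)⁻¹ := by
  unfold zA
  rw [(zA_comm L0).inv_right.mul_pow, inv_pow]

theorem zA_pow_p (p : ℕ) [Fact p.Prime] (L0 : List κ) (c : SG (BL L0) →* Multiplicative (ZMod p))
    (w : SG (BL L0)) : c ((zA L0 ^ p).1 w) = c w := by
  have h1 : ∀ (l : List (Option κ)) (w : SG (BL L0)),
      c (((l.map fun i => twist (BL L0) i ^ p).prod).1 w) = c w := by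
    intro l
    induction l with
    | nil => intro w; rfl
    | cons i l ih =>
      intro w
      rw [List.map_cons, List.prod_cons]
      show c ((twist (BL L0) i ^ p).1 ((((l.map fun i => twist (BL L0) i ^ p).prod).1 w))) = c w
      rw [twist_pow_p, ih]
  have h2 : ∀ w, c ((HT L0 ^ p).1 w) = c w := by
    intro w
    rw [HT_pow]
    exact h1 _ w
  rw [zA_pow]
  show c ((twist (BL L0) none ^ p).1 ((HT L0 ^ p).1⁻¹ w)) = c w
  rw [twist_pow_p, ← h2 ((HT L0 ^ p).1⁻¹ w)]
  congr 1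
  rw [MulAut.apply_inv_self]

/-- The projection to the mapping classes which preserve the handles. -/
noncomputable def piP (L0 : List κ) : PA L0 →* PMs L0 :=
  (QuotientGroup.mk' (Inn (BL L0))).subgroupMap (PA L0)

omit [DecidableEq κ] in
theorem piP_surj (L0 : List κ) : Function.Surjective (piP L0) :=
  (QuotientGroup.mk' (Inn (BL L0))).subgroupMap_surjective (PA L0)

omit [DecidableEq κ] in
theorem piP_val (L0 : List κ) (x : PA L0) :
    ((piP L0 x : PMs L0) : Mod (BL L0)) = QuotientGroup.mk x.1 := rfl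

theorem ipc_lift' {G H : Type} [Group G] [Group H] (φ : G →* H) (hφ : Function.Surjective φ)
    {k : ℕ} {x : G} (hx : IsProdComm k (φ x)) : ∃ n ∈ φ.ker, IsProdComm k (x * n) := by
  obtain ⟨y, z, h⟩ := hx
  choose y' hy' using fun i => hφ (y i)
  choose z' hz' using fun i => hφ (z i)
  refine ⟨x⁻¹ * (List.ofFn fun i => y' i * z' i * (y' i)⁻¹ * (z' i)⁻¹).prod, ?_, y', z', ?_⟩
  · rw [MonoidHom.mem_ker, map_mul, map_inv, h, map_list_prod, List.map_ofFn]
    have e : (φ ∘ fun i => y' i * z' i * (y' i)⁻¹ * (z' i)⁻¹) =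
        fun i => y i * z i * (y i)⁻¹ * (z i)⁻¹ := by
      funext i
      simp only [Function.comp_apply, map_mul, map_inv, hy', hz']
    rw [e, inv_mul_cancel]
  · rw [mul_inv_cancel_left]

omit [DecidableEq κ] in
theorem pow_liftP (L0 : List κ) (p : ℕ) (x : PA L0)
    (hx : ∀ (c : SG (BL L0) →* Multiplicative (ZMod p)) (w : SG (BL L0)),
      c ((x ^ p).1.1 w) = c w)
    (n k : ℕ) (h : IsProdComm k (piP L0 x ^ n)) (j : ℕ) :
    ∃ (V : PA L0) (γ : SG (BL L0)), IsProdComm (p * p * k * j) V ∧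
      V.1.1 = (x ^ (n * p * p * j)).1.1 * MulAut.conj γ ∧
      ∀ c : SG (BL L0) →* Multiplicative (ZMod p), c γ = 1 := by
  rw [← map_pow] at h
  obtain ⟨N, hN, hV0⟩ := ipc_lift' (piP L0) (piP_surj L0) h
  have hN' : (QuotientGroup.mk N.1 : Mod (BL L0)) = 1 :=
    congrArg (Subtype.val : PMs L0 → Mod (BL L0)) hN
  rw [QuotientGroup.eq_one_iff] at hN'
  obtain ⟨γ0, hγ0⟩ := hN'
  have hγ0' : MulAut.conj γ0 = N.1.1 := hγ0
  obtain ⟨γ1, h1, h1c⟩ := m1_pow (BL L0) p (x.1.1 ^ n) γ0 p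
  obtain ⟨γ2, h2, h2c⟩ := m1_pow (BL L0) p ((x.1.1 ^ n) ^ p) γ1 (p * j)
  refine ⟨((x ^ n * N) ^ p) ^ (p * j), γ2, ?_, ?_, ?_⟩
  · have := ipc_pow (ipc_pow hV0 p) (p * j)
    have e : p * j * (p * k) = p * p * k * j := by ring
    rwa [e] at this
  · show (((x.1.1 ^ n * N.1.1) ^ p) ^ (p * j)) = x.1.1 ^ (n * p * p * j) * MulAut.conj γ2
    rw [← hγ0', h1, h2, ← pow_mul, ← pow_mul]
    congr 2
    ring
  · intro c
    have hc : ∀ w, c (((x.1.1 ^ n) ^ p) w) = c w := by
      intro w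
      have e : (x.1.1 ^ n) ^ p = (x.1.1 ^ p) ^ n := by
        rw [← pow_mul, ← pow_mul, mul_comm]
      rw [e]
      exact m1_inv_pow (BL L0) p (x.1.1 ^ p) c (hx c) n w
    rw [h2c c hc, pow_mul]
    have e1 : c γ1 ^ p = 1 := by
      apply Multiplicative.toAdd.injective
      rw [toAdd_pow, toAdd_one, nsmul_eq_mul, CharP.cast_eq_zero, zero_mul]
    rw [e1, one_pow]

section

variable (p : ℕ) [NeZero p] (L0 : List κ)

/-- The lift of the product of the twists about the handles. -/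
theorem res_HT (hn : L0.Nodup) (hc : ∀ k, k ∈ L0) (m : ℕ) (f : St0 p L0)
    (hf : f.1 = HT L0 ^ m) : res p L0 f = HT (CL p L0) ^ m := by
  have hnS : (L0.map (some : κ → Option κ)).Nodup := hn.map (Option.some_injective κ)
  have hnC : ((CL p L0).map (some : Fin p × κ → Option (Fin p × κ))).Nodup :=
    (CL_nodup p L0 hn).map (Option.some_injective _)
  have ha : ∀ i, f.1.1 (ga _ i) = ga _ i := by
    intro i
    rw [hf, HT_pow]
    exact r4_prod_a _ _ _ _
  have hb0 : f.1.1 (gb _ none) = gb _ none := by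
    rw [hf, HT_pow]
    exact r4_prod_b_not _ _ _ _ (by simp)
  have hbi : ∀ i, f.1.1 (gb _ (some i)) = gb _ (some i) * ga _ (some i) ^ m := by
    intro i
    rw [hf, HT_pow]
    exact r4_prod_b _ _ hnS m _ (List.mem_map.2 ⟨i, hc i, rfl⟩)
  rw [HT_pow]
  apply res_eq
  · intro z
    rw [r4_prod_a]
    rcases z with _ | ⟨k, l⟩
    · rw [r4_Theta_a0, ha]
    · rw [r4_Theta_a, map_mul, map_mul, map_inv, map_pow, hb0, ha]
  · intro z
    rcases z with _ | ⟨k, l⟩
    · rw [r4_prod_b_not _ _ _ _ (by simp), r4_Theta_b0, map_pow, hb0]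
    · rw [r4_prod_b _ _ hnC m _ (List.mem_map.2 ⟨(k, l), CL_mem p L0 hc _, rfl⟩), map_mul,
        map_pow, r4_Theta_b, r4_Theta_a, map_mul, map_mul, map_inv, map_pow, hb0, hbi]
      have hpow : ∀ (u v : SG (BL L0)), (u * v * u⁻¹) ^ m = u * v ^ m * u⁻¹ := by
        intro u v
        rw [← MulAut.conj_apply, ← MulAut.conj_apply, map_pow]
      rw [hpow]
      simp only [mul_assoc, inv_mul_cancel_left]

/-- The elements of `PA` which lift. -/
def StP : Subgroup (PA L0) := (St0 p L0).comap (PA L0).subtype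

/-- The lift. -/
noncomputable def rP : StP p L0 →* PMs (CL p L0) where
  toFun f := ⟨rM p L0 ⟨f.1.1, f.2⟩, rM_mem p L0 _ f.1.2⟩
  map_one' := by
    apply Subtype.ext
    exact (rM p L0).map_one
  map_mul' f g := by
    apply Subtype.ext
    exact (rM p L0).map_mul ⟨f.1.1, f.2⟩ ⟨g.1.1, g.2⟩

/-- The class of the twist about `a`. -/
noncomputable def T0 (L0 : List κ) : PMs L0 := ⟨tw (BL L0) none, mk_mem_PMs _ _ (twist_none_PA L0)⟩

/-- The class of the product of the twists about the handles. -/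
noncomputable def HP (L0 : List κ) : PMs L0 := ⟨QuotientGroup.mk (HT L0), mk_mem_PMs _ _ (HT_PA L0)⟩

/-- The class of the chain. -/
noncomputable def zP (L0 : List κ) : PMs L0 := piP L0 ⟨zA L0, zA_PA L0⟩

omit [NeZero p] in
theorem zP_eq : zP L0 = T0 L0 * (HP L0)⁻¹ := rfl

omit [NeZero p] in
theorem T0_comm : Commute (T0 L0) (HP L0) := by
  apply Subtype.ext
  show (QuotientGroup.mk (twist (BL L0) none) : Mod (BL L0)) * QuotientGroup.mk (HT L0) =
    QuotientGroup.mk (HT L0) * QuotientGroup.mk (twist (BL L0) none)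
  rw [← QuotientGroup.mk_mul, ← QuotientGroup.mk_mul, (zA_comm L0).eq]

omit [NeZero p] in
theorem zP_pow (m : ℕ) : zP L0 ^ m = T0 L0 ^ m * (HP L0 ^ m)⁻¹ := by
  rw [zP_eq, (T0_comm L0).inv_right.mul_pow, inv_pow]

end

section near

variable {G : Type} [Group G]

theorem CP_near {t u : G} {r e : ℕ} (h : CP t r e u) : Near r u (t ^ e) := by
  obtain ⟨l, h1, h2, h3⟩ := h
  obtain ⟨q, hq, he⟩ := c5_aux t l
  unfold Near
  rw [h3, he, h2, mul_inv_cancel_right, ← h1]
  exact hq

theorem near_cp_list {J : Type} {t s : G} (hts : Commute t s) (l : List J) (v : J → G)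
    (r e : J → ℕ) (h : ∀ c ∈ l, CP t (r c) (e c) (v c)) :
    Near (l.map r).sum (l.map fun c => v c * s).prod (t ^ (l.map e).sum * s ^ l.length) := by
  induction l with
  | nil => simpa using near_refl (1 : G)
  | cons c l ih =>
    have h1 := CP_near (h c (by simp))
    have h2 := ih fun c' hc' => h c' (by simp [hc'])
    have h3 := near_mul (near_mul h1 (near_refl s)) h2
    rw [List.map_cons, List.sum_cons, List.map_cons, List.prod_cons, List.map_cons, List.sum_cons,
      List.length_cons]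
    have e1 : t ^ e c * s * (t ^ (l.map e).sum * s ^ l.length) =
        t ^ (e c + (l.map e).sum) * s ^ (l.length + 1) := by
      rw [pow_add, pow_succ', mul_assoc, mul_assoc, ← mul_assoc s,
        ((hts.pow_left (l.map e).sum).eq).symm]
      simp only [mul_assoc]
    rw [e1, add_zero] at h3
    exact h3

theorem near_ipc {P Q : G} {k r : ℕ} (hP : IsProdComm k P) (h : Near r P Q) :
    IsProdComm (r + k) Q := by
  have h1 := ipc_mul (ipc_inv h) hP
  have e : (P * Q⁻¹)⁻¹ * P = Q := by group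
  rwa [e] at h1

end near

end Pool.Agent.Lib.MP_6a1159_al
end

section

/-! The transfer of the relative inequality to the `p`-fold coverings. -/

set_option autoImplicit false

namespace Pool.Agent.Lib.MP_6a1159_al

variable {κ : Type} [DecidableEq κ] (p : ℕ) [Fact p.Prime] (L0 : List κ)

open Classical in
/-- The lift of the conjugate of the power of the twist about `a`. -/
theorem lift_a (c : JJ p L0) (f : PA L0)
    (hcase : (c.1 (ga _ none) = 1 ∧ f.1⁻¹ * twist (BL L0) none * f.1 = twist (BL L0) none) ∨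
        (c.1 (ga _ none) ≠ 1 ∧ f.1⁻¹ * twist (BL L0) none * f.1 = twB L0)) (m : ℕ)
    (g : StP p L0) (hg : g.1.1 = f.1⁻¹ * twist (BL L0) none ^ (p * m) * f.1) :
    CP (T0 (CL p L0)) (if c.1 (ga _ none) = 1 then p else 1)
      (if c.1 (ga _ none) = 1 then p * (p * m) else m) (rP p L0 g) := by
  have hpow : ∀ (n : ℕ) (f t : AutPlus (BL L0)),
      f⁻¹ * t ^ n * f = (f⁻¹ * t * f) ^ n := by
    intro n f t
    have := (conj_pow (i := n) (a := f⁻¹) (b := t))
    rw [inv_inv] at this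
    exact this.symm
  rw [hpow] at hg
  rcases hcase with ⟨h1, h2⟩ | ⟨h1, h2⟩
  · rw [if_pos h1, if_pos h1]
    rw [h2] at hg
    exact CPH_toCP _ _ (rM_BH p L0 (p * m) ⟨g.1.1, g.2⟩ hg)
  · rw [if_neg h1, if_neg h1]
    rw [h2] at hg
    exact CPH_toCP _ _ (rM_AH p L0 m ⟨g.1.1, g.2⟩ hg)

open Classical in
/-- The transfer argument. -/
theorem transferP (hn : L0.Nodup) (hc : ∀ k, k ∈ L0) (n k : ℕ)
    (h : IsProdComm k (zP L0 ^ n)) (j : ℕ) :
    IsProdComm (2 * (p * p - p) + (p * p - 1) * (p * p * k * j))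
      (zP (CL p L0) ^ (n * p * p * j * (p * p - 1))) := by
  obtain ⟨V, γ, hV, hVγ, hγ⟩ := pow_liftP L0 p ⟨zA L0, zA_PA L0⟩
    (fun c w => zA_pow_p p L0 c w) n k h j
  have hmm : n * p * p * j = p * (n * p * j) := by ring
  rw [hmm] at hVγ ⊢
  set m : ℕ := n * p * j with hm
  have hVγ' : V.1.1 = (zA L0 ^ (p * m)).1 * MulAut.conj γ := hVγ
  let f : JJ p L0 → PA L0 := fun c => (exists_fP p L0 c).choose
  have hf : ∀ c : JJ p L0, (∀ w, c.1 ((f c).1.1 w) = 1 ↔ c0 p L0 w = 1) ∧
      (∀ i, Commute (f c).1 (twist (BL L0) (some i))) ∧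
      ((c.1 (ga _ none) = 1 ∧ (f c).1⁻¹ * twist (BL L0) none * (f c).1 = twist (BL L0) none) ∨
        (c.1 (ga _ none) ≠ 1 ∧ (f c).1⁻¹ * twist (BL L0) none * (f c).1 = twB L0)) :=
    fun c => (exists_fP p L0 c).choose_spec
  have hinv : ∀ (c : JJ p L0) (y : SG (BL L0)),
      c0 p L0 ((f c).1.1⁻¹ y) = 1 ↔ c.1 y = 1 := by
    intro c y
    have h1 := (hf c).1 ((f c).1.1⁻¹ y)
    rw [MulAut.apply_inv_self] at h1
    exact h1.symm
  have hst : ∀ (α : PA L0) (c : JJ p L0), (f (α • c))⁻¹ * α * f c ∈ StP p L0 := by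
    intro α c w
    show c0 p L0 ((f (α • c)).1.1⁻¹ (α.1.1 ((f c).1.1 w))) = 1 ↔ _
    rw [hinv, smulJ_apply]
    have h2 : (α⁻¹ : PA L0).1.1 (α.1.1 ((f c).1.1 w)) = (f c).1.1 w := by
      show α.1.1⁻¹ (α.1.1 _) = _
      rw [MulAut.inv_apply_self]
    rw [h2]
    exact (hf c).1 w
  have hVc : ∀ (c : JJ p L0) (w : SG (BL L0)), c.1 (V.1.1 w) = c.1 w := by
    intro c w
    rw [hVγ']
    show c.1 ((zA L0 ^ (p * m)).1 (MulAut.conj γ w)) = c.1 w
    have h1 : ∀ w, c.1 ((zA L0 ^ (p * m)).1 w) = c.1 w := by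
      intro w
      rw [pow_mul]
      exact m1_inv_pow (BL L0) p ((zA L0) ^ p).1 c.1 (zA_pow_p p L0 c.1) m w
    rw [h1, MulAut.conj_apply, map_mul, map_mul, map_inv, hγ, one_mul, inv_one, mul_one]
  have hVj : ∀ c : JJ p L0, V • c = c := by
    intro c
    apply Subtype.ext
    refine MonoidHom.ext fun w => ?_
    rw [smulJ_apply, ← hVc c]
    show c.1 (V.1.1 (V.1.1⁻¹ w)) = _
    rw [MulAut.apply_inv_self]
  have hm' : ∀ c, (f c)⁻¹ * V * f c ∈ StP p L0 := by
    intro c
    have h1 := hst V c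
    rwa [hVj c] at h1
  have hmono := monomial (StP p L0) (rP p L0) f hst _ V hV hVj hm'
  -- the three factors
  have hin : ∀ c : JJ p L0, (⟨⟨MulAut.conj ((f c).1.1⁻¹ γ), conj_mem _ _⟩, conj_PA L0 _⟩ : PA L0) ∈
      StP p L0 := by
    intro c w
    show c0 p L0 (MulAut.conj _ w) = 1 ↔ _
    rw [MulAut.conj_apply, map_mul, map_mul, map_inv, mul_inv_cancel_comm]
  have hHS : (⟨HT L0 ^ (p * m), Subgroup.pow_mem _ (HT_PA L0) _⟩ : PA L0) ∈ StP p L0 := by
    have ha : ∀ i, (HT L0 ^ (p * m)).1 (ga _ i) = ga _ i := by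
      intro i
      rw [HT_pow]
      exact r4_prod_a _ _ _ _
    have hb0 : (HT L0 ^ (p * m)).1 (gb _ none) = gb _ none := by
      rw [HT_pow]
      exact r4_prod_b_not _ _ _ _ (by simp)
    have hcc : (c0 p L0).comp (HT L0 ^ (p * m)).1.toMonoidHom = c0 p L0 := by
      apply PresentedGroup.ext
      rintro ⟨_ | i, _ | _⟩
      · show c0 p L0 ((HT L0 ^ (p * m)).1 (ga _ none)) = c0 p L0 (ga _ none)
        rw [ha]
      · show c0 p L0 ((HT L0 ^ (p * m)).1 (gb _ none)) = c0 p L0 (gb _ none)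
        rw [hb0]
      · show c0 p L0 ((HT L0 ^ (p * m)).1 (ga _ (some i))) = c0 p L0 (ga _ (some i))
        rw [ha]
      · show c0 p L0 ((HT L0 ^ (p * m)).1 (gb _ (some i))) = c0 p L0 (gb _ (some i))
        have hbi : (HT L0 ^ (p * m)).1 (gb _ (some i)) =
            gb _ (some i) * ga _ (some i) ^ (p * m) := by
          rw [HT_pow]
          exact r4_prod_b _ _ (hn.map (Option.some_injective κ)) _ _
            (List.mem_map.2 ⟨i, hc i, rfl⟩)
        rw [hbi, map_mul, map_pow, k3_c0_a, one_pow, mul_one]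
    intro w
    have h1 : c0 p L0 ((HT L0 ^ (p * m)).1 w) = c0 p L0 w := DFunLike.congr_fun hcc w
    show c0 p L0 ((HT L0 ^ (p * m)).1 w) = 1 ↔ _
    rw [h1]
  have hdec : ∀ c : JJ p L0, (f c)⁻¹ * V * f c =
      ((f c)⁻¹ * (⟨twist (BL L0) none, twist_none_PA L0⟩ : PA L0) ^ (p * m) * f c) *
        (⟨HT L0 ^ (p * m), Subgroup.pow_mem _ (HT_PA L0) _⟩ : PA L0)⁻¹ *
        ⟨⟨MulAut.conj ((f c).1.1⁻¹ γ), conj_mem _ _⟩, conj_PA L0 _⟩ := by
    intro c
    apply Subtype.ext
    have hVe : V.1 = zA L0 ^ (p * m) * ⟨MulAut.conj γ, conj_mem _ γ⟩ := Subtype.ext hVγ'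
    show (f c).1⁻¹ * V.1 * (f c).1 = ((f c).1⁻¹ * twist (BL L0) none ^ (p * m) * (f c).1) *
      (HT L0 ^ (p * m))⁻¹ * ⟨MulAut.conj ((f c).1.1⁻¹ γ), conj_mem _ _⟩
    have hcon : (⟨MulAut.conj ((f c).1.1⁻¹ γ), conj_mem _ _⟩ : AutPlus (BL L0)) =
        (f c).1⁻¹ * ⟨MulAut.conj γ, conj_mem _ γ⟩ * (f c).1 := by
      apply Subtype.ext
      show MulAut.conj ((f c).1.1⁻¹ γ) = (f c).1.1⁻¹ * MulAut.conj γ * (f c).1.1
      ext w
      simp [MulAut.conj_apply]
    have hcomm : Commute (f c).1 (HT L0 ^ (p * m)) := (HT_comm L0 _ (hf c).2.1).pow_right _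
    rw [hcon, hVe, zA_pow]
    have e : (f c).1 * (HT L0 ^ (p * m))⁻¹ = (HT L0 ^ (p * m))⁻¹ * (f c).1 :=
      hcomm.inv_right.eq
    calc (f c).1⁻¹ * (twist (BL L0) none ^ (p * m) * (HT L0 ^ (p * m))⁻¹ *
          ⟨MulAut.conj γ, conj_mem _ γ⟩) * (f c).1
        = (f c).1⁻¹ * twist (BL L0) none ^ (p * m) * ((HT L0 ^ (p * m))⁻¹ * (f c).1) *
          ((f c).1⁻¹ * ⟨MulAut.conj γ, conj_mem _ γ⟩ * (f c).1) := by group
      _ = _ := by rw [← e]; simp only [mul_assoc]
  have hg1 : ∀ c : JJ p L0, (f c)⁻¹ *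
      (⟨twist (BL L0) none, twist_none_PA L0⟩ : PA L0) ^ (p * m) * f c ∈ StP p L0 := by
    intro c
    have h1 := (StP p L0).mul_mem ((StP p L0).mul_mem (hm' c) ((StP p L0).inv_mem (hin c))) hHS
    rw [hdec c, mul_inv_cancel_right, inv_mul_cancel_right] at h1
    exact h1
  have hfac : ∀ c : JJ p L0, rP p L0 ⟨(f c)⁻¹ * V * f c, hm' c⟩ =
      rP p L0 ⟨_, hg1 c⟩ * (HP (CL p L0) ^ (p * m))⁻¹ := by
    intro c
    have h1 : (⟨(f c)⁻¹ * V * f c, hm' c⟩ : StP p L0) =
        ⟨_, hg1 c⟩ * (⟨_, hHS⟩ : StP p L0)⁻¹ * ⟨_, hin c⟩ := Subtype.ext (hdec c)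
    rw [h1, map_mul, map_mul, map_inv]
    have h2 : rP p L0 ⟨_, hin c⟩ = 1 := by
      apply Subtype.ext
      apply rM_inner p L0 ((f c).1.1⁻¹ γ)
      · rw [hinv]
        exact hγ c.1
      · rfl
    have h3 : rP p L0 (⟨_, hHS⟩ : StP p L0) = HP (CL p L0) ^ (p * m) := by
      apply Subtype.ext
      show (QuotientGroup.mk (res p L0 ⟨HT L0 ^ (p * m), hHS⟩) : Mod (BL (CL p L0))) = _
      rw [res_HT p L0 hn hc (p * m) _ rfl]
      rfl
    rw [h2, h3, mul_one]
  have hCP : ∀ c ∈ (Finset.univ : Finset (JJ p L0)).toList,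
      CP (T0 (CL p L0)) (if c.1 (ga _ none) = 1 then p else 1)
        (if c.1 (ga _ none) = 1 then p * (p * m) else m) (rP p L0 ⟨_, hg1 c⟩) := by
    intro c _
    exact lift_a p L0 c (f c) (hf c).2.2 m _ rfl
  have hts : Commute (T0 (CL p L0)) ((HP (CL p L0) ^ (p * m))⁻¹) :=
    ((T0_comm (CL p L0)).pow_right _).inv_right
  have hnear := near_cp_list hts _ _ _ _ hCP
  have hlist : ((Finset.univ : Finset (JJ p L0)).toList.map fun c =>
      rP p L0 ⟨(f c)⁻¹ * V * f c, hm' c⟩) = ((Finset.univ : Finset (JJ p L0)).toList.map fun c =>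
      rP p L0 ⟨_, hg1 c⟩ * (HP (CL p L0) ^ (p * m))⁻¹) :=
    List.map_congr_left fun c _ => hfac c
  rw [hlist] at hmono
  have hfin := near_ipc hmono hnear
  rw [Finset.sum_map_toList, Finset.sum_map_toList, Finset.length_toList, Finset.card_univ,
    card_JJ, sum_JJ, sum_JJ] at hfin
  have hp1 : 1 ≤ p := (Fact.out : p.Prime).one_le
  obtain ⟨q, rfl⟩ : ∃ q, p = q + 1 := ⟨p - 1, by omega⟩
  have d1 : q + 1 - 1 = q := by omega
  have d2 : (q + 1) * (q + 1) - (q + 1) = (q + 1) * q := by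
    rw [Nat.mul_succ, Nat.add_sub_cancel]
  have d3 : (q + 1) * (q + 1) - 1 = q * (q + 2) := by
    have : (q + 1) * (q + 1) = q * (q + 2) + 1 := by ring
    rw [this, Nat.add_sub_cancel]
  rw [d1, d2, d3] at hfin
  rw [d2, d3, zP_pow]
  have e1 : q * (q + 1) + (q + 1) * q * 1 + q * (q + 2) * ((q + 1) * (q + 1) * k * j) =
      2 * ((q + 1) * q) + q * (q + 2) * ((q + 1) * (q + 1) * k * j) := by ring
  have e2 : q * ((q + 1) * ((q + 1) * m)) + (q + 1) * q * m = (q + 1) * m * (q * (q + 2)) := by ring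
  rw [e1, e2, inv_pow, ← pow_mul] at hfin
  exact hfin

end Pool.Agent.Lib.MP_6a1159_al
end

section

/-! The relative inequality in genus two: the abstract part. -/

set_option autoImplicit false

namespace Pool.Agent.Lib.MP_6a1159_al

section abs

variable {G : Type} [Group G]

theorem braid_sq {A B : G} (h : A * B * A = B * A * B) :
    A ^ 2 * B ^ 2 = (A * B * A) ^ 2 * ((B⁻¹ * A * B) ^ 2)⁻¹ ∧
      Commute ((A * B * A) ^ 2) A ∧ Commute ((A * B * A) ^ 2) B := by
  have e1 : A * B * A * A = B * (A * B * A) := by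
    calc A * B * A * A = B * A * B * A := by rw [h]
      _ = B * (A * B * A) := by simp only [mul_assoc]
  have e2 : A * (A * B * A) = A * B * A * B := by
    calc A * (A * B * A) = A * (B * A * B) := by rw [h]
      _ = A * B * A * B := by simp only [mul_assoc]
  refine ⟨?_, ?_, ?_⟩
  · rw [eq_mul_inv_iff_mul_eq]
    calc A ^ 2 * B ^ 2 * (B⁻¹ * A * B) ^ 2 = A * (A * B * A) * A * B := by
          simp only [pow_two]
          group
      _ = A * B * A * B * A * B := by rw [e2]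
      _ = A * B * A * (B * A * B) := by simp only [mul_assoc]
      _ = (A * B * A) ^ 2 := by rw [← h, pow_two]
  · show (A * B * A) ^ 2 * A = A * (A * B * A) ^ 2
    calc (A * B * A) ^ 2 * A = (A * B * A) * (A * B * A * A) := by
          rw [pow_two]; simp only [mul_assoc]
      _ = (A * B * A * B) * (A * B * A) := by rw [e1]; simp only [mul_assoc]
      _ = A * (A * B * A) ^ 2 := by rw [← e2, pow_two]; simp only [mul_assoc]
  · show (A * B * A) ^ 2 * B = B * (A * B * A) ^ 2
    calc (A * B * A) ^ 2 * B = (A * B * A) * (A * B * A * B) := by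
          rw [pow_two]; simp only [mul_assoc]
      _ = (A * B * A * A) * (A * B * A) := by rw [← e2]; simp only [mul_assoc]
      _ = B * (A * B * A) ^ 2 := by rw [e1, pow_two]; simp only [mul_assoc]

theorem braid_pow {A B : G} (h : A * B * A = B * A * B) (N : ℕ) :
    (A ^ 2 * B ^ 2) ^ (2 * N) = ((A * B * A) ^ 4) ^ N * ((B⁻¹ * A * B) ^ (4 * N))⁻¹ ∧
      Commute (((A * B * A) ^ 4) ^ N) ((B⁻¹ * A * B) ^ (4 * N)) := by
  obtain ⟨h1, h2, h3⟩ := braid_sq h
  have h4 : Commute ((A * B * A) ^ 2) (B⁻¹ * A * B) := ((h3.inv_right).mul_right h2).mul_right h3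
  have e4 : ((A * B * A) ^ 4) ^ N = ((A * B * A) ^ 2) ^ (2 * N) := by
    rw [← pow_mul, ← pow_mul]
    congr 1
    ring
  have e5 : (B⁻¹ * A * B) ^ (4 * N) = ((B⁻¹ * A * B) ^ 2) ^ (2 * N) := by
    rw [← pow_mul]
    congr 1
    ring
  constructor
  · rw [h1, ((h4.pow_right 2).inv_right).mul_pow, e4, e5, inv_pow]
  · rw [e4]
    exact (h4.pow_right _).pow_left _

theorem near_eq {P Q : G} (h : P = Q) : Near 0 P Q := h ▸ near_refl P

theorem abs_base {A0 B0 A1 B1 : G} (h0 : A0 * B0 * A0 = B0 * A0 * B0)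
    (h1 : A1 * B1 * A1 = B1 * A1 * B1) (cAA : Commute A0 A1) (cAB : Commute A0 B1)
    (cBA : Commute B0 A1) (cBB : Commute B0 B1)
    (hD : (A0 * B0 * A0) ^ 4 = (A1 * B1 * A1) ^ 4) (N : ℕ) :
    IsProdComm (N + 4) ((A0 * A1⁻¹) ^ (12 * N)) := by
  obtain ⟨p0, q0⟩ := braid_pow h0 N
  obtain ⟨p1, q1⟩ := braid_pow h1 N
  set C0 : G := B0⁻¹ * A0 * B0 with hC0
  set C1 : G := B1⁻¹ * A1 * B1 with hC1
  set D : G := ((A0 * B0 * A0) ^ 4) ^ N with hDd
  have hD1 : ((A1 * B1 * A1) ^ 4) ^ N = D := by rw [hDd, hD]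
  rw [hD1] at p1 q1
  have hcomm : Commute (A0 ^ 2 * B0 ^ 2) (A1 ^ 2 * B1 ^ 2) := by
    refine Commute.mul_left ?_ ?_
    · exact ((cAA.pow_right 2).mul_right (cAB.pow_right 2)).pow_left 2
    · exact ((cBA.pow_right 2).mul_right (cBB.pow_right 2)).pow_left 2
  have hxy : (A0 ^ 2 * (B1 ^ 2)⁻¹) * (B0 ^ 2 * (A1 ^ 2)⁻¹) =
      (A0 ^ 2 * B0 ^ 2) * (A1 ^ 2 * B1 ^ 2)⁻¹ := by
    have e : (B1 ^ 2)⁻¹ * B0 ^ 2 = B0 ^ 2 * (B1 ^ 2)⁻¹ :=
      (((cBB.pow_left 2).pow_right 2).inv_right).symm.eq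
    calc (A0 ^ 2 * (B1 ^ 2)⁻¹) * (B0 ^ 2 * (A1 ^ 2)⁻¹) =
        A0 ^ 2 * ((B1 ^ 2)⁻¹ * B0 ^ 2) * (A1 ^ 2)⁻¹ := by simp only [mul_assoc]
      _ = _ := by rw [e, mul_inv_rev]; simp only [mul_assoc]
  have hpow : ((A0 ^ 2 * (B1 ^ 2)⁻¹) * (B0 ^ 2 * (A1 ^ 2)⁻¹)) ^ (2 * N) =
      (C0 ^ (4 * N))⁻¹ * C1 ^ (4 * N) := by
    rw [hxy, (hcomm.inv_right).mul_pow, inv_pow, p0, p1, mul_inv_rev, inv_inv]
    calc D * (C0 ^ (4 * N))⁻¹ * (C1 ^ (4 * N) * D⁻¹) =
        (C0 ^ (4 * N))⁻¹ * (D * C1 ^ (4 * N)) * D⁻¹ := by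
          rw [(q0.inv_right).eq]; simp only [mul_assoc]
      _ = _ := by rw [q1.eq, ← mul_assoc, mul_inv_cancel_right]
  have hx : (A0 ^ 2 * (B1 ^ 2)⁻¹) ^ (2 * N) = A0 ^ (4 * N) * (B1 ^ (4 * N))⁻¹ := by
    rw [(((cAB.pow_left 2).pow_right 2).inv_right).mul_pow, inv_pow, ← pow_mul, ← pow_mul]
    congr 2
    · ring
    · congr 1
      ring
  have hy : (B0 ^ 2 * (A1 ^ 2)⁻¹) ^ (2 * N) = B0 ^ (4 * N) * (A1 ^ (4 * N))⁻¹ := by
    rw [(((cBA.pow_left 2).pow_right 2).inv_right).mul_pow, inv_pow, ← pow_mul, ← pow_mul]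
    congr 2
    · ring
    · congr 1
      ring
  have hP := pow_ipc (A0 ^ 2 * (B1 ^ 2)⁻¹) (B0 ^ 2 * (A1 ^ 2)⁻¹) N
  rw [hpow, hx, hy] at hP
  -- the conjugations
  have nB0 : Near 1 (B0 ^ (4 * N)) (A0 ^ (4 * N)) := near_pow ⟨_, conj_braid h0⟩ _
  have nB1 : Near 1 (B1 ^ (4 * N)) (A1 ^ (4 * N)) := near_pow ⟨_, conj_braid h1⟩ _
  have nC0 : Near 1 (C0 ^ (4 * N)) (A0 ^ (4 * N)) := near_pow ⟨B0⁻¹, by rw [hC0, inv_inv]⟩ _
  have nC1 : Near 1 (C1 ^ (4 * N)) (A1 ^ (4 * N)) := near_pow ⟨B1⁻¹, by rw [hC1, inv_inv]⟩ _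
  have n1 := near_mul (near_mul (near_mul (near_refl (A0 ^ (4 * N))) (near_inv nB1))
    (near_mul nB0 (near_refl (A1 ^ (4 * N))⁻¹))) (near_inv (near_mul (near_inv nC0) nC1))
  have hfin := near_ipc hP n1
  have e : A0 ^ (4 * N) * (A1 ^ (4 * N))⁻¹ * (A0 ^ (4 * N) * (A1 ^ (4 * N))⁻¹) *
      ((A0 ^ (4 * N))⁻¹ * A1 ^ (4 * N))⁻¹ = (A0 * A1⁻¹) ^ (12 * N) := by
    have c1 : Commute (A0 ^ (4 * N)) (A1 ^ (4 * N))⁻¹ := ((cAA.pow_left _).pow_right _).inv_right
    have e2 : ((A0 ^ (4 * N))⁻¹ * A1 ^ (4 * N))⁻¹ = A0 ^ (4 * N) * (A1 ^ (4 * N))⁻¹ := by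
      rw [mul_inv_rev, inv_inv, c1.eq]
    have e3 : A0 ^ (4 * N) * (A1 ^ (4 * N))⁻¹ = (A0 * A1⁻¹) ^ (4 * N) := by
      rw [(cAA.inv_right).mul_pow, inv_pow]
    rw [e2, e3, ← pow_add, ← pow_add]
    congr 1
    ring
  rw [e] at hfin
  refine ipc_mono ?_ hfin
  omega

end abs

end Pool.Agent.Lib.MP_6a1159_al
end
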