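import Pool.Agent.Lib.MP_6a1159_al.Defs

section

/-! Products of commutators, quadratic words, conjugates of powers. -/

set_option autoImplicit false

open scoped ENNReal
open Filter Topology

namespace Pool.Agent.Lib.MP_6a1159_al

section basic

variable {G H : Type} [Group G] [Group H]

theorem c1_iff {k : ℕ} {x : G} : IsProdComm k x ↔ ∃ l : List (G × G), l.length = k ∧
    x = (l.map fun q => q.1 * q.2 * q.1⁻¹ * q.2⁻¹).prod := by
  constructor
  · rintro ⟨y, z, rfl⟩
    refine ⟨List.ofFn fun i => (y i, z i), by simp, ?_⟩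
    rw [List.map_ofFn]
    rfl
  · rintro ⟨l, rfl, rfl⟩
    refine ⟨fun i => (l.get i).1, fun i => (l.get i).2, ?_⟩
    have h : l = List.ofFn l.get := (List.ofFn_get l).symm
    conv_lhs => rw [h]
    rw [List.map_ofFn]
    rfl

theorem ipc_zero : IsProdComm 0 (1 : G) :=
  c1_iff.2 ⟨[], rfl, by simp⟩

theorem ipc_comm (y z : G) : IsProdComm 1 (y * z * y⁻¹ * z⁻¹) :=
  c1_iff.2 ⟨[(y, z)], rfl, by simp⟩

theorem ipc_mul {k l : ℕ} {x y : G} (hx : IsProdComm k x) (hy : IsProdComm l y) :
    IsProdComm (k + l) (x * y) := by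
  obtain ⟨a, ha, rfl⟩ := c1_iff.1 hx
  obtain ⟨b, hb, rfl⟩ := c1_iff.1 hy
  exact c1_iff.2 ⟨a ++ b, by simp [ha, hb], by simp⟩

theorem ipc_mono {k l : ℕ} (hkl : k ≤ l) {x : G} (hx : IsProdComm k x) : IsProdComm l x := by
  obtain ⟨a, ha, rfl⟩ := c1_iff.1 hx
  refine c1_iff.2 ⟨a ++ List.replicate (l - k) (1, 1), by simp [ha]; omega, by simp⟩

theorem ipc_inv {k : ℕ} {x : G} (hx : IsProdComm k x) : IsProdComm k x⁻¹ := by
  obtain ⟨a, ha, rfl⟩ := c1_iff.1 hx
  refine c1_iff.2 ⟨(a.map fun q => (q.2, q.1)).reverse, by simp [ha], ?_⟩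
  rw [List.prod_inv_reverse, List.map_map, List.map_reverse, List.map_map]
  congr 2
  apply List.map_congr_left
  intro q _
  simp [mul_assoc]

theorem ipc_map {k : ℕ} {x : G} (f : G →* H) (hx : IsProdComm k x) : IsProdComm k (f x) := by
  obtain ⟨a, ha, rfl⟩ := c1_iff.1 hx
  refine c1_iff.2 ⟨a.map fun q => (f q.1, f q.2), by simp [ha], ?_⟩
  rw [map_list_prod, List.map_map, List.map_map]
  congr 1
  apply List.map_congr_left
  intro q _
  simp

theorem ipc_conj {k : ℕ} {x : G} (g : G) (hx : IsProdComm k x) :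
    IsProdComm k (g * x * g⁻¹) :=
  ipc_map (MulAut.conj g).toMonoidHom hx

theorem ipc_pow {k : ℕ} {x : G} (hx : IsProdComm k x) (n : ℕ) : IsProdComm (n * k) (x ^ n) := by
  induction n with
  | zero => simpa using (ipc_zero : IsProdComm 0 (1 : G))
  | succ n ih =>
    rw [pow_succ, Nat.succ_mul]
    exact ipc_mul ih hx

/-- A product of commutators in a quotient lifts to a product of commutators. -/
theorem ipc_lift (N : Subgroup G) [N.Normal] {k : ℕ} {x : G}
    (hx : IsProdComm k (QuotientGroup.mk x : G ⧸ N)) : ∃ n ∈ N, IsProdComm k (x * n) := by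
  obtain ⟨y, z, h⟩ := hx
  choose y' hy' using fun i => QuotientGroup.mk_surjective (s := N) (y i)
  choose z' hz' using fun i => QuotientGroup.mk_surjective (s := N) (z i)
  refine ⟨x⁻¹ * (List.ofFn fun i => y' i * z' i * (y' i)⁻¹ * (z' i)⁻¹).prod, ?_, y', z', ?_⟩
  · rw [← QuotientGroup.eq, h]
    have h1 : (QuotientGroup.mk (List.ofFn fun i => y' i * z' i * (y' i)⁻¹ * (z' i)⁻¹).prod :
        G ⧸ N) = QuotientGroup.mk' N
          (List.ofFn fun i => y' i * z' i * (y' i)⁻¹ * (z' i)⁻¹).prod := rfl
    rw [h1, map_list_prod, List.map_ofFn]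
    congr 1
    congr 1
    funext i
    simp only [Function.comp_apply, map_mul, map_inv, QuotientGroup.mk'_apply, hy', hz']
  · rw [mul_inv_cancel_left]

end basic

section quad

/-- A quadratic word: no letter occurs twice, and with every letter its inverse occurs. -/
def Quad {X : Type} (w : List (X × Bool)) : Prop :=
  w.Nodup ∧ ∀ x b, (x, b) ∈ w → (x, !b) ∈ w

/-- The value of a word. -/
def ev {X G : Type} [Group G] (f : X → G) (w : List (X × Bool)) : G :=
  (w.map fun q => if q.2 then f q.1 else (f q.1)⁻¹).prod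

/-- The value of a letter. -/
def c3_evl {X G : Type} [Group G] (f : X → G) (q : X × Bool) : G :=
  if q.2 then f q.1 else (f q.1)⁻¹

/-- The inverse letter. -/
def c3_flip {X : Type} (q : X × Bool) : X × Bool := (q.1, !q.2)

theorem c3_flip_flip {X : Type} (q : X × Bool) : c3_flip (c3_flip q) = q := by
  simp [c3_flip]

theorem c3_flip_ne {X : Type} (q : X × Bool) : c3_flip q ≠ q := by
  rcases q with ⟨x, b⟩
  cases b <;> simp [c3_flip]

theorem c3_evl_flip {X G : Type} [Group G] (f : X → G) (q : X × Bool) :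
    c3_evl f (c3_flip q) = (c3_evl f q)⁻¹ := by
  rcases q with ⟨x, b⟩
  cases b <;> simp [c3_flip, c3_evl]

theorem c3_quad_iff {X : Type} (w : List (X × Bool)) :
    Quad w ↔ w.Nodup ∧ ∀ q ∈ w, c3_flip q ∈ w := by
  constructor
  · rintro ⟨h1, h2⟩
    exact ⟨h1, fun q hq => h2 q.1 q.2 hq⟩
  · rintro ⟨h1, h2⟩
    exact ⟨h1, fun x b hq => h2 (x, b) hq⟩

theorem c3_ev_nil {X G : Type} [Group G] (f : X → G) : ev f [] = 1 := by
  simp [ev]

theorem c3_ev_cons {X G : Type} [Group G] (f : X → G) (q : X × Bool) (w : List (X × Bool)) :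
    ev f (q :: w) = c3_evl f q * ev f w := by
  simp [ev, c3_evl]

theorem c3_ev_append {X G : Type} [Group G] (f : X → G) (v w : List (X × Bool)) :
    ev f (v ++ w) = ev f v * ev f w := by
  simp [ev]

/-- A quadratic word of length `4 m` or `4 m + 2` is a product of `m` commutators. -/
theorem quad_ipc {X G : Type} [Group G] (f : X → G) (w : List (X × Bool)) (hw : Quad w) :
    IsProdComm (w.length / 4) (ev f w) := by
  classical
  induction hn : w.length using Nat.strong_induction_on generalizing w with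
  | _ n ih =>
  subst hn
  rw [c3_quad_iff] at hw
  obtain ⟨hnd, hcl⟩ := hw
  rcases w with _ | ⟨q, rest⟩
  · have h0 : IsProdComm 0 (1 : G) := ipc_zero
    rw [c3_ev_nil, List.length_nil, Nat.zero_div]
    exact h0
  have hq' : c3_flip q ∈ rest := by
    have h := hcl q (by simp)
    rw [List.mem_cons] at h
    rcases h with h | h
    · exact absurd h (c3_flip_ne q)
    · exact h
  obtain ⟨A, B, rfl⟩ := List.append_of_mem hq'
  rw [List.nodup_cons, List.nodup_append] at hnd
  obtain ⟨hq, hA, hB, hAB⟩ := hnd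
  rw [List.nodup_cons] at hB
  have hqA : q ∉ A := fun h => hq (by simp [h])
  have hqB : q ∉ B := fun h => hq (by simp [h])
  have hq'A : c3_flip q ∉ A := fun h => hAB _ h _ (by simp) rfl
  have hABd : ∀ r, r ∈ A → r ∉ B := fun r h1 h2 => hAB _ h1 _ (by simp [h2]) rfl
  by_cases hcase : ∀ r ∈ A, c3_flip r ∈ A
  · have hQA : Quad A := (c3_quad_iff A).2 ⟨hA, hcase⟩
    have hQB : Quad B := by
      refine (c3_quad_iff B).2 ⟨hB.2, fun r hr => ?_⟩
      have h := hcl r (by simp [hr])
      rw [List.mem_cons, List.mem_append, List.mem_cons] at h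
      rcases h with h | h | h | h
      · exact absurd (by rw [← h, c3_flip_flip]; exact hr) hB.1
      · exact absurd hr (hABd r (by simpa [c3_flip_flip] using hcase _ h))
      · have h' := congrArg c3_flip h
        rw [c3_flip_flip, c3_flip_flip] at h'
        exact absurd (h' ▸ hr) hqB
      · exact h
    have h1 := ih A.length (by simp only [List.length_cons, List.length_append]; omega) A hQA rfl
    have h2 := ih B.length (by simp only [List.length_cons, List.length_append]; omega) B hQB rfl
    have h3 := ipc_mul (ipc_conj (c3_evl f q) h1) h2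
    rw [c3_ev_cons, c3_ev_append, c3_ev_cons, c3_evl_flip]
    have e : c3_evl f q * (ev f A * ((c3_evl f q)⁻¹ * ev f B)) =
        c3_evl f q * ev f A * (c3_evl f q)⁻¹ * ev f B := by group
    rw [e]
    refine ipc_mono ?_ h3
    simp only [List.length_cons, List.length_append]
    omega
  · push Not at hcase
    obtain ⟨p, hpA, hpA'⟩ := hcase
    have hpB : c3_flip p ∈ B := by
      have h := hcl p (by simp [hpA])
      rw [List.mem_cons, List.mem_append, List.mem_cons] at h
      rcases h with h | h | h | h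
      · exact absurd (by rw [← h, c3_flip_flip]; exact hpA) hq'A
      · exact absurd h hpA'
      · have h' := congrArg c3_flip h
        rw [c3_flip_flip, c3_flip_flip] at h'
        exact absurd (h' ▸ hpA) hqA
      · exact h
    obtain ⟨A1, A2, rfl⟩ := List.append_of_mem hpA
    obtain ⟨B1, B2, rfl⟩ := List.append_of_mem hpB
    have hperm : List.Perm (q :: (A1 ++ p :: A2 ++ c3_flip q :: (B1 ++ c3_flip p :: B2)))
        (q :: c3_flip q :: p :: c3_flip p :: (B1 ++ A2 ++ A1 ++ B2)) := by
      rw [List.perm_iff_count]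
      intro a
      simp only [List.count_cons, List.count_append]
      omega
    have hnd' : (q :: (A1 ++ p :: A2 ++ c3_flip q :: (B1 ++ c3_flip p :: B2))).Nodup := by
      rw [List.nodup_cons, List.nodup_append]
      exact ⟨hq, hA, List.nodup_cons.2 hB, hAB⟩
    have hnd2 := hperm.nodup_iff.1 hnd'
    simp only [List.nodup_cons] at hnd2
    obtain ⟨n1, n2, n3, n4, n5⟩ := hnd2
    have hQ : Quad (B1 ++ A2 ++ A1 ++ B2) := by
      refine (c3_quad_iff _).2 ⟨n5, fun r hr => ?_⟩
      have h := hcl r (hperm.mem_iff.2 (List.mem_cons_of_mem _ (List.mem_cons_of_mem _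
        (List.mem_cons_of_mem _ (List.mem_cons_of_mem _ hr)))))
      have h2 := hperm.mem_iff.1 h
      rw [List.mem_cons, List.mem_cons, List.mem_cons, List.mem_cons] at h2
      rcases h2 with h | h | h | h | h
      · have h' := congrArg c3_flip h
        rw [c3_flip_flip] at h'
        rw [h'] at hr
        exact absurd (List.mem_cons_of_mem _ (List.mem_cons_of_mem _ hr)) n2
      · have h' := congrArg c3_flip h
        rw [c3_flip_flip, c3_flip_flip] at h'
        rw [h'] at hr
        exact absurd (List.mem_cons_of_mem _ (List.mem_cons_of_mem _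
          (List.mem_cons_of_mem _ hr))) n1
      · have h' := congrArg c3_flip h
        rw [c3_flip_flip] at h'
        rw [h'] at hr
        exact absurd hr n4
      · have h' := congrArg c3_flip h
        rw [c3_flip_flip, c3_flip_flip] at h'
        rw [h'] at hr
        exact absurd (List.mem_cons_of_mem _ hr) n3
      · exact h
    have hlen : (B1 ++ A2 ++ A1 ++ B2).length + 4 =
        (q :: (A1 ++ p :: A2 ++ c3_flip q :: (B1 ++ c3_flip p :: B2))).length := by
      simp only [List.length_cons, List.length_append]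
      omega
    have h1 := ih (B1 ++ A2 ++ A1 ++ B2).length (by omega) _ hQ rfl
    rw [← hlen]
    have e4 : ((B1 ++ A2 ++ A1 ++ B2).length + 4) / 4 = 1 + (B1 ++ A2 ++ A1 ++ B2).length / 4 := by
      omega
    rw [e4]
    set x := c3_evl f q with hx
    set y := c3_evl f p with hy
    set a1 := ev f A1
    set a2 := ev f A2
    set b1 := ev f B1
    set b2 := ev f B2
    have hc := ipc_conj (b1 * a2 * a1) (ipc_comm (a1⁻¹ * a2⁻¹ * b1⁻¹ * x * a1) (y * a2 * a1))
    have e : ev f (q :: (A1 ++ p :: A2 ++ c3_flip q :: (B1 ++ c3_flip p :: B2))) =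
        (b1 * a2 * a1 * ((a1⁻¹ * a2⁻¹ * b1⁻¹ * x * a1) * (y * a2 * a1) *
          (a1⁻¹ * a2⁻¹ * b1⁻¹ * x * a1)⁻¹ * (y * a2 * a1)⁻¹) * (b1 * a2 * a1)⁻¹) *
        ev f (B1 ++ A2 ++ A1 ++ B2) := by
      simp only [c3_ev_cons, c3_ev_append, c3_evl_flip]
      rw [← hx, ← hy]
      change x * (a1 * (y * a2) * (x⁻¹ * (b1 * (y⁻¹ * b2)))) = _ * (b1 * a2 * a1 * b2)
      group
    rw [e]
    exact ipc_mul hc h1

end quad

section monomial

/-- The word of the commutator `y z y⁻¹ z⁻¹` in the state `j`. -/
def c4_wd {A J I : Type} [Group A] [MulAction A J] (y z : I → A) (i : I) (j : J) :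
    List (((I × Bool) × J) × Bool) :=
  [(((i, false), z i • (y i)⁻¹ • (z i)⁻¹ • j), true),
   (((i, true), (y i)⁻¹ • (z i)⁻¹ • j), true),
   (((i, false), (y i)⁻¹ • (z i)⁻¹ • j), false),
   (((i, true), (z i)⁻¹ • j), false)]

/-- The word of a product of commutators in the state `j`. -/
def c4_wl {A J I : Type} [Group A] [MulAction A J] (y z : I → A) :
    List I → J → List (((I × Bool) × J) × Bool)
  | [], _ => []
  | i :: L, j => c4_wd y z i ((L.map fun i => y i * z i * (y i)⁻¹ * (z i)⁻¹).prod • j) ++
      c4_wl y z L j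

theorem c4_length {A J I : Type} [Group A] [MulAction A J] (y z : I → A) (L : List I) (j : J) :
    (c4_wl y z L j).length = 4 * L.length := by
  induction L with
  | nil => rfl
  | cons i L ih =>
    simp only [c4_wl, List.length_append, ih, c4_wd, List.length_cons, List.length_nil]
    ring

theorem c4_mem {A J I : Type} [Group A] [MulAction A J] (y z : I → A) (L : List I)
    (i : I) (hi : i ∈ L) (s : Bool) (j' : J) (b : Bool) :
    ∃ j, (((i, s), j'), b) ∈ c4_wl y z L j := by
  induction L with
  | nil => simp at hi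
  | cons i0 L ih =>
    rcases List.mem_cons.1 hi with h | h
    · subst h
      obtain ⟨j, hj⟩ : ∃ j, (((i, s), j'), b) ∈ c4_wd y z i j := by
        cases s <;> cases b
        · exact ⟨z i • y i • j', by simp [c4_wd]⟩
        · exact ⟨z i • y i • (z i)⁻¹ • j', by simp [c4_wd]⟩
        · exact ⟨z i • j', by simp [c4_wd]⟩
        · exact ⟨z i • y i • j', by simp [c4_wd]⟩
      refine ⟨((L.map fun i => y i * z i * (y i)⁻¹ * (z i)⁻¹).prod)⁻¹ • j, ?_⟩
      simp only [c4_wl, List.mem_append]
      left
      rw [smul_inv_smul]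
      exact hj
    · obtain ⟨j, hj⟩ := ih h
      exact ⟨j, by simp only [c4_wl, List.mem_append]; exact Or.inr hj⟩

theorem c4_ev_append {X G : Type} [Group G] (F : X → G) (w w' : List (X × Bool)) :
    ev F (w ++ w') = ev F w * ev F w' := by
  simp [ev]

theorem c4_ev_flatMap {X G J : Type} [Group G] (F : X → G) (l : List J)
    (w : J → List (X × Bool)) : ev F (l.flatMap w) = (l.map fun j => ev F (w j)).prod := by
  induction l with
  | nil => simp [ev]
  | cons a l ih => rw [List.flatMap_cons, c4_ev_append, ih, List.map_cons, List.prod_cons]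

theorem c4_ev {A M J I : Type} [Group A] [Group M] [MulAction A J] (y z : I → A)
    (ρ : A → J → M) (hρ : ∀ α β j, ρ (α * β) j = ρ α (β • j) * ρ β j)
    (L : List I) (j : J) :
    ev (fun x : (I × Bool) × J => ρ (if x.1.2 then z x.1.1 else y x.1.1) x.2) (c4_wl y z L j) =
      ρ ((L.map fun i => y i * z i * (y i)⁻¹ * (z i)⁻¹).prod) j := by
  have h1 : ∀ j, ρ 1 j = 1 := by
    intro j
    have := hρ 1 1 j
    rw [one_smul, mul_one] at this
    exact (left_eq_mul.1 this)
  have hinv : ∀ α j, ρ α⁻¹ j = (ρ α (α⁻¹ • j))⁻¹ := by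
    intro α j
    have := hρ α α⁻¹ j
    rw [mul_inv_cancel, h1] at this
    exact (eq_inv_of_mul_eq_one_right this.symm)
  induction L with
  | nil => simp [c4_wl, ev, h1]
  | cons i L ih =>
    rw [c4_wl, c4_ev_append, ih, List.map_cons, List.prod_cons, hρ _ _ j]
    congr 1
    generalize (L.map fun i => y i * z i * (y i)⁻¹ * (z i)⁻¹).prod • j = j0
    simp only [ev, c4_wd, List.map_cons, List.map_nil, List.prod_cons, List.prod_nil]
    simp only [hρ, hinv, mul_assoc, if_true, mul_one, Bool.false_eq_true, if_false, mul_smul]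

/-- Transfer of products of commutators to a subgroup of finite index: if `V` fixes all `j : J`
and is a product of `k` commutators, then the product of the elements `(f j)⁻¹ V (f j)` of the
stabilizer, in the target of `res`, is a product of `|J| k` commutators. -/
theorem monomial {A M J : Type} [Group A] [Group M] [Fintype J] [DecidableEq J] [MulAction A J]
    (St : Subgroup A) (res : St →* M) (f : J → A)
    (hf : ∀ (α : A) (j : J), (f (α • j))⁻¹ * α * f j ∈ St) (k : ℕ) (V : A)
    (hV : IsProdComm k V) (hVj : ∀ j : J, V • j = j) (hm : ∀ j, (f j)⁻¹ * V * f j ∈ St) :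
    IsProdComm (Fintype.card J * k)
      (((Finset.univ : Finset J).toList.map fun j => res ⟨(f j)⁻¹ * V * f j, hm j⟩).prod) := by
  classical
  obtain ⟨y, z, hyz⟩ := hV
  set ρ : A → J → M := fun α j => res ⟨(f (α • j))⁻¹ * α * f j, hf α j⟩ with hρdef
  have hρ : ∀ α β j, ρ (α * β) j = ρ α (β • j) * ρ β j := by
    intro α β j
    simp only [hρdef]
    rw [← map_mul]
    congr 1
    apply Subtype.ext
    simp only [Subgroup.coe_mul, mul_smul]
    group
  set w : List (((Fin k × Bool) × J) × Bool) :=
    (Finset.univ : Finset J).toList.flatMap (c4_wl y z (List.finRange k)) with hw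
  have hmem : ∀ x, x ∈ w := by
    rintro ⟨⟨⟨i, s⟩, j'⟩, b⟩
    obtain ⟨j, hj⟩ := c4_mem y z (List.finRange k) i (List.mem_finRange i) s j' b
    rw [hw, List.mem_flatMap]
    exact ⟨j, by simp, hj⟩
  have hlen : w.length = 4 * (Fintype.card J * k) := by
    rw [hw, List.length_flatMap]
    simp only [c4_length, List.length_finRange, List.map_const', List.sum_replicate,
      Finset.length_toList, Finset.card_univ, smul_eq_mul]
    ring
  have hnd : w.Nodup := by
    rw [← Multiset.coe_nodup, ← Multiset.toFinset_card_eq_card_iff_nodup]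
    show w.toFinset.card = w.length
    have : w.toFinset = Finset.univ := by
      ext x
      simp [hmem x]
    rw [this, hlen, Finset.card_univ]
    simp only [Fintype.card_prod, Fintype.card_bool, Fintype.card_fin]
    ring
  have hq : Quad w := ⟨hnd, fun x b _ => hmem _⟩
  have h := quad_ipc (fun x : (Fin k × Bool) × J => ρ (if x.1.2 then z x.1.1 else y x.1.1) x.2) w hq
  rw [hlen, Nat.mul_div_cancel_left _ (by norm_num : 0 < 4), hw, c4_ev_flatMap] at h
  convert h using 3
  funext j
  rw [c4_ev y z ρ hρ, ← List.ofFn_eq_map, ← hyz]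
  simp only [hρdef]
  congr 2
  rw [hVj j]

end monomial

section CP

variable {M : Type} [Group M]

/-- `u` is a product of `r` conjugates of powers of `t` of total exponent `e`. -/
def CP (t : M) (r e : ℕ) (u : M) : Prop :=
  ∃ l : List (M × ℕ), l.length = r ∧ (l.map Prod.snd).sum = e ∧
    u = (l.map fun q => q.1 * t ^ q.2 * q.1⁻¹).prod

theorem CP_single (t c : M) (e : ℕ) : CP t 1 e (c * t ^ e * c⁻¹) :=
  ⟨[(c, e)], rfl, by simp, by simp⟩

theorem CP_mul {t : M} {r e r' e' : ℕ} {u u' : M} (h : CP t r e u) (h' : CP t r' e' u') :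
    CP t (r + r') (e + e') (u * u') := by
  obtain ⟨l, h1, h2, rfl⟩ := h
  obtain ⟨l', h1', h2', rfl⟩ := h'
  exact ⟨l ++ l', by simp [h1, h1'], by simp [h2, h2'], by simp⟩

theorem CP_conj {t : M} {r e : ℕ} {u : M} (c : M) (h : CP t r e u) :
    CP t r e (c * u * c⁻¹) := by
  obtain ⟨l, h1, h2, rfl⟩ := h
  refine ⟨l.map fun q => (c * q.1, q.2), by simp [h1], ?_, ?_⟩
  · rw [List.map_map, ← h2]
    rfl
  · have h3 := map_list_prod (MulAut.conj c).toMonoidHom
      (l.map fun q => q.1 * t ^ q.2 * q.1⁻¹)
    refine h3.trans ?_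
    rw [List.map_map, List.map_map]
    congr 1
    apply List.map_congr_left
    intro q _
    simp [mul_assoc]

theorem CP_list {J : Type} {t : M} (l : List J) (u : J → M) (r e : J → ℕ)
    (h : ∀ j ∈ l, CP t (r j) (e j) (u j)) :
    CP t (l.map r).sum (l.map e).sum (l.map u).prod := by
  induction l with
  | nil => exact ⟨[], rfl, rfl, rfl⟩
  | cons j l ih =>
    simp only [List.map_cons, List.sum_cons, List.prod_cons]
    exact CP_mul (h j (by simp)) (ih fun i hi => h i (by simp [hi]))

theorem c5_aux (t : M) (l : List (M × ℕ)) : ∃ p : M, IsProdComm l.length p ∧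
    (l.map fun q => q.1 * t ^ q.2 * q.1⁻¹).prod = p * t ^ (l.map Prod.snd).sum := by
  induction l with
  | nil => exact ⟨1, ipc_zero, by simp⟩
  | cons q l ih =>
    obtain ⟨p, hp, he⟩ := ih
    refine ⟨(q.1 * t ^ q.2 * q.1⁻¹ * (t ^ q.2)⁻¹) * (t ^ q.2 * p * (t ^ q.2)⁻¹), ?_, ?_⟩
    · rw [List.length_cons, Nat.add_comm]
      exact ipc_mul (ipc_comm _ _) (ipc_conj _ hp)
    · rw [List.map_cons, List.prod_cons, he, List.map_cons, List.sum_cons, pow_add]
      group

theorem CP_ipc {t : M} {r e k : ℕ} {u : M} (h : CP t r e u) (hu : IsProdComm k u) :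
    IsProdComm (k + r) (t ^ e) := by
  obtain ⟨l, h1, h2, h3⟩ := h
  obtain ⟨p, hp, he⟩ := c5_aux t l
  rw [h1] at hp
  rw [h2, ← h3] at he
  have h4 : t ^ e = p⁻¹ * u := by rw [he]; group
  rw [h4, Nat.add_comm]
  exact ipc_mul (ipc_inv hp) hu

end CP

section scl

variable {G M : Type} [Group G] [Group M]

theorem cl_le_of_ipc {k : ℕ} {x : G} (h : IsProdComm k x) : cl x ≤ k :=
  iInf₂_le k h

theorem exists_ipc_of_cl (x : G) (h : cl x ≠ ∞) : ∃ k : ℕ, cl x = k ∧ IsProdComm k x := by
  classical
  have hex : ∃ k, IsProdComm k x := by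
    by_contra hno
    push Not at hno
    refine h ?_
    refine top_le_iff.mp ?_
    exact le_iInf₂ fun k hk => absurd hk (hno k)
  refine ⟨Nat.find hex, le_antisymm (cl_le_of_ipc (Nat.find_spec hex)) ?_, Nat.find_spec hex⟩
  exact le_iInf₂ fun k hk => by exact_mod_cast Nat.find_min' hex hk

/-- For `x` in the commutator subgroup the stable commutator length is the limit of
`cl (x ^ n) / n` (Fekete's lemma). -/
theorem tendsto_scl (x : G) (h : cl x ≠ ∞) :
    Tendsto (fun n : ℕ => cl (x ^ n) / (n : ℝ≥0∞)) atTop (𝓝 (scl x)) := by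
  obtain ⟨k, -, hk⟩ := exists_ipc_of_cl x h
  have hfin : ∀ n : ℕ, cl (x ^ n) ≠ ∞ := fun n =>
    ne_top_of_le_ne_top (ENNReal.natCast_ne_top (n * k)) (cl_le_of_ipc (ipc_pow hk n))
  choose c hc hcI using fun n => exists_ipc_of_cl (x ^ n) (hfin n)
  have hsub : Subadditive fun n : ℕ => (c n : ℝ) := by
    intro m n
    have h1 : cl (x ^ (m + n)) ≤ ((c m + c n : ℕ) : ℝ≥0∞) := by
      rw [pow_add]
      exact cl_le_of_ipc (ipc_mul (hcI m) (hcI n))
    rw [hc (m + n)] at h1
    have h2 : c (m + n) ≤ c m + c n := by exact_mod_cast h1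
    show ((c (m + n) : ℕ) : ℝ) ≤ (c m : ℝ) + (c n : ℝ)
    exact_mod_cast h2
  have hbdd : BddBelow (Set.range fun n : ℕ => (c n : ℝ) / n) := by
    refine ⟨0, ?_⟩
    rintro _ ⟨n, rfl⟩
    positivity
  have hlim := hsub.tendsto_lim hbdd
  have hval : ∀ n : ℕ, 1 ≤ n → cl (x ^ n) / (n : ℝ≥0∞) = ENNReal.ofReal ((c n : ℝ) / n) := by
    intro n hn
    have hn' : (0 : ℝ) < n := by exact_mod_cast hn
    rw [hc n, ENNReal.ofReal_div_of_pos hn', ENNReal.ofReal_natCast, ENNReal.ofReal_natCast]
  have ht : Tendsto (fun n : ℕ => cl (x ^ n) / (n : ℝ≥0∞)) atTop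
      (𝓝 (ENNReal.ofReal hsub.lim)) := by
    refine Tendsto.congr' ?_ (ENNReal.tendsto_ofReal hlim)
    filter_upwards [eventually_ge_atTop 1] with n hn
    exact (hval n hn).symm
  have hle : scl x ≤ ENNReal.ofReal hsub.lim := by
    refine ge_of_tendsto ht ?_
    filter_upwards [eventually_ge_atTop 1] with n hn
    obtain ⟨m, rfl⟩ := Nat.exists_eq_add_of_le' hn
    exact iInf_le (fun n : ℕ => cl (x ^ (n + 1)) / ((n + 1 : ℕ) : ℝ≥0∞)) m
  have hge : ENNReal.ofReal hsub.lim ≤ scl x := by
    refine le_iInf fun n => ?_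
    rw [hval (n + 1) (by omega)]
    apply ENNReal.ofReal_le_ofReal
    exact hsub.lim_le_div hbdd (Nat.succ_ne_zero n)
  rw [le_antisymm hle hge]
  exact ht

theorem c6_cl_congr {x : G} {y : M} (h : ∀ k, IsProdComm k x ↔ IsProdComm k y) :
    cl x = cl y := by
  unfold cl
  simp only [h]

theorem scl_conj (x g : G) : scl (g * x * g⁻¹) = scl x := by
  unfold scl
  refine iInf_congr fun n => ?_
  congr 1
  rw [conj_pow]
  refine c6_cl_congr fun k => ⟨fun h => ?_, fun h => ipc_conj g h⟩
  have := ipc_conj g⁻¹ h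
  have e : g⁻¹ * (g * x ^ (n + 1) * g⁻¹) * g⁻¹⁻¹ = x ^ (n + 1) := by group
  rwa [e] at this

theorem scl_equiv (e : G ≃* M) (x : G) : scl (e x) = scl x := by
  unfold scl
  refine iInf_congr fun n => ?_
  congr 1
  rw [← map_pow]
  refine c6_cl_congr fun k => ⟨fun h => ?_, fun h => ipc_map e.toMonoidHom h⟩
  have := ipc_map e.symm.toMonoidHom h
  simpa using this

/-- The bound at one pair `(n, k)`. -/
theorem c8_le (t : M) {N K : ℕ} (hN : 1 ≤ N) (h : IsProdComm K (t ^ N)) :
    scl t ≤ (K : ℝ≥0∞) / (N : ℝ≥0∞) := by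
  obtain ⟨m, rfl⟩ : ∃ m, N = m + 1 := ⟨N - 1, by omega⟩
  exact (iInf_le _ m).trans (ENNReal.div_le_div_right (cl_le_of_ipc h) _)

theorem c8_bound (t : M) (c α β n k γ : ℕ) (hc : 1 ≤ c) (hα : 0 < α) (hn : 1 ≤ n)
    (hj : ∀ j : ℕ, 1 ≤ j → IsProdComm (c * β * k * j + γ) (t ^ (c * α * n * j))) :
    (α : ℝ≥0∞) * (n : ℝ≥0∞) * scl t ≤ (β : ℝ≥0∞) * (k : ℝ≥0∞) := by
  have hpos : 0 < c * α * n := by positivity
  have hle : ∀ j : ℕ, 1 ≤ j →
      scl t ≤ ((c * β * k * j + γ : ℕ) : ℝ≥0∞) / ((c * α * n * j : ℕ) : ℝ≥0∞) :=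
    fun j hj1 => c8_le t (Nat.mul_pos hpos hj1) (hj j hj1)
  have hfin : scl t ≠ ∞ := by
    refine ne_top_of_le_ne_top ?_ (hle 1 le_rfl)
    refine ENNReal.div_ne_top (ENNReal.natCast_ne_top _) ?_
    exact_mod_cast (Nat.mul_pos hpos Nat.one_pos).ne'
  set s : ℝ := (scl t).toReal with hs
  have hs' : scl t = ENNReal.ofReal s := (ENNReal.ofReal_toReal hfin).symm
  have hs0 : 0 ≤ s := ENNReal.toReal_nonneg
  have hreal : ∀ j : ℕ, 1 ≤ j →
      s * ((c : ℝ) * α * n * j) ≤ (c : ℝ) * β * k * j + γ := by
    intro j hj1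
    have hj0 : (0 : ℝ) < (c : ℝ) * α * n * j := by
      have : 0 < c * α * n * j := Nat.mul_pos hpos hj1
      exact_mod_cast this
    have h2 := hle j hj1
    have h3 : (scl t).toReal ≤
        (((c * β * k * j + γ : ℕ) : ℝ≥0∞) / ((c * α * n * j : ℕ) : ℝ≥0∞)).toReal := by
      refine ENNReal.toReal_mono ?_ h2
      refine ENNReal.div_ne_top (ENNReal.natCast_ne_top _) ?_
      exact_mod_cast (Nat.mul_pos hpos hj1).ne'
    rw [ENNReal.toReal_div, ENNReal.toReal_natCast, ENNReal.toReal_natCast] at h3
    push_cast at h3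
    rwa [le_div_iff₀ hj0] at h3
  have hmain : (α : ℝ) * n * s ≤ β * k := by
    by_contra hcon
    push Not at hcon
    set d : ℝ := (c : ℝ) * ((α : ℝ) * n * s - β * k) with hd
    have hcR : (1 : ℝ) ≤ c := by exact_mod_cast hc
    have hd0 : 0 < d := mul_pos (by linarith) (by linarith)
    obtain ⟨j, hj2⟩ := exists_nat_gt ((γ : ℝ) / d)
    have hj3 : (γ : ℝ) < d * ((j + 1 : ℕ) : ℝ) := by
      rw [div_lt_iff₀ hd0] at hj2
      push_cast
      nlinarith
    have h4 := hreal (j + 1) (Nat.succ_le_succ (Nat.zero_le j))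
    have h5 : d * ((j + 1 : ℕ) : ℝ) = s * ((c : ℝ) * α * n * ((j + 1 : ℕ) : ℝ)) -
        (c : ℝ) * β * k * ((j + 1 : ℕ) : ℝ) := by
      rw [hd]; ring
    linarith
  rw [hs']
  have e1 : (α : ℝ≥0∞) * (n : ℝ≥0∞) * ENNReal.ofReal s = ENNReal.ofReal ((α : ℝ) * n * s) := by
    rw [ENNReal.ofReal_mul (by positivity), ENNReal.ofReal_mul (by positivity),
      ENNReal.ofReal_natCast, ENNReal.ofReal_natCast]
  have e2 : (β : ℝ≥0∞) * (k : ℝ≥0∞) = ENNReal.ofReal ((β : ℝ) * k) := by
    rw [ENNReal.ofReal_mul (by positivity), ENNReal.ofReal_natCast, ENNReal.ofReal_natCast]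
  rw [e1, e2]
  exact ENNReal.ofReal_le_ofReal hmain

/-- Comparison of stable commutator lengths. -/
theorem scl_ineq (x : G) (t : M) (α β : ℕ) (hα : 0 < α) (hβ : 0 < β)
    (H : ∀ n k : ℕ, 1 ≤ n → IsProdComm k (x ^ n) → ∃ c γ : ℕ, 1 ≤ c ∧ ∀ j : ℕ, 1 ≤ j →
      IsProdComm (c * β * k * j + γ) (t ^ (c * α * n * j))) :
    (α : ℝ≥0∞) * scl t ≤ (β : ℝ≥0∞) * scl x := by
  have hβ0 : (β : ℝ≥0∞) ≠ 0 := by exact_mod_cast hβ.ne'
  have hβt : (β : ℝ≥0∞) ≠ ∞ := ENNReal.natCast_ne_top β
  rw [mul_comm (β : ℝ≥0∞), ← ENNReal.div_le_iff hβ0 hβt]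
  unfold scl
  refine le_iInf fun n => ?_
  change (α : ℝ≥0∞) * scl t / (β : ℝ≥0∞) ≤ _
  rw [ENNReal.div_le_iff hβ0 hβt]
  by_cases hc : cl (x ^ (n + 1)) = ∞
  · rw [hc, ENNReal.top_div_of_ne_top (ENNReal.natCast_ne_top _), ENNReal.top_mul hβ0]
    exact le_top
  · obtain ⟨k, hk, hkx⟩ := exists_ipc_of_cl _ hc
    rw [hk]
    obtain ⟨c, γ, hc1, hj⟩ := H (n + 1) k (Nat.succ_le_succ (Nat.zero_le n)) hkx
    have h1 := c8_bound t c α β (n + 1) k γ hc1 hα (Nat.succ_le_succ (Nat.zero_le n)) hj
    have hn0 : ((n + 1 : ℕ) : ℝ≥0∞) ≠ 0 := by exact_mod_cast (Nat.succ_ne_zero n)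
    have hnt : ((n + 1 : ℕ) : ℝ≥0∞) ≠ ∞ := ENNReal.natCast_ne_top _
    rw [mul_comm ((k : ℝ≥0∞) / _) (β : ℝ≥0∞), ← mul_div_assoc,
      ENNReal.le_div_iff_mul_le (Or.inl hn0) (Or.inl hnt)]
    calc (α : ℝ≥0∞) * scl t * ((n + 1 : ℕ) : ℝ≥0∞)
        = (α : ℝ≥0∞) * ((n + 1 : ℕ) : ℝ≥0∞) * scl t := by ring
      _ ≤ (β : ℝ≥0∞) * (k : ℝ≥0∞) := h1

end scl

end Pool.Agent.Lib.MP_6a1159_al
end

section

/-! The Heisenberg group and the degree of endomorphisms of the surface group. -/

set_option autoImplicit false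

namespace Pool.Agent.Lib.MP_6a1159_al

variable {ι : Type}

/-- The integral Heisenberg group. -/
@[ext] structure Heis where
  x : ℤ
  y : ℤ
  z : ℤ

namespace Heis

instance : Mul Heis := ⟨fun u v => ⟨u.x + v.x, u.y + v.y, u.z + v.z + u.x * v.y⟩⟩
instance : One Heis := ⟨⟨0, 0, 0⟩⟩
instance : Inv Heis := ⟨fun u => ⟨-u.x, -u.y, -u.z + u.x * u.y⟩⟩

@[simp] theorem mul_x (u v : Heis) : (u * v).x = u.x + v.x := rfl
@[simp] theorem mul_y (u v : Heis) : (u * v).y = u.y + v.y := rfl
@[simp] theorem mul_z (u v : Heis) : (u * v).z = u.z + v.z + u.x * v.y := rfl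
@[simp] theorem one_x : (1 : Heis).x = 0 := rfl
@[simp] theorem one_y : (1 : Heis).y = 0 := rfl
@[simp] theorem one_z : (1 : Heis).z = 0 := rfl
@[simp] theorem inv_x (u : Heis) : (u⁻¹).x = -u.x := rfl
@[simp] theorem inv_y (u : Heis) : (u⁻¹).y = -u.y := rfl
@[simp] theorem inv_z (u : Heis) : (u⁻¹).z = -u.z + u.x * u.y := rfl

instance : Group Heis :=
  Group.ofLeftAxioms (fun a b c => by ext <;> simp <;> ring) (fun a => by ext <;> simp)
    (fun a => by ext <;> simp)

end Heis

/-- The value of a homomorphism to the Heisenberg group at the relator. -/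
theorem heis_relator (L : List ι) (Φ : FreeGroup (ι × Bool) →* Heis) :
    Φ (relator L) = ⟨0, 0, (L.map fun i => (Φ (fa i)).x * (Φ (fb i)).y -
      (Φ (fb i)).x * (Φ (fa i)).y).sum⟩ := by
  induction L with
  | nil =>
    show Φ 1 = _
    rw [map_one]
    rfl
  | cons i L ih =>
    have h : relator (i :: L) = (fa i * fb i * (fa i)⁻¹ * (fb i)⁻¹) * relator L := by
      simp [relator]
    rw [h, map_mul, ih]
    simp only [map_mul, map_inv, List.map_cons, List.sum_cons]
    ext
    · simp
    · simp
    · simp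
      ring

/-- The homomorphism to the Heisenberg group with given first two coordinates. -/
private noncomputable def o2_hom (L : List ι) (x y : SG L →* Multiplicative ℤ) :
    FreeGroup (ι × Bool) →* Heis :=
  FreeGroup.lift fun s => ⟨(x (proj L (FreeGroup.of s))).toAdd,
    (y (proj L (FreeGroup.of s))).toAdd, 0⟩

private theorem o2_hom_xy (L : List ι) (x y : SG L →* Multiplicative ℤ)
    (w : FreeGroup (ι × Bool)) : (o2_hom L x y w).x = (x (proj L w)).toAdd ∧
      (o2_hom L x y w).y = (y (proj L w)).toAdd := by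
  induction w using FreeGroup.induction_on with
  | C1 => simp
  | of s => simp [o2_hom]
  | inv_of s h => simp [h.1, h.2]
  | mul u v hu hv => simp [hu.1, hu.2, hv.1, hv.2]

/-- The words whose value in the Heisenberg group is a fixed multiple of the intersection form. -/
private def o2_sub (L : List ι) : Subgroup (FreeGroup (ι × Bool)) where
  carrier := {w | ∃ d : ℤ, ∀ x y : SG L →* Multiplicative ℤ,
    o2_hom L x y w = ⟨0, 0, d * inter L x y⟩}
  mul_mem' {a b} ha hb := by
    obtain ⟨d, hd⟩ := ha
    obtain ⟨e, he⟩ := hb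
    refine ⟨d + e, fun x y => ?_⟩
    rw [map_mul, hd, he]
    ext
    · simp
    · simp
    · simp
      ring
  one_mem' := ⟨0, fun x y => by
    rw [map_one]
    ext <;> simp⟩
  inv_mem' {a} ha := by
    obtain ⟨d, hd⟩ := ha
    refine ⟨-d, fun x y => ?_⟩
    rw [map_inv, hd]
    ext <;> simp

private theorem o2_normal (L : List ι) : (o2_sub L).Normal where
  conj_mem := by
    rintro w ⟨d, hd⟩ g
    refine ⟨d, fun x y => ?_⟩
    rw [map_mul, map_mul, map_inv, hd]
    ext
    · simp
    · simp
    · simp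
      ring

private theorem o2_mem (L : List ι) (w : FreeGroup (ι × Bool))
    (hw : w ∈ Subgroup.normalClosure ({relator L} : Set (FreeGroup (ι × Bool)))) :
    w ∈ o2_sub L := by
  have := o2_normal L
  refine Subgroup.normalClosure_le_normal ?_ hw
  rintro r hr
  rw [Set.mem_singleton_iff] at hr
  refine ⟨1, fun x y => ?_⟩
  rw [hr, heis_relator, one_mul]
  simp only [(o2_hom_xy L x y _).1, (o2_hom_xy L x y _).2]
  rfl

/-- Every endomorphism of the surface group has a degree. -/
theorem exists_deg (L : List ι) (f : SG L →* SG L) : ∃ d : ℤ, ∀ x y : SG L →* Multiplicative ℤ,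
    inter L (x.comp f) (y.comp f) = d * inter L x y := by
  have hsurj : ∀ s : ι × Bool, ∃ w, proj L w = f (proj L (FreeGroup.of s)) := fun s =>
    PresentedGroup.mk_surjective _ _
  choose E hE using hsurj
  have he : ∀ w, proj L (FreeGroup.lift E w) = f (proj L w) := by
    have h1 : (proj L).comp (FreeGroup.lift E) = f.comp (proj L) := by
      refine FreeGroup.ext_hom _ _ fun s => ?_
      rw [MonoidHom.comp_apply, FreeGroup.lift_apply_of, hE]
      rfl
    exact fun w => DFunLike.congr_fun h1 w
  have h2 : FreeGroup.lift E (relator L) ∈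
      Subgroup.normalClosure ({relator L} : Set (FreeGroup (ι × Bool))) := by
    rw [← QuotientGroup.eq_one_iff]
    have h3 := he (relator L)
    have h4 : proj L (relator L) = 1 := PresentedGroup.one_of_mem (Set.mem_singleton _)
    rw [h4, map_one] at h3
    exact h3
  obtain ⟨d, hd⟩ := o2_mem L _ h2
  refine ⟨d, fun x y => ?_⟩
  have h5 := congrArg Heis.z (hd x y)
  have h6 := heis_relator L ((o2_hom L x y).comp (FreeGroup.lift E))
  rw [MonoidHom.comp_apply] at h6
  rw [h6] at h5
  simp only [MonoidHom.comp_apply, (o2_hom_xy L x y _).1, (o2_hom_xy L x y _).2, he] at h5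
  exact h5

/-- The homomorphism to the Heisenberg group with given first two coordinates. -/
private def o3_hom (L : List ι) (x y : SG L →* Multiplicative ℤ) :
    FreeGroup (ι × Bool) →* Heis :=
  FreeGroup.lift fun s => ⟨(x (proj L (FreeGroup.of s))).toAdd,
    (y (proj L (FreeGroup.of s))).toAdd, 0⟩

private theorem o3_hom_xy (L : List ι) (x y : SG L →* Multiplicative ℤ)
    (w : FreeGroup (ι × Bool)) : (o3_hom L x y w).x = (x (proj L w)).toAdd ∧
      (o3_hom L x y w).y = (y (proj L w)).toAdd := by
  induction w using FreeGroup.induction_on with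
  | C1 => simp
  | of s => simp [o3_hom]
  | inv_of s h => simp [h.1, h.2]
  | mul u v hu hv => simp [hu.1, hu.2, hv.1, hv.2]

/-- Endomorphisms induced by endomorphisms of the free group fixing the relator preserve the
intersection form. -/
theorem inter_of_free (L : List ι) (e : FreeGroup (ι × Bool) →* FreeGroup (ι × Bool))
    (he : e (relator L) = relator L) (f : SG L →* SG L) (hf : ∀ w, f (proj L w) = proj L (e w))
    (x y : SG L →* Multiplicative ℤ) : inter L (x.comp f) (y.comp f) = inter L x y := by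
  have h1 := heis_relator L ((o3_hom L x y).comp e)
  have h2 := heis_relator L (o3_hom L x y)
  rw [MonoidHom.comp_apply, he] at h1
  have h3 := congrArg Heis.z (h1.symm.trans h2)
  simp only [MonoidHom.comp_apply, (o3_hom_xy L x y _).1, (o3_hom_xy L x y _).2, ← hf] at h3
  exact h3

/-- The automorphisms of the free group which fix the relator. -/
def StR (L : List ι) : Subgroup (MulAut (FreeGroup (ι × Bool))) where
  carrier := {e | e (relator L) = relator L}
  mul_mem' {a b} ha hb := by
    show a (b (relator L)) = relator L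
    rw [show b (relator L) = relator L from hb]
    exact ha
  one_mem' := rfl
  inv_mem' {a} ha := by
    show a⁻¹ (relator L) = relator L
    rw [MulAut.inv_apply, MulEquiv.symm_apply_eq]
    exact ha.symm

/-- They induce orientation preserving automorphisms of the surface group. -/
theorem exists_toAut (L : List ι) : ∃ T : StR L →* AutPlus L, ∀ (e : StR L) (w),
    (T e).1 (proj L w) = proj L (e.1 w) := by
  have hn : ∀ e : StR L, (Subgroup.normalClosure {relator L}).map (e.1 : FreeGroup (ι × Bool) →*
      FreeGroup (ι × Bool)) = Subgroup.normalClosure {relator L} := by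
    intro e
    rw [Subgroup.map_normalClosure _ _ e.1.surjective, Set.image_singleton]
    congr 2
    exact e.2
  let c : StR L → MulAut (SG L) := fun e => QuotientGroup.congr _ _ e.1 (hn e)
  have hc : ∀ e w, c e (proj L w) = proj L (e.1 w) := fun e w => rfl
  refine ⟨{
    toFun := fun e => ⟨c e, fun x y => ?_⟩
    map_one' := ?_
    map_mul' := ?_ }, fun e w => hc e w⟩
  · exact inter_of_free L e.1.toMonoidHom e.2 (c e).toMonoidHom (fun w => hc e w) x y
  · apply Subtype.ext
    ext w
    obtain ⟨w, rfl⟩ := PresentedGroup.mk_surjective _ w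
    exact hc 1 w
  · intro e e'
    apply Subtype.ext
    ext w
    obtain ⟨w, rfl⟩ := PresentedGroup.mk_surjective _ w
    show c (e * e') (proj L w) = c e (c e' (proj L w))
    rw [hc, hc, hc]
    rfl

/-- The homomorphism from the stabilizer of the relator to `AutPlus L`. -/
noncomputable def toAut (L : List ι) : StR L →* AutPlus L := (exists_toAut L).choose

theorem toAut_proj (L : List ι) (e : StR L) (w : FreeGroup (ι × Bool)) :
    (toAut L e).1 (proj L w) = proj L (e.1 w) := (exists_toAut L).choose_spec e w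

/-- Two elements of `AutPlus L` which agree on the generators are equal. -/
theorem autPlus_ext (L : List ι) (f g : AutPlus L) (ha : ∀ i, f.1 (ga L i) = g.1 (ga L i))
    (hb : ∀ i, f.1 (gb L i) = g.1 (gb L i)) : f = g := by
  apply Subtype.ext
  have h : f.1.toMonoidHom = g.1.toMonoidHom := by
    apply PresentedGroup.ext
    rintro ⟨i, s⟩
    cases s
    · exact ha i
    · exact hb i
  ext w
  exact DFunLike.congr_fun h w

/-- Renaming the handles. -/
theorem exists_reindex {κ : Type} [DecidableEq ι] [DecidableEq κ] (e : ι ≃ κ) (L : List ι) :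
    ∃ E : Mod L ≃* Mod (L.map e), ∀ i, E (tw L i) = tw (L.map e) (e i) := by
  obtain ⟨F, Fa, Fb⟩ : ∃ F : FreeGroup (ι × Bool) ≃* FreeGroup (κ × Bool),
      (∀ i, F (fa i) = fa (e i)) ∧ ∀ i, F (fb i) = fb (e i) :=
    ⟨FreeGroup.freeGroupCongr (e.prodCongr (Equiv.refl Bool)), fun i => by simp [fa],
      fun i => by simp [fb]⟩
  have Fr : F (relator L) = relator (L.map e) := by
    unfold relator
    rw [map_list_prod, List.map_map, List.map_map]
    congr 1
    apply List.map_congr_left
    intro j _
    simp only [Function.comp_apply, map_mul, map_inv, Fa, Fb]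
  have hn : (Subgroup.normalClosure {relator L}).map (F : FreeGroup (ι × Bool) →*
      FreeGroup (κ × Bool)) = Subgroup.normalClosure {relator (L.map e)} := by
    rw [Subgroup.map_normalClosure _ _ F.surjective, Set.image_singleton]
    rw [show (F : FreeGroup (ι × Bool) →* FreeGroup (κ × Bool)) (relator L) =
      relator (L.map e) from Fr]
  let S : SG L ≃* SG (L.map e) := QuotientGroup.congr _ _ F hn
  have hS : ∀ w, S (proj L w) = proj (L.map e) (F w) := fun w => rfl
  have Sa : ∀ i, S (ga L i) = ga (L.map e) (e i) := fun i => by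
    show S (proj L (fa i)) = _
    rw [hS, Fa]; rfl
  have Sb : ∀ i, S (gb L i) = gb (L.map e) (e i) := fun i => by
    show S (proj L (fb i)) = _
    rw [hS, Fb]; rfl
  have hI : ∀ x y : SG (L.map e) →* Multiplicative ℤ, inter (L.map e) x y =
      inter L (x.comp S.toMonoidHom) (y.comp S.toMonoidHom) := by
    intro x y
    unfold inter
    rw [List.map_map]
    congr 1
    apply List.map_congr_left
    intro j _
    have h1 : S.toMonoidHom (ga L j) = ga (L.map e) (e j) := Sa j
    have h2 : S.toMonoidHom (gb L j) = gb (L.map e) (e j) := Sb j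
    simp only [Function.comp_apply, MonoidHom.comp_apply, h1, h2]
  have hI' : ∀ x y : SG L →* Multiplicative ℤ, inter L x y =
      inter (L.map e) (x.comp S.symm.toMonoidHom) (y.comp S.symm.toMonoidHom) := by
    intro x y
    rw [hI]
    have h : ∀ z : SG L →* Multiplicative ℤ,
        (z.comp S.symm.toMonoidHom).comp S.toMonoidHom = z := by
      intro z
      ext w
      show (z (S.symm (S _))).toAdd = _
      rw [S.symm_apply_apply]
    rw [h, h]
  have m1 : ∀ f : AutPlus L, MulAut.congr S f.1 ∈ AutPlus (L.map e) := by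
    intro f x y
    have h : ∀ z : SG (L.map e) →* Multiplicative ℤ,
        (z.comp (MulAut.congr S f.1).toMonoidHom).comp S.toMonoidHom =
          (z.comp S.toMonoidHom).comp f.1.toMonoidHom := by
      intro z
      ext w
      show (z (S (f.1 (S.symm (S _))))).toAdd = _
      rw [S.symm_apply_apply]
      rfl
    rw [hI, h, h, f.2, ← hI]
  have m2 : ∀ f : AutPlus (L.map e), (MulAut.congr S).symm f.1 ∈ AutPlus L := by
    intro f x y
    have h : ∀ z : SG L →* Multiplicative ℤ,
        (z.comp ((MulAut.congr S).symm f.1).toMonoidHom).comp S.symm.toMonoidHom =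
          (z.comp S.symm.toMonoidHom).comp f.1.toMonoidHom := by
      intro z
      ext w
      show (z (S.symm (f.1 (S (S.symm _))))).toAdd = _
      rw [S.apply_symm_apply]
      rfl
    rw [hI', h, h, f.2, ← hI']
  let E1 : AutPlus L ≃* AutPlus (L.map e) := {
    toFun := fun f => ⟨MulAut.congr S f.1, m1 f⟩
    invFun := fun f => ⟨(MulAut.congr S).symm f.1, m2 f⟩
    left_inv := fun f => Subtype.ext ((MulAut.congr S).symm_apply_apply f.1)
    right_inv := fun f => Subtype.ext ((MulAut.congr S).apply_symm_apply f.1)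
    map_mul' := fun f g => Subtype.ext (map_mul (MulAut.congr S) f.1 g.1) }
  have hE1 : ∀ (f : AutPlus L) (w : SG L), (E1 f).1 (S w) = S (f.1 w) := by
    intro f w
    show S (f.1 (S.symm (S w))) = S (f.1 w)
    rw [S.symm_apply_apply]
  have hInn : (Inn L).map (E1 : AutPlus L →* AutPlus (L.map e)) = Inn (L.map e) := by
    ext f'
    constructor
    · rintro ⟨f, ⟨w, hw⟩, rfl⟩
      refine ⟨S w, ?_⟩
      have hw' : MulAut.conj w = f.1 := hw
      show MulAut.conj (S w) = (E1 f).1
      ext z
      obtain ⟨z, rfl⟩ := S.surjective z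
      rw [hE1, ← hw']
      simp
    · rintro ⟨w', hw⟩
      have hw' : MulAut.conj w' = f'.1 := hw
      refine ⟨E1.symm f', ⟨S.symm w', ?_⟩, E1.apply_symm_apply f'⟩
      show MulAut.conj (S.symm w') = (E1.symm f').1
      ext z
      apply S.injective
      rw [← hE1, E1.apply_symm_apply, ← hw']
      simp
  refine ⟨QuotientGroup.congr _ _ E1 hInn, fun i => ?_⟩
  show QuotientGroup.mk (E1 (twist L i)) = QuotientGroup.mk (twist (L.map e) (e i))
  congr 1
  apply autPlus_ext
  · intro k
    obtain ⟨j, rfl⟩ := e.surjective k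
    rw [← Sa, hE1, Sa]
    show S (twAut L i (ga L j)) = twAut (L.map e) (e i) (ga (L.map e) (e j))
    rw [twAut_a, twAut_a, Sa]
  · intro k
    obtain ⟨j, rfl⟩ := e.surjective k
    rw [← Sb, hE1, Sb]
    show S (twAut L i (gb L j)) = twAut (L.map e) (e i) (gb (L.map e) (e j))
    by_cases h : j = i
    · subst h
      rw [twAut_b, twAut_b, map_mul, Sa, Sb]
    · rw [twAut_b_ne L i j h, twAut_b_ne (L.map e) (e i) (e j) (fun hh => h (e.injective hh)), Sb]

end Pool.Agent.Lib.MP_6a1159_al
end

section

/-! Explicit automorphisms of the free group which fix the relator. The handles are `none` (the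
first one) and `some i`, `i ∈ L0`. -/

set_option autoImplicit false

namespace Pool.Agent.Lib.MP_6a1159_al

section general

variable {ι : Type} [DecidableEq ι]

theorem twFree_comp (i : ι) (k l : ℤ) (w : FreeGroup (ι × Bool)) :
    twFree i k (twFree i l w) = twFree i (k + l) w := by
  have h1 : (twFree i k).comp (twFree i l) = twFree i (k + l) := by
    refine FreeGroup.ext_hom _ _ fun x => ?_
    obtain ⟨j, s⟩ := x
    cases s
    · show twFree i k (twFree i l (fa j)) = twFree i (k + l) (fa j)
      simp only [twFree_a]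
    · show twFree i k (twFree i l (fb j)) = twFree i (k + l) (fb j)
      by_cases h : j = i
      · subst h
        simp only [twFree_b, map_mul, map_zpow, twFree_a]
        rw [zpow_add, mul_assoc]
      · simp only [twFree_b_ne i j _ h]
  exact DFunLike.congr_fun h1 w

theorem twFree_zero (i : ι) (w : FreeGroup (ι × Bool)) : twFree i 0 w = w := by
  have h1 : twFree i 0 = MonoidHom.id _ := by
    refine FreeGroup.ext_hom _ _ fun x => ?_
    obtain ⟨j, s⟩ := x
    cases s
    · exact twFree_a i j 0
    · by_cases h : j = i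
      · subst h
        have := twFree_b j 0
        simpa [fb] using this
      · exact twFree_b_ne i j 0 h
  exact DFunLike.congr_fun h1 w

/-- The automorphism `b_i ↦ b_i a_i` of the free group. -/
def twE (i : ι) : MulAut (FreeGroup (ι × Bool)) where
  toFun := twFree i 1
  invFun := twFree i (-1)
  left_inv w := by rw [twFree_comp]; exact twFree_zero i w
  right_inv w := by rw [twFree_comp]; exact twFree_zero i w
  map_mul' := map_mul _

/-- The endomorphism `a_i ↦ a_i b_i ^ (-k)`. -/
def twFree' (i : ι) (k : ℤ) : FreeGroup (ι × Bool) →* FreeGroup (ι × Bool) :=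
  FreeGroup.lift fun x => if x = (i, false) then fa i * fb i ^ (-k) else FreeGroup.of x

theorem twFree'_b (i j : ι) (k : ℤ) : twFree' i k (fb j) = fb j := by
  simp [twFree', fb]

theorem twFree'_a (i : ι) (k : ℤ) : twFree' i k (fa i) = fa i * fb i ^ (-k) := by
  simp [twFree', fa]

theorem twFree'_a_ne (i j : ι) (k : ℤ) (h : j ≠ i) : twFree' i k (fa j) = fa j := by
  simp [twFree', fa, h]

theorem twFree'_relator (i : ι) (k : ℤ) (L : List ι) : twFree' i k (relator L) = relator L := by
  unfold relator
  rw [map_list_prod, List.map_map]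
  congr 1
  apply List.map_congr_left
  intro j _
  by_cases h : j = i
  · subst h
    simp only [Function.comp_apply, map_mul, map_inv, twFree'_b, twFree'_a]
    group
  · simp only [Function.comp_apply, map_mul, map_inv, twFree'_b, twFree'_a_ne i j k h]

theorem twFree'_comp (i : ι) (k l : ℤ) (w : FreeGroup (ι × Bool)) :
    twFree' i k (twFree' i l w) = twFree' i (k + l) w := by
  have h1 : (twFree' i k).comp (twFree' i l) = twFree' i (k + l) := by
    refine FreeGroup.ext_hom _ _ fun x => ?_
    obtain ⟨j, s⟩ := x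
    cases s
    · show twFree' i k (twFree' i l (fa j)) = twFree' i (k + l) (fa j)
      by_cases h : j = i
      · subst h
        simp only [twFree'_a, map_mul, map_zpow, twFree'_b]
        rw [neg_add, zpow_add, mul_assoc]
      · simp only [twFree'_a_ne i j _ h]
    · show twFree' i k (twFree' i l (fb j)) = twFree' i (k + l) (fb j)
      simp only [twFree'_b]
  exact DFunLike.congr_fun h1 w

theorem twFree'_zero (i : ι) (w : FreeGroup (ι × Bool)) : twFree' i 0 w = w := by
  have h1 : twFree' i 0 = MonoidHom.id _ := by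
    refine FreeGroup.ext_hom _ _ fun x => ?_
    obtain ⟨j, s⟩ := x
    cases s
    · by_cases h : j = i
      · subst h
        have := twFree'_a j 0
        simpa [fa] using this
      · exact twFree'_a_ne i j 0 h
    · exact twFree'_b i j 0
  exact DFunLike.congr_fun h1 w

/-- The automorphism `a_i ↦ a_i b_i⁻¹` of the free group (the Dehn twist about `b_i`). -/
def twE' (i : ι) : MulAut (FreeGroup (ι × Bool)) where
  toFun := twFree' i 1
  invFun := twFree' i (-1)
  left_inv w := by rw [twFree'_comp]; exact twFree'_zero i w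
  right_inv w := by rw [twFree'_comp]; exact twFree'_zero i w
  map_mul' := map_mul _

theorem twE_mem (i : ι) (L : List ι) : twE i ∈ StR L := twFree_relator i 1 L

theorem twE'_mem (i : ι) (L : List ι) : twE' i ∈ StR L := twFree'_relator i 1 L

theorem twE_pow (i : ι) (m : ℕ) (w : FreeGroup (ι × Bool)) : (twE i ^ m) w = twFree i m w := by
  induction m generalizing w with
  | zero =>
    rw [pow_zero, Nat.cast_zero, twFree_zero]
    rfl
  | succ m ih =>
    rw [pow_succ, MulAut.mul_apply, ih]
    show twFree i m (twFree i 1 w) = _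
    rw [twFree_comp, Nat.cast_succ]

theorem twE'_pow (i : ι) (m : ℕ) (w : FreeGroup (ι × Bool)) : (twE' i ^ m) w = twFree' i m w := by
  induction m generalizing w with
  | zero =>
    rw [pow_zero, Nat.cast_zero, twFree'_zero]
    rfl
  | succ m ih =>
    rw [pow_succ, MulAut.mul_apply, ih]
    show twFree' i m (twFree' i 1 w) = _
    rw [twFree'_comp, Nat.cast_succ]

theorem toAut_twE (L : List ι) (i : ι) : toAut L ⟨twE i, twE_mem i L⟩ = twist L i := by
  apply autPlus_ext
  · intro j
    have h1 : (toAut L ⟨twE i, twE_mem i L⟩).1 (ga L j) = proj L (twFree i 1 (fa j)) :=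
      toAut_proj L ⟨twE i, twE_mem i L⟩ (fa j)
    rw [h1]
    exact (twHom_proj L i 1 (fa j)).symm
  · intro j
    have h1 : (toAut L ⟨twE i, twE_mem i L⟩).1 (gb L j) = proj L (twFree i 1 (fb j)) :=
      toAut_proj L ⟨twE i, twE_mem i L⟩ (fb j)
    rw [h1]
    exact (twHom_proj L i 1 (fb j)).symm

/-- Automorphisms of the free group which agree on the generators are equal. -/
theorem a2_ext {ι : Type} {f g : MulAut (FreeGroup (ι × Bool))}
    (ha : ∀ k, f (fa k) = g (fa k)) (hb : ∀ k, f (fb k) = g (fb k)) : f = g := by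
  have h : f.toMonoidHom = g.toMonoidHom := by
    refine FreeGroup.ext_hom _ _ fun x => ?_
    obtain ⟨k, s⟩ := x
    cases s
    · exact ha k
    · exact hb k
  ext w
  exact DFunLike.congr_fun h w

theorem twE_comm_twE (i j : ι) : Commute (twE i) (twE j) := by
  apply a2_ext
  · intro k
    show twFree i 1 (twFree j 1 (fa k)) = twFree j 1 (twFree i 1 (fa k))
    simp only [twFree_a]
  · intro k
    show twFree i 1 (twFree j 1 (fb k)) = twFree j 1 (twFree i 1 (fb k))
    by_cases hi : k = i
    · subst hi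
      by_cases hj : k = j
      · subst hj
        rfl
      · simp only [twFree_b, twFree_b_ne j k 1 hj, map_mul, map_zpow, twFree_a]
    · by_cases hj : k = j
      · subst hj
        simp only [twFree_b, twFree_b_ne i k 1 hi, map_mul, map_zpow, twFree_a]
      · simp only [twFree_b_ne i k 1 hi, twFree_b_ne j k 1 hj]

theorem twE'_comm_twE (i j : ι) (h : i ≠ j) : Commute (twE' i) (twE j) := by
  apply a2_ext
  · intro k
    show twFree' i 1 (twFree j 1 (fa k)) = twFree j 1 (twFree' i 1 (fa k))
    by_cases hi : k = i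
    · subst hi
      simp only [twFree_a, twFree'_a, map_mul, map_zpow, twFree_b_ne j k 1 h]
    · simp only [twFree_a, twFree'_a_ne i k 1 hi]
  · intro k
    show twFree' i 1 (twFree j 1 (fb k)) = twFree j 1 (twFree' i 1 (fb k))
    by_cases hj : k = j
    · subst hj
      simp only [twFree_b, twFree'_b, map_mul, map_zpow, twFree'_a_ne i k 1 (Ne.symm h)]
    · simp only [twFree'_b, twFree_b_ne j k 1 hj]

end general

variable {κ : Type} [DecidableEq κ]

/-- The list of handles: `none` and then the handles in `L0`. -/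
abbrev BL {κ : Type} (L0 : List κ) : List (Option κ) := none :: L0.map some

/-- The product of the commutators of the handles in `P`. -/
def relS {κ : Type} (P : List κ) : FreeGroup (Option κ × Bool) := relator (P.map some)

theorem relS_append (P Q : List κ) : relS (P ++ Q) = relS P * relS Q := by
  simp [relS, relator]

theorem relS_cons (i : κ) (Q : List κ) : relS (i :: Q) =
    fa (some i) * fb (some i) * (fa (some i))⁻¹ * (fb (some i))⁻¹ * relS Q := by
  simp [relS, relator]

theorem relator_BL (L0 : List κ) : relator (BL L0) =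
    fa none * fb none * (fa none)⁻¹ * (fb none)⁻¹ * relS L0 := by
  simp [relS, relator]

/-- An endomorphism which fixes the generators of the handles in `P` fixes `relS P`. -/
theorem map_relS (f : FreeGroup (Option κ × Bool) →* FreeGroup (Option κ × Bool)) (P : List κ)
    (h : ∀ j ∈ P, f (fa (some j)) = fa (some j) ∧ f (fb (some j)) = fb (some j)) :
    f (relS P) = relS P := by
  unfold relS relator
  rw [map_list_prod, List.map_map, List.map_map, List.map_map]
  congr 1
  apply List.map_congr_left
  intro j hj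
  obtain ⟨h1, h2⟩ := h j hj
  simp only [Function.comp_apply, map_mul, map_inv, h1, h2]

/-! ### Rotation of the first handle -/

/-- `a ↦ a b a⁻¹`, `b ↦ a⁻¹` on the first handle. -/
def rotHom : FreeGroup (Option κ × Bool) →* FreeGroup (Option κ × Bool) :=
  FreeGroup.lift fun x => match x with
    | (none, false) => fa none * fb none * (fa none)⁻¹
    | (none, true) => (fa none)⁻¹
    | (some j, false) => fa (some j)
    | (some j, true) => fb (some j)

/-- The inverse of `rotHom`: `a ↦ b⁻¹`, `b ↦ b a b⁻¹`. -/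
def rotInv : FreeGroup (Option κ × Bool) →* FreeGroup (Option κ × Bool) :=
  FreeGroup.lift fun x => match x with
    | (none, false) => (fb none)⁻¹
    | (none, true) => fb none * fa none * (fb none)⁻¹
    | (some j, false) => fa (some j)
    | (some j, true) => fb (some j)

theorem a3_rot_a : rotHom (fa none : FreeGroup (Option κ × Bool)) =
    fa none * fb none * (fa none)⁻¹ := by
  simp [rotHom, fa]

theorem a3_rot_b : rotHom (fb none : FreeGroup (Option κ × Bool)) = (fa none)⁻¹ := by
  simp [rotHom, fb]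

theorem a3_rot_sa (j : κ) : rotHom (fa (some j)) = fa (some j) := by
  simp [rotHom, fa]

theorem a3_rot_sb (j : κ) : rotHom (fb (some j)) = fb (some j) := by
  simp [rotHom, fb]

theorem a3_inv_a : rotInv (fa none : FreeGroup (Option κ × Bool)) = (fb none)⁻¹ := by
  simp [rotInv, fa]

theorem a3_inv_b : rotInv (fb none : FreeGroup (Option κ × Bool)) =
    fb none * fa none * (fb none)⁻¹ := by
  simp [rotInv, fb]

theorem a3_inv_sa (j : κ) : rotInv (fa (some j)) = fa (some j) := by
  simp [rotInv, fa]

theorem a3_inv_sb (j : κ) : rotInv (fb (some j)) = fb (some j) := by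
  simp [rotInv, fb]

/-- Two endomorphisms which agree on the generators of the handles are equal. -/
theorem a3_ext {G : Type} [Group G] (f g : FreeGroup (Option κ × Bool) →* G)
    (h1 : f (fa none) = g (fa none)) (h2 : f (fb none) = g (fb none))
    (h3 : ∀ j, f (fa (some j)) = g (fa (some j))) (h4 : ∀ j, f (fb (some j)) = g (fb (some j))) :
    f = g := by
  refine FreeGroup.ext_hom _ _ ?_
  rintro ⟨_ | j, _ | _⟩
  · exact h1
  · exact h2
  · exact h3 j
  · exact h4 j

theorem rotInv_rotHom (w : FreeGroup (Option κ × Bool)) : rotInv (rotHom w) = w := by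
  have h : rotInv.comp rotHom = MonoidHom.id (FreeGroup (Option κ × Bool)) := by
    apply a3_ext
    · simp only [MonoidHom.comp_apply, MonoidHom.id_apply, a3_rot_a, map_mul, map_inv, a3_inv_a,
        a3_inv_b]
      group
    · simp only [MonoidHom.comp_apply, MonoidHom.id_apply, a3_rot_b, map_inv, a3_inv_a]
      group
    · intro j
      simp only [MonoidHom.comp_apply, MonoidHom.id_apply, a3_rot_sa, a3_inv_sa]
    · intro j
      simp only [MonoidHom.comp_apply, MonoidHom.id_apply, a3_rot_sb, a3_inv_sb]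
  exact DFunLike.congr_fun h w

theorem rotHom_rotInv (w : FreeGroup (Option κ × Bool)) : rotHom (rotInv w) = w := by
  have h : rotHom.comp rotInv = MonoidHom.id (FreeGroup (Option κ × Bool)) := by
    apply a3_ext
    · simp only [MonoidHom.comp_apply, MonoidHom.id_apply, a3_inv_a, map_inv, a3_rot_b]
      group
    · simp only [MonoidHom.comp_apply, MonoidHom.id_apply, a3_inv_b, map_mul, map_inv, a3_rot_a,
        a3_rot_b]
      group
    · intro j
      simp only [MonoidHom.comp_apply, MonoidHom.id_apply, a3_rot_sa, a3_inv_sa]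
    · intro j
      simp only [MonoidHom.comp_apply, MonoidHom.id_apply, a3_rot_sb, a3_inv_sb]
  exact DFunLike.congr_fun h w

/-- The rotation of the first handle. -/
def rotE : MulAut (FreeGroup (Option κ × Bool)) where
  toFun := rotHom
  invFun := rotInv
  left_inv := rotInv_rotHom
  right_inv := rotHom_rotInv
  map_mul' := map_mul _

theorem rotE_mem (L0 : List κ) : (rotE : MulAut (FreeGroup (Option κ × Bool))) ∈ StR (BL L0) := by
  show rotHom (relator (BL L0)) = relator (BL L0)
  rw [relator_BL, map_mul, map_relS rotHom L0 fun j _ => ⟨a3_rot_sa j, a3_rot_sb j⟩]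
  simp only [map_mul, map_inv, a3_rot_a, a3_rot_b]
  group

/-- Equality of automorphisms of the free group, generator by generator. -/
theorem a3_aut_ext (f g : MulAut (FreeGroup (Option κ × Bool)))
    (h1 : f (fa none) = g (fa none)) (h2 : f (fb none) = g (fb none))
    (h3 : ∀ j, f (fa (some j)) = g (fa (some j))) (h4 : ∀ j, f (fb (some j)) = g (fb (some j))) :
    f = g := by
  have h : f.toMonoidHom = g.toMonoidHom := a3_ext _ _ h1 h2 h3 h4
  ext w
  exact DFunLike.congr_fun h w

theorem rotE_conj : (rotE : MulAut (FreeGroup (Option κ × Bool)))⁻¹ * twE none * rotE =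
    twE' none := by
  apply a3_aut_ext
  · show rotInv (twFree none 1 (rotHom (fa (none : Option κ)))) = twFree' none 1 (fa (none : Option κ))
    simp only [a3_rot_a, map_mul, map_inv, twFree_a, twFree_b, twFree'_a, a3_inv_a, a3_inv_b,
      map_zpow]
    group
  · show rotInv (twFree none 1 (rotHom (fb (none : Option κ)))) = twFree' none 1 (fb (none : Option κ))
    simp only [a3_rot_b, map_inv, twFree_a, twFree'_b, a3_inv_a, inv_inv]
  · intro j
    show rotInv (twFree none 1 (rotHom (fa (some j)))) = twFree' none 1 (fa (some j))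
    rw [a3_rot_sa, twFree_a, a3_inv_sa, twFree'_a_ne _ _ _ (by simp)]
  · intro j
    show rotInv (twFree none 1 (rotHom (fb (some j)))) = twFree' none 1 (fb (some j))
    rw [a3_rot_sb, twFree_b_ne _ _ _ (by simp), a3_inv_sb, twFree'_b]

theorem rotE_comm (i : κ) : Commute (rotE : MulAut (FreeGroup (Option κ × Bool)))
    (twE (some i)) := by
  apply a3_aut_ext
  · show rotHom (twFree (some i) 1 (fa none)) = twFree (some i) 1 (rotHom (fa none))
    simp only [a3_rot_a, map_mul, map_inv, twFree_a,
      twFree_b_ne (some i) none 1 (by simp)]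
  · show rotHom (twFree (some i) 1 (fb none)) = twFree (some i) 1 (rotHom (fb none))
    simp only [a3_rot_b, map_inv, twFree_a,
      twFree_b_ne (some i) none 1 (by simp)]
  · intro j
    show rotHom (twFree (some i) 1 (fa (some j))) = twFree (some i) 1 (rotHom (fa (some j)))
    simp only [twFree_a, a3_rot_sa]
  · intro j
    show rotHom (twFree (some i) 1 (fb (some j))) = twFree (some i) 1 (rotHom (fb (some j)))
    by_cases h : j = i
    · subst h
      simp only [twFree_b, a3_rot_sb, a3_rot_sa, map_mul, map_zpow]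
    · have h' : (some j : Option κ) ≠ some i := fun hh => h (Option.some.inj hh)
      simp only [twFree_b_ne (some i) (some j) 1 h', a3_rot_sb]

/-! ### Pushing the first handle along the handle `i` -/

/-- The curve `b a⁻¹ b⁻¹ · P a_i P⁻¹`. -/
def pushW (P : List κ) (i : κ) : FreeGroup (Option κ × Bool) :=
  fb none * (fa none)⁻¹ * (fb none)⁻¹ * (relS P * fa (some i) * (relS P)⁻¹)

/-- The curve `pushW`, moved to the handle `i`. -/
def pushW' (P : List κ) (i : κ) : FreeGroup (Option κ × Bool) :=
  (relS P)⁻¹ * pushW P i * relS P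

/-- The `k`-th power of the Dehn twist about `pushW P i`. -/
def pushHom (P : List κ) (i : κ) (k : ℤ) :
    FreeGroup (Option κ × Bool) →* FreeGroup (Option κ × Bool) :=
  FreeGroup.lift fun x => match x with
    | (none, false) => fa none
    | (none, true) => pushW P i ^ (-k) * fb none
    | (some j, false) =>
        if j = i then pushW' P i ^ (-k) * fa (some i) * pushW' P i ^ k else fa (some j)
    | (some j, true) => if j = i then fb (some i) * pushW' P i ^ k else fb (some j)

theorem a4_a (P : List κ) (i : κ) (k : ℤ) : pushHom P i k (fa none) = fa none := by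
  simp [pushHom, fa]

theorem a4_b (P : List κ) (i : κ) (k : ℤ) :
    pushHom P i k (fb none) = pushW P i ^ (-k) * fb none := by
  simp [pushHom, fb]

theorem a4_ai (P : List κ) (i : κ) (k : ℤ) :
    pushHom P i k (fa (some i)) = pushW' P i ^ (-k) * fa (some i) * pushW' P i ^ k := by
  simp [pushHom, fa]

theorem a4_bi (P : List κ) (i : κ) (k : ℤ) :
    pushHom P i k (fb (some i)) = fb (some i) * pushW' P i ^ k := by
  simp [pushHom, fb]

theorem a4_aj (P : List κ) (i j : κ) (k : ℤ) (h : j ≠ i) :
    pushHom P i k (fa (some j)) = fa (some j) := by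
  simp [pushHom, fa, h]

theorem a4_bj (P : List κ) (i j : κ) (k : ℤ) (h : j ≠ i) :
    pushHom P i k (fb (some j)) = fb (some j) := by
  simp [pushHom, fb, h]

theorem a4_relS (P : List κ) (i : κ) (hi : i ∉ P) (k : ℤ) :
    pushHom P i k (relS P) = relS P := by
  apply map_relS
  intro j hj
  have h : j ≠ i := fun h => hi (h ▸ hj)
  exact ⟨a4_aj P i j k h, a4_bj P i j k h⟩

theorem a4_zpow' (P : List κ) (i : κ) (k : ℤ) :
    pushW' P i ^ k = (relS P)⁻¹ * pushW P i ^ k * relS P := by
  have h : pushW' P i = (relS P)⁻¹ * pushW P i * ((relS P)⁻¹)⁻¹ := by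
    rw [inv_inv]
    rfl
  rw [h, conj_zpow, inv_inv]

theorem a4_W (P : List κ) (i : κ) (hi : i ∉ P) (k : ℤ) :
    pushHom P i k (pushW P i) = pushW P i := by
  have h1 : pushHom P i k (pushW P i) = pushW P i ^ (-k) *
      (fb none * (fa none)⁻¹ * (fb none)⁻¹ * (relS P * fa (some i) * (relS P)⁻¹)) *
        pushW P i ^ k := by
    conv_lhs => unfold pushW
    simp only [map_mul, map_inv, a4_a, a4_b, a4_ai, a4_relS P i hi, a4_zpow']
    group
  have h2 : fb none * (fa none)⁻¹ * (fb none)⁻¹ * (relS P * fa (some i) * (relS P)⁻¹) =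
      pushW P i := rfl
  rw [h1, h2]
  group

theorem a4_W' (P : List κ) (i : κ) (hi : i ∉ P) (k : ℤ) :
    pushHom P i k (pushW' P i) = pushW' P i := by
  have h1 : pushW' P i = (relS P)⁻¹ * pushW P i * relS P := rfl
  rw [h1]
  simp only [map_mul, map_inv, a4_relS P i hi, a4_W P i hi]

theorem pushHom_comp (P : List κ) (i : κ) (hi : i ∉ P) (k l : ℤ)
    (w : FreeGroup (Option κ × Bool)) :
    pushHom P i k (pushHom P i l w) = pushHom P i (k + l) w := by
  have h1 : (pushHom P i k).comp (pushHom P i l) = pushHom P i (k + l) := by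
    refine FreeGroup.ext_hom _ _ ?_
    rintro ⟨_ | j, _ | _⟩
    · show pushHom P i k (pushHom P i l (fa none)) = pushHom P i (k + l) (fa none)
      simp only [a4_a]
    · show pushHom P i k (pushHom P i l (fb none)) = pushHom P i (k + l) (fb none)
      simp only [a4_b, map_mul, map_zpow, a4_W P i hi]
      rw [← mul_assoc, ← zpow_add]
      congr 2
      ring
    · show pushHom P i k (pushHom P i l (fa (some j))) = pushHom P i (k + l) (fa (some j))
      by_cases h : j = i
      · subst h
        simp only [a4_ai, map_mul, map_zpow, a4_W' P j hi]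
        rw [zpow_add, neg_add_rev, zpow_add]
        group
      · simp only [a4_aj P i j _ h]
    · show pushHom P i k (pushHom P i l (fb (some j))) = pushHom P i (k + l) (fb (some j))
      by_cases h : j = i
      · subst h
        simp only [a4_bi, map_mul, map_zpow, a4_W' P j hi]
        rw [zpow_add, mul_assoc]
      · simp only [a4_bj P i j _ h]
  exact DFunLike.congr_fun h1 w

theorem pushHom_zero (P : List κ) (i : κ) (w : FreeGroup (Option κ × Bool)) :
    pushHom P i 0 w = w := by
  have h1 : pushHom P i 0 = MonoidHom.id _ := by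
    refine FreeGroup.ext_hom _ _ ?_
    rintro ⟨_ | j, _ | _⟩
    · exact a4_a P i 0
    · show pushHom P i 0 (fb none) = fb none
      simp only [a4_b, neg_zero, zpow_zero, one_mul]
    · show pushHom P i 0 (fa (some j)) = fa (some j)
      by_cases h : j = i
      · subst h
        simp only [a4_ai, neg_zero, zpow_zero, one_mul, mul_one]
      · exact a4_aj P i j 0 h
    · show pushHom P i 0 (fb (some j)) = fb (some j)
      by_cases h : j = i
      · subst h
        simp only [a4_bi, zpow_zero, mul_one]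
      · exact a4_bj P i j 0 h
  rw [h1]
  rfl

/-- The Dehn twist about `pushW P i`. -/
def pushE (P : List κ) (i : κ) (hi : i ∉ P) : MulAut (FreeGroup (Option κ × Bool)) where
  toFun := pushHom P i 1
  invFun := pushHom P i (-1)
  left_inv w := by rw [pushHom_comp P i hi]; exact pushHom_zero P i w
  right_inv w := by rw [pushHom_comp P i hi]; exact pushHom_zero P i w
  map_mul' := map_mul _

theorem pushE_pow (P : List κ) (i : κ) (hi : i ∉ P) (m : ℕ) (w : FreeGroup (Option κ × Bool)) :
    (pushE P i hi ^ m) w = pushHom P i m w := by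
  induction m generalizing w with
  | zero =>
    rw [pow_zero, Nat.cast_zero, pushHom_zero]
    rfl
  | succ m ih =>
    have h1 : (pushE P i hi ^ (m + 1)) w = (pushE P i hi ^ m) (pushHom P i 1 w) := by
      rw [pow_succ]
      rfl
    rw [h1, ih, pushHom_comp P i hi, Nat.cast_add, Nat.cast_one]

theorem a5_an (P : List κ) (i : κ) (k : ℤ) : pushHom P i k (fa none) = fa none := by
  simp [pushHom, fa]

theorem a5_bn (P : List κ) (i : κ) (k : ℤ) :
    pushHom P i k (fb none) = pushW P i ^ (-k) * fb none := by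
  simp [pushHom, fb]

theorem a5_ai (P : List κ) (i : κ) (k : ℤ) :
    pushHom P i k (fa (some i)) = pushW' P i ^ (-k) * fa (some i) * pushW' P i ^ k := by
  unfold pushHom
  conv_lhs => arg 2; unfold fa
  rw [FreeGroup.lift_apply_of]
  simp

theorem a5_bi (P : List κ) (i : κ) (k : ℤ) :
    pushHom P i k (fb (some i)) = fb (some i) * pushW' P i ^ k := by
  unfold pushHom
  conv_lhs => arg 2; unfold fb
  rw [FreeGroup.lift_apply_of]
  simp

theorem a5_aj (P : List κ) (i j : κ) (k : ℤ) (h : j ≠ i) :
    pushHom P i k (fa (some j)) = fa (some j) := by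
  unfold pushHom
  conv_lhs => arg 2; unfold fa
  rw [FreeGroup.lift_apply_of]
  simp [h]

theorem a5_bj (P : List κ) (i j : κ) (k : ℤ) (h : j ≠ i) :
    pushHom P i k (fb (some j)) = fb (some j) := by
  unfold pushHom
  conv_lhs => arg 2; unfold fb
  rw [FreeGroup.lift_apply_of]
  simp [h]

theorem a5_relS (P Q : List κ) (i : κ) (k : ℤ) (hQ : i ∉ Q) :
    pushHom P i k (relS Q) = relS Q := by
  refine map_relS _ _ fun j hj => ?_
  have h : j ≠ i := fun h => hQ (h ▸ hj)
  exact ⟨a5_aj P i j k h, a5_bj P i j k h⟩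

theorem a5_tw_relS (o : Option κ) (k : ℤ) (P : List κ) : twFree o k (relS P) = relS P :=
  twFree_relator o k _

theorem a5_tw_W (o : Option κ) (P : List κ) (i : κ) :
    twFree o 1 (pushW P i) = pushW P i := by
  unfold pushW
  simp only [map_mul, map_inv, a5_tw_relS, twFree_a]
  by_cases h : o = none
  · subst h
    rw [twFree_b]
    group
  · rw [twFree_b_ne o none 1 (Ne.symm h)]

theorem a5_tw_W' (o : Option κ) (P : List κ) (i : κ) :
    twFree o 1 (pushW' P i) = pushW' P i := by
  unfold pushW'
  simp only [map_mul, map_inv, a5_tw_relS, a5_tw_W]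

theorem pushE_mem (P Q : List κ) (i : κ) (hi : i ∉ P) (hQ : i ∉ Q) :
    pushE P i hi ∈ StR (BL (P ++ i :: Q)) := by
  show pushHom P i 1 (relator (BL (P ++ i :: Q))) = relator (BL (P ++ i :: Q))
  rw [relator_BL, relS_append, relS_cons]
  simp only [map_mul, map_inv, a5_an, a5_bn, a5_ai, a5_bi, a5_relS P P i 1 hi,
    a5_relS P Q i 1 hQ, pushW', pushW]
  group

theorem a5_comm (P : List κ) (i : κ) (o : Option κ)
    (x : Option κ × Bool) : pushHom P i 1 (twFree o 1 (FreeGroup.of x)) =
      twFree o 1 (pushHom P i 1 (FreeGroup.of x)) := by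
  obtain ⟨l, s⟩ := x
  cases s
  · change pushHom P i 1 (twFree o 1 (fa l)) = twFree o 1 (pushHom P i 1 (fa l))
    rw [twFree_a]
    cases l with
    | none => rw [a5_an, twFree_a]
    | some l =>
      by_cases h : l = i
      · subst h
        rw [a5_ai]
        simp only [map_mul, map_zpow, a5_tw_W', twFree_a]
      · rw [a5_aj P i l 1 h, twFree_a]
  · change pushHom P i 1 (twFree o 1 (fb l)) = twFree o 1 (pushHom P i 1 (fb l))
    by_cases ho : l = o
    · subst ho
      rw [twFree_b]
      cases l with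
      | none =>
        simp only [map_mul, map_zpow, a5_bn, a5_an, a5_tw_W, twFree_b]
        group
      | some l =>
        by_cases h : l = i
        · subst h
          simp only [map_mul, map_zpow, a5_bi, a5_ai, a5_tw_W', twFree_b]
          group
        · simp only [map_mul, map_zpow, a5_bj P i l 1 h, a5_aj P i l 1 h, twFree_b]
    · rw [twFree_b_ne o l 1 ho]
      cases l with
      | none =>
        simp only [map_mul, map_zpow, a5_bn, a5_tw_W, twFree_b_ne o none 1 ho]
      | some l =>
        by_cases h : l = i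
        · subst h
          simp only [map_mul, map_zpow, a5_bi, a5_tw_W', twFree_b_ne o (some l) 1 ho]
        · simp only [a5_bj P i l 1 h, twFree_b_ne o (some l) 1 ho]

theorem a5_commute (P : List κ) (i : κ) (hi : i ∉ P) (o : Option κ) :
    Commute (pushE P i hi) (twE o) := by
  have h : (pushHom P i 1).comp (twFree o 1) = (twFree o 1).comp (pushHom P i 1) :=
    FreeGroup.ext_hom _ _ fun x => a5_comm P i o x
  show pushE P i hi * twE o = twE o * pushE P i hi
  ext w
  exact DFunLike.congr_fun h w

theorem pushE_comm_none (P : List κ) (i : κ) (hi : i ∉ P) :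
    Commute (pushE P i hi) (twE none) := a5_commute P i hi none

theorem pushE_comm_some (P : List κ) (i j : κ) (hi : i ∉ P) :
    Commute (pushE P i hi) (twE (some j)) := a5_commute P i hi (some j)

/-! ### Exchanging the first handle and the handle `i` -/

/-- The exchange of the handles `none` and `some i`. -/
def exHom (P : List κ) (i : κ) : FreeGroup (Option κ × Bool) →* FreeGroup (Option κ × Bool) :=
  FreeGroup.lift fun x => match x with
    | (none, false) => (fa none * fb none * (fa none)⁻¹ * (fb none)⁻¹ * relS P) * fa (some i) *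
        (fa none * fb none * (fa none)⁻¹ * (fb none)⁻¹ * relS P)⁻¹
    | (none, true) => (fa none * fb none * (fa none)⁻¹ * (fb none)⁻¹ * relS P) * fb (some i) *
        (fa none * fb none * (fa none)⁻¹ * (fb none)⁻¹ * relS P)⁻¹
    | (some j, false) => if j = i then (relS P)⁻¹ * fa none * relS P else fa (some j)
    | (some j, true) => if j = i then (relS P)⁻¹ * fb none * relS P else fb (some j)

/-- The inverse of `exHom P i`. -/
def exInv (P : List κ) (i : κ) : FreeGroup (Option κ × Bool) →* FreeGroup (Option κ × Bool) :=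
  FreeGroup.lift fun x => match x with
    | (none, false) => relS P * fa (some i) * (relS P)⁻¹
    | (none, true) => relS P * fb (some i) * (relS P)⁻¹
    | (some j, false) => if j = i then
        (relS P * (fa (some i) * fb (some i) * (fa (some i))⁻¹ * (fb (some i))⁻¹))⁻¹ * fa none *
          (relS P * (fa (some i) * fb (some i) * (fa (some i))⁻¹ * (fb (some i))⁻¹))
        else fa (some j)
    | (some j, true) => if j = i then
        (relS P * (fa (some i) * fb (some i) * (fa (some i))⁻¹ * (fb (some i))⁻¹))⁻¹ * fb none *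
          (relS P * (fa (some i) * fb (some i) * (fa (some i))⁻¹ * (fb (some i))⁻¹))
        else fb (some j)

/-- Two endomorphisms which agree on the generators of the handles are equal. -/
theorem a6_ext {G : Type} [Group G] (f g : FreeGroup (Option κ × Bool) →* G)
    (h1 : f (fa none) = g (fa none)) (h2 : f (fb none) = g (fb none))
    (h3 : ∀ j, f (fa (some j)) = g (fa (some j))) (h4 : ∀ j, f (fb (some j)) = g (fb (some j))) :
    f = g := by
  refine FreeGroup.ext_hom _ _ ?_
  rintro ⟨_ | j, _ | _⟩
  · exact h1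
  · exact h2
  · exact h3 j
  · exact h4 j

theorem a6_hom_a (P : List κ) (i : κ) : exHom P i (fa none) =
    (fa none * fb none * (fa none)⁻¹ * (fb none)⁻¹ * relS P) * fa (some i) *
        (fa none * fb none * (fa none)⁻¹ * (fb none)⁻¹ * relS P)⁻¹ := by
  show exHom P i (FreeGroup.of (none, false)) = _
  rw [exHom, FreeGroup.lift_apply_of]

theorem a6_hom_b (P : List κ) (i : κ) : exHom P i (fb none) =
    (fa none * fb none * (fa none)⁻¹ * (fb none)⁻¹ * relS P) * fb (some i) *
        (fa none * fb none * (fa none)⁻¹ * (fb none)⁻¹ * relS P)⁻¹ := by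
  show exHom P i (FreeGroup.of (none, true)) = _
  rw [exHom, FreeGroup.lift_apply_of]

theorem a6_hom_sa (P : List κ) (i : κ) : exHom P i (fa (some i)) =
    (relS P)⁻¹ * fa none * relS P := by
  show exHom P i (FreeGroup.of (some i, false)) = _
  rw [exHom, FreeGroup.lift_apply_of]
  simp

theorem a6_hom_sb (P : List κ) (i : κ) : exHom P i (fb (some i)) =
    (relS P)⁻¹ * fb none * relS P := by
  show exHom P i (FreeGroup.of (some i, true)) = _
  rw [exHom, FreeGroup.lift_apply_of]
  simp

theorem a6_hom_sa_ne (P : List κ) (i j : κ) (h : j ≠ i) : exHom P i (fa (some j)) =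
    fa (some j) := by
  show exHom P i (FreeGroup.of (some j, false)) = _
  rw [exHom, FreeGroup.lift_apply_of]
  simp [h]

theorem a6_hom_sb_ne (P : List κ) (i j : κ) (h : j ≠ i) : exHom P i (fb (some j)) =
    fb (some j) := by
  show exHom P i (FreeGroup.of (some j, true)) = _
  rw [exHom, FreeGroup.lift_apply_of]
  simp [h]

theorem a6_inv_a (P : List κ) (i : κ) : exInv P i (fa none) =
    relS P * fa (some i) * (relS P)⁻¹ := by
  show exInv P i (FreeGroup.of (none, false)) = _
  rw [exInv, FreeGroup.lift_apply_of]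

theorem a6_inv_b (P : List κ) (i : κ) : exInv P i (fb none) =
    relS P * fb (some i) * (relS P)⁻¹ := by
  show exInv P i (FreeGroup.of (none, true)) = _
  rw [exInv, FreeGroup.lift_apply_of]

theorem a6_inv_sa (P : List κ) (i : κ) : exInv P i (fa (some i)) =
    (relS P * (fa (some i) * fb (some i) * (fa (some i))⁻¹ * (fb (some i))⁻¹))⁻¹ * fa none *
          (relS P * (fa (some i) * fb (some i) * (fa (some i))⁻¹ * (fb (some i))⁻¹)) := by
  show exInv P i (FreeGroup.of (some i, false)) = _
  rw [exInv, FreeGroup.lift_apply_of]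
  simp

theorem a6_inv_sb (P : List κ) (i : κ) : exInv P i (fb (some i)) =
    (relS P * (fa (some i) * fb (some i) * (fa (some i))⁻¹ * (fb (some i))⁻¹))⁻¹ * fb none *
          (relS P * (fa (some i) * fb (some i) * (fa (some i))⁻¹ * (fb (some i))⁻¹)) := by
  show exInv P i (FreeGroup.of (some i, true)) = _
  rw [exInv, FreeGroup.lift_apply_of]
  simp

theorem a6_inv_sa_ne (P : List κ) (i j : κ) (h : j ≠ i) : exInv P i (fa (some j)) =
    fa (some j) := by
  show exInv P i (FreeGroup.of (some j, false)) = _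
  rw [exInv, FreeGroup.lift_apply_of]
  simp [h]

theorem a6_inv_sb_ne (P : List κ) (i j : κ) (h : j ≠ i) : exInv P i (fb (some j)) =
    fb (some j) := by
  show exInv P i (FreeGroup.of (some j, true)) = _
  rw [exInv, FreeGroup.lift_apply_of]
  simp [h]

theorem a6_hom_relS (P : List κ) (i : κ) (hi : i ∉ P) : exHom P i (relS P) = relS P :=
  map_relS _ P fun j hj =>
    have h : j ≠ i := fun hh => hi (hh ▸ hj)
    ⟨a6_hom_sa_ne P i j h, a6_hom_sb_ne P i j h⟩

theorem a6_inv_relS (P : List κ) (i : κ) (hi : i ∉ P) : exInv P i (relS P) = relS P :=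
  map_relS _ P fun j hj =>
    have h : j ≠ i := fun hh => hi (hh ▸ hj)
    ⟨a6_inv_sa_ne P i j h, a6_inv_sb_ne P i j h⟩

theorem exInv_exHom (P : List κ) (i : κ) (hi : i ∉ P) (w : FreeGroup (Option κ × Bool)) :
    exInv P i (exHom P i w) = w := by
  have h : (exInv P i).comp (exHom P i) = MonoidHom.id (FreeGroup (Option κ × Bool)) := by
    apply a6_ext
    · simp only [MonoidHom.comp_apply, MonoidHom.id_apply, a6_hom_a, map_mul, map_inv, a6_inv_a,
        a6_inv_b, a6_inv_relS P i hi, a6_inv_sa]
      group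
    · simp only [MonoidHom.comp_apply, MonoidHom.id_apply, a6_hom_b, map_mul, map_inv, a6_inv_a,
        a6_inv_b, a6_inv_relS P i hi, a6_inv_sb]
      group
    · intro j
      by_cases hj : j = i
      · subst hj
        simp only [MonoidHom.comp_apply, MonoidHom.id_apply, a6_hom_sa, map_mul, map_inv,
          a6_inv_relS P j hi, a6_inv_a]
        group
      · simp only [MonoidHom.comp_apply, MonoidHom.id_apply, a6_hom_sa_ne P i j hj,
          a6_inv_sa_ne P i j hj]
    · intro j
      by_cases hj : j = i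
      · subst hj
        simp only [MonoidHom.comp_apply, MonoidHom.id_apply, a6_hom_sb, map_mul, map_inv,
          a6_inv_relS P j hi, a6_inv_b]
        group
      · simp only [MonoidHom.comp_apply, MonoidHom.id_apply, a6_hom_sb_ne P i j hj,
          a6_inv_sb_ne P i j hj]
  exact DFunLike.congr_fun h w

theorem exHom_exInv (P : List κ) (i : κ) (hi : i ∉ P) (w : FreeGroup (Option κ × Bool)) :
    exHom P i (exInv P i w) = w := by
  have h : (exHom P i).comp (exInv P i) = MonoidHom.id (FreeGroup (Option κ × Bool)) := by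
    apply a6_ext
    · simp only [MonoidHom.comp_apply, MonoidHom.id_apply, a6_inv_a, map_mul, map_inv,
        a6_hom_relS P i hi, a6_hom_sa]
      group
    · simp only [MonoidHom.comp_apply, MonoidHom.id_apply, a6_inv_b, map_mul, map_inv,
        a6_hom_relS P i hi, a6_hom_sb]
      group
    · intro j
      by_cases hj : j = i
      · subst hj
        simp only [MonoidHom.comp_apply, MonoidHom.id_apply, a6_inv_sa, map_mul, map_inv,
          a6_hom_relS P j hi, a6_hom_a, a6_hom_sa, a6_hom_sb]
        group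
      · simp only [MonoidHom.comp_apply, MonoidHom.id_apply, a6_hom_sa_ne P i j hj,
          a6_inv_sa_ne P i j hj]
    · intro j
      by_cases hj : j = i
      · subst hj
        simp only [MonoidHom.comp_apply, MonoidHom.id_apply, a6_inv_sb, map_mul, map_inv,
          a6_hom_relS P j hi, a6_hom_b, a6_hom_sa, a6_hom_sb]
        group
      · simp only [MonoidHom.comp_apply, MonoidHom.id_apply, a6_hom_sb_ne P i j hj,
          a6_inv_sb_ne P i j hj]
  exact DFunLike.congr_fun h w

/-- The exchange of the handles `none` and `some i`, as an automorphism. -/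
def exE (P : List κ) (i : κ) (hi : i ∉ P) : MulAut (FreeGroup (Option κ × Bool)) where
  toFun := exHom P i
  invFun := exInv P i
  left_inv := exInv_exHom P i hi
  right_inv := exHom_exInv P i hi
  map_mul' := map_mul _

private theorem a7_ex_a (P : List κ) (i : κ) : exHom P i (fa none) =
    (fa none * fb none * (fa none)⁻¹ * (fb none)⁻¹ * relS P) * fa (some i) *
        (fa none * fb none * (fa none)⁻¹ * (fb none)⁻¹ * relS P)⁻¹ := by
  exact FreeGroup.lift_apply_of

private theorem a7_ex_b (P : List κ) (i : κ) : exHom P i (fb none) =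
    (fa none * fb none * (fa none)⁻¹ * (fb none)⁻¹ * relS P) * fb (some i) *
        (fa none * fb none * (fa none)⁻¹ * (fb none)⁻¹ * relS P)⁻¹ := by
  exact FreeGroup.lift_apply_of

private theorem a7_ex_ai (P : List κ) (i : κ) : exHom P i (fa (some i)) =
    (relS P)⁻¹ * fa none * relS P := by
  refine (FreeGroup.lift_apply_of).trans ?_
  exact if_pos rfl

private theorem a7_ex_bi (P : List κ) (i : κ) : exHom P i (fb (some i)) =
    (relS P)⁻¹ * fb none * relS P := by
  refine (FreeGroup.lift_apply_of).trans ?_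
  exact if_pos rfl

private theorem a7_ex_aj (P : List κ) (i j : κ) (h : j ≠ i) :
    exHom P i (fa (some j)) = fa (some j) := by
  refine (FreeGroup.lift_apply_of).trans ?_
  exact if_neg h

private theorem a7_ex_bj (P : List κ) (i j : κ) (h : j ≠ i) :
    exHom P i (fb (some j)) = fb (some j) := by
  refine (FreeGroup.lift_apply_of).trans ?_
  exact if_neg h

private theorem a7_ex_relS (P Q : List κ) (i : κ) (hQ : i ∉ Q) :
    exHom P i (relS Q) = relS Q := by
  apply map_relS
  intro j hj
  have h : j ≠ i := fun h => hQ (h ▸ hj)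
  exact ⟨a7_ex_aj P i j h, a7_ex_bj P i j h⟩

theorem exE_mem (P Q : List κ) (i : κ) (hi : i ∉ P) (hQ : i ∉ Q) :
    exE P i hi ∈ StR (BL (P ++ i :: Q)) := by
  show exHom P i (relator (BL (P ++ i :: Q))) = relator (BL (P ++ i :: Q))
  rw [relator_BL, relS_append, relS_cons]
  simp only [map_mul, map_inv, a7_ex_a, a7_ex_b, a7_ex_ai, a7_ex_bi, a7_ex_relS P P i hi,
    a7_ex_relS P Q i hQ]
  group

private theorem a7_tw_relS (P : List κ) (k : ℤ) :
    twFree (none : Option κ) k (relS P) = relS P := by
  apply map_relS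
  intro j _
  exact ⟨twFree_a _ _ k, twFree_b_ne _ _ k (by simp)⟩

private theorem a7_conj (P : List κ) (i : κ) :
    (twFree (none : Option κ) 1).comp (exHom P i) = (exHom P i).comp (twFree (some i) 1) := by
  refine FreeGroup.ext_hom _ _ ?_
  rintro ⟨_ | j, _ | _⟩
  · show twFree none 1 (exHom P i (fa none)) = exHom P i (twFree (some i) 1 (fa none))
    rw [twFree_a, a7_ex_a]
    simp only [map_mul, map_inv, a7_tw_relS, twFree_a, twFree_b]
    group
  · show twFree none 1 (exHom P i (fb none)) = exHom P i (twFree (some i) 1 (fb none))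
    rw [twFree_b_ne _ _ 1 (show none ≠ some i by simp), a7_ex_b]
    simp only [map_mul, map_inv, a7_tw_relS, twFree_a, twFree_b,
      twFree_b_ne _ _ 1 (show some i ≠ none by simp)]
    group
  · show twFree none 1 (exHom P i (fa (some j))) = exHom P i (twFree (some i) 1 (fa (some j)))
    rw [twFree_a]
    by_cases h : j = i
    · subst h
      rw [a7_ex_ai]
      simp only [map_mul, map_inv, a7_tw_relS, twFree_a]
    · rw [a7_ex_aj P i j h, twFree_a]
  · show twFree none 1 (exHom P i (fb (some j))) = exHom P i (twFree (some i) 1 (fb (some j)))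
    by_cases h : j = i
    · subst h
      rw [twFree_b, map_mul, map_zpow, a7_ex_ai, a7_ex_bi]
      simp only [map_mul, map_inv, a7_tw_relS, twFree_b]
      group
    · rw [twFree_b_ne _ _ 1 (show some j ≠ some i from fun h' => h (Option.some_injective _ h')),
        a7_ex_bj P i j h, twFree_b_ne _ _ 1 (by simp)]

theorem exE_conj (P : List κ) (i : κ) (hi : i ∉ P) :
    (exE P i hi)⁻¹ * twE none * exE P i hi = twE (some i) := by
  rw [mul_assoc, inv_mul_eq_iff_eq_mul]
  ext1 w
  exact DFunLike.congr_fun (a7_conj P i) w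

end Pool.Agent.Lib.MP_6a1159_al
end

section

/-! Normal forms of cyclic coverings relative to the curve `a` of the first handle. -/

set_option autoImplicit false

namespace Pool.Agent.Lib.MP_6a1159_al

variable {κ : Type} [DecidableEq κ] {p : ℕ} [Fact p.Prime]

theorem n1_exp (u v : Multiplicative (ZMod p)) (hv : v ≠ 1) : ∃ m : ℕ, u * v ^ m = 1 := by
  have hV : v.toAdd ≠ 0 := fun h => hv (Multiplicative.toAdd.injective h)
  refine ⟨(-(u.toAdd / v.toAdd)).val, ?_⟩
  apply Multiplicative.toAdd.injective
  rw [toAdd_mul, toAdd_pow, nsmul_eq_mul, ZMod.natCast_zmod_val, toAdd_one]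
  field_simp
  ring

theorem n1_pushW' (c : FreeGroup (Option κ × Bool) →* Multiplicative (ZMod p)) (P : List κ)
    (j : κ) : c (pushW' P j) = (c (fa none))⁻¹ * c (fa (some j)) := by
  simp only [pushW', pushW, map_mul, map_inv]
  apply Multiplicative.toAdd.injective
  simp only [toAdd_mul, toAdd_inv]
  ring

theorem n1_push (P : List κ) (j : κ) (hj : j ∉ P)
    (H : Subgroup (MulAut (FreeGroup (Option κ × Bool))))
    (c : FreeGroup (Option κ × Bool) →* Multiplicative (ZMod p)) (h0 : c (fa none) ≠ 1)
    (hp : pushE P j hj ∈ H) (h1 : c (fa (some j)) = 1) :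
    ∃ e ∈ H, c (e (fa none)) = c (fa none) ∧ c (e (fa (some j))) = 1 ∧ c (e (fb (some j))) = 1 ∧
      ∀ k, k ≠ j → c (e (fa (some k))) = c (fa (some k)) ∧
        c (e (fb (some k))) = c (fb (some k)) := by
  obtain ⟨m, hm⟩ := n1_exp (c (fb (some j))) (c (pushW' P j)) (by
    rw [n1_pushW', h1, mul_one]
    exact inv_ne_one.mpr h0)
  refine ⟨pushE P j hj ^ m, H.pow_mem hp m, ?_, ?_, ?_, fun k hk => ⟨?_, ?_⟩⟩
  · rw [pushE_pow]
    simp [pushHom, fa]
  · rw [pushE_pow]
    have : pushHom P j m (fa (some j)) =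
        pushW' P j ^ (-(m : ℤ)) * fa (some j) * pushW' P j ^ (m : ℤ) := by
      simp [pushHom, fa]
    rw [this, map_mul, map_mul, h1, mul_one, ← map_mul, ← zpow_add, neg_add_cancel, zpow_zero,
      map_one]
  · rw [pushE_pow]
    have : pushHom P j m (fb (some j)) = fb (some j) * pushW' P j ^ (m : ℤ) := by
      simp [pushHom, fb]
    rw [this, map_mul, zpow_natCast, map_pow, hm]
  · rw [pushE_pow]
    simp [pushHom, fa, hk]
  · rw [pushE_pow]
    simp [pushHom, fb, hk]

theorem n1_first (j : κ)
    (H : Subgroup (MulAut (FreeGroup (Option κ × Bool))))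
    (c : FreeGroup (Option κ × Bool) →* Multiplicative (ZMod p))
    (hs : (twE (some j) ∈ H ∧ twE' (some j) ∈ H) ∨ c (fa (some j)) = 1) :
    ∃ e ∈ H, c (e (fa none)) = c (fa none) ∧ c (e (fa (some j))) = 1 ∧
      ∀ k, k ≠ j → c (e (fa (some k))) = c (fa (some k)) ∧
        c (e (fb (some k))) = c (fb (some k)) := by
  by_cases h1 : c (fa (some j)) = 1
  · exact ⟨1, H.one_mem, rfl, h1, fun k _ => ⟨rfl, rfl⟩⟩
  obtain ⟨hT, hT'⟩ := hs.resolve_right h1
  -- a first automorphism with `c (e (fb (some j))) ≠ 1`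
  obtain ⟨e, he, he0, hea, heb, hek⟩ : ∃ e ∈ H, c (e (fa none)) = c (fa none) ∧
      c (e (fa (some j))) = c (fa (some j)) ∧ c (e (fb (some j))) ≠ 1 ∧
      ∀ k, k ≠ j → c (e (fa (some k))) = c (fa (some k)) ∧
        c (e (fb (some k))) = c (fb (some k)) := by
    by_cases h2 : c (fb (some j)) = 1
    · refine ⟨twE (some j), hT, ?_, ?_, ?_, fun k hk => ⟨?_, ?_⟩⟩
      · show c (twFree (some j) 1 (fa none)) = _
        rw [twFree_a]
      · show c (twFree (some j) 1 (fa (some j))) = _
        rw [twFree_a]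
      · show c (twFree (some j) 1 (fb (some j))) ≠ 1
        rw [twFree_b, map_mul, h2, one_mul, zpow_one]
        exact h1
      · show c (twFree (some j) 1 (fa (some k))) = _
        rw [twFree_a]
      · show c (twFree (some j) 1 (fb (some k))) = _
        rw [twFree_b_ne _ _ _ (by simpa using hk)]
    · exact ⟨1, H.one_mem, rfl, rfl, h2, fun k _ => ⟨rfl, rfl⟩⟩
  obtain ⟨m, hm⟩ := n1_exp (c (e (fa (some j)))) (c (e (fb (some j))))⁻¹ (inv_ne_one.mpr heb)
  refine ⟨e * twE' (some j) ^ m, H.mul_mem he (H.pow_mem hT' m), ?_, ?_, fun k hk => ⟨?_, ?_⟩⟩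
  · rw [MulAut.mul_apply, twE'_pow, twFree'_a_ne _ _ _ (by simp)]
    exact he0
  · rw [MulAut.mul_apply, twE'_pow, twFree'_a, map_mul, map_mul, map_zpow, map_zpow, zpow_neg,
      zpow_natCast, ← inv_pow]
    exact hm
  · rw [MulAut.mul_apply, twE'_pow, twFree'_a_ne _ _ _ (by simpa using hk)]
    exact (hek k hk).1
  · rw [MulAut.mul_apply, twE'_pow, twFree'_b]
    exact (hek k hk).2

/-- One step: kill the values of `c` on the handle `j`. -/
theorem kill_one (P : List κ) (j : κ) (hj : j ∉ P)
    (H : Subgroup (MulAut (FreeGroup (Option κ × Bool))))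
    (c : FreeGroup (Option κ × Bool) →* Multiplicative (ZMod p)) (h0 : c (fa none) ≠ 1)
    (hp : pushE P j hj ∈ H)
    (hs : (twE (some j) ∈ H ∧ twE' (some j) ∈ H) ∨ c (fa (some j)) = 1) :
    ∃ e ∈ H, c (e (fa none)) = c (fa none) ∧ c (e (fa (some j))) = 1 ∧ c (e (fb (some j))) = 1 ∧
      ∀ k, k ≠ j → c (e (fa (some k))) = c (fa (some k)) ∧
        c (e (fb (some k))) = c (fb (some k)) := by
  obtain ⟨e, he, he0, hea, hek⟩ := n1_first j H c hs
  obtain ⟨e', he', he0', hea', heb', hek'⟩ := n1_push P j hj H (c.comp e.toMonoidHom)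
    (by show c (e (fa none)) ≠ 1; rw [he0]; exact h0) hp hea
  refine ⟨e * e', H.mul_mem he he', ?_, hea', heb', fun k hk => ⟨?_, ?_⟩⟩
  · exact he0'.trans he0
  · exact (hek' k hk).1.trans (hek k hk).1
  · exact (hek' k hk).2.trans (hek k hk).2

/-- In `ZMod p` (written multiplicatively), every element is killed by a multiple of a nonzero
element. -/
theorem n2_exists_pow (u v : Multiplicative (ZMod p)) (h : u ≠ 1) :
    ∃ m : ℕ, v * u ^ m = 1 := by
  have hu : u.toAdd ≠ 0 := fun h' => h (by
    rw [← ofAdd_toAdd u, h']; rfl)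
  refine ⟨(-(v.toAdd) / u.toAdd).val, ?_⟩
  apply Multiplicative.toAdd.injective
  rw [toAdd_mul, toAdd_pow, toAdd_one, nsmul_eq_mul, ZMod.natCast_val, ZMod.cast_id',
    id, div_mul_cancel₀ _ hu]
  ring

/-- Kill the values on a finite set of handles. -/
theorem n2_kill_set (L0 : List κ) (hc : ∀ k, k ∈ L0)
    (H : Subgroup (MulAut (FreeGroup (Option κ × Bool))))
    (c : FreeGroup (Option κ × Bool) →* Multiplicative (ZMod p)) (h0 : c (fa none) ≠ 1)
    (hp : ∀ (P : List κ) (j : κ) (Q : List κ) (hj : j ∉ P), L0 = P ++ j :: Q → pushE P j hj ∈ H)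
    (hs : ∀ j : κ, (twE (some j) ∈ H ∧ twE' (some j) ∈ H) ∨ c (fa (some j)) = 1)
    (S : Finset κ) :
    ∃ e ∈ H, c (e (fa none)) = c (fa none) ∧
      (∀ j ∈ S, c (e (fa (some j))) = 1 ∧ c (e (fb (some j))) = 1) ∧
      (∀ j, j ∉ S → c (e (fa (some j))) = c (fa (some j)) ∧
        c (e (fb (some j))) = c (fb (some j))) := by
  induction S using Finset.induction_on with
  | empty => exact ⟨1, H.one_mem, rfl, by simp, fun j _ => ⟨rfl, rfl⟩⟩
  | insert j S hjS ih =>
    obtain ⟨e, he, h1, h2, h3⟩ := ih
    obtain ⟨P, Q, hL, hjP⟩ : ∃ P Q, L0 = P ++ j :: Q ∧ j ∉ P := by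
      obtain ⟨P, Q, h, h'⟩ := List.eq_append_cons_of_mem (hc j)
      exact ⟨P, Q, h, h'⟩
    have hcc : ∀ w, (c.comp (e : MulAut (FreeGroup (Option κ × Bool))).toMonoidHom) w = c (e w) :=
      fun w => rfl
    obtain ⟨f, hf, g1, g2, g3, g4⟩ := kill_one P j hjP H
      (c.comp (e : MulAut (FreeGroup (Option κ × Bool))).toMonoidHom)
      (by rw [hcc, h1]; exact h0) (hp P j Q hjP hL)
      (by
        rcases hs j with h | h
        · exact Or.inl h
        · right
          rw [hcc, (h3 j hjS).1, h])
    simp only [hcc] at g1 g2 g3 g4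
    refine ⟨e * f, H.mul_mem he hf, ?_, ?_, ?_⟩
    · show c (e (f _)) = _
      rw [g1, h1]
    · intro k hk
      show c (e (f _)) = _ ∧ c (e (f _)) = _
      rcases Finset.mem_insert.1 hk with rfl | hk
      · exact ⟨g2, g3⟩
      · have hkj : k ≠ j := fun h => hjS (h ▸ hk)
        rw [(g4 k hkj).1, (g4 k hkj).2]
        exact h2 k hk
    · intro k hk
      show c (e (f _)) = _ ∧ c (e (f _)) = _
      rw [Finset.mem_insert, not_or] at hk
      rw [(g4 k hk.1).1, (g4 k hk.1).2]
      exact h3 k hk.2

/-- Kill all the values except at `a`. -/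
theorem kill (L0 : List κ) (hn : L0.Nodup) (hc : ∀ k, k ∈ L0)
    (H : Subgroup (MulAut (FreeGroup (Option κ × Bool))))
    (c : FreeGroup (Option κ × Bool) →* Multiplicative (ZMod p)) (h0 : c (fa none) ≠ 1)
    (hp : ∀ (P : List κ) (j : κ) (Q : List κ) (hj : j ∉ P), L0 = P ++ j :: Q → pushE P j hj ∈ H)
    (hs : ∀ j : κ, (twE (some j) ∈ H ∧ twE' (some j) ∈ H) ∨ c (fa (some j)) = 1)
    (ht : twE none ∈ H) :
    ∃ e ∈ H, c (e (fa none)) = c (fa none) ∧ c (e (fb none)) = 1 ∧
      ∀ j, c (e (fa (some j))) = 1 ∧ c (e (fb (some j))) = 1 := by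
  obtain ⟨e, he, h1, h2, -⟩ := n2_kill_set L0 hc H c h0 hp hs L0.toFinset
  obtain ⟨m, hm⟩ := n2_exists_pow (c (e (fa none))) (c (e (fb none))) (by rw [h1]; exact h0)
  have hne : ∀ j : κ, (some j : Option κ) ≠ none := fun j => Option.some_ne_none j
  refine ⟨e * twE none ^ m, H.mul_mem he (H.pow_mem ht m), ?_, ?_, ?_⟩
  · show c (e ((twE none ^ m) (fa none))) = _
    rw [twE_pow, twFree_a, h1]
  · show c (e ((twE none ^ m) (fb none))) = _
    rw [twE_pow, twFree_b, map_mul, map_mul, map_zpow, map_zpow, zpow_natCast, hm]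
  · intro j
    show c (e ((twE none ^ m) (fa (some j)))) = _ ∧ c (e ((twE none ^ m) (fb (some j)))) = _
    rw [twE_pow, twE_pow, twFree_a, twFree_b_ne none (some j) m (hne j)]
    exact h2 j (List.mem_toFinset.2 (hc j))

/-- The homomorphism `b ↦ 1` (first handle), all other generators to `0`. -/
def c00 (p : ℕ) : FreeGroup (Option κ × Bool) →* Multiplicative (ZMod p) :=
  FreeGroup.lift fun x => if x = (none, true) then Multiplicative.ofAdd 1 else 1

theorem n3_c00_b : c00 (κ := κ) p (fb none) = Multiplicative.ofAdd 1 := by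
  simp [c00, fb]

theorem n3_c00_of (x : Option κ × Bool) (hx : x ≠ (none, true)) :
    c00 (κ := κ) p (FreeGroup.of x) = 1 := by
  simp [c00, hx]

theorem n3_iff (c : FreeGroup (Option κ × Bool) →* Multiplicative (ZMod p))
    (hb : c (fb none) ≠ 1) (hx : ∀ x : Option κ × Bool, x ≠ (none, true) → c (FreeGroup.of x) = 1)
    (w : FreeGroup (Option κ × Bool)) : c w = 1 ↔ c00 p w = 1 := by
  let μ : Multiplicative (ZMod p) →* Multiplicative (ZMod p) :=
    AddMonoidHom.toMultiplicative (AddMonoidHom.mulLeft (Multiplicative.toAdd (c (fb none))))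
  have hμ : ∀ x, μ x = Multiplicative.ofAdd
      (Multiplicative.toAdd (c (fb none)) * Multiplicative.toAdd x) := fun x => rfl
  have hcomp : c = μ.comp (c00 p) := by
    refine FreeGroup.ext_hom _ _ fun x => ?_
    by_cases h : x = (none, true)
    · subst h
      show c (fb none) = μ (c00 p (fb none))
      rw [n3_c00_b, hμ, toAdd_ofAdd, mul_one, ofAdd_toAdd]
    · rw [hx x h, MonoidHom.comp_apply, n3_c00_of x h, map_one]
  have h1 : c w = μ (c00 p w) := DFunLike.congr_fun hcomp w
  rw [h1, hμ]
  constructor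
  · intro h
    have h2 : Multiplicative.toAdd (c (fb none)) * Multiplicative.toAdd (c00 p w) = 0 := h
    rcases mul_eq_zero.1 h2 with h3 | h3
    · exact absurd h3 hb
    · exact h3
  · intro h
    rw [h]
    show Multiplicative.toAdd (c (fb none)) * 0 = 0
    rw [mul_zero]

/-- After killing all values except at `a`, the rotation moves `c` to a multiple of `c00`. -/
theorem n3_rot (c : FreeGroup (Option κ × Bool) →* Multiplicative (ZMod p))
    (ha : c (fa none) ≠ 1) (hb : c (fb none) = 1)
    (hs : ∀ j, c (fa (some j)) = 1 ∧ c (fb (some j)) = 1)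
    (w : FreeGroup (Option κ × Bool)) : c (rotE w) = 1 ↔ c00 p w = 1 := by
  have h1 : c (rotE w) = (c.comp rotHom) w := rfl
  rw [h1]
  apply n3_iff
  · intro h
    apply ha
    have h2 : (c.comp rotHom) (fb none) = c ((fa none)⁻¹) := by
      simp [rotHom, fb]
    rw [h2, map_inv, inv_eq_one] at h
    exact h
  · rintro ⟨_ | j, _ | _⟩ hx
    · have h2 : (c.comp rotHom) (FreeGroup.of (none, false)) =
          c (fa none * fb none * (fa none)⁻¹) := by
        simp [rotHom]
      rw [h2, map_mul, map_mul, map_inv, hb, mul_one, mul_inv_cancel]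
    · exact absurd rfl hx
    · have h2 : (c.comp rotHom) (FreeGroup.of (some j, false)) = c (fa (some j)) := by
        simp [rotHom]
      rw [h2, (hs j).1]
    · have h2 : (c.comp rotHom) (FreeGroup.of (some j, true)) = c (fb (some j)) := by
        simp [rotHom]
      rw [h2, (hs j).2]

theorem n3_mem {G : Type} [Group G] {S : Subgroup G} {t x : G} (h : x ∈ S) (ht : Commute x t) :
    x ∈ S ⊓ Subgroup.centralizer {t} := by
  refine Subgroup.mem_inf.2 ⟨h, ?_⟩
  rw [Subgroup.mem_centralizer_singleton_iff]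
  exact ht

theorem n3_comm {G : Type} [Group G] {S : Subgroup G} {t x : G}
    (h : x ∈ S ⊓ Subgroup.centralizer {t}) : Commute x t := by
  have := (Subgroup.mem_inf.1 h).2
  rw [Subgroup.mem_centralizer_singleton_iff] at this
  exact this

/-- Every nontrivial homomorphism `c` can be moved to a multiple of `c00` by an automorphism which
conjugates the twist about `a` to the twist about `b` (if `c a ≠ 0`) or about some `a_i`
(if `c a = 0`). -/
theorem types (L0 : List κ) (hn : L0.Nodup) (hc : ∀ k, k ∈ L0)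
    (c : FreeGroup (Option κ × Bool) →* Multiplicative (ZMod p)) (hc1 : c ≠ 1) :
    ∃ e ∈ StR (BL L0), (∀ w, c (e w) = 1 ↔ c00 p w = 1) ∧
      ((c (fa none) ≠ 1 ∧ e⁻¹ * twE none * e = twE' none) ∨
        (c (fa none) = 1 ∧ ∃ i : Option κ, e⁻¹ * twE none * e = twE i)) := by
  have hnQ : ∀ (P : List κ) (j : κ) (Q : List κ), L0 = P ++ j :: Q → j ∉ P ∧ j ∉ Q := by
    intro P j Q h
    rw [h, List.nodup_append] at hn
    obtain ⟨_, h2, h3⟩ := hn
    refine ⟨fun hj => h3 j hj j List.mem_cons_self rfl, ?_⟩
    rw [List.nodup_cons] at h2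
    exact h2.1
  by_cases ha : c (fa none) = 1
  · by_cases hall : ∀ j : κ, c (fa (some j)) = 1 ∧ c (fb (some j)) = 1
    · -- `c` is already a multiple of `c00`
      have hb : c (fb none) ≠ 1 := by
        intro hb
        apply hc1
        refine FreeGroup.ext_hom _ _ fun x => ?_
        obtain ⟨_ | j, _ | _⟩ := x
        · exact ha
        · exact hb
        · exact (hall j).1
        · exact (hall j).2
      refine ⟨1, one_mem _, ?_, Or.inr ⟨ha, none, by simp⟩⟩
      intro w
      rw [MulAut.one_apply]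
      apply n3_iff c hb
      rintro ⟨_ | j, _ | _⟩ hx
      · exact ha
      · exact absurd rfl hx
      · exact (hall j).1
      · exact (hall j).2
    · push Not at hall
      obtain ⟨i, hi⟩ := hall
      obtain ⟨P, Q, hPQ⟩ := List.append_of_mem (hc i)
      obtain ⟨hiP, hiQ⟩ := hnQ P i Q hPQ
      set X := exE P i hiP with hX
      have hXa : c (X (fa none)) = c (fa (some i)) := by
        have h2 : X (fa none) = (fa none * fb none * (fa none)⁻¹ * (fb none)⁻¹ * relS P) *
            fa (some i) * (fa none * fb none * (fa none)⁻¹ * (fb none)⁻¹ * relS P)⁻¹ := by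
          show exHom P i (fa none) = _
          simp [exHom, fa]
        rw [h2, map_mul, map_mul, map_inv, mul_right_comm, mul_inv_cancel, one_mul]
      have hXb : c (X (fb none)) = c (fb (some i)) := by
        have h2 : X (fb none) = (fa none * fb none * (fa none)⁻¹ * (fb none)⁻¹ * relS P) *
            fb (some i) * (fa none * fb none * (fa none)⁻¹ * (fb none)⁻¹ * relS P)⁻¹ := by
          show exHom P i (fb none) = _
          simp [exHom, fb]
        rw [h2, map_mul, map_mul, map_inv, mul_right_comm, mul_inv_cancel, one_mul]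
      have hXai : c (X (fa (some i))) = 1 := by
        have h2 : X (fa (some i)) = (relS P)⁻¹ * fa none * relS P := by
          show exHom P i (fa (some i)) = _
          simp [exHom, fa]
        rw [h2, map_mul, map_mul, map_inv, ha, mul_one, inv_mul_cancel]
      have hXmem : X ∈ StR (BL L0) := by
        rw [hPQ]
        exact exE_mem P Q i hiP hiQ
      -- make the value at `a` nontrivial
      obtain ⟨Y, hYmem, hYcomm, hYa, hYai⟩ : ∃ Y ∈ StR (BL L0),
          Commute Y (twE (some i)) ∧ c (X (Y (fa none))) ≠ 1 ∧ c (X (Y (fa (some i)))) = 1 := by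
        by_cases h1 : c (X (fa none)) = 1
        · refine ⟨twE' none, twE'_mem _ _, twE'_comm_twE none (some i) (by simp), ?_, ?_⟩
          · have h2 : (twE' none : MulAut (FreeGroup (Option κ × Bool))) (fa none) =
                fa none * fb none ^ (-1 : ℤ) := by
              exact twFree'_a (ι := Option κ) none 1
            rw [h2, map_mul, map_mul, h1, one_mul, map_zpow, map_zpow, zpow_neg_one, Ne,
              inv_eq_one, hXb]
            rw [hXa] at h1
            intro h3
            exact hi h1 h3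
          · have h2 : (twE' none : MulAut (FreeGroup (Option κ × Bool))) (fa (some i)) =
                fa (some i) := by
              exact twFree'_a_ne (ι := Option κ) none (some i) 1 (by simp)
            rw [h2, hXai]
        · exact ⟨1, one_mem _, Commute.one_left _, by simpa using h1, by simpa using hXai⟩
      set c2 : FreeGroup (Option κ × Bool) →* Multiplicative (ZMod p) :=
        (c.comp X.toMonoidHom).comp Y.toMonoidHom with hc2
      have hc2' : ∀ w, c2 w = c (X (Y w)) := fun w => rfl
      obtain ⟨F, hF, hF1, hF2, hF3⟩ := kill L0 hn hc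
        (StR (BL L0) ⊓ Subgroup.centralizer {twE (some i)}) c2 hYa
        (fun P' j Q' hj h => by
          obtain ⟨h1, h2⟩ := hnQ P' j Q' h
          exact n3_mem (by rw [h]; exact pushE_mem P' Q' j hj h2) (pushE_comm_some P' j i hj))
        (fun j => by
          by_cases hji : j = i
          · subst hji
            exact Or.inr hYai
          · refine Or.inl ⟨n3_mem (twE_mem _ _) (twE_comm_twE _ _),
              n3_mem (twE'_mem _ _) (twE'_comm_twE _ _ ?_)⟩
            simpa using hji)
        (n3_mem (twE_mem _ _) (twE_comm_twE _ _))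
      have hFc := n3_comm hF
      refine ⟨X * Y * F * rotE, ?_, ?_, Or.inr ⟨ha, some i, ?_⟩⟩
      · exact mul_mem (mul_mem (mul_mem hXmem hYmem) hF.1) (rotE_mem L0)
      · intro w
        have h1 : c ((X * Y * F * rotE : MulAut (FreeGroup (Option κ × Bool))) w) = (c2.comp F.toMonoidHom) (rotE w) := rfl
        rw [h1]
        refine n3_rot (c2.comp F.toMonoidHom) ?_ hF2 hF3 w
        show c2 (F (fa none)) ≠ 1
        rw [hF1]
        exact hYa
      · have e1 : X⁻¹ * twE none * X = twE (some i) := exE_conj P i hiP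
        have e2 : Y⁻¹ * twE (some i) * Y = twE (some i) := by
          rw [mul_assoc, ← hYcomm.eq, ← mul_assoc, inv_mul_cancel, one_mul]
        have e3 : F⁻¹ * twE (some i) * F = twE (some i) := by
          rw [mul_assoc, ← hFc.eq, ← mul_assoc, inv_mul_cancel, one_mul]
        have e4 : (rotE : MulAut (FreeGroup (Option κ × Bool)))⁻¹ * twE (some i) * rotE =
            twE (some i) := by
          rw [mul_assoc, ← (rotE_comm i).eq, ← mul_assoc, inv_mul_cancel, one_mul]
        calc (X * Y * F * rotE)⁻¹ * twE none * (X * Y * F * rotE)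
            = rotE⁻¹ * (F⁻¹ * (Y⁻¹ * (X⁻¹ * twE none * X) * Y) * F) * rotE := by group
          _ = twE (some i) := by rw [e1, e2, e3, e4]
  · obtain ⟨F, hF, hF1, hF2, hF3⟩ := kill L0 hn hc
      (StR (BL L0) ⊓ Subgroup.centralizer {twE none}) c ha
      (fun P' j Q' hj h => by
        obtain ⟨h1, h2⟩ := hnQ P' j Q' h
        exact n3_mem (by rw [h]; exact pushE_mem P' Q' j hj h2) (pushE_comm_none P' j hj))
      (fun j => Or.inl ⟨n3_mem (twE_mem _ _) (twE_comm_twE _ _),
        n3_mem (twE'_mem _ _) (twE'_comm_twE _ _ (by simp))⟩)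
      (n3_mem (twE_mem _ _) (Commute.refl _))
    have hFc := n3_comm hF
    refine ⟨F * rotE, mul_mem hF.1 (rotE_mem L0), ?_, Or.inl ⟨ha, ?_⟩⟩
    · intro w
      have h1 : c ((F * rotE : MulAut (FreeGroup (Option κ × Bool))) w) = (c.comp F.toMonoidHom) (rotE w) := rfl
      rw [h1]
      refine n3_rot (c.comp F.toMonoidHom) ?_ hF2 hF3 w
      show c (F (fa none)) ≠ 1
      rw [hF1]
      exact ha
    · have e3 : F⁻¹ * twE none * F = twE none := by
        rw [mul_assoc, ← hFc.eq, ← mul_assoc, inv_mul_cancel, one_mul]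
      calc (F * rotE)⁻¹ * twE none * (F * rotE)
          = rotE⁻¹ * (F⁻¹ * twE none * F) * rotE := by group
        _ = twE' none := by rw [e3, rotE_conj]

end Pool.Agent.Lib.MP_6a1159_al
end
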