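import Pool.Agent.Lib.MP_6a1159_al.Mg.G019

section

/-! The cyclic covering dual to `b ↦ 1` and the restriction of automorphisms to it. -/

set_option autoImplicit false

namespace Pool.Agent.Lib.MP_6a1159_al

variable {κ : Type} [DecidableEq κ]

/-- The handles of the covering surface other than the first one: `(k, i)`, first `k = p - 1`,
then `k = p - 2`, ... -/
def CL (p : ℕ) (L0 : List κ) : List (Fin p × κ) :=
  (List.finRange p).reverse.flatMap fun k => L0.map fun i => (k, i)

omit [DecidableEq κ] in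
theorem CL_length (p : ℕ) (L0 : List κ) : (CL p L0).length = p * L0.length := by
  rw [CL, List.length_flatMap]
  simp

omit [DecidableEq κ] in
theorem CL_nodup (p : ℕ) (L0 : List κ) (hn : L0.Nodup) : (CL p L0).Nodup := by
  rw [CL, List.nodup_flatMap]
  refine ⟨fun k _ => hn.map fun i j h => (Prod.mk.injEq _ _ _ _ ▸ h).2, ?_⟩
  have h1 : (List.finRange p).reverse.Nodup := List.nodup_reverse.2 (List.nodup_finRange p)
  refine h1.imp ?_
  intro a b hab x hx hx'
  obtain ⟨i, _, rfl⟩ := List.mem_map.1 hx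
  obtain ⟨j, _, hj⟩ := List.mem_map.1 hx'
  exact hab (congrArg Prod.fst hj).symm

omit [DecidableEq κ] in
theorem CL_mem (p : ℕ) (L0 : List κ) (hc : ∀ k, k ∈ L0) (x : Fin p × κ) : x ∈ CL p L0 := by
  rw [CL, List.mem_flatMap]
  exact ⟨x.1, by simp, List.mem_map.2 ⟨x.2, hc _, rfl⟩⟩

/-- `a ↦ a`, `b ↦ b ^ p`, `a_(k,i) ↦ b^k a_i b^(-k)`, `b_(k,i) ↦ b^k b_i b^(-k)`. -/
def thFree (p : ℕ) : FreeGroup (Option (Fin p × κ) × Bool) →* FreeGroup (Option κ × Bool) :=
  FreeGroup.lift fun x => match x with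
    | (none, false) => fa none
    | (none, true) => fb none ^ p
    | (some q, false) => fb none ^ (q.1 : ℕ) * fa (some q.2) * (fb none ^ (q.1 : ℕ))⁻¹
    | (some q, true) => fb none ^ (q.1 : ℕ) * fb (some q.2) * (fb none ^ (q.1 : ℕ))⁻¹

omit [DecidableEq κ] in
theorem k1_map_relator {H : Type} [Group H] {κ' : Type} (L : List κ')
    (F : FreeGroup (Option κ' × Bool) →* H) : F (relator (BL L)) =
      F (fa none) * F (fb none) * (F (fa none))⁻¹ * (F (fb none))⁻¹ *
      (L.map fun i => F (fa (some i)) * F (fb (some i)) * (F (fa (some i)))⁻¹ *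
        (F (fb (some i)))⁻¹).prod := by
  unfold relator BL
  rw [List.map_cons, List.prod_cons, map_mul, List.map_map, map_list_prod, List.map_map]
  simp only [map_mul, map_inv]
  congr 2
  apply List.map_congr_left
  intro i _
  simp only [Function.comp_apply, map_mul, map_inv]

omit [DecidableEq κ] in
theorem k1_CL_prod {H : Type} [Group H] (p : ℕ) (L0 : List κ) (f : Fin p × κ → H) :
    ((CL p L0).map f).prod = ((List.range p).reverse.map fun k =>
      if h : k < p then (L0.map fun i => f (⟨k, h⟩, i)).prod else 1).prod := by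
  rw [CL, List.map_flatMap, List.flatMap_def, List.prod_flatten, List.map_map]
  have h1 : List.range p = (List.finRange p).map Fin.val := by simp
  rw [h1, ← List.map_reverse, List.map_map]
  congr 1
  apply List.map_congr_left
  intro k _
  simp only [Function.comp_apply, List.map_map, Fin.is_lt, dite_true, Fin.eta]
  congr 1

theorem k1_tele {H : Type} [Group H] (a b W : H) (hW : a * b * a⁻¹ * b⁻¹ * W = 1) (n : ℕ) :
    ((List.range n).reverse.map fun k => b ^ k * W * (b ^ k)⁻¹).prod =
      b ^ n * a * (b ^ n)⁻¹ * a⁻¹ := by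
  induction n with
  | zero => simp
  | succ n ih =>
    have h1 : W = b * a * b⁻¹ * a⁻¹ := by
      have := inv_eq_of_mul_eq_one_right hW
      rw [← this]; group
    rw [List.range_succ, List.reverse_append, List.map_append, List.prod_append, ih, h1]
    simp only [List.reverse_singleton, List.map_cons, List.map_nil, List.prod_singleton, pow_succ]
    group

omit [DecidableEq κ] in
/-- In the surface group `W_k = b^k W b^(-k) = x_(k+1) x_k⁻¹`, where `W = ∏ [a_i, b_i] = [b, a]`
and `x_k = b^k a b^(-k)`; the product telescopes. -/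
theorem th_relator (p : ℕ) (L0 : List κ) :
    proj (BL L0) (thFree p (relator (BL (CL p L0)))) = 1 := by
  have h1 : proj (BL L0) (relator (BL L0)) = 1 :=
    PresentedGroup.one_of_mem (Set.mem_singleton _)
  rw [k1_map_relator] at h1
  show ((proj (BL L0)).comp (thFree p)) (relator (BL (CL p L0))) = 1
  rw [k1_map_relator, k1_CL_prod]
  have ha : ((proj (BL L0)).comp (thFree p)) (fa none) = proj (BL L0) (fa none) := by
    simp [thFree, fa]
  have hb : ((proj (BL L0)).comp (thFree p)) (fb none) = proj (BL L0) (fb none) ^ p := by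
    simp [thFree, fb]
  have hai : ∀ q : Fin p × κ, ((proj (BL L0)).comp (thFree p)) (fa (some q)) =
      proj (BL L0) (fb none) ^ (q.1 : ℕ) * proj (BL L0) (fa (some q.2)) *
        (proj (BL L0) (fb none) ^ (q.1 : ℕ))⁻¹ := by
    intro q; simp [thFree, fa, fb]
  have hbi : ∀ q : Fin p × κ, ((proj (BL L0)).comp (thFree p)) (fb (some q)) =
      proj (BL L0) (fb none) ^ (q.1 : ℕ) * proj (BL L0) (fb (some q.2)) *
        (proj (BL L0) (fb none) ^ (q.1 : ℕ))⁻¹ := by
    intro q; simp [thFree, fb]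
  rw [ha, hb]
  have h2 : ((List.range p).reverse.map fun k => if h : k < p then (L0.map fun i =>
      ((proj (BL L0)).comp (thFree p)) (fa (some ((⟨k, h⟩ : Fin p), i))) *
      ((proj (BL L0)).comp (thFree p)) (fb (some ((⟨k, h⟩ : Fin p), i))) *
      (((proj (BL L0)).comp (thFree p)) (fa (some ((⟨k, h⟩ : Fin p), i))))⁻¹ *
      (((proj (BL L0)).comp (thFree p)) (fb (some ((⟨k, h⟩ : Fin p), i))))⁻¹).prod else 1) =
      ((List.range p).reverse.map fun k => proj (BL L0) (fb none) ^ k *
        (L0.map fun i => proj (BL L0) (fa (some i)) * proj (BL L0) (fb (some i)) *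
        (proj (BL L0) (fa (some i)))⁻¹ * (proj (BL L0) (fb (some i)))⁻¹).prod *
        (proj (BL L0) (fb none) ^ k)⁻¹) := by
    apply List.map_congr_left
    intro k hk
    have hk' : k < p := by simpa using hk
    rw [dif_pos hk', ← MulAut.conj_apply, map_list_prod, List.map_map]
    congr 1
    apply List.map_congr_left
    intro i _
    rw [hai, hbi]
    simp only [Function.comp_apply, MulAut.conj_apply]
    group
  rw [h2, k1_tele _ _ _ h1]
  group

/-- The inclusion of the fundamental group of the covering surface. -/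
def Theta (p : ℕ) (L0 : List κ) : SG (BL (CL p L0)) →* SG (BL L0) :=
  PresentedGroup.toGroup (f := fun x => proj (BL L0) (thFree p (FreeGroup.of x))) (by
    intro r hr
    rw [Set.mem_singleton_iff] at hr
    have h1 : FreeGroup.lift (fun x => proj (BL L0) (thFree p (FreeGroup.of x))) =
        (proj (BL L0)).comp (thFree p) := by
      ext x
      simp
    rw [h1, hr, MonoidHom.comp_apply, th_relator])

omit [DecidableEq κ] in
theorem Theta_proj (p : ℕ) (L0 : List κ) (w : FreeGroup (Option (Fin p × κ) × Bool)) :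
    Theta p L0 (proj _ w) = proj (BL L0) (thFree p w) := by
  have h1 : (Theta p L0).comp (proj _) = (proj (BL L0)).comp (thFree p) := by
    refine FreeGroup.ext_hom _ _ fun x => ?_
    show FreeGroup.lift (fun x => proj (BL L0) (thFree p (FreeGroup.of x))) (FreeGroup.of x) = _
    rw [FreeGroup.lift_apply_of]
    rfl
  exact DFunLike.congr_fun h1 w

/-- The homomorphism defining the covering. -/
def c0 (p : ℕ) (L0 : List κ) : SG (BL L0) →* Multiplicative (ZMod p) :=
  PresentedGroup.toGroup (f := fun x => c00 p (FreeGroup.of x)) (by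
    intro r hr
    rw [Set.mem_singleton_iff] at hr
    have h1 : FreeGroup.lift (fun x => c00 p (FreeGroup.of x)) =
        (c00 p : FreeGroup (Option κ × Bool) →* _) := by
      ext x
      simp
    rw [h1, hr]
    unfold relator
    rw [map_list_prod, List.map_map]
    apply List.prod_eq_one
    intro x hx
    obtain ⟨i, _, rfl⟩ := List.mem_map.1 hx
    simp only [Function.comp_apply, map_mul, map_inv]
    rw [mul_right_comm, mul_inv_cancel_right, mul_inv_cancel])

theorem c0_proj (p : ℕ) (L0 : List κ) (w : FreeGroup (Option κ × Bool)) :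
    c0 p L0 (proj _ w) = c00 p w := by
  have h1 : (c0 p L0).comp (proj _) = c00 p := by
    refine FreeGroup.ext_hom _ _ fun x => ?_
    show FreeGroup.lift (fun x => c00 p (FreeGroup.of x)) (FreeGroup.of x) = _
    rw [FreeGroup.lift_apply_of]
  exact DFunLike.congr_fun h1 w

/-- The product of the commutators of the `k`-th copy of the handles. -/
def k2_W (p : ℕ) (L0 : List κ) (k : ℕ) : SG (BL (CL p L0)) :=
  if h : k < p then (L0.map fun i => ga (BL (CL p L0)) (some (⟨k, h⟩, i)) *
    gb (BL (CL p L0)) (some (⟨k, h⟩, i)) * (ga (BL (CL p L0)) (some (⟨k, h⟩, i)))⁻¹ *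
      (gb (BL (CL p L0)) (some (⟨k, h⟩, i)))⁻¹).prod else 1

/-- The lifts of `a`. -/
def k2_x (p : ℕ) (L0 : List κ) : ℕ → SG (BL (CL p L0))
  | 0 => ga _ none
  | k + 1 => k2_W p L0 k * k2_x p L0 k

omit [DecidableEq κ] in
theorem k2_x_eq (p : ℕ) (L0 : List κ) (n : ℕ) :
    k2_x p L0 n = ((List.range n).reverse.map (k2_W p L0)).prod * ga _ none := by
  induction n with
  | zero => simp [k2_x]
  | succ n ih =>
    rw [k2_x, ih, List.range_succ, List.reverse_append]
    simp [mul_assoc]

omit [DecidableEq κ] in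
theorem k2_map_relator {H : Type} [Group H] {κ' : Type} (L : List κ')
    (F : FreeGroup (Option κ' × Bool) →* H) : F (relator (BL L)) =
      F (fa none) * F (fb none) * (F (fa none))⁻¹ * (F (fb none))⁻¹ *
      (L.map fun i => F (fa (some i)) * F (fb (some i)) * (F (fa (some i)))⁻¹ *
        (F (fb (some i)))⁻¹).prod := by
  unfold relator BL
  rw [List.map_cons, List.prod_cons, map_mul, List.map_map, map_list_prod, List.map_map]
  simp only [map_mul, map_inv]
  congr 2
  apply List.map_congr_left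
  intro i _
  simp only [Function.comp_apply, map_mul, map_inv]

omit [DecidableEq κ] in
theorem k2_CL_prod {H : Type} [Group H] (p : ℕ) (L0 : List κ) (f : Fin p × κ → H) :
    ((CL p L0).map f).prod = ((List.range p).reverse.map fun k =>
      if h : k < p then (L0.map fun i => f (⟨k, h⟩, i)).prod else 1).prod := by
  rw [CL, List.map_flatMap, List.flatMap_def, List.prod_flatten, List.map_map]
  have h1 : List.range p = (List.finRange p).map Fin.val := by simp
  rw [h1, ← List.map_reverse, List.map_map]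
  congr 1
  apply List.map_congr_left
  intro k _
  simp only [Function.comp_apply, List.map_map, Fin.is_lt, dite_true, Fin.eta]
  congr 1

omit [DecidableEq κ] in
theorem k2_rel (p : ℕ) (L0 : List κ) :
    gb (BL (CL p L0)) none * ga _ none * (gb (BL (CL p L0)) none)⁻¹ = k2_x p L0 p := by
  have h1 : proj (BL (CL p L0)) (relator (BL (CL p L0))) = 1 :=
    PresentedGroup.one_of_mem (Set.mem_singleton _)
  rw [k2_map_relator, k2_CL_prod] at h1
  have h2 : ((List.range p).reverse.map (k2_W p L0)).prod =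
      (ga (BL (CL p L0)) none * gb _ none * (ga _ none)⁻¹ * (gb _ none)⁻¹)⁻¹ :=
    (inv_eq_of_mul_eq_one_right h1).symm
  rw [k2_x_eq, h2]
  group

section k2

variable (q : ℕ) (L0 : List κ)

/-- The action of `b`. -/
def k2_b : Equiv.Perm (Fin (q + 1) × SG (BL (CL (q + 1) L0))) where
  toFun x := (x.1 - 1, if x.1 = 0 then gb _ none * x.2 else x.2)
  invFun x := (x.1 + 1, if x.1 + 1 = 0 then (gb _ none)⁻¹ * x.2 else x.2)
  left_inv x := by
    obtain ⟨k, u⟩ := x
    by_cases h : k = 0 <;> simp [h]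
  right_inv x := by
    obtain ⟨k, u⟩ := x
    have h1 : k + 1 - 1 = k := add_sub_cancel_right k 1
    by_cases h : k + 1 = 0
    · simp only [h, if_true, Prod.mk.injEq, mul_inv_cancel_left, and_true]
      rw [← h, h1]
    · simp only [h, if_false, h1]

/-- The action by multiplication on the left by an element depending on the sheet. -/
def k2_m (c : Fin (q + 1) → SG (BL (CL (q + 1) L0))) :
    Equiv.Perm (Fin (q + 1) × SG (BL (CL (q + 1) L0))) where
  toFun x := (x.1, c x.1 * x.2)
  invFun x := (x.1, (c x.1)⁻¹ * x.2)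
  left_inv x := by simp
  right_inv x := by simp

/-- The action on the generators. -/
def k2_gen : Option κ × Bool → Equiv.Perm (Fin (q + 1) × SG (BL (CL (q + 1) L0)))
  | (none, false) => k2_m q L0 fun k => k2_x (q + 1) L0 k
  | (none, true) => k2_b q L0
  | (some i, false) => k2_m q L0 fun k => ga _ (some (k, i))
  | (some i, true) => k2_m q L0 fun k => gb _ (some (k, i))

omit [DecidableEq κ] in
theorem k2_relS (L : List κ) (x : Fin (q + 1) × SG (BL (CL (q + 1) L0))) :
    FreeGroup.lift (k2_gen q L0) (relS L) x = (x.1, (L.map fun i =>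
      ga (BL (CL (q + 1) L0)) (some (x.1, i)) * gb (BL (CL (q + 1) L0)) (some (x.1, i)) *
      (ga (BL (CL (q + 1) L0)) (some (x.1, i)))⁻¹ *
      (gb (BL (CL (q + 1) L0)) (some (x.1, i)))⁻¹).prod * x.2) := by
  induction L generalizing x with
  | nil => simp [relS, relator]
  | cons i L ih =>
    have h1 : relS (i :: L) =
      fa (some i) * fb (some i) * (fa (some i))⁻¹ * (fb (some i))⁻¹ * relS L := by
      simp [relS, relator]
    rw [h1, map_mul, Equiv.Perm.mul_apply, ih, map_mul, map_mul, map_mul, map_inv, map_inv]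
    simp only [fa, fb, FreeGroup.lift_apply_of, List.map_cons, List.prod_cons]
    show (x.1, ga _ (some (x.1, i)) * (gb _ (some (x.1, i)) * ((ga _ (some (x.1, i)))⁻¹ *
      ((gb _ (some (x.1, i)))⁻¹ * (_ * x.2))))) = _
    simp only [mul_assoc]

omit [DecidableEq κ] in
theorem k2_relator (x : Fin (q + 1) × SG (BL (CL (q + 1) L0))) :
    FreeGroup.lift (k2_gen q L0) (relator (BL L0)) x = x := by
  have h1 : relator (BL L0) = fa none * fb none * (fa none)⁻¹ * (fb none)⁻¹ * relS L0 := by
    simp [relS, relator]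
  obtain ⟨k, u⟩ := x
  rw [h1, map_mul, Equiv.Perm.mul_apply, k2_relS, map_mul, map_mul, map_mul, map_inv, map_inv]
  simp only [fa, fb, FreeGroup.lift_apply_of]
  have hW : k2_W (q + 1) L0 k = (L0.map fun i => ga (BL (CL (q + 1) L0)) (some (k, i)) *
    gb (BL (CL (q + 1) L0)) (some (k, i)) * (ga (BL (CL (q + 1) L0)) (some (k, i)))⁻¹ *
      (gb (BL (CL (q + 1) L0)) (some (k, i)))⁻¹).prod := by
    simp only [k2_W, Fin.is_lt, dite_true, Fin.eta]
  rw [← hW]
  show (k + 1 - 1, k2_x (q + 1) L0 ((k + 1 - 1 : Fin (q + 1)) : ℕ) *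
    (if k + 1 = 0 then gb _ none * ((k2_x (q + 1) L0 ((k + 1 : Fin (q + 1)) : ℕ))⁻¹ *
      (if k + 1 = 0 then (gb _ none)⁻¹ * (k2_W (q + 1) L0 k * u) else k2_W (q + 1) L0 k * u))
      else ((k2_x (q + 1) L0 ((k + 1 : Fin (q + 1)) : ℕ))⁻¹ *
      (if k + 1 = 0 then (gb _ none)⁻¹ * (k2_W (q + 1) L0 k * u)
        else k2_W (q + 1) L0 k * u)))) = _
  have h2 : k + 1 - 1 = k := add_sub_cancel_right k 1
  rw [h2]
  by_cases h : k + 1 = 0
  · have hk : (k : ℕ) = q := by
      have := congrArg (fun z : Fin (q + 1) => z - 1) h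
      simp only [add_sub_cancel_right, zero_sub] at this
      rw [this]
      simp
    simp only [h, if_true]
    have h3 := k2_rel (q + 1) L0
    rw [k2_x] at h3
    rw [Prod.mk.injEq]
    refine ⟨rfl, ?_⟩
    rw [hk]
    have h4 : k2_x (q + 1) L0 ((0 : Fin (q + 1)) : ℕ) = ga _ none := rfl
    rw [h4]
    have h5 : k2_W (q + 1) L0 q = gb _ none * ga _ none * (gb _ none)⁻¹ *
      (k2_x (q + 1) L0 q)⁻¹ := by rw [h3]; group
    rw [h5]
    group
  · simp only [h, if_false]
    have hk : ((k + 1 : Fin (q + 1)) : ℕ) = k + 1 := by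
      rw [Fin.val_add_one]
      split_ifs with h6
      · exfalso
        apply h
        rw [h6]
        simp
      · rfl
    rw [hk, k2_x]
    rw [Prod.mk.injEq]
    refine ⟨rfl, ?_⟩
    group

/-- The action of the surface group. -/
def k2_act : SG (BL L0) →* Equiv.Perm (Fin (q + 1) × SG (BL (CL (q + 1) L0))) :=
  PresentedGroup.toGroup (f := k2_gen q L0) (by
    intro r hr
    rw [Set.mem_singleton_iff] at hr
    rw [hr]
    ext1 x
    exact k2_relator q L0 x)

theorem k2_act_proj (w : FreeGroup (Option κ × Bool)) :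
    k2_act q L0 (proj _ w) = FreeGroup.lift (k2_gen q L0) w := rfl

theorem k2_down (n : ℕ) (k k' : Fin (q + 1)) (h : (k : ℕ) = k' + n)
    (u : SG (BL (CL (q + 1) L0))) : (k2_b q L0 ^ n) (k, u) = (k', u) := by
  induction n generalizing k with
  | zero =>
    have : k = k' := Fin.ext (by omega)
    rw [this]
    rfl
  | succ n ih =>
    rw [pow_succ, Equiv.Perm.mul_apply]
    have h1 : k ≠ 0 := by
      intro h2
      rw [h2] at h
      simp at h
    show (k2_b q L0 ^ n) (k - 1, if k = 0 then _ else u) = _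
    rw [if_neg h1]
    apply ih
    rw [Fin.val_sub_one_of_ne_zero h1]
    omega

theorem k2_down' (k : Fin (q + 1)) (u : SG (BL (CL (q + 1) L0))) :
    (k2_b q L0 ^ (k : ℕ)) (k, u) = (0, u) := by
  rw [k2_down q L0 _ _ 0 (by simp)]

theorem k2_full (u : SG (BL (CL (q + 1) L0))) :
    (k2_b q L0 ^ (q + 1)) (0, u) = (0, gb _ none * u) := by
  rw [pow_succ, Equiv.Perm.mul_apply]
  show (k2_b q L0 ^ q) (0 - 1, if (0 : Fin (q + 1)) = 0 then gb _ none * u else u) = _
  rw [if_pos rfl]
  have h : ((0 - 1 : Fin (q + 1)) : ℕ) = q := by simp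
  have h2 := k2_down' q L0 (0 - 1) (gb _ none * u)
  rw [h] at h2
  exact h2

theorem k2_key (w : SG (BL (CL (q + 1) L0))) (u : SG (BL (CL (q + 1) L0))) :
    k2_act q L0 (Theta (q + 1) L0 w) (0, u) = (0, w * u) := by
  have hw : w ∈ (⊤ : Subgroup (SG (BL (CL (q + 1) L0)))) := Subgroup.mem_top _
  rw [← PresentedGroup.closure_range_of] at hw
  induction hw using Subgroup.closure_induction generalizing u with
  | mem x hx =>
    obtain ⟨⟨j, s⟩, rfl⟩ := hx
    show k2_act q L0 (Theta (q + 1) L0 (proj _ (FreeGroup.of (j, s)))) (0, u) = _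
    rw [Theta_proj, k2_act_proj]
    cases j with
    | none =>
      cases s
      · show FreeGroup.lift (k2_gen q L0) (FreeGroup.lift _ (FreeGroup.of _)) (0, u) = _
        rw [FreeGroup.lift_apply_of]
        show FreeGroup.lift (k2_gen q L0) (FreeGroup.of _) (0, u) = _
        rw [FreeGroup.lift_apply_of]
        rfl
      · show FreeGroup.lift (k2_gen q L0) (FreeGroup.lift _ (FreeGroup.of _)) (0, u) = _
        rw [FreeGroup.lift_apply_of]
        show FreeGroup.lift (k2_gen q L0) (FreeGroup.of (none, true) ^ (q + 1)) (0, u) = _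
        rw [map_pow, FreeGroup.lift_apply_of]
        exact k2_full q L0 u
    | some j =>
      obtain ⟨k, i⟩ := j
      have h1 : ∀ v : SG (BL (CL (q + 1) L0)), ((k2_b q L0 ^ (k : ℕ))⁻¹) (0, v) = (k, v) := by
        intro v
        rw [Equiv.Perm.inv_eq_iff_eq]
        exact (k2_down' q L0 k v).symm
      cases s
      · show FreeGroup.lift (k2_gen q L0) (FreeGroup.lift _ (FreeGroup.of _)) (0, u) = _
        rw [FreeGroup.lift_apply_of]
        show FreeGroup.lift (k2_gen q L0) (FreeGroup.of (none, true) ^ (k : ℕ) *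
          FreeGroup.of (some i, false) * (FreeGroup.of (none, true) ^ (k : ℕ))⁻¹) (0, u) = _
        rw [map_mul, map_mul, map_inv, map_pow, FreeGroup.lift_apply_of, FreeGroup.lift_apply_of,
          Equiv.Perm.mul_apply, Equiv.Perm.mul_apply]
        show (k2_b q L0 ^ (k : ℕ)) (k2_gen q L0 (some i, false)
          ((k2_b q L0 ^ (k : ℕ))⁻¹ (0, u))) = _
        rw [h1]
        exact k2_down' q L0 k _
      · show FreeGroup.lift (k2_gen q L0) (FreeGroup.lift _ (FreeGroup.of _)) (0, u) = _
        rw [FreeGroup.lift_apply_of]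
        show FreeGroup.lift (k2_gen q L0) (FreeGroup.of (none, true) ^ (k : ℕ) *
          FreeGroup.of (some i, true) * (FreeGroup.of (none, true) ^ (k : ℕ))⁻¹) (0, u) = _
        rw [map_mul, map_mul, map_inv, map_pow, FreeGroup.lift_apply_of, FreeGroup.lift_apply_of,
          Equiv.Perm.mul_apply, Equiv.Perm.mul_apply]
        show (k2_b q L0 ^ (k : ℕ)) (k2_gen q L0 (some i, true)
          ((k2_b q L0 ^ (k : ℕ))⁻¹ (0, u))) = _
        rw [h1]
        exact k2_down' q L0 k _
  | one => simp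
  | mul x y _ _ hx hy =>
    rw [map_mul, map_mul, Equiv.Perm.mul_apply, hy, hx, mul_assoc]
  | inv x _ hx =>
    rw [map_inv, map_inv, Equiv.Perm.inv_eq_iff_eq, hx, mul_inv_cancel_left]

end k2

/-- `Theta` is injective: the surface group acts (from the right) on
`SG (BL (CL p L0)) × {0, ..., p - 1}`, where `(u, k)` stands for `Theta u * b ^ k`. -/
theorem Theta_injective (p : ℕ) [NeZero p] (L0 : List κ) :
    Function.Injective (Theta p L0) := by
  obtain ⟨q, rfl⟩ : ∃ q, p = q + 1 := ⟨p - 1, by have := NeZero.ne p; omega⟩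
  intro w v h
  have h1 := k2_key q L0 w 1
  have h2 := k2_key q L0 v 1
  rw [h, h2, mul_one, mul_one, Prod.mk.injEq] at h1
  exact h1.2.symm

omit [DecidableEq κ] in
theorem k3_mem {ι G : Type} [Group G] (L : List ι) (Φ : SG L →* G) (N : Subgroup G)
    (ha : ∀ i, Φ (ga L i) ∈ N) (hb : ∀ i, Φ (gb L i) ∈ N) (y : SG L) : Φ y ∈ N := by
  obtain ⟨w, rfl⟩ := PresentedGroup.mk_surjective _ y
  induction w using FreeGroup.induction_on with
  | C1 => rw [map_one, map_one]; exact N.one_mem
  | of x =>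
    obtain ⟨i, s⟩ := x
    cases s
    · exact ha i
    · exact hb i
  | inv_of x h => rw [map_inv, map_inv]; exact N.inv_mem h
  | mul x y hx hy => rw [map_mul, map_mul]; exact N.mul_mem hx hy

omit [DecidableEq κ] in
theorem k3_th_a (p : ℕ) (L0 : List κ) : Theta p L0 (ga _ none) = ga (BL L0) none := by
  show Theta p L0 (proj _ (fa none)) = _
  rw [Theta_proj]
  simp [thFree, fa, ga]

omit [DecidableEq κ] in
theorem k3_th_b (p : ℕ) (L0 : List κ) : Theta p L0 (gb _ none) = gb (BL L0) none ^ p := by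
  show Theta p L0 (proj _ (fb none)) = _
  rw [Theta_proj]
  simp [thFree, fb, gb]

omit [DecidableEq κ] in
theorem k3_th_ai (p : ℕ) (L0 : List κ) (k : Fin p) (i : κ) :
    Theta p L0 (ga _ (some (k, i))) =
    gb (BL L0) none ^ (k : ℕ) * ga (BL L0) (some i) * (gb (BL L0) none ^ (k : ℕ))⁻¹ := by
  show Theta p L0 (proj _ (fa (some (k, i)))) = _
  rw [Theta_proj]
  simp [thFree, fa, ga, gb, fb]

omit [DecidableEq κ] in
theorem k3_th_bi (p : ℕ) (L0 : List κ) (k : Fin p) (i : κ) :
    Theta p L0 (gb _ (some (k, i))) =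
    gb (BL L0) none ^ (k : ℕ) * gb (BL L0) (some i) * (gb (BL L0) none ^ (k : ℕ))⁻¹ := by
  show Theta p L0 (proj _ (fb (some (k, i)))) = _
  rw [Theta_proj]
  simp [thFree, fb, gb]

theorem k3_c0_a (p : ℕ) (L0 : List κ) (i : Option κ) : c0 p L0 (ga _ i) = 1 := by
  show c0 p L0 (proj _ (fa i)) = _
  rw [c0_proj]
  simp [c00, fa]

theorem k3_c0_b (p : ℕ) (L0 : List κ) : c0 p L0 (gb _ none) = Multiplicative.ofAdd 1 := by
  show c0 p L0 (proj _ (fb none)) = _
  rw [c0_proj]
  simp [c00, fb]

theorem k3_c0_bi (p : ℕ) (L0 : List κ) (i : κ) : c0 p L0 (gb _ (some i)) = 1 := by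
  show c0 p L0 (proj _ (fb (some i))) = _
  rw [c0_proj]
  simp [c00, fb]

theorem k3_le (p : ℕ) (L0 : List κ) : (Theta p L0).range ≤ (c0 p L0).ker := by
  rintro _ ⟨y, rfl⟩
  apply k3_mem
  · intro i
    rw [MonoidHom.mem_ker]
    cases i with
    | none => rw [k3_th_a, k3_c0_a]
    | some q =>
      rw [show q = (q.1, q.2) from rfl, k3_th_ai, map_mul, map_mul, map_inv, k3_c0_a, mul_one,
        mul_inv_cancel]
  · intro i
    rw [MonoidHom.mem_ker]
    cases i with
    | none =>
      rw [k3_th_b, map_pow, k3_c0_b, ← ofAdd_nsmul]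
      simp
    | some q =>
      rw [show q = (q.1, q.2) from rfl, k3_th_bi, map_mul, map_mul, map_inv, k3_c0_bi, mul_one,
        mul_inv_cancel]

omit [DecidableEq κ] in
theorem k3_a (p : ℕ) (L0 : List κ) : ga (BL L0) none ∈ (Theta p L0).range := ⟨_, k3_th_a p L0⟩

omit [DecidableEq κ] in
theorem k3_bp (p : ℕ) (L0 : List κ) : gb (BL L0) none ^ p ∈ (Theta p L0).range :=
  ⟨_, k3_th_b p L0⟩

omit [DecidableEq κ] in
theorem k3_ai (p : ℕ) [NeZero p] (L0 : List κ) (i : κ) :
    ga (BL L0) (some i) ∈ (Theta p L0).range := by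
  refine ⟨ga _ (some (0, i)), ?_⟩
  rw [k3_th_ai]
  simp

omit [DecidableEq κ] in
theorem k3_bi (p : ℕ) [NeZero p] (L0 : List κ) (i : κ) :
    gb (BL L0) (some i) ∈ (Theta p L0).range := by
  refine ⟨gb _ (some (0, i)), ?_⟩
  rw [k3_th_bi]
  simp

omit [DecidableEq κ] in
theorem k3_rel (L0 : List κ) : gb (BL L0) none * ga (BL L0) none * (gb (BL L0) none)⁻¹ =
    (L0.map fun i => ga (BL L0) (some i) * gb _ (some i) *
      (ga _ (some i))⁻¹ * (gb _ (some i))⁻¹).prod * ga (BL L0) none := by
  have h : proj (BL L0) (relator (BL L0)) = 1 :=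
    PresentedGroup.one_of_mem (Set.mem_singleton _)
  have h2 : ∀ (G : Type) [Group G] (φ : FreeGroup (Option κ × Bool) →* G),
      φ (relator (BL L0)) =
      φ (fa none) * φ (fb none) * (φ (fa none))⁻¹ * (φ (fb none))⁻¹ *
      (L0.map fun i => φ (fa (some i)) * φ (fb (some i)) *
      (φ (fa (some i)))⁻¹ * (φ (fb (some i)))⁻¹).prod := by
    intro G _ φ
    unfold relator
    rw [map_list_prod, List.map_map, List.map_cons, List.prod_cons, List.map_map]
    simp only [Function.comp_def, map_mul, map_inv]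
  rw [h2 _ (proj (BL L0))] at h
  have h3 := eq_inv_of_mul_eq_one_right h
  show _ = (L0.map fun i => proj (BL L0) (fa (some i)) * proj (BL L0) (fb (some i)) *
      (proj (BL L0) (fa (some i)))⁻¹ * (proj (BL L0) (fb (some i)))⁻¹).prod * _
  rw [h3]
  show _ = (ga (BL L0) none * gb (BL L0) none * (ga (BL L0) none)⁻¹ *
    (gb (BL L0) none)⁻¹)⁻¹ * _
  group

omit [DecidableEq κ] in
theorem k3_norm (p : ℕ) [NeZero p] (L0 : List κ) (n : SG (BL L0))
    (hn : n ∈ (Theta p L0).range) :
    gb (BL L0) none * n * (gb (BL L0) none)⁻¹ ∈ (Theta p L0).range := by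
  obtain ⟨y, rfl⟩ := hn
  have hbb : ∀ (k : Fin p) (x : SG (BL L0)), x ∈ (Theta p L0).range →
      (∀ j : Fin p, gb (BL L0) none ^ (j : ℕ) * x * (gb (BL L0) none ^ (j : ℕ))⁻¹ ∈
        (Theta p L0).range) →
      gb (BL L0) none * (gb (BL L0) none ^ (k : ℕ) * x * (gb (BL L0) none ^ (k : ℕ))⁻¹) *
        (gb (BL L0) none)⁻¹ ∈ (Theta p L0).range := by
    intro k x hx hj
    have e : gb (BL L0) none * (gb (BL L0) none ^ (k : ℕ) * x *
        (gb (BL L0) none ^ (k : ℕ))⁻¹) * (gb (BL L0) none)⁻¹ =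
        gb (BL L0) none ^ ((k : ℕ) + 1) * x * (gb (BL L0) none ^ ((k : ℕ) + 1))⁻¹ := by
      rw [pow_succ']
      group
    rw [e]
    rcases Nat.lt_or_ge ((k : ℕ) + 1) p with hlt | hge
    · exact hj ⟨(k : ℕ) + 1, hlt⟩
    · have hk : (k : ℕ) + 1 = p := by omega
      rw [hk]
      exact Subgroup.mul_mem _ (Subgroup.mul_mem _ (k3_bp p L0) hx)
        (Subgroup.inv_mem _ (k3_bp p L0))
  have := k3_mem (BL (CL p L0)) ((MulAut.conj (gb (BL L0) none)).toMonoidHom.comp (Theta p L0))
    (Theta p L0).range ?_ ?_ y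
  · exact this
  · intro i
    show gb (BL L0) none * Theta p L0 (ga _ i) * (gb (BL L0) none)⁻¹ ∈ _
    cases i with
    | none =>
      rw [k3_th_a, k3_rel]
      refine Subgroup.mul_mem _ (Subgroup.list_prod_mem _ ?_) (k3_a p L0)
      intro y hy
      obtain ⟨i, _, rfl⟩ := List.mem_map.1 hy
      exact Subgroup.mul_mem _ (Subgroup.mul_mem _ (Subgroup.mul_mem _ (k3_ai p L0 i)
        (k3_bi p L0 i)) (Subgroup.inv_mem _ (k3_ai p L0 i))) (Subgroup.inv_mem _ (k3_bi p L0 i))
    | some q =>
      rw [show q = (q.1, q.2) from rfl, k3_th_ai]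
      exact hbb q.1 _ (k3_ai p L0 q.2) fun j => ⟨_, k3_th_ai p L0 j q.2⟩
  · intro i
    show gb (BL L0) none * Theta p L0 (gb _ i) * (gb (BL L0) none)⁻¹ ∈ _
    cases i with
    | none =>
      rw [k3_th_b, (Commute.self_pow (gb (BL L0) none) p).eq, mul_inv_cancel_right]
      exact k3_bp p L0
    | some q =>
      rw [show q = (q.1, q.2) from rfl, k3_th_bi]
      exact hbb q.1 _ (k3_bi p L0 q.2) fun j => ⟨_, k3_th_bi p L0 j q.2⟩

omit [DecidableEq κ] in
theorem k3_norm_pow (p : ℕ) [NeZero p] (L0 : List κ) (n : SG (BL L0))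
    (hn : n ∈ (Theta p L0).range) (k : ℕ) :
    gb (BL L0) none ^ k * n * (gb (BL L0) none ^ k)⁻¹ ∈ (Theta p L0).range := by
  induction k with
  | zero => simpa using hn
  | succ k ih =>
    have := k3_norm p L0 _ ih
    have e : gb (BL L0) none ^ (k + 1) * n * (gb (BL L0) none ^ (k + 1))⁻¹ =
      gb (BL L0) none * (gb (BL L0) none ^ k * n * (gb (BL L0) none ^ k)⁻¹) *
        (gb (BL L0) none)⁻¹ := by
      rw [pow_succ']
      group
    rw [e]
    exact this

omit [DecidableEq κ] in
theorem k3_norm_inv (p : ℕ) [NeZero p] (L0 : List κ) (n : SG (BL L0))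
    (hn : n ∈ (Theta p L0).range) :
    (gb (BL L0) none)⁻¹ * n * gb (BL L0) none ∈ (Theta p L0).range := by
  have h1 := k3_norm_pow p L0 n hn (p - 1)
  have h2 := Subgroup.mul_mem _ (Subgroup.mul_mem _ (Subgroup.inv_mem _ (k3_bp p L0)) h1)
    (k3_bp p L0)
  have hp : 1 ≤ p := Nat.one_le_iff_ne_zero.2 (NeZero.ne p)
  have e : (gb (BL L0) none ^ p) = gb (BL L0) none ^ (p - 1) * gb (BL L0) none := by
    rw [← pow_succ]
    congr 1
    omega
  have e2 : (gb (BL L0) none ^ p)⁻¹ * (gb (BL L0) none ^ (p - 1) * n *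
      (gb (BL L0) none ^ (p - 1))⁻¹) * gb (BL L0) none ^ p =
      (gb (BL L0) none)⁻¹ * n * gb (BL L0) none := by
    rw [e]
    group
  rw [e2] at h2
  exact h2

omit [DecidableEq κ] in
theorem k3_norm_zpow (p : ℕ) [NeZero p] (L0 : List κ) (n : SG (BL L0))
    (hn : n ∈ (Theta p L0).range) (k : ℤ) :
    gb (BL L0) none ^ k * n * (gb (BL L0) none ^ k)⁻¹ ∈ (Theta p L0).range := by
  obtain ⟨k, rfl | rfl⟩ := k.eq_nat_or_neg
  · have := k3_norm_pow p L0 n hn k
    rwa [zpow_natCast]
  · induction k with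
    | zero => simpa using hn
    | succ k ih =>
      have := k3_norm_inv p L0 _ ih
      have e : gb (BL L0) none ^ (-((k + 1 : ℕ) : ℤ)) * n *
          (gb (BL L0) none ^ (-((k + 1 : ℕ) : ℤ)))⁻¹ =
        (gb (BL L0) none)⁻¹ * (gb (BL L0) none ^ (-(k : ℤ)) * n *
          (gb (BL L0) none ^ (-(k : ℤ)))⁻¹) * gb (BL L0) none := by
        push_cast
        group
      rw [e]
      exact this

omit [DecidableEq κ] in
theorem k3_form (p : ℕ) [NeZero p] (L0 : List κ) (w : SG (BL L0)) :
    ∃ k : ℤ, w * gb (BL L0) none ^ (-k) ∈ (Theta p L0).range := by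
  obtain ⟨w, rfl⟩ := PresentedGroup.mk_surjective _ w
  induction w using FreeGroup.induction_on with
  | C1 => exact ⟨0, by simpa using Subgroup.one_mem _⟩
  | of x =>
    obtain ⟨i, s⟩ := x
    cases s
    · refine ⟨0, ?_⟩
      rw [neg_zero, zpow_zero, mul_one]
      cases i with
      | none => exact k3_a p L0
      | some i => exact k3_ai p L0 i
    · cases i with
      | none =>
        refine ⟨1, ?_⟩
        show gb (BL L0) none * gb (BL L0) none ^ (-1 : ℤ) ∈ _
        rw [zpow_neg_one, mul_inv_cancel]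
        exact Subgroup.one_mem _
      | some i =>
        refine ⟨0, ?_⟩
        rw [neg_zero, zpow_zero, mul_one]
        exact k3_bi p L0 i
  | inv_of x h =>
    obtain ⟨k, hk⟩ := h
    refine ⟨-k, ?_⟩
    have h1 := k3_norm_zpow p L0 _ (Subgroup.inv_mem _ hk) (-k)
    have e : gb (BL L0) none ^ (-k) * (PresentedGroup.mk _ (FreeGroup.of x) *
        gb (BL L0) none ^ (-k))⁻¹ * (gb (BL L0) none ^ (-k))⁻¹ =
        PresentedGroup.mk _ (FreeGroup.of x)⁻¹ * gb (BL L0) none ^ (- -k) := by
      rw [map_inv]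
      group
    rw [e] at h1
    exact h1
  | mul x y hx hy =>
    obtain ⟨k, hk⟩ := hx
    obtain ⟨l, hl⟩ := hy
    refine ⟨k + l, ?_⟩
    have h1 := Subgroup.mul_mem _ hk (k3_norm_zpow p L0 _ hl k)
    have e : PresentedGroup.mk _ x * gb (BL L0) none ^ (-k) * (gb (BL L0) none ^ k *
        (PresentedGroup.mk _ y * gb (BL L0) none ^ (-l)) * (gb (BL L0) none ^ k)⁻¹) =
        PresentedGroup.mk _ (x * y) * gb (BL L0) none ^ (-(k + l)) := by
      rw [map_mul]
      group
    rw [e] at h1
    exact h1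

theorem range_Theta (p : ℕ) [NeZero p] (L0 : List κ) :
    (Theta p L0).range = (c0 p L0).ker := by
  apply le_antisymm (k3_le p L0)
  intro w hw
  obtain ⟨k, hk⟩ := k3_form p L0 w
  have h1 : c0 p L0 (w * gb (BL L0) none ^ (-k)) = 1 := k3_le p L0 hk
  rw [map_mul, MonoidHom.mem_ker.1 hw, one_mul, map_zpow, k3_c0_b, ← ofAdd_zsmul,
    ofAdd_eq_one] at h1
  have h2 : ((k : ℤ) : ZMod p) = 0 := by
    have h3 : -(k : ZMod p) = 0 := by simpa using h1
    simpa using h3
  obtain ⟨l, rfl⟩ := (ZMod.intCast_zmod_eq_zero_iff_dvd k p).1 h2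
  have h4 : gb (BL L0) none ^ ((p : ℤ) * l) ∈ (Theta p L0).range := by
    rw [zpow_mul, zpow_natCast]
    exact Subgroup.zpow_mem _ (k3_bp p L0) l
  have h5 := Subgroup.mul_mem _ hk h4
  rwa [mul_assoc, ← zpow_add, neg_add_cancel, zpow_zero, mul_one] at h5

omit [DecidableEq κ] in
theorem k4_CL_sum (p : ℕ) (L0 : List κ) (f : κ → ℤ) :
    ((CL p L0).map fun q => f q.2).sum = p * (L0.map f).sum := by
  rw [CL, List.map_flatMap, List.flatMap_def, List.sum_flatten, List.map_map]
  have h1 : (List.sum ∘ fun a : Fin p => List.map (fun q : Fin p × κ => f q.2)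
      (List.map (fun i => (a, i)) L0)) = fun _ => (L0.map f).sum := by
    funext a
    simp [Function.comp_def]
  rw [h1]
  simp

omit [DecidableEq κ] in
theorem inter_Theta (p : ℕ) (L0 : List κ) (x y : SG (BL L0) →* Multiplicative ℤ) :
    inter (BL (CL p L0)) (x.comp (Theta p L0)) (y.comp (Theta p L0)) =
      p * inter (BL L0) x y := by
  have ha : Theta p L0 (ga _ none) = ga _ none := by
    show Theta p L0 (proj _ (fa none)) = _
    rw [Theta_proj]
    simp [thFree, fa, ga]
  have hb : Theta p L0 (gb _ none) = gb _ none ^ p := by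
    show Theta p L0 (proj _ (fb none)) = _
    rw [Theta_proj]
    simp [thFree, fb, gb]
  have hai : ∀ q : Fin p × κ, Theta p L0 (ga _ (some q)) =
      gb _ none ^ (q.1 : ℕ) * ga _ (some q.2) * (gb _ none ^ (q.1 : ℕ))⁻¹ := by
    intro q
    show Theta p L0 (proj _ (fa (some q))) = _
    rw [Theta_proj]
    simp [thFree, fa, fb, ga, gb]
  have hbi : ∀ q : Fin p × κ, Theta p L0 (gb _ (some q)) =
      gb _ none ^ (q.1 : ℕ) * gb _ (some q.2) * (gb _ none ^ (q.1 : ℕ))⁻¹ := by
    intro q
    show Theta p L0 (proj _ (fb (some q))) = _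
    rw [Theta_proj]
    simp [thFree, fb, gb]
  have hz : ∀ (z : SG (BL L0) →* Multiplicative ℤ) (u v : SG (BL L0)), z (u * v * u⁻¹) = z v := by
    intro z u v
    rw [z.map_mul, z.map_mul, z.map_inv, mul_inv_cancel_comm]
  have e : inter (BL L0) x y = (x (ga _ none)).toAdd * (y (gb _ none)).toAdd -
      (x (gb _ none)).toAdd * (y (ga _ none)).toAdd + (L0.map fun i =>
      (x (ga _ (some i))).toAdd * (y (gb _ (some i))).toAdd -
      (x (gb _ (some i))).toAdd * (y (ga _ (some i))).toAdd).sum := by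
    simp [inter, List.map_map, Function.comp_def]
  have e' : inter (BL (CL p L0)) (x.comp (Theta p L0)) (y.comp (Theta p L0)) =
      (x (ga _ none)).toAdd * (p * (y (gb _ none)).toAdd) -
      (p * (x (gb _ none)).toAdd) * (y (ga _ none)).toAdd + ((CL p L0).map fun q =>
      (x (ga _ (some q.2))).toAdd * (y (gb _ (some q.2))).toAdd -
      (x (gb _ (some q.2))).toAdd * (y (ga _ (some q.2))).toAdd).sum := by
    unfold inter
    rw [List.map_cons, List.sum_cons, List.map_map]
    simp only [MonoidHom.comp_apply, Function.comp_def, hai, hbi, hz]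
    rw [show Theta p L0 (ga (BL (CL p L0)) none) = ga _ none from ha,
      show Theta p L0 (gb (BL (CL p L0)) none) = gb _ none ^ p from hb, x.map_pow, y.map_pow]
    simp only [toAdd_pow, nsmul_eq_mul]
  rw [e', e, k4_CL_sum p L0 (fun i => (x (ga _ (some i))).toAdd * (y (gb _ (some i))).toAdd -
      (x (gb _ (some i))).toAdd * (y (ga _ (some i))).toAdd)]
  ring

/-- The automorphisms which lift to the covering. -/
def St0 (p : ℕ) (L0 : List κ) : Subgroup (AutPlus (BL L0)) where
  carrier := {f | ∀ w, c0 p L0 (f.1 w) = 1 ↔ c0 p L0 w = 1}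
  mul_mem' {f g} hf hg := fun w => by
    show c0 p L0 (f.1 (g.1 w)) = 1 ↔ _
    rw [hf (g.1 w), hg w]
  one_mem' := fun w => Iff.rfl
  inv_mem' {f} hf := fun w => by
    have h := hf ((f⁻¹ : AutPlus (BL L0)).1 w)
    rw [← h]
    show c0 p L0 (f.1 (f.1⁻¹ w)) = 1 ↔ _
    rw [MulAut.apply_inv_self]

/-- Homomorphisms of the surface group to `ℤ` with prescribed values on the generators. -/
theorem k5_hom {ι : Type} (L : List ι) (v : ι × Bool → Multiplicative ℤ) :
    ∃ X : SG L →* Multiplicative ℤ, ∀ x, X (proj L (FreeGroup.of x)) = v x := by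
  refine ⟨PresentedGroup.toGroup (f := v) ?_, fun x => PresentedGroup.toGroup.of _⟩
  intro r hr
  rw [Set.mem_singleton_iff] at hr
  rw [hr]
  unfold relator
  rw [map_list_prod, List.map_map]
  apply List.prod_eq_one
  intro x hx
  obtain ⟨i, _, rfl⟩ := List.mem_map.1 hx
  simp only [Function.comp_apply, map_mul, map_inv]
  rw [mul_right_comm, mul_inv_cancel_right, mul_inv_cancel]

theorem k5_exists (p : ℕ) [NeZero p] (L0 : List κ) (f : St0 p L0) (y : SG (BL (CL p L0))) :
    ∃ y', Theta p L0 y' = f.1.1 (Theta p L0 y) := by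
  have h1 : Theta p L0 y ∈ (c0 p L0).ker := by
    rw [← range_Theta]
    exact ⟨y, rfl⟩
  have h2 : f.1.1 (Theta p L0 y) ∈ (c0 p L0).ker := (f.2 _).2 h1
  rw [← range_Theta] at h2
  exact h2

/-- The restriction of an automorphism to the covering group is an orientation preserving
automorphism (`exists_deg` and `inter_Theta` give the orientation). -/
theorem exists_res (p : ℕ) [NeZero p] (L0 : List κ) (f : St0 p L0) : ∃ f' : AutPlus (BL (CL p L0)), ∀ y, Theta p L0 (f'.1 y) =
      f.1.1 (Theta p L0 y) := by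
  classical
  choose F hF using k5_exists p L0
  have hinj := Theta_injective p L0
  have hinv : ∀ (g : St0 p L0) (y : SG (BL (CL p L0))), F g⁻¹ (F g y) = y := by
    intro g y
    apply hinj
    rw [hF, hF]
    show g.1.1⁻¹ (g.1.1 _) = _
    rw [MulAut.inv_apply_self]
  let f' : MulAut (SG (BL (CL p L0))) :=
    { toFun := F f
      invFun := F f⁻¹
      left_inv := hinv f
      right_inv := by
        intro y
        have := hinv f⁻¹ y
        rwa [inv_inv] at this
      map_mul' := by
        intro y z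
        apply hinj
        rw [hF, map_mul, map_mul, map_mul, hF, hF] }
  have hf' : ∀ y, Theta p L0 (f' y) = f.1.1 (Theta p L0 y) := fun y => hF f y
  refine ⟨⟨f', ?_⟩, hf'⟩
  obtain ⟨d, hd⟩ := exists_deg (BL (CL p L0)) f'.toMonoidHom
  obtain ⟨X, hX⟩ := k5_hom (BL L0) (fun x => if x = (none, false) then Multiplicative.ofAdd 1 else 1)
  obtain ⟨Y, hY⟩ := k5_hom (BL L0) (fun x => if x = (none, true) then Multiplicative.ofAdd 1 else 1)
  have hXY : inter (BL L0) X Y = 1 := by
    have hXa : ∀ i, X (ga (BL L0) i) = if i = none then Multiplicative.ofAdd 1 else 1 := by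
      intro i
      have := hX (i, false)
      rw [ga, fa, this]
      simp
    have hXb : ∀ i, X (gb (BL L0) i) = 1 := by
      intro i
      have := hX (i, true)
      rw [gb, fb, this]
      simp
    have hYb : ∀ i, Y (gb (BL L0) i) = if i = none then Multiplicative.ofAdd 1 else 1 := by
      intro i
      have := hY (i, true)
      rw [gb, fb, this]
      simp
    have hYa : ∀ i, Y (ga (BL L0) i) = 1 := by
      intro i
      have := hY (i, false)
      rw [ga, fa, this]
      simp
    unfold inter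
    rw [List.map_cons, List.sum_cons, List.map_map]
    have h0 : ∀ l : List κ, (l.map ((fun i => (X (ga (BL L0) i)).toAdd * (Y (gb (BL L0) i)).toAdd -
        (X (gb (BL L0) i)).toAdd * (Y (ga (BL L0) i)).toAdd) ∘ some)).sum = 0 := by
      intro l
      apply List.sum_eq_zero
      intro x hx
      obtain ⟨i, _, rfl⟩ := List.mem_map.1 hx
      simp [hXa, hXb, hYa, hYb]
    rw [h0]
    simp [hXa, hXb, hYa, hYb]
  have h1 := hd (X.comp (Theta p L0)) (Y.comp (Theta p L0))
  have e1 : ∀ Z : SG (BL L0) →* Multiplicative ℤ,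
      (Z.comp (Theta p L0)).comp f'.toMonoidHom =
        (Z.comp f.1.1.toMonoidHom).comp (Theta p L0) := by
    intro Z
    refine MonoidHom.ext fun y => ?_
    show Z (Theta p L0 (f' y)) = Z (f.1.1 (Theta p L0 y))
    rw [hf']
  rw [e1, e1, inter_Theta, inter_Theta, f.1.2 X Y, hXY] at h1
  have hp : (p : ℤ) ≠ 0 := by exact_mod_cast NeZero.ne p
  have hd1 : d = 1 := by
    have : (p : ℤ) * (d - 1) = 0 := by linarith
    rcases mul_eq_zero.1 this with h | h
    · exact absurd h hp
    · linarith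
  intro x y
  have h2 := hd x y
  rw [hd1, one_mul] at h2
  exact h2

end Pool.Agent.Lib.MP_6a1159_al
end

section

/-! Lifts of Dehn twists to the cyclic covering. -/

set_option autoImplicit false

namespace Pool.Agent.Lib.MP_6a1159_al

variable {κ : Type} [DecidableEq κ] (p : ℕ) [NeZero p] (L0 : List κ)

/-- The restriction of liftable automorphisms to the covering group. -/
noncomputable def res : St0 p L0 →* AutPlus (BL (CL p L0)) where
  toFun f := (exists_res p L0 f).choose
  map_one' := by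
    apply Subtype.ext
    ext y
    apply Theta_injective p L0
    exact (exists_res p L0 1).choose_spec y
  map_mul' f g := by
    apply Subtype.ext
    ext y
    apply Theta_injective p L0
    rw [(exists_res p L0 (f * g)).choose_spec y]
    show f.1.1 (g.1.1 (Theta p L0 y)) = Theta p L0 ((exists_res p L0 f).choose.1
      ((exists_res p L0 g).choose.1 y))
    rw [(exists_res p L0 f).choose_spec, (exists_res p L0 g).choose_spec]

theorem res_spec (f : St0 p L0) (y : SG (BL (CL p L0))) :
    Theta p L0 ((res p L0 f).1 y) = f.1.1 (Theta p L0 y) := (exists_res p L0 f).choose_spec y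

/-- The restriction is determined by its values on the generators. -/
theorem res_eq (f : St0 p L0) (g : AutPlus (BL (CL p L0)))
    (ha : ∀ i, Theta p L0 (g.1 (ga _ i)) = f.1.1 (Theta p L0 (ga _ i)))
    (hb : ∀ i, Theta p L0 (g.1 (gb _ i)) = f.1.1 (Theta p L0 (gb _ i))) : res p L0 f = g := by
  apply autPlus_ext
  · intro i
    apply Theta_injective p L0
    rw [res_spec, ha]
  · intro i
    apply Theta_injective p L0
    rw [res_spec, hb]

/-- The restriction, as a mapping class. -/
noncomputable def rM : St0 p L0 →* Mod (BL (CL p L0)) := (QuotientGroup.mk' _).comp (res p L0)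

/-- Inner automorphisms preserve the intersection form. -/
theorem conj_mem {ι : Type} (L : List ι) (γ : SG L) : MulAut.conj γ ∈ AutPlus L := by
  intro x y
  have h : ∀ z : SG L →* Multiplicative ℤ, z.comp (MulAut.conj γ).toMonoidHom = z := by
    intro z
    ext w
    show (z (MulAut.conj γ _)).toAdd = _
    rw [MulAut.conj_apply, z.map_mul, z.map_mul, z.map_inv, mul_inv_cancel_comm]
  rw [h, h]

/-- Inner automorphisms by elements of the covering group become trivial. -/
theorem rM_inner (γ : SG (BL L0)) (hγ : c0 p L0 γ = 1) (f : St0 p L0)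
    (hf : f.1.1 = MulAut.conj γ) : rM p L0 f = 1 := by
  have hmem : γ ∈ (Theta p L0).range := by
    rw [range_Theta]
    exact hγ
  obtain ⟨γ', rfl⟩ := hmem
  have h1 : res p L0 f = ⟨MulAut.conj γ', conj_mem _ γ'⟩ := by
    apply res_eq
    · intro i
      show Theta p L0 (MulAut.conj γ' (ga _ i)) = f.1.1 _
      rw [hf, MulAut.conj_apply, MulAut.conj_apply, map_mul, map_mul, map_inv]
    · intro i
      show Theta p L0 (MulAut.conj γ' (gb _ i)) = f.1.1 _
      rw [hf, MulAut.conj_apply, MulAut.conj_apply, map_mul, map_mul, map_inv]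
  show (QuotientGroup.mk (res p L0 f) : Mod (BL (CL p L0))) = 1
  rw [h1, QuotientGroup.eq_one_iff]
  exact ⟨γ', rfl⟩

/-- The Dehn twist about `a_i` is conjugate to the one about the curve `a` of the first handle. -/
theorem tw_some_conj {κ' : Type} [DecidableEq κ'] (L1 : List κ') (hn : L1.Nodup) (i : κ')
    (hi : i ∈ L1) : ∃ c : Mod (BL L1), tw (BL L1) (some i) = c * tw (BL L1) none * c⁻¹ := by
  obtain ⟨P, Q, rfl⟩ := List.append_of_mem hi
  have hn' := List.nodup_append.1 hn
  have hP : i ∉ P := fun h => hn'.2.2 i h i (by simp) rfl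
  have hQ : i ∉ Q := (List.nodup_cons.1 hn'.2.1).1
  have h1 : (⟨exE P i hP, exE_mem P Q i hP hQ⟩ : StR (BL (P ++ i :: Q)))⁻¹ *
      ⟨twE none, twE_mem none _⟩ * ⟨exE P i hP, exE_mem P Q i hP hQ⟩ =
      ⟨twE (some i), twE_mem (some i) _⟩ := Subtype.ext (exE_conj P i hP)
  have h2 := congrArg (toAut (BL (P ++ i :: Q))) h1
  rw [map_mul, map_mul, map_inv, toAut_twE, toAut_twE] at h2
  refine ⟨QuotientGroup.mk ((toAut (BL (P ++ i :: Q))
    ⟨exE P i hP, exE_mem P Q i hP hQ⟩)⁻¹), ?_⟩
  show (QuotientGroup.mk (twist _ _) : Mod (BL (P ++ i :: Q))) = _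
  rw [← h2]
  show _ = _ * QuotientGroup.mk (twist _ _) * _
  rw [← QuotientGroup.mk_inv, ← QuotientGroup.mk_mul, ← QuotientGroup.mk_mul, inv_inv]

/-- The Dehn twist about `b` is conjugate to the one about `a`. -/
theorem tw'_conj {κ' : Type} [DecidableEq κ'] (L1 : List κ') : ∃ c : Mod (BL L1),
    (QuotientGroup.mk (toAut (BL L1) ⟨twE' none, twE'_mem none _⟩) : Mod (BL L1)) =
      c * tw (BL L1) none * c⁻¹ := by
  have h1 : (⟨rotE, rotE_mem L1⟩ : StR (BL L1))⁻¹ *
      ⟨twE none, twE_mem none _⟩ * ⟨rotE, rotE_mem L1⟩ =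
      ⟨twE' none, twE'_mem none _⟩ := Subtype.ext rotE_conj
  have h2 := congrArg (toAut (BL L1)) h1
  rw [map_mul, map_mul, map_inv, toAut_twE] at h2
  refine ⟨QuotientGroup.mk ((toAut (BL L1) ⟨rotE, rotE_mem L1⟩)⁻¹), ?_⟩
  rw [← h2]
  show _ = _ * QuotientGroup.mk (twist _ _) * _
  rw [← QuotientGroup.mk_inv, ← QuotientGroup.mk_mul, ← QuotientGroup.mk_mul, inv_inv]

theorem r3_toAut_pow {κ' : Type} [DecidableEq κ'] (L : List (Option κ')) (n : ℕ)
    (w : FreeGroup (Option κ' × Bool)) :
    (toAut L ⟨twE' none, twE'_mem none _⟩ ^ n).1 (proj L w) =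
      proj L (twFree' none (n : ℤ) w) := by
  rw [← map_pow, toAut_proj, ← twE'_pow]
  rfl

omit [DecidableEq κ] [NeZero p] in
theorem r3_th_a_none : thFree p (fa (none : Option (Fin p × κ))) = fa none := by
  simp [thFree, fa]

omit [DecidableEq κ] [NeZero p] in
theorem r3_th_b_none : thFree p (fb (none : Option (Fin p × κ))) = fb none ^ p := by
  simp [thFree, fb]

omit [DecidableEq κ] [NeZero p] in
theorem r3_th_a_some (q : Fin p × κ) : thFree p (fa (some q)) =
    fb none ^ (q.1 : ℕ) * fa (some q.2) * (fb none ^ (q.1 : ℕ))⁻¹ := by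
  simp [thFree, fa, fb]

omit [DecidableEq κ] [NeZero p] in
theorem r3_th_b_some (q : Fin p × κ) : thFree p (fb (some q)) =
    fb none ^ (q.1 : ℕ) * fb (some q.2) * (fb none ^ (q.1 : ℕ))⁻¹ := by
  simp [thFree, fb]

/-- Type A: the `p m`-th power of the twist about `b` restricts to the `m`-th power of the twist
about `B = b ^ p`. -/
theorem rM_A (m : ℕ) (f : St0 p L0)
    (hf : f.1 = toAut (BL L0) ⟨twE' none, twE'_mem none _⟩ ^ (p * m)) :
    CP (tw (BL (CL p L0)) none) 1 m (rM p L0 f) := by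
  have hF : ∀ w, f.1.1 (proj (BL L0) w) = proj (BL L0) (twFree' none ((p * m : ℕ) : ℤ) w) := by
    intro w
    rw [hf]
    exact r3_toAut_pow (BL L0) (p * m) w
  have h1 : res p L0 f = toAut (BL (CL p L0)) ⟨twE' none, twE'_mem none _⟩ ^ m := by
    apply res_eq
    · intro i
      show Theta p L0 ((toAut (BL (CL p L0)) ⟨twE' none, twE'_mem none _⟩ ^ m).1
        (proj _ (fa i))) = f.1.1 (Theta p L0 (proj _ (fa i)))
      rw [r3_toAut_pow, Theta_proj, Theta_proj, hF]
      congr 1
      rcases i with _ | q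
      · simp only [twFree'_a, map_mul, map_zpow, r3_th_a_none, r3_th_b_none]
        rw [← zpow_natCast, ← zpow_mul]
        push_cast
        congr 2
        ring
      · rw [twFree'_a_ne none (some q) _ (by simp)]
        simp only [r3_th_a_some, map_mul, map_pow, map_inv, twFree'_b,
          twFree'_a_ne none (some q.2) _ (by simp : some q.2 ≠ none)]
    · intro i
      show Theta p L0 ((toAut (BL (CL p L0)) ⟨twE' none, twE'_mem none _⟩ ^ m).1
        (proj _ (fb i))) = f.1.1 (Theta p L0 (proj _ (fb i)))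
      rw [r3_toAut_pow, Theta_proj, Theta_proj, hF, twFree'_b]
      congr 1
      rcases i with _ | q
      · simp only [r3_th_b_none, map_pow, twFree'_b]
      · simp only [r3_th_b_some, map_mul, map_pow, map_inv, twFree'_b]
  obtain ⟨c, hc⟩ := tw'_conj (CL p L0)
  have h2 : rM p L0 f = c * tw (BL (CL p L0)) none ^ m * c⁻¹ := by
    show (QuotientGroup.mk (res p L0 f) : Mod (BL (CL p L0))) = _
    rw [h1, QuotientGroup.mk_pow, hc, conj_pow]
  rw [h2]
  exact CP_single _ _ _

theorem r4_pow_a {ι : Type} [DecidableEq ι] (L : List ι) (i j : ι) (m : ℕ) :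
    (twist L i ^ m).1 (ga L j) = ga L j := by
  induction m with
  | zero => rfl
  | succ m ih =>
    rw [pow_succ]
    show (twist L i ^ m).1 (twAut L i (ga L j)) = _
    rw [twAut_a, ih]

theorem r4_pow_b {ι : Type} [DecidableEq ι] (L : List ι) (i : ι) (m : ℕ) :
    (twist L i ^ m).1 (gb L i) = gb L i * ga L i ^ m := by
  induction m with
  | zero => simp
  | succ m ih =>
    rw [pow_succ]
    show (twist L i ^ m).1 (twAut L i (gb L i)) = _
    rw [twAut_b, map_mul, ih, r4_pow_a, pow_succ, mul_assoc]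

theorem r4_pow_b_ne {ι : Type} [DecidableEq ι] (L : List ι) (i j : ι) (h : j ≠ i) (m : ℕ) :
    (twist L i ^ m).1 (gb L j) = gb L j := by
  induction m with
  | zero => rfl
  | succ m ih =>
    rw [pow_succ]
    show (twist L i ^ m).1 (twAut L i (gb L j)) = _
    rw [twAut_b_ne L i j h, ih]

theorem r4_prod_a {ι : Type} [DecidableEq ι] (L : List ι) (J : List ι) (m : ℕ) (j : ι) :
    ((J.map fun i => twist L i ^ m).prod).1 (ga L j) = ga L j := by
  induction J with
  | nil => rfl
  | cons i J ih =>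
    rw [List.map_cons, List.prod_cons]
    show (twist L i ^ m).1 (((J.map fun i => twist L i ^ m).prod).1 (ga L j)) = _
    rw [ih, r4_pow_a]

theorem r4_prod_b_not {ι : Type} [DecidableEq ι] (L : List ι) (J : List ι) (m : ℕ) (j : ι)
    (h : j ∉ J) : ((J.map fun i => twist L i ^ m).prod).1 (gb L j) = gb L j := by
  induction J with
  | nil => rfl
  | cons i J ih =>
    rw [List.mem_cons, not_or] at h
    rw [List.map_cons, List.prod_cons]
    show (twist L i ^ m).1 (((J.map fun i => twist L i ^ m).prod).1 (gb L j)) = _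
    rw [ih h.2, r4_pow_b_ne L i j h.1]

theorem r4_prod_b {ι : Type} [DecidableEq ι] (L : List ι) (J : List ι) (hJ : J.Nodup) (m : ℕ)
    (j : ι) (h : j ∈ J) :
    ((J.map fun i => twist L i ^ m).prod).1 (gb L j) = gb L j * ga L j ^ m := by
  induction J with
  | nil => simp at h
  | cons i J ih =>
    rw [List.nodup_cons] at hJ
    rw [List.map_cons, List.prod_cons]
    show (twist L i ^ m).1 (((J.map fun i => twist L i ^ m).prod).1 (gb L j)) = _
    by_cases hj : j = i
    · subst hj
      rw [r4_prod_b_not L J m j hJ.1, r4_pow_b]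
    · have h' : j ∈ J := by
        rcases List.mem_cons.1 h with h1 | h1
        · exact absurd h1 hj
        · exact h1
      rw [ih hJ.2 h', map_mul, r4_pow_b_ne L i j hj, map_pow, r4_pow_a]

omit [NeZero p] in
theorem r4_Theta_a (q : Fin p × κ) : Theta p L0 (ga _ (some q)) =
      gb _ none ^ (q.1 : ℕ) * ga _ (some q.2) * (gb _ none ^ (q.1 : ℕ))⁻¹ := by
  show Theta p L0 (proj _ (fa (some q))) = _
  rw [Theta_proj]
  simp [thFree, fa, fb, ga, gb]

omit [NeZero p] in
theorem r4_Theta_b (q : Fin p × κ) : Theta p L0 (gb _ (some q)) =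
      gb _ none ^ (q.1 : ℕ) * gb _ (some q.2) * (gb _ none ^ (q.1 : ℕ))⁻¹ := by
  show Theta p L0 (proj _ (fb (some q))) = _
  rw [Theta_proj]
  simp [thFree, fb, gb]

omit [NeZero p] in
theorem r4_Theta_a0 : Theta p L0 (ga _ none) = ga _ none := by
  show Theta p L0 (proj _ (fa none)) = _
  rw [Theta_proj]
  simp [thFree, fa, ga]

omit [NeZero p] in
theorem r4_Theta_b0 : Theta p L0 (gb _ none) = gb _ none ^ p := by
  show Theta p L0 (proj _ (fb none)) = _
  rw [Theta_proj]
  simp [thFree, fb, gb]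

/-- Type C: the twist about `a_i` restricts to the product of the twists about `a_(k,i)`. -/
theorem rM_C (hn : L0.Nodup) (i : κ) (hi : i ∈ L0) (m : ℕ) (f : St0 p L0)
    (hf : f.1 = twist (BL L0) (some i) ^ m) :
    CP (tw (BL (CL p L0)) none) p (p * m) (rM p L0 f) := by
  have hinj : Function.Injective (fun k : Fin p => (some (k, i) : Option (Fin p × κ))) := by
    intro k l h
    simpa using h
  have hJ : ((List.finRange p).map fun k : Fin p => (some (k, i) : Option (Fin p × κ))).Nodup :=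
    (List.nodup_finRange p).map hinj
  have hres : res p L0 f = (((List.finRange p).map fun k : Fin p =>
      (some (k, i) : Option (Fin p × κ))).map fun z => twist (BL (CL p L0)) z ^ m).prod := by
    have hb0 : (twist (BL L0) (some i) ^ m).1 (gb (BL L0) none) = gb (BL L0) none :=
      r4_pow_b_ne _ _ _ (by simp) m
    apply res_eq
    · intro z
      rw [r4_prod_a, hf]
      rcases z with _ | ⟨k, l⟩
      · rw [r4_Theta_a0, r4_pow_a]
      · rw [r4_Theta_a, map_mul, map_mul, map_inv, map_pow, hb0, r4_pow_a]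
    · intro z
      rw [hf]
      rcases z with _ | ⟨k, l⟩
      · rw [r4_prod_b_not _ _ _ _ (by simp), r4_Theta_b0, map_pow, hb0]
      · by_cases hl : l = i
        · subst hl
          rw [r4_prod_b _ _ hJ m _ (List.mem_map.2 ⟨k, by simp, rfl⟩), map_mul, map_pow,
            r4_Theta_b, r4_Theta_a, map_mul, map_mul, map_inv, map_pow, hb0, r4_pow_b]
          have hpow : ∀ (u v : SG (BL L0)), (u * v * u⁻¹) ^ m = u * v ^ m * u⁻¹ := by
            intro u v
            rw [← MulAut.conj_apply, ← MulAut.conj_apply, map_pow]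
          rw [hpow]
          simp only [mul_assoc, inv_mul_cancel_left]
        · have hne : (some (k, l) : Option (Fin p × κ)) ∉
              (List.finRange p).map fun k : Fin p => (some (k, i) : Option (Fin p × κ)) := by
            intro h
            obtain ⟨k', _, h'⟩ := List.mem_map.1 h
            simp only [Option.some.injEq, Prod.mk.injEq] at h'
            exact hl h'.2.symm
          rw [r4_prod_b_not _ _ _ _ hne, r4_Theta_b, map_mul, map_mul, map_inv, map_pow, hb0,
            r4_pow_b_ne _ _ _ (by simpa using hl)]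
  have hcl : rM p L0 f = ((List.finRange p).map fun k : Fin p =>
      tw (BL (CL p L0)) (some (k, i)) ^ m).prod := by
    show (QuotientGroup.mk' _) (res p L0 f) = _
    rw [hres, map_list_prod, List.map_map, List.map_map]
    rfl
  rw [hcl]
  have h1 := CP_list (t := tw (BL (CL p L0)) none) (List.finRange p)
    (fun k : Fin p => tw (BL (CL p L0)) (some (k, i)) ^ m) (fun _ => 1) (fun _ => m) (by
      intro k _
      obtain ⟨c, hc⟩ := tw_some_conj (CL p L0) (CL_nodup p L0 hn) (k, i) (by
        rw [CL, List.mem_flatMap]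
        exact ⟨k, by simp, List.mem_map.2 ⟨i, hi, rfl⟩⟩)
      show CP _ 1 m (tw (BL (CL p L0)) (some (k, i)) ^ m)
      rw [hc]
      have hpow : (c * tw (BL (CL p L0)) none * c⁻¹) ^ m =
          c * tw (BL (CL p L0)) none ^ m * c⁻¹ := by
        rw [← MulAut.conj_apply, ← MulAut.conj_apply, map_pow]
      rw [hpow]
      exact CP_single _ _ _)
  simpa using h1

/-- Conjugation by `b`, the deck transformation. -/
def cb : St0 p L0 := ⟨⟨MulAut.conj (gb (BL L0) none), conj_mem _ _⟩, by
  intro w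
  show c0 p L0 (MulAut.conj _ w) = 1 ↔ _
  rw [MulAut.conj_apply, map_mul, map_mul, map_inv, mul_inv_cancel_comm]⟩

section r5

theorem r5_theta_a : Theta p L0 (ga _ none) = ga (BL L0) none := by
  show Theta p L0 (proj _ (fa none)) = _
  rw [Theta_proj]
  simp [thFree, fa, ga]

theorem r5_theta_b : Theta p L0 (gb _ none) = gb (BL L0) none ^ p := by
  show Theta p L0 (proj _ (fb none)) = _
  rw [Theta_proj]
  simp [thFree, fb, gb]

theorem r5_theta_ah (k : Fin p) (i : κ) : Theta p L0 (ga _ (some (k, i))) =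
    gb (BL L0) none ^ (k : ℕ) * ga (BL L0) (some i) * (gb (BL L0) none ^ (k : ℕ))⁻¹ := by
  show Theta p L0 (proj _ (fa (some (k, i)))) = _
  rw [Theta_proj]
  simp [thFree, fa, fb, ga, gb]

theorem r5_theta_bh (k : Fin p) (i : κ) : Theta p L0 (gb _ (some (k, i))) =
    gb (BL L0) none ^ (k : ℕ) * gb (BL L0) (some i) * (gb (BL L0) none ^ (k : ℕ))⁻¹ := by
  show Theta p L0 (proj _ (fb (some (k, i)))) = _
  rw [Theta_proj]
  simp [thFree, fb, gb]

/-- The product of the commutators of the handles of `L0`. -/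
def r5_W : SG (BL L0) := (L0.map fun i => ga (BL L0) (some i) * gb (BL L0) (some i) *
  (ga (BL L0) (some i))⁻¹ * (gb (BL L0) (some i))⁻¹).prod

/-- The product of the commutators of the handles `(k, i)`. -/
def r5_WW (k : Fin p) : SG (BL (CL p L0)) :=
  (L0.map fun i => ga (BL (CL p L0)) (some (k, i)) * gb (BL (CL p L0)) (some (k, i)) *
    (ga (BL (CL p L0)) (some (k, i)))⁻¹ * (gb (BL (CL p L0)) (some (k, i)))⁻¹).prod

theorem r5_rel : r5_W L0 = gb (BL L0) none * ga (BL L0) none * (gb (BL L0) none)⁻¹ *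
    (ga (BL L0) none)⁻¹ := by
  have h0 : proj (BL L0) (relator (BL L0)) = 1 :=
    PresentedGroup.one_of_mem (Set.mem_singleton _)
  have h1 : proj (BL L0) (fa none * fb none * (fa none)⁻¹ * (fb none)⁻¹ * relS L0) = 1 :=
    (congrArg (proj (BL L0)) (relator_BL L0)).symm.trans h0
  rw [map_mul] at h1
  have h2 : proj (BL L0) (relS L0) = r5_W L0 := by
    have h5 : proj (BL L0) (((L0.map some).map fun i => fa i * fb i * (fa i)⁻¹ * (fb i)⁻¹).prod) =
        r5_W L0 := by
      rw [map_list_prod, List.map_map, List.map_map]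
      rfl
    exact h5
  rw [h2] at h1
  have h3 : proj (BL L0) (fa none * fb none * (fa none)⁻¹ * (fb none)⁻¹) =
      ga (BL L0) none * gb (BL L0) none * (ga (BL L0) none)⁻¹ * (gb (BL L0) none)⁻¹ := by
    simp [ga, gb]
  rw [h3] at h1
  rw [eq_inv_of_mul_eq_one_right h1]
  group

theorem r5_theta_WW (k : Fin p) : Theta p L0 (r5_WW p L0 k) =
    gb (BL L0) none ^ (k : ℕ) * r5_W L0 * (gb (BL L0) none ^ (k : ℕ))⁻¹ := by
  unfold r5_WW r5_W
  rw [← MulAut.conj_apply, map_list_prod, map_list_prod, List.map_map, List.map_map]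
  congr 1
  apply List.map_congr_left
  intro i _
  simp only [Function.comp_apply, map_mul, map_inv, MulAut.conj_apply, r5_theta_ah, r5_theta_bh]

theorem r5_delta (n : ℕ) (y : SG (BL (CL p L0))) :
    Theta p L0 (((res p L0 (cb p L0)).1 ^ n) y) =
      gb (BL L0) none ^ n * Theta p L0 y * (gb (BL L0) none ^ n)⁻¹ := by
  induction n generalizing y with
  | zero => simp
  | succ n ih =>
    rw [pow_succ, MulAut.mul_apply, ih, res_spec]
    show _ * (gb (BL L0) none * Theta p L0 y * (gb (BL L0) none)⁻¹) * _ = _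
    rw [pow_succ, mul_inv_rev]
    group

theorem r5_delta_inv (n : ℕ) (y : SG (BL (CL p L0))) :
    Theta p L0 (((res p L0 (cb p L0)).1 ^ n)⁻¹ y) =
      (gb (BL L0) none ^ n)⁻¹ * Theta p L0 y * gb (BL L0) none ^ n := by
  have h1 := r5_delta p L0 n (((res p L0 (cb p L0)).1 ^ n)⁻¹ y)
  rw [MulAut.apply_inv_self] at h1
  rw [h1]
  group

theorem r5_T_a {ι : Type} [DecidableEq ι] (L : List ι) (i j : ι) (m : ℕ) :
    ((twAut L i) ^ m) (ga L j) = ga L j := by
  induction m with
  | zero => rfl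
  | succ m ih => rw [pow_succ, MulAut.mul_apply, twAut_a, ih]

theorem r5_T_b_ne {ι : Type} [DecidableEq ι] (L : List ι) (i j : ι) (h : j ≠ i) (m : ℕ) :
    ((twAut L i) ^ m) (gb L j) = gb L j := by
  induction m with
  | zero => rfl
  | succ m ih => rw [pow_succ, MulAut.mul_apply, twAut_b_ne L i j h, ih]

theorem r5_T_b {ι : Type} [DecidableEq ι] (L : List ι) (i : ι) (m : ℕ) :
    ((twAut L i) ^ m) (gb L i) = gb L i * ga L i ^ m := by
  induction m with
  | zero => simp
  | succ m ih => rw [pow_succ, MulAut.mul_apply, twAut_b, map_mul, ih, r5_T_a, pow_succ, mul_assoc]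

theorem r5_T_WW (k : Fin p) (m : ℕ) :
    ((twAut (BL (CL p L0)) none) ^ m) (r5_WW p L0 k) = r5_WW p L0 k := by
  unfold r5_WW
  rw [map_list_prod, List.map_map]
  congr 1
  apply List.map_congr_left
  intro i _
  simp only [Function.comp_apply, map_mul, map_inv, r5_T_a]
  rw [r5_T_b_ne _ _ _ (by simp)]

theorem r5_y (l : ℕ) (hl : l < p) : ((res p L0 (cb p L0)).1 ^ l)⁻¹ (ga _ none) =
    (gb _ none)⁻¹ * r5_WW p L0 ⟨p - 1 - l, by omega⟩ * gb _ none *
      ((res p L0 (cb p L0)).1 ^ (l + 1))⁻¹ (ga _ none) := by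
  apply Theta_injective p L0
  rw [r5_delta_inv, map_mul, map_mul, map_mul, map_inv, r5_theta_b, r5_theta_WW, r5_delta_inv,
    r5_theta_a, r5_rel]
  have hp : p = (p - 1 - l) + (l + 1) := by omega
  show _ = (gb (BL L0) none ^ p)⁻¹ * (gb (BL L0) none ^ (p - 1 - l) * _ *
    (gb (BL L0) none ^ (p - 1 - l))⁻¹) * gb (BL L0) none ^ p * _
  have h1 : gb (BL L0) none ^ p = gb (BL L0) none ^ (p - 1 - l) * gb (BL L0) none ^ (l + 1) := by
    rw [← pow_add, ← hp]
  rw [h1, pow_succ (gb (BL L0) none) l]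
  group

/-- `T ^ m` conjugates `δ^(-l) a` by `a ^ (-m)`. -/
theorem r5_Ty (m l : ℕ) (hl : l ≤ p) : ((twAut (BL (CL p L0)) none) ^ m)
    (((res p L0 (cb p L0)).1 ^ l)⁻¹ (ga _ none)) =
      (ga _ none ^ m)⁻¹ * ((res p L0 (cb p L0)).1 ^ l)⁻¹ (ga _ none) * ga _ none ^ m := by
  induction l with
  | zero =>
    rw [pow_zero, inv_one, MulAut.one_apply, r5_T_a]
    group
  | succ l ih =>
    have h1 := r5_y p L0 l (by omega)
    have h2 := ih (by omega)
    set Y := ((res p L0 (cb p L0)).1 ^ l)⁻¹ (ga (BL (CL p L0)) none) with hY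
    set Y' := ((res p L0 (cb p L0)).1 ^ (l + 1))⁻¹ (ga (BL (CL p L0)) none) with hY'
    have h3 : Y' = ((gb _ none)⁻¹ * r5_WW p L0 ⟨p - 1 - l, by omega⟩ * gb _ none)⁻¹ * Y := by
      rw [h1]
      group
    rw [h3, map_mul, map_inv, map_mul, map_mul, map_inv, r5_T_WW, r5_T_b, h2]
    group

end r5

/-- The lift of the twist about the curve `x_j = b^j a b^(-j)`, normalized so that it fixes the
handles `(k, i)` with `k < j`. -/
theorem exists_U (m j : ℕ) (hj : 1 ≤ j) (hjp : j < p) : ∃ U : AutPlus (BL (CL p L0)),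
    (QuotientGroup.mk U : Mod (BL (CL p L0))) =
      rM p L0 (cb p L0) ^ j * tw (BL (CL p L0)) none ^ m * (rM p L0 (cb p L0) ^ j)⁻¹ ∧
    U.1 (ga _ none) = ga _ none ∧
    Theta p L0 (U.1 (gb _ none)) = gb (BL L0) none ^ j * ga (BL L0) none ^ m *
      (gb (BL L0) none ^ j)⁻¹ * gb (BL L0) none ^ p ∧
    ∀ (k : Fin p) (i : κ),
      (((k : ℕ) < j → U.1 (ga _ (some (k, i))) = ga _ (some (k, i)) ∧
        U.1 (gb _ (some (k, i))) = gb _ (some (k, i))) ∧
      (j ≤ (k : ℕ) → Theta p L0 (U.1 (ga _ (some (k, i)))) =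
          (gb (BL L0) none ^ j * ga (BL L0) none ^ m * (gb (BL L0) none ^ j)⁻¹) *
          Theta p L0 (ga _ (some (k, i))) *
          (gb (BL L0) none ^ j * ga (BL L0) none ^ m * (gb (BL L0) none ^ j)⁻¹)⁻¹ ∧
        Theta p L0 (U.1 (gb _ (some (k, i)))) =
          (gb (BL L0) none ^ j * ga (BL L0) none ^ m * (gb (BL L0) none ^ j)⁻¹) *
          Theta p L0 (gb _ (some (k, i))) *
          (gb (BL L0) none ^ j * ga (BL L0) none ^ m * (gb (BL L0) none ^ j)⁻¹)⁻¹)) := by
  set δ := (res p L0 (cb p L0)).1 with hδ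
  set A := ga (BL (CL p L0)) none with hA
  set T := (twAut (BL (CL p L0)) none) ^ m with hT
  set x := (δ ^ j) A with hx
  let U : AutPlus (BL (CL p L0)) := ⟨MulAut.conj (x ^ m), conj_mem _ _⟩ *
    (res p L0 (cb p L0) ^ j * twist (BL (CL p L0)) none ^ m * (res p L0 (cb p L0) ^ j)⁻¹)
  have hU : ∀ y, U.1 y = x ^ m * (δ ^ j) (T ((δ ^ j)⁻¹ y)) * (x ^ m)⁻¹ := by
    intro y
    rfl
  have hthx : Theta p L0 (x ^ m) = gb (BL L0) none ^ j * ga (BL L0) none ^ m *
      (gb (BL L0) none ^ j)⁻¹ := by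
    rw [map_pow, hx, r5_delta, hA, r5_theta_a, conj_pow]
  -- elements which are moved by conjugation are fixed by `U`
  have hP : ∀ y, T ((δ ^ j)⁻¹ y) = (A ^ m)⁻¹ * (δ ^ j)⁻¹ y * A ^ m → U.1 y = y := by
    intro y h
    rw [hU, h, map_mul, map_mul, MulAut.apply_inv_self, map_inv, map_pow]
    rw [← hx]
    group
  have hF : ∀ y, T ((δ ^ j)⁻¹ y) = (δ ^ j)⁻¹ y → U.1 y = x ^ m * y * (x ^ m)⁻¹ := by
    intro y h
    rw [hU, h, MulAut.apply_inv_self]
  -- the shift of a handle generator, `k < j`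
  have hlow : ∀ (k : Fin p) (hk : (k : ℕ) < j) (z : Fin p → SG (BL (CL p L0)))
      (z0 : SG (BL L0)), (∀ k, Theta p L0 (z k) =
        gb (BL L0) none ^ (k : ℕ) * z0 * (gb (BL L0) none ^ (k : ℕ))⁻¹) →
      (∀ k, T (z k) = z k) → U.1 (z k) = z k := by
    intro k hk z z0 hz hTz
    apply hP
    have h1 : (δ ^ j)⁻¹ (z k) = (gb _ none)⁻¹ * z ⟨p + k - j, by omega⟩ * gb _ none := by
      apply Theta_injective p L0
      rw [r5_delta_inv, hz, map_mul, map_mul, map_inv, r5_theta_b, hz]
      show _ = (gb (BL L0) none ^ p)⁻¹ * (gb (BL L0) none ^ (p + (k : ℕ) - j) * z0 *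
        (gb (BL L0) none ^ (p + (k : ℕ) - j))⁻¹) * gb (BL L0) none ^ p
      have h2 : gb (BL L0) none ^ p = gb (BL L0) none ^ (p + (k : ℕ) - j) *
          gb (BL L0) none ^ (j - (k : ℕ)) := by
        rw [← pow_add]
        congr 1
        omega
      have h3 : gb (BL L0) none ^ j = gb (BL L0) none ^ (k : ℕ) *
          gb (BL L0) none ^ (j - (k : ℕ)) := by
        rw [← pow_add]
        congr 1
        omega
      rw [h2, h3]
      group
    rw [h1, map_mul, map_mul, map_inv, hTz, hT, r5_T_b, ← hA]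
    group
  have hhigh : ∀ (k : Fin p) (hk : j ≤ (k : ℕ)) (z : Fin p → SG (BL (CL p L0)))
      (z0 : SG (BL L0)), (∀ k, Theta p L0 (z k) =
        gb (BL L0) none ^ (k : ℕ) * z0 * (gb (BL L0) none ^ (k : ℕ))⁻¹) →
      (∀ k, T (z k) = z k) → Theta p L0 (U.1 (z k)) =
        (gb (BL L0) none ^ j * ga (BL L0) none ^ m * (gb (BL L0) none ^ j)⁻¹) *
          Theta p L0 (z k) *
          (gb (BL L0) none ^ j * ga (BL L0) none ^ m * (gb (BL L0) none ^ j)⁻¹)⁻¹ := by
    intro k hk z z0 hz hTz
    have h1 : (δ ^ j)⁻¹ (z k) = z ⟨k - j, by omega⟩ := by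
      apply Theta_injective p L0
      rw [r5_delta_inv, hz, hz]
      show _ = gb (BL L0) none ^ ((k : ℕ) - j) * z0 * (gb (BL L0) none ^ ((k : ℕ) - j))⁻¹
      have h3 : gb (BL L0) none ^ (k : ℕ) = gb (BL L0) none ^ j *
          gb (BL L0) none ^ ((k : ℕ) - j) := by
        rw [← pow_add]
        congr 1
        omega
      rw [h3]
      group
    rw [hF (z k) (by rw [h1, hTz]), map_mul, map_mul, map_inv, hthx]
  refine ⟨U, ?_, ?_, ?_, ?_⟩
  · have h1 : (QuotientGroup.mk (⟨MulAut.conj (x ^ m), conj_mem _ _⟩ : AutPlus (BL (CL p L0))) :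
        Mod (BL (CL p L0))) = 1 := by
      rw [QuotientGroup.eq_one_iff]
      exact ⟨x ^ m, rfl⟩
    show (QuotientGroup.mk (⟨MulAut.conj (x ^ m), conj_mem _ _⟩ *
      (res p L0 (cb p L0) ^ j * twist (BL (CL p L0)) none ^ m *
        (res p L0 (cb p L0) ^ j)⁻¹)) : Mod (BL (CL p L0))) = _
    rw [QuotientGroup.mk_mul, h1, one_mul]
    rfl
  · apply hP
    exact r5_Ty p L0 m j hjp.le
  · have h1 : (δ ^ j)⁻¹ (gb (BL (CL p L0)) none) = gb _ none := by
      apply Theta_injective p L0
      rw [r5_delta_inv, r5_theta_b, mul_assoc, ← pow_add, Nat.add_comm, pow_add,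
        inv_mul_cancel_left]
    have h2 : (δ ^ j) (gb (BL (CL p L0)) none) = gb _ none := by
      rw [← h1, MulAut.apply_inv_self, h1]
    have h3 : (δ ^ j) (gb (BL (CL p L0)) none * ga (BL (CL p L0)) none ^ m) =
        gb (BL (CL p L0)) none * x ^ m := by
      rw [map_mul, map_pow, h2, ← hA, ← hx]
    have h4 : U.1 (gb (BL (CL p L0)) none) = x ^ m * gb (BL (CL p L0)) none := by
      rw [hU, h1, hT, r5_T_b, h3]
      group
    rw [h4, map_mul, hthx, r5_theta_b]
  · intro k i
    refine ⟨fun hk => ⟨?_, ?_⟩, fun hk => ⟨?_, ?_⟩⟩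
    · exact hlow k hk (fun k => ga _ (some (k, i))) _ (fun k => r5_theta_ah p L0 k i)
        (fun k => r5_T_a _ _ _ _)
    · exact hlow k hk (fun k => gb _ (some (k, i))) _ (fun k => r5_theta_bh p L0 k i)
        (fun k => r5_T_b_ne _ _ _ (by simp) _)
    · exact hhigh k hk (fun k => ga _ (some (k, i))) _ (fun k => r5_theta_ah p L0 k i)
        (fun k => r5_T_a _ _ _ _)
    · exact hhigh k hk (fun k => gb _ (some (k, i))) _ (fun k => r5_theta_bh p L0 k i)
        (fun k => r5_T_b_ne _ _ _ (by simp) _)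

/-! ### Helpers for `rM_B` -/

omit [DecidableEq κ] [NeZero p] in
theorem r6_th_a : Theta p L0 (ga _ none) = ga (BL L0) none := by
  show Theta p L0 (proj _ (fa none)) = _
  rw [Theta_proj]
  simp [thFree, fa, ga]

omit [DecidableEq κ] [NeZero p] in
theorem r6_th_b : Theta p L0 (gb _ none) = gb (BL L0) none ^ p := by
  show Theta p L0 (proj _ (fb none)) = _
  rw [Theta_proj]
  simp [thFree, fb, gb]

omit [DecidableEq κ] [NeZero p] in
theorem r6_th_ai (k : Fin p) (i : κ) : Theta p L0 (ga _ (some (k, i))) =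
    gb (BL L0) none ^ (k : ℕ) * ga (BL L0) (some i) * (gb (BL L0) none ^ (k : ℕ))⁻¹ := by
  show Theta p L0 (proj _ (fa (some (k, i)))) = _
  rw [Theta_proj]
  simp [thFree, fa, ga, gb, fb]

omit [DecidableEq κ] [NeZero p] in
theorem r6_th_bi (k : Fin p) (i : κ) : Theta p L0 (gb _ (some (k, i))) =
    gb (BL L0) none ^ (k : ℕ) * gb (BL L0) (some i) * (gb (BL L0) none ^ (k : ℕ))⁻¹ := by
  show Theta p L0 (proj _ (fb (some (k, i)))) = _
  rw [Theta_proj]
  simp [thFree, fb, gb]

theorem r6_tw_a {ι : Type} [DecidableEq ι] (L : List ι) (i j : ι) (m : ℕ) :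
    (twist L i ^ m).1 (ga L j) = ga L j := by
  induction m with
  | zero => rfl
  | succ m ih =>
    rw [pow_succ]
    show (twist L i ^ m).1 ((twist L i).1 (ga L j)) = _
    rw [show (twist L i).1 (ga L j) = ga L j from twAut_a L i j, ih]

theorem r6_tw_b {ι : Type} [DecidableEq ι] (L : List ι) (i : ι) (m : ℕ) :
    (twist L i ^ m).1 (gb L i) = gb L i * ga L i ^ m := by
  induction m with
  | zero => simp
  | succ m ih =>
    rw [pow_succ]
    show (twist L i ^ m).1 ((twist L i).1 (gb L i)) = _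
    rw [show (twist L i).1 (gb L i) = gb L i * ga L i from twAut_b L i, map_mul, ih, r6_tw_a,
      pow_succ, mul_assoc]

theorem r6_tw_b_ne {ι : Type} [DecidableEq ι] (L : List ι) (i j : ι) (m : ℕ) (h : j ≠ i) :
    (twist L i ^ m).1 (gb L j) = gb L j := by
  induction m with
  | zero => rfl
  | succ m ih =>
    rw [pow_succ]
    show (twist L i ^ m).1 ((twist L i).1 (gb L j)) = _
    rw [show (twist L i).1 (gb L j) = gb L j from twAut_b_ne L i j h, ih]

/-- The generators of the handles up to `j`. -/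
def r6S (j : ℕ) : Set (SG (BL (CL p L0))) :=
  {y | y = ga _ none ∨ ∃ (k : Fin p) (i : κ), (k : ℕ) ≤ j ∧
    (y = ga _ (some (k, i)) ∨ y = gb _ (some (k, i)))}

omit [DecidableEq κ] [NeZero p] in
theorem r6_W (k : Fin p) (M : List κ) :
    Theta p L0 ((M.map fun i => ga (BL (CL p L0)) (some (k, i)) * gb _ (some (k, i)) *
      (ga _ (some (k, i)))⁻¹ * (gb _ (some (k, i)))⁻¹).prod) =
    gb (BL L0) none ^ (k : ℕ) * (M.map fun i => ga (BL L0) (some i) * gb _ (some i) *
      (ga _ (some i))⁻¹ * (gb _ (some i))⁻¹).prod * (gb (BL L0) none ^ (k : ℕ))⁻¹ := by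
  induction M with
  | nil => simp
  | cons i M ih =>
    rw [List.map_cons, List.map_cons, List.prod_cons, List.prod_cons, map_mul, ih]
    simp only [map_mul, map_inv, r6_th_ai, r6_th_bi]
    group

omit [DecidableEq κ] in
theorem r6_rel : (L0.map fun i => ga (BL L0) (some i) * gb _ (some i) *
      (ga _ (some i))⁻¹ * (gb _ (some i))⁻¹).prod =
    gb (BL L0) none * ga (BL L0) none * (gb (BL L0) none)⁻¹ * (ga (BL L0) none)⁻¹ := by
  have h : proj (BL L0) (relator (BL L0)) = 1 :=
    PresentedGroup.one_of_mem (Set.mem_singleton _)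
  have h2 : ∀ (G : Type) [Group G] (φ : FreeGroup (Option κ × Bool) →* G),
      φ (relator (BL L0)) =
      φ (fa none) * φ (fb none) * (φ (fa none))⁻¹ * (φ (fb none))⁻¹ *
      (L0.map fun i => φ (fa (some i)) * φ (fb (some i)) *
      (φ (fa (some i)))⁻¹ * (φ (fb (some i)))⁻¹).prod := by
    intro G _ φ
    unfold relator
    rw [map_list_prod, List.map_map, List.map_cons, List.prod_cons, List.map_map]
    simp only [Function.comp_def, map_mul, map_inv]
  rw [h2 _ (proj (BL L0))] at h
  have h3 := eq_inv_of_mul_eq_one_right h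
  show (L0.map fun i => proj (BL L0) (fa (some i)) * proj (BL L0) (fb (some i)) *
      (proj (BL L0) (fa (some i)))⁻¹ * (proj (BL L0) (fb (some i)))⁻¹).prod = _
  rw [h3]
  show (ga (BL L0) none * gb (BL L0) none * (ga (BL L0) none)⁻¹ * (gb (BL L0) none)⁻¹)⁻¹ = _
  group

omit [DecidableEq κ] [NeZero p] in
theorem r6_x (j : ℕ) (hj : j < p) : ∃ x ∈ Subgroup.closure (r6S p L0 j),
    Theta p L0 x = gb (BL L0) none ^ (j + 1) * ga (BL L0) none *
      (gb (BL L0) none ^ (j + 1))⁻¹ := by
  induction j with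
  | zero =>
    refine ⟨((L0.map fun i => ga (BL (CL p L0)) (some (⟨0, hj⟩, i)) * gb _ (some (⟨0, hj⟩, i)) *
      (ga _ (some (⟨0, hj⟩, i)))⁻¹ * (gb _ (some (⟨0, hj⟩, i)))⁻¹).prod) * ga _ none, ?_, ?_⟩
    · apply Subgroup.mul_mem
      · apply Subgroup.list_prod_mem
        intro y hy
        obtain ⟨i, _, rfl⟩ := List.mem_map.1 hy
        have h1 : ga (BL (CL p L0)) (some (⟨0, hj⟩, i)) ∈ Subgroup.closure (r6S p L0 0) :=
          Subgroup.subset_closure (Or.inr ⟨⟨0, hj⟩, i, le_refl _, Or.inl rfl⟩)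
        have h2 : gb (BL (CL p L0)) (some (⟨0, hj⟩, i)) ∈ Subgroup.closure (r6S p L0 0) :=
          Subgroup.subset_closure (Or.inr ⟨⟨0, hj⟩, i, le_refl _, Or.inr rfl⟩)
        exact Subgroup.mul_mem _ (Subgroup.mul_mem _ (Subgroup.mul_mem _ h1 h2)
          (Subgroup.inv_mem _ h1)) (Subgroup.inv_mem _ h2)
      · exact Subgroup.subset_closure (Or.inl rfl)
    · rw [map_mul, r6_W, r6_rel, r6_th_a]
      simp only [pow_zero, zero_add, pow_one]
      group
  | succ j ih =>
    obtain ⟨x, hx, hxe⟩ := ih (by omega)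
    refine ⟨((L0.map fun i => ga (BL (CL p L0)) (some (⟨j + 1, hj⟩, i)) *
      gb _ (some (⟨j + 1, hj⟩, i)) * (ga _ (some (⟨j + 1, hj⟩, i)))⁻¹ *
      (gb _ (some (⟨j + 1, hj⟩, i)))⁻¹).prod) * x, ?_, ?_⟩
    · apply Subgroup.mul_mem
      · apply Subgroup.list_prod_mem
        intro y hy
        obtain ⟨i, _, rfl⟩ := List.mem_map.1 hy
        have h1 : ga (BL (CL p L0)) (some (⟨j + 1, hj⟩, i)) ∈
            Subgroup.closure (r6S p L0 (j + 1)) :=
          Subgroup.subset_closure (Or.inr ⟨⟨j + 1, hj⟩, i, le_refl _, Or.inl rfl⟩)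
        have h2 : gb (BL (CL p L0)) (some (⟨j + 1, hj⟩, i)) ∈
            Subgroup.closure (r6S p L0 (j + 1)) :=
          Subgroup.subset_closure (Or.inr ⟨⟨j + 1, hj⟩, i, le_refl _, Or.inr rfl⟩)
        exact Subgroup.mul_mem _ (Subgroup.mul_mem _ (Subgroup.mul_mem _ h1 h2)
          (Subgroup.inv_mem _ h1)) (Subgroup.inv_mem _ h2)
      · refine Subgroup.closure_mono ?_ hx
        rintro y (hy | ⟨k, i, hk, hy⟩)
        · exact Or.inl hy
        · exact Or.inr ⟨k, i, by omega, hy⟩
    · rw [map_mul, r6_W, r6_rel, hxe]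
      show gb (BL L0) none ^ (j + 1) * _ * _ * _ = _
      rw [pow_succ (gb (BL L0) none) (j + 1)]
      group

/-- The product of the `U_1, ..., U_j`. -/
theorem r6_V (m j : ℕ) (hjp : j < p) : ∃ V : AutPlus (BL (CL p L0)),
    CP (tw (BL (CL p L0)) none) j (j * m) (QuotientGroup.mk V : Mod (BL (CL p L0))) ∧
    (∀ y ∈ Subgroup.closure (r6S p L0 j), Theta p L0 (V.1 y) =
      (twist (BL L0) none ^ m).1 (Theta p L0 y)) ∧
    Theta p L0 (V.1 (gb _ none)) = (gb (BL L0) none * ga (BL L0) none ^ m) ^ j *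
      (gb (BL L0) none ^ j)⁻¹ * gb (BL L0) none ^ p ∧
    ∀ (k : Fin p) (i : κ), j ≤ (k : ℕ) →
      Theta p L0 (V.1 (ga _ (some (k, i)))) =
        ((gb (BL L0) none * ga (BL L0) none ^ m) ^ j * (gb (BL L0) none ^ j)⁻¹) *
          Theta p L0 (ga _ (some (k, i))) *
          ((gb (BL L0) none * ga (BL L0) none ^ m) ^ j * (gb (BL L0) none ^ j)⁻¹)⁻¹ ∧
      Theta p L0 (V.1 (gb _ (some (k, i)))) =
        ((gb (BL L0) none * ga (BL L0) none ^ m) ^ j * (gb (BL L0) none ^ j)⁻¹) *
          Theta p L0 (gb _ (some (k, i))) *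
          ((gb (BL L0) none * ga (BL L0) none ^ m) ^ j * (gb (BL L0) none ^ j)⁻¹)⁻¹ := by
  induction j with
  | zero =>
    refine ⟨1, ⟨[], rfl, by simp, by simp⟩, ?_, ?_, ?_⟩
    · intro y hy
      have h : Set.EqOn (Theta p L0) ((twist (BL L0) none ^ m).1.toMonoidHom.comp (Theta p L0))
          (Subgroup.closure (r6S p L0 0)) := by
        apply MonoidHom.eqOn_closure
        rintro y (rfl | ⟨k, i, hk, rfl | rfl⟩)
        · show Theta p L0 _ = (twist (BL L0) none ^ m).1 (Theta p L0 _)
          rw [r6_th_a, r6_tw_a]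
        · show Theta p L0 _ = (twist (BL L0) none ^ m).1 (Theta p L0 _)
          rw [r6_th_ai, show (k : ℕ) = 0 by omega]
          simp only [pow_zero, one_mul, inv_one, mul_one, r6_tw_a]
        · show Theta p L0 _ = (twist (BL L0) none ^ m).1 (Theta p L0 _)
          rw [r6_th_bi, show (k : ℕ) = 0 by omega]
          simp only [pow_zero, one_mul, inv_one, mul_one]
          rw [r6_tw_b_ne _ _ _ _ (by simp)]
      exact h hy
    · show Theta p L0 (gb _ none) = _
      rw [r6_th_b]; simp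
    · intro k i _
      constructor
      · show Theta p L0 (ga _ _) = _
        simp
      · show Theta p L0 (gb _ _) = _
        simp
  | succ j ih =>
    obtain ⟨V, hCP, h1, h2, h3⟩ := ih (by omega)
    obtain ⟨U, hU, hUa, hUb, hUk⟩ := exists_U p L0 m (j + 1) (by omega) hjp
    obtain ⟨x, hx, hxe⟩ := r6_x p L0 j (by omega)
    set a := ga (BL L0) none with ha
    set b := gb (BL L0) none with hb
    -- the image of `x ^ m`
    have hxm : Theta p L0 (x ^ m) = b ^ (j + 1) * a ^ m * (b ^ (j + 1))⁻¹ := by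
      rw [map_pow, hxe, conj_pow]
    have hVx : Theta p L0 (V.1 (x ^ m)) = (b * a ^ m) ^ (j + 1) * a ^ m *
        ((b * a ^ m) ^ (j + 1))⁻¹ := by
      rw [h1 _ (Subgroup.pow_mem _ hx m), hxm, map_mul, map_mul, map_inv, map_pow, map_pow,
        r6_tw_b, r6_tw_a]
    have key : (b * a ^ m) ^ (j + 1) * a ^ m * ((b * a ^ m) ^ (j + 1))⁻¹ *
        ((b * a ^ m) ^ j * (b ^ j)⁻¹) = (b * a ^ m) ^ (j + 1) * (b ^ (j + 1))⁻¹ := by
      rw [pow_succ (b * a ^ m) j, pow_succ b j]
      group
    have hconj : ∀ (k : Fin p) (y : SG (BL (CL p L0))), Theta p L0 (U.1 y) =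
        (b ^ (j + 1) * a ^ m * (b ^ (j + 1))⁻¹) * Theta p L0 y *
          (b ^ (j + 1) * a ^ m * (b ^ (j + 1))⁻¹)⁻¹ →
        Theta p L0 (V.1 y) = ((b * a ^ m) ^ j * (b ^ j)⁻¹) * Theta p L0 y *
          ((b * a ^ m) ^ j * (b ^ j)⁻¹)⁻¹ →
        Theta p L0 ((V * U).1 y) = ((b * a ^ m) ^ (j + 1) * (b ^ (j + 1))⁻¹) *
          Theta p L0 y * ((b * a ^ m) ^ (j + 1) * (b ^ (j + 1))⁻¹)⁻¹ := by
      intro k y hy hV
      have e : U.1 y = x ^ m * y * (x ^ m)⁻¹ := by
        apply Theta_injective p L0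
        rw [hy, map_mul, map_mul, map_inv, hxm]
      show Theta p L0 (V.1 (U.1 y)) = _
      rw [e, map_mul, map_mul, map_inv, map_mul, map_mul, map_inv, hVx, hV, ← key]
      group
    refine ⟨V * U, ?_, ?_, ?_, ?_⟩
    · have := CP_mul hCP (CP_single (tw (BL (CL p L0)) none) (rM p L0 (cb p L0) ^ (j + 1)) m)
      rw [← hU, ← QuotientGroup.mk_mul] at this
      rw [Nat.succ_mul]
      exact this
    · have h : Set.EqOn ((Theta p L0).comp (V * U).1.toMonoidHom)
          ((twist (BL L0) none ^ m).1.toMonoidHom.comp (Theta p L0))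
          (Subgroup.closure (r6S p L0 (j + 1))) := by
        apply MonoidHom.eqOn_closure
        rintro y (rfl | ⟨k, i, hk, hy⟩)
        · show Theta p L0 (V.1 (U.1 (ga _ none))) = (twist (BL L0) none ^ m).1 (Theta p L0 _)
          rw [hUa, h1 _ (Subgroup.subset_closure (Or.inl rfl))]
        · show Theta p L0 (V.1 (U.1 _)) = (twist (BL L0) none ^ m).1 (Theta p L0 _)
          rcases Nat.lt_or_ge (k : ℕ) (j + 1) with hlt | hge
          · have hm : y ∈ Subgroup.closure (r6S p L0 j) :=
              Subgroup.subset_closure (Or.inr ⟨k, i, by omega, hy⟩)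
            have hUy : U.1 y = y := by
              rcases hy with rfl | rfl
              · exact ((hUk k i).1 hlt).1
              · exact ((hUk k i).1 hlt).2
            rw [hUy, h1 _ hm]
          · have hk' : (k : ℕ) = j + 1 := by omega
            rcases hy with rfl | rfl
            · have := hconj k _ ((hUk k i).2 hge).1 (h3 k i (by omega)).1
              have h' : Theta p L0 (V.1 (U.1 (ga _ (some (k, i))))) = _ := this
              rw [h', r6_th_ai, hk', map_mul, map_mul, map_inv, map_pow, r6_tw_b, r6_tw_a,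
                ← hb, ← ha]
              group
            · have := hconj k _ ((hUk k i).2 hge).2 (h3 k i (by omega)).2
              have h' : Theta p L0 (V.1 (U.1 (gb _ (some (k, i))))) = _ := this
              rw [h', r6_th_bi, hk', map_mul, map_mul, map_inv, map_pow, r6_tw_b,
                r6_tw_b_ne _ _ _ _ (by simp), ← hb, ← ha]
              group
      intro y hy
      exact h hy
    · have e : U.1 (gb _ none) = x ^ m * gb _ none := by
        apply Theta_injective p L0
        rw [hUb, map_mul, hxm, r6_th_b]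
      show Theta p L0 (V.1 (U.1 (gb _ none))) = _
      rw [e, map_mul, map_mul, hVx, h2, ← key]
      group
    · intro k i hk
      exact ⟨hconj k _ ((hUk k i).2 hk).1 (h3 k i (by omega)).1,
        hconj k _ ((hUk k i).2 hk).2 (h3 k i (by omega)).2⟩

/-- Type B: the twist about `a` restricts to the product of the twists about the `p` lifts
`x_0, ..., x_(p-1)` of `a`. -/
theorem rM_B (m : ℕ) (f : St0 p L0) (hf : f.1 = twist (BL L0) none ^ m) :
    CP (tw (BL (CL p L0)) none) p (p * m) (rM p L0 f) := by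
  have hp : 1 ≤ p := Nat.one_le_iff_ne_zero.2 (NeZero.ne p)
  obtain ⟨V, hCP, h1, h2, h3⟩ := r6_V p L0 m (p - 1) (by omega)
  have hall : ∀ k : Fin p, (k : ℕ) ≤ p - 1 := fun k => by omega
  have hres : res p L0 f = V * twist (BL (CL p L0)) none ^ m := by
    apply res_eq
    · intro i
      rw [hf]
      show Theta p L0 (V.1 ((twist (BL (CL p L0)) none ^ m).1 (ga _ i))) = _
      rw [r6_tw_a]
      apply h1
      apply Subgroup.subset_closure
      cases i with
      | none => exact Or.inl rfl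
      | some q => exact Or.inr ⟨q.1, q.2, hall _, Or.inl rfl⟩
    · intro i
      rw [hf]
      show Theta p L0 (V.1 ((twist (BL (CL p L0)) none ^ m).1 (gb _ i))) = _
      cases i with
      | none =>
        have h0 : ga (BL (CL p L0)) none ∈ Subgroup.closure (r6S p L0 (p - 1)) :=
          Subgroup.subset_closure (Or.inl rfl)
        have hm : ga (BL (CL p L0)) none ^ m ∈ Subgroup.closure (r6S p L0 (p - 1)) :=
          Subgroup.pow_mem _ h0 m
        rw [r6_tw_b, map_mul, map_mul, h2, h1 _ hm, map_pow, map_pow, r6_th_a, r6_th_b, r6_tw_a,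
          map_pow, r6_tw_b]
        obtain ⟨n, rfl⟩ : ∃ n, p = n + 1 := ⟨p - 1, by omega⟩
        simp only [Nat.add_sub_cancel]
        rw [pow_succ (gb (BL L0) none) n, pow_succ (gb (BL L0) none * ga (BL L0) none ^ m) n]
        group
      | some q =>
        rw [r6_tw_b_ne _ _ _ _ (by simp)]
        apply h1
        apply Subgroup.subset_closure
        exact Or.inr ⟨q.1, q.2, hall _, Or.inr rfl⟩
  have hM : rM p L0 f = (QuotientGroup.mk V : Mod (BL (CL p L0))) *
      tw (BL (CL p L0)) none ^ m := by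
    show (QuotientGroup.mk (res p L0 f) : Mod (BL (CL p L0))) = _
    rw [hres]
    rfl
  rw [hM]
  have := CP_mul hCP (CP_single (tw (BL (CL p L0)) none) (1 : Mod (BL (CL p L0))) m)
  rw [one_mul, inv_one, mul_one] at this
  rw [show p - 1 + 1 = p by omega, show (p - 1) * m + m = p * m by
    obtain ⟨n, rfl⟩ : ∃ n, p = n + 1 := ⟨p - 1, by omega⟩
    simp only [Nat.add_sub_cancel]; ring] at this
  exact this

end Pool.Agent.Lib.MP_6a1159_al
end
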